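import Pool.Agent.CG3.T2Leaf

open MeasureTheory ProbabilityTheory
open scoped BigOperators

namespace CG3
noncomputable section

theorem coverI_0 {F x y : ℝ} (hF : T2hyp (1/3) F x y) (hx1 : (9/25) ≤ x) (hx2 : x ≤ (177/400))
    (hy1 : (11/100) ≤ y) (hy2 : y ≤ (9/40)) : F ≤ (113307/25000) :=
  T2_leaf hF (by norm_num) 227075 52071 16942 6062 4501309
    (9/25) (177/400) (11/100) (9/40) (133/400) (7273/1000) (27343/2000000) (60599/1000000) (22417/10000) (9/125) (720 / 10000) (113307/25000)
    hx1 hx2 hy1 hy2 (by norm_num) (by norm_num) (by norm_num) (by norm_num) (by norm_num)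
    (corners (by norm_num) (by norm_num) (by norm_num) (by norm_num)) (by norm_num) (Or.inr (by norm_num))
    (by norm_num) (by norm_num) (by norm_num) (by decide +kernel) (by norm_num) (by norm_num) (by norm_num)
    (exp_neg_le_cert _ _ (by norm_num) (by norm_num) (by norm_num))
    (exp_neg_le_cert _ _ (by norm_num) (by norm_num) (by norm_num))
    (by norm_num) (by norm_num) (rho1 _ (by norm_num)) (by norm_num) (by norm_num) (by norm_num)

theorem coverI_1 {F x y : ℝ} (hF : T2hyp (1/3) F x y) (hx1 : (9/25) ≤ x) (hx2 : x ≤ (1003/2500))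
    (hy1 : (9/40) ≤ y) (hy2 : y ≤ (1269/5000)) : F ≤ (113307/25000) :=
  T2_leaf hF (by norm_num) 236593 62609 19359 6623 4493577
    (9/25) (1003/2500) (9/40) (1269/5000) (69/200) (856/125) (20979/1250000) (758657/10000000) (23431/12500) (9/125) (720 / 10000) (113307/25000)
    hx1 hx2 hy1 hy2 (by norm_num) (by norm_num) (by norm_num) (by norm_num) (by norm_num)
    (corners (by norm_num) (by norm_num) (by norm_num) (by norm_num)) (by norm_num) (Or.inr (by norm_num))
    (by norm_num) (by norm_num) (by norm_num) (by decide +kernel) (by norm_num) (by norm_num) (by norm_num)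
    (exp_neg_le_cert _ _ (by norm_num) (by norm_num) (by norm_num))
    (exp_neg_le_cert _ _ (by norm_num) (by norm_num) (by norm_num))
    (by norm_num) (by norm_num) (rho1 _ (by norm_num)) (by norm_num) (by norm_num) (by norm_num)

theorem coverI_2 {F x y : ℝ} (hF : T2hyp (1/3) F x y) (hx1 : (9/25) ≤ x) (hx2 : x ≤ (1003/2500))
    (hy1 : (1269/5000) ≤ y) (hy2 : y ≤ (113/400)) : F ≤ (113307/25000) :=
  T2_leaf hF (by norm_num) 242693 66520 20945 7099 4489432
    (9/25) (1003/2500) (1269/5000) (113/400) (3163/10000) (649/100) (5089/200000) (1195433/10000000) (5684/3125) (9/125) (720 / 10000) (113307/25000)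
    hx1 hx2 hy1 hy2 (by norm_num) (by norm_num) (by norm_num) (by norm_num) (by norm_num)
    (corners (by norm_num) (by norm_num) (by norm_num) (by norm_num)) (by norm_num) (Or.inr (by norm_num))
    (by norm_num) (by norm_num) (by norm_num) (by decide +kernel) (by norm_num) (by norm_num) (by norm_num)
    (exp_neg_le_cert _ _ (by norm_num) (by norm_num) (by norm_num))
    (exp_neg_le_cert _ _ (by norm_num) (by norm_num) (by norm_num))
    (by norm_num) (by norm_num) (rho1 _ (by norm_num)) (by norm_num) (by norm_num) (by norm_num)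

theorem coverI_3 {F x y : ℝ} (hF : T2hyp (1/3) F x y) (hx1 : (9/25) ≤ x) (hx2 : x ≤ (1903/5000))
    (hy1 : (113/400) ≤ y) (hy2 : y ≤ (389/1250)) : F ≤ (113307/25000) :=
  T2_leaf hF (by norm_num) 251493 72454 23165 7845 4483479
    (9/25) (1903/5000) (113/400) (389/1250) (1541/5000) (773/125) (318127/10000000) (763859/5000000) (177081/100000) (9/125) (720 / 10000) (113307/25000)
    hx1 hx2 hy1 hy2 (by norm_num) (by norm_num) (by norm_num) (by norm_num) (by norm_num)
    (corners (by norm_num) (by norm_num) (by norm_num) (by norm_num)) (by norm_num) (Or.inr (by norm_num))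
    (by norm_num) (by norm_num) (by norm_num) (by decide +kernel) (by norm_num) (by norm_num) (by norm_num)
    (exp_neg_le_cert _ _ (by norm_num) (by norm_num) (by norm_num))
    (exp_neg_le_cert _ _ (by norm_num) (by norm_num) (by norm_num))
    (by norm_num) (by norm_num) (rho1 _ (by norm_num)) (by norm_num) (by norm_num) (by norm_num)

theorem coverI_4 {F x y : ℝ} (hF : T2hyp (1/3) F x y) (hx1 : (1903/5000) ≤ x) (hx2 : x ≤ (1003/2500))
    (hy1 : (113/400) ≤ y) (hy2 : y ≤ (389/1250)) : F ≤ (113307/25000) :=
  T2_leaf hF (by norm_num) 261981 80320 27352 9785 4475672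
    (1903/5000) (1003/2500) (113/400) (389/1250) (719/2500) (773/125) (178389/5000000) (1732133/10000000) (87317/50000) (9/125) (720 / 10000) (113307/25000)
    hx1 hx2 hy1 hy2 (by norm_num) (by norm_num) (by norm_num) (by norm_num) (by norm_num)
    (corners (by norm_num) (by norm_num) (by norm_num) (by norm_num)) (by norm_num) (Or.inr (by norm_num))
    (by norm_num) (by norm_num) (by norm_num) (by decide +kernel) (by norm_num) (by norm_num) (by norm_num)
    (exp_neg_le_cert _ _ (by norm_num) (by norm_num) (by norm_num))
    (exp_neg_le_cert _ _ (by norm_num) (by norm_num) (by norm_num))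
    (by norm_num) (by norm_num) (rho1 _ (by norm_num)) (by norm_num) (by norm_num) (by norm_num)

theorem coverI_5 {F x y : ℝ} (hF : T2hyp (1/3) F x y) (hx1 : (9/25) ≤ x) (hx2 : x ≤ (1903/5000))
    (hy1 : (389/1250) ≤ y) (hy2 : y ≤ (407/1250)) : F ≤ (113307/25000) :=
  T2_leaf hF (by norm_num) 262221 79612 26175 8965 4476267
    (9/25) (1903/5000) (389/1250) (407/1250) (1469/5000) (3023/500) (37041/1000000) (14443/80000) (172849/100000) (9/125) (720 / 10000) (113307/25000)
    hx1 hx2 hy1 hy2 (by norm_num) (by norm_num) (by norm_num) (by norm_num) (by norm_num)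
    (corners (by norm_num) (by norm_num) (by norm_num) (by norm_num)) (by norm_num) (Or.inr (by norm_num))
    (by norm_num) (by norm_num) (by norm_num) (by decide +kernel) (by norm_num) (by norm_num) (by norm_num)
    (exp_neg_le_cert _ _ (by norm_num) (by norm_num) (by norm_num))
    (exp_neg_le_cert _ _ (by norm_num) (by norm_num) (by norm_num))
    (by norm_num) (by norm_num) (rho1 _ (by norm_num)) (by norm_num) (by norm_num) (by norm_num)

theorem coverI_6 {F x y : ℝ} (hF : T2hyp (1/3) F x y) (hx1 : (9/25) ≤ x) (hx2 : x ≤ (3703/10000))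
    (hy1 : (407/1250) ≤ y) (hy2 : y ≤ (17/50)) : F ≤ (113307/25000) :=
  T2_leaf hF (by norm_num) 268435 83876 28035 9706 4472089
    (9/25) (3703/10000) (407/1250) (17/50) (2897/10000) (1479/250) (101093/2500000) (397209/2000000) (34181/20000) (9/125) (720 / 10000) (113307/25000)
    hx1 hx2 hy1 hy2 (by norm_num) (by norm_num) (by norm_num) (by norm_num) (by norm_num)
    (corners (by norm_num) (by norm_num) (by norm_num) (by norm_num)) (by norm_num) (Or.inr (by norm_num))
    (by norm_num) (by norm_num) (by norm_num) (by decide +kernel) (by norm_num) (by norm_num) (by norm_num)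
    (exp_neg_le_cert _ _ (by norm_num) (by norm_num) (by norm_num))
    (exp_neg_le_cert _ _ (by norm_num) (by norm_num) (by norm_num))
    (by norm_num) (by norm_num) (rho1 _ (by norm_num)) (by norm_num) (by norm_num) (by norm_num)

theorem coverI_7 {F x y : ℝ} (hF : T2hyp (1/3) F x y) (hx1 : (3703/10000) ≤ x) (hx2 : x ≤ (1903/5000))
    (hy1 : (407/1250) ≤ y) (hy2 : y ≤ (17/50)) : F ≤ (113307/25000) :=
  T2_leaf hF (by norm_num) 273833 87718 30041 10622 4468313
    (3703/10000) (1903/5000) (407/1250) (17/50) (1397/5000) (1479/250) (426157/10000000) (262941/1250000) (21213/12500) (9/125) (720 / 10000) (113307/25000)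
    hx1 hx2 hy1 hy2 (by norm_num) (by norm_num) (by norm_num) (by norm_num) (by norm_num)
    (corners (by norm_num) (by norm_num) (by norm_num) (by norm_num)) (by norm_num) (Or.inr (by norm_num))
    (by norm_num) (by norm_num) (by norm_num) (by decide +kernel) (by norm_num) (by norm_num) (by norm_num)
    (exp_neg_le_cert _ _ (by norm_num) (by norm_num) (by norm_num))
    (exp_neg_le_cert _ _ (by norm_num) (by norm_num) (by norm_num))
    (by norm_num) (by norm_num) (rho1 _ (by norm_num)) (by norm_num) (by norm_num) (by norm_num)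

theorem coverI_8 {F x y : ℝ} (hF : T2hyp (1/3) F x y) (hx1 : (1903/5000) ≤ x) (hx2 : x ≤ (1003/2500))
    (hy1 : (389/1250) ≤ y) (hy2 : y ≤ (407/1250)) : F ≤ (113307/25000) :=
  T2_leaf hF (by norm_num) 273104 87536 30362 10905 4468494
    (1903/5000) (1003/2500) (389/1250) (407/1250) (683/2500) (3023/500) (103329/2500000) (407121/2000000) (170461/100000) (9/125) (720 / 10000) (113307/25000)
    hx1 hx2 hy1 hy2 (by norm_num) (by norm_num) (by norm_num) (by norm_num) (by norm_num)
    (corners (by norm_num) (by norm_num) (by norm_num) (by norm_num)) (by norm_num) (Or.inr (by norm_num))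
    (by norm_num) (by norm_num) (by norm_num) (by decide +kernel) (by norm_num) (by norm_num) (by norm_num)
    (exp_neg_le_cert _ _ (by norm_num) (by norm_num) (by norm_num))
    (exp_neg_le_cert _ _ (by norm_num) (by norm_num) (by norm_num))
    (by norm_num) (by norm_num) (rho1 _ (by norm_num)) (by norm_num) (by norm_num) (by norm_num)

theorem coverI_9 {F x y : ℝ} (hF : T2hyp (1/3) F x y) (hx1 : (1903/5000) ≤ x) (hx2 : x ≤ (3909/10000))
    (hy1 : (407/1250) ≤ y) (hy2 : y ≤ (17/50)) : F ≤ (113307/25000) :=
  T2_leaf hF (by norm_num) 279515 91816 32222 11645 4464353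
    (1903/5000) (3909/10000) (407/1250) (17/50) (2691/10000) (1479/250) (89823/2000000) (2227961/10000000) (5267/3125) (9/125) (720 / 10000) (113307/25000)
    hx1 hx2 hy1 hy2 (by norm_num) (by norm_num) (by norm_num) (by norm_num) (by norm_num)
    (corners (by norm_num) (by norm_num) (by norm_num) (by norm_num)) (by norm_num) (Or.inr (by norm_num))
    (by norm_num) (by norm_num) (by norm_num) (by decide +kernel) (by norm_num) (by norm_num) (by norm_num)
    (exp_neg_le_cert _ _ (by norm_num) (by norm_num) (by norm_num))
    (exp_neg_le_cert _ _ (by norm_num) (by norm_num) (by norm_num))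
    (by norm_num) (by norm_num) (rho1 _ (by norm_num)) (by norm_num) (by norm_num) (by norm_num)

theorem coverI_10 {F x y : ℝ} (hF : T2hyp (1/3) F x y) (hx1 : (3909/10000) ≤ x) (hx2 : x ≤ (1003/2500))
    (hy1 : (407/1250) ≤ y) (hy2 : y ≤ (17/50)) : F ≤ (113307/25000) :=
  T2_leaf hF (by norm_num) 285479 96175 34587 12786 4460212
    (3909/10000) (1003/2500) (407/1250) (17/50) (647/2500) (1479/250) (473309/10000000) (471951/2000000) (167423/100000) (9/125) (720 / 10000) (113307/25000)
    hx1 hx2 hy1 hy2 (by norm_num) (by norm_num) (by norm_num) (by norm_num) (by norm_num)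
    (corners (by norm_num) (by norm_num) (by norm_num) (by norm_num)) (by norm_num) (Or.inr (by norm_num))
    (by norm_num) (by norm_num) (by norm_num) (by decide +kernel) (by norm_num) (by norm_num) (by norm_num)
    (exp_neg_le_cert _ _ (by norm_num) (by norm_num) (by norm_num))
    (exp_neg_le_cert _ _ (by norm_num) (by norm_num) (by norm_num))
    (by norm_num) (by norm_num) (rho1 _ (by norm_num)) (by norm_num) (by norm_num) (by norm_num)

theorem coverI_11 {F x y : ℝ} (hF : T2hyp (1/3) F x y) (hx1 : (1003/2500) ≤ x) (hx2 : x ≤ (177/400))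
    (hy1 : (9/40) ≤ y) (hy2 : y ≤ (113/400)) : F ≤ (113307/25000) :=
  T2_leaf hF (by norm_num) 256095 78279 28471 10971 4477929
    (1003/2500) (177/400) (9/40) (113/400) (11/40) (649/100) (65553/2000000) (1577517/10000000) (91219/50000) (9/125) (720 / 10000) (113307/25000)
    hx1 hx2 hy1 hy2 (by norm_num) (by norm_num) (by norm_num) (by norm_num) (by norm_num)
    (corners (by norm_num) (by norm_num) (by norm_num) (by norm_num)) (by norm_num) (Or.inr (by norm_num))
    (by norm_num) (by norm_num) (by norm_num) (by decide +kernel) (by norm_num) (by norm_num) (by norm_num)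
    (exp_neg_le_cert _ _ (by norm_num) (by norm_num) (by norm_num))
    (exp_neg_le_cert _ _ (by norm_num) (by norm_num) (by norm_num))
    (by norm_num) (by norm_num) (rho1 _ (by norm_num)) (by norm_num) (by norm_num) (by norm_num)

theorem coverI_12 {F x y : ℝ} (hF : T2hyp (1/3) F x y) (hx1 : (1003/2500) ≤ x) (hx2 : x ≤ (2109/5000))
    (hy1 : (113/400) ≤ y) (hy2 : y ≤ (389/1250)) : F ≤ (113307/25000) :=
  T2_leaf hF (by norm_num) 273601 89237 32277 12193 4467117
    (1003/2500) (2109/5000) (113/400) (389/1250) (267/1000) (773/125) (200063/5000000) (1963901/10000000) (43087/25000) (9/125) (720 / 10000) (113307/25000)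
    hx1 hx2 hy1 hy2 (by norm_num) (by norm_num) (by norm_num) (by norm_num) (by norm_num)
    (corners (by norm_num) (by norm_num) (by norm_num) (by norm_num)) (by norm_num) (Or.inr (by norm_num))
    (by norm_num) (by norm_num) (by norm_num) (by decide +kernel) (by norm_num) (by norm_num) (by norm_num)
    (exp_neg_le_cert _ _ (by norm_num) (by norm_num) (by norm_num))
    (exp_neg_le_cert _ _ (by norm_num) (by norm_num) (by norm_num))
    (by norm_num) (by norm_num) (rho1 _ (by norm_num)) (by norm_num) (by norm_num) (by norm_num)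

theorem coverI_13 {F x y : ℝ} (hF : T2hyp (1/3) F x y) (hx1 : (1003/2500) ≤ x) (hx2 : x ≤ (2109/5000))
    (hy1 : (389/1250) ≤ y) (hy2 : y ≤ (407/1250)) : F ≤ (113307/25000) :=
  T2_leaf hF (by norm_num) 285118 96506 35287 13313 4459991
    (1003/2500) (2109/5000) (389/1250) (407/1250) (1263/5000) (3023/500) (230597/5000000) (573799/2500000) (168229/100000) (9/125) (720 / 10000) (113307/25000)
    hx1 hx2 hy1 hy2 (by norm_num) (by norm_num) (by norm_num) (by norm_num) (by norm_num)
    (corners (by norm_num) (by norm_num) (by norm_num) (by norm_num)) (by norm_num) (Or.inr (by norm_num))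
    (by norm_num) (by norm_num) (by norm_num) (by decide +kernel) (by norm_num) (by norm_num) (by norm_num)
    (exp_neg_le_cert _ _ (by norm_num) (by norm_num) (by norm_num))
    (exp_neg_le_cert _ _ (by norm_num) (by norm_num) (by norm_num))
    (by norm_num) (by norm_num) (rho1 _ (by norm_num)) (by norm_num) (by norm_num) (by norm_num)

theorem coverI_14 {F x y : ℝ} (hF : T2hyp (1/3) F x y) (hx1 : (1003/2500) ≤ x) (hx2 : x ≤ (823/2000))
    (hy1 : (407/1250) ≤ y) (hy2 : y ≤ (17/50)) : F ≤ (113307/25000) :=
  T2_leaf hF (by norm_num) 291727 100801 37147 14054 4455893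
    (1003/2500) (823/2000) (407/1250) (17/50) (497/2000) (1479/250) (62351/1250000) (499869/2000000) (83169/50000) (9/125) (720 / 10000) (113307/25000)
    hx1 hx2 hy1 hy2 (by norm_num) (by norm_num) (by norm_num) (by norm_num) (by norm_num)
    (corners (by norm_num) (by norm_num) (by norm_num) (by norm_num)) (by norm_num) (Or.inr (by norm_num))
    (by norm_num) (by norm_num) (by norm_num) (by decide +kernel) (by norm_num) (by norm_num) (by norm_num)
    (exp_neg_le_cert _ _ (by norm_num) (by norm_num) (by norm_num))
    (exp_neg_le_cert _ _ (by norm_num) (by norm_num) (by norm_num))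
    (by norm_num) (by norm_num) (rho1 _ (by norm_num)) (by norm_num) (by norm_num) (by norm_num)

theorem coverI_15 {F x y : ℝ} (hF : T2hyp (1/3) F x y) (hx1 : (823/2000) ≤ x) (hx2 : x ≤ (2109/5000))
    (hy1 : (407/1250) ≤ y) (hy2 : y ≤ (17/50)) : F ≤ (113307/25000) :=
  T2_leaf hF (by norm_num) 298257 105700 39912 15458 4451402
    (823/2000) (2109/5000) (407/1250) (17/50) (1191/5000) (1479/250) (6571/125000) (330899/1250000) (165287/100000) (9/125) (720 / 10000) (113307/25000)
    hx1 hx2 hy1 hy2 (by norm_num) (by norm_num) (by norm_num) (by norm_num) (by norm_num)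
    (corners (by norm_num) (by norm_num) (by norm_num) (by norm_num)) (by norm_num) (Or.inr (by norm_num))
    (by norm_num) (by norm_num) (by norm_num) (by decide +kernel) (by norm_num) (by norm_num) (by norm_num)
    (exp_neg_le_cert _ _ (by norm_num) (by norm_num) (by norm_num))
    (exp_neg_le_cert _ _ (by norm_num) (by norm_num) (by norm_num))
    (by norm_num) (by norm_num) (rho1 _ (by norm_num)) (by norm_num) (by norm_num) (by norm_num)

theorem coverI_16 {F x y : ℝ} (hF : T2hyp (1/3) F x y) (hx1 : (2109/5000) ≤ x) (hx2 : x ≤ (177/400))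
    (hy1 : (113/400) ≤ y) (hy2 : y ≤ (389/1250)) : F ≤ (113307/25000) :=
  T2_leaf hF (by norm_num) 286351 99250 38022 15150 4457850
    (2109/5000) (177/400) (113/400) (389/1250) (2463/10000) (773/125) (44899/1000000) (1114019/5000000) (42551/25000) (9/125) (720 / 10000) (113307/25000)
    hx1 hx2 hy1 hy2 (by norm_num) (by norm_num) (by norm_num) (by norm_num) (by norm_num)
    (corners (by norm_num) (by norm_num) (by norm_num) (by norm_num)) (by norm_num) (Or.inr (by norm_num))
    (by norm_num) (by norm_num) (by norm_num) (by decide +kernel) (by norm_num) (by norm_num) (by norm_num)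
    (exp_neg_le_cert _ _ (by norm_num) (by norm_num) (by norm_num))
    (exp_neg_le_cert _ _ (by norm_num) (by norm_num) (by norm_num))
    (by norm_num) (by norm_num) (rho1 _ (by norm_num)) (by norm_num) (by norm_num) (by norm_num)

theorem coverI_17 {F x y : ℝ} (hF : T2hyp (1/3) F x y) (hx1 : (2109/5000) ≤ x) (hx2 : x ≤ (2161/5000))
    (hy1 : (389/1250) ≤ y) (hy2 : y ≤ (407/1250)) : F ≤ (113307/25000) :=
  T2_leaf hF (by norm_num) 298393 106761 41032 16270 4450697
    (2109/5000) (2161/5000) (389/1250) (407/1250) (1211/5000) (3023/500) (487433/10000000) (1219287/5000000) (20767/12500) (9/125) (720 / 10000) (113307/25000)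
    hx1 hx2 hy1 hy2 (by norm_num) (by norm_num) (by norm_num) (by norm_num) (by norm_num)
    (corners (by norm_num) (by norm_num) (by norm_num) (by norm_num)) (by norm_num) (Or.inr (by norm_num))
    (by norm_num) (by norm_num) (by norm_num) (by decide +kernel) (by norm_num) (by norm_num) (by norm_num)
    (exp_neg_le_cert _ _ (by norm_num) (by norm_num) (by norm_num))
    (exp_neg_le_cert _ _ (by norm_num) (by norm_num) (by norm_num))
    (by norm_num) (by norm_num) (rho1 _ (by norm_num)) (by norm_num) (by norm_num) (by norm_num)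

theorem coverI_18 {F x y : ℝ} (hF : T2hyp (1/3) F x y) (hx1 : (2109/5000) ≤ x) (hx2 : x ≤ (2161/5000))
    (hy1 : (407/1250) ≤ y) (hy2 : y ≤ (17/50)) : F ≤ (113307/25000) :=
  T2_leaf hF (by norm_num) 305069 110876 42893 17011 4446742
    (2109/5000) (2161/5000) (407/1250) (17/50) (1139/5000) (1479/250) (277141/5000000) (56107/200000) (41067/25000) (9/125) (720 / 10000) (113307/25000)
    hx1 hx2 hy1 hy2 (by norm_num) (by norm_num) (by norm_num) (by norm_num) (by norm_num)
    (corners (by norm_num) (by norm_num) (by norm_num) (by norm_num)) (by norm_num) (Or.inr (by norm_num))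
    (by norm_num) (by norm_num) (by norm_num) (by decide +kernel) (by norm_num) (by norm_num) (by norm_num)
    (exp_neg_le_cert _ _ (by norm_num) (by norm_num) (by norm_num))
    (exp_neg_le_cert _ _ (by norm_num) (by norm_num) (by norm_num))
    (by norm_num) (by norm_num) (rho1 _ (by norm_num)) (by norm_num) (by norm_num) (by norm_num)

theorem coverI_19 {F x y : ℝ} (hF : T2hyp (1/3) F x y) (hx1 : (2161/5000) ≤ x) (hx2 : x ≤ (177/400))
    (hy1 : (389/1250) ≤ y) (hy2 : y ≤ (407/1250)) : F ≤ (113307/25000) :=
  T2_leaf hF (by norm_num) 305460 112257 44272 17999 4445800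
    (2161/5000) (177/400) (389/1250) (407/1250) (2319/10000) (3023/500) (514891/10000000) (12947/50000) (20641/12500) (9/125) (720 / 10000) (113307/25000)
    hx1 hx2 hy1 hy2 (by norm_num) (by norm_num) (by norm_num) (by norm_num) (by norm_num)
    (corners (by norm_num) (by norm_num) (by norm_num) (by norm_num)) (by norm_num) (Or.inr (by norm_num))
    (by norm_num) (by norm_num) (by norm_num) (by decide +kernel) (by norm_num) (by norm_num) (by norm_num)
    (exp_neg_le_cert _ _ (by norm_num) (by norm_num) (by norm_num))
    (exp_neg_le_cert _ _ (by norm_num) (by norm_num) (by norm_num))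
    (by norm_num) (by norm_num) (rho1 _ (by norm_num)) (by norm_num) (by norm_num) (by norm_num)

theorem coverI_20 {F x y : ℝ} (hF : T2hyp (1/3) F x y) (hx1 : (2161/5000) ≤ x) (hx2 : x ≤ (177/400))
    (hy1 : (407/1250) ≤ y) (hy2 : y ≤ (17/50)) : F ≤ (113307/25000) :=
  T2_leaf hF (by norm_num) 312236 116395 46132 18740 4441869
    (2161/5000) (177/400) (407/1250) (17/50) (87/400) (1479/250) (584143/10000000) (2971299/10000000) (163271/100000) (9/125) (720 / 10000) (113307/25000)
    hx1 hx2 hy1 hy2 (by norm_num) (by norm_num) (by norm_num) (by norm_num) (by norm_num)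
    (corners (by norm_num) (by norm_num) (by norm_num) (by norm_num)) (by norm_num) (Or.inr (by norm_num))
    (by norm_num) (by norm_num) (by norm_num) (by decide +kernel) (by norm_num) (by norm_num) (by norm_num)
    (exp_neg_le_cert _ _ (by norm_num) (by norm_num) (by norm_num))
    (exp_neg_le_cert _ _ (by norm_num) (by norm_num) (by norm_num))
    (by norm_num) (by norm_num) (rho1 _ (by norm_num)) (by norm_num) (by norm_num) (by norm_num)

theorem coverI_21 {F x y : ℝ} (hF : T2hyp (1/3) F x y) (hx1 : (177/400) ≤ x) (hx2 : x ≤ (21/40))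
    (hy1 : (11/100) ≤ y) (hy2 : y ≤ (9/40)) : F ≤ (113307/25000) :=
  T2_leaf hF (by norm_num) 266400 89711 38486 16981 4467201
    (177/400) (21/40) (11/100) (9/40) (1/4) (7273/1000) (129009/5000000) (607473/5000000) (2129/1000) (3039/50000) (513 / 10000) (113307/25000)
    hx1 hx2 hy1 hy2 (by norm_num) (by norm_num) (by norm_num) (by norm_num) (by norm_num)
    (corners (by norm_num) (by norm_num) (by norm_num) (by norm_num)) (by norm_num) (Or.inr (by norm_num))
    (by norm_num) (by norm_num) (by norm_num) (by decide +kernel) (by norm_num) (by norm_num) (by norm_num)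
    (exp_neg_le_cert _ _ (by norm_num) (by norm_num) (by norm_num))
    (exp_neg_le_cert _ _ (by norm_num) (by norm_num) (by norm_num))
    (by norm_num) (by norm_num) (rho2 _ (by norm_num)) (by norm_num) (by norm_num) (by norm_num)

theorem coverI_22 {F x y : ℝ} (hF : T2hyp (1/3) F x y) (hx1 : (177/400) ≤ x) (hx2 : x ≤ (2419/5000))
    (hy1 : (9/40) ≤ y) (hy2 : y ≤ (113/400)) : F ≤ (113307/25000) :=
  T2_leaf hF (by norm_num) 281216 99453 40902 17542 4458582
    (177/400) (2419/5000) (9/40) (113/400) (2337/10000) (649/100) (211103/5000000) (1040863/5000000) (22253/12500) (9/125) (720 / 10000) (113307/25000)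
    hx1 hx2 hy1 hy2 (by norm_num) (by norm_num) (by norm_num) (by norm_num) (by norm_num)
    (corners (by norm_num) (by norm_num) (by norm_num) (by norm_num)) (by norm_num) (Or.inr (by norm_num))
    (by norm_num) (by norm_num) (by norm_num) (by decide +kernel) (by norm_num) (by norm_num) (by norm_num)
    (exp_neg_le_cert _ _ (by norm_num) (by norm_num) (by norm_num))
    (exp_neg_le_cert _ _ (by norm_num) (by norm_num) (by norm_num))
    (by norm_num) (by norm_num) (rho1 _ (by norm_num)) (by norm_num) (by norm_num) (by norm_num)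

theorem coverI_23 {F x y : ℝ} (hF : T2hyp (1/3) F x y) (hx1 : (177/400) ≤ x) (hx2 : x ≤ (579/1250))
    (hy1 : (113/400) ≤ y) (hy2 : y ≤ (389/1250)) : F ≤ (113307/25000) :=
  T2_leaf hF (by norm_num) 300304 110465 44709 18764 4447857
    (177/400) (579/1250) (113/400) (389/1250) (141/625) (773/125) (251911/5000000) (25277/100000) (84089/50000) (9/125) (720 / 10000) (113307/25000)
    hx1 hx2 hy1 hy2 (by norm_num) (by norm_num) (by norm_num) (by norm_num) (by norm_num)
    (corners (by norm_num) (by norm_num) (by norm_num) (by norm_num)) (by norm_num) (Or.inr (by norm_num))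
    (by norm_num) (by norm_num) (by norm_num) (by decide +kernel) (by norm_num) (by norm_num) (by norm_num)
    (exp_neg_le_cert _ _ (by norm_num) (by norm_num) (by norm_num))
    (exp_neg_le_cert _ _ (by norm_num) (by norm_num) (by norm_num))
    (by norm_num) (by norm_num) (rho1 _ (by norm_num)) (by norm_num) (by norm_num) (by norm_num)

theorem coverI_24 {F x y : ℝ} (hF : T2hyp (1/3) F x y) (hx1 : (177/400) ≤ x) (hx2 : x ≤ (283/625))
    (hy1 : (389/1250) ≤ y) (hy2 : y ≤ (407/1250)) : F ≤ (113307/25000) :=
  T2_leaf hF (by norm_num) 312743 117991 47719 19884 4440790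
    (177/400) (283/625) (389/1250) (407/1250) (277/1250) (3023/500) (543897/10000000) (1374777/5000000) (82079/50000) (9/125) (720 / 10000) (113307/25000)
    hx1 hx2 hy1 hy2 (by norm_num) (by norm_num) (by norm_num) (by norm_num) (by norm_num)
    (corners (by norm_num) (by norm_num) (by norm_num) (by norm_num)) (by norm_num) (Or.inr (by norm_num))
    (by norm_num) (by norm_num) (by norm_num) (by decide +kernel) (by norm_num) (by norm_num) (by norm_num)
    (exp_neg_le_cert _ _ (by norm_num) (by norm_num) (by norm_num))
    (exp_neg_le_cert _ _ (by norm_num) (by norm_num) (by norm_num))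
    (by norm_num) (by norm_num) (rho1 _ (by norm_num)) (by norm_num) (by norm_num) (by norm_num)

theorem coverI_25 {F x y : ℝ} (hF : T2hyp (1/3) F x y) (hx1 : (177/400) ≤ x) (hx2 : x ≤ (283/625))
    (hy1 : (407/1250) ≤ y) (hy2 : y ≤ (17/50)) : F ≤ (113307/25000) :=
  T2_leaf hF (by norm_num) 319618 122151 49579 20624 4436883
    (177/400) (283/625) (407/1250) (17/50) (259/1250) (1479/250) (615613/10000000) (629413/2000000) (162313/100000) (9/125) (720 / 10000) (113307/25000)
    hx1 hx2 hy1 hy2 (by norm_num) (by norm_num) (by norm_num) (by norm_num) (by norm_num)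
    (corners (by norm_num) (by norm_num) (by norm_num) (by norm_num)) (by norm_num) (Or.inr (by norm_num))
    (by norm_num) (by norm_num) (by norm_num) (by decide +kernel) (by norm_num) (by norm_num) (by norm_num)
    (exp_neg_le_cert _ _ (by norm_num) (by norm_num) (by norm_num))
    (exp_neg_le_cert _ _ (by norm_num) (by norm_num) (by norm_num))
    (by norm_num) (by norm_num) (rho1 _ (by norm_num)) (by norm_num) (by norm_num) (by norm_num)

theorem coverI_26 {F x y : ℝ} (hF : T2hyp (1/3) F x y) (hx1 : (283/625) ≤ x) (hx2 : x ≤ (579/1250))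
    (hy1 : (389/1250) ≤ y) (hy2 : y ≤ (407/1250)) : F ≤ (113307/25000) :=
  T2_leaf hF (by norm_num) 320308 124021 51415 21952 4435624
    (283/625) (579/1250) (389/1250) (407/1250) (132/625) (3023/500) (287421/5000000) (730329/2500000) (163217/100000) (9/125) (720 / 10000) (113307/25000)
    hx1 hx2 hy1 hy2 (by norm_num) (by norm_num) (by norm_num) (by norm_num) (by norm_num)
    (corners (by norm_num) (by norm_num) (by norm_num) (by norm_num)) (by norm_num) (Or.inr (by norm_num))
    (by norm_num) (by norm_num) (by norm_num) (by decide +kernel) (by norm_num) (by norm_num) (by norm_num)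
    (exp_neg_le_cert _ _ (by norm_num) (by norm_num) (by norm_num))
    (exp_neg_le_cert _ _ (by norm_num) (by norm_num) (by norm_num))
    (by norm_num) (by norm_num) (rho1 _ (by norm_num)) (by norm_num) (by norm_num) (by norm_num)

theorem coverI_27 {F x y : ℝ} (hF : T2hyp (1/3) F x y) (hx1 : (283/625) ≤ x) (hx2 : x ≤ (579/1250))
    (hy1 : (407/1250) ≤ y) (hy2 : y ≤ (17/50)) : F ≤ (113307/25000) :=
  T2_leaf hF (by norm_num) 327281 128202 53275 22693 4431743
    (283/625) (579/1250) (407/1250) (17/50) (123/625) (1479/250) (649109/10000000) (208443/625000) (80691/50000) (9/125) (720 / 10000) (113307/25000)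
    hx1 hx2 hy1 hy2 (by norm_num) (by norm_num) (by norm_num) (by norm_num) (by norm_num)
    (corners (by norm_num) (by norm_num) (by norm_num) (by norm_num)) (by norm_num) (Or.inr (by norm_num))
    (by norm_num) (by norm_num) (by norm_num) (by decide +kernel) (by norm_num) (by norm_num) (by norm_num)
    (exp_neg_le_cert _ _ (by norm_num) (by norm_num) (by norm_num))
    (exp_neg_le_cert _ _ (by norm_num) (by norm_num) (by norm_num))
    (by norm_num) (by norm_num) (rho1 _ (by norm_num)) (by norm_num) (by norm_num) (by norm_num)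

theorem coverI_28 {F x y : ℝ} (hF : T2hyp (1/3) F x y) (hx1 : (579/1250) ≤ x) (hx2 : x ≤ (2419/5000))
    (hy1 : (113/400) ≤ y) (hy2 : y ≤ (389/1250)) : F ≤ (113307/25000) :=
  T2_leaf hF (by norm_num) 315402 122884 52402 23121 4437223
    (579/1250) (2419/5000) (113/400) (389/1250) (41/200) (773/125) (141259/2500000) (2865919/10000000) (166267/100000) (9/125) (720 / 10000) (113307/25000)
    hx1 hx2 hy1 hy2 (by norm_num) (by norm_num) (by norm_num) (by norm_num) (by norm_num)
    (corners (by norm_num) (by norm_num) (by norm_num) (by norm_num)) (by norm_num) (Or.inr (by norm_num))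
    (by norm_num) (by norm_num) (by norm_num) (by decide +kernel) (by norm_num) (by norm_num) (by norm_num)
    (exp_neg_le_cert _ _ (by norm_num) (by norm_num) (by norm_num))
    (exp_neg_le_cert _ _ (by norm_num) (by norm_num) (by norm_num))
    (by norm_num) (by norm_num) (rho1 _ (by norm_num)) (by norm_num) (by norm_num) (by norm_num)

theorem coverI_29 {F x y : ℝ} (hF : T2hyp (1/3) F x y) (hx1 : (579/1250) ≤ x) (hx2 : x ≤ (947/2000))
    (hy1 : (389/1250) ≤ y) (hy2 : y ≤ (407/1250)) : F ≤ (113307/25000) :=
  T2_leaf hF (by norm_num) 328235 130420 55412 24241 4430252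
    (579/1250) (947/2000) (389/1250) (407/1250) (2009/10000) (3023/500) (75903/1250000) (3101999/10000000) (162293/100000) (9/125) (720 / 10000) (113307/25000)
    hx1 hx2 hy1 hy2 (by norm_num) (by norm_num) (by norm_num) (by norm_num) (by norm_num)
    (corners (by norm_num) (by norm_num) (by norm_num) (by norm_num)) (by norm_num) (Or.inr (by norm_num))
    (by norm_num) (by norm_num) (by norm_num) (by decide +kernel) (by norm_num) (by norm_num) (by norm_num)
    (exp_neg_le_cert _ _ (by norm_num) (by norm_num) (by norm_num))
    (exp_neg_le_cert _ _ (by norm_num) (by norm_num) (by norm_num))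
    (by norm_num) (by norm_num) (rho1 _ (by norm_num)) (by norm_num) (by norm_num) (by norm_num)

theorem coverI_30 {F x y : ℝ} (hF : T2hyp (1/3) F x y) (hx1 : (579/1250) ≤ x) (hx2 : x ≤ (947/2000))
    (hy1 : (407/1250) ≤ y) (hy2 : y ≤ (17/50)) : F ≤ (113307/25000) :=
  T2_leaf hF (by norm_num) 335308 134620 57272 24982 4426399
    (579/1250) (947/2000) (407/1250) (17/50) (373/2000) (1479/250) (342039/5000000) (1766187/5000000) (40117/25000) (9/125) (720 / 10000) (113307/25000)
    hx1 hx2 hy1 hy2 (by norm_num) (by norm_num) (by norm_num) (by norm_num) (by norm_num)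
    (corners (by norm_num) (by norm_num) (by norm_num) (by norm_num)) (by norm_num) (Or.inr (by norm_num))
    (by norm_num) (by norm_num) (by norm_num) (by decide +kernel) (by norm_num) (by norm_num) (by norm_num)
    (exp_neg_le_cert _ _ (by norm_num) (by norm_num) (by norm_num))
    (exp_neg_le_cert _ _ (by norm_num) (by norm_num) (by norm_num))
    (by norm_num) (by norm_num) (rho1 _ (by norm_num)) (by norm_num) (by norm_num) (by norm_num)

theorem coverI_31 {F x y : ℝ} (hF : T2hyp (1/3) F x y) (hx1 : (947/2000) ≤ x) (hx2 : x ≤ (2419/5000))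
    (hy1 : (389/1250) ≤ y) (hy2 : y ≤ (407/1250)) : F ≤ (113307/25000) :=
  T2_leaf hF (by norm_num) 336369 137067 59645 26720 4424786
    (947/2000) (2419/5000) (389/1250) (407/1250) (953/5000) (3023/500) (641431/10000000) (3293857/10000000) (161403/100000) (9/125) (720 / 10000) (113307/25000)
    hx1 hx2 hy1 hy2 (by norm_num) (by norm_num) (by norm_num) (by norm_num) (by norm_num)
    (corners (by norm_num) (by norm_num) (by norm_num) (by norm_num)) (by norm_num) (Or.inr (by norm_num))
    (by norm_num) (by norm_num) (by norm_num) (by decide +kernel) (by norm_num) (by norm_num) (by norm_num)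
    (exp_neg_le_cert _ _ (by norm_num) (by norm_num) (by norm_num))
    (exp_neg_le_cert _ _ (by norm_num) (by norm_num) (by norm_num))
    (by norm_num) (by norm_num) (rho1 _ (by norm_num)) (by norm_num) (by norm_num) (by norm_num)

theorem coverI_32 {F x y : ℝ} (hF : T2hyp (1/3) F x y) (hx1 : (947/2000) ≤ x) (hx2 : x ≤ (2419/5000))
    (hy1 : (407/1250) ≤ y) (hy2 : y ≤ (17/50)) : F ≤ (113307/25000) :=
  T2_leaf hF (by norm_num) 343542 141286 61505 27460 4420960
    (947/2000) (2419/5000) (407/1250) (17/50) (881/5000) (1479/250) (180233/2500000) (374133/1000000) (39897/25000) (9/125) (720 / 10000) (113307/25000)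
    hx1 hx2 hy1 hy2 (by norm_num) (by norm_num) (by norm_num) (by norm_num) (by norm_num)
    (corners (by norm_num) (by norm_num) (by norm_num) (by norm_num)) (by norm_num) (Or.inr (by norm_num))
    (by norm_num) (by norm_num) (by norm_num) (by decide +kernel) (by norm_num) (by norm_num) (by norm_num)
    (exp_neg_le_cert _ _ (by norm_num) (by norm_num) (by norm_num))
    (exp_neg_le_cert _ _ (by norm_num) (by norm_num) (by norm_num))
    (by norm_num) (by norm_num) (rho1 _ (by norm_num)) (by norm_num) (by norm_num) (by norm_num)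

theorem coverI_33 {F x y : ℝ} (hF : T2hyp (1/3) F x y) (hx1 : (2419/5000) ≤ x) (hx2 : x ≤ (21/40))
    (hy1 : (9/40) ≤ y) (hy2 : y ≤ (113/400)) : F ≤ (113307/25000) :=
  T2_leaf hF (by norm_num) 310890 125422 57348 27081 4436620
    (2419/5000) (21/40) (9/40) (113/400) (77/400) (649/100) (54353/1000000) (85789/312500) (10881/6250) (9/125) (720 / 10000) (113307/25000)
    hx1 hx2 hy1 hy2 (by norm_num) (by norm_num) (by norm_num) (by norm_num) (by norm_num)
    (corners (by norm_num) (by norm_num) (by norm_num) (by norm_num)) (by norm_num) (Or.inr (by norm_num))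
    (by norm_num) (by norm_num) (by norm_num) (by decide +kernel) (by norm_num) (by norm_num) (by norm_num)
    (exp_neg_le_cert _ _ (by norm_num) (by norm_num) (by norm_num))
    (exp_neg_le_cert _ _ (by norm_num) (by norm_num) (by norm_num))
    (by norm_num) (by norm_num) (rho1 _ (by norm_num)) (by norm_num) (by norm_num) (by norm_num)

theorem coverI_34 {F x y : ℝ} (hF : T2hyp (1/3) F x y) (hx1 : (2419/5000) ≤ x) (hx2 : x ≤ (1261/2500))
    (hy1 : (113/400) ≤ y) (hy2 : y ≤ (389/1250)) : F ≤ (113307/25000) :=
  T2_leaf hF (by norm_num) 331559 136481 61154 28304 4426048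
    (2419/5000) (1261/2500) (113/400) (389/1250) (461/2500) (773/125) (633689/10000000) (3249393/10000000) (41117/25000) (9/125) (720 / 10000) (113307/25000)
    hx1 hx2 hy1 hy2 (by norm_num) (by norm_num) (by norm_num) (by norm_num) (by norm_num)
    (corners (by norm_num) (by norm_num) (by norm_num) (by norm_num)) (by norm_num) (Or.inr (by norm_num))
    (by norm_num) (by norm_num) (by norm_num) (by decide +kernel) (by norm_num) (by norm_num) (by norm_num)
    (exp_neg_le_cert _ _ (by norm_num) (by norm_num) (by norm_num))
    (exp_neg_le_cert _ _ (by norm_num) (by norm_num) (by norm_num))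
    (by norm_num) (by norm_num) (rho1 _ (by norm_num)) (by norm_num) (by norm_num) (by norm_num)

theorem coverI_35 {F x y : ℝ} (hF : T2hyp (1/3) F x y) (hx1 : (2419/5000) ≤ x) (hx2 : x ≤ (4941/10000))
    (hy1 : (389/1250) ≤ y) (hy2 : y ≤ (407/1250)) : F ≤ (113307/25000) :=
  T2_leaf hF (by norm_num) 344787 144028 64164 29423 4419178
    (2419/5000) (4941/10000) (389/1250) (407/1250) (1803/10000) (3023/500) (135513/2000000) (1748791/5000000) (160537/100000) (9/125) (720 / 10000) (113307/25000)
    hx1 hx2 hy1 hy2 (by norm_num) (by norm_num) (by norm_num) (by norm_num) (by norm_num)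
    (corners (by norm_num) (by norm_num) (by norm_num) (by norm_num)) (by norm_num) (Or.inr (by norm_num))
    (by norm_num) (by norm_num) (by norm_num) (by decide +kernel) (by norm_num) (by norm_num) (by norm_num)
    (exp_neg_le_cert _ _ (by norm_num) (by norm_num) (by norm_num))
    (exp_neg_le_cert _ _ (by norm_num) (by norm_num) (by norm_num))
    (by norm_num) (by norm_num) (rho1 _ (by norm_num)) (by norm_num) (by norm_num) (by norm_num)

theorem coverI_36 {F x y : ℝ} (hF : T2hyp (1/3) F x y) (hx1 : (2419/5000) ≤ x) (hx2 : x ≤ (4941/10000))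
    (hy1 : (407/1250) ≤ y) (hy2 : y ≤ (17/50)) : F ≤ (113307/25000) :=
  T2_leaf hF (by norm_num) 352058 148265 66024 30164 4415382
    (2419/5000) (4941/10000) (407/1250) (17/50) (1659/10000) (1479/250) (759771/10000000) (1981323/5000000) (39683/25000) (9/125) (720 / 10000) (113307/25000)
    hx1 hx2 hy1 hy2 (by norm_num) (by norm_num) (by norm_num) (by norm_num) (by norm_num)
    (corners (by norm_num) (by norm_num) (by norm_num) (by norm_num)) (by norm_num) (Or.inr (by norm_num))
    (by norm_num) (by norm_num) (by norm_num) (by decide +kernel) (by norm_num) (by norm_num) (by norm_num)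
    (exp_neg_le_cert _ _ (by norm_num) (by norm_num) (by norm_num))
    (exp_neg_le_cert _ _ (by norm_num) (by norm_num) (by norm_num))
    (by norm_num) (by norm_num) (rho1 _ (by norm_num)) (by norm_num) (by norm_num) (by norm_num)

theorem coverI_37 {F x y : ℝ} (hF : T2hyp (1/3) F x y) (hx1 : (4941/10000) ≤ x) (hx2 : x ≤ (1261/2500))
    (hy1 : (389/1250) ≤ y) (hy2 : y ≤ (407/1250)) : F ≤ (113307/25000) :=
  T2_leaf hF (by norm_num) 353487 151311 68980 32368 4413435
    (4941/10000) (1261/2500) (389/1250) (407/1250) (17/100) (3023/500) (143147/2000000) (928477/2500000) (79847/50000) (9/125) (720 / 10000) (113307/25000)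
    hx1 hx2 hy1 hy2 (by norm_num) (by norm_num) (by norm_num) (by norm_num) (by norm_num)
    (corners (by norm_num) (by norm_num) (by norm_num) (by norm_num)) (by norm_num) (Or.inr (by norm_num))
    (by norm_num) (by norm_num) (by norm_num) (by decide +kernel) (by norm_num) (by norm_num) (by norm_num)
    (exp_neg_le_cert _ _ (by norm_num) (by norm_num) (by norm_num))
    (exp_neg_le_cert _ _ (by norm_num) (by norm_num) (by norm_num))
    (by norm_num) (by norm_num) (rho1 _ (by norm_num)) (by norm_num) (by norm_num) (by norm_num)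

theorem coverI_38 {F x y : ℝ} (hF : T2hyp (1/3) F x y) (hx1 : (4941/10000) ≤ x) (hx2 : x ≤ (312/625))
    (hy1 : (407/1250) ≤ y) (hy2 : y ≤ (17/50)) : F ≤ (113307/25000) :=
  T2_leaf hF (by norm_num) 360896 155607 70841 33108 4409647
    (4941/10000) (312/625) (407/1250) (17/50) (201/1250) (1479/250) (77977/1000000) (4077029/10000000) (78949/50000) (9/125) (720 / 10000) (113307/25000)
    hx1 hx2 hy1 hy2 (by norm_num) (by norm_num) (by norm_num) (by norm_num) (by norm_num)
    (corners (by norm_num) (by norm_num) (by norm_num) (by norm_num)) (by norm_num) (Or.inr (by norm_num))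
    (by norm_num) (by norm_num) (by norm_num) (by decide +kernel) (by norm_num) (by norm_num) (by norm_num)
    (exp_neg_le_cert _ _ (by norm_num) (by norm_num) (by norm_num))
    (exp_neg_le_cert _ _ (by norm_num) (by norm_num) (by norm_num))
    (by norm_num) (by norm_num) (rho1 _ (by norm_num)) (by norm_num) (by norm_num) (by norm_num)

theorem coverI_39 {F x y : ℝ} (hF : T2hyp (1/3) F x y) (hx1 : (312/625) ≤ x) (hx2 : x ≤ (1261/2500))
    (hy1 : (407/1250) ≤ y) (hy2 : y ≤ (17/50)) : F ≤ (113307/25000) :=
  T2_leaf hF (by norm_num) 365357 159338 73340 34660 4406770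
    (312/625) (1261/2500) (407/1250) (17/50) (389/2500) (1479/250) (800703/10000000) (839411/2000000) (157493/100000) (9/125) (720 / 10000) (113307/25000)
    hx1 hx2 hy1 hy2 (by norm_num) (by norm_num) (by norm_num) (by norm_num) (by norm_num)
    (corners (by norm_num) (by norm_num) (by norm_num) (by norm_num)) (by norm_num) (Or.inr (by norm_num))
    (by norm_num) (by norm_num) (by norm_num) (by decide +kernel) (by norm_num) (by norm_num) (by norm_num)
    (exp_neg_le_cert _ _ (by norm_num) (by norm_num) (by norm_num))
    (exp_neg_le_cert _ _ (by norm_num) (by norm_num) (by norm_num))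
    (by norm_num) (by norm_num) (rho1 _ (by norm_num)) (by norm_num) (by norm_num) (by norm_num)

theorem coverI_40 {F x y : ℝ} (hF : T2hyp (1/3) F x y) (hx1 : (1261/2500) ≤ x) (hx2 : x ≤ (21/40))
    (hy1 : (113/400) ≤ y) (hy2 : y ≤ (389/1250)) : F ≤ (113307/25000) :=
  T2_leaf hF (by norm_num) 348848 151362 71098 34448 4414323
    (1261/2500) (21/40) (113/400) (389/1250) (819/5000) (773/125) (710683/10000000) (1842089/5000000) (81381/50000) (9/125) (720 / 10000) (113307/25000)
    hx1 hx2 hy1 hy2 (by norm_num) (by norm_num) (by norm_num) (by norm_num) (by norm_num)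
    (corners (by norm_num) (by norm_num) (by norm_num) (by norm_num)) (by norm_num) (Or.inr (by norm_num))
    (by norm_num) (by norm_num) (by norm_num) (by decide +kernel) (by norm_num) (by norm_num) (by norm_num)
    (exp_neg_le_cert _ _ (by norm_num) (by norm_num) (by norm_num))
    (exp_neg_le_cert _ _ (by norm_num) (by norm_num) (by norm_num))
    (by norm_num) (by norm_num) (rho1 _ (by norm_num)) (by norm_num) (by norm_num) (by norm_num)

theorem coverI_41 {F x y : ℝ} (hF : T2hyp (1/3) F x y) (hx1 : (1261/2500) ≤ x) (hx2 : x ≤ (5147/10000))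
    (hy1 : (389/1250) ≤ y) (hy2 : y ≤ (407/1250)) : F ≤ (113307/25000) :=
  T2_leaf hF (by norm_num) 362470 158919 74108 35568 4407560
    (1261/2500) (5147/10000) (389/1250) (407/1250) (1597/10000) (3023/500) (151211/2000000) (3943613/10000000) (19859/12500) (9/125) (720 / 10000) (113307/25000)
    hx1 hx2 hy1 hy2 (by norm_num) (by norm_num) (by norm_num) (by norm_num) (by norm_num)
    (corners (by norm_num) (by norm_num) (by norm_num) (by norm_num)) (by norm_num) (Or.inr (by norm_num))
    (by norm_num) (by norm_num) (by norm_num) (by decide +kernel) (by norm_num) (by norm_num) (by norm_num)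
    (exp_neg_le_cert _ _ (by norm_num) (by norm_num) (by norm_num))
    (exp_neg_le_cert _ _ (by norm_num) (by norm_num) (by norm_num))
    (by norm_num) (by norm_num) (rho1 _ (by norm_num)) (by norm_num) (by norm_num) (by norm_num)

theorem coverI_42 {F x y : ℝ} (hF : T2hyp (1/3) F x y) (hx1 : (1261/2500) ≤ x) (hx2 : x ≤ (637/1250))
    (hy1 : (407/1250) ≤ y) (hy2 : y ≤ (17/50)) : F ≤ (113307/25000) :=
  T2_leaf hF (by norm_num) 369977 163225 75968 36308 4403805
    (1261/2500) (637/1250) (407/1250) (17/50) (94/625) (1479/250) (411099/5000000) (2160307/5000000) (78543/50000) (9/125) (720 / 10000) (113307/25000)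
    hx1 hx2 hy1 hy2 (by norm_num) (by norm_num) (by norm_num) (by norm_num) (by norm_num)
    (corners (by norm_num) (by norm_num) (by norm_num) (by norm_num)) (by norm_num) (Or.inr (by norm_num))
    (by norm_num) (by norm_num) (by norm_num) (by decide +kernel) (by norm_num) (by norm_num) (by norm_num)
    (exp_neg_le_cert _ _ (by norm_num) (by norm_num) (by norm_num))
    (exp_neg_le_cert _ _ (by norm_num) (by norm_num) (by norm_num))
    (by norm_num) (by norm_num) (rho1 _ (by norm_num)) (by norm_num) (by norm_num) (by norm_num)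

theorem coverI_43 {F x y : ℝ} (hF : T2hyp (1/3) F x y) (hx1 : (637/1250) ≤ x) (hx2 : x ≤ (5147/10000))
    (hy1 : (407/1250) ≤ y) (hy2 : y ≤ (17/50)) : F ≤ (113307/25000) :=
  T2_leaf hF (by norm_num) 374670 167198 78679 38026 4400807
    (637/1250) (5147/10000) (407/1250) (17/50) (1453/10000) (1479/250) (2637/31250) (4445329/10000000) (156683/100000) (9/125) (720 / 10000) (113307/25000)
    hx1 hx2 hy1 hy2 (by norm_num) (by norm_num) (by norm_num) (by norm_num) (by norm_num)
    (corners (by norm_num) (by norm_num) (by norm_num) (by norm_num)) (by norm_num) (Or.inr (by norm_num))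
    (by norm_num) (by norm_num) (by norm_num) (by decide +kernel) (by norm_num) (by norm_num) (by norm_num)
    (exp_neg_le_cert _ _ (by norm_num) (by norm_num) (by norm_num))
    (exp_neg_le_cert _ _ (by norm_num) (by norm_num) (by norm_num))
    (by norm_num) (by norm_num) (rho1 _ (by norm_num)) (by norm_num) (by norm_num) (by norm_num)

theorem coverI_44 {F x y : ℝ} (hF : T2hyp (1/3) F x y) (hx1 : (5147/10000) ≤ x) (hx2 : x ≤ (21/40))
    (hy1 : (389/1250) ≤ y) (hy2 : y ≤ (407/1250)) : F ≤ (113307/25000) :=
  T2_leaf hF (by norm_num) 371735 166861 79559 39040 4401560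
    (5147/10000) (21/40) (389/1250) (407/1250) (747/5000) (3023/500) (399323/5000000) (167501/400000) (158071/100000) (9/125) (720 / 10000) (113307/25000)
    hx1 hx2 hy1 hy2 (by norm_num) (by norm_num) (by norm_num) (by norm_num) (by norm_num)
    (corners (by norm_num) (by norm_num) (by norm_num) (by norm_num)) (by norm_num) (Or.inr (by norm_num))
    (by norm_num) (by norm_num) (by norm_num) (by decide +kernel) (by norm_num) (by norm_num) (by norm_num)
    (exp_neg_le_cert _ _ (by norm_num) (by norm_num) (by norm_num))
    (exp_neg_le_cert _ _ (by norm_num) (by norm_num) (by norm_num))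
    (by norm_num) (by norm_num) (rho1 _ (by norm_num)) (by norm_num) (by norm_num) (by norm_num)

theorem coverI_45 {F x y : ℝ} (hF : T2hyp (1/3) F x y) (hx1 : (5147/10000) ≤ x) (hx2 : x ≤ (2599/5000))
    (hy1 : (407/1250) ≤ y) (hy2 : y ≤ (17/50)) : F ≤ (113307/25000) :=
  T2_leaf hF (by norm_num) 379342 171177 81419 39781 4397837
    (5147/10000) (2599/5000) (407/1250) (17/50) (701/5000) (1479/250) (216513/2500000) (914729/2000000) (78147/50000) (9/125) (720 / 10000) (113307/25000)
    hx1 hx2 hy1 hy2 (by norm_num) (by norm_num) (by norm_num) (by norm_num) (by norm_num)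
    (corners (by norm_num) (by norm_num) (by norm_num) (by norm_num)) (by norm_num) (Or.inr (by norm_num))
    (by norm_num) (by norm_num) (by norm_num) (by decide +kernel) (by norm_num) (by norm_num) (by norm_num)
    (exp_neg_le_cert _ _ (by norm_num) (by norm_num) (by norm_num))
    (exp_neg_le_cert _ _ (by norm_num) (by norm_num) (by norm_num))
    (by norm_num) (by norm_num) (rho1 _ (by norm_num)) (by norm_num) (by norm_num) (by norm_num)

theorem coverI_46 {F x y : ℝ} (hF : T2hyp (1/3) F x y) (hx1 : (2599/5000) ≤ x) (hx2 : x ≤ (21/40))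
    (hy1 : (407/1250) ≤ y) (hy2 : y ≤ (208/625)) : F ≤ (113307/25000) :=
  T2_leaf hF (by norm_num) 384141 175283 84242 41606 4394810
    (2599/5000) (21/40) (407/1250) (208/625) (711/5000) (299/50) (843699/10000000) (2222957/5000000) (155909/100000) (9/125) (720 / 10000) (113307/25000)
    hx1 hx2 hy1 hy2 (by norm_num) (by norm_num) (by norm_num) (by norm_num) (by norm_num)
    (corners (by norm_num) (by norm_num) (by norm_num) (by norm_num)) (by norm_num) (Or.inr (by norm_num))
    (by norm_num) (by norm_num) (by norm_num) (by decide +kernel) (by norm_num) (by norm_num) (by norm_num)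
    (exp_neg_le_cert _ _ (by norm_num) (by norm_num) (by norm_num))
    (exp_neg_le_cert _ _ (by norm_num) (by norm_num) (by norm_num))
    (by norm_num) (by norm_num) (rho1 _ (by norm_num)) (by norm_num) (by norm_num) (by norm_num)

theorem coverI_47 {F x y : ℝ} (hF : T2hyp (1/3) F x y) (hx1 : (2599/5000) ≤ x) (hx2 : x ≤ (21/40))
    (hy1 : (208/625) ≤ y) (hy2 : y ≤ (17/50)) : F ≤ (113307/25000) :=
  T2_leaf hF (by norm_num) 388157 177578 85270 42029 4392863
    (2599/5000) (21/40) (208/625) (17/50) (27/200) (1479/250) (889301/10000000) (4708291/10000000) (155059/100000) (9/125) (720 / 10000) (113307/25000)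
    hx1 hx2 hy1 hy2 (by norm_num) (by norm_num) (by norm_num) (by norm_num) (by norm_num)
    (corners (by norm_num) (by norm_num) (by norm_num) (by norm_num)) (by norm_num) (Or.inr (by norm_num))
    (by norm_num) (by norm_num) (by norm_num) (by decide +kernel) (by norm_num) (by norm_num) (by norm_num)
    (exp_neg_le_cert _ _ (by norm_num) (by norm_num) (by norm_num))
    (exp_neg_le_cert _ _ (by norm_num) (by norm_num) (by norm_num))
    (by norm_num) (by norm_num) (rho1 _ (by norm_num)) (by norm_num) (by norm_num) (by norm_num)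

theorem coverI {F x y : ℝ} (hF : T2hyp (1/3) F x y) (hx1 : (9/25) ≤ x) (hx2 : x ≤ (21/40))
    (hy2 : y ≤ (17/50)) (hyx : y ≤ x) (hfeas : 1 - x ≤ 4 * y) : F ≤ (113307/25000) := by
  have hy1 : (11/100) ≤ y := by linarith
  rcases le_total x (177/400) with hx_1 | hx_1
  · rcases le_total y (9/40) with hy_2 | hy_2
    · exact coverI_0 hF hx1 hx_1 hy1 hy_2
    · rcases le_total x (1003/2500) with hx_3 | hx_3
      · rcases le_total y (113/400) with hy_4 | hy_4
        · rcases le_total y (1269/5000) with hy_5 | hy_5
          · exact coverI_1 hF hx1 hx_3 hy_2 hy_5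
          · exact coverI_2 hF hx1 hx_3 hy_5 hy_4
        · rcases le_total y (389/1250) with hy_6 | hy_6
          · rcases le_total x (1903/5000) with hx_7 | hx_7
            · exact coverI_3 hF hx1 hx_7 hy_4 hy_6
            · exact coverI_4 hF hx_7 hx_3 hy_4 hy_6
          · rcases le_total x (1903/5000) with hx_8 | hx_8
            · rcases le_total y (407/1250) with hy_9 | hy_9
              · exact coverI_5 hF hx1 hx_8 hy_6 hy_9
              · rcases le_total x (3703/10000) with hx_10 | hx_10
                · exact coverI_6 hF hx1 hx_10 hy_9 hy2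
                · exact coverI_7 hF hx_10 hx_8 hy_9 hy2
            · rcases le_total y (407/1250) with hy_11 | hy_11
              · exact coverI_8 hF hx_8 hx_3 hy_6 hy_11
              · rcases le_total x (3909/10000) with hx_12 | hx_12
                · exact coverI_9 hF hx_8 hx_12 hy_11 hy2
                · exact coverI_10 hF hx_12 hx_3 hy_11 hy2
      · rcases le_total y (113/400) with hy_13 | hy_13
        · exact coverI_11 hF hx_3 hx_1 hy_2 hy_13
        · rcases le_total x (2109/5000) with hx_14 | hx_14
          · rcases le_total y (389/1250) with hy_15 | hy_15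
            · exact coverI_12 hF hx_3 hx_14 hy_13 hy_15
            · rcases le_total y (407/1250) with hy_16 | hy_16
              · exact coverI_13 hF hx_3 hx_14 hy_15 hy_16
              · rcases le_total x (823/2000) with hx_17 | hx_17
                · exact coverI_14 hF hx_3 hx_17 hy_16 hy2
                · exact coverI_15 hF hx_17 hx_14 hy_16 hy2
          · rcases le_total y (389/1250) with hy_18 | hy_18
            · exact coverI_16 hF hx_14 hx_1 hy_13 hy_18
            · rcases le_total x (2161/5000) with hx_19 | hx_19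
              · rcases le_total y (407/1250) with hy_20 | hy_20
                · exact coverI_17 hF hx_14 hx_19 hy_18 hy_20
                · exact coverI_18 hF hx_14 hx_19 hy_20 hy2
              · rcases le_total y (407/1250) with hy_21 | hy_21
                · exact coverI_19 hF hx_19 hx_1 hy_18 hy_21
                · exact coverI_20 hF hx_19 hx_1 hy_21 hy2
  · rcases le_total y (9/40) with hy_22 | hy_22
    · exact coverI_21 hF hx_1 hx2 hy1 hy_22
    · rcases le_total x (2419/5000) with hx_23 | hx_23
      · rcases le_total y (113/400) with hy_24 | hy_24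
        · exact coverI_22 hF hx_1 hx_23 hy_22 hy_24
        · rcases le_total x (579/1250) with hx_25 | hx_25
          · rcases le_total y (389/1250) with hy_26 | hy_26
            · exact coverI_23 hF hx_1 hx_25 hy_24 hy_26
            · rcases le_total x (283/625) with hx_27 | hx_27
              · rcases le_total y (407/1250) with hy_28 | hy_28
                · exact coverI_24 hF hx_1 hx_27 hy_26 hy_28
                · exact coverI_25 hF hx_1 hx_27 hy_28 hy2
              · rcases le_total y (407/1250) with hy_29 | hy_29
                · exact coverI_26 hF hx_27 hx_25 hy_26 hy_29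
                · exact coverI_27 hF hx_27 hx_25 hy_29 hy2
          · rcases le_total y (389/1250) with hy_30 | hy_30
            · exact coverI_28 hF hx_25 hx_23 hy_24 hy_30
            · rcases le_total x (947/2000) with hx_31 | hx_31
              · rcases le_total y (407/1250) with hy_32 | hy_32
                · exact coverI_29 hF hx_25 hx_31 hy_30 hy_32
                · exact coverI_30 hF hx_25 hx_31 hy_32 hy2
              · rcases le_total y (407/1250) with hy_33 | hy_33
                · exact coverI_31 hF hx_31 hx_23 hy_30 hy_33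
                · exact coverI_32 hF hx_31 hx_23 hy_33 hy2
      · rcases le_total y (113/400) with hy_34 | hy_34
        · exact coverI_33 hF hx_23 hx2 hy_22 hy_34
        · rcases le_total x (1261/2500) with hx_35 | hx_35
          · rcases le_total y (389/1250) with hy_36 | hy_36
            · exact coverI_34 hF hx_23 hx_35 hy_34 hy_36
            · rcases le_total x (4941/10000) with hx_37 | hx_37
              · rcases le_total y (407/1250) with hy_38 | hy_38
                · exact coverI_35 hF hx_23 hx_37 hy_36 hy_38
                · exact coverI_36 hF hx_23 hx_37 hy_38 hy2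
              · rcases le_total y (407/1250) with hy_39 | hy_39
                · exact coverI_37 hF hx_37 hx_35 hy_36 hy_39
                · rcases le_total x (312/625) with hx_40 | hx_40
                  · exact coverI_38 hF hx_37 hx_40 hy_39 hy2
                  · exact coverI_39 hF hx_40 hx_35 hy_39 hy2
          · rcases le_total y (389/1250) with hy_41 | hy_41
            · exact coverI_40 hF hx_35 hx2 hy_34 hy_41
            · rcases le_total x (5147/10000) with hx_42 | hx_42
              · rcases le_total y (407/1250) with hy_43 | hy_43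
                · exact coverI_41 hF hx_35 hx_42 hy_41 hy_43
                · rcases le_total x (637/1250) with hx_44 | hx_44
                  · exact coverI_42 hF hx_35 hx_44 hy_43 hy2
                  · exact coverI_43 hF hx_44 hx_42 hy_43 hy2
              · rcases le_total y (407/1250) with hy_45 | hy_45
                · exact coverI_44 hF hx_42 hx2 hy_41 hy_45
                · rcases le_total x (2599/5000) with hx_46 | hx_46
                  · exact coverI_45 hF hx_42 hx_46 hy_45 hy2
                  · rcases le_total y (208/625) with hy_47 | hy_47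
                    · exact coverI_46 hF hx_46 hx2 hy_45 hy_47
                    · exact coverI_47 hF hx_46 hx2 hy_47 hy2

end
end CG3
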