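import Pool.Agent.CG3.T2Leaf

open MeasureTheory ProbabilityTheory
open scoped BigOperators

namespace CG3
noncomputable section

theorem coverII_0 {F x y : ℝ} (hF : T2hyp (1/5) F x y) (hx1 : (9/25) ≤ x) (hx2 : x ≤ (177/400))
    (hy1 : (7/100) ≤ y) (hy2 : y ≤ (41/200)) : F ≤ (45411/10000) :=
  T2_leaf hF (by norm_num) 190856 48751 16820 6048 4517990
    (9/25) (177/400) (7/100) (41/200) (141/400) (7619/1000) (45003/5000000) (191549/5000000) (250987/100000) (9/125) (720 / 10000) (45411/10000)
    hx1 hx2 hy1 hy2 (by norm_num) (by norm_num) (by norm_num) (by norm_num) (by norm_num)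
    (corners (by norm_num) (by norm_num) (by norm_num) (by norm_num)) (by norm_num) (Or.inr (by norm_num))
    (by norm_num) (by norm_num) (by norm_num) (by decide +kernel) (by norm_num) (by norm_num) (by norm_num)
    (exp_neg_le_cert _ _ (by norm_num) (by norm_num) (by norm_num))
    (exp_neg_le_cert _ _ (by norm_num) (by norm_num) (by norm_num))
    (by norm_num) (by norm_num) (rho1 _ (by norm_num)) (by norm_num) (by norm_num) (by norm_num)

theorem coverII_1 {F x y : ℝ} (hF : T2hyp (1/5) F x y) (hx1 : (177/400) ≤ x) (hx2 : x ≤ (21/40))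
    (hy1 : (7/100) ≤ y) (hy2 : y ≤ (41/200)) : F ≤ (45411/10000) :=
  T2_leaf hF (by norm_num) 239614 87774 38364 16967 4478224
    (177/400) (21/40) (7/100) (41/200) (27/100) (7619/1000) (36139/2000000) (821991/10000000) (7449/3125) (3039/50000) (513 / 10000) (45411/10000)
    hx1 hx2 hy1 hy2 (by norm_num) (by norm_num) (by norm_num) (by norm_num) (by norm_num)
    (corners (by norm_num) (by norm_num) (by norm_num) (by norm_num)) (by norm_num) (Or.inr (by norm_num))
    (by norm_num) (by norm_num) (by norm_num) (by decide +kernel) (by norm_num) (by norm_num) (by norm_num)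
    (exp_neg_le_cert _ _ (by norm_num) (by norm_num) (by norm_num))
    (exp_neg_le_cert _ _ (by norm_num) (by norm_num) (by norm_num))
    (by norm_num) (by norm_num) (rho2 _ (by norm_num)) (by norm_num) (by norm_num) (by norm_num)

theorem coverII_2 {F x y : ℝ} (hF : T2hyp (1/5) F x y) (hx1 : (9/25) ≤ x) (hx2 : x ≤ (1003/2500))
    (hy1 : (41/200) ≤ y) (hy2 : y ≤ (597/2500)) : F ≤ (45411/10000) :=
  T2_leaf hF (by norm_num) 208478 57137 18562 6408 4507288
    (9/25) (1003/2500) (41/200) (597/2500) (9/25) (7059/1000) (64981/5000000) (572727/10000000) (191861/100000) (9/125) (720 / 10000) (45411/10000)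
    hx1 hx2 hy1 hy2 (by norm_num) (by norm_num) (by norm_num) (by norm_num) (by norm_num)
    (corners (by norm_num) (by norm_num) (by norm_num) (by norm_num)) (by norm_num) (Or.inr (by norm_num))
    (by norm_num) (by norm_num) (by norm_num) (by decide +kernel) (by norm_num) (by norm_num) (by norm_num)
    (exp_neg_le_cert _ _ (by norm_num) (by norm_num) (by norm_num))
    (exp_neg_le_cert _ _ (by norm_num) (by norm_num) (by norm_num))
    (by norm_num) (by norm_num) (rho1 _ (by norm_num)) (by norm_num) (by norm_num) (by norm_num)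

theorem coverII_3 {F x y : ℝ} (hF : T2hyp (1/5) F x y) (hx1 : (9/25) ≤ x) (hx2 : x ≤ (1003/2500))
    (hy1 : (597/2500) ≤ y) (hy2 : y ≤ (109/400)) : F ≤ (45411/10000) :=
  T2_leaf hF (by norm_num) 217828 61663 20048 6823 4501484
    (9/25) (1003/2500) (597/2500) (109/400) (3263/10000) (6609/1000) (13883/625000) (1031427/10000000) (184679/100000) (9/125) (720 / 10000) (45411/10000)
    hx1 hx2 hy1 hy2 (by norm_num) (by norm_num) (by norm_num) (by norm_num) (by norm_num)
    (corners (by norm_num) (by norm_num) (by norm_num) (by norm_num)) (by norm_num) (Or.inr (by norm_num))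
    (by norm_num) (by norm_num) (by norm_num) (by decide +kernel) (by norm_num) (by norm_num) (by norm_num)
    (exp_neg_le_cert _ _ (by norm_num) (by norm_num) (by norm_num))
    (exp_neg_le_cert _ _ (by norm_num) (by norm_num) (by norm_num))
    (by norm_num) (by norm_num) (rho1 _ (by norm_num)) (by norm_num) (by norm_num) (by norm_num)

theorem coverII_4 {F x y : ℝ} (hF : T2hyp (1/5) F x y) (hx1 : (9/25) ≤ x) (hx2 : x ≤ (1903/5000))
    (hy1 : (109/400) ≤ y) (hy2 : y ≤ (1531/5000)) : F ≤ (45411/10000) :=
  T2_leaf hF (by norm_num) 230330 68119 22310 7549 4493645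
    (9/25) (1903/5000) (109/400) (1531/5000) (783/2500) (3117/500) (300809/10000000) (89773/625000) (178683/100000) (9/125) (720 / 10000) (45411/10000)
    hx1 hx2 hy1 hy2 (by norm_num) (by norm_num) (by norm_num) (by norm_num) (by norm_num)
    (corners (by norm_num) (by norm_num) (by norm_num) (by norm_num)) (by norm_num) (Or.inr (by norm_num))
    (by norm_num) (by norm_num) (by norm_num) (by decide +kernel) (by norm_num) (by norm_num) (by norm_num)
    (exp_neg_le_cert _ _ (by norm_num) (by norm_num) (by norm_num))
    (exp_neg_le_cert _ _ (by norm_num) (by norm_num) (by norm_num))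
    (by norm_num) (by norm_num) (rho1 _ (by norm_num)) (by norm_num) (by norm_num) (by norm_num)

theorem coverII_5 {F x y : ℝ} (hF : T2hyp (1/5) F x y) (hx1 : (1903/5000) ≤ x) (hx2 : x ≤ (1003/2500))
    (hy1 : (109/400) ≤ y) (hy2 : y ≤ (1531/5000)) : F ≤ (45411/10000) :=
  T2_leaf hF (by norm_num) 242643 76369 26497 9488 4484763
    (1903/5000) (1003/2500) (109/400) (1531/5000) (1463/5000) (3117/500) (5281/156250) (1631903/10000000) (35243/20000) (9/125) (720 / 10000) (45411/10000)
    hx1 hx2 hy1 hy2 (by norm_num) (by norm_num) (by norm_num) (by norm_num) (by norm_num)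
    (corners (by norm_num) (by norm_num) (by norm_num) (by norm_num)) (by norm_num) (Or.inr (by norm_num))
    (by norm_num) (by norm_num) (by norm_num) (by decide +kernel) (by norm_num) (by norm_num) (by norm_num)
    (exp_neg_le_cert _ _ (by norm_num) (by norm_num) (by norm_num))
    (exp_neg_le_cert _ _ (by norm_num) (by norm_num) (by norm_num))
    (by norm_num) (by norm_num) (rho1 _ (by norm_num)) (by norm_num) (by norm_num) (by norm_num)

theorem coverII_6 {F x y : ℝ} (hF : T2hyp (1/5) F x y) (hx1 : (9/25) ≤ x) (hx2 : x ≤ (1903/5000))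
    (hy1 : (1531/5000) ≤ y) (hy2 : y ≤ (3231/10000)) : F ≤ (45411/10000) :=
  T2_leaf hF (by norm_num) 245395 76405 25586 8738 4484084
    (9/25) (1903/5000) (1531/5000) (3231/10000) (2963/10000) (6069/1000) (18061/500000) (1755659/10000000) (3471/2000) (9/125) (720 / 10000) (45411/10000)
    hx1 hx2 hy1 hy2 (by norm_num) (by norm_num) (by norm_num) (by norm_num) (by norm_num)
    (corners (by norm_num) (by norm_num) (by norm_num) (by norm_num)) (by norm_num) (Or.inr (by norm_num))
    (by norm_num) (by norm_num) (by norm_num) (by decide +kernel) (by norm_num) (by norm_num) (by norm_num)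
    (exp_neg_le_cert _ _ (by norm_num) (by norm_num) (by norm_num))
    (exp_neg_le_cert _ _ (by norm_num) (by norm_num) (by norm_num))
    (by norm_num) (by norm_num) (rho1 _ (by norm_num)) (by norm_num) (by norm_num) (by norm_num)

theorem coverII_7 {F x y : ℝ} (hF : T2hyp (1/5) F x y) (hx1 : (9/25) ≤ x) (hx2 : x ≤ (3703/10000))
    (hy1 : (3231/10000) ≤ y) (hy2 : y ≤ (17/50)) : F ≤ (45411/10000) :=
  T2_leaf hF (by norm_num) 253943 81358 27694 9567 4478620
    (9/25) (3703/10000) (3231/10000) (17/50) (2897/10000) (1479/250) (101093/2500000) (397209/2000000) (34247/20000) (9/125) (720 / 10000) (45411/10000)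
    hx1 hx2 hy1 hy2 (by norm_num) (by norm_num) (by norm_num) (by norm_num) (by norm_num)
    (corners (by norm_num) (by norm_num) (by norm_num) (by norm_num)) (by norm_num) (Or.inr (by norm_num))
    (by norm_num) (by norm_num) (by norm_num) (by decide +kernel) (by norm_num) (by norm_num) (by norm_num)
    (exp_neg_le_cert _ _ (by norm_num) (by norm_num) (by norm_num))
    (exp_neg_le_cert _ _ (by norm_num) (by norm_num) (by norm_num))
    (by norm_num) (by norm_num) (rho1 _ (by norm_num)) (by norm_num) (by norm_num) (by norm_num)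

theorem coverII_8 {F x y : ℝ} (hF : T2hyp (1/5) F x y) (hx1 : (3703/10000) ≤ x) (hx2 : x ≤ (1903/5000))
    (hy1 : (3231/10000) ≤ y) (hy2 : y ≤ (17/50)) : F ≤ (45411/10000) :=
  T2_leaf hF (by norm_num) 260181 85378 29700 10483 4474399
    (3703/10000) (1903/5000) (3231/10000) (17/50) (1397/5000) (1479/250) (426157/10000000) (262941/1250000) (170031/100000) (9/125) (720 / 10000) (45411/10000)
    hx1 hx2 hy1 hy2 (by norm_num) (by norm_num) (by norm_num) (by norm_num) (by norm_num)
    (corners (by norm_num) (by norm_num) (by norm_num) (by norm_num)) (by norm_num) (Or.inr (by norm_num))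
    (by norm_num) (by norm_num) (by norm_num) (by decide +kernel) (by norm_num) (by norm_num) (by norm_num)
    (exp_neg_le_cert _ _ (by norm_num) (by norm_num) (by norm_num))
    (exp_neg_le_cert _ _ (by norm_num) (by norm_num) (by norm_num))
    (by norm_num) (by norm_num) (rho1 _ (by norm_num)) (by norm_num) (by norm_num) (by norm_num)

theorem coverII_9 {F x y : ℝ} (hF : T2hyp (1/5) F x y) (hx1 : (1903/5000) ≤ x) (hx2 : x ≤ (1003/2500))
    (hy1 : (1531/5000) ≤ y) (hy2 : y ≤ (3231/10000)) : F ≤ (45411/10000) :=
  T2_leaf hF (by norm_num) 257985 84679 29774 10677 4475373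
    (1903/5000) (1003/2500) (1531/5000) (3231/10000) (2757/10000) (6069/1000) (403399/10000000) (495347/2500000) (10697/6250) (9/125) (720 / 10000) (45411/10000)
    hx1 hx2 hy1 hy2 (by norm_num) (by norm_num) (by norm_num) (by norm_num) (by norm_num)
    (corners (by norm_num) (by norm_num) (by norm_num) (by norm_num)) (by norm_num) (Or.inr (by norm_num))
    (by norm_num) (by norm_num) (by norm_num) (by decide +kernel) (by norm_num) (by norm_num) (by norm_num)
    (exp_neg_le_cert _ _ (by norm_num) (by norm_num) (by norm_num))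
    (exp_neg_le_cert _ _ (by norm_num) (by norm_num) (by norm_num))
    (by norm_num) (by norm_num) (rho1 _ (by norm_num)) (by norm_num) (by norm_num) (by norm_num)

theorem coverII_10 {F x y : ℝ} (hF : T2hyp (1/5) F x y) (hx1 : (1903/5000) ≤ x) (hx2 : x ≤ (3909/10000))
    (hy1 : (3231/10000) ≤ y) (hy2 : y ≤ (17/50)) : F ≤ (45411/10000) :=
  T2_leaf hF (by norm_num) 266673 89641 31881 11507 4470014
    (1903/5000) (3909/10000) (3231/10000) (17/50) (2691/10000) (1479/250) (89823/2000000) (2227961/10000000) (168869/100000) (9/125) (720 / 10000) (45411/10000)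
    hx1 hx2 hy1 hy2 (by norm_num) (by norm_num) (by norm_num) (by norm_num) (by norm_num)
    (corners (by norm_num) (by norm_num) (by norm_num) (by norm_num)) (by norm_num) (Or.inr (by norm_num))
    (by norm_num) (by norm_num) (by norm_num) (by decide +kernel) (by norm_num) (by norm_num) (by norm_num)
    (exp_neg_le_cert _ _ (by norm_num) (by norm_num) (by norm_num))
    (exp_neg_le_cert _ _ (by norm_num) (by norm_num) (by norm_num))
    (by norm_num) (by norm_num) (rho1 _ (by norm_num)) (by norm_num) (by norm_num) (by norm_num)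

theorem coverII_11 {F x y : ℝ} (hF : T2hyp (1/5) F x y) (hx1 : (3909/10000) ≤ x) (hx2 : x ≤ (1003/2500))
    (hy1 : (3231/10000) ≤ y) (hy2 : y ≤ (17/50)) : F ≤ (45411/10000) :=
  T2_leaf hF (by norm_num) 273420 94153 34246 12648 4465468
    (3909/10000) (1003/2500) (3231/10000) (17/50) (647/2500) (1479/250) (473309/10000000) (471951/2000000) (83873/50000) (9/125) (720 / 10000) (45411/10000)
    hx1 hx2 hy1 hy2 (by norm_num) (by norm_num) (by norm_num) (by norm_num) (by norm_num)
    (corners (by norm_num) (by norm_num) (by norm_num) (by norm_num)) (by norm_num) (Or.inr (by norm_num))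
    (by norm_num) (by norm_num) (by norm_num) (by decide +kernel) (by norm_num) (by norm_num) (by norm_num)
    (exp_neg_le_cert _ _ (by norm_num) (by norm_num) (by norm_num))
    (exp_neg_le_cert _ _ (by norm_num) (by norm_num) (by norm_num))
    (by norm_num) (by norm_num) (rho1 _ (by norm_num)) (by norm_num) (by norm_num) (by norm_num)

theorem coverII_12 {F x y : ℝ} (hF : T2hyp (1/5) F x y) (hx1 : (1003/2500) ≤ x) (hx2 : x ≤ (177/400))
    (hy1 : (41/200) ≤ y) (hy2 : y ≤ (109/400)) : F ≤ (45411/10000) :=
  T2_leaf hF (by norm_num) 231844 74118 27674 10756 4489075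
    (1003/2500) (177/400) (41/200) (109/400) (57/200) (6609/1000) (144411/5000000) (275003/2000000) (93367/50000) (9/125) (720 / 10000) (45411/10000)
    hx1 hx2 hy1 hy2 (by norm_num) (by norm_num) (by norm_num) (by norm_num) (by norm_num)
    (corners (by norm_num) (by norm_num) (by norm_num) (by norm_num)) (by norm_num) (Or.inr (by norm_num))
    (by norm_num) (by norm_num) (by norm_num) (by decide +kernel) (by norm_num) (by norm_num) (by norm_num)
    (exp_neg_le_cert _ _ (by norm_num) (by norm_num) (by norm_num))
    (exp_neg_le_cert _ _ (by norm_num) (by norm_num) (by norm_num))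
    (by norm_num) (by norm_num) (rho1 _ (by norm_num)) (by norm_num) (by norm_num) (by norm_num)

theorem coverII_13 {F x y : ℝ} (hF : T2hyp (1/5) F x y) (hx1 : (1003/2500) ≤ x) (hx2 : x ≤ (177/400))
    (hy1 : (109/400) ≤ y) (hy2 : y ≤ (1531/5000)) : F ≤ (45411/10000) :=
  T2_leaf hF (by norm_num) 255520 85447 31422 11897 4475443
    (1003/2500) (177/400) (109/400) (1531/5000) (2513/10000) (3117/500) (26683/625000) (26347/125000) (43477/25000) (9/125) (720 / 10000) (45411/10000)
    hx1 hx2 hy1 hy2 (by norm_num) (by norm_num) (by norm_num) (by norm_num) (by norm_num)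
    (corners (by norm_num) (by norm_num) (by norm_num) (by norm_num)) (by norm_num) (Or.inr (by norm_num))
    (by norm_num) (by norm_num) (by norm_num) (by decide +kernel) (by norm_num) (by norm_num) (by norm_num)
    (exp_neg_le_cert _ _ (by norm_num) (by norm_num) (by norm_num))
    (exp_neg_le_cert _ _ (by norm_num) (by norm_num) (by norm_num))
    (by norm_num) (by norm_num) (rho1 _ (by norm_num)) (by norm_num) (by norm_num) (by norm_num)

theorem coverII_14 {F x y : ℝ} (hF : T2hyp (1/5) F x y) (hx1 : (1003/2500) ≤ x) (hx2 : x ≤ (2109/5000))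
    (hy1 : (1531/5000) ≤ y) (hy2 : y ≤ (3231/10000)) : F ≤ (45411/10000) :=
  T2_leaf hF (by norm_num) 271595 93950 34699 13086 4466013
    (1003/2500) (2109/5000) (1531/5000) (3231/10000) (2551/10000) (6069/1000) (56313/1250000) (2236141/10000000) (10557/6250) (9/125) (720 / 10000) (45411/10000)
    hx1 hx2 hy1 hy2 (by norm_num) (by norm_num) (by norm_num) (by norm_num) (by norm_num)
    (corners (by norm_num) (by norm_num) (by norm_num) (by norm_num)) (by norm_num) (Or.inr (by norm_num))
    (by norm_num) (by norm_num) (by norm_num) (by decide +kernel) (by norm_num) (by norm_num) (by norm_num)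
    (exp_neg_le_cert _ _ (by norm_num) (by norm_num) (by norm_num))
    (exp_neg_le_cert _ _ (by norm_num) (by norm_num) (by norm_num))
    (by norm_num) (by norm_num) (rho1 _ (by norm_num)) (by norm_num) (by norm_num) (by norm_num)

theorem coverII_15 {F x y : ℝ} (hF : T2hyp (1/5) F x y) (hx1 : (1003/2500) ≤ x) (hx2 : x ≤ (2109/5000))
    (hy1 : (3231/10000) ≤ y) (hy2 : y ≤ (17/50)) : F ≤ (45411/10000) :=
  T2_leaf hF (by norm_num) 280309 98847 36806 13915 4460825
    (1003/2500) (2109/5000) (3231/10000) (17/50) (1191/5000) (1479/250) (6571/125000) (330899/1250000) (83329/50000) (9/125) (720 / 10000) (45411/10000)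
    hx1 hx2 hy1 hy2 (by norm_num) (by norm_num) (by norm_num) (by norm_num) (by norm_num)
    (corners (by norm_num) (by norm_num) (by norm_num) (by norm_num)) (by norm_num) (Or.inr (by norm_num))
    (by norm_num) (by norm_num) (by norm_num) (by decide +kernel) (by norm_num) (by norm_num) (by norm_num)
    (exp_neg_le_cert _ _ (by norm_num) (by norm_num) (by norm_num))
    (exp_neg_le_cert _ _ (by norm_num) (by norm_num) (by norm_num))
    (by norm_num) (by norm_num) (rho1 _ (by norm_num)) (by norm_num) (by norm_num) (by norm_num)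

theorem coverII_16 {F x y : ℝ} (hF : T2hyp (1/5) F x y) (hx1 : (2109/5000) ≤ x) (hx2 : x ≤ (177/400))
    (hy1 : (1531/5000) ≤ y) (hy2 : y ≤ (3231/10000)) : F ≤ (45411/10000) :=
  T2_leaf hF (by norm_num) 286221 104268 40444 16043 4456037
    (2109/5000) (177/400) (1531/5000) (3231/10000) (293/1250) (6069/1000) (25169/500000) (252513/1000000) (166811/100000) (9/125) (720 / 10000) (45411/10000)
    hx1 hx2 hy1 hy2 (by norm_num) (by norm_num) (by norm_num) (by norm_num) (by norm_num)
    (corners (by norm_num) (by norm_num) (by norm_num) (by norm_num)) (by norm_num) (Or.inr (by norm_num))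
    (by norm_num) (by norm_num) (by norm_num) (by decide +kernel) (by norm_num) (by norm_num) (by norm_num)
    (exp_neg_le_cert _ _ (by norm_num) (by norm_num) (by norm_num))
    (exp_neg_le_cert _ _ (by norm_num) (by norm_num) (by norm_num))
    (by norm_num) (by norm_num) (rho1 _ (by norm_num)) (by norm_num) (by norm_num) (by norm_num)

theorem coverII_17 {F x y : ℝ} (hF : T2hyp (1/5) F x y) (hx1 : (2109/5000) ≤ x) (hx2 : x ≤ (177/400))
    (hy1 : (3231/10000) ≤ y) (hy2 : y ≤ (17/50)) : F ≤ (45411/10000) :=
  T2_leaf hF (by norm_num) 295074 109185 42551 16872 4450961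
    (2109/5000) (177/400) (3231/10000) (17/50) (87/400) (1479/250) (584143/10000000) (2971299/10000000) (32917/20000) (9/125) (720 / 10000) (45411/10000)
    hx1 hx2 hy1 hy2 (by norm_num) (by norm_num) (by norm_num) (by norm_num) (by norm_num)
    (corners (by norm_num) (by norm_num) (by norm_num) (by norm_num)) (by norm_num) (Or.inr (by norm_num))
    (by norm_num) (by norm_num) (by norm_num) (by decide +kernel) (by norm_num) (by norm_num) (by norm_num)
    (exp_neg_le_cert _ _ (by norm_num) (by norm_num) (by norm_num))
    (exp_neg_le_cert _ _ (by norm_num) (by norm_num) (by norm_num))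
    (by norm_num) (by norm_num) (rho1 _ (by norm_num)) (by norm_num) (by norm_num) (by norm_num)

theorem coverII_18 {F x y : ℝ} (hF : T2hyp (1/5) F x y) (hx1 : (177/400) ≤ x) (hx2 : x ≤ (2419/5000))
    (hy1 : (41/200) ≤ y) (hy2 : y ≤ (109/400)) : F ≤ (45411/10000) :=
  T2_leaf hF (by norm_num) 260525 95838 40106 17327 4467612
    (177/400) (2419/5000) (41/200) (109/400) (2437/10000) (6609/1000) (46943/1250000) (1833061/10000000) (36443/20000) (9/125) (720 / 10000) (45411/10000)
    hx1 hx2 hy1 hy2 (by norm_num) (by norm_num) (by norm_num) (by norm_num) (by norm_num)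
    (corners (by norm_num) (by norm_num) (by norm_num) (by norm_num)) (by norm_num) (Or.inr (by norm_num))
    (by norm_num) (by norm_num) (by norm_num) (by decide +kernel) (by norm_num) (by norm_num) (by norm_num)
    (exp_neg_le_cert _ _ (by norm_num) (by norm_num) (by norm_num))
    (exp_neg_le_cert _ _ (by norm_num) (by norm_num) (by norm_num))
    (by norm_num) (by norm_num) (rho1 _ (by norm_num)) (by norm_num) (by norm_num) (by norm_num)

theorem coverII_19 {F x y : ℝ} (hF : T2hyp (1/5) F x y) (hx1 : (177/400) ≤ x) (hx2 : x ≤ (579/1250))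
    (hy1 : (109/400) ≤ y) (hy2 : y ≤ (1531/5000)) : F ≤ (45411/10000) :=
  T2_leaf hF (by norm_num) 285768 107369 43854 18468 4454241
    (177/400) (579/1250) (109/400) (1531/5000) (1153/5000) (3117/500) (479963/10000000) (1198089/5000000) (1697/1000) (9/125) (720 / 10000) (45411/10000)
    hx1 hx2 hy1 hy2 (by norm_num) (by norm_num) (by norm_num) (by norm_num) (by norm_num)
    (corners (by norm_num) (by norm_num) (by norm_num) (by norm_num)) (by norm_num) (Or.inr (by norm_num))
    (by norm_num) (by norm_num) (by norm_num) (by decide +kernel) (by norm_num) (by norm_num) (by norm_num)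
    (exp_neg_le_cert _ _ (by norm_num) (by norm_num) (by norm_num))
    (exp_neg_le_cert _ _ (by norm_num) (by norm_num) (by norm_num))
    (by norm_num) (by norm_num) (rho1 _ (by norm_num)) (by norm_num) (by norm_num) (by norm_num)

theorem coverII_20 {F x y : ℝ} (hF : T2hyp (1/5) F x y) (hx1 : (177/400) ≤ x) (hx2 : x ≤ (579/1250))
    (hy1 : (1531/5000) ≤ y) (hy2 : y ≤ (3231/10000)) : F ≤ (45411/10000) :=
  T2_leaf hF (by norm_num) 301945 115743 47130 19657 4445424
    (177/400) (579/1250) (1531/5000) (3231/10000) (2137/10000) (6069/1000) (562461/10000000) (2851467/10000000) (6593/4000) (9/125) (720 / 10000) (45411/10000)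
    hx1 hx2 hy1 hy2 (by norm_num) (by norm_num) (by norm_num) (by norm_num) (by norm_num)
    (corners (by norm_num) (by norm_num) (by norm_num) (by norm_num)) (by norm_num) (Or.inr (by norm_num))
    (by norm_num) (by norm_num) (by norm_num) (by decide +kernel) (by norm_num) (by norm_num) (by norm_num)
    (exp_neg_le_cert _ _ (by norm_num) (by norm_num) (by norm_num))
    (exp_neg_le_cert _ _ (by norm_num) (by norm_num) (by norm_num))
    (by norm_num) (by norm_num) (rho1 _ (by norm_num)) (by norm_num) (by norm_num) (by norm_num)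

theorem coverII_21 {F x y : ℝ} (hF : T2hyp (1/5) F x y) (hx1 : (177/400) ≤ x) (hx2 : x ≤ (579/1250))
    (hy1 : (3231/10000) ≤ y) (hy2 : y ≤ (17/50)) : F ≤ (45411/10000) :=
  T2_leaf hF (by norm_num) 310939 120678 49238 20486 4440463
    (177/400) (579/1250) (3231/10000) (17/50) (123/625) (1479/250) (649109/10000000) (208443/625000) (81313/50000) (9/125) (720 / 10000) (45411/10000)
    hx1 hx2 hy1 hy2 (by norm_num) (by norm_num) (by norm_num) (by norm_num) (by norm_num)
    (corners (by norm_num) (by norm_num) (by norm_num) (by norm_num)) (by norm_num) (Or.inr (by norm_num))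
    (by norm_num) (by norm_num) (by norm_num) (by decide +kernel) (by norm_num) (by norm_num) (by norm_num)
    (exp_neg_le_cert _ _ (by norm_num) (by norm_num) (by norm_num))
    (exp_neg_le_cert _ _ (by norm_num) (by norm_num) (by norm_num))
    (by norm_num) (by norm_num) (rho1 _ (by norm_num)) (by norm_num) (by norm_num) (by norm_num)

theorem coverII_22 {F x y : ℝ} (hF : T2hyp (1/5) F x y) (hx1 : (579/1250) ≤ x) (hx2 : x ≤ (2419/5000))
    (hy1 : (109/400) ≤ y) (hy2 : y ≤ (1531/5000)) : F ≤ (45411/10000) :=
  T2_leaf hF (by norm_num) 302243 119986 51547 22825 4442872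
    (579/1250) (2419/5000) (109/400) (1531/5000) (21/100) (3117/500) (269641/5000000) (1361187/5000000) (167771/100000) (9/125) (720 / 10000) (45411/10000)
    hx1 hx2 hy1 hy2 (by norm_num) (by norm_num) (by norm_num) (by norm_num) (by norm_num)
    (corners (by norm_num) (by norm_num) (by norm_num) (by norm_num)) (by norm_num) (Or.inr (by norm_num))
    (by norm_num) (by norm_num) (by norm_num) (by decide +kernel) (by norm_num) (by norm_num) (by norm_num)
    (exp_neg_le_cert _ _ (by norm_num) (by norm_num) (by norm_num))
    (exp_neg_le_cert _ _ (by norm_num) (by norm_num) (by norm_num))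
    (by norm_num) (by norm_num) (rho1 _ (by norm_num)) (by norm_num) (by norm_num) (by norm_num)

theorem coverII_23 {F x y : ℝ} (hF : T2hyp (1/5) F x y) (hx1 : (579/1250) ≤ x) (hx2 : x ≤ (947/2000))
    (hy1 : (1531/5000) ≤ y) (hy2 : y ≤ (17/50)) : F ≤ (45411/10000) :=
  T2_leaf hF (by norm_num) 318538 128349 54824 24014 4434320
    (579/1250) (947/2000) (1531/5000) (17/50) (373/2000) (1479/250) (342039/5000000) (1766187/5000000) (162951/100000) (9/125) (720 / 10000) (45411/10000)
    hx1 hx2 hy1 hy2 (by norm_num) (by norm_num) (by norm_num) (by norm_num) (by norm_num)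
    (corners (by norm_num) (by norm_num) (by norm_num) (by norm_num)) (by norm_num) (Or.inr (by norm_num))
    (by norm_num) (by norm_num) (by norm_num) (by decide +kernel) (by norm_num) (by norm_num) (by norm_num)
    (exp_neg_le_cert _ _ (by norm_num) (by norm_num) (by norm_num))
    (exp_neg_le_cert _ _ (by norm_num) (by norm_num) (by norm_num))
    (by norm_num) (by norm_num) (rho1 _ (by norm_num)) (by norm_num) (by norm_num) (by norm_num)

theorem coverII_24 {F x y : ℝ} (hF : T2hyp (1/5) F x y) (hx1 : (947/2000) ≤ x) (hx2 : x ≤ (2419/5000))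
    (hy1 : (1531/5000) ≤ y) (hy2 : y ≤ (17/50)) : F ≤ (45411/10000) :=
  T2_leaf hF (by norm_num) 327257 135087 59057 26492 4428568
    (947/2000) (2419/5000) (1531/5000) (17/50) (881/5000) (1479/250) (180233/2500000) (374133/1000000) (81029/50000) (9/125) (720 / 10000) (45411/10000)
    hx1 hx2 hy1 hy2 (by norm_num) (by norm_num) (by norm_num) (by norm_num) (by norm_num)
    (corners (by norm_num) (by norm_num) (by norm_num) (by norm_num)) (by norm_num) (Or.inr (by norm_num))
    (by norm_num) (by norm_num) (by norm_num) (by decide +kernel) (by norm_num) (by norm_num) (by norm_num)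
    (exp_neg_le_cert _ _ (by norm_num) (by norm_num) (by norm_num))
    (exp_neg_le_cert _ _ (by norm_num) (by norm_num) (by norm_num))
    (by norm_num) (by norm_num) (rho1 _ (by norm_num)) (by norm_num) (by norm_num) (by norm_num)

theorem coverII_25 {F x y : ℝ} (hF : T2hyp (1/5) F x y) (hx1 : (2419/5000) ≤ x) (hx2 : x ≤ (21/40))
    (hy1 : (41/200) ≤ y) (hy2 : y ≤ (109/400)) : F ≤ (45411/10000) :=
  T2_leaf hF (by norm_num) 293302 122186 56551 26867 4443900
    (2419/5000) (21/40) (41/200) (109/400) (81/400) (6609/1000) (243999/5000000) (305249/1250000) (35639/20000) (9/125) (720 / 10000) (45411/10000)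
    hx1 hx2 hy1 hy2 (by norm_num) (by norm_num) (by norm_num) (by norm_num) (by norm_num)
    (corners (by norm_num) (by norm_num) (by norm_num) (by norm_num)) (by norm_num) (Or.inr (by norm_num))
    (by norm_num) (by norm_num) (by norm_num) (by decide +kernel) (by norm_num) (by norm_num) (by norm_num)
    (exp_neg_le_cert _ _ (by norm_num) (by norm_num) (by norm_num))
    (exp_neg_le_cert _ _ (by norm_num) (by norm_num) (by norm_num))
    (by norm_num) (by norm_num) (rho1 _ (by norm_num)) (by norm_num) (by norm_num) (by norm_num)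

theorem coverII_26 {F x y : ℝ} (hF : T2hyp (1/5) F x y) (hx1 : (2419/5000) ≤ x) (hx2 : x ≤ (1261/2500))
    (hy1 : (109/400) ≤ y) (hy2 : y ≤ (1531/5000)) : F ≤ (45411/10000) :=
  T2_leaf hF (by norm_num) 319659 133746 60299 28007 4431043
    (2419/5000) (1261/2500) (109/400) (1531/5000) (947/5000) (3117/500) (151483/2500000) (3092977/10000000) (41489/25000) (9/125) (720 / 10000) (45411/10000)
    hx1 hx2 hy1 hy2 (by norm_num) (by norm_num) (by norm_num) (by norm_num) (by norm_num)
    (corners (by norm_num) (by norm_num) (by norm_num) (by norm_num)) (by norm_num) (Or.inr (by norm_num))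
    (by norm_num) (by norm_num) (by norm_num) (by decide +kernel) (by norm_num) (by norm_num) (by norm_num)
    (exp_neg_le_cert _ _ (by norm_num) (by norm_num) (by norm_num))
    (exp_neg_le_cert _ _ (by norm_num) (by norm_num) (by norm_num))
    (by norm_num) (by norm_num) (rho1 _ (by norm_num)) (by norm_num) (by norm_num) (by norm_num)

theorem coverII_27 {F x y : ℝ} (hF : T2hyp (1/5) F x y) (hx1 : (2419/5000) ≤ x) (hx2 : x ≤ (4941/10000))
    (hy1 : (1531/5000) ≤ y) (hy2 : y ≤ (17/50)) : F ≤ (45411/10000) :=
  T2_leaf hF (by norm_num) 336231 142130 63575 29196 4422692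
    (2419/5000) (4941/10000) (1531/5000) (17/50) (1659/10000) (1479/250) (759771/10000000) (1981323/5000000) (40297/25000) (9/125) (720 / 10000) (45411/10000)
    hx1 hx2 hy1 hy2 (by norm_num) (by norm_num) (by norm_num) (by norm_num) (by norm_num)
    (corners (by norm_num) (by norm_num) (by norm_num) (by norm_num)) (by norm_num) (Or.inr (by norm_num))
    (by norm_num) (by norm_num) (by norm_num) (by decide +kernel) (by norm_num) (by norm_num) (by norm_num)
    (exp_neg_le_cert _ _ (by norm_num) (by norm_num) (by norm_num))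
    (exp_neg_le_cert _ _ (by norm_num) (by norm_num) (by norm_num))
    (by norm_num) (by norm_num) (rho1 _ (by norm_num)) (by norm_num) (by norm_num) (by norm_num)

theorem coverII_28 {F x y : ℝ} (hF : T2hyp (1/5) F x y) (hx1 : (4941/10000) ≤ x) (hx2 : x ≤ (1261/2500))
    (hy1 : (1531/5000) ≤ y) (hy2 : y ≤ (3231/10000)) : F ≤ (45411/10000) :=
  T2_leaf hF (by norm_num) 345734 149541 68392 32140 4416591
    (4941/10000) (1261/2500) (1531/5000) (3231/10000) (69/400) (6069/1000) (701491/10000000) (453981/1250000) (80171/50000) (9/125) (720 / 10000) (45411/10000)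
    hx1 hx2 hy1 hy2 (by norm_num) (by norm_num) (by norm_num) (by norm_num) (by norm_num)
    (corners (by norm_num) (by norm_num) (by norm_num) (by norm_num)) (by norm_num) (Or.inr (by norm_num))
    (by norm_num) (by norm_num) (by norm_num) (by decide +kernel) (by norm_num) (by norm_num) (by norm_num)
    (exp_neg_le_cert _ _ (by norm_num) (by norm_num) (by norm_num))
    (exp_neg_le_cert _ _ (by norm_num) (by norm_num) (by norm_num))
    (by norm_num) (by norm_num) (rho1 _ (by norm_num)) (by norm_num) (by norm_num) (by norm_num)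

theorem coverII_29 {F x y : ℝ} (hF : T2hyp (1/5) F x y) (hx1 : (4941/10000) ≤ x) (hx2 : x ≤ (1261/2500))
    (hy1 : (3231/10000) ≤ y) (hy2 : y ≤ (17/50)) : F ≤ (45411/10000) :=
  T2_leaf hF (by norm_num) 355076 154507 70499 32970 4411929
    (4941/10000) (1261/2500) (3231/10000) (17/50) (389/2500) (1479/250) (800703/10000000) (839411/2000000) (158203/100000) (9/125) (720 / 10000) (45411/10000)
    hx1 hx2 hy1 hy2 (by norm_num) (by norm_num) (by norm_num) (by norm_num) (by norm_num)
    (corners (by norm_num) (by norm_num) (by norm_num) (by norm_num)) (by norm_num) (Or.inr (by norm_num))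
    (by norm_num) (by norm_num) (by norm_num) (by decide +kernel) (by norm_num) (by norm_num) (by norm_num)
    (exp_neg_le_cert _ _ (by norm_num) (by norm_num) (by norm_num))
    (exp_neg_le_cert _ _ (by norm_num) (by norm_num) (by norm_num))
    (by norm_num) (by norm_num) (rho1 _ (by norm_num)) (by norm_num) (by norm_num) (by norm_num)

theorem coverII_30 {F x y : ℝ} (hF : T2hyp (1/5) F x y) (hx1 : (1261/2500) ≤ x) (hx2 : x ≤ (21/40))
    (hy1 : (109/400) ≤ y) (hy2 : y ≤ (1531/5000)) : F ≤ (45411/10000) :=
  T2_leaf hF (by norm_num) 338092 148756 70243 34151 4418739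
    (1261/2500) (21/40) (109/400) (1531/5000) (211/1250) (3117/500) (680819/10000000) (219627/625000) (32847/20000) (9/125) (720 / 10000) (45411/10000)
    hx1 hx2 hy1 hy2 (by norm_num) (by norm_num) (by norm_num) (by norm_num) (by norm_num)
    (corners (by norm_num) (by norm_num) (by norm_num) (by norm_num)) (by norm_num) (Or.inr (by norm_num))
    (by norm_num) (by norm_num) (by norm_num) (by decide +kernel) (by norm_num) (by norm_num) (by norm_num)
    (exp_neg_le_cert _ _ (by norm_num) (by norm_num) (by norm_num))
    (exp_neg_le_cert _ _ (by norm_num) (by norm_num) (by norm_num))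
    (by norm_num) (by norm_num) (rho1 _ (by norm_num)) (by norm_num) (by norm_num) (by norm_num)

theorem coverII_31 {F x y : ℝ} (hF : T2hyp (1/5) F x y) (hx1 : (1261/2500) ≤ x) (hx2 : x ≤ (5147/10000))
    (hy1 : (1531/5000) ≤ y) (hy2 : y ≤ (3231/10000)) : F ≤ (45411/10000) :=
  T2_leaf hF (by norm_num) 355217 157208 73519 35341 4410485
    (1261/2500) (5147/10000) (1531/5000) (3231/10000) (811/5000) (6069/1000) (370659/5000000) (3858269/10000000) (159517/100000) (9/125) (720 / 10000) (45411/10000)
    hx1 hx2 hy1 hy2 (by norm_num) (by norm_num) (by norm_num) (by norm_num) (by norm_num)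
    (corners (by norm_num) (by norm_num) (by norm_num) (by norm_num)) (by norm_num) (Or.inr (by norm_num))
    (by norm_num) (by norm_num) (by norm_num) (by decide +kernel) (by norm_num) (by norm_num) (by norm_num)
    (exp_neg_le_cert _ _ (by norm_num) (by norm_num) (by norm_num))
    (exp_neg_le_cert _ _ (by norm_num) (by norm_num) (by norm_num))
    (by norm_num) (by norm_num) (rho1 _ (by norm_num)) (by norm_num) (by norm_num) (by norm_num)

theorem coverII_32 {F x y : ℝ} (hF : T2hyp (1/5) F x y) (hx1 : (1261/2500) ≤ x) (hx2 : x ≤ (5147/10000))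
    (hy1 : (3231/10000) ≤ y) (hy2 : y ≤ (17/50)) : F ≤ (45411/10000) :=
  T2_leaf hF (by norm_num) 364629 162181 75627 36170 4405882
    (1261/2500) (5147/10000) (3231/10000) (17/50) (1453/10000) (1479/250) (2637/31250) (4445329/10000000) (157389/100000) (9/125) (720 / 10000) (45411/10000)
    hx1 hx2 hy1 hy2 (by norm_num) (by norm_num) (by norm_num) (by norm_num) (by norm_num)
    (corners (by norm_num) (by norm_num) (by norm_num) (by norm_num)) (by norm_num) (Or.inr (by norm_num))
    (by norm_num) (by norm_num) (by norm_num) (by decide +kernel) (by norm_num) (by norm_num) (by norm_num)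
    (exp_neg_le_cert _ _ (by norm_num) (by norm_num) (by norm_num))
    (exp_neg_le_cert _ _ (by norm_num) (by norm_num) (by norm_num))
    (by norm_num) (by norm_num) (rho1 _ (by norm_num)) (by norm_num) (by norm_num) (by norm_num)

theorem coverII_33 {F x y : ℝ} (hF : T2hyp (1/5) F x y) (hx1 : (5147/10000) ≤ x) (hx2 : x ≤ (21/40))
    (hy1 : (1531/5000) ≤ y) (hy2 : y ≤ (3231/10000)) : F ≤ (45411/10000) :=
  T2_leaf hF (by norm_num) 364954 165201 78971 38813 4404270
    (5147/10000) (21/40) (1531/5000) (3231/10000) (1519/10000) (6069/1000) (783407/10000000) (2049403/5000000) (158713/100000) (9/125) (720 / 10000) (45411/10000)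
    hx1 hx2 hy1 hy2 (by norm_num) (by norm_num) (by norm_num) (by norm_num) (by norm_num)
    (corners (by norm_num) (by norm_num) (by norm_num) (by norm_num)) (by norm_num) (Or.inr (by norm_num))
    (by norm_num) (by norm_num) (by norm_num) (by decide +kernel) (by norm_num) (by norm_num) (by norm_num)
    (exp_neg_le_cert _ _ (by norm_num) (by norm_num) (by norm_num))
    (exp_neg_le_cert _ _ (by norm_num) (by norm_num) (by norm_num))
    (by norm_num) (by norm_num) (rho1 _ (by norm_num)) (by norm_num) (by norm_num) (by norm_num)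

theorem coverII_34 {F x y : ℝ} (hF : T2hyp (1/5) F x y) (hx1 : (5147/10000) ≤ x) (hx2 : x ≤ (21/40))
    (hy1 : (3231/10000) ≤ y) (hy2 : y ≤ (17/50)) : F ≤ (45411/10000) :=
  T2_leaf hF (by norm_num) 374436 170180 81078 39643 4399726
    (5147/10000) (21/40) (3231/10000) (17/50) (27/200) (1479/250) (889301/10000000) (4708291/10000000) (31319/20000) (9/125) (720 / 10000) (45411/10000)
    hx1 hx2 hy1 hy2 (by norm_num) (by norm_num) (by norm_num) (by norm_num) (by norm_num)
    (corners (by norm_num) (by norm_num) (by norm_num) (by norm_num)) (by norm_num) (Or.inr (by norm_num))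
    (by norm_num) (by norm_num) (by norm_num) (by decide +kernel) (by norm_num) (by norm_num) (by norm_num)
    (exp_neg_le_cert _ _ (by norm_num) (by norm_num) (by norm_num))
    (exp_neg_le_cert _ _ (by norm_num) (by norm_num) (by norm_num))
    (by norm_num) (by norm_num) (rho1 _ (by norm_num)) (by norm_num) (by norm_num) (by norm_num)

theorem coverII {F x y : ℝ} (hF : T2hyp (1/5) F x y) (hx1 : (9/25) ≤ x) (hx2 : x ≤ (21/40))
    (hy2 : y ≤ (17/50)) (hyx : y ≤ x) (hfeas : 1 - x ≤ 6 * y) : F ≤ (45411/10000) := by
  have hy1 : (7/100) ≤ y := by linarith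
  rcases le_total y (41/200) with hy_1 | hy_1
  · rcases le_total x (177/400) with hx_2 | hx_2
    · exact coverII_0 hF hx1 hx_2 hy1 hy_1
    · exact coverII_1 hF hx_2 hx2 hy1 hy_1
  · rcases le_total x (177/400) with hx_3 | hx_3
    · rcases le_total x (1003/2500) with hx_4 | hx_4
      · rcases le_total y (109/400) with hy_5 | hy_5
        · rcases le_total y (597/2500) with hy_6 | hy_6
          · exact coverII_2 hF hx1 hx_4 hy_1 hy_6
          · exact coverII_3 hF hx1 hx_4 hy_6 hy_5
        · rcases le_total y (1531/5000) with hy_7 | hy_7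
          · rcases le_total x (1903/5000) with hx_8 | hx_8
            · exact coverII_4 hF hx1 hx_8 hy_5 hy_7
            · exact coverII_5 hF hx_8 hx_4 hy_5 hy_7
          · rcases le_total x (1903/5000) with hx_9 | hx_9
            · rcases le_total y (3231/10000) with hy_10 | hy_10
              · exact coverII_6 hF hx1 hx_9 hy_7 hy_10
              · rcases le_total x (3703/10000) with hx_11 | hx_11
                · exact coverII_7 hF hx1 hx_11 hy_10 hy2
                · exact coverII_8 hF hx_11 hx_9 hy_10 hy2
            · rcases le_total y (3231/10000) with hy_12 | hy_12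
              · exact coverII_9 hF hx_9 hx_4 hy_7 hy_12
              · rcases le_total x (3909/10000) with hx_13 | hx_13
                · exact coverII_10 hF hx_9 hx_13 hy_12 hy2
                · exact coverII_11 hF hx_13 hx_4 hy_12 hy2
      · rcases le_total y (109/400) with hy_14 | hy_14
        · exact coverII_12 hF hx_4 hx_3 hy_1 hy_14
        · rcases le_total y (1531/5000) with hy_15 | hy_15
          · exact coverII_13 hF hx_4 hx_3 hy_14 hy_15
          · rcases le_total x (2109/5000) with hx_16 | hx_16
            · rcases le_total y (3231/10000) with hy_17 | hy_17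
              · exact coverII_14 hF hx_4 hx_16 hy_15 hy_17
              · exact coverII_15 hF hx_4 hx_16 hy_17 hy2
            · rcases le_total y (3231/10000) with hy_18 | hy_18
              · exact coverII_16 hF hx_16 hx_3 hy_15 hy_18
              · exact coverII_17 hF hx_16 hx_3 hy_18 hy2
    · rcases le_total x (2419/5000) with hx_19 | hx_19
      · rcases le_total y (109/400) with hy_20 | hy_20
        · exact coverII_18 hF hx_3 hx_19 hy_1 hy_20
        · rcases le_total x (579/1250) with hx_21 | hx_21
          · rcases le_total y (1531/5000) with hy_22 | hy_22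
            · exact coverII_19 hF hx_3 hx_21 hy_20 hy_22
            · rcases le_total y (3231/10000) with hy_23 | hy_23
              · exact coverII_20 hF hx_3 hx_21 hy_22 hy_23
              · exact coverII_21 hF hx_3 hx_21 hy_23 hy2
          · rcases le_total y (1531/5000) with hy_24 | hy_24
            · exact coverII_22 hF hx_21 hx_19 hy_20 hy_24
            · rcases le_total x (947/2000) with hx_25 | hx_25
              · exact coverII_23 hF hx_21 hx_25 hy_24 hy2
              · exact coverII_24 hF hx_25 hx_19 hy_24 hy2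
      · rcases le_total y (109/400) with hy_26 | hy_26
        · exact coverII_25 hF hx_19 hx2 hy_1 hy_26
        · rcases le_total x (1261/2500) with hx_27 | hx_27
          · rcases le_total y (1531/5000) with hy_28 | hy_28
            · exact coverII_26 hF hx_19 hx_27 hy_26 hy_28
            · rcases le_total x (4941/10000) with hx_29 | hx_29
              · exact coverII_27 hF hx_19 hx_29 hy_28 hy2
              · rcases le_total y (3231/10000) with hy_30 | hy_30
                · exact coverII_28 hF hx_29 hx_27 hy_28 hy_30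
                · exact coverII_29 hF hx_29 hx_27 hy_30 hy2
          · rcases le_total y (1531/5000) with hy_31 | hy_31
            · exact coverII_30 hF hx_27 hx2 hy_26 hy_31
            · rcases le_total x (5147/10000) with hx_32 | hx_32
              · rcases le_total y (3231/10000) with hy_33 | hy_33
                · exact coverII_31 hF hx_27 hx_32 hy_31 hy_33
                · exact coverII_32 hF hx_27 hx_32 hy_33 hy2
              · rcases le_total y (3231/10000) with hy_34 | hy_34
                · exact coverII_33 hF hx_32 hx2 hy_31 hy_34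
                · exact coverII_34 hF hx_32 hx2 hy_34 hy2

end
end CG3
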