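import Pool.Agent.CG3.T2Leaf

open MeasureTheory ProbabilityTheory
open scoped BigOperators

namespace CG3
noncomputable section

theorem coverIII_0 {F x y : ℝ} (hF : T2hyp (0) F x y) (hx1 : (9/25) ≤ x) (hx2 : x ≤ (177/400))
    (hy1 : (1/20) ≤ y) (hy2 : y ≤ (49/400)) : F ≤ (114/25) :=
  T2_leaf hF (by norm_num) 129084 46781 16802 6046 4546572
    (9/25) (177/400) (1/20) (49/400) (87/200) (8) (55543/10000000) (1189/1000000) (273013/100000) (5333/100000) (395 / 10000) (114/25)
    hx1 hx2 hy1 hy2 (by norm_num) (by norm_num) (by norm_num) (by norm_num) (by norm_num)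
    (corners (by norm_num) (by norm_num) (by norm_num) (by norm_num)) (by norm_num) (Or.inr (by norm_num))
    (by norm_num) (by norm_num) (by norm_num) (by decide +kernel) (by norm_num) (by norm_num) (by norm_num)
    (exp_neg_le_cert _ _ (by norm_num) (by norm_num) (by norm_num))
    (exp_neg_le_cert _ _ (by norm_num) (by norm_num) (by norm_num))
    (by norm_num) (by norm_num) (rho3 _ (by norm_num)) (by norm_num) (by norm_num) (by norm_num)

theorem coverIII_1 {F x y : ℝ} (hF : T2hyp (0) F x y) (hx1 : (9/25) ≤ x) (hx2 : x ≤ (177/400))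
    (hy1 : (49/400) ≤ y) (hy2 : y ≤ (39/200)) : F ≤ (114/25) :=
  T2_leaf hF (by norm_num) 141590 48494 17021 6074 4540164
    (9/25) (177/400) (49/400) (39/200) (29/80) (1953/250) (2209/312500) (147023/5000000) (109109/50000) (9/125) (720 / 10000) (114/25)
    hx1 hx2 hy1 hy2 (by norm_num) (by norm_num) (by norm_num) (by norm_num) (by norm_num)
    (corners (by norm_num) (by norm_num) (by norm_num) (by norm_num)) (by norm_num) (Or.inr (by norm_num))
    (by norm_num) (by norm_num) (by norm_num) (by decide +kernel) (by norm_num) (by norm_num) (by norm_num)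
    (exp_neg_le_cert _ _ (by norm_num) (by norm_num) (by norm_num))
    (exp_neg_le_cert _ _ (by norm_num) (by norm_num) (by norm_num))
    (by norm_num) (by norm_num) (rho1 _ (by norm_num)) (by norm_num) (by norm_num) (by norm_num)

theorem coverIII_2 {F x y : ℝ} (hF : T2hyp (0) F x y) (hx1 : (177/400) ≤ x) (hx2 : x ≤ (21/40))
    (hy1 : (1/20) ≤ y) (hy2 : y ≤ (39/200)) : F ≤ (114/25) :=
  T2_leaf hF (by norm_num) 191348 86769 38346 16965 4497984
    (177/400) (21/40) (1/20) (39/200) (7/25) (1953/250) (147073/10000000) (6561/100000) (259287/100000) (3039/50000) (513 / 10000) (114/25)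
    hx1 hx2 hy1 hy2 (by norm_num) (by norm_num) (by norm_num) (by norm_num) (by norm_num)
    (corners (by norm_num) (by norm_num) (by norm_num) (by norm_num)) (by norm_num) (Or.inr (by norm_num))
    (by norm_num) (by norm_num) (by norm_num) (by decide +kernel) (by norm_num) (by norm_num) (by norm_num)
    (exp_neg_le_cert _ _ (by norm_num) (by norm_num) (by norm_num))
    (exp_neg_le_cert _ _ (by norm_num) (by norm_num) (by norm_num))
    (by norm_num) (by norm_num) (rho2 _ (by norm_num)) (by norm_num) (by norm_num) (by norm_num)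

theorem coverIII_3 {F x y : ℝ} (hF : T2hyp (0) F x y) (hx1 : (9/25) ≤ x) (hx2 : x ≤ (1003/2500))
    (hy1 : (39/200) ≤ y) (hy2 : y ≤ (107/400)) : F ≤ (114/25) :=
  T2_leaf hF (by norm_num) 165886 54070 18242 6328 4526967
    (9/25) (1003/2500) (39/200) (107/400) (3313/10000) (667/100) (51747/2500000) (95411/1000000) (7771/4000) (9/125) (720 / 10000) (114/25)
    hx1 hx2 hy1 hy2 (by norm_num) (by norm_num) (by norm_num) (by norm_num) (by norm_num)
    (corners (by norm_num) (by norm_num) (by norm_num) (by norm_num)) (by norm_num) (Or.inr (by norm_num))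
    (by norm_num) (by norm_num) (by norm_num) (by decide +kernel) (by norm_num) (by norm_num) (by norm_num)
    (exp_neg_le_cert _ _ (by norm_num) (by norm_num) (by norm_num))
    (exp_neg_le_cert _ _ (by norm_num) (by norm_num) (by norm_num))
    (by norm_num) (by norm_num) (rho1 _ (by norm_num)) (by norm_num) (by norm_num) (by norm_num)

theorem coverIII_4 {F x y : ℝ} (hF : T2hyp (0) F x y) (hx1 : (1003/2500) ≤ x) (hx2 : x ≤ (177/400))
    (hy1 : (39/200) ≤ y) (hy2 : y ≤ (107/400)) : F ≤ (114/25) :=
  T2_leaf hF (by norm_num) 197245 71992 27354 10676 4504132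
    (1003/2500) (177/400) (39/200) (107/400) (29/100) (667/100) (270449/10000000) (319699/2500000) (189083/100000) (9/125) (720 / 10000) (114/25)
    hx1 hx2 hy1 hy2 (by norm_num) (by norm_num) (by norm_num) (by norm_num) (by norm_num)
    (corners (by norm_num) (by norm_num) (by norm_num) (by norm_num)) (by norm_num) (Or.inr (by norm_num))
    (by norm_num) (by norm_num) (by norm_num) (by decide +kernel) (by norm_num) (by norm_num) (by norm_num)
    (exp_neg_le_cert _ _ (by norm_num) (by norm_num) (by norm_num))
    (exp_neg_le_cert _ _ (by norm_num) (by norm_num) (by norm_num))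
    (by norm_num) (by norm_num) (rho1 _ (by norm_num)) (by norm_num) (by norm_num) (by norm_num)

theorem coverIII_5 {F x y : ℝ} (hF : T2hyp (0) F x y) (hx1 : (9/25) ≤ x) (hx2 : x ≤ (1003/2500))
    (hy1 : (107/400) ≤ y) (hy2 : y ≤ (1519/5000)) : F ≤ (114/25) :=
  T2_leaf hF (by norm_num) 200402 65797 21916 7416 4507053
    (9/25) (1003/2500) (107/400) (1519/5000) (59/200) (6259/1000) (82227/2500000) (158477/1000000) (179513/100000) (9/125) (720 / 10000) (114/25)
    hx1 hx2 hy1 hy2 (by norm_num) (by norm_num) (by norm_num) (by norm_num) (by norm_num)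
    (corners (by norm_num) (by norm_num) (by norm_num) (by norm_num)) (by norm_num) (Or.inr (by norm_num))
    (by norm_num) (by norm_num) (by norm_num) (by decide +kernel) (by norm_num) (by norm_num) (by norm_num)
    (exp_neg_le_cert _ _ (by norm_num) (by norm_num) (by norm_num))
    (exp_neg_le_cert _ _ (by norm_num) (by norm_num) (by norm_num))
    (by norm_num) (by norm_num) (rho1 _ (by norm_num)) (by norm_num) (by norm_num) (by norm_num)

theorem coverIII_6 {F x y : ℝ} (hF : T2hyp (0) F x y) (hx1 : (9/25) ≤ x) (hx2 : x ≤ (1903/5000))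
    (hy1 : (1519/5000) ≤ y) (hy2 : y ≤ (17/50)) : F ≤ (114/25) :=
  T2_leaf hF (by norm_num) 221460 74695 25314 8634 4494473
    (9/25) (1903/5000) (1519/5000) (17/50) (1397/5000) (1479/250) (426157/10000000) (262941/1250000) (43473/25000) (9/125) (720 / 10000) (114/25)
    hx1 hx2 hy1 hy2 (by norm_num) (by norm_num) (by norm_num) (by norm_num) (by norm_num)
    (corners (by norm_num) (by norm_num) (by norm_num) (by norm_num)) (by norm_num) (Or.inr (by norm_num))
    (by norm_num) (by norm_num) (by norm_num) (by decide +kernel) (by norm_num) (by norm_num) (by norm_num)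
    (exp_neg_le_cert _ _ (by norm_num) (by norm_num) (by norm_num))
    (exp_neg_le_cert _ _ (by norm_num) (by norm_num) (by norm_num))
    (by norm_num) (by norm_num) (rho1 _ (by norm_num)) (by norm_num) (by norm_num) (by norm_num)

theorem coverIII_7 {F x y : ℝ} (hF : T2hyp (0) F x y) (hx1 : (1903/5000) ≤ x) (hx2 : x ≤ (1003/2500))
    (hy1 : (1519/5000) ≤ y) (hy2 : y ≤ (17/50)) : F ≤ (114/25) :=
  T2_leaf hF (by norm_num) 236717 83171 29501 10574 4484394
    (1903/5000) (1003/2500) (1519/5000) (17/50) (647/2500) (1479/250) (473309/10000000) (471951/2000000) (171489/100000) (9/125) (720 / 10000) (114/25)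
    hx1 hx2 hy1 hy2 (by norm_num) (by norm_num) (by norm_num) (by norm_num) (by norm_num)
    (corners (by norm_num) (by norm_num) (by norm_num) (by norm_num)) (by norm_num) (Or.inr (by norm_num))
    (by norm_num) (by norm_num) (by norm_num) (by decide +kernel) (by norm_num) (by norm_num) (by norm_num)
    (exp_neg_le_cert _ _ (by norm_num) (by norm_num) (by norm_num))
    (exp_neg_le_cert _ _ (by norm_num) (by norm_num) (by norm_num))
    (by norm_num) (by norm_num) (rho1 _ (by norm_num)) (by norm_num) (by norm_num) (by norm_num)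

theorem coverIII_8 {F x y : ℝ} (hF : T2hyp (0) F x y) (hx1 : (1003/2500) ≤ x) (hx2 : x ≤ (177/400))
    (hy1 : (107/400) ≤ y) (hy2 : y ≤ (1519/5000)) : F ≤ (114/25) :=
  T2_leaf hF (by norm_num) 231761 83719 31028 11764 4485548
    (1003/2500) (177/400) (107/400) (1519/5000) (2537/10000) (6259/1000) (104061/2500000) (2051023/10000000) (34943/20000) (9/125) (720 / 10000) (114/25)
    hx1 hx2 hy1 hy2 (by norm_num) (by norm_num) (by norm_num) (by norm_num) (by norm_num)
    (corners (by norm_num) (by norm_num) (by norm_num) (by norm_num)) (by norm_num) (Or.inr (by norm_num))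
    (by norm_num) (by norm_num) (by norm_num) (by decide +kernel) (by norm_num) (by norm_num) (by norm_num)
    (exp_neg_le_cert _ _ (by norm_num) (by norm_num) (by norm_num))
    (exp_neg_le_cert _ _ (by norm_num) (by norm_num) (by norm_num))
    (by norm_num) (by norm_num) (rho1 _ (by norm_num)) (by norm_num) (by norm_num) (by norm_num)

theorem coverIII_9 {F x y : ℝ} (hF : T2hyp (0) F x y) (hx1 : (1003/2500) ≤ x) (hx2 : x ≤ (2109/5000))
    (hy1 : (1519/5000) ≤ y) (hy2 : y ≤ (17/50)) : F ≤ (114/25) :=
  T2_leaf hF (by norm_num) 252822 92616 34426 12982 4473788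
    (1003/2500) (2109/5000) (1519/5000) (17/50) (1191/5000) (1479/250) (6571/125000) (330899/1250000) (42311/25000) (9/125) (720 / 10000) (114/25)
    hx1 hx2 hy1 hy2 (by norm_num) (by norm_num) (by norm_num) (by norm_num) (by norm_num)
    (corners (by norm_num) (by norm_num) (by norm_num) (by norm_num)) (by norm_num) (Or.inr (by norm_num))
    (by norm_num) (by norm_num) (by norm_num) (by decide +kernel) (by norm_num) (by norm_num) (by norm_num)
    (exp_neg_le_cert _ _ (by norm_num) (by norm_num) (by norm_num))
    (exp_neg_le_cert _ _ (by norm_num) (by norm_num) (by norm_num))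
    (by norm_num) (by norm_num) (rho1 _ (by norm_num)) (by norm_num) (by norm_num) (by norm_num)

theorem coverIII_10 {F x y : ℝ} (hF : T2hyp (0) F x y) (hx1 : (2109/5000) ≤ x) (hx2 : x ≤ (177/400))
    (hy1 : (1519/5000) ≤ y) (hy2 : y ≤ (17/50)) : F ≤ (114/25) :=
  T2_leaf hF (by norm_num) 269774 103083 40172 15939 4462685
    (2109/5000) (177/400) (1519/5000) (17/50) (87/400) (1479/250) (584143/10000000) (2971299/10000000) (167139/100000) (9/125) (720 / 10000) (114/25)
    hx1 hx2 hy1 hy2 (by norm_num) (by norm_num) (by norm_num) (by norm_num) (by norm_num)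
    (corners (by norm_num) (by norm_num) (by norm_num) (by norm_num)) (by norm_num) (Or.inr (by norm_num))
    (by norm_num) (by norm_num) (by norm_num) (by decide +kernel) (by norm_num) (by norm_num) (by norm_num)
    (exp_neg_le_cert _ _ (by norm_num) (by norm_num) (by norm_num))
    (exp_neg_le_cert _ _ (by norm_num) (by norm_num) (by norm_num))
    (by norm_num) (by norm_num) (rho1 _ (by norm_num)) (by norm_num) (by norm_num) (by norm_num)

theorem coverIII_11 {F x y : ℝ} (hF : T2hyp (0) F x y) (hx1 : (177/400) ≤ x) (hx2 : x ≤ (2419/5000))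
    (hy1 : (39/200) ≤ y) (hy2 : y ≤ (107/400)) : F ≤ (114/25) :=
  T2_leaf hF (by norm_num) 232090 94059 39785 17247 4479295
    (177/400) (2419/5000) (39/200) (107/400) (2487/10000) (667/100) (35337/1000000) (68559/400000) (46127/25000) (9/125) (720 / 10000) (114/25)
    hx1 hx2 hy1 hy2 (by norm_num) (by norm_num) (by norm_num) (by norm_num) (by norm_num)
    (corners (by norm_num) (by norm_num) (by norm_num) (by norm_num)) (by norm_num) (Or.inr (by norm_num))
    (by norm_num) (by norm_num) (by norm_num) (by decide +kernel) (by norm_num) (by norm_num) (by norm_num)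
    (exp_neg_le_cert _ _ (by norm_num) (by norm_num) (by norm_num))
    (exp_neg_le_cert _ _ (by norm_num) (by norm_num) (by norm_num))
    (by norm_num) (by norm_num) (rho1 _ (by norm_num)) (by norm_num) (by norm_num) (by norm_num)

theorem coverIII_12 {F x y : ℝ} (hF : T2hyp (0) F x y) (hx1 : (177/400) ≤ x) (hx2 : x ≤ (2419/5000))
    (hy1 : (107/400) ≤ y) (hy2 : y ≤ (1519/5000)) : F ≤ (114/25) :=
  T2_leaf hF (by norm_num) 266606 105785 43460 18335 4462005
    (177/400) (2419/5000) (107/400) (1519/5000) (531/2500) (6259/1000) (263387/5000000) (1327227/5000000) (170487/100000) (9/125) (720 / 10000) (114/25)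
    hx1 hx2 hy1 hy2 (by norm_num) (by norm_num) (by norm_num) (by norm_num) (by norm_num)
    (corners (by norm_num) (by norm_num) (by norm_num) (by norm_num)) (by norm_num) (Or.inr (by norm_num))
    (by norm_num) (by norm_num) (by norm_num) (by decide +kernel) (by norm_num) (by norm_num) (by norm_num)
    (exp_neg_le_cert _ _ (by norm_num) (by norm_num) (by norm_num))
    (exp_neg_le_cert _ _ (by norm_num) (by norm_num) (by norm_num))
    (by norm_num) (by norm_num) (rho1 _ (by norm_num)) (by norm_num) (by norm_num) (by norm_num)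

theorem coverIII_13 {F x y : ℝ} (hF : T2hyp (0) F x y) (hx1 : (177/400) ≤ x) (hx2 : x ≤ (579/1250))
    (hy1 : (1519/5000) ≤ y) (hy2 : y ≤ (17/50)) : F ≤ (114/25) :=
  T2_leaf hF (by norm_num) 287665 114683 46858 19553 4451055
    (177/400) (579/1250) (1519/5000) (17/50) (123/625) (1479/250) (649109/10000000) (208443/625000) (165149/100000) (9/125) (720 / 10000) (114/25)
    hx1 hx2 hy1 hy2 (by norm_num) (by norm_num) (by norm_num) (by norm_num) (by norm_num)
    (corners (by norm_num) (by norm_num) (by norm_num) (by norm_num)) (by norm_num) (Or.inr (by norm_num))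
    (by norm_num) (by norm_num) (by norm_num) (by decide +kernel) (by norm_num) (by norm_num) (by norm_num)
    (exp_neg_le_cert _ _ (by norm_num) (by norm_num) (by norm_num))
    (exp_neg_le_cert _ _ (by norm_num) (by norm_num) (by norm_num))
    (by norm_num) (by norm_num) (rho1 _ (by norm_num)) (by norm_num) (by norm_num) (by norm_num)

theorem coverIII_14 {F x y : ℝ} (hF : T2hyp (0) F x y) (hx1 : (579/1250) ≤ x) (hx2 : x ≤ (2419/5000))
    (hy1 : (1519/5000) ≤ y) (hy2 : y ≤ (17/50)) : F ≤ (114/25) :=
  T2_leaf hF (by norm_num) 306414 127420 54551 23910 4438984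
    (579/1250) (2419/5000) (1519/5000) (17/50) (881/5000) (1479/250) (180233/2500000) (374133/1000000) (20409/12500) (9/125) (720 / 10000) (114/25)
    hx1 hx2 hy1 hy2 (by norm_num) (by norm_num) (by norm_num) (by norm_num) (by norm_num)
    (corners (by norm_num) (by norm_num) (by norm_num) (by norm_num)) (by norm_num) (Or.inr (by norm_num))
    (by norm_num) (by norm_num) (by norm_num) (by decide +kernel) (by norm_num) (by norm_num) (by norm_num)
    (exp_neg_le_cert _ _ (by norm_num) (by norm_num) (by norm_num))
    (exp_neg_le_cert _ _ (by norm_num) (by norm_num) (by norm_num))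
    (by norm_num) (by norm_num) (rho1 _ (by norm_num)) (by norm_num) (by norm_num) (by norm_num)

theorem coverIII_15 {F x y : ℝ} (hF : T2hyp (0) F x y) (hx1 : (2419/5000) ≤ x) (hx2 : x ≤ (21/40))
    (hy1 : (39/200) ≤ y) (hy2 : y ≤ (107/400)) : F ≤ (114/25) :=
  T2_leaf hF (by norm_num) 270349 120654 56231 26787 4452795
    (2419/5000) (21/40) (39/200) (107/400) (83/400) (667/100) (461419/10000000) (2295621/10000000) (180437/100000) (9/125) (720 / 10000) (114/25)
    hx1 hx2 hy1 hy2 (by norm_num) (by norm_num) (by norm_num) (by norm_num) (by norm_num)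
    (corners (by norm_num) (by norm_num) (by norm_num) (by norm_num)) (by norm_num) (Or.inr (by norm_num))
    (by norm_num) (by norm_num) (by norm_num) (by decide +kernel) (by norm_num) (by norm_num) (by norm_num)
    (exp_neg_le_cert _ _ (by norm_num) (by norm_num) (by norm_num))
    (exp_neg_le_cert _ _ (by norm_num) (by norm_num) (by norm_num))
    (by norm_num) (by norm_num) (rho1 _ (by norm_num)) (by norm_num) (by norm_num) (by norm_num)

theorem coverIII_16 {F x y : ℝ} (hF : T2hyp (0) F x y) (hx1 : (2419/5000) ≤ x) (hx2 : x ≤ (1261/2500))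
    (hy1 : (107/400) ≤ y) (hy2 : y ≤ (1519/5000)) : F ≤ (114/25) :=
  T2_leaf hF (by norm_num) 305183 132380 59905 27874 4436622
    (2419/5000) (1261/2500) (107/400) (1519/5000) (959/5000) (6259/1000) (37027/625000) (3018853/10000000) (83363/50000) (9/125) (720 / 10000) (114/25)
    hx1 hx2 hy1 hy2 (by norm_num) (by norm_num) (by norm_num) (by norm_num) (by norm_num)
    (corners (by norm_num) (by norm_num) (by norm_num) (by norm_num)) (by norm_num) (Or.inr (by norm_num))
    (by norm_num) (by norm_num) (by norm_num) (by decide +kernel) (by norm_num) (by norm_num) (by norm_num)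
    (exp_neg_le_cert _ _ (by norm_num) (by norm_num) (by norm_num))
    (exp_neg_le_cert _ _ (by norm_num) (by norm_num) (by norm_num))
    (by norm_num) (by norm_num) (rho1 _ (by norm_num)) (by norm_num) (by norm_num) (by norm_num)

theorem coverIII_17 {F x y : ℝ} (hF : T2hyp (0) F x y) (hx1 : (2419/5000) ≤ x) (hx2 : x ≤ (1261/2500))
    (hy1 : (1519/5000) ≤ y) (hy2 : y ≤ (17/50)) : F ≤ (114/25) :=
  T2_leaf hF (by norm_num) 325923 141278 63303 29092 4426564
    (2419/5000) (1261/2500) (1519/5000) (17/50) (389/2500) (1479/250) (800703/10000000) (839411/2000000) (80753/50000) (9/125) (720 / 10000) (114/25)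
    hx1 hx2 hy1 hy2 (by norm_num) (by norm_num) (by norm_num) (by norm_num) (by norm_num)
    (corners (by norm_num) (by norm_num) (by norm_num) (by norm_num)) (by norm_num) (Or.inr (by norm_num))
    (by norm_num) (by norm_num) (by norm_num) (by decide +kernel) (by norm_num) (by norm_num) (by norm_num)
    (exp_neg_le_cert _ _ (by norm_num) (by norm_num) (by norm_num))
    (exp_neg_le_cert _ _ (by norm_num) (by norm_num) (by norm_num))
    (by norm_num) (by norm_num) (rho1 _ (by norm_num)) (by norm_num) (by norm_num) (by norm_num)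

theorem coverIII_18 {F x y : ℝ} (hF : T2hyp (0) F x y) (hx1 : (1261/2500) ≤ x) (hx2 : x ≤ (21/40))
    (hy1 : (107/400) ≤ y) (hy2 : y ≤ (1519/5000)) : F ≤ (114/25) :=
  T2_leaf hF (by norm_num) 325540 147470 69849 34019 4423459
    (1261/2500) (21/40) (107/400) (1519/5000) (107/625) (6259/1000) (26651/400000) (3433277/10000000) (164997/100000) (9/125) (720 / 10000) (114/25)
    hx1 hx2 hy1 hy2 (by norm_num) (by norm_num) (by norm_num) (by norm_num) (by norm_num)
    (corners (by norm_num) (by norm_num) (by norm_num) (by norm_num)) (by norm_num) (Or.inr (by norm_num))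
    (by norm_num) (by norm_num) (by norm_num) (by decide +kernel) (by norm_num) (by norm_num) (by norm_num)
    (exp_neg_le_cert _ _ (by norm_num) (by norm_num) (by norm_num))
    (exp_neg_le_cert _ _ (by norm_num) (by norm_num) (by norm_num))
    (by norm_num) (by norm_num) (rho1 _ (by norm_num)) (by norm_num) (by norm_num) (by norm_num)

theorem coverIII_19 {F x y : ℝ} (hF : T2hyp (0) F x y) (hx1 : (1261/2500) ≤ x) (hx2 : x ≤ (21/40))
    (hy1 : (1519/5000) ≤ y) (hy2 : y ≤ (17/50)) : F ≤ (114/25) :=
  T2_leaf hF (by norm_num) 346280 156368 73247 35237 4413770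
    (1261/2500) (21/40) (1519/5000) (17/50) (27/200) (1479/250) (889301/10000000) (4708291/10000000) (159831/100000) (9/125) (720 / 10000) (114/25)
    hx1 hx2 hy1 hy2 (by norm_num) (by norm_num) (by norm_num) (by norm_num) (by norm_num)
    (corners (by norm_num) (by norm_num) (by norm_num) (by norm_num)) (by norm_num) (Or.inr (by norm_num))
    (by norm_num) (by norm_num) (by norm_num) (by decide +kernel) (by norm_num) (by norm_num) (by norm_num)
    (exp_neg_le_cert _ _ (by norm_num) (by norm_num) (by norm_num))
    (exp_neg_le_cert _ _ (by norm_num) (by norm_num) (by norm_num))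
    (by norm_num) (by norm_num) (rho1 _ (by norm_num)) (by norm_num) (by norm_num) (by norm_num)

theorem coverIII {F x y : ℝ} (hF : T2hyp (0) F x y) (hx1 : (9/25) ≤ x) (hx2 : x ≤ (21/40))
    (hy1 : (1/20) ≤ y) (hy2 : y ≤ (17/50)) (hyx : y ≤ x) : F ≤ (114/25) := by
  rcases le_total y (39/200) with hy_1 | hy_1
  · rcases le_total x (177/400) with hx_2 | hx_2
    · rcases le_total y (49/400) with hy_3 | hy_3
      · exact coverIII_0 hF hx1 hx_2 hy1 hy_3
      · exact coverIII_1 hF hx1 hx_2 hy_3 hy_1
    · exact coverIII_2 hF hx_2 hx2 hy1 hy_1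
  · rcases le_total x (177/400) with hx_4 | hx_4
    · rcases le_total y (107/400) with hy_5 | hy_5
      · rcases le_total x (1003/2500) with hx_6 | hx_6
        · exact coverIII_3 hF hx1 hx_6 hy_1 hy_5
        · exact coverIII_4 hF hx_6 hx_4 hy_1 hy_5
      · rcases le_total x (1003/2500) with hx_7 | hx_7
        · rcases le_total y (1519/5000) with hy_8 | hy_8
          · exact coverIII_5 hF hx1 hx_7 hy_5 hy_8
          · rcases le_total x (1903/5000) with hx_9 | hx_9
            · exact coverIII_6 hF hx1 hx_9 hy_8 hy2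
            · exact coverIII_7 hF hx_9 hx_7 hy_8 hy2
        · rcases le_total y (1519/5000) with hy_10 | hy_10
          · exact coverIII_8 hF hx_7 hx_4 hy_5 hy_10
          · rcases le_total x (2109/5000) with hx_11 | hx_11
            · exact coverIII_9 hF hx_7 hx_11 hy_10 hy2
            · exact coverIII_10 hF hx_11 hx_4 hy_10 hy2
    · rcases le_total x (2419/5000) with hx_12 | hx_12
      · rcases le_total y (107/400) with hy_13 | hy_13
        · exact coverIII_11 hF hx_4 hx_12 hy_1 hy_13
        · rcases le_total y (1519/5000) with hy_14 | hy_14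
          · exact coverIII_12 hF hx_4 hx_12 hy_13 hy_14
          · rcases le_total x (579/1250) with hx_15 | hx_15
            · exact coverIII_13 hF hx_4 hx_15 hy_14 hy2
            · exact coverIII_14 hF hx_15 hx_12 hy_14 hy2
      · rcases le_total y (107/400) with hy_16 | hy_16
        · exact coverIII_15 hF hx_12 hx2 hy_1 hy_16
        · rcases le_total x (1261/2500) with hx_17 | hx_17
          · rcases le_total y (1519/5000) with hy_18 | hy_18
            · exact coverIII_16 hF hx_12 hx_17 hy_16 hy_18
            · exact coverIII_17 hF hx_12 hx_17 hy_18 hy2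
          · rcases le_total y (1519/5000) with hy_19 | hy_19
            · exact coverIII_18 hF hx_17 hx2 hy_16 hy_19
            · exact coverIII_19 hF hx_17 hx2 hy_19 hy2

end
end CG3
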