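import Pool.Agent.CG3.Base2

open MeasureTheory ProbabilityTheory
open scoped BigOperators

namespace CG3
noncomputable section

/-! ### the evaluator -/

/-- numerator of the exponent at `n/8`; the denominator is `10^15 * 2^30` -/
def eqn (a b c d n : ℕ) : ℕ :=
  n * n * (2442134299011801153536 + n * n * (980418560000 * a +
    n * n * (770048000 * b + n * n * (723200 * c + n * n * (737 * d)))))

/-- numerator of the second order coefficient at `n/8`, times `1/64` -/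
def evn (a b c d n : ℕ) : ℕ :=
  2442134299011801153536 + n * n * (5882511360000 * a +
    n * n * (11550720000 * b + n * n * (20249600 * c + n * n * (33165 * d))))

/-- rounded down square with scale `10^12` -/
def esq (P : ℕ) : ℕ := P * P / 1000000000000

/-- lower approximation of the exponential of `r/10^12` -/
def eP (r : ℕ) : ℕ :=
  1000000000000 + r + r * r / 2000000000000 + r * r * r / 6000000000000000000000000 +
    r * r * r * r / 24000000000000000000000000000000000000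

/-- upper approximation of `exp (-(Q / S))` with scale `10^12` -/
def eE (Q : ℕ) : ℕ :=
  1000000000000000000000000 /
    esq (esq (esq (esq (esq (eP (Q * 1000000000000 / 34359738368000000000000000)))))) + 1

/-- upper bound of the integral over the `i`-th cell, given the data -/
def ecell' (Q0 Q1 D V : ℕ) : ℕ :=
  if 9223372036854775808000000000000000000000000000000 + 8589934592000000000000000 * V ≤ D * D then
    eE Q0 / 4 + 1
  else
    eE Q1 * (2 * (9223372036854775808000000000000000000000000000000 +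
        8589934592000000000000000 * V - D * D) +
      9223372036854775808000000000000000000000000000000) /
      (12 * (9223372036854775808000000000000000000000000000000 +
        8589934592000000000000000 * V - D * D)) + 1

/-- upper bound of the integral over the cell `[i/4, (i+1)/4]`, scale `10^12` -/
def ecell (a b c d i : ℕ) : ℕ :=
  ecell' (eqn a b c d (2 * i)) (eqn a b c d (2 * i + 1))
    (eqn a b c d (2 * i + 2) - eqn a b c d (2 * i)) (evn a b c d (2 * i + 1))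

/-- sum over the cells -/
def esum (a b c d : ℕ) : ℕ → ℕ
  | 0 => 0
  | i + 1 => esum a b c d i + ecell a b c d i

/-- Upper bound evaluator. Arguments are in units `1e-6`, result in units `1e-6`. -/
def evalM (a b c d : ℕ) : ℕ := 2000000 * esum a b c d 36 / 1000000000000 + 9

/-! ### soundness -/

/-- the exponent -/
def eqf (A2 A4 A6 A8 A10 x : ℝ) : ℝ := A2 * x ^ 2 + A4 * x ^ 4 + A6 * x ^ 6 + A8 * x ^ 8 + A10 * x ^ 10

theorem esq_le {P : ℕ} {E : ℝ} (h : (P : ℝ) ≤ 1000000000000 * E) (hE : 0 ≤ E) :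
    ((esq P : ℕ) : ℝ) ≤ 1000000000000 * (E ^ 2) := by
  unfold esq
  refine (Nat.cast_div_le).trans ?_
  push_cast
  rw [div_le_iff₀ (by norm_num)]
  have h0 : (0 : ℝ) ≤ P := Nat.cast_nonneg P
  nlinarith

theorem esq_ge {P : ℕ} (h : 1000000000000 ≤ P) : 1000000000000 ≤ esq P := by
  unfold esq
  rw [Nat.le_div_iff_mul_le (by norm_num)]
  exact Nat.mul_le_mul h h

theorem eP_le {r : ℕ} {x : ℝ} (h : (r : ℝ) ≤ 1000000000000 * x) (hx : 0 ≤ x) :
    ((eP r : ℕ) : ℝ) ≤ 1000000000000 * Real.exp x := by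
  have h0 : (0 : ℝ) ≤ r := Nat.cast_nonneg r
  have h1 := Real.sum_le_exp_of_nonneg hx 5
  simp only [Finset.sum_range_succ, Finset.sum_range_zero, Nat.factorial, pow_zero] at h1
  set ρ : ℝ := (r : ℝ) / 1000000000000 with hρ
  have hρ0 : 0 ≤ ρ := by positivity
  have hρx : ρ ≤ x := by rw [hρ, div_le_iff₀ (by norm_num)]; linarith
  have hr : (r : ℝ) = 1000000000000 * ρ := by rw [hρ]; ring
  have h2 : ρ ^ 2 ≤ x ^ 2 := pow_le_pow_left₀ hρ0 hρx 2
  have h3 : ρ ^ 3 ≤ x ^ 3 := pow_le_pow_left₀ hρ0 hρx 3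
  have h4 : ρ ^ 4 ≤ x ^ 4 := pow_le_pow_left₀ hρ0 hρx 4
  unfold eP
  push_cast
  have g2 : ((r * r / 2000000000000 : ℕ) : ℝ) ≤ 1000000000000 * (ρ ^ 2 / 2) := by
    refine (Nat.cast_div_le).trans (le_of_eq ?_)
    push_cast
    rw [hr]; ring
  have g3 : ((r * r * r / 6000000000000000000000000 : ℕ) : ℝ) ≤ 1000000000000 * (ρ ^ 3 / 6) := by
    refine (Nat.cast_div_le).trans (le_of_eq ?_)
    push_cast
    rw [hr]; ring
  have g4 : ((r * r * r * r / 24000000000000000000000000000000000000 : ℕ) : ℝ) ≤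
      1000000000000 * (ρ ^ 4 / 24) := by
    refine (Nat.cast_div_le).trans (le_of_eq ?_)
    push_cast
    rw [hr]; ring
  norm_num at h1
  linarith

theorem eP_ge (r : ℕ) : 1000000000000 ≤ eP r := by
  unfold eP
  omega

theorem eE_sound (Q : ℕ) : Real.exp (-((Q : ℝ) / 1073741824000000000000000)) ≤
    ((eE Q : ℕ) : ℝ) / 1000000000000 := by
  set x : ℝ := (Q : ℝ) / 34359738368000000000000000 with hx
  have hx0 : 0 ≤ x := by positivity
  have hr : ((Q * 1000000000000 / 34359738368000000000000000 : ℕ) : ℝ) ≤ 1000000000000 * x := by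
    refine (Nat.cast_div_le).trans (le_of_eq ?_)
    push_cast
    rw [hx]; ring
  have h0 := eP_le hr hx0
  have h1 := esq_le h0 (Real.exp_nonneg _)
  have h2 := esq_le h1 (by positivity)
  have h3 := esq_le h2 (by positivity)
  have h4 := esq_le h3 (by positivity)
  have h5 := esq_le h4 (by positivity)
  have hge := esq_ge (esq_ge (esq_ge (esq_ge (esq_ge
    (eP_ge (Q * 1000000000000 / 34359738368000000000000000))))))
  unfold eE
  set P := esq (esq (esq (esq (esq (eP (Q * 1000000000000 / 34359738368000000000000000))))))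
    with hP
  have hE : (((((Real.exp x ^ 2) ^ 2) ^ 2) ^ 2) ^ 2) =
      Real.exp ((Q : ℝ) / 1073741824000000000000000) := by
    rw [← pow_mul, ← pow_mul, ← pow_mul, ← pow_mul, ← Real.exp_nat_mul]
    congr 1
    rw [hx]
    push_cast
    ring
  rw [hE] at h5
  have hPpos : 0 < P := by omega
  have hPpos' : (0 : ℝ) < P := by exact_mod_cast hPpos
  have hlt : (1000000000000000000000000 : ℕ) < P * (1000000000000000000000000 / P + 1) :=
    Nat.lt_mul_div_succ _ hPpos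
  have hlt' : (1000000000000000000000000 : ℝ) ≤
      P * (((1000000000000000000000000 / P : ℕ) : ℝ) + 1) := by
    have := hlt.le
    exact_mod_cast this
  set K : ℝ := (((1000000000000000000000000 / P : ℕ) : ℝ) + 1) with hK
  have hK0 : 0 < K := by positivity
  rw [Real.exp_neg, inv_le_comm₀ (Real.exp_pos _) (by positivity)]
  have hcast : (((1000000000000000000000000 / P + 1 : ℕ)) : ℝ) = K := by push_cast; rfl
  rw [hcast, inv_div, div_le_iff₀ hK0]
  have h6 : (P : ℝ) * K ≤ (1000000000000 * Real.exp ((Q : ℝ) / 1073741824000000000000000)) * K :=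
    mul_le_mul_of_nonneg_right h5 hK0.le
  linarith

section
variable {A2 A4 A6 A8 A10 : ℝ}

theorem eqf_mono (h2 : 0 ≤ A2) (h4 : 0 ≤ A4) (h6 : 0 ≤ A6) (h8 : 0 ≤ A8) (h10 : 0 ≤ A10)
    {x y : ℝ} (hx : 0 ≤ x) (hxy : x ≤ y) : eqf A2 A4 A6 A8 A10 x ≤ eqf A2 A4 A6 A8 A10 y := by
  unfold eqf
  gcongr

theorem eqf_cont : Continuous (fun x => Real.exp (-(eqf A2 A4 A6 A8 A10 x))) := by
  unfold eqf
  fun_prop

/-- odd part at `m`, divided by `y`, as a function of `y ^ 2` -/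
def eg (A2 A4 A6 A8 A10 m s : ℝ) : ℝ :=
  2 * A2 * m + A4 * (4 * m ^ 3 + 4 * m * s) + A6 * (6 * m ^ 5 + 20 * m ^ 3 * s + 6 * m * s ^ 2) +
    A8 * (8 * m ^ 7 + 56 * m ^ 5 * s + 56 * m ^ 3 * s ^ 2 + 8 * m * s ^ 3) +
    A10 * (10 * m ^ 9 + 120 * m ^ 7 * s + 252 * m ^ 5 * s ^ 2 + 120 * m ^ 3 * s ^ 3 +
      10 * m * s ^ 4)

/-- half of the second derivative at `m` -/
def ev (A2 A4 A6 A8 A10 m : ℝ) : ℝ :=
  A2 + 6 * A4 * m ^ 2 + 15 * A6 * m ^ 4 + 28 * A8 * m ^ 6 + 45 * A10 * m ^ 8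

theorem eg_spec (m y : ℝ) : (eqf A2 A4 A6 A8 A10 (m + y) - eqf A2 A4 A6 A8 A10 (m - y)) / 2 =
    y * eg A2 A4 A6 A8 A10 m (y ^ 2) := by
  unfold eqf eg
  ring

theorem eg_mono (h2 : 0 ≤ A2) (h4 : 0 ≤ A4) (h6 : 0 ≤ A6) (h8 : 0 ≤ A8) (h10 : 0 ≤ A10)
    {m s t : ℝ} (hm : 0 ≤ m) (hs : 0 ≤ s) (hst : s ≤ t) :
    eg A2 A4 A6 A8 A10 m s ≤ eg A2 A4 A6 A8 A10 m t := by
  unfold eg
  gcongr

theorem eg_nonneg (h2 : 0 ≤ A2) (h4 : 0 ≤ A4) (h6 : 0 ≤ A6) (h8 : 0 ≤ A8) (h10 : 0 ≤ A10)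
    {m s : ℝ} (hm : 0 ≤ m) (hs : 0 ≤ s) : 0 ≤ eg A2 A4 A6 A8 A10 m s := by
  unfold eg
  positivity

theorem ev_spec (h4 : 0 ≤ A4) (h6 : 0 ≤ A6) (h8 : 0 ≤ A8) (h10 : 0 ≤ A10)
    (m y : ℝ) : eqf A2 A4 A6 A8 A10 m + ev A2 A4 A6 A8 A10 m * y ^ 2 ≤
    (eqf A2 A4 A6 A8 A10 (m + y) + eqf A2 A4 A6 A8 A10 (m - y)) / 2 := by
  have h : (eqf A2 A4 A6 A8 A10 (m + y) + eqf A2 A4 A6 A8 A10 (m - y)) / 2 =
      eqf A2 A4 A6 A8 A10 m + ev A2 A4 A6 A8 A10 m * y ^ 2 +
      (A4 * y ^ 4 + A6 * (15 * m ^ 2 * y ^ 4 + y ^ 6) +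
        A8 * (70 * m ^ 4 * y ^ 4 + 28 * m ^ 2 * y ^ 6 + y ^ 8) +
        A10 * (210 * m ^ 6 * y ^ 4 + 210 * m ^ 4 * y ^ 6 + 45 * m ^ 2 * y ^ 8 + y ^ 10)) := by
    unfold eqf ev
    ring
  rw [h]
  have : 0 ≤ (A4 * y ^ 4 + A6 * (15 * m ^ 2 * y ^ 4 + y ^ 6) +
        A8 * (70 * m ^ 4 * y ^ 4 + 28 * m ^ 2 * y ^ 6 + y ^ 8) +
        A10 * (210 * m ^ 6 * y ^ 4 + 210 * m ^ 4 * y ^ 6 + 45 * m ^ 2 * y ^ 8 + y ^ 10)) := by
    positivity
  linarith

/-- pointwise bound of the symmetrised integrand -/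
theorem ept (h2 : 0 ≤ A2) (h4 : 0 ≤ A4) (h6 : 0 ≤ A6) (h8 : 0 ≤ A8) (h10 : 0 ≤ A10)
    {m H : ℝ} (hm : 0 ≤ m) (hH : 0 < H) {Y : ℝ} (hY : 0 < Y)
    (hz : Y ≤ 1 + ev A2 A4 A6 A8 A10 m * H ^ 2 -
      ((eqf A2 A4 A6 A8 A10 (m + H) - eqf A2 A4 A6 A8 A10 (m - H)) / 2) ^ 2 / 2)
    {y : ℝ} (hy : y ^ 2 ≤ H ^ 2) :
    Real.exp (-(eqf A2 A4 A6 A8 A10 (m + y))) + Real.exp (-(eqf A2 A4 A6 A8 A10 (m - y))) ≤
      2 * Real.exp (-(eqf A2 A4 A6 A8 A10 m)) * (1 + (1 / Y - 1) / H ^ 2 * y ^ 2) := by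
  set q := eqf A2 A4 A6 A8 A10 with hq
  set E : ℝ := (q (m + y) + q (m - y)) / 2 with hE
  set O : ℝ := (q (m + y) - q (m - y)) / 2 with hO
  set OH : ℝ := (q (m + H) - q (m - H)) / 2 with hOH
  set v : ℝ := ev A2 A4 A6 A8 A10 m with hv
  set z : ℝ := OH ^ 2 / 2 - v * H ^ 2 with hz'
  set θ : ℝ := y ^ 2 / H ^ 2 with hθ
  have hθ0 : 0 ≤ θ := by positivity
  have hθ1 : θ ≤ 1 := by rw [hθ, div_le_one (by positivity)]; exact hy
  have hEv : q m + v * y ^ 2 ≤ E := ev_spec h4 h6 h8 h10 m y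
  have hOO : O ^ 2 ≤ θ * OH ^ 2 := by
    have h1 : O = y * eg A2 A4 A6 A8 A10 m (y ^ 2) := eg_spec m y
    have h2' : OH = H * eg A2 A4 A6 A8 A10 m (H ^ 2) := eg_spec m H
    have h3 := eg_mono h2 h4 h6 h8 h10 hm (sq_nonneg y) hy
    have h5 := eg_nonneg h2 h4 h6 h8 h10 hm (sq_nonneg y)
    have h7 : θ * OH ^ 2 = y ^ 2 * (eg A2 A4 A6 A8 A10 m (H ^ 2)) ^ 2 := by
      rw [h2', hθ]
      field_simp
    rw [h7, h1, mul_pow]
    apply mul_le_mul_of_nonneg_left _ (sq_nonneg y)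
    exact pow_le_pow_left₀ h5 h3 2
  have hvy : v * y ^ 2 = θ * (v * H ^ 2) := by
    rw [hθ]; field_simp
  have h1 : Real.exp (-(q (m + y))) + Real.exp (-(q (m - y))) = 2 * Real.exp (-E) * Real.cosh O := by
    rw [Real.cosh_eq, mul_div_assoc', mul_assoc, mul_div_assoc, mul_comm 2 (Real.exp (-E) * _ / 2),
      div_mul_cancel₀ _ (two_ne_zero), mul_add, ← Real.exp_add, ← Real.exp_add, add_comm]
    congr 2
    · rw [hE, hO]; ring
    · rw [hE, hO]; ring
  rw [h1]
  have h3 : Real.exp (-E) * Real.cosh O ≤ Real.exp (-(q m)) * Real.exp (θ * z) := by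
    calc Real.exp (-E) * Real.cosh O ≤ Real.exp (-E) * Real.exp (O ^ 2 / 2) :=
          mul_le_mul_of_nonneg_left (Real.cosh_le_exp_half_sq O) (Real.exp_nonneg _)
      _ = Real.exp (-E + O ^ 2 / 2) := (Real.exp_add _ _).symm
      _ ≤ Real.exp (-(q m) + θ * z) := by
          apply Real.exp_le_exp.2
          rw [hz']
          nlinarith
      _ = _ := Real.exp_add _ _
  have h5 : Real.exp (θ * z) ≤ 1 + (1 / Y - 1) / H ^ 2 * y ^ 2 := by
    have h6 := convexOn_exp.2 (Set.mem_univ 0) (Set.mem_univ z) (sub_nonneg.2 hθ1) hθ0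
      (by ring : 1 - θ + θ = 1)
    simp only [smul_eq_mul, mul_zero, zero_add, Real.exp_zero, mul_one] at h6
    have h7 : Real.exp z ≤ 1 / Y := by
      have h8 : Y ≤ Real.exp (-z) := by
        have := Real.add_one_le_exp (-z)
        rw [hz'] at this ⊢
        linarith
      rw [Real.exp_neg] at h8
      rw [one_div]
      exact (le_inv_comm₀ hY (Real.exp_pos _)).1 h8
    have h9 : (1 / Y - 1) / H ^ 2 * y ^ 2 = θ * (1 / Y - 1) := by
      rw [hθ]; ring
    rw [h9]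
    have h10 := mul_le_mul_of_nonneg_left h7 hθ0
    linarith
  calc 2 * Real.exp (-E) * Real.cosh O = 2 * (Real.exp (-E) * Real.cosh O) := by ring
    _ ≤ 2 * (Real.exp (-(q m)) * (1 + (1 / Y - 1) / H ^ 2 * y ^ 2)) := by
        apply mul_le_mul_of_nonneg_left _ (by norm_num)
        exact h3.trans (mul_le_mul_of_nonneg_left h5 (Real.exp_nonneg _))
    _ = _ := by ring

theorem ecell_real (h2 : 0 ≤ A2) (h4 : 0 ≤ A4) (h6 : 0 ≤ A6) (h8 : 0 ≤ A8) (h10 : 0 ≤ A10)
    {m H : ℝ} (hm : 0 ≤ m) (hH : 0 < H) {Y : ℝ} (hY : 0 < Y)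
    (hz : Y ≤ 1 + ev A2 A4 A6 A8 A10 m * H ^ 2 -
      ((eqf A2 A4 A6 A8 A10 (m + H) - eqf A2 A4 A6 A8 A10 (m - H)) / 2) ^ 2 / 2) :
    ∫ x in (m - H)..(m + H), Real.exp (-(eqf A2 A4 A6 A8 A10 x)) ≤
      2 * H / 3 * Real.exp (-(eqf A2 A4 A6 A8 A10 m)) * (2 + 1 / Y) := by
  set f : ℝ → ℝ := fun x => Real.exp (-(eqf A2 A4 A6 A8 A10 x)) with hf
  have hfc : Continuous f := eqf_cont
  have e1 : ∫ y in (-H)..H, f (m + y) = ∫ x in (m - H)..(m + H), f x := by
    rw [intervalIntegral.integral_comp_add_left]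
    rfl
  have e2 : ∫ y in (-H)..H, f (m - y) = ∫ x in (m - H)..(m + H), f x := by
    rw [intervalIntegral.integral_comp_sub_left]
    simp
  have e3 : 2 * ∫ x in (m - H)..(m + H), f x = ∫ y in (-H)..H, (f (m + y) + f (m - y)) := by
    rw [intervalIntegral.integral_add, e1, e2]
    · ring
    · exact (hfc.comp (by fun_prop)).intervalIntegrable _ _
    · exact (hfc.comp (by fun_prop)).intervalIntegrable _ _
  have e4 : ∫ y in (-H)..H, (f (m + y) + f (m - y)) ≤ ∫ y in (-H)..H,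
      (2 * Real.exp (-(eqf A2 A4 A6 A8 A10 m)) * (1 + (1 / Y - 1) / H ^ 2 * y ^ 2)) := by
    apply intervalIntegral.integral_mono_on (by linarith)
    · exact ((hfc.comp (by fun_prop)).add (hfc.comp (by fun_prop))).intervalIntegrable _ _
    · exact (by fun_prop : Continuous fun y : ℝ =>
        2 * Real.exp (-(eqf A2 A4 A6 A8 A10 m)) * (1 + (1 / Y - 1) / H ^ 2 * y ^ 2)).intervalIntegrable
        _ _
    · intro y hy
      exact ept h2 h4 h6 h8 h10 hm hH hY hz (sq_le_sq' hy.1 hy.2)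
  have e5 : ∫ y in (-H)..H,
      (2 * Real.exp (-(eqf A2 A4 A6 A8 A10 m)) * (1 + (1 / Y - 1) / H ^ 2 * y ^ 2)) =
      2 * (2 * H / 3 * Real.exp (-(eqf A2 A4 A6 A8 A10 m)) * (2 + 1 / Y)) := by
    rw [intervalIntegral.integral_const_mul, intervalIntegral.integral_add
      (by simp) (Continuous.intervalIntegrable (by fun_prop) _ _),
      intervalIntegral.integral_const_mul, integral_pow]
    simp
    field_simp
    ring
  linarith

end


/-- the integrand, with a rounded leading coefficient -/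
def eF (a b c d : ℕ) (x : ℝ) : ℝ :=
  Real.exp (-(eqf (145562547386396 / 10 ^ 15) (374 / 100000 * ((a : ℝ) / 10 ^ 6))
    (188 / 1000000 * ((b : ℝ) / 10 ^ 6)) (113 / 10000000 * ((c : ℝ) / 10 ^ 6))
    (737 / 1000000000 * ((d : ℝ) / 10 ^ 6)) x))

theorem eqn_spec (a b c d n : ℕ) :
    eqf (145562547386396 / 10 ^ 15) (374 / 100000 * ((a : ℝ) / 10 ^ 6))
    (188 / 1000000 * ((b : ℝ) / 10 ^ 6)) (113 / 10000000 * ((c : ℝ) / 10 ^ 6))
    (737 / 1000000000 * ((d : ℝ) / 10 ^ 6)) ((n : ℝ) / 8) =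
    ((eqn a b c d n : ℕ) : ℝ) / 1073741824000000000000000 := by
  unfold eqf eqn
  push_cast
  ring

theorem evn_spec (a b c d n : ℕ) :
    ev (145562547386396 / 10 ^ 15) (374 / 100000 * ((a : ℝ) / 10 ^ 6))
    (188 / 1000000 * ((b : ℝ) / 10 ^ 6)) (113 / 10000000 * ((c : ℝ) / 10 ^ 6))
    (737 / 1000000000 * ((d : ℝ) / 10 ^ 6)) ((n : ℝ) / 8) * (1 / 8) ^ 2 =
    ((evn a b c d n : ℕ) : ℝ) / 1073741824000000000000000 := by
  unfold ev evn
  push_cast
  ring

theorem eF_cont (a b c d : ℕ) : Continuous (eF a b c d) := eqf_cont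

theorem eF_eqn (a b c d n : ℕ) : eF a b c d ((n : ℝ) / 8) ≤
    ((eE (eqn a b c d n) : ℕ) : ℝ) / 1000000000000 := by
  unfold eF
  rw [eqn_spec]
  exact eE_sound _

theorem efin (E Yn W : ℕ) (hY : 0 < Yn) (hW : 0 < W) :
    2 * (1 / 8) / 3 * ((E : ℝ) / 1000000000000) * (2 + 1 / ((Yn : ℝ) / W)) ≤
      ((E * (2 * Yn + W) / (12 * Yn) + 1 : ℕ) : ℝ) / 1000000000000 := by
  have h7 : E * (2 * Yn + W) ≤ (12 * Yn) * (E * (2 * Yn + W) / (12 * Yn) + 1) :=
    (Nat.lt_mul_div_succ _ (Nat.mul_pos (by norm_num) hY)).le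
  generalize E * (2 * Yn + W) / (12 * Yn) + 1 = G at h7 ⊢
  have h8 : (E : ℝ) * (2 * Yn + W) ≤ (12 * Yn) * G := by exact_mod_cast h7
  have hY' : (0 : ℝ) < Yn := by exact_mod_cast hY
  have hW' : (0 : ℝ) < W := by exact_mod_cast hW
  have h9 : 2 * (1 / 8) / 3 * ((E : ℝ) / 1000000000000) * (2 + 1 / ((Yn : ℝ) / W)) =
      ((E : ℝ) * (2 * Yn + W)) / (12 * Yn) / 1000000000000 := by
    field_simp
    ring
  rw [h9]
  apply div_le_div_of_nonneg_right _ (by norm_num)
  rw [div_le_iff₀ (by positivity)]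
  linarith

theorem ecell_sound (a b c d i : ℕ) : ∫ x in ((i : ℝ) / 4)..(((i : ℝ) + 1) / 4), eF a b c d x ≤
    ((ecell a b c d i : ℕ) : ℝ) / 1000000000000 := by
  have hA2 : (0 : ℝ) ≤ 145562547386396 / 10 ^ 15 := by positivity
  have hA4 : (0 : ℝ) ≤ 374 / 100000 * ((a : ℝ) / 10 ^ 6) := by positivity
  have hA6 : (0 : ℝ) ≤ 188 / 1000000 * ((b : ℝ) / 10 ^ 6) := by positivity
  have hA8 : (0 : ℝ) ≤ 113 / 10000000 * ((c : ℝ) / 10 ^ 6) := by positivity
  have hA10 : (0 : ℝ) ≤ 737 / 1000000000 * ((d : ℝ) / 10 ^ 6) := by positivity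
  have hmono := fun {x y : ℝ} (hx : 0 ≤ x) (hxy : x ≤ y) =>
    eqf_mono hA2 hA4 hA6 hA8 hA10 hx hxy
  unfold ecell ecell'
  split_ifs with hc
  · -- fallback
    have h1 : ∀ x ∈ Set.Icc ((i : ℝ) / 4) (((i : ℝ) + 1) / 4),
        eF a b c d x ≤ eF a b c d ((i : ℝ) / 4) := by
      intro x hx
      unfold eF
      apply Real.exp_le_exp.2
      exact neg_le_neg (hmono (by positivity) hx.1)
    have h2 : ∫ x in ((i : ℝ) / 4)..(((i : ℝ) + 1) / 4), eF a b c d x ≤
        ∫ x in ((i : ℝ) / 4)..(((i : ℝ) + 1) / 4), eF a b c d ((i : ℝ) / 4) :=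
      intervalIntegral.integral_mono_on (by linarith) ((eF_cont a b c d).intervalIntegrable _ _)
        (continuous_const.intervalIntegrable _ _) h1
    rw [intervalIntegral.integral_const] at h2
    have h3 := eF_eqn a b c d (2 * i)
    have h4 : (((2 * i : ℕ) : ℝ)) / 8 = (i : ℝ) / 4 := by push_cast; ring
    rw [h4] at h3
    set E := eE (eqn a b c d (2 * i)) with hE
    have h5 : (E : ℝ) / 4 ≤ ((E / 4 + 1 : ℕ) : ℝ) := by
      have h6 : E ≤ 4 * (E / 4 + 1) := by omega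
      have h7 : (E : ℝ) ≤ 4 * ((E / 4 + 1 : ℕ) : ℝ) := by exact_mod_cast h6
      linarith
    refine h2.trans ?_
    rw [smul_eq_mul]
    have h8 : ((i : ℝ) + 1) / 4 - (i : ℝ) / 4 = 1 / 4 := by ring
    rw [h8, le_div_iff₀ (by norm_num)]
    rw [le_div_iff₀ (by norm_num)] at h3
    linarith
  · rw [not_le] at hc
    set Q0 := eqn a b c d (2 * i) with hQ0
    set Q1 := eqn a b c d (2 * i + 1) with hQ1
    set Q2 := eqn a b c d (2 * i + 2) with hQ2
    set V := evn a b c d (2 * i + 1) with hV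
    have hQ02 : Q0 ≤ Q2 := by
      have h1 := hmono (x := ((2 * i : ℕ) : ℝ) / 8) (y := ((2 * i + 2 : ℕ) : ℝ) / 8)
        (by positivity) (by push_cast; linarith)
      rw [eqn_spec, eqn_spec, div_le_div_iff_of_pos_right (by norm_num)] at h1
      exact_mod_cast h1
    have hD : ((Q2 - Q0 : ℕ) : ℝ) = (Q2 : ℝ) - Q0 := Nat.cast_sub hQ02
    set D := Q2 - Q0 with hD'
    set Yn := 9223372036854775808000000000000000000000000000000 + 8589934592000000000000000 * V -
      D * D with hYn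
    have hYpos : 0 < Yn := by omega
    have hYr : (Yn : ℝ) = 9223372036854775808000000000000000000000000000000 +
        8589934592000000000000000 * V - D * D := by
      rw [hYn, Nat.cast_sub hc.le]
      push_cast
      ring
    have hYp : (0 : ℝ) < Yn := by exact_mod_cast hYpos
    have e0 : ((2 * i + 1 : ℕ) : ℝ) / 8 - 1 / 8 = (i : ℝ) / 4 := by push_cast; ring
    have e1 : ((2 * i + 1 : ℕ) : ℝ) / 8 + 1 / 8 = ((i : ℝ) + 1) / 4 := by push_cast; ring
    have e2 : (i : ℝ) / 4 = ((2 * i : ℕ) : ℝ) / 8 := by push_cast; ring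
    have e3 : ((i : ℝ) + 1) / 4 = ((2 * i + 2 : ℕ) : ℝ) / 8 := by push_cast; ring
    have hmain := ecell_real hA2 hA4 hA6 hA8 hA10 (m := ((2 * i + 1 : ℕ) : ℝ) / 8) (H := 1 / 8)
      (by positivity) (by norm_num)
      (Y := (Yn : ℝ) / 9223372036854775808000000000000000000000000000000) (by positivity) (by
        rw [e0, e1, e2, e3, evn_spec, eqn_spec, eqn_spec, ← hQ0, ← hQ2, ← hV, hYr, hD]
        apply le_of_eq
        ring)
    rw [e0, e1, eqn_spec, ← hQ1] at hmain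
    refine hmain.trans ?_
    have hE := eE_sound Q1
    have hfin := efin (eE Q1) Yn 9223372036854775808000000000000000000000000000000 hYpos
      (by norm_num)
    rw [Nat.cast_ofNat] at hfin
    refine le_trans ?_ hfin
    have hnn : (0 : ℝ) ≤ 2 + 1 / ((Yn : ℝ) / 9223372036854775808000000000000000000000000000000) := by
      positivity
    exact mul_le_mul_of_nonneg_right (mul_le_mul_of_nonneg_left hE (by norm_num)) hnn

theorem esum_sound (a b c d k : ℕ) : ∫ x in (0 : ℝ)..((k : ℝ) / 4), eF a b c d x ≤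
    ((esum a b c d k : ℕ) : ℝ) / 1000000000000 := by
  induction k with
  | zero => simp [esum]
  | succ k ih =>
    have h1 := ecell_sound a b c d k
    have h2 := intervalIntegral.integral_add_adjacent_intervals
      ((eF_cont a b c d).intervalIntegrable (μ := volume) 0 ((k : ℝ) / 4))
      ((eF_cont a b c d).intervalIntegrable (μ := volume) ((k : ℝ) / 4) (((k : ℝ) + 1) / 4))
    have h3 : ((k + 1 : ℕ) : ℝ) / 4 = ((k : ℝ) + 1) / 4 := by push_cast; ring
    rw [h3, ← h2]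
    have h4 : ((esum a b c d (k + 1) : ℕ) : ℝ) = (esum a b c d k : ℝ) + (ecell a b c d k : ℝ) := by
      rw [esum]; push_cast; ring
    have h5 := add_le_add ih h1
    rw [← add_div, ← h4] at h5
    exact h5

theorem etail : ∫ x in Set.Ioi (9 : ℝ), Real.exp (-(145562547386396 / 10 ^ 15 * x ^ 2)) ≤
    4 / 10 ^ 6 := by
  set A : ℝ := 145562547386396 / 10 ^ 15 with hA
  have hAp : 0 < A := by rw [hA]; norm_num
  set g : ℝ → ℝ := fun x => -(Real.exp (-(A * x ^ 2)) / (18 * A)) with hg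
  have hder : ∀ x ∈ Set.Ici (9 : ℝ), HasDerivAt g (x / 9 * Real.exp (-(A * x ^ 2))) x := by
    intro x _
    have h1 : HasDerivAt (fun x : ℝ => -(A * x ^ 2)) (-(A * (2 * x))) x := by
      have := ((hasDerivAt_pow 2 x).const_mul A).fun_neg
      simpa using this
    have h2 := (h1.exp.div_const (18 * A)).fun_neg
    refine h2.congr_deriv ?_
    field_simp
    ring
  have hpos : ∀ x ∈ Set.Ioi (9 : ℝ), 0 ≤ x / 9 * Real.exp (-(A * x ^ 2)) := by
    intro x hx
    have : (0 : ℝ) ≤ x := by have := Set.mem_Ioi.1 hx; linarith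
    positivity
  have hlim : Filter.Tendsto g Filter.atTop (nhds 0) := by
    have h1 : Filter.Tendsto (fun x : ℝ => -(A * x ^ 2)) Filter.atTop Filter.atBot :=
      Filter.tendsto_neg_atTop_atBot.comp
        ((Filter.tendsto_pow_atTop two_ne_zero).const_mul_atTop hAp)
    have h2 := ((Real.tendsto_exp_atBot.comp h1).div_const (18 * A)).neg
    simpa [hg, Function.comp_def] using h2
  have hint := integrableOn_Ioi_deriv_of_nonneg' hder hpos hlim
  have hval := integral_Ioi_of_hasDerivAt_of_nonneg' hder hpos hlim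
  have h1 : ∫ x in Set.Ioi (9 : ℝ), Real.exp (-(A * x ^ 2)) ≤
      ∫ x in Set.Ioi (9 : ℝ), x / 9 * Real.exp (-(A * x ^ 2)) := by
    apply integral_mono_of_nonneg
    · exact Filter.Eventually.of_forall fun x => Real.exp_nonneg _
    · exact hint
    · apply (ae_restrict_iff' measurableSet_Ioi).2
      refine Filter.Eventually.of_forall fun x hx => ?_
      have hx' : (1 : ℝ) ≤ x / 9 := by have := Set.mem_Ioi.1 hx; linarith
      exact le_mul_of_one_le_left (Real.exp_nonneg _) hx'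
  refine h1.trans ?_
  rw [hval, hg]
  simp only
  rw [sub_neg_eq_add, zero_add, div_le_iff₀ (by positivity)]
  have h2 : (125000 : ℝ) ≤ Real.exp (A * 9 ^ 2) := by
    have h3 : (11 : ℝ) + 0.79 ≤ A * 9 ^ 2 := by rw [hA]; norm_num
    have h4 : Real.exp (11 + 0.79) ≤ Real.exp (A * 9 ^ 2) := Real.exp_le_exp.2 h3
    rw [Real.exp_add] at h4
    have h5 : Real.exp 11 = Real.exp 1 ^ 11 := by
      rw [← Real.exp_nat_mul]; norm_num
    have h6 : (2.7182818283 : ℝ) ^ 11 ≤ Real.exp 1 ^ 11 :=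
      pow_le_pow_left₀ (by norm_num) Real.exp_one_gt_d9.le 11
    have h7 : (1 : ℝ) + 0.79 + 0.79 ^ 2 / 2 ≤ Real.exp 0.79 :=
      Real.quadratic_le_exp_of_nonneg (by norm_num)
    have h8 : (2.7182818283 : ℝ) ^ 11 * (1 + 0.79 + 0.79 ^ 2 / 2) ≤ Real.exp 11 * Real.exp 0.79 := by
      rw [h5]
      exact mul_le_mul h6 h7 (by norm_num) (by positivity)
    refine le_trans ?_ (h8.trans h4)
    norm_num
  rw [Real.exp_neg, inv_le_comm₀ (Real.exp_pos _) (by positivity)]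
  refine le_trans ?_ h2
  rw [hA]
  norm_num

theorem eint : IntegrableOn (fun x : ℝ => Real.exp (-(145562547386396 / 10 ^ 15 * x ^ 2)))
    (Set.Ioi 0) := by
  have h := integrable_exp_neg_mul_sq (b := 145562547386396 / 10 ^ 15) (by norm_num)
  refine (h.congr ?_).integrableOn
  exact Filter.Eventually.of_forall fun x => by simp only [neg_mul]

/-- soundness of the evaluator -/
theorem Mint_le_of_evalM (hc1 : (0.708874905227206 : ℝ) ≤ cc) (hc2 : cc ≤ (0.708874905227208 : ℝ))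
    (a b c d B : ℕ) (ha : 70000 ≤ a) (h : evalM a b c d ≤ B) :
    Mint ((a : ℝ) / 10 ^ 6) ((b : ℝ) / 10 ^ 6) ((c : ℝ) / 10 ^ 6) ((d : ℝ) / 10 ^ 6)
      ≤ (B : ℝ) / 10 ^ 6 := by
  have hA4 : (0 : ℝ) ≤ 374 / 100000 * ((a : ℝ) / 10 ^ 6) := by positivity
  have hA6 : (0 : ℝ) ≤ 188 / 1000000 * ((b : ℝ) / 10 ^ 6) := by positivity
  have hA8 : (0 : ℝ) ≤ 113 / 10000000 * ((c : ℝ) / 10 ^ 6) := by positivity
  have hA10 : (0 : ℝ) ≤ 737 / 1000000000 * ((d : ℝ) / 10 ^ 6) := by positivity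
  have hcc : (145562547386396 / 10 ^ 15 : ℝ) ≤ (1 - cc) / 2 := by
    have : (145562547386396 / 10 ^ 15 : ℝ) = (1 - 0.708874905227208) / 2 := by norm_num
    rw [this]
    linarith
  have hFle : ∀ x, eF a b c d x ≤ Real.exp (-(145562547386396 / 10 ^ 15 * x ^ 2)) := by
    intro x
    unfold eF eqf
    apply Real.exp_le_exp.2
    have e4 : 0 ≤ 374 / 100000 * ((a : ℝ) / 10 ^ 6) * x ^ 4 := by positivity
    have e6 : 0 ≤ 188 / 1000000 * ((b : ℝ) / 10 ^ 6) * x ^ 6 := by positivity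
    have e8 : 0 ≤ 113 / 10000000 * ((c : ℝ) / 10 ^ 6) * x ^ 8 := by positivity
    have e10 : 0 ≤ 737 / 1000000000 * ((d : ℝ) / 10 ^ 6) * x ^ 10 := by positivity
    linarith
  have hF0 : ∀ x, 0 ≤ eF a b c d x := fun x => Real.exp_nonneg _
  have hFi : IntegrableOn (eF a b c d) (Set.Ioi 0) := by
    refine Integrable.mono' eint (eF_cont a b c d).aestronglyMeasurable ?_
    refine Filter.Eventually.of_forall fun x => ?_
    rw [Real.norm_eq_abs, abs_of_nonneg (hF0 x)]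
    exact hFle x
  have h1 : ∫ x in Set.Ioi (0 : ℝ),
      Real.exp (-((1 - cc) / 2 * x ^ 2 + 374 / 100000 * ((a : ℝ) / 10 ^ 6) * x ^ 4 +
        188 / 1000000 * ((b : ℝ) / 10 ^ 6) * x ^ 6
        + 113 / 10000000 * ((c : ℝ) / 10 ^ 6) * x ^ 8 +
        737 / 1000000000 * ((d : ℝ) / 10 ^ 6) * x ^ 10)) ≤
      ∫ x in Set.Ioi (0 : ℝ), eF a b c d x := by
    apply integral_mono_of_nonneg
    · exact Filter.Eventually.of_forall fun x => Real.exp_nonneg _
    · exact hFi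
    · refine Filter.Eventually.of_forall fun x => ?_
      unfold eF eqf
      apply Real.exp_le_exp.2
      have := mul_le_mul_of_nonneg_right hcc (sq_nonneg x)
      linarith
  have h2 : ∫ x in Set.Ioi (0 : ℝ), eF a b c d x =
      (∫ x in (0 : ℝ)..9, eF a b c d x) + ∫ x in Set.Ioi (9 : ℝ), eF a b c d x := by
    rw [intervalIntegral.integral_of_le (by norm_num), ← setIntegral_union _ measurableSet_Ioi,
      Set.Ioc_union_Ioi_eq_Ioi (by norm_num)]
    · exact hFi.mono_set Set.Ioc_subset_Ioi_self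
    · exact hFi.mono_set (Set.Ioi_subset_Ioi (by norm_num))
    · exact Set.Ioc_disjoint_Ioi le_rfl
  have h3 : ∫ x in Set.Ioi (9 : ℝ), eF a b c d x ≤ 4 / 10 ^ 6 := by
    refine le_trans ?_ etail
    apply integral_mono_of_nonneg
    · exact Filter.Eventually.of_forall fun x => hF0 x
    · exact eint.mono_set (Set.Ioi_subset_Ioi (by norm_num))
    · exact Filter.Eventually.of_forall fun x => hFle x
  have h4 := esum_sound a b c d 36
  have h5 : ((36 : ℕ) : ℝ) / 4 = 9 := by norm_num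
  rw [h5] at h4
  have h6 : 2000000 * esum a b c d 36 ≤ 1000000000000 *
      (2000000 * esum a b c d 36 / 1000000000000 + 1) :=
    (Nat.lt_mul_div_succ _ (by norm_num)).le
  have h7 : 2000000 * esum a b c d 36 / 1000000000000 + 1 + 8 ≤ B := h
  have h8 : 2000000 * esum a b c d 36 ≤ 1000000000000 * (B - 8) := by omega
  have h9 : 2000000 * esum a b c d 36 + 8000000000000 ≤ 1000000000000 * B := by omega
  have h10 : (2000000 : ℝ) * (esum a b c d 36 : ℝ) + 8000000000000 ≤ 1000000000000 * B := by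
    exact_mod_cast h9
  unfold Mint
  rw [le_div_iff₀ (by norm_num)]
  rw [le_div_iff₀ (by norm_num)] at h4
  linarith

/-- accuracy tests (true values 4.521066, 4.458828, 4.422027, 4.583671, 4.402893) -/
theorem evalM_test1 : evalM 200000 40000 8000 1600 ≤ 4521200 := by
  decide +kernel
theorem evalM_test2 : evalM 300000 90000 27000 8100 ≤ 4458980 := by
  decide +kernel
theorem evalM_test3 : evalM 360000 129600 46656 16796 ≤ 4422180 := by
  decide +kernel
theorem evalM_test4 : evalM 100000 10000 1000 100 ≤ 4583800 := by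
  decide +kernel
theorem evalM_test5 : evalM 380000 160000 70000 30000 ≤ 4403050 := by
  decide +kernel


end
end CG3
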