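import Pool.Agent.CG3.Base2

open MeasureTheory ProbabilityTheory
open scoped BigOperators

namespace CG3
noncomputable section

/-- rational certificate for `exp (-E) ≤ e` -/
theorem exp_neg_le_cert (E e : ℝ) (hE : 0 ≤ E) (he : 0 ≤ e)
    (h : 1 ≤ e * (1 + E / 8 + (E / 8) ^ 2 / 2 + (E / 8) ^ 3 / 6 + (E / 8) ^ 4 / 24
      + (E / 8) ^ 5 / 120) ^ 8) :
    Real.exp (-E) ≤ e := by
  have h1 := Real.sum_le_exp_of_nonneg (x := E / 8) (by positivity) 6
  simp only [Finset.sum_range_succ, Finset.sum_range_zero, Nat.factorial] at h1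
  have h2 : 1 + E / 8 + (E / 8) ^ 2 / 2 + (E / 8) ^ 3 / 6 + (E / 8) ^ 4 / 24
      + (E / 8) ^ 5 / 120 ≤ Real.exp (E / 8) := by
    refine le_trans (le_of_eq ?_) h1
    norm_num
  have h3 : (1 + E / 8 + (E / 8) ^ 2 / 2 + (E / 8) ^ 3 / 6 + (E / 8) ^ 4 / 24
      + (E / 8) ^ 5 / 120) ^ 8 ≤ Real.exp E := by
    calc _ ≤ Real.exp (E / 8) ^ 8 := pow_le_pow_left₀ (by positivity) h2 8
      _ = Real.exp E := by rw [← Real.exp_nat_mul]; congr 1; push_cast; ring
  have h4 : 1 ≤ e * Real.exp E := h.trans (mul_le_mul_of_nonneg_left h3 he)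
  rw [Real.exp_neg, inv_eq_one_div, div_le_iff₀ (Real.exp_pos E)]
  exact h4

theorem gauss_int {b : ℝ} (hb : 0 < b) {p q r s : ℝ} (hp : 0 ≤ p) (hq : 0 ≤ q) (hr : 0 ≤ r)
    (hs : 0 ≤ s) : IntegrableOn (fun x : ℝ => Real.exp (-(b * x ^ 2 + 374 / 100000 * p * x ^ 4
      + 188 / 1000000 * q * x ^ 6 + 113 / 10000000 * r * x ^ 8
      + 737 / 1000000000 * s * x ^ 10))) (Set.Ioi 0) := by
  have h1 : Integrable (fun x : ℝ => Real.exp (-b * x ^ 2)) := integrable_exp_neg_mul_sq hb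
  apply Integrable.mono' h1.integrableOn
  · apply Continuous.aestronglyMeasurable
    fun_prop
  · filter_upwards with x
    rw [Real.norm_of_nonneg (Real.exp_pos _).le]
    apply Real.exp_le_exp.mpr
    have h2 : 0 ≤ 374 / 100000 * p * x ^ 4 := by positivity
    have h3 : 0 ≤ 188 / 1000000 * q * x ^ 6 := by positivity
    have h4 : 0 ≤ 113 / 10000000 * r * x ^ 8 := by positivity
    have h5 : 0 ≤ 737 / 1000000000 * s * x ^ 10 := by positivity
    linarith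

/-- `Mint` is antitone in all its arguments -/
theorem Mint_anti (hc2 : cc ≤ (0.708874905227208 : ℝ)) {a b c d a' b' c' d' : ℝ}
    (ha : 0 ≤ a) (hb : 0 ≤ b) (hc : 0 ≤ c) (hd : 0 ≤ d)
    (haa : a ≤ a') (hbb : b ≤ b') (hcc : c ≤ c') (hdd : d ≤ d') :
    Mint a' b' c' d' ≤ Mint a b c d := by
  unfold Mint
  have hb0 : 0 < (1 - cc) / 2 := by norm_num at hc2; linarith
  apply mul_le_mul_of_nonneg_left _ (by norm_num)
  apply setIntegral_mono_on (gauss_int hb0 (ha.trans haa) (hb.trans hbb) (hc.trans hcc) (hd.trans hdd))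
    (gauss_int hb0 ha hb hc hd) measurableSet_Ioi
  intro x hx
  apply Real.exp_le_exp.mpr
  have h2 : a * x ^ 4 ≤ a' * x ^ 4 := mul_le_mul_of_nonneg_right haa (by positivity)
  have h3 : b * x ^ 6 ≤ b' * x ^ 6 := mul_le_mul_of_nonneg_right hbb (by positivity)
  have h4 : c * x ^ 8 ≤ c' * x ^ 8 := mul_le_mul_of_nonneg_right hcc (by positivity)
  have h5 : d * x ^ 10 ≤ d' * x ^ 10 := mul_le_mul_of_nonneg_right hdd (by positivity)
  nlinarith

theorem tail_gauss {b X : ℝ} (hb : 0 < b) (hX : 0 < X) :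
    ∫ ξ in Set.Ioi X, Real.exp (-(b * ξ ^ 2)) ≤ Real.exp (-(b * X ^ 2)) / (2 * b * X) := by
  have ha : -(2 * b * X) < 0 := by
    have : 0 < 2 * b * X := by positivity
    linarith
  have h1 := integral_exp_mul_Ioi ha X
  have hint : IntegrableOn (fun ξ : ℝ => Real.exp (b * X ^ 2) * Real.exp (-(2 * b * X) * ξ)) (Set.Ioi X) :=
    (integrableOn_exp_mul_Ioi ha X).const_mul _
  have hint2 : IntegrableOn (fun ξ : ℝ => Real.exp (-(b * ξ ^ 2))) (Set.Ioi X) := by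
    have := (integrable_exp_neg_mul_sq hb).integrableOn (s := Set.Ioi X)
    simpa [neg_mul] using this
  calc ∫ ξ in Set.Ioi X, Real.exp (-(b * ξ ^ 2))
      ≤ ∫ ξ in Set.Ioi X, Real.exp (b * X ^ 2) * Real.exp (-(2 * b * X) * ξ) := by
        apply setIntegral_mono_on hint2 hint measurableSet_Ioi
        intro ξ hξ
        rw [← Real.exp_add]
        apply Real.exp_le_exp.mpr
        nlinarith [mul_nonneg hb.le (sq_nonneg (ξ - X))]
    _ = Real.exp (-(b * X ^ 2)) / (2 * b * X) := by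
        rw [integral_const_mul, h1]
        have e : Real.exp (b * X ^ 2) * Real.exp (-(2 * b * X) * X) = Real.exp (-(b * X ^ 2)) := by
          rw [← Real.exp_add]; congr 1; ring
        rw [← e]
        field_simp

theorem log_bound : (18971 / 10000 : ℝ) ≤ Real.log (20 / 3) := by
  rw [Real.le_log_iff_exp_le (by norm_num)]
  have h1 := Real.sum_le_exp_of_nonneg (x := 1029 / 10000) (by norm_num) 5
  simp only [Finset.sum_range_succ, Finset.sum_range_zero, Nat.factorial] at h1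
  have h2 := Real.exp_one_lt_d9
  have h3 : Real.exp (18971 / 10000) * Real.exp (1029 / 10000) = Real.exp 1 * Real.exp 1 := by
    rw [← Real.exp_add, ← Real.exp_add]; norm_num
  have h4 : Real.exp 1 * Real.exp 1 ≤ 2.7182818286 * 2.7182818286 :=
    mul_le_mul h2.le h2.le (Real.exp_pos 1).le (by norm_num)
  have h5 : (1.10838 : ℝ) ≤ Real.exp (1029 / 10000) := by
    refine le_trans ?_ h1
    norm_num
  have h6 : Real.exp (18971 / 10000) * 1.10838 ≤ Real.exp (18971 / 10000) * Real.exp (1029 / 10000) :=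
    mul_le_mul_of_nonneg_left h5 (Real.exp_pos _).le
  nlinarith

/-- verification of one `(x, y)`-cell for the majorant bound -/
theorem T2_cell (hc1 : (0.708874905227206 : ℝ) ≤ cc) (hc2 : cc ≤ (0.708874905227208 : ℝ))
    (hR0 : ∀ T : ℝ, 0 ≤ Rt T)
    (hR1 : ∀ T : ℝ, 69 / 20 ≤ T → Rt T ≤ 720 / 10000)
    (F x y S2 S3 S4 S5 κ x1 x2 y1 y2 A2 A3 A4 A5 w Ξ e1 e2 g h ρ B target : ℝ)
    (hF : F ≤ Mint S2 S3 S4 S5
      + 3 / 10 * (∫ ξ in Set.Ioi (min (69 / 20 / √y) 8),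
          Real.exp (-((1 - cc) * (1 - x) / 2 * ξ ^ 2)))
      + (3 / 20 : ℝ) ^ ((1 - x - y) / y) * (2 / √(√x * √y))
          * √(Rt (181 / 50 * √x / √y) * Rt (181 / 50)))
    (hκ : 0 ≤ κ) (hv : x + y ≤ 1)
    (hS2 : x ^ 2 + y ^ 2 + κ * (1 - x - y) ^ 2 ≤ S2)
    (hS3 : x ^ 3 + y ^ 3 + κ ^ 2 * (1 - x - y) ^ 3 ≤ S3)
    (hS4 : x ^ 4 + y ^ 4 ≤ S4) (hS5 : x ^ 5 + y ^ 5 ≤ S5)
    (hx1 : x1 ≤ x) (hx2 : x ≤ x2) (hy1 : y1 ≤ y) (hy2 : y ≤ y2)
    (hx10 : 0 < x1) (hy10 : 0 < y1) (hx21 : x2 < 1) (hr : y2 ≤ 1 - x2)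
    -- lower bounds of the power sums on the cell
    (hA20 : 0 ≤ A2) (hA30 : 0 ≤ A3) (hA40 : 0 ≤ A4) (hA50 : 0 ≤ A5)
    (hA2 : ∀ X ∈ ({x1, x2} : Set ℝ), ∀ Y ∈ ({y1, y2} : Set ℝ),
      A2 ≤ ((x1 + x2) / 2) ^ 2 + ((y1 + y2) / 2) ^ 2 + κ * (1 - (x1 + x2) / 2 - (y1 + y2) / 2) ^ 2
        + (x1 + x2) * (X - (x1 + x2) / 2) + (y1 + y2) * (Y - (y1 + y2) / 2)
        - 2 * κ * (1 - (x1 + x2) / 2 - (y1 + y2) / 2) * ((X - (x1 + x2) / 2) + (Y - (y1 + y2) / 2)))
    (hw0 : 0 ≤ w) (hw : w = 0 ∨ w ≤ 1 - x2 - y2)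
    (hA3 : A3 ≤ x1 ^ 3 + y1 ^ 3 + κ ^ 2 * w ^ 3)
    (hA4 : A4 ≤ x1 ^ 4 + y1 ^ 4) (hA5 : A5 ≤ x1 ^ 5 + y1 ^ 5)
    (hM : Mint A2 A3 A4 A5 ≤ B)
    -- middle term
    (hΞ0 : 0 < Ξ) (hΞ8 : Ξ ≤ 8) (hΞ : Ξ ^ 2 * y2 ≤ (69 / 20) ^ 2)
    (he1 : Real.exp (-(1455625 / 10000000 * (1 - x2) * Ξ ^ 2)) ≤ e1)
    -- third term
    (he2 : Real.exp (-(18971 / 10000 * ((1 - x2) / y2 - 1))) ≤ e2)
    (hg0 : 0 ≤ g) (hg : 1 ≤ g ^ 4 * (x1 * y1))
    (hρ : ∀ T : ℝ, 0 ≤ T → (181 / 50) ^ 2 * x1 / y2 ≤ T ^ 2 → Rt T ≤ ρ)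
    (hh0 : 0 ≤ h) (hh : ρ * (720 / 10000) ≤ h ^ 2)
    (hfin : B + 3 / 10 * (e1 / (2 * (1455625 / 10000000 * (1 - x2)) * Ξ)) + 2 * e2 * g * h ≤ target) :
    F ≤ target := by
  have hx0 : 0 < x := hx10.trans_le hx1
  have hy0 : 0 < y := hy10.trans_le hy1
  have hy20 : 0 < y2 := hy0.trans_le hy2
  have hx22 : 0 < 1 - x2 := by linarith
  -- main part
  have hA2' : A2 ≤ S2 := by
    refine le_trans ?_ hS2
    set cx := (x1 + x2) / 2 with hcx
    set cy := (y1 + y2) / 2 with hcy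
    set u := 1 - cx - cy with hu
    have e1 : x1 + x2 = 2 * cx := by rw [hcx]; ring
    have e2 : y1 + y2 = 2 * cy := by rw [hcy]; ring
    have h11 := hA2 x1 (by simp) y1 (by simp)
    have h12 := hA2 x1 (by simp) y2 (by simp)
    have h21 := hA2 x2 (by simp) y1 (by simp)
    have h22 := hA2 x2 (by simp) y2 (by simp)
    rw [e1, e2] at h11 h12 h21 h22
    have htan : cx ^ 2 + cy ^ 2 + κ * u ^ 2 + (2 * cx - 2 * κ * u) * (x - cx)
        + (2 * cy - 2 * κ * u) * (y - cy) ≤ x ^ 2 + y ^ 2 + κ * (1 - x - y) ^ 2 := by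
      have e3 : x ^ 2 + y ^ 2 + κ * (1 - x - y) ^ 2 - (cx ^ 2 + cy ^ 2 + κ * u ^ 2
          + (2 * cx - 2 * κ * u) * (x - cx) + (2 * cy - 2 * κ * u) * (y - cy))
          = (x - cx) ^ 2 + (y - cy) ^ 2 + κ * ((x - cx) + (y - cy)) ^ 2 := by
        rw [hu]; ring
      have h4 : 0 ≤ (x - cx) ^ 2 + (y - cy) ^ 2 + κ * ((x - cx) + (y - cy)) ^ 2 := by positivity
      linarith
    refine le_trans ?_ htan
    rcases le_total 0 (2 * cx - 2 * κ * u) with ha | ha <;>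
    rcases le_total 0 (2 * cy - 2 * κ * u) with hb | hb
    · have g1 := mul_le_mul_of_nonneg_left (sub_le_sub_right hx1 cx) ha
      have g2 := mul_le_mul_of_nonneg_left (sub_le_sub_right hy1 cy) hb
      linarith
    · have g1 := mul_le_mul_of_nonneg_left (sub_le_sub_right hx1 cx) ha
      have g2 := mul_le_mul_of_nonpos_left (sub_le_sub_right hy2 cy) hb
      linarith
    · have g1 := mul_le_mul_of_nonpos_left (sub_le_sub_right hx2 cx) ha
      have g2 := mul_le_mul_of_nonneg_left (sub_le_sub_right hy1 cy) hb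
      linarith
    · have g1 := mul_le_mul_of_nonpos_left (sub_le_sub_right hx2 cx) ha
      have g2 := mul_le_mul_of_nonpos_left (sub_le_sub_right hy2 cy) hb
      linarith
  have hA3' : A3 ≤ S3 := by
    have h1 : x1 ^ 3 ≤ x ^ 3 := pow_le_pow_left₀ hx10.le hx1 3
    have h2 : y1 ^ 3 ≤ y ^ 3 := pow_le_pow_left₀ hy10.le hy1 3
    have h3 : w ^ 3 ≤ (1 - x - y) ^ 3 := by
      apply pow_le_pow_left₀ hw0
      rcases hw with h | h
      · rw [h]; linarith
      · linarith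
    have h4 : κ ^ 2 * w ^ 3 ≤ κ ^ 2 * (1 - x - y) ^ 3 := mul_le_mul_of_nonneg_left h3 (by positivity)
    linarith
  have hA4' : A4 ≤ S4 := by
    have h1 : x1 ^ 4 ≤ x ^ 4 := pow_le_pow_left₀ hx10.le hx1 4
    have h2 : y1 ^ 4 ≤ y ^ 4 := pow_le_pow_left₀ hy10.le hy1 4
    linarith
  have hA5' : A5 ≤ S5 := by
    have h1 : x1 ^ 5 ≤ x ^ 5 := pow_le_pow_left₀ hx10.le hx1 5
    have h2 : y1 ^ 5 ≤ y ^ 5 := pow_le_pow_left₀ hy10.le hy1 5
    linarith
  have hmain : Mint S2 S3 S4 S5 ≤ B :=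
    (Mint_anti hc2 hA20 hA30 hA40 hA50 hA2' hA3' hA4' hA5').trans hM
  -- middle part
  set b : ℝ := 1455625 / 10000000 * (1 - x2) with hb
  have hb0 : 0 < b := by rw [hb]; positivity
  have hbb : b ≤ (1 - cc) * (1 - x) / 2 := by
    norm_num at hc2
    have h1 : (1455625 / 10000000 : ℝ) ≤ (1 - cc) / 2 := by linarith
    have h2 : 1 - x2 ≤ 1 - x := by linarith
    calc b ≤ (1 - cc) / 2 * (1 - x) := by
          rw [hb]; exact mul_le_mul h1 h2 hx22.le (by linarith)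
      _ = (1 - cc) * (1 - x) / 2 := by ring
  have hΞle : Ξ ≤ min (69 / 20 / √y) 8 := by
    apply le_min _ hΞ8
    rw [le_div_iff₀ (Real.sqrt_pos.mpr hy0)]
    apply le_of_sq_le_sq _ (by norm_num)
    rw [mul_pow, Real.sq_sqrt hy0.le]
    have : Ξ ^ 2 * y ≤ Ξ ^ 2 * y2 := mul_le_mul_of_nonneg_left hy2 (by positivity)
    linarith
  have hmid : ∫ ξ in Set.Ioi (min (69 / 20 / √y) 8), Real.exp (-((1 - cc) * (1 - x) / 2 * ξ ^ 2))
      ≤ e1 / (2 * b * Ξ) := by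
    have hi1 : Integrable (fun ξ : ℝ => Real.exp (-(b * ξ ^ 2))) := by
      have := integrable_exp_neg_mul_sq hb0
      simpa [neg_mul] using this
    have hi2 : Integrable (fun ξ : ℝ => Real.exp (-((1 - cc) * (1 - x) / 2 * ξ ^ 2))) := by
      have := integrable_exp_neg_mul_sq (hb0.trans_le hbb)
      simpa [neg_mul] using this
    calc ∫ ξ in Set.Ioi (min (69 / 20 / √y) 8), Real.exp (-((1 - cc) * (1 - x) / 2 * ξ ^ 2))
        ≤ ∫ ξ in Set.Ioi (min (69 / 20 / √y) 8), Real.exp (-(b * ξ ^ 2)) := by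
          apply setIntegral_mono_on hi2.integrableOn hi1.integrableOn measurableSet_Ioi
          intro ξ _
          apply Real.exp_le_exp.mpr
          have := mul_le_mul_of_nonneg_right hbb (sq_nonneg ξ)
          linarith
      _ ≤ ∫ ξ in Set.Ioi Ξ, Real.exp (-(b * ξ ^ 2)) := by
          apply setIntegral_mono_set hi1.integrableOn
          · filter_upwards with ξ
            exact (Real.exp_pos _).le
          · exact (Set.Ioi_subset_Ioi hΞle).eventuallyLE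
      _ ≤ Real.exp (-(b * Ξ ^ 2)) / (2 * b * Ξ) := tail_gauss hb0 hΞ0
      _ ≤ e1 / (2 * b * Ξ) := div_le_div_of_nonneg_right he1 (by positivity)
  -- third part
  have he20 : 0 ≤ e2 := (Real.exp_pos _).le.trans he2
  have hthird : (3 / 20 : ℝ) ^ ((1 - x - y) / y) ≤ e2 := by
    refine le_trans ?_ he2
    rw [Real.rpow_def_of_pos (by norm_num)]
    apply Real.exp_le_exp.mpr
    have hlog : Real.log (3 / 20) = -Real.log (20 / 3) := by
      rw [← Real.log_inv]; norm_num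
    rw [hlog]
    have hr1 : (1 - x2) / y2 - 1 ≤ (1 - x - y) / y := by
      have e : (1 - x - y) / y = (1 - x) / y - 1 := by field_simp
      rw [e]
      have : (1 - x2) / y2 ≤ (1 - x) / y := by
        apply div_le_div₀ (by linarith) (by linarith) hy0 hy2
      linarith
    have hr0 : 0 ≤ (1 - x2) / y2 - 1 := by
      have : 1 ≤ (1 - x2) / y2 := by
        rw [le_div_iff₀ hy20]; linarith
      linarith
    have := mul_le_mul log_bound hr1 hr0 (le_trans (by norm_num) log_bound)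
    linarith
  have hg0' : 0 < g := by
    rcases hg0.eq_or_lt with h | h
    · rw [← h] at hg; norm_num at hg
    · exact h
  have hxy : 2 / √(√x * √y) ≤ 2 * g := by
    have hs : 0 < √(√x * √y) :=
      Real.sqrt_pos.mpr (mul_pos (Real.sqrt_pos.mpr hx0) (Real.sqrt_pos.mpr hy0))
    rw [div_le_iff₀ hs]
    have h1 : 1 ≤ g * √(√x * √y) := by
      have h2 : (1 : ℝ) ^ 4 ≤ (g * √(√x * √y)) ^ 4 := by
        have e : (g * √(√x * √y)) ^ 4 = g ^ 4 * (x * y) := by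
          rw [mul_pow]
          congr 1
          calc √(√x * √y) ^ 4 = (√(√x * √y) ^ 2) ^ 2 := by ring
            _ = (√x * √y) ^ 2 := by rw [Real.sq_sqrt (by positivity)]
            _ = √x ^ 2 * √y ^ 2 := by ring
            _ = x * y := by rw [Real.sq_sqrt hx0.le, Real.sq_sqrt hy0.le]
        rw [e, one_pow]
        refine hg.trans ?_
        apply mul_le_mul_of_nonneg_left _ (by positivity)
        exact mul_le_mul hx1 hy1 hy10.le hx0.le
      exact le_of_pow_le_pow_left₀ (by norm_num) (by positivity) h2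
    linarith
  have hsq : √(Rt (181 / 50 * √x / √y) * Rt (181 / 50)) ≤ h := by
    rw [Real.sqrt_le_left hh0]
    refine le_trans ?_ hh
    have hT : Rt (181 / 50 * √x / √y) ≤ ρ := by
      apply hρ _ (by positivity)
      have e : (181 / 50 * √x / √y) ^ 2 = (181 / 50) ^ 2 * x / y := by
        rw [div_pow, mul_pow, Real.sq_sqrt hx0.le, Real.sq_sqrt hy0.le]
      rw [e]
      exact div_le_div₀ (by positivity) (mul_le_mul_of_nonneg_left hx1 (by positivity)) hy0 hy2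
    exact mul_le_mul hT (hR1 _ (by norm_num)) (hR0 _) ((hR0 _).trans hT)
  have hprod : (3 / 20 : ℝ) ^ ((1 - x - y) / y) * (2 / √(√x * √y))
          * √(Rt (181 / 50 * √x / √y) * Rt (181 / 50)) ≤ e2 * (2 * g) * h := by
    apply mul_le_mul _ hsq (Real.sqrt_nonneg _) (by positivity)
    exact mul_le_mul hthird hxy (by positivity) he20
  have e3 : e2 * (2 * g) * h = 2 * e2 * g * h := by ring
  rw [e3] at hprod
  linarith

end
end CG3
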