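import Pool.Agent.CG3.Base2

open MeasureTheory ProbabilityTheory
open scoped BigOperators

namespace CG3
noncomputable section

theorem j10923_int (hc2 : cc ≤ (0.708874905227208 : ℝ)) (s2 s3 s4 s5 : ℝ) (h2 : 0 ≤ s2)
    (h3 : 0 ≤ s3) (h4 : 0 ≤ s4) (h5 : 0 ≤ s5) :
    Integrable (fun x : ℝ =>
      Real.exp (-((1 - cc) / 2 * x ^ 2 + 374 / 100000 * s2 * x ^ 4 + 188 / 1000000 * s3 * x ^ 6
    + 113 / 10000000 * s4 * x ^ 8 + 737 / 1000000000 * s5 * x ^ 10))) := by
  have hb : 0 < (1 - cc) / 2 := by linarith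
  refine Integrable.mono' (integrable_exp_neg_mul_sq hb)
    (Continuous.aestronglyMeasurable (by fun_prop)) (Filter.Eventually.of_forall fun x => ?_)
  rw [Real.norm_eq_abs, abs_of_pos (Real.exp_pos _)]
  apply Real.exp_le_exp.2
  have e4 : 0 ≤ 374 / 100000 * s2 * x ^ 4 := by positivity
  have e6 : 0 ≤ 188 / 1000000 * s3 * x ^ 6 := by positivity
  have e8 : 0 ≤ 113 / 10000000 * s4 * x ^ 8 := by positivity
  have e10 : 0 ≤ 737 / 1000000000 * s5 * x ^ 10 := by positivity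
  linarith

theorem j10923_anti (hc2 : cc ≤ (0.708874905227208 : ℝ)) (s2 s3 s4 s5 t2 t3 t4 t5 : ℝ)
    (h2 : 0 ≤ s2) (h3 : 0 ≤ s3) (h4 : 0 ≤ s4) (h5 : 0 ≤ s5)
    (k2 : s2 ≤ t2) (k3 : s3 ≤ t3) (k4 : s4 ≤ t4) (k5 : s5 ≤ t5) :
    Mint t2 t3 t4 t5 ≤ Mint s2 s3 s4 s5 := by
  unfold Mint
  apply mul_le_mul_of_nonneg_left _ (by norm_num)
  apply integral_mono (j10923_int hc2 t2 t3 t4 t5 (h2.trans k2) (h3.trans k3) (h4.trans k4)
    (h5.trans k5)).integrableOn (j10923_int hc2 s2 s3 s4 s5 h2 h3 h4 h5).integrableOn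
  intro x
  apply Real.exp_le_exp.2
  have e4 : s2 * x ^ 4 ≤ t2 * x ^ 4 := mul_le_mul_of_nonneg_right k2 (by positivity)
  have e6 : s3 * x ^ 6 ≤ t3 * x ^ 6 := mul_le_mul_of_nonneg_right k3 (by positivity)
  have e8 : s4 * x ^ 8 ≤ t4 * x ^ 8 := mul_le_mul_of_nonneg_right k4 (by positivity)
  have e10 : s5 * x ^ 10 ≤ t5 * x ^ 10 := mul_le_mul_of_nonneg_right k5 (by positivity)
  nlinarith

theorem j10923_PP (hc2 : cc ≤ (0.708874905227208 : ℝ)) (t : ℝ) : (1 - cc) / 2 * t ^ 2 ≤ PP t := by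
  unfold PP
  have e4 : 0 ≤ 374 / 100000 * t ^ 4 := by positivity
  have e6 : 0 ≤ 188 / 1000000 * t ^ 6 := by positivity
  have e8 : 0 ≤ 113 / 10000000 * t ^ 8 := by positivity
  have e10 : 0 ≤ 737 / 1000000000 * t ^ 10 := by positivity
  linarith

/-- main lobe + tail bound for the `L^s` integral -/
theorem Psi_le (hcont : Continuous phi) (hneg : ∀ t : ℝ, phi (-t) = phi t)
    (hint : ∀ s : ℝ, 1 < s → Integrable (fun t : ℝ => |phi t| ^ s))
    (hP : ∀ t : ℝ, 0 ≤ t → t ≤ 29 / 5 → phi t ≤ Real.exp (-(PP t)))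
    (h3 : ∀ t : ℝ, 3 ≤ t → |phi t| ≤ 3 / 20)
    (hpos : ∀ t : ℝ, 0 ≤ t → t ≤ 69 / 20 → 0 < phi t)
    (hc1 : (0.708874905227206 : ℝ) ≤ cc) (hc2 : cc ≤ (0.708874905227208 : ℝ))
    (u : ℝ) (hu0 : 0 < u) (hu : u ≤ 1 / 2) :
    u ^ (-(1 / 2) : ℝ) * Is (1 / u) ≤
      Mint u (u ^ 2) (u ^ 3) (u ^ 4) + 2 / √u * (3 / 20 : ℝ) ^ (1 / u - 2) * Rt (69 / 20) := by
  set s : ℝ := 1 / u with hs
  have hs2 : 2 ≤ s := by
    rw [hs, le_div_iff₀ hu0]; linarith
  have hs0 : 0 < s := by linarith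
  set r : ℝ := √u with hr
  have hr0 : 0 < r := Real.sqrt_pos.2 hu0
  have hr2 : r ^ 2 = u := Real.sq_sqrt hu0.le
  have hsr : s * r ^ 2 = 1 := by rw [hr2, hs]; field_simp
  -- evenness
  have e0 : Is s = 2 * ∫ t in Set.Ioi (0:ℝ), |phi t| ^ s := by
    unfold Is
    rw [← integral_comp_abs (f := fun t => |phi t| ^ s)]
    apply integral_congr_ae
    refine Filter.Eventually.of_forall fun t => ?_
    show |phi t| ^ s = |phi (|t|)| ^ s
    rcases abs_choice t with h | h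
    · rw [h]
    · rw [h, hneg]
  have hints := hint s (by linarith)
  have e1 : ∫ t in Set.Ioi (0:ℝ), |phi t| ^ s =
      (∫ t in Set.Ioc (0:ℝ) (69/20), |phi t| ^ s) + ∫ t in Set.Ioi (69/20 : ℝ), |phi t| ^ s := by
    rw [← setIntegral_union (Set.Ioc_disjoint_Ioi le_rfl) measurableSet_Ioi hints.integrableOn
      hints.integrableOn, Set.Ioc_union_Ioi_eq_Ioi (by norm_num)]
  have hb : 0 < (1 - cc) / 2 := by linarith
  have hintP : Integrable (fun t : ℝ => Real.exp (-(s * PP t))) := by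
    refine Integrable.mono' (integrable_exp_neg_mul_sq (mul_pos hs0 hb))
      (Continuous.aestronglyMeasurable (by unfold PP; fun_prop))
      (Filter.Eventually.of_forall fun x => ?_)
    rw [Real.norm_eq_abs, abs_of_pos (Real.exp_pos _)]
    apply Real.exp_le_exp.2
    have := mul_le_mul_of_nonneg_left (j10923_PP hc2 x) hs0.le
    linarith
  have e2 : ∫ t in Set.Ioc (0:ℝ) (69/20), |phi t| ^ s ≤
      ∫ t in Set.Ioi (0:ℝ), Real.exp (-(s * PP t)) := by
    refine le_trans (setIntegral_mono_on hints.integrableOn hintP.integrableOn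
      measurableSet_Ioc fun t ht => ?_) (setIntegral_mono_set (f := fun t => Real.exp (-(s * PP t)))
        hintP.integrableOn (Filter.Eventually.of_forall fun t => (Real.exp_pos _).le)
        (Filter.Eventually.of_forall fun t (ht : t ∈ Set.Ioc (0:ℝ) (69/20)) => ht.1))
    have hp := hpos t ht.1.le ht.2
    rw [abs_of_pos hp]
    have h1 := hP t ht.1.le (by linarith [ht.2])
    calc phi t ^ s ≤ (Real.exp (-(PP t))) ^ s := Real.rpow_le_rpow hp.le h1 hs0.le
      _ = Real.exp (-(s * PP t)) := by rw [← Real.exp_mul]; congr 1; ring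
  have e3 : ∫ t in Set.Ioi (0:ℝ), Real.exp (-(s * PP t)) =
      r * (Mint u (u ^ 2) (u ^ 3) (u ^ 4) / 2) := by
    have h1 := integral_comp_mul_left_Ioi (fun t => Real.exp (-(s * PP t))) 0 hr0
    rw [mul_zero, smul_eq_mul] at h1
    have h2 : ∫ x in Set.Ioi (0:ℝ), Real.exp (-(s * PP (r * x))) =
        Mint u (u ^ 2) (u ^ 3) (u ^ 4) / 2 := by
      unfold Mint
      rw [mul_div_cancel_left₀ _ (by norm_num : (2:ℝ) ≠ 0)]
      apply integral_congr_ae
      refine Filter.Eventually.of_forall fun x => ?_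
      show Real.exp (-(s * PP (r * x))) = Real.exp (-((1 - cc) / 2 * x ^ 2 +
        374 / 100000 * u * x ^ 4 + 188 / 1000000 * u ^ 2 * x ^ 6
        + 113 / 10000000 * u ^ 3 * x ^ 8 + 737 / 1000000000 * u ^ 4 * x ^ 10))
      congr 2
      unfold PP
      have q4 : s * r ^ 4 = u := by
        calc s * r ^ 4 = (s * r ^ 2) * r ^ 2 := by ring
          _ = u := by rw [hsr, hr2, one_mul]
      have q6 : s * r ^ 6 = u ^ 2 := by
        calc s * r ^ 6 = (s * r ^ 2) * (r ^ 2) ^ 2 := by ring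
          _ = u ^ 2 := by rw [hsr, hr2, one_mul]
      have q8 : s * r ^ 8 = u ^ 3 := by
        calc s * r ^ 8 = (s * r ^ 2) * (r ^ 2) ^ 3 := by ring
          _ = u ^ 3 := by rw [hsr, hr2, one_mul]
      have q10 : s * r ^ 10 = u ^ 4 := by
        calc s * r ^ 10 = (s * r ^ 2) * (r ^ 2) ^ 4 := by ring
          _ = u ^ 4 := by rw [hsr, hr2, one_mul]
      linear_combination ((1 - cc) / 2 * x ^ 2) * hsr + (374 / 100000 * x ^ 4) * q4 +
        (188 / 1000000 * x ^ 6) * q6 + (113 / 10000000 * x ^ 8) * q8 +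
        (737 / 1000000000 * x ^ 10) * q10
    rw [h2] at h1
    rw [h1, ← mul_assoc, mul_inv_cancel₀ hr0.ne', one_mul]
  have e4 : ∫ t in Set.Ioi (69/20 : ℝ), |phi t| ^ s ≤
      (3 / 20 : ℝ) ^ (s - 2) * Rt (69 / 20) := by
    unfold Rt
    rw [← integral_const_mul]
    have hint2 : Integrable (fun t : ℝ => phi t ^ 2) := by
      have := hint 2 (by norm_num)
      refine this.congr (Filter.Eventually.of_forall fun t => ?_)
      show |phi t| ^ (2:ℝ) = phi t ^ 2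
      rw [Real.rpow_two, sq_abs]
    refine setIntegral_mono_on hints.integrableOn (hint2.const_mul _).integrableOn
      measurableSet_Ioi fun t ht => ?_
    have ht3 : 3 ≤ t := by
      have : (69/20 : ℝ) < t := ht
      linarith
    have h1 := h3 t ht3
    rcases (abs_nonneg (phi t)).eq_or_lt with h | h
    · rw [← h, Real.zero_rpow hs0.ne']
      positivity
    · have h2 : |phi t| ^ s = |phi t| ^ (s - 2) * phi t ^ 2 := by
        rw [← sq_abs (phi t), ← Real.rpow_two, ← Real.rpow_add h]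
        congr 1
        ring
      rw [h2]
      exact mul_le_mul_of_nonneg_right (Real.rpow_le_rpow h.le h1 (by linarith)) (sq_nonneg _)
  have hu' : u ^ (-(1 / 2) : ℝ) = r⁻¹ := by
    rw [Real.rpow_neg hu0.le, hr, Real.sqrt_eq_rpow]
  rw [hu', e0, e1]
  have e5 : 2 * ((∫ t in Set.Ioc (0:ℝ) (69/20), |phi t| ^ s) +
      ∫ t in Set.Ioi (69/20 : ℝ), |phi t| ^ s) ≤
      r * Mint u (u ^ 2) (u ^ 3) (u ^ 4) + 2 * ((3 / 20 : ℝ) ^ (s - 2) * Rt (69 / 20)) := by
    rw [e3] at e2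
    linarith
  calc r⁻¹ * (2 * ((∫ t in Set.Ioc (0:ℝ) (69/20), |phi t| ^ s) +
      ∫ t in Set.Ioi (69/20 : ℝ), |phi t| ^ s)) ≤ r⁻¹ * (r * Mint u (u ^ 2) (u ^ 3) (u ^ 4) +
        2 * ((3 / 20 : ℝ) ^ (s - 2) * Rt (69 / 20))) :=
        mul_le_mul_of_nonneg_left e5 (by positivity)
    _ = _ := by
        rw [mul_add, ← mul_assoc, inv_mul_cancel₀ hr0.ne', one_mul]
        ring

theorem j10923_log : 18971 / 10000 ≤ Real.log (20 / 3) := by
  have h1 : Real.exp 0.5108056394 ≤ 5 / 3 := by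
    refine (Real.exp_bound' (by norm_num) (by norm_num) (n := 9) (by norm_num)).trans ?_
    norm_num [Finset.sum_range_succ, Nat.factorial]
  have h2 : 0.5108056394 ≤ Real.log (5 / 3) := by
    rw [Real.le_log_iff_exp_le (by norm_num)]
    exact h1
  have h3 : Real.log (20 / 3) = 2 * Real.log 2 + Real.log (5 / 3) := by
    have : (20 / 3 : ℝ) = 2 ^ 2 * (5 / 3) := by norm_num
    rw [this, Real.log_mul (by norm_num) (by norm_num), Real.log_pow]
    norm_num
  have h4 := Real.log_two_gt_d9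
  rw [h3]
  linarith

/-- one cell for a line bound of `Hs` -/
theorem line_cell (hcont : Continuous phi) (hneg : ∀ t : ℝ, phi (-t) = phi t)
    (hint : ∀ s : ℝ, 1 < s → Integrable (fun t : ℝ => |phi t| ^ s))
    (hI : ∀ s : ℝ, 1 < s → 0 < Is s)
    (hP : ∀ t : ℝ, 0 ≤ t → t ≤ 29 / 5 → phi t ≤ Real.exp (-(PP t)))
    (h3 : ∀ t : ℝ, 3 ≤ t → |phi t| ≤ 3 / 20)
    (hpos : ∀ t : ℝ, 0 ≤ t → t ≤ 69 / 20 → 0 < phi t)
    (hR1 : Rt (69 / 20) ≤ 720 / 10000)
    (hc1 : (0.708874905227206 : ℝ) ≤ cc) (hc2 : cc ≤ (0.708874905227208 : ℝ))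
    (u1 u2 A2 A3 A4 A5 B e g L κ k : ℝ) (hu1 : 0 < u1) (hu12 : u1 ≤ u2) (hu2 : u2 ≤ 1 / 2)
    (hA2 : 0 ≤ A2) (hA3 : 0 ≤ A3) (hA4 : 0 ≤ A4) (hA5 : 0 ≤ A5)
    (hA2' : A2 ≤ u1) (hA3' : A3 ≤ u1 ^ 2) (hA4' : A4 ≤ u1 ^ 3) (hA5' : A5 ≤ u1 ^ 4)
    (hM : Mint A2 A3 A4 A5 ≤ B)
    (he : Real.exp (-(18971 / 10000 * (1 / u2 - 2))) ≤ e) (hg0 : 0 ≤ g) (hg : 1 ≤ g ^ 2 * u2)
    (hL : 0 < L) (hκ : 0 ≤ κ) (hfin : B + 2 * g * e * (720 / 10000) ≤ L * (1 + κ * (1 / u2 - k))) :
    ∀ u : ℝ, u1 ≤ u → u ≤ u2 → Hs u ≤ u * Real.log L + κ * (1 - k * u) := by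
  intro u hu1u huu2
  have hu0 : 0 < u := hu1.trans_le hu1u
  have hu20 : 0 < u2 := hu0.trans_le huu2
  have hu12' : u ≤ 1 / 2 := huu2.trans hu2
  have hpsi := Psi_le hcont hneg hint hP h3 hpos hc1 hc2 u hu0 hu12'
  have hMint : Mint u (u ^ 2) (u ^ 3) (u ^ 4) ≤ B := by
    refine le_trans ?_ hM
    exact j10923_anti hc2 A2 A3 A4 A5 _ _ _ _ hA2 hA3 hA4 hA5 (hA2'.trans hu1u)
      (hA3'.trans (pow_le_pow_left₀ hu1.le hu1u 2)) (hA4'.trans (pow_le_pow_left₀ hu1.le hu1u 3))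
      (hA5'.trans (pow_le_pow_left₀ hu1.le hu1u 4))
  set ell := Real.log (20 / 3) with hell
  have hl1 : 18971 / 10000 ≤ ell := j10923_log
  have hl2 : (1:ℝ) ≤ ell := by linarith
  have hinv : 1 / u2 ≤ 1 / u := one_div_le_one_div_of_le hu0 huu2
  have hinv2 : 2 ≤ 1 / u2 := by
    rw [le_div_iff₀ hu20]; linarith
  -- the monotone weight
  have hW : 1 / √u * (3 / 20 : ℝ) ^ (1 / u - 2) ≤ g * e := by
    have hpow : (3 / 20 : ℝ) ^ (1 / u - 2) = Real.exp (-(ell * (1 / u - 2))) := by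
      rw [Real.rpow_def_of_pos (by norm_num)]
      congr 1
      have : Real.log (3 / 20) = - ell := by
        rw [hell, ← Real.log_inv]
        norm_num
      rw [this]
      ring
    have hsq1 : 1 / √u ≤ g * (u2 / u) := by
      -- 1/√u ≤ g √(u2/u) ≤ g u2/u
      have hsu : 0 < √u := Real.sqrt_pos.2 hu0
      have h1 : 1 ≤ (g * (u2 / u) * √u) ^ 2 := by
        have h2 : (g * (u2 / u) * √u) ^ 2 = (g ^ 2 * u2) * (u2 / u) := by
          rw [mul_pow, mul_pow, Real.sq_sqrt hu0.le]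
          field_simp
        rw [h2]
        have h3 : 1 ≤ u2 / u := (one_le_div hu0).2 huu2
        nlinarith
      have h4 : 0 ≤ g * (u2 / u) * √u := by positivity
      have h5 : 1 ≤ g * (u2 / u) * √u := by
        by_contra hcon
        push Not at hcon
        have : (g * (u2 / u) * √u) ^ 2 < 1 := by nlinarith
        linarith
      rw [div_le_iff₀ hsu]
      exact h5
    have hrat : u2 / u ≤ Real.exp (ell * (1 / u - 1 / u2)) := by
      have h1 : u2 / u = 1 + (u2 - u) / u := by field_simp; ring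
      have h2 : (u2 - u) / u ≤ ell * (1 / u - 1 / u2) := by
        have h3 : ell * (1 / u - 1 / u2) = (ell / u2) * ((u2 - u) / u) := by
          field_simp
        rw [h3]
        have h4 : 1 ≤ ell / u2 := by
          rw [le_div_iff₀ hu20]; linarith
        have h5 : 0 ≤ (u2 - u) / u := div_nonneg (by linarith) hu0.le
        nlinarith
      rw [h1]
      have h6 := Real.add_one_le_exp ((u2 - u) / u)
      calc 1 + (u2 - u) / u ≤ Real.exp ((u2 - u) / u) := by linarith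
        _ ≤ _ := Real.exp_le_exp.2 h2
    rw [hpow]
    calc 1 / √u * Real.exp (-(ell * (1 / u - 2)))
        ≤ (g * Real.exp (ell * (1 / u - 1 / u2))) * Real.exp (-(ell * (1 / u - 2))) := by
          apply mul_le_mul_of_nonneg_right _ (Real.exp_pos _).le
          exact hsq1.trans (mul_le_mul_of_nonneg_left hrat hg0)
      _ = g * Real.exp (-(ell * (1 / u2 - 2))) := by
          rw [mul_assoc, ← Real.exp_add]
          congr 2
          ring
      _ ≤ g * e := by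
          apply mul_le_mul_of_nonneg_left _ hg0
          refine le_trans (Real.exp_le_exp.2 ?_) he
          have : 0 ≤ 1 / u2 - 2 := by linarith
          nlinarith
  have hWn : 0 ≤ 1 / √u * (3 / 20 : ℝ) ^ (1 / u - 2) := by positivity
  have htail : 2 / √u * (3 / 20 : ℝ) ^ (1 / u - 2) * Rt (69 / 20) ≤
      2 * g * e * (720 / 10000) := by
    calc 2 / √u * (3 / 20 : ℝ) ^ (1 / u - 2) * Rt (69 / 20)
        = 2 * (1 / √u * (3 / 20 : ℝ) ^ (1 / u - 2)) * Rt (69 / 20) := by ring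
      _ ≤ 2 * (1 / √u * (3 / 20 : ℝ) ^ (1 / u - 2)) * (720 / 10000) :=
          mul_le_mul_of_nonneg_left hR1 (by positivity)
      _ ≤ 2 * (g * e) * (720 / 10000) := by linarith
      _ = _ := by ring
  set v := u ^ (-(1 / 2) : ℝ) * Is (1 / u) with hv
  have hv0 : 0 < v := by
    have h1 : 1 < 1 / u := by
      rw [lt_div_iff₀ hu0]; linarith
    exact mul_pos (Real.rpow_pos_of_pos hu0 _) (hI _ h1)
  have hvle : v ≤ L * Real.exp (κ * (1 / u - k)) := by
    calc v ≤ B + 2 * g * e * (720 / 10000) := hpsi.trans (add_le_add hMint htail)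
      _ ≤ L * (1 + κ * (1 / u2 - k)) := hfin
      _ ≤ L * Real.exp (κ * (1 / u - k)) := by
          apply mul_le_mul_of_nonneg_left _ hL.le
          have h1 := Real.add_one_le_exp (κ * (1 / u - k))
          have h2 : κ * (1 / u2 - k) ≤ κ * (1 / u - k) :=
            mul_le_mul_of_nonneg_left (by linarith) hκ
          linarith
  have hlog : Real.log v ≤ Real.log L + κ * (1 / u - k) := by
    have h1 := Real.log_le_log hv0 hvle
    rwa [Real.log_mul hL.ne' (Real.exp_pos _).ne', Real.log_exp] at h1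
  unfold Hs
  calc u * Real.log v ≤ u * (Real.log L + κ * (1 / u - k)) :=
        mul_le_mul_of_nonneg_left hlog hu0.le
    _ = u * Real.log L + κ * (1 - k * u) := by field_simp

end
end CG3
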