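import Pool.Agent.CG3.Common
import Pool.Agent.CG3.J15
import Pool.Agent.CG3.K1
import Pool.Agent.CG3.K3

open MeasureTheory ProbabilityTheory
open scoped BigOperators

namespace CG3
noncomputable section

theorem lineA6_0 : ∀ u : ℝ, (10/49) ≤ u → u ≤ (259/1250) →
    Hs u ≤ u * Real.log (45411/10000) + (39/10000) * (1 - 6 * u) :=
  line_cell phi_cont phi_neg phi_rpow_integrable Is_pos fP f3 fpos (fR.2.1 _ le_rfl) cc_lo cc_hi
    (10/49) (259/1250) ((204081 : ℕ) / 10 ^ 6) ((41649 : ℕ) / 10 ^ 6) ((8499 : ℕ) / 10 ^ 6)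
    ((1734 : ℕ) / 10 ^ 6) ((4518603 : ℕ) / 10 ^ 6) (46957/10000000) (27461/12500) (45411/10000) (39/10000) 6
    (by norm_num) (by norm_num) (by norm_num) (by norm_num) (by norm_num) (by norm_num) (by norm_num)
    (by norm_num) (by norm_num) (by norm_num) (by norm_num)
    (Mint_le_of_evalM cc_lo cc_hi 204081 41649 8499 1734 4518603 (by norm_num) (by decide +kernel))
    (exp_neg_le_cert _ _ (by norm_num) (by norm_num) (by norm_num))
    (by norm_num) (by norm_num) (by norm_num) (by norm_num) (by norm_num)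

theorem lineA6_1 : ∀ u : ℝ, (259/1250) ≤ u → u ≤ (2113/10000) →
    Hs u ≤ u * Real.log (45411/10000) + (39/10000) * (1 - 6 * u) :=
  line_cell phi_cont phi_neg phi_rpow_integrable Is_pos fP f3 fpos (fR.2.1 _ le_rfl) cc_lo cc_hi
    (259/1250) (2113/10000) ((207200 : ℕ) / 10 ^ 6) ((42931 : ℕ) / 10 ^ 6) ((8895 : ℕ) / 10 ^ 6)
    ((1843 : ℕ) / 10 ^ 6) ((4516652 : ℕ) / 10 ^ 6) (56081/10000000) (108773/50000) (45411/10000) (39/10000) 6
    (by norm_num) (by norm_num) (by norm_num) (by norm_num) (by norm_num) (by norm_num) (by norm_num)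
    (by norm_num) (by norm_num) (by norm_num) (by norm_num)
    (Mint_le_of_evalM cc_lo cc_hi 207200 42931 8895 1843 4516652 (by norm_num) (by decide +kernel))
    (exp_neg_le_cert _ _ (by norm_num) (by norm_num) (by norm_num))
    (by norm_num) (by norm_num) (by norm_num) (by norm_num) (by norm_num)

theorem lineA6_2 : ∀ u : ℝ, (2113/10000) ≤ u → u ≤ (2167/10000) →
    Hs u ≤ u * Real.log (45411/10000) + (39/10000) * (1 - 6 * u) :=
  line_cell phi_cont phi_neg phi_rpow_integrable Is_pos fP f3 fpos (fR.2.1 _ le_rfl) cc_lo cc_hi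
    (2113/10000) (2167/10000) ((211300 : ℕ) / 10 ^ 6) ((44647 : ℕ) / 10 ^ 6) ((9434 : ℕ) / 10 ^ 6)
    ((1993 : ℕ) / 10 ^ 6) ((4514087 : ℕ) / 10 ^ 6) (14027/2000000) (107409/50000) (45411/10000) (39/10000) 6
    (by norm_num) (by norm_num) (by norm_num) (by norm_num) (by norm_num) (by norm_num) (by norm_num)
    (by norm_num) (by norm_num) (by norm_num) (by norm_num)
    (Mint_le_of_evalM cc_lo cc_hi 211300 44647 9434 1993 4514087 (by norm_num) (by decide +kernel))
    (exp_neg_le_cert _ _ (by norm_num) (by norm_num) (by norm_num))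
    (by norm_num) (by norm_num) (by norm_num) (by norm_num) (by norm_num)

theorem lineA6_3 : ∀ u : ℝ, (2167/10000) ≤ u → u ≤ (2239/10000) →
    Hs u ≤ u * Real.log (45411/10000) + (39/10000) * (1 - 6 * u) :=
  line_cell phi_cont phi_neg phi_rpow_integrable Is_pos fP f3 fpos (fR.2.1 _ le_rfl) cc_lo cc_hi
    (2167/10000) (2239/10000) ((216700 : ℕ) / 10 ^ 6) ((46958 : ℕ) / 10 ^ 6) ((10175 : ℕ) / 10 ^ 6)
    ((2205 : ℕ) / 10 ^ 6) ((4510711 : ℕ) / 10 ^ 6) (92929/10000000) (26417/12500) (45411/10000) (39/10000) 6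
    (by norm_num) (by norm_num) (by norm_num) (by norm_num) (by norm_num) (by norm_num) (by norm_num)
    (by norm_num) (by norm_num) (by norm_num) (by norm_num)
    (Mint_le_of_evalM cc_lo cc_hi 216700 46958 10175 2205 4510711 (by norm_num) (by decide +kernel))
    (exp_neg_le_cert _ _ (by norm_num) (by norm_num) (by norm_num))
    (by norm_num) (by norm_num) (by norm_num) (by norm_num) (by norm_num)

theorem lineA6_4 : ∀ u : ℝ, (2239/10000) ≤ u → u ≤ (146/625) →
    Hs u ≤ u * Real.log (45411/10000) + (39/10000) * (1 - 6 * u) :=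
  line_cell phi_cont phi_neg phi_rpow_integrable Is_pos fP f3 fpos (fR.2.1 _ le_rfl) cc_lo cc_hi
    (2239/10000) (146/625) ((223900 : ℕ) / 10 ^ 6) ((50131 : ℕ) / 10 ^ 6) ((11224 : ℕ) / 10 ^ 6)
    ((2513 : ℕ) / 10 ^ 6) ((4506212 : ℕ) / 10 ^ 6) (66051/5000000) (103451/50000) (45411/10000) (39/10000) 6
    (by norm_num) (by norm_num) (by norm_num) (by norm_num) (by norm_num) (by norm_num) (by norm_num)
    (by norm_num) (by norm_num) (by norm_num) (by norm_num)
    (Mint_le_of_evalM cc_lo cc_hi 223900 50131 11224 2513 4506212 (by norm_num) (by decide +kernel))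
    (exp_neg_le_cert _ _ (by norm_num) (by norm_num) (by norm_num))
    (by norm_num) (by norm_num) (by norm_num) (by norm_num) (by norm_num)

theorem lineA6_5 : ∀ u : ℝ, (146/625) ≤ u → u ≤ (154/625) →
    Hs u ≤ u * Real.log (45411/10000) + (39/10000) * (1 - 6 * u) :=
  line_cell phi_cont phi_neg phi_rpow_integrable Is_pos fP f3 fpos (fR.2.1 _ le_rfl) cc_lo cc_hi
    (146/625) (154/625) ((233600 : ℕ) / 10 ^ 6) ((54568 : ℕ) / 10 ^ 6) ((12747 : ℕ) / 10 ^ 6)
    ((2977 : ℕ) / 10 ^ 6) ((4500156 : ℕ) / 10 ^ 6) (25177/1250000) (12591/6250) (45411/10000) (39/10000) 6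
    (by norm_num) (by norm_num) (by norm_num) (by norm_num) (by norm_num) (by norm_num) (by norm_num)
    (by norm_num) (by norm_num) (by norm_num) (by norm_num)
    (Mint_le_of_evalM cc_lo cc_hi 233600 54568 12747 2977 4500156 (by norm_num) (by decide +kernel))
    (exp_neg_le_cert _ _ (by norm_num) (by norm_num) (by norm_num))
    (by norm_num) (by norm_num) (by norm_num) (by norm_num) (by norm_num)

theorem lineA6_6 : ∀ u : ℝ, (154/625) ≤ u → u ≤ (2627/10000) →
    Hs u ≤ u * Real.log (45411/10000) + (39/10000) * (1 - 6 * u) :=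
  line_cell phi_cont phi_neg phi_rpow_integrable Is_pos fP f3 fpos (fR.2.1 _ le_rfl) cc_lo cc_hi
    (154/625) (2627/10000) ((246400 : ℕ) / 10 ^ 6) ((60712 : ℕ) / 10 ^ 6) ((14959 : ℕ) / 10 ^ 6)
    ((3686 : ℕ) / 10 ^ 6) ((4492175 : ℕ) / 10 ^ 6) (162373/5000000) (97553/50000) (45411/10000) (39/10000) 6
    (by norm_num) (by norm_num) (by norm_num) (by norm_num) (by norm_num) (by norm_num) (by norm_num)
    (by norm_num) (by norm_num) (by norm_num) (by norm_num)
    (Mint_le_of_evalM cc_lo cc_hi 246400 60712 14959 3686 4492175 (by norm_num) (by decide +kernel))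
    (exp_neg_le_cert _ _ (by norm_num) (by norm_num) (by norm_num))
    (by norm_num) (by norm_num) (by norm_num) (by norm_num) (by norm_num)

theorem lineA6_7 : ∀ u : ℝ, (2627/10000) ≤ u → u ≤ (2819/10000) →
    Hs u ≤ u * Real.log (45411/10000) + (39/10000) * (1 - 6 * u) :=
  line_cell phi_cont phi_neg phi_rpow_integrable Is_pos fP f3 fpos (fR.2.1 _ le_rfl) cc_lo cc_hi
    (2627/10000) (2819/10000) ((262700 : ℕ) / 10 ^ 6) ((69011 : ℕ) / 10 ^ 6) ((18129 : ℕ) / 10 ^ 6)
    ((4762 : ℕ) / 10 ^ 6) ((4482031 : ℕ) / 10 ^ 6) (531057/10000000) (37669/20000) (45411/10000) (39/10000) 6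
    (by norm_num) (by norm_num) (by norm_num) (by norm_num) (by norm_num) (by norm_num) (by norm_num)
    (by norm_num) (by norm_num) (by norm_num) (by norm_num)
    (Mint_le_of_evalM cc_lo cc_hi 262700 69011 18129 4762 4482031 (by norm_num) (by decide +kernel))
    (exp_neg_le_cert _ _ (by norm_num) (by norm_num) (by norm_num))
    (by norm_num) (by norm_num) (by norm_num) (by norm_num) (by norm_num)

theorem lineA6_8 : ∀ u : ℝ, (2819/10000) ≤ u → u ≤ (1511/5000) →
    Hs u ≤ u * Real.log (45411/10000) + (39/10000) * (1 - 6 * u) :=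
  line_cell phi_cont phi_neg phi_rpow_integrable Is_pos fP f3 fpos (fR.2.1 _ le_rfl) cc_lo cc_hi
    (2819/10000) (1511/5000) ((281900 : ℕ) / 10 ^ 6) ((79467 : ℕ) / 10 ^ 6) ((22401 : ℕ) / 10 ^ 6)
    ((6315 : ℕ) / 10 ^ 6) ((4470115 : ℕ) / 10 ^ 6) (834571/10000000) (181909/100000) (45411/10000) (39/10000) 6
    (by norm_num) (by norm_num) (by norm_num) (by norm_num) (by norm_num) (by norm_num) (by norm_num)
    (by norm_num) (by norm_num) (by norm_num) (by norm_num)
    (Mint_le_of_evalM cc_lo cc_hi 281900 79467 22401 6315 4470115 (by norm_num) (by decide +kernel))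
    (exp_neg_le_cert _ _ (by norm_num) (by norm_num) (by norm_num))
    (by norm_num) (by norm_num) (by norm_num) (by norm_num) (by norm_num)

theorem lineA6_9 : ∀ u : ℝ, (1511/5000) ≤ u → u ≤ (1607/5000) →
    Hs u ≤ u * Real.log (45411/10000) + (39/10000) * (1 - 6 * u) :=
  line_cell phi_cont phi_neg phi_rpow_integrable Is_pos fP f3 fpos (fR.2.1 _ le_rfl) cc_lo cc_hi
    (1511/5000) (1607/5000) ((302200 : ℕ) / 10 ^ 6) ((91324 : ℕ) / 10 ^ 6) ((27598 : ℕ) / 10 ^ 6)
    ((8340 : ℕ) / 10 ^ 6) ((4457561 : ℕ) / 10 ^ 6) (1214309/10000000) (22049/12500) (45411/10000) (39/10000) 6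
    (by norm_num) (by norm_num) (by norm_num) (by norm_num) (by norm_num) (by norm_num) (by norm_num)
    (by norm_num) (by norm_num) (by norm_num) (by norm_num)
    (Mint_le_of_evalM cc_lo cc_hi 302200 91324 27598 8340 4457561 (by norm_num) (by decide +kernel))
    (exp_neg_le_cert _ _ (by norm_num) (by norm_num) (by norm_num))
    (by norm_num) (by norm_num) (by norm_num) (by norm_num) (by norm_num)

theorem lineA6_10 : ∀ u : ℝ, (1607/5000) ≤ u → u ≤ (1689/5000) →
    Hs u ≤ u * Real.log (45411/10000) + (39/10000) * (1 - 6 * u) :=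
  line_cell phi_cont phi_neg phi_rpow_integrable Is_pos fP f3 fpos (fR.2.1 _ le_rfl) cc_lo cc_hi
    (1607/5000) (1689/5000) ((321400 : ℕ) / 10 ^ 6) ((103297 : ℕ) / 10 ^ 6) ((33199 : ℕ) / 10 ^ 6)
    ((10670 : ℕ) / 10 ^ 6) ((4445735 : ℕ) / 10 ^ 6) (1617273/10000000) (172057/100000) (45411/10000) (39/10000) 6
    (by norm_num) (by norm_num) (by norm_num) (by norm_num) (by norm_num) (by norm_num) (by norm_num)
    (by norm_num) (by norm_num) (by norm_num) (by norm_num)
    (Mint_le_of_evalM cc_lo cc_hi 321400 103297 33199 10670 4445735 (by norm_num) (by decide +kernel))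
    (exp_neg_le_cert _ _ (by norm_num) (by norm_num) (by norm_num))
    (by norm_num) (by norm_num) (by norm_num) (by norm_num) (by norm_num)

theorem lineA6_11 : ∀ u : ℝ, (1689/5000) ≤ u → u ≤ (3507/10000) →
    Hs u ≤ u * Real.log (45411/10000) + (39/10000) * (1 - 6 * u) :=
  line_cell phi_cont phi_neg phi_rpow_integrable Is_pos fP f3 fpos (fR.2.1 _ le_rfl) cc_lo cc_hi
    (1689/5000) (3507/10000) ((337800 : ℕ) / 10 ^ 6) ((114108 : ℕ) / 10 ^ 6) ((38545 : ℕ) / 10 ^ 6)
    ((13020 : ℕ) / 10 ^ 6) ((4435674 : ℕ) / 10 ^ 6) (994189/5000000) (168863/100000) (45411/10000) (39/10000) 6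
    (by norm_num) (by norm_num) (by norm_num) (by norm_num) (by norm_num) (by norm_num) (by norm_num)
    (by norm_num) (by norm_num) (by norm_num) (by norm_num)
    (Mint_le_of_evalM cc_lo cc_hi 337800 114108 38545 13020 4435674 (by norm_num) (by decide +kernel))
    (exp_neg_le_cert _ _ (by norm_num) (by norm_num) (by norm_num))
    (by norm_num) (by norm_num) (by norm_num) (by norm_num) (by norm_num)

theorem lineA6_12 : ∀ u : ℝ, (3507/10000) ≤ u → u ≤ (9/25) →
    Hs u ≤ u * Real.log (45411/10000) + (39/10000) * (1 - 6 * u) :=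
  line_cell phi_cont phi_neg phi_rpow_integrable Is_pos fP f3 fpos (fR.2.1 _ le_rfl) cc_lo cc_hi
    (3507/10000) (9/25) ((350700 : ℕ) / 10 ^ 6) ((122990 : ℕ) / 10 ^ 6) ((43132 : ℕ) / 10 ^ 6)
    ((15126 : ℕ) / 10 ^ 6) ((4427787 : ℕ) / 10 ^ 6) (1143297/5000000) (166667/100000) (45411/10000) (39/10000) 6
    (by norm_num) (by norm_num) (by norm_num) (by norm_num) (by norm_num) (by norm_num) (by norm_num)
    (by norm_num) (by norm_num) (by norm_num) (by norm_num)
    (Mint_le_of_evalM cc_lo cc_hi 350700 122990 43132 15126 4427787 (by norm_num) (by decide +kernel))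
    (exp_neg_le_cert _ _ (by norm_num) (by norm_num) (by norm_num))
    (by norm_num) (by norm_num) (by norm_num) (by norm_num) (by norm_num)

theorem lineA6 : ∀ u : ℝ, (10/49) ≤ u → u ≤ (9/25) →
    Hs u ≤ u * Real.log (45411/10000) + (39/10000) * (1 - 6 * u) := by
  intro u h1 h2

  rcases le_total u (259/1250) with h | h
  · exact lineA6_0 u (h1) h
  have h0 := h
  clear h

  rcases le_total u (2113/10000) with h | h
  · exact lineA6_1 u (h0) h
  have h0 := h
  clear h

  rcases le_total u (2167/10000) with h | h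
  · exact lineA6_2 u (h0) h
  have h0 := h
  clear h

  rcases le_total u (2239/10000) with h | h
  · exact lineA6_3 u (h0) h
  have h0 := h
  clear h

  rcases le_total u (146/625) with h | h
  · exact lineA6_4 u (h0) h
  have h0 := h
  clear h

  rcases le_total u (154/625) with h | h
  · exact lineA6_5 u (h0) h
  have h0 := h
  clear h

  rcases le_total u (2627/10000) with h | h
  · exact lineA6_6 u (h0) h
  have h0 := h
  clear h

  rcases le_total u (2819/10000) with h | h
  · exact lineA6_7 u (h0) h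
  have h0 := h
  clear h

  rcases le_total u (1511/5000) with h | h
  · exact lineA6_8 u (h0) h
  have h0 := h
  clear h

  rcases le_total u (1607/5000) with h | h
  · exact lineA6_9 u (h0) h
  have h0 := h
  clear h

  rcases le_total u (1689/5000) with h | h
  · exact lineA6_10 u (h0) h
  have h0 := h
  clear h

  rcases le_total u (3507/10000) with h | h
  · exact lineA6_11 u (h0) h
  have h0 := h
  clear h

  exact lineA6_12 u h0 h2

theorem lineA5_0 : ∀ u : ℝ, (47/500) ≤ u → u ≤ (1261/10000) →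
    Hs u ≤ u * Real.log (113307/25000) + (9/2000) * (1 - 5 * u) :=
  line_cell phi_cont phi_neg phi_rpow_integrable Is_pos fP f3 fpos (fR.2.1 _ le_rfl) cc_lo cc_hi
    (47/500) (1261/10000) ((94000 : ℕ) / 10 ^ 6) ((8836 : ℕ) / 10 ^ 6) ((830 : ℕ) / 10 ^ 6)
    ((78 : ℕ) / 10 ^ 6) ((4587508 : ℕ) / 10 ^ 6) (67/5000000) (281607/100000) (113307/25000) (9/2000) 5
    (by norm_num) (by norm_num) (by norm_num) (by norm_num) (by norm_num) (by norm_num) (by norm_num)
    (by norm_num) (by norm_num) (by norm_num) (by norm_num)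
    (Mint_le_of_evalM cc_lo cc_hi 94000 8836 830 78 4587508 (by norm_num) (by decide +kernel))
    (exp_neg_le_cert _ _ (by norm_num) (by norm_num) (by norm_num))
    (by norm_num) (by norm_num) (by norm_num) (by norm_num) (by norm_num)

theorem lineA5_1 : ∀ u : ℝ, (1261/10000) ≤ u → u ≤ (1463/10000) →
    Hs u ≤ u * Real.log (113307/25000) + (9/2000) * (1 - 5 * u) :=
  line_cell phi_cont phi_neg phi_rpow_integrable Is_pos fP f3 fpos (fR.2.1 _ le_rfl) cc_lo cc_hi
    (1261/10000) (1463/10000) ((126100 : ℕ) / 10 ^ 6) ((15901 : ℕ) / 10 ^ 6) ((2005 : ℕ) / 10 ^ 6)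
    ((252 : ℕ) / 10 ^ 6) ((4567443 : ℕ) / 10 ^ 6) (1049/10000000) (65361/25000) (113307/25000) (9/2000) 5
    (by norm_num) (by norm_num) (by norm_num) (by norm_num) (by norm_num) (by norm_num) (by norm_num)
    (by norm_num) (by norm_num) (by norm_num) (by norm_num)
    (Mint_le_of_evalM cc_lo cc_hi 126100 15901 2005 252 4567443 (by norm_num) (by decide +kernel))
    (exp_neg_le_cert _ _ (by norm_num) (by norm_num) (by norm_num))
    (by norm_num) (by norm_num) (by norm_num) (by norm_num) (by norm_num)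

theorem lineA5_2 : ∀ u : ℝ, (1463/10000) ≤ u → u ≤ (809/5000) →
    Hs u ≤ u * Real.log (113307/25000) + (9/2000) * (1 - 5 * u) :=
  line_cell phi_cont phi_neg phi_rpow_integrable Is_pos fP f3 fpos (fR.2.1 _ le_rfl) cc_lo cc_hi
    (1463/10000) (809/5000) ((146300 : ℕ) / 10 ^ 6) ((21403 : ℕ) / 10 ^ 6) ((3131 : ℕ) / 10 ^ 6)
    ((458 : ℕ) / 10 ^ 6) ((4554794 : ℕ) / 10 ^ 6) (903/2500000) (124303/50000) (113307/25000) (9/2000) 5
    (by norm_num) (by norm_num) (by norm_num) (by norm_num) (by norm_num) (by norm_num) (by norm_num)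
    (by norm_num) (by norm_num) (by norm_num) (by norm_num)
    (Mint_le_of_evalM cc_lo cc_hi 146300 21403 3131 458 4554794 (by norm_num) (by decide +kernel))
    (exp_neg_le_cert _ _ (by norm_num) (by norm_num) (by norm_num))
    (by norm_num) (by norm_num) (by norm_num) (by norm_num) (by norm_num)

theorem lineA5_3 : ∀ u : ℝ, (809/5000) ≤ u → u ≤ (351/2000) →
    Hs u ≤ u * Real.log (113307/25000) + (9/2000) * (1 - 5 * u) :=
  line_cell phi_cont phi_neg phi_rpow_integrable Is_pos fP f3 fpos (fR.2.1 _ le_rfl) cc_lo cc_hi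
    (809/5000) (351/2000) ((161800 : ℕ) / 10 ^ 6) ((26179 : ℕ) / 10 ^ 6) ((4235 : ℕ) / 10 ^ 6)
    ((685 : ℕ) / 10 ^ 6) ((4545083 : ℕ) / 10 ^ 6) (9001/10000000) (47741/20000) (113307/25000) (9/2000) 5
    (by norm_num) (by norm_num) (by norm_num) (by norm_num) (by norm_num) (by norm_num) (by norm_num)
    (by norm_num) (by norm_num) (by norm_num) (by norm_num)
    (Mint_le_of_evalM cc_lo cc_hi 161800 26179 4235 685 4545083 (by norm_num) (by decide +kernel))
    (exp_neg_le_cert _ _ (by norm_num) (by norm_num) (by norm_num))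
    (by norm_num) (by norm_num) (by norm_num) (by norm_num) (by norm_num)

theorem lineA5_4 : ∀ u : ℝ, (351/2000) ≤ u → u ≤ (1891/10000) →
    Hs u ≤ u * Real.log (113307/25000) + (9/2000) * (1 - 5 * u) :=
  line_cell phi_cont phi_neg phi_rpow_integrable Is_pos fP f3 fpos (fR.2.1 _ le_rfl) cc_lo cc_hi
    (351/2000) (1891/10000) ((175500 : ℕ) / 10 ^ 6) ((30800 : ℕ) / 10 ^ 6) ((5405 : ℕ) / 10 ^ 6)
    ((948 : ℕ) / 10 ^ 6) ((4536500 : ℕ) / 10 ^ 6) (9781/5000000) (114981/50000) (113307/25000) (9/2000) 5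
    (by norm_num) (by norm_num) (by norm_num) (by norm_num) (by norm_num) (by norm_num) (by norm_num)
    (by norm_num) (by norm_num) (by norm_num) (by norm_num)
    (Mint_le_of_evalM cc_lo cc_hi 175500 30800 5405 948 4536500 (by norm_num) (by decide +kernel))
    (exp_neg_le_cert _ _ (by norm_num) (by norm_num) (by norm_num))
    (by norm_num) (by norm_num) (by norm_num) (by norm_num) (by norm_num)

theorem lineA5_5 : ∀ u : ℝ, (1891/10000) ≤ u → u ≤ (2041/10000) →
    Hs u ≤ u * Real.log (113307/25000) + (9/2000) * (1 - 5 * u) :=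
  line_cell phi_cont phi_neg phi_rpow_integrable Is_pos fP f3 fpos (fR.2.1 _ le_rfl) cc_lo cc_hi
    (1891/10000) (2041/10000) ((189100 : ℕ) / 10 ^ 6) ((35758 : ℕ) / 10 ^ 6) ((6761 : ℕ) / 10 ^ 6)
    ((1278 : ℕ) / 10 ^ 6) ((4527981 : ℕ) / 10 ^ 6) (1277/312500) (4427/2000) (113307/25000) (9/2000) 5
    (by norm_num) (by norm_num) (by norm_num) (by norm_num) (by norm_num) (by norm_num) (by norm_num)
    (by norm_num) (by norm_num) (by norm_num) (by norm_num)
    (Mint_le_of_evalM cc_lo cc_hi 189100 35758 6761 1278 4527981 (by norm_num) (by decide +kernel))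
    (exp_neg_le_cert _ _ (by norm_num) (by norm_num) (by norm_num))
    (by norm_num) (by norm_num) (by norm_num) (by norm_num) (by norm_num)

theorem lineA5_6 : ∀ u : ℝ, (2041/10000) ≤ u → u ≤ (1109/5000) →
    Hs u ≤ u * Real.log (113307/25000) + (9/2000) * (1 - 5 * u) :=
  line_cell phi_cont phi_neg phi_rpow_integrable Is_pos fP f3 fpos (fR.2.1 _ le_rfl) cc_lo cc_hi
    (2041/10000) (1109/5000) ((204100 : ℕ) / 10 ^ 6) ((41656 : ℕ) / 10 ^ 6) ((8502 : ℕ) / 10 ^ 6)
    ((1735 : ℕ) / 10 ^ 6) ((4518591 : ℕ) / 10 ^ 6) (10721/1250000) (106167/50000) (113307/25000) (9/2000) 5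
    (by norm_num) (by norm_num) (by norm_num) (by norm_num) (by norm_num) (by norm_num) (by norm_num)
    (by norm_num) (by norm_num) (by norm_num) (by norm_num)
    (Mint_le_of_evalM cc_lo cc_hi 204100 41656 8502 1735 4518591 (by norm_num) (by decide +kernel))
    (exp_neg_le_cert _ _ (by norm_num) (by norm_num) (by norm_num))
    (by norm_num) (by norm_num) (by norm_num) (by norm_num) (by norm_num)

theorem lineA5_7 : ∀ u : ℝ, (1109/5000) ≤ u → u ≤ (1217/5000) →
    Hs u ≤ u * Real.log (113307/25000) + (9/2000) * (1 - 5 * u) :=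
  line_cell phi_cont phi_neg phi_rpow_integrable Is_pos fP f3 fpos (fR.2.1 _ le_rfl) cc_lo cc_hi
    (1109/5000) (1217/5000) ((221800 : ℕ) / 10 ^ 6) ((49195 : ℕ) / 10 ^ 6) ((10911 : ℕ) / 10 ^ 6)
    ((2420 : ℕ) / 10 ^ 6) ((4507524 : ℕ) / 10 ^ 6) (11449/625000) (101347/50000) (113307/25000) (9/2000) 5
    (by norm_num) (by norm_num) (by norm_num) (by norm_num) (by norm_num) (by norm_num) (by norm_num)
    (by norm_num) (by norm_num) (by norm_num) (by norm_num)
    (Mint_le_of_evalM cc_lo cc_hi 221800 49195 10911 2420 4507524 (by norm_num) (by decide +kernel))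
    (exp_neg_le_cert _ _ (by norm_num) (by norm_num) (by norm_num))
    (by norm_num) (by norm_num) (by norm_num) (by norm_num) (by norm_num)

theorem lineA5_8 : ∀ u : ℝ, (1217/5000) ≤ u → u ≤ (1343/5000) →
    Hs u ≤ u * Real.log (113307/25000) + (9/2000) * (1 - 5 * u) :=
  line_cell phi_cont phi_neg phi_rpow_integrable Is_pos fP f3 fpos (fR.2.1 _ le_rfl) cc_lo cc_hi
    (1217/5000) (1343/5000) ((243400 : ℕ) / 10 ^ 6) ((59243 : ℕ) / 10 ^ 6) ((14419 : ℕ) / 10 ^ 6)
    ((3509 : ℕ) / 10 ^ 6) ((4494045 : ℕ) / 10 ^ 6) (190283/5000000) (192951/100000) (113307/25000) (9/2000) 5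
    (by norm_num) (by norm_num) (by norm_num) (by norm_num) (by norm_num) (by norm_num) (by norm_num)
    (by norm_num) (by norm_num) (by norm_num) (by norm_num)
    (Mint_le_of_evalM cc_lo cc_hi 243400 59243 14419 3509 4494045 (by norm_num) (by decide +kernel))
    (exp_neg_le_cert _ _ (by norm_num) (by norm_num) (by norm_num))
    (by norm_num) (by norm_num) (by norm_num) (by norm_num) (by norm_num)

theorem lineA5_9 : ∀ u : ℝ, (1343/5000) ≤ u → u ≤ (2953/10000) →
    Hs u ≤ u * Real.log (113307/25000) + (9/2000) * (1 - 5 * u) :=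
  line_cell phi_cont phi_neg phi_rpow_integrable Is_pos fP f3 fpos (fR.2.1 _ le_rfl) cc_lo cc_hi
    (1343/5000) (2953/10000) ((268600 : ℕ) / 10 ^ 6) ((72145 : ℕ) / 10 ^ 6) ((19378 : ℕ) / 10 ^ 6)
    ((5205 : ℕ) / 10 ^ 6) ((4478365 : ℕ) / 10 ^ 6) (72071/1000000) (92011/50000) (113307/25000) (9/2000) 5
    (by norm_num) (by norm_num) (by norm_num) (by norm_num) (by norm_num) (by norm_num) (by norm_num)
    (by norm_num) (by norm_num) (by norm_num) (by norm_num)
    (Mint_le_of_evalM cc_lo cc_hi 268600 72145 19378 5205 4478365 (by norm_num) (by decide +kernel))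
    (exp_neg_le_cert _ _ (by norm_num) (by norm_num) (by norm_num))
    (by norm_num) (by norm_num) (by norm_num) (by norm_num) (by norm_num)

theorem lineA5_10 : ∀ u : ℝ, (2953/10000) ≤ u → u ≤ (3201/10000) →
    Hs u ≤ u * Real.log (113307/25000) + (9/2000) * (1 - 5 * u) :=
  line_cell phi_cont phi_neg phi_rpow_integrable Is_pos fP f3 fpos (fR.2.1 _ le_rfl) cc_lo cc_hi
    (2953/10000) (3201/10000) ((295300 : ℕ) / 10 ^ 6) ((87202 : ℕ) / 10 ^ 6) ((25750 : ℕ) / 10 ^ 6)
    ((7604 : ℕ) / 10 ^ 6) ((4461822 : ℕ) / 10 ^ 6) (592773/5000000) (707/400) (113307/25000) (9/2000) 5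
    (by norm_num) (by norm_num) (by norm_num) (by norm_num) (by norm_num) (by norm_num) (by norm_num)
    (by norm_num) (by norm_num) (by norm_num) (by norm_num)
    (Mint_le_of_evalM cc_lo cc_hi 295300 87202 25750 7604 4461822 (by norm_num) (by decide +kernel))
    (exp_neg_le_cert _ _ (by norm_num) (by norm_num) (by norm_num))
    (by norm_num) (by norm_num) (by norm_num) (by norm_num) (by norm_num)

theorem lineA5_11 : ∀ u : ℝ, (3201/10000) ≤ u → u ≤ (1703/5000) →
    Hs u ≤ u * Real.log (113307/25000) + (9/2000) * (1 - 5 * u) :=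
  line_cell phi_cont phi_neg phi_rpow_integrable Is_pos fP f3 fpos (fR.2.1 _ le_rfl) cc_lo cc_hi
    (3201/10000) (1703/5000) ((320100 : ℕ) / 10 ^ 6) ((102464 : ℕ) / 10 ^ 6) ((32798 : ℕ) / 10 ^ 6)
    ((10498 : ℕ) / 10 ^ 6) ((4446534 : ℕ) / 10 ^ 6) (169369/1000000) (42837/25000) (113307/25000) (9/2000) 5
    (by norm_num) (by norm_num) (by norm_num) (by norm_num) (by norm_num) (by norm_num) (by norm_num)
    (by norm_num) (by norm_num) (by norm_num) (by norm_num)
    (Mint_le_of_evalM cc_lo cc_hi 320100 102464 32798 10498 4446534 (by norm_num) (by decide +kernel))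
    (exp_neg_le_cert _ _ (by norm_num) (by norm_num) (by norm_num))
    (by norm_num) (by norm_num) (by norm_num) (by norm_num) (by norm_num)

theorem lineA5_12 : ∀ u : ℝ, (1703/5000) ≤ u → u ≤ (89/250) →
    Hs u ≤ u * Real.log (113307/25000) + (9/2000) * (1 - 5 * u) :=
  line_cell phi_cont phi_neg phi_rpow_integrable Is_pos fP f3 fpos (fR.2.1 _ le_rfl) cc_lo cc_hi
    (1703/5000) (89/250) ((340600 : ℕ) / 10 ^ 6) ((116008 : ℕ) / 10 ^ 6) ((39512 : ℕ) / 10 ^ 6)
    ((13457 : ℕ) / 10 ^ 6) ((4433959 : ℕ) / 10 ^ 6) (431027/2000000) (167601/100000) (113307/25000) (9/2000) 5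
    (by norm_num) (by norm_num) (by norm_num) (by norm_num) (by norm_num) (by norm_num) (by norm_num)
    (by norm_num) (by norm_num) (by norm_num) (by norm_num)
    (Mint_le_of_evalM cc_lo cc_hi 340600 116008 39512 13457 4433959 (by norm_num) (by decide +kernel))
    (exp_neg_le_cert _ _ (by norm_num) (by norm_num) (by norm_num))
    (by norm_num) (by norm_num) (by norm_num) (by norm_num) (by norm_num)

theorem lineA5_13 : ∀ u : ℝ, (89/250) ≤ u → u ≤ (9/25) →
    Hs u ≤ u * Real.log (113307/25000) + (9/2000) * (1 - 5 * u) :=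
  line_cell phi_cont phi_neg phi_rpow_integrable Is_pos fP f3 fpos (fR.2.1 _ le_rfl) cc_lo cc_hi
    (89/250) (9/25) ((356000 : ℕ) / 10 ^ 6) ((126736 : ℕ) / 10 ^ 6) ((45118 : ℕ) / 10 ^ 6)
    ((16062 : ℕ) / 10 ^ 6) ((4424554 : ℕ) / 10 ^ 6) (1143297/5000000) (166667/100000) (113307/25000) (9/2000) 5
    (by norm_num) (by norm_num) (by norm_num) (by norm_num) (by norm_num) (by norm_num) (by norm_num)
    (by norm_num) (by norm_num) (by norm_num) (by norm_num)
    (Mint_le_of_evalM cc_lo cc_hi 356000 126736 45118 16062 4424554 (by norm_num) (by decide +kernel))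
    (exp_neg_le_cert _ _ (by norm_num) (by norm_num) (by norm_num))
    (by norm_num) (by norm_num) (by norm_num) (by norm_num) (by norm_num)

theorem lineA5 : ∀ u : ℝ, (47/500) ≤ u → u ≤ (9/25) →
    Hs u ≤ u * Real.log (113307/25000) + (9/2000) * (1 - 5 * u) := by
  intro u h1 h2

  rcases le_total u (1261/10000) with h | h
  · exact lineA5_0 u (h1) h
  have h0 := h
  clear h

  rcases le_total u (1463/10000) with h | h
  · exact lineA5_1 u (h0) h
  have h0 := h
  clear h

  rcases le_total u (809/5000) with h | h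
  · exact lineA5_2 u (h0) h
  have h0 := h
  clear h

  rcases le_total u (351/2000) with h | h
  · exact lineA5_3 u (h0) h
  have h0 := h
  clear h

  rcases le_total u (1891/10000) with h | h
  · exact lineA5_4 u (h0) h
  have h0 := h
  clear h

  rcases le_total u (2041/10000) with h | h
  · exact lineA5_5 u (h0) h
  have h0 := h
  clear h

  rcases le_total u (1109/5000) with h | h
  · exact lineA5_6 u (h0) h
  have h0 := h
  clear h

  rcases le_total u (1217/5000) with h | h
  · exact lineA5_7 u (h0) h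
  have h0 := h
  clear h

  rcases le_total u (1343/5000) with h | h
  · exact lineA5_8 u (h0) h
  have h0 := h
  clear h

  rcases le_total u (2953/10000) with h | h
  · exact lineA5_9 u (h0) h
  have h0 := h
  clear h

  rcases le_total u (3201/10000) with h | h
  · exact lineA5_10 u (h0) h
  have h0 := h
  clear h

  rcases le_total u (1703/5000) with h | h
  · exact lineA5_11 u (h0) h
  have h0 := h
  clear h

  rcases le_total u (89/250) with h | h
  · exact lineA5_12 u (h0) h
  have h0 := h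
  clear h

  exact lineA5_13 u h0 h2

end
end CG3
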