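import Pool.Agent.CG3.T2Leaf

open MeasureTheory ProbabilityTheory
open scoped BigOperators

namespace CG3
noncomputable section

theorem strip_0 {F x y : ℝ} (hF : T2hyp 0 F x y) (hx1 : (9/25) ≤ x) (hx2 : x ≤ (19/50))
    (hy1 : 0 < y) (hy2 : y ≤ (1/20)) : F ≤ (114/25) := by
  obtain ⟨S2, S3, S4, S5, h1, h2, h3, h4, h5, h6⟩ := hF
  exact T2_cell0 cc_lo cc_hi Rt_nonneg fR.2.1 F x y S2 S3 S4 S5 (9/25) (19/50) (1/20)
    ((129600 : ℕ) / 10 ^ 6) ((46656 : ℕ) / 10 ^ 6) ((16796 : ℕ) / 10 ^ 6) ((6046 : ℕ) / 10 ^ 6)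
    (97/31250) (1/10000000) (273013/100000) ((4546374 : ℕ) / 10 ^ 6) (114/25) h1 (by linarith) (by linarith) h4 h5
    hx1 hx2 hy1 hy2 (by linarith) (by norm_num) (by norm_num) (by norm_num)
    (by norm_num) (by norm_num) (by norm_num) (by norm_num)
    (by norm_num) (by norm_num) (by norm_num) (by norm_num)
    (Mint_le_of_evalM cc_lo cc_hi 129600 46656 16796 6046 4546374 (by norm_num) (by decide +kernel))
    (exp_neg_le_cert _ _ (by norm_num) (by norm_num) (by norm_num))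
    (exp_neg_le_cert _ _ (by norm_num) (by norm_num) (by norm_num))
    (by norm_num) (by norm_num) (by norm_num)

theorem strip_1 {F x y : ℝ} (hF : T2hyp 0 F x y) (hx1 : (19/50) ≤ x) (hx2 : x ≤ (21/50))
    (hy1 : 0 < y) (hy2 : y ≤ (1/20)) : F ≤ (114/25) := by
  obtain ⟨S2, S3, S4, S5, h1, h2, h3, h4, h5, h6⟩ := hF
  exact T2_cell0 cc_lo cc_hi Rt_nonneg fR.2.1 F x y S2 S3 S4 S5 (19/50) (21/50) (1/20)
    ((144400 : ℕ) / 10 ^ 6) ((54872 : ℕ) / 10 ^ 6) ((20851 : ℕ) / 10 ^ 6) ((7923 : ℕ) / 10 ^ 6)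
    (9009/2000000) (1/10000000) (269347/100000) ((4534924 : ℕ) / 10 ^ 6) (114/25) h1 (by linarith) (by linarith) h4 h5
    hx1 hx2 hy1 hy2 (by linarith) (by norm_num) (by norm_num) (by norm_num)
    (by norm_num) (by norm_num) (by norm_num) (by norm_num)
    (by norm_num) (by norm_num) (by norm_num) (by norm_num)
    (Mint_le_of_evalM cc_lo cc_hi 144400 54872 20851 7923 4534924 (by norm_num) (by decide +kernel))
    (exp_neg_le_cert _ _ (by norm_num) (by norm_num) (by norm_num))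
    (exp_neg_le_cert _ _ (by norm_num) (by norm_num) (by norm_num))
    (by norm_num) (by norm_num) (by norm_num)

theorem strip_2 {F x y : ℝ} (hF : T2hyp 0 F x y) (hx1 : (21/50) ≤ x) (hx2 : x ≤ (21/40))
    (hy1 : 0 < y) (hy2 : y ≤ (1/20)) : F ≤ (114/25) := by
  obtain ⟨S2, S3, S4, S5, h1, h2, h3, h4, h5, h6⟩ := hF
  exact T2_cell0 cc_lo cc_hi Rt_nonneg fR.2.1 F x y S2 S3 S4 S5 (21/50) (21/40) (1/20)
    ((176400 : ℕ) / 10 ^ 6) ((74088 : ℕ) / 10 ^ 6) ((31116 : ℕ) / 10 ^ 6) ((13069 : ℕ) / 10 ^ 6)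
    (59877/5000000) (1/5000000) (65673/25000) ((4510609 : ℕ) / 10 ^ 6) (114/25) h1 (by linarith) (by linarith) h4 h5
    hx1 hx2 hy1 hy2 (by linarith) (by norm_num) (by norm_num) (by norm_num)
    (by norm_num) (by norm_num) (by norm_num) (by norm_num)
    (by norm_num) (by norm_num) (by norm_num) (by norm_num)
    (Mint_le_of_evalM cc_lo cc_hi 176400 74088 31116 13069 4510609 (by norm_num) (by decide +kernel))
    (exp_neg_le_cert _ _ (by norm_num) (by norm_num) (by norm_num))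
    (exp_neg_le_cert _ _ (by norm_num) (by norm_num) (by norm_num))
    (by norm_num) (by norm_num) (by norm_num)

theorem coverIII0 {F x y : ℝ} (hF : T2hyp 0 F x y) (hx1 : (9 / 25 : ℝ) ≤ x) (hx2 : x ≤ 21 / 40)
    (hy1 : 0 < y) (hy2 : y ≤ 1 / 20) : F ≤ 456 / 100 := by
  have e : (456 / 100 : ℝ) = 114 / 25 := by norm_num
  rw [e]
  rcases le_total x (19 / 50) with h | h
  · exact strip_0 hF hx1 h hy1 hy2
  rcases le_total x (21 / 50) with h' | h'
  · exact strip_1 hF h h' hy1 hy2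
  · exact strip_2 hF h' hx2 hy1 hy2

end
end CG3
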