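import Pool.Agent.CG3.Base2

open MeasureTheory ProbabilityTheory
open scoped BigOperators

namespace CG3
noncomputable section

theorem c0_integ (hc : cc < 1) {s2 s3 s4 s5 : ℝ} (h2 : 0 ≤ s2) (h3 : 0 ≤ s3) (h4 : 0 ≤ s4)
    (h5 : 0 ≤ s5) : IntegrableOn (fun x : ℝ =>
      Real.exp (-((1 - cc) / 2 * x ^ 2 + 374 / 100000 * s2 * x ^ 4 + 188 / 1000000 * s3 * x ^ 6
        + 113 / 10000000 * s4 * x ^ 8 + 737 / 1000000000 * s5 * x ^ 10))) (Set.Ioi 0) := by
  have ha : 0 < (1 - cc) / 2 := by linarith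
  refine Integrable.mono' (integrable_exp_neg_mul_sq ha).integrableOn ?_ ?_
  · exact Continuous.aestronglyMeasurable (by fun_prop)
  · refine Filter.Eventually.of_forall (fun x => ?_)
    rw [Real.norm_eq_abs, abs_of_pos (Real.exp_pos _), Real.exp_le_exp]
    have : 0 ≤ 374 / 100000 * s2 * x ^ 4 := by positivity
    have : 0 ≤ 188 / 1000000 * s3 * x ^ 6 := by positivity
    have : 0 ≤ 113 / 10000000 * s4 * x ^ 8 := by positivity
    have : 0 ≤ 737 / 1000000000 * s5 * x ^ 10 := by positivity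
    linarith

theorem c0_Mint (hc : cc < 1) {s2 s3 s4 s5 a2 a3 a4 a5 : ℝ} (ha2 : 0 ≤ a2) (ha3 : 0 ≤ a3)
    (ha4 : 0 ≤ a4) (ha5 : 0 ≤ a5) (h2 : a2 ≤ s2) (h3 : a3 ≤ s3) (h4 : a4 ≤ s4) (h5 : a5 ≤ s5) :
    Mint s2 s3 s4 s5 ≤ Mint a2 a3 a4 a5 := by
  unfold Mint
  refine mul_le_mul_of_nonneg_left ?_ (by norm_num)
  refine setIntegral_mono_on (c0_integ hc (ha2.trans h2) (ha3.trans h3) (ha4.trans h4)
    (ha5.trans h5)) (c0_integ hc ha2 ha3 ha4 ha5) measurableSet_Ioi ?_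
  intro x _
  rw [Real.exp_le_exp]
  have e4 : (0 : ℝ) ≤ x ^ 4 := by positivity
  have e6 : (0 : ℝ) ≤ x ^ 6 := by positivity
  have e8 : (0 : ℝ) ≤ x ^ 8 := by positivity
  have e10 : (0 : ℝ) ≤ x ^ 10 := by positivity
  have := mul_le_mul_of_nonneg_right h2 e4
  have := mul_le_mul_of_nonneg_right h3 e6
  have := mul_le_mul_of_nonneg_right h4 e8
  have := mul_le_mul_of_nonneg_right h5 e10
  linarith

theorem c0_tail {b b' : ℝ} (hb : 0 < b) (hbb : b ≤ b') :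
    ∫ ξ in Set.Ioi (8 : ℝ), Real.exp (-(b' * ξ ^ 2)) ≤ Real.exp (-(b * 8 ^ 2)) / (2 * b * 8) := by
  have hder : ∀ x ∈ Set.Ici (8 : ℝ), HasDerivAt (fun ξ : ℝ => -Real.exp (-(b * ξ ^ 2)) / (2 * b * 8))
      (x / 8 * Real.exp (-(b * x ^ 2))) x := by
    intro x _
    have h1 : HasDerivAt (fun ξ : ℝ => -(b * ξ ^ 2)) (-(b * (2 * x))) x := by
      have h2 := ((hasDerivAt_pow 2 x).const_mul b).fun_neg
      refine h2.congr_deriv ?_
      norm_num
    have h3 := (h1.exp.fun_neg).div_const (2 * b * 8)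
    refine h3.congr_deriv ?_
    field_simp
  have hpos : ∀ x ∈ Set.Ioi (8 : ℝ), 0 ≤ x / 8 * Real.exp (-(b * x ^ 2)) := by
    intro x hx
    have : (8 : ℝ) < x := hx
    positivity
  have hlim : Filter.Tendsto (fun ξ : ℝ => -Real.exp (-(b * ξ ^ 2)) / (2 * b * 8)) Filter.atTop
      (nhds 0) := by
    have h1 : Filter.Tendsto (fun ξ : ℝ => b * ξ ^ 2) Filter.atTop Filter.atTop :=
      (Filter.tendsto_pow_atTop (by norm_num)).const_mul_atTop hb
    have h2 := (Real.tendsto_exp_neg_atTop_nhds_zero.comp h1).neg.div_const (2 * b * 8)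
    simpa using h2
  have hint := integral_Ioi_of_hasDerivAt_of_nonneg' hder hpos hlim
  have hintg := integrableOn_Ioi_deriv_of_nonneg' hder hpos hlim
  have hb' : 0 < b' := lt_of_lt_of_le hb hbb
  have h1 : ∫ ξ in Set.Ioi (8 : ℝ), Real.exp (-(b' * ξ ^ 2)) ≤
      ∫ ξ in Set.Ioi (8 : ℝ), ξ / 8 * Real.exp (-(b * ξ ^ 2)) := by
    refine setIntegral_mono_on ?_ hintg measurableSet_Ioi ?_
    · have h2 := (integrable_exp_neg_mul_sq hb').integrableOn (s := Set.Ioi (8 : ℝ))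
      simpa only [neg_mul] using h2
    · intro x hx
      have hx8 : (8 : ℝ) < x := hx
      have h2 : Real.exp (-(b' * x ^ 2)) ≤ Real.exp (-(b * x ^ 2)) := by
        rw [Real.exp_le_exp]
        have := mul_le_mul_of_nonneg_right hbb (sq_nonneg x)
        linarith
      have h3 : Real.exp (-(b * x ^ 2)) ≤ x / 8 * Real.exp (-(b * x ^ 2)) := by
        have h4 : 1 ≤ x / 8 := by linarith
        have h5 := mul_le_mul_of_nonneg_right h4 (Real.exp_pos (-(b * x ^ 2))).le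
        linarith
      linarith
  rw [hint] at h1
  refine h1.trans (le_of_eq ?_)
  ring

theorem c0_log : (18971 / 10000 : ℝ) ≤ Real.log (20 / 3) := by
  have h1 : Real.log (20 / 3) = 3 * Real.log 2 - Real.log (6 / 5) := by
    have e : (20 / 3 : ℝ) = 2 ^ 3 / (6 / 5) := by norm_num
    rw [e, Real.log_div (by norm_num) (by norm_num), Real.log_pow]
    norm_num
  have h2 := Real.log_two_gt_d9
  have h3 : Real.log (6 / 5) ≤ 0.1823415409 := by
    rw [Real.log_le_iff_le_exp (by norm_num)]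
    have h4 := Real.sum_le_exp_of_nonneg (show (0 : ℝ) ≤ 0.1823415409 by norm_num) 5
    refine le_trans ?_ h4
    norm_num [Finset.sum_range_succ, Nat.factorial]
  rw [h1]
  norm_num at h2 h3 ⊢
  linarith

theorem c0_third {x y x1 x2 y2 e2 g : ℝ} (hx1 : x1 ≤ x) (hx2 : x ≤ x2) (hy1 : 0 < y)
    (hy2 : y ≤ y2) (hx10 : 0 < x1) (hx21 : x2 ≤ 3 / 5) (hr : y2 ≤ 1 / 10)
    (he2 : Real.exp (-(18971 / 10000 * ((1 - x2) / y2 - 1))) ≤ e2)
    (hg0 : 0 ≤ g) (hg : 1 ≤ g ^ 4 * (x1 * y2)) :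
    (3 / 20 : ℝ) ^ ((1 - x - y) / y) ≤ e2 * (g * √(√x * √y)) := by
  have hx0 : 0 < x := by linarith
  have hy20 : 0 < y2 := by linarith
  have hL := c0_log
  have hlog : Real.log (3 / 20) = -Real.log (20 / 3) := by
    rw [← Real.log_inv]
    norm_num
  have hp : (1 - x2) / y - 1 ≤ (1 - x - y) / y := by
    have e : (1 - x - y) / y = (1 - x) / y - 1 := by
      field_simp
    rw [e]
    have : (1 - x2) / y ≤ (1 - x) / y := by gcongr
    linarith
  have hp0 : 0 ≤ (1 - x2) / y - 1 := by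
    rw [sub_nonneg, le_div_iff₀ hy1]
    linarith
  have h1 : (3 / 20 : ℝ) ^ ((1 - x - y) / y) ≤
      Real.exp (-(18971 / 10000 * ((1 - x2) / y - 1))) := by
    rw [Real.rpow_def_of_pos (by norm_num), Real.exp_le_exp, hlog]
    have h2 : 18971 / 10000 * ((1 - x2) / y - 1) ≤ Real.log (20 / 3) * ((1 - x - y) / y) := by
      apply mul_le_mul hL hp hp0
      linarith
    linarith
  refine h1.trans ?_
  set s := 18971 / 10000 * (1 - x2) * (1 / y - 1 / y2) with hs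
  have h2 : Real.exp (-(18971 / 10000 * ((1 - x2) / y - 1))) =
      Real.exp (-(18971 / 10000 * ((1 - x2) / y2 - 1))) * Real.exp (-s) := by
    rw [← Real.exp_add]
    congr 1
    rw [hs]
    ring
  rw [h2]
  have hinv : 1 / y2 ≤ 1 / y := one_div_le_one_div_of_le hy1 hy2
  have h1x2 : (2 : ℝ) / 5 ≤ 1 - x2 := by linarith
  have hs0 : 0 ≤ s := by
    rw [hs]
    have : 0 ≤ 1 / y - 1 / y2 := by linarith
    have : 0 ≤ 1 - x2 := by linarith
    positivity
  set q := √(√x * √y) with hq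
  have hq0 : 0 ≤ q := Real.sqrt_nonneg _
  have hq4 : q ^ 4 = x * y := by
    have e1 : q ^ 2 = √x * √y := Real.sq_sqrt (by positivity)
    have e2 : √x ^ 2 = x := Real.sq_sqrt hx0.le
    have e3 : √y ^ 2 = y := Real.sq_sqrt hy1.le
    calc q ^ 4 = (q ^ 2) ^ 2 := by ring
      _ = (√x * √y) ^ 2 := by rw [e1]
      _ = √x ^ 2 * √y ^ 2 := by ring
      _ = x * y := by rw [e2, e3]
  have hkey : Real.exp (-s) ≤ g * q := by
    have h3 : Real.exp (-s) ^ 4 ≤ (g * q) ^ 4 := by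
      have h4 : Real.exp (-s) ^ 4 = (Real.exp (4 * s))⁻¹ := by
        rw [← Real.exp_nat_mul, ← Real.exp_neg]
        congr 1
        push_cast
        ring
      have h5 : 1 + 4 * s ≤ Real.exp (4 * s) := by
        have := Real.add_one_le_exp (4 * s)
        linarith
      have h6 : y2 / y ≤ 1 + 4 * s := by
        have h7 : y2 / y - 1 = y2 * (1 / y - 1 / y2) := by
          field_simp
        have h8 : y2 * (1 / y - 1 / y2) ≤ 4 * s := by
          rw [hs]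
          have h9 : 0 ≤ 1 / y - 1 / y2 := by linarith
          have h10 : y2 ≤ 4 * (18971 / 10000 * (1 - x2)) := by linarith
          have h11 := mul_le_mul_of_nonneg_right h10 h9
          linarith
        linarith
      have h7 : Real.exp (-s) ^ 4 ≤ y / y2 := by
        rw [h4, ← inv_div]
        exact inv_anti₀ (by positivity) (h6.trans h5)
      have h8 : y / y2 ≤ (g * q) ^ 4 := by
        rw [mul_pow, hq4, div_le_iff₀ hy20]
        have h9 : y * 1 ≤ y * (g ^ 4 * (x1 * y2)) := mul_le_mul_of_nonneg_left hg hy1.le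
        have h10 : g ^ 4 * (x1 * y * y2) ≤ g ^ 4 * (x * y * y2) := by gcongr
        calc y = y * 1 := by ring
          _ ≤ y * (g ^ 4 * (x1 * y2)) := h9
          _ = g ^ 4 * (x1 * y * y2) := by ring
          _ ≤ g ^ 4 * (x * y * y2) := h10
          _ = g ^ 4 * (x * y) * y2 := by ring
      exact h7.trans h8
    exact le_of_pow_le_pow_left₀ (by norm_num) (by positivity) h3
  exact mul_le_mul he2 hkey (Real.exp_pos _).le ((Real.exp_pos _).le.trans he2)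

/-- verification of one strip `x ∈ [x1,x2]`, `0 < y ≤ y2` for the majorant bound -/
theorem T2_cell0 (hc1 : (0.708874905227206 : ℝ) ≤ cc) (hc2 : cc ≤ (0.708874905227208 : ℝ))
    (hR0 : ∀ T : ℝ, 0 ≤ Rt T)
    (hR1 : ∀ T : ℝ, 69 / 20 ≤ T → Rt T ≤ 720 / 10000)
    (F x y S2 S3 S4 S5 x1 x2 y2 A2 A3 A4 A5 e1 e2 g B target : ℝ)
    (hF : F ≤ Mint S2 S3 S4 S5
      + 3 / 10 * (∫ ξ in Set.Ioi (min (69 / 20 / √y) 8),
          Real.exp (-((1 - cc) * (1 - x) / 2 * ξ ^ 2)))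
      + (3 / 20 : ℝ) ^ ((1 - x - y) / y) * (2 / √(√x * √y))
          * √(Rt (181 / 50 * √x / √y) * Rt (181 / 50)))
    (hS2 : x ^ 2 + y ^ 2 ≤ S2) (hS3 : x ^ 3 + y ^ 3 ≤ S3)
    (hS4 : x ^ 4 + y ^ 4 ≤ S4) (hS5 : x ^ 5 + y ^ 5 ≤ S5)
    (hx1 : x1 ≤ x) (hx2 : x ≤ x2) (hy1 : 0 < y) (hy2 : y ≤ y2) (hyx : y ≤ x)
    (hx10 : 0 < x1) (hx21 : x2 ≤ 3 / 5) (hr : y2 ≤ 1 / 10)
    (hA20 : 0 ≤ A2) (hA30 : 0 ≤ A3) (hA40 : 0 ≤ A4) (hA50 : 0 ≤ A5)
    (hA2 : A2 ≤ x1 ^ 2) (hA3 : A3 ≤ x1 ^ 3) (hA4 : A4 ≤ x1 ^ 4) (hA5 : A5 ≤ x1 ^ 5)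
    (hM : Mint A2 A3 A4 A5 ≤ B)
    (he1 : Real.exp (-(1455625 / 10000000 * (1 - x2) * 8 ^ 2)) ≤ e1)
    (he2 : Real.exp (-(18971 / 10000 * ((1 - x2) / y2 - 1))) ≤ e2)
    (hg0 : 0 ≤ g) (hg : 1 ≤ g ^ 4 * (x1 * y2))
    (hfin : B + 3 / 10 * (e1 / (2 * (1455625 / 10000000 * (1 - x2)) * 8)) + 2 * e2 * g * (72 / 1000)
      ≤ target) :
    F ≤ target := by
  have hcc : cc < 1 := by linarith
  have hx0 : 0 < x := by linarith
  have hy20 : 0 < y2 := by linarith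
  -- first part
  have hM1 : Mint S2 S3 S4 S5 ≤ B := by
    refine le_trans (c0_Mint hcc hA20 hA30 hA40 hA50 ?_ ?_ ?_ ?_) hM
    · have : x1 ^ 2 ≤ x ^ 2 := pow_le_pow_left₀ hx10.le hx1 2
      have : 0 ≤ y ^ 2 := by positivity
      linarith
    · have : x1 ^ 3 ≤ x ^ 3 := pow_le_pow_left₀ hx10.le hx1 3
      have : 0 ≤ y ^ 3 := by positivity
      linarith
    · have : x1 ^ 4 ≤ x ^ 4 := pow_le_pow_left₀ hx10.le hx1 4
      have : 0 ≤ y ^ 4 := by positivity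
      linarith
    · have : x1 ^ 5 ≤ x ^ 5 := pow_le_pow_left₀ hx10.le hx1 5
      have : 0 ≤ y ^ 5 := by positivity
      linarith
  -- second part
  have hmin : min (69 / 20 / √y) 8 = 8 := by
    apply min_eq_right
    have hsy : 0 < √y := Real.sqrt_pos.2 hy1
    rw [le_div_iff₀ hsy]
    have h1 : √y ≤ 2 / 5 := by
      rw [Real.sqrt_le_left (by norm_num)]
      norm_num
      linarith
    linarith
  have hb0 : 0 < 1455625 / 10000000 * (1 - x2) := by
    have : 0 < 1 - x2 := by linarith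
    positivity
  have hbb : 1455625 / 10000000 * (1 - x2) ≤ (1 - cc) * (1 - x) / 2 := by
    have h1 : (1455625 / 10000000 : ℝ) ≤ (1 - cc) / 2 := by
      norm_num at hc2 ⊢
      linarith
    have h2 : 1 - x2 ≤ 1 - x := by linarith
    have h3 := mul_le_mul h1 h2 (by linarith) (by linarith)
    linarith
  have hI : (∫ ξ in Set.Ioi (min (69 / 20 / √y) 8),
      Real.exp (-((1 - cc) * (1 - x) / 2 * ξ ^ 2))) ≤
        e1 / (2 * (1455625 / 10000000 * (1 - x2)) * 8) := by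
    rw [hmin]
    refine (c0_tail hb0 hbb).trans ?_
    gcongr
  -- third part
  have h3 := c0_third hx1 hx2 hy1 hy2 hx10 hx21 hr he2 hg0 hg
  have hq0 : 0 < √(√x * √y) :=
    Real.sqrt_pos.2 (mul_pos (Real.sqrt_pos.2 hx0) (Real.sqrt_pos.2 hy1))
  have hT : (69 / 20 : ℝ) ≤ 181 / 50 * √x / √y := by
    rw [le_div_iff₀ (Real.sqrt_pos.2 hy1)]
    have h4 : √y ≤ √x := Real.sqrt_le_sqrt hyx
    have h5 : 0 ≤ √x := Real.sqrt_nonneg x
    linarith
  have hRR : √(Rt (181 / 50 * √x / √y) * Rt (181 / 50)) ≤ 72 / 1000 := by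
    rw [Real.sqrt_le_left (by norm_num)]
    have h4 := hR1 _ hT
    have h5 := hR1 (181 / 50) (by norm_num)
    have h6 := mul_le_mul h4 h5 (hR0 _) (by norm_num)
    norm_num at h6 ⊢
    linarith
  have he20 : 0 ≤ e2 := (Real.exp_pos _).le.trans he2
  have hE0 : 0 ≤ (3 / 20 : ℝ) ^ ((1 - x - y) / y) := by positivity
  have h7 : (3 / 20 : ℝ) ^ ((1 - x - y) / y) * (2 / √(√x * √y)) ≤ 2 * e2 * g := by
    rw [mul_div_assoc', div_le_iff₀ hq0]
    linarith
  have h8 : (3 / 20 : ℝ) ^ ((1 - x - y) / y) * (2 / √(√x * √y))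
      * √(Rt (181 / 50 * √x / √y) * Rt (181 / 50)) ≤ 2 * e2 * g * (72 / 1000) :=
    mul_le_mul h7 hRR (Real.sqrt_nonneg _) (by positivity)
  linarith

end
end CG3
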