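import Pool.Agent.CG3.Common
import Pool.Agent.CG3.J15
import Pool.Agent.CG3.K1
import Pool.Agent.CG3.K1b

open MeasureTheory ProbabilityTheory
open scoped BigOperators

namespace CG3
noncomputable section

/-- hypotheses on the integral `F` in terms of the two largest squares `x ≥ y` -/
def T2hyp (κ F x y : ℝ) : Prop := ∃ S2 S3 S4 S5 : ℝ,
  (F ≤ Mint S2 S3 S4 S5
      + 3 / 10 * (∫ ξ in Set.Ioi (min (69 / 20 / √y) 8),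
          Real.exp (-((1 - cc) * (1 - x) / 2 * ξ ^ 2)))
      + (3 / 20 : ℝ) ^ ((1 - x - y) / y) * (2 / √(√x * √y))
          * √(Rt (181 / 50 * √x / √y) * Rt (181 / 50))) ∧
  x ^ 2 + y ^ 2 + κ * (1 - x - y) ^ 2 ≤ S2 ∧ x ^ 3 + y ^ 3 + κ ^ 2 * (1 - x - y) ^ 3 ≤ S3 ∧
  x ^ 4 + y ^ 4 ≤ S4 ∧ x ^ 5 + y ^ 5 ≤ S5 ∧ x + y ≤ 1

theorem T2_leaf {κ F x y : ℝ} (hF : T2hyp κ F x y) (hκ : 0 ≤ κ) (a b c d Bn : ℕ)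
    (x1 x2 y1 y2 w Ξ e1 e2 g h ρ target : ℝ)
    (hx1 : x1 ≤ x) (hx2 : x ≤ x2) (hy1 : y1 ≤ y) (hy2 : y ≤ y2)
    (hx10 : 0 < x1) (hy10 : 0 < y1) (hx21 : x2 < 1) (hr : y2 ≤ 1 - x2) (ha : 70000 ≤ a)
    (hA2 : ∀ X ∈ ({x1, x2} : Set ℝ), ∀ Y ∈ ({y1, y2} : Set ℝ),
      ((a : ℝ) / 10 ^ 6) ≤ ((x1 + x2) / 2) ^ 2 + ((y1 + y2) / 2) ^ 2
        + κ * (1 - (x1 + x2) / 2 - (y1 + y2) / 2) ^ 2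
        + (x1 + x2) * (X - (x1 + x2) / 2) + (y1 + y2) * (Y - (y1 + y2) / 2)
        - 2 * κ * (1 - (x1 + x2) / 2 - (y1 + y2) / 2) * ((X - (x1 + x2) / 2) + (Y - (y1 + y2) / 2)))
    (hw0 : 0 ≤ w) (hw : w = 0 ∨ w ≤ 1 - x2 - y2)
    (hA3 : ((b : ℝ) / 10 ^ 6) ≤ x1 ^ 3 + y1 ^ 3 + κ ^ 2 * w ^ 3)
    (hA4 : ((c : ℝ) / 10 ^ 6) ≤ x1 ^ 4 + y1 ^ 4) (hA5 : ((d : ℝ) / 10 ^ 6) ≤ x1 ^ 5 + y1 ^ 5)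
    (hM : evalM a b c d ≤ Bn)
    (hΞ0 : 0 < Ξ) (hΞ8 : Ξ ≤ 8) (hΞ : Ξ ^ 2 * y2 ≤ (69 / 20) ^ 2)
    (he1 : Real.exp (-(1455625 / 10000000 * (1 - x2) * Ξ ^ 2)) ≤ e1)
    (he2 : Real.exp (-(18971 / 10000 * ((1 - x2) / y2 - 1))) ≤ e2)
    (hg0 : 0 ≤ g) (hg : 1 ≤ g ^ 4 * (x1 * y1))
    (hρ : ∀ T : ℝ, 0 ≤ T → (181 / 50) ^ 2 * x1 / y2 ≤ T ^ 2 → Rt T ≤ ρ)
    (hh0 : 0 ≤ h) (hh : ρ * (720 / 10000) ≤ h ^ 2)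
    (hfin : (Bn : ℝ) / 10 ^ 6 + 3 / 10 * (e1 / (2 * (1455625 / 10000000 * (1 - x2)) * Ξ))
      + 2 * e2 * g * h ≤ target) :
    F ≤ target := by
  obtain ⟨S2, S3, S4, S5, h1, h2, h3, h4, h5, h6⟩ := hF
  exact T2_cell cc_lo cc_hi Rt_nonneg fR.2.1 F x y S2 S3 S4 S5 κ x1 x2 y1 y2 _ _ _ _ w Ξ e1 e2 g h ρ
    _ target h1 hκ h6 h2 h3 h4 h5 hx1 hx2 hy1 hy2 hx10 hy10 hx21 hr (by positivity) (by positivity)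
    (by positivity) (by positivity) hA2 hw0 hw hA3 hA4 hA5
    (Mint_le_of_evalM cc_lo cc_hi a b c d Bn ha hM) hΞ0 hΞ8 hΞ he1 he2 hg0 hg hρ hh0 hh hfin

theorem rho1 (z : ℝ) (hz : (69 / 20 : ℝ) ^ 2 ≤ z) :
    ∀ T : ℝ, 0 ≤ T → z ≤ T ^ 2 → Rt T ≤ 720 / 10000 := by
  intro T hT h
  exact fR.2.1 T (by nlinarith)

theorem rho2 (z : ℝ) (hz : (5 : ℝ) ^ 2 ≤ z) :
    ∀ T : ℝ, 0 ≤ T → z ≤ T ^ 2 → Rt T ≤ 513 / 10000 := by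
  intro T hT h
  exact fR.2.2.1 T (by nlinarith)

theorem rho3 (z : ℝ) (hz : (6 : ℝ) ^ 2 ≤ z) :
    ∀ T : ℝ, 0 ≤ T → z ≤ T ^ 2 → Rt T ≤ 395 / 10000 := by
  intro T hT h
  exact fR.2.2.2.1 T (by nlinarith)

theorem corners {x1 x2 y1 y2 : ℝ} {P : ℝ → ℝ → Prop} (h11 : P x1 y1) (h12 : P x1 y2)
    (h21 : P x2 y1) (h22 : P x2 y2) :
    ∀ X ∈ ({x1, x2} : Set ℝ), ∀ Y ∈ ({y1, y2} : Set ℝ), P X Y := by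
  intro X hX Y hY
  simp only [Set.mem_insert_iff, Set.mem_singleton_iff] at hX hY
  rcases hX with rfl | rfl <;> rcases hY with rfl | rfl <;> assumption

end
end CG3
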