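import Pool.Agent.CG3.Common
import Pool.Agent.CG3.T2Leaf
import Pool.Agent.CG3.CoverI
import Pool.Agent.CG3.CoverII
import Pool.Agent.CG3.CoverIII
import Pool.Agent.CG3.Strips
import Pool.Agent.CG3.LinesNum

open MeasureTheory ProbabilityTheory
open scoped BigOperators

namespace CG3
noncomputable section

/-- power means over the support -/
theorem pow_sum_support {ι : Type*} [DecidableEq ι] (s : Finset ι) (f : ι → ℝ) (hf : ∀ i ∈ s, 0 ≤ f i)
    (M : ℕ) (hM1 : 1 ≤ M) (hM : (s.filter (fun i => f i ≠ 0)).card ≤ M) (p : ℕ) :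
    (1 / (M : ℝ)) ^ p * (∑ i ∈ s, f i) ^ (p + 1) ≤ ∑ i ∈ s, f i ^ (p + 1) := by
  classical
  have hM0 : (0 : ℝ) < M := by exact_mod_cast hM1
  have e1 : ∑ i ∈ s, f i = ∑ i ∈ s.filter (fun i => f i ≠ 0), f i := by
    rw [Finset.sum_filter_ne_zero]
  have e2 : ∑ i ∈ s, f i ^ (p + 1) = ∑ i ∈ s.filter (fun i => f i ≠ 0), f i ^ (p + 1) := by
    rw [Finset.sum_filter]
    refine Finset.sum_congr rfl (fun i _ => ?_)
    by_cases h : f i = 0
    · simp [h]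
    · simp [h]
  rw [e1, e2]
  have hf' : ∀ i ∈ s.filter (fun i => f i ≠ 0), 0 ≤ f i := fun i hi => hf i (Finset.mem_filter.mp hi).1
  have h := pow_sum_div_card_le_sum_pow (s := s.filter (fun i => f i ≠ 0)) hf' p
  rcases Nat.eq_zero_or_pos (s.filter (fun i => f i ≠ 0)).card with h0 | h0
  · rw [Finset.card_eq_zero] at h0
    rw [h0]; simp
  · refine le_trans ?_ h
    have hc : (0 : ℝ) < (s.filter (fun i => f i ≠ 0)).card := by exact_mod_cast h0
    have hcM : ((s.filter (fun i => f i ≠ 0)).card : ℝ) ≤ M := by exact_mod_cast hM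
    have hs : 0 ≤ (∑ i ∈ s.filter (fun i => f i ≠ 0), f i) ^ (p + 1) :=
      pow_nonneg (Finset.sum_nonneg hf') _
    rw [mul_comm, div_eq_mul_inv ((∑ i ∈ s.filter (fun i => f i ≠ 0), f i) ^ (p + 1))]
    refine mul_le_mul_of_nonneg_left ?_ hs
    rw [one_div, ← inv_pow]
    exact pow_le_pow_left₀ (by positivity) (inv_anti₀ hc hcM) p

/-- the T2 hypotheses hold for the two largest coordinates -/
theorem T2hyp_of {n : ℕ} (θ : Fin n → ℝ) (hθ0 : ∀ k, 0 ≤ θ k) (hθ : ∑ k, θ k ^ 2 = 1)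
    (i j : Fin n) (hij : i ≠ j) (hj : 0 < θ j) (hji : θ j ≤ θ i) (hk : ∀ k, k ≠ i → θ k ≤ θ j)
    (hx : θ i ^ 2 ≤ 21 / 40) (κ : ℝ)
    (hκ2 : κ * (1 - θ i ^ 2 - θ j ^ 2) ^ 2 ≤
      ∑ k ∈ (Finset.univ.erase i).erase j, (θ k ^ 2) ^ 2)
    (hκ3 : κ ^ 2 * (1 - θ i ^ 2 - θ j ^ 2) ^ 3 ≤
      ∑ k ∈ (Finset.univ.erase i).erase j, (θ k ^ 2) ^ 3) :
    T2hyp κ (∫ ξ : ℝ, ∏ k, phi (θ k * ξ)) (θ i ^ 2) (θ j ^ 2) := by
  have hi : 0 < θ i := lt_of_lt_of_le hj hji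
  have h := fT2 θ hθ i j hij hj hji (fun k hki => ⟨hθ0 k, hk k hki⟩) hx
  have hv := v_nonneg θ hθ i j hij
  refine ⟨∑ k, θ k ^ 4, ∑ k, θ k ^ 6, ∑ k, θ k ^ 8, ∑ k, θ k ^ 10, ?_, ?_, ?_, ?_, ?_,
    by linarith⟩
  · rw [Real.sqrt_sq hi.le, Real.sqrt_sq hj.le]
    exact h
  · have e := sum_split (fun k => θ k ^ 4) i j hij
    beta_reduce at e
    have e2 : ∑ k ∈ (Finset.univ.erase i).erase j, (θ k ^ 2) ^ 2
        = ∑ k ∈ (Finset.univ.erase i).erase j, θ k ^ 4 :=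
      Finset.sum_congr rfl (fun k _ => by ring)
    rw [e, ← e2]
    have : (θ i ^ 2) ^ 2 = θ i ^ 4 := by ring
    have : (θ j ^ 2) ^ 2 = θ j ^ 4 := by ring
    linarith
  · have e := sum_split (fun k => θ k ^ 6) i j hij
    beta_reduce at e
    have e2 : ∑ k ∈ (Finset.univ.erase i).erase j, (θ k ^ 2) ^ 3
        = ∑ k ∈ (Finset.univ.erase i).erase j, θ k ^ 6 :=
      Finset.sum_congr rfl (fun k _ => by ring)
    rw [e, ← e2]
    have : (θ i ^ 2) ^ 3 = θ i ^ 6 := by ring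
    have : (θ j ^ 2) ^ 3 = θ j ^ 6 := by ring
    linarith
  · have e := sum_split (fun k => θ k ^ 8) i j hij
    beta_reduce at e
    have e2 : 0 ≤ ∑ k ∈ (Finset.univ.erase i).erase j, θ k ^ 8 :=
      Finset.sum_nonneg (fun k _ => by positivity)
    rw [e]
    have : (θ i ^ 2) ^ 4 = θ i ^ 8 := by ring
    have : (θ j ^ 2) ^ 4 = θ j ^ 8 := by ring
    linarith
  · have e := sum_split (fun k => θ k ^ 10) i j hij
    beta_reduce at e
    have e2 : 0 ≤ ∑ k ∈ (Finset.univ.erase i).erase j, θ k ^ 10 :=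
      Finset.sum_nonneg (fun k _ => by positivity)
    rw [e]
    have : (θ i ^ 2) ^ 5 = θ i ^ 10 := by ring
    have : (θ j ^ 2) ^ 5 = θ j ^ 10 := by ring
    linarith

/-- with at most `M + 2` nonzero coordinates -/
theorem T2hyp_card {n : ℕ} (θ : Fin n → ℝ) (hθ0 : ∀ k, 0 ≤ θ k) (hθ : ∑ k, θ k ^ 2 = 1)
    (i j : Fin n) (hij : i ≠ j) (hj : 0 < θ j) (hji : θ j ≤ θ i) (hk : ∀ k, k ≠ i → θ k ≤ θ j)
    (hx : θ i ^ 2 ≤ 21 / 40) (M : ℕ) (hM1 : 1 ≤ M)
    (hM : (((Finset.univ.erase i).erase j).filter (fun k => θ k ≠ 0)).card ≤ M) :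
    T2hyp (1 / M) (∫ ξ : ℝ, ∏ k, phi (θ k * ξ)) (θ i ^ 2) (θ j ^ 2) ∧
      1 - θ i ^ 2 ≤ (M + 1) * θ j ^ 2 := by
  have hM' : (((Finset.univ.erase i).erase j).filter (fun k => θ k ^ 2 ≠ 0)).card ≤ M := by
    refine le_trans (le_of_eq ?_) hM
    congr 1
    refine Finset.filter_congr (fun k _ => ?_)
    simp
  have hv := v_nonneg θ hθ i j hij
  constructor
  · refine T2hyp_of θ hθ0 hθ i j hij hj hji hk hx (1 / M) ?_ ?_
    · have h := pow_sum_support ((Finset.univ.erase i).erase j) (fun k => θ k ^ 2)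
        (fun k _ => sq_nonneg _) M hM1 hM' 1
      rw [top_sum_le θ hθ i j hij] at h
      simpa using h
    · have h := pow_sum_support ((Finset.univ.erase i).erase j) (fun k => θ k ^ 2)
        (fun k _ => sq_nonneg _) M hM1 hM' 2
      rw [top_sum_le θ hθ i j hij] at h
      simpa using h
  · have h1 : 1 - θ i ^ 2 - θ j ^ 2 ≤ M * θ j ^ 2 := by
      rw [← top_sum_le θ hθ i j hij, ← Finset.sum_filter_ne_zero]
      have h2 : ∑ k ∈ ((Finset.univ.erase i).erase j).filter (fun k => θ k ^ 2 ≠ 0), θ k ^ 2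
          ≤ ∑ k ∈ ((Finset.univ.erase i).erase j).filter (fun k => θ k ^ 2 ≠ 0), θ j ^ 2 := by
        refine Finset.sum_le_sum (fun k hk' => ?_)
        have hki : k ≠ i := by
          have := (Finset.mem_filter.mp hk').1
          exact Finset.ne_of_mem_erase (Finset.mem_of_mem_erase this)
        exact pow_le_pow_left₀ (hθ0 k) (hk k hki) 2
      rw [Finset.sum_const, nsmul_eq_mul] at h2
      refine h2.trans ?_
      have : ((((Finset.univ.erase i).erase j).filter (fun k => θ k ^ 2 ≠ 0)).card : ℝ) ≤ M := by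
        exact_mod_cast hM'
      exact mul_le_mul_of_nonneg_right this (sq_nonneg _)
    linarith

end
end CG3
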