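import Pool.Agent.CG3.Base2

open MeasureTheory ProbabilityTheory
open scoped BigOperators

namespace CG3
noncomputable section

theorem w_deriv834 (x : ℝ) : HasDerivAt w (-(x * w x)) x := by
  unfold w
  have h1 : HasDerivAt (fun x : ℝ => -(x ^ 2) / 2) (-x) x := by
    have := ((hasDerivAt_pow 2 x).fun_neg).div_const 2
    exact this.congr_deriv (by push_cast; ring)
  exact h1.exp.congr_deriv (by ring)

theorem w_cont834 : Continuous w := by
  unfold w; fun_prop

theorem w_pos834 (x : ℝ) : 0 < w x := Real.exp_pos _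

theorem m0_pos834 : 0 < m0 := by
  unfold m0
  exact intervalIntegral.intervalIntegral_pos_of_pos (w_cont834.intervalIntegrable _ _)
    w_pos834 (by norm_num)

theorem w_one834 : w 1 = Real.exp (-(1 / 2)) := by
  unfold w; norm_num

theorem w_neg_one834 : w (-1) = Real.exp (-(1 / 2)) := by
  unfold w; norm_num

theorem cc_mul834 : cc * m0 = 2 * Real.exp (-(1 / 2)) := by
  unfold cc
  rw [div_mul_cancel₀ _ m0_pos834.ne']

theorem phi_mul834 (t : ℝ) : phi t * m0 = ∫ x in (-1 : ℝ)..1, w x * Real.cos (t * x) := by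
  unfold phi
  rw [div_mul_cancel₀ _ m0_pos834.ne']

theorem ibp1_834 (t : ℝ) : -(∫ x in (-1 : ℝ)..1, w x * x * Real.sin (t * x)) +
    t * (∫ x in (-1 : ℝ)..1, w x * Real.cos (t * x)) = 2 * Real.exp (-(1 / 2)) * Real.sin t := by
  have hF : ∀ x : ℝ, HasDerivAt (fun x => w x * Real.sin (t * x))
      (-(w x * x * Real.sin (t * x)) + t * (w x * Real.cos (t * x))) x := by
    intro x
    have h1 : HasDerivAt (fun x : ℝ => t * x) t x := by
      simpa using (hasDerivAt_id x).const_mul t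
    have h2 := (w_deriv834 x).fun_mul (h1.sin)
    exact h2.congr_deriv (by ring)
  have hw := w_cont834
  have h := intervalIntegral.integral_eq_sub_of_hasDerivAt (a := (-1 : ℝ)) (b := 1)
    (fun x _ => hF x) (Continuous.intervalIntegrable (by fun_prop) _ _)
  rw [intervalIntegral.integral_add (Continuous.intervalIntegrable (by fun_prop) _ _)
    (Continuous.intervalIntegrable (by fun_prop) _ _), intervalIntegral.integral_neg,
    intervalIntegral.integral_const_mul, w_one834, w_neg_one834] at h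
  rw [h]
  rw [mul_one, show t * (-1 : ℝ) = -t by ring, Real.sin_neg]
  ring

theorem ibp2_834 (t : ℝ) : (∫ x in (-1 : ℝ)..1, w x * Real.cos (t * x)) -
    (∫ x in (-1 : ℝ)..1, w x * x ^ 2 * Real.cos (t * x)) -
    t * (∫ x in (-1 : ℝ)..1, w x * x * Real.sin (t * x)) = 2 * Real.exp (-(1 / 2)) * Real.cos t := by
  have hF : ∀ x : ℝ, HasDerivAt (fun x => w x * x * Real.cos (t * x))
      (w x * Real.cos (t * x) - w x * x ^ 2 * Real.cos (t * x) -
        t * (w x * x * Real.sin (t * x))) x := by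
    intro x
    have h1 : HasDerivAt (fun x : ℝ => t * x) t x := by
      simpa using (hasDerivAt_id x).const_mul t
    have h2 := ((w_deriv834 x).fun_mul (hasDerivAt_id' x)).fun_mul (h1.cos)
    exact h2.congr_deriv (by ring)
  have hw := w_cont834
  have h := intervalIntegral.integral_eq_sub_of_hasDerivAt (a := (-1 : ℝ)) (b := 1)
    (fun x _ => hF x) (Continuous.intervalIntegrable (by fun_prop) _ _)
  rw [intervalIntegral.integral_sub (Continuous.intervalIntegrable (by fun_prop) _ _)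
    (Continuous.intervalIntegrable (by fun_prop) _ _),
    intervalIntegral.integral_sub (Continuous.intervalIntegrable (by fun_prop) _ _)
    (Continuous.intervalIntegrable (by fun_prop) _ _),
    intervalIntegral.integral_const_mul, w_one834, w_neg_one834] at h
  rw [h]
  rw [mul_one, show t * (-1 : ℝ) = -t by ring, Real.cos_neg]
  ring

theorem ibp3_834 (t : ℝ) : (∫ x in (-1 : ℝ)..1, w x * (2 * x - x ^ 3) * Real.sin (t * x)) +
    t * (∫ x in (-1 : ℝ)..1, w x * x ^ 2 * Real.cos (t * x)) =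
      2 * Real.exp (-(1 / 2)) * Real.sin t := by
  have hF : ∀ x : ℝ, HasDerivAt (fun x => w x * x ^ 2 * Real.sin (t * x))
      (w x * (2 * x - x ^ 3) * Real.sin (t * x) + t * (w x * x ^ 2 * Real.cos (t * x))) x := by
    intro x
    have h1 : HasDerivAt (fun x : ℝ => t * x) t x := by
      simpa using (hasDerivAt_id x).const_mul t
    have h2 := ((w_deriv834 x).fun_mul (hasDerivAt_pow 2 x)).fun_mul (h1.sin)
    exact h2.congr_deriv (by push_cast; ring)
  have hw := w_cont834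
  have h := intervalIntegral.integral_eq_sub_of_hasDerivAt (a := (-1 : ℝ)) (b := 1)
    (fun x _ => hF x) (Continuous.intervalIntegrable (by fun_prop) _ _)
  rw [intervalIntegral.integral_add (Continuous.intervalIntegrable (by fun_prop) _ _)
    (Continuous.intervalIntegrable (by fun_prop) _ _),
    intervalIntegral.integral_const_mul, w_one834, w_neg_one834] at h
  rw [h]
  rw [mul_one, show t * (-1 : ℝ) = -t by ring, Real.sin_neg]
  ring

theorem half1_834 : ∫ x in (0 : ℝ)..1, w x * (2 * x - x ^ 3) = Real.exp (-(1 / 2)) := by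
  have hF : ∀ x : ℝ, HasDerivAt (fun x => w x * x ^ 2) (w x * (2 * x - x ^ 3)) x := by
    intro x
    have h2 := (w_deriv834 x).fun_mul (hasDerivAt_pow 2 x)
    exact h2.congr_deriv (by push_cast; ring)
  have hw := w_cont834
  have h := intervalIntegral.integral_eq_sub_of_hasDerivAt (a := (0 : ℝ)) (b := 1)
    (fun x _ => hF x) (Continuous.intervalIntegrable (by fun_prop) _ _)
  rw [h, w_one834]
  ring

theorem half2_834 : ∫ x in (-1 : ℝ)..0, -(w x * (2 * x - x ^ 3)) = Real.exp (-(1 / 2)) := by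
  have hF : ∀ x : ℝ, HasDerivAt (fun x => -(w x * x ^ 2)) (-(w x * (2 * x - x ^ 3))) x := by
    intro x
    have h2 := ((w_deriv834 x).fun_mul (hasDerivAt_pow 2 x)).fun_neg
    exact h2.congr_deriv (by push_cast; ring)
  have hw := w_cont834
  have h := intervalIntegral.integral_eq_sub_of_hasDerivAt (a := (-1 : ℝ)) (b := 0)
    (fun x _ => hF x) (Continuous.intervalIntegrable (by fun_prop) _ _)
  rw [h, w_neg_one834]
  ring

theorem bd_834 (t : ℝ) : |∫ x in (-1 : ℝ)..1, w x * (2 * x - x ^ 3) * Real.sin (t * x)| ≤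
    2 * Real.exp (-(1 / 2)) := by
  have hw := w_cont834
  have hi : ∀ a b : ℝ, IntervalIntegrable (fun x => w x * (2 * x - x ^ 3) * Real.sin (t * x))
      volume a b := fun a b => Continuous.intervalIntegrable (by fun_prop) _ _
  rw [← intervalIntegral.integral_add_adjacent_intervals (hi (-1) 0) (hi 0 1)]
  have hA : |∫ x in (-1 : ℝ)..0, w x * (2 * x - x ^ 3) * Real.sin (t * x)| ≤
      Real.exp (-(1 / 2)) := by
    rw [← half2_834]
    have h := intervalIntegral.norm_integral_le_of_norm_le (a := (-1 : ℝ)) (b := 0)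
      (f := fun x => w x * (2 * x - x ^ 3) * Real.sin (t * x))
      (g := fun x => -(w x * (2 * x - x ^ 3))) (μ := volume) (by norm_num)
      (Filter.Eventually.of_forall fun x hx => ?_)
      (Continuous.intervalIntegrable (by fun_prop) _ _)
    · exact h
    · obtain ⟨h1, h2⟩ := hx
      rw [norm_mul, norm_mul, Real.norm_of_nonneg (w_pos834 x).le]
      have h3 : 2 * x - x ^ 3 ≤ 0 := by nlinarith [mul_nonneg (neg_nonneg.2 h2) (sq_nonneg x)]
      rw [Real.norm_of_nonpos h3]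
      have h4 : ‖Real.sin (t * x)‖ ≤ 1 := Real.abs_sin_le_one _
      have h5 : 0 ≤ w x * -(2 * x - x ^ 3) := mul_nonneg (w_pos834 x).le (by linarith)
      calc w x * -(2 * x - x ^ 3) * ‖Real.sin (t * x)‖ ≤ w x * -(2 * x - x ^ 3) * 1 :=
            mul_le_mul_of_nonneg_left h4 h5
        _ = _ := by ring
  have hB : |∫ x in (0 : ℝ)..1, w x * (2 * x - x ^ 3) * Real.sin (t * x)| ≤
      Real.exp (-(1 / 2)) := by
    rw [← half1_834]
    have h := intervalIntegral.norm_integral_le_of_norm_le (a := (0 : ℝ)) (b := 1)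
      (f := fun x => w x * (2 * x - x ^ 3) * Real.sin (t * x))
      (g := fun x => (w x * (2 * x - x ^ 3))) (μ := volume) (by norm_num)
      (Filter.Eventually.of_forall fun x hx => ?_)
      (Continuous.intervalIntegrable (by fun_prop) _ _)
    · exact h
    · obtain ⟨h1, h2⟩ := hx
      rw [norm_mul, norm_mul, Real.norm_of_nonneg (w_pos834 x).le]
      have h3 : 0 ≤ 2 * x - x ^ 3 := by nlinarith [mul_nonneg h1.le (sub_nonneg.2 h2), sq_nonneg x]
      rw [Real.norm_of_nonneg h3]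
      have h4 : ‖Real.sin (t * x)‖ ≤ 1 := Real.abs_sin_le_one _
      have h5 : 0 ≤ w x * (2 * x - x ^ 3) := mul_nonneg (w_pos834 x).le h3
      calc w x * (2 * x - x ^ 3) * ‖Real.sin (t * x)‖ ≤ w x * (2 * x - x ^ 3) * 1 :=
            mul_le_mul_of_nonneg_left h4 h5
        _ = _ := by ring
  have := abs_add_le (∫ x in (-1 : ℝ)..0, w x * (2 * x - x ^ 3) * Real.sin (t * x))
    (∫ x in (0 : ℝ)..1, w x * (2 * x - x ^ 3) * Real.sin (t * x))
  linarith

/-- first derivative of phi -/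
def p1 (t : ℝ) : ℝ := cc * Real.sin t - t * phi t

/-- second derivative of phi -/
def p2 (t : ℝ) : ℝ := cc * Real.cos t - phi t - t * p1 t

theorem p1_eq834 (t : ℝ) : -(∫ x in (-1 : ℝ)..1, w x * x * Real.sin (t * x)) / m0 = p1 t := by
  rw [div_eq_iff m0_pos834.ne']
  unfold p1
  have h1 := ibp1_834 t
  have h2 := cc_mul834
  have h3 := phi_mul834 t
  rw [← h3] at h1
  linear_combination h1 - Real.sin t * h2

theorem phi_deriv834 (hd : ∀ t : ℝ, HasDerivAt phi (-(∫ x in (-1 : ℝ)..1, w x * x * Real.sin (t * x)) / m0) t)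
    (t : ℝ) : HasDerivAt phi (p1 t) t := by
  have := hd t
  rwa [p1_eq834] at this

theorem p1_deriv834 (hd : ∀ t : ℝ, HasDerivAt phi (-(∫ x in (-1 : ℝ)..1, w x * x * Real.sin (t * x)) / m0) t)
    (t : ℝ) : HasDerivAt p1 (p2 t) t := by
  have h1 := ((Real.hasDerivAt_sin t).const_mul cc).fun_sub
    ((hasDerivAt_id' t).fun_mul (phi_deriv834 hd t))
  exact h1.congr_deriv (by unfold p2; ring)

theorem p2_eq834 (t : ℝ) : p2 t * m0 = -(∫ x in (-1 : ℝ)..1, w x * x ^ 2 * Real.cos (t * x)) := by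
  have h1 := ibp2_834 t
  have h2 := cc_mul834
  have h3 := phi_mul834 t
  have h4 := p1_eq834 t
  rw [div_eq_iff m0_pos834.ne'] at h4
  unfold p2
  rw [← h3] at h1
  linear_combination Real.cos t * h2 - h1 + t * h4

theorem p2_bd834 (t : ℝ) : |t * p2 t| ≤ 2 * cc := by
  have h1 := ibp3_834 t
  have h2 := p2_eq834 t
  have h3 := bd_834 t
  have h4 := cc_mul834
  have hm := m0_pos834
  have h5 : |t * p2 t| * m0 = |(∫ x in (-1 : ℝ)..1, w x * (2 * x - x ^ 3) * Real.sin (t * x)) -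
      2 * Real.exp (-(1 / 2)) * Real.sin t| := by
    have hmm : |t * p2 t| * m0 = |t * p2 t * m0| := by rw [abs_mul (t * p2 t) m0, abs_of_pos hm]
    rw [hmm]
    congr 1
    linear_combination t * h2 - h1
  have h6 : |(∫ x in (-1 : ℝ)..1, w x * (2 * x - x ^ 3) * Real.sin (t * x)) -
      2 * Real.exp (-(1 / 2)) * Real.sin t| ≤ 2 * Real.exp (-(1 / 2)) + 2 * Real.exp (-(1 / 2)) := by
    refine (abs_sub _ _).trans ?_
    have h7 : |2 * Real.exp (-(1 / 2)) * Real.sin t| ≤ 2 * Real.exp (-(1 / 2)) := by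
      rw [abs_mul, abs_of_pos (by positivity)]
      have := Real.abs_sin_le_one t
      have h8 : (0 : ℝ) < 2 * Real.exp (-(1 / 2)) := by positivity
      nlinarith
    linarith
  have h9 : |t * p2 t| * m0 ≤ (2 * cc) * m0 := by
    rw [h5]
    linarith
  exact le_of_mul_le_mul_right h9 hm

theorem p1_bd834 (t : ℝ) (hc0 : 0 < cc) (ht : 0 < t) : |t * p1 t| ≤ cc + |phi t| + 2 * cc / t := by
  have h1 : t * p1 t = cc * Real.cos t - phi t - p2 t := by unfold p2; ring
  have h2 : |p2 t| ≤ 2 * cc / t := by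
    rw [le_div_iff₀ ht]
    have := p2_bd834 t
    rw [abs_mul, abs_of_pos ht] at this
    linarith
  rw [h1]
  have h3 : |cc * Real.cos t| ≤ cc := by
    rw [abs_mul, abs_of_pos hc0]
    have := Real.abs_cos_le_one t
    nlinarith
  have h4 := abs_sub (cc * Real.cos t - phi t) (p2 t)
  have h5 := abs_sub (cc * Real.cos t) (phi t)
  linarith


/-- `ψ(v) = phi(√v x)` and its derivatives -/
theorem psi_deriv834 (hd : ∀ t : ℝ, HasDerivAt phi (-(∫ x in (-1 : ℝ)..1, w x * x * Real.sin (t * x)) / m0) t)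
    (x v : ℝ) (hv : 0 < v) :
    HasDerivAt (fun v => phi (√v * x)) ((√v * x) * p1 (√v * x) / (2 * v)) v := by
  have h1 : HasDerivAt (fun v : ℝ => √v * x) (1 / (2 * √v) * x) v :=
    (Real.hasDerivAt_sqrt hv.ne').mul_const x
  have h2 := (phi_deriv834 hd (√v * x)).comp v h1
  refine h2.congr_deriv ?_
  have hs : 0 < √v := Real.sqrt_pos.2 hv
  have hsq : √v * √v = v := Real.mul_self_sqrt hv.le
  rw [eq_div_iff (by positivity)]
  have h3 : p1 (√v * x) * (1 / (2 * √v) * x) * (2 * v) = p1 (√v * x) * x * (v / √v) := by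
    field_simp
  have h4 : v / √v = √v := by
    rw [div_eq_iff hs.ne', hsq]
  rw [h3, h4]; ring

theorem psi_deriv2_834 (hd : ∀ t : ℝ, HasDerivAt phi (-(∫ x in (-1 : ℝ)..1, w x * x * Real.sin (t * x)) / m0) t)
    (x v : ℝ) (hv : 0 < v) :
    HasDerivAt (fun v => (√v * x) * p1 (√v * x) / (2 * v))
      (((√v * x) * ((√v * x) * p2 (√v * x)) - (√v * x) * p1 (√v * x)) / (4 * v ^ 2)) v := by
  have h1 : HasDerivAt (fun v : ℝ => √v * x) (1 / (2 * √v) * x) v :=
    (Real.hasDerivAt_sqrt hv.ne').mul_const x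
  have h2 := (p1_deriv834 hd (√v * x)).comp v h1
  have h3 := h1.fun_mul h2
  have h4 : HasDerivAt (fun v : ℝ => 2 * v) 2 v := by
    simpa using (hasDerivAt_id v).const_mul (2 : ℝ)
  have h5 := h3.fun_div h4 (by positivity)
  refine h5.congr_deriv ?_
  have hs : 0 < √v := Real.sqrt_pos.2 hv
  have hsq : √v * √v = v := Real.mul_self_sqrt hv.le
  rw [div_eq_div_iff (by positivity) (by positivity)]
  have hcomp : (p1 ∘ fun v : ℝ => √v * x) v = p1 (√v * x) := rfl
  rw [hcomp]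
  clear h1 h2 h3 h4 h5 hcomp
  generalize √v = s at *
  subst hsq
  generalize p1 (s * x) = a
  generalize p2 (s * x) = b
  field_simp
  ring

theorem taylor2_834 (f f' f'' : ℝ → ℝ) (a b S : ℝ) (h1 : ∀ v ∈ Set.Icc a b, HasDerivAt f (f' v) v)
    (h2 : ∀ v ∈ Set.Icc a b, HasDerivAt f' (f'' v) v) (hS : ∀ v ∈ Set.Icc a b, |f'' v| ≤ S)
    (u0 u : ℝ) (hu0 : u0 ∈ Set.Icc a b) (hu : u ∈ Set.Icc a b) :
    |f u - f u0 - f' u0 * (u - u0)| ≤ S / 2 * (u - u0) ^ 2 := by
  set e := u - u0 with he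
  have hmem : ∀ s ∈ Set.Icc (0 : ℝ) 1, u0 + s * e ∈ Set.Icc a b := by
    intro s hs
    have := (convex_Icc a b).add_smul_sub_mem hu0 hu hs
    simpa [he, smul_eq_mul] using this
  have hlip : ∀ v ∈ Set.Icc a b, |f' v - f' u0| ≤ S * |v - u0| := by
    intro v hv
    have := (convex_Icc a b).norm_image_sub_le_of_norm_hasDerivWithin_le
      (fun x hx => (h2 x hx).hasDerivWithinAt) hS hu0 hv
    exact this
  have hline : ∀ s : ℝ, HasDerivAt (fun s : ℝ => u0 + s * e) e s := by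
    intro s
    have := ((hasDerivAt_id s).mul_const e).const_add u0
    simpa using this
  have hf : ∀ s ∈ Set.Icc (0 : ℝ) 1, HasDerivAt (fun s : ℝ => f (u0 + s * e)) (f' (u0 + s * e) * e) s :=
    fun s hs => (h1 _ (hmem s hs)).comp s (hline s)
  have hlin : ∀ s : ℝ, HasDerivAt (fun s : ℝ => s * (f' u0 * e)) (f' u0 * e) s := by
    intro s
    simpa using (hasDerivAt_id s).mul_const (f' u0 * e)
  have hquad : ∀ s : ℝ, HasDerivAt (fun s : ℝ => S / 2 * e ^ 2 * s ^ 2) (S * e ^ 2 * s) s := by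
    intro s
    have := (hasDerivAt_pow 2 s).const_mul (S / 2 * e ^ 2)
    exact this.congr_deriv (by push_cast; ring)
  have hb : ∀ s ∈ Set.Icc (0 : ℝ) 1, |f' (u0 + s * e) * e - f' u0 * e| ≤ S * e ^ 2 * s := by
    intro s hs
    have h3 := hlip _ (hmem s hs)
    rw [add_sub_cancel_left, abs_mul, abs_of_nonneg hs.1] at h3
    rw [← sub_mul, abs_mul]
    calc |f' (u0 + s * e) - f' u0| * |e| ≤ S * (s * |e|) * |e| :=
          mul_le_mul_of_nonneg_right h3 (abs_nonneg _)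
      _ = S * s * |e| ^ 2 := by ring
      _ = _ := by rw [sq_abs]; ring
  -- monotonicity of both differences
  have hmono : ∀ σ : ℝ, (σ = 1 ∨ σ = -1) →
      MonotoneOn (fun s : ℝ => S / 2 * e ^ 2 * s ^ 2 - σ * (f (u0 + s * e) - s * (f' u0 * e)))
        (Set.Icc 0 1) := by
    intro σ hσ
    have hD : ∀ s ∈ Set.Icc (0 : ℝ) 1,
        HasDerivAt (fun s : ℝ => S / 2 * e ^ 2 * s ^ 2 - σ * (f (u0 + s * e) - s * (f' u0 * e)))
          (S * e ^ 2 * s - σ * (f' (u0 + s * e) * e - f' u0 * e)) s :=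
      fun s hs => (hquad s).fun_sub (((hf s hs).fun_sub (hlin s)).const_mul σ)
    apply monotoneOn_of_deriv_nonneg (convex_Icc 0 1)
    · exact fun s hs => (hD s hs).continuousAt.continuousWithinAt
    · intro s hs
      rw [interior_Icc] at hs
      exact (hD s ⟨hs.1.le, hs.2.le⟩).differentiableAt.differentiableWithinAt
    · intro s hs
      rw [interior_Icc] at hs
      have hs' : s ∈ Set.Icc (0 : ℝ) 1 := ⟨hs.1.le, hs.2.le⟩
      rw [(hD s hs').deriv]
      have h3 := abs_le.1 (hb s hs')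
      rcases hσ with rfl | rfl
      · linarith [h3.2]
      · linarith [h3.1]
  have m1 := hmono 1 (Or.inl rfl) (Set.left_mem_Icc.2 zero_le_one) (Set.right_mem_Icc.2 zero_le_one)
    zero_le_one
  have m2 := hmono (-1) (Or.inr rfl) (Set.left_mem_Icc.2 zero_le_one)
    (Set.right_mem_Icc.2 zero_le_one) zero_le_one
  have hue : u0 + 1 * e = u := by rw [he]; ring
  have hue0 : u0 + 0 * e = u0 := by ring
  simp only [hue, hue0] at m1 m2
  rw [abs_le]
  constructor
  · nlinarith [m2]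
  · nlinarith [m1]

/-- product expansions -/
theorem prod1_834 {ι : Type*} (s : Finset ι) (b : ι → ℝ) (c P : ℝ) (hP : 0 < P) (hc : |c| ≤ P)
    (hb : ∀ i ∈ s, |b i| ≤ P) :
    P * |∏ i ∈ s, b i - c ^ s.card| ≤ P ^ s.card * ∑ i ∈ s, |b i - c| := by
  classical
  induction s using Finset.induction_on with
  | empty => simp
  | insert a s ha ih =>
    have ih' := ih (fun i hi => hb i (Finset.mem_insert_of_mem hi))
    rw [Finset.prod_insert ha, Finset.card_insert_of_notMem ha, Finset.sum_insert ha]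
    have hprod : |c ^ s.card| ≤ P ^ s.card := by
      rw [abs_pow]; exact pow_le_pow_left₀ (abs_nonneg _) hc _
    have h1 : b a * ∏ i ∈ s, b i - c ^ (s.card + 1) =
        b a * (∏ i ∈ s, b i - c ^ s.card) + (b a - c) * c ^ s.card := by ring
    rw [h1]
    have h2 := abs_add_le (b a * (∏ i ∈ s, b i - c ^ s.card)) ((b a - c) * c ^ s.card)
    rw [abs_mul, abs_mul (b a - c)] at h2
    have hba := hb a (Finset.mem_insert_self a s)
    have h3 : |b a| * |∏ i ∈ s, b i - c ^ s.card| ≤ P * |∏ i ∈ s, b i - c ^ s.card| :=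
      mul_le_mul_of_nonneg_right hba (abs_nonneg _)
    have h4 : |b a - c| * |c ^ s.card| ≤ |b a - c| * P ^ s.card :=
      mul_le_mul_of_nonneg_left hprod (abs_nonneg _)
    calc P * |b a * (∏ i ∈ s, b i - c ^ s.card) + (b a - c) * c ^ s.card| ≤
        P * (P * |∏ i ∈ s, b i - c ^ s.card| + |b a - c| * P ^ s.card) :=
          mul_le_mul_of_nonneg_left (by linarith) hP.le
      _ ≤ P * (P ^ s.card * ∑ i ∈ s, |b i - c| + |b a - c| * P ^ s.card) :=
          mul_le_mul_of_nonneg_left (by linarith) hP.le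
      _ = _ := by ring

theorem prod2_834 {ι : Type*} (s : Finset ι) (hs : s.Nonempty) (b : ι → ℝ) (c P : ℝ) (hP : 0 < P)
    (hc : |c| ≤ P) (hb : ∀ i ∈ s, |b i| ≤ P) :
    P * |∏ i ∈ s, b i - c ^ s.card - c ^ (s.card - 1) * ∑ i ∈ s, (b i - c)| ≤
      P ^ (s.card - 1) * (((∑ i ∈ s, |b i - c|) ^ 2 - ∑ i ∈ s, (b i - c) ^ 2) / 2) := by
  classical
  induction hs using Finset.Nonempty.cons_induction with
  | singleton a => simp
  | cons a s ha hs ih =>
    have hb' : ∀ i ∈ s, |b i| ≤ P := fun i hi => hb i (Finset.mem_cons_of_mem hi)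
    have ih' := ih hb'
    have hp := prod1_834 s b c P hP hc hb'
    rw [Finset.prod_cons, Finset.card_cons, Finset.sum_cons, Finset.sum_cons, Finset.sum_cons,
      Nat.add_sub_cancel]
    obtain ⟨m, hm⟩ : ∃ m, s.card = m + 1 := ⟨s.card - 1, by have := hs.card_pos; omega⟩
    rw [hm] at ih' hp ⊢
    rw [Nat.add_sub_cancel] at ih'
    set pr0 := ∏ i ∈ s, b i
    set sm1 := ∑ i ∈ s, (b i - c)
    set A1 := ∑ i ∈ s, |b i - c|
    set A2 := ∑ i ∈ s, (b i - c) ^ 2
    have h1 : b a * pr0 - c ^ (m + 1 + 1) - c ^ (m + 1) * ((b a - c) + sm1) =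
        c * (pr0 - c ^ (m + 1) - c ^ m * sm1) + (b a - c) * (pr0 - c ^ (m + 1)) := by ring
    rw [h1]
    have h2 := abs_add_le (c * (pr0 - c ^ (m + 1) - c ^ m * sm1)) ((b a - c) * (pr0 - c ^ (m + 1)))
    rw [abs_mul, abs_mul (b a - c)] at h2
    have h3 : |c| * |pr0 - c ^ (m + 1) - c ^ m * sm1| ≤ P * |pr0 - c ^ (m + 1) - c ^ m * sm1| :=
      mul_le_mul_of_nonneg_right hc (abs_nonneg _)
    have hab : (b a - c) ^ 2 = |b a - c| ^ 2 := (sq_abs _).symm
    calc P * |c * (pr0 - c ^ (m + 1) - c ^ m * sm1) + (b a - c) * (pr0 - c ^ (m + 1))| ≤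
        P * (P * |pr0 - c ^ (m + 1) - c ^ m * sm1| + |b a - c| * |pr0 - c ^ (m + 1)|) :=
          mul_le_mul_of_nonneg_left (by linarith) hP.le
      _ = P * (P * |pr0 - c ^ (m + 1) - c ^ m * sm1|) + |b a - c| * (P * |pr0 - c ^ (m + 1)|) := by ring
      _ ≤ P * (P ^ m * ((A1 ^ 2 - A2) / 2)) + |b a - c| * (P ^ (m + 1) * A1) :=
          add_le_add (mul_le_mul_of_nonneg_left ih' hP.le)
            (mul_le_mul_of_nonneg_left hp (abs_nonneg _))
      _ = _ := by rw [hab]; ring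


theorem gen_834 (hd : ∀ t : ℝ, HasDerivAt phi (-(∫ x in (-1 : ℝ)..1, w x * x * Real.sin (t * x)) / m0) t)
    (hc0 : 0 < cc) (hc2 : cc ≤ (0.708874905227208 : ℝ))
    {n : ℕ} (hn : 2 ≤ n) (v : Fin n → ℝ) (hv : ∀ k, v k ∈ Set.Icc (89 / 100 : ℝ) (111 / 100))
    (hsum : ∑ k, (v k - 1) = 0) (x P K : ℝ) (hx : 0 < x) (hP : 0 < P) (hK : 0 ≤ K)
    (hPb : ∀ u ∈ Set.Icc (89 / 100 : ℝ) (111 / 100), |phi (√u * x)| ≤ P)
    (hKb : ∀ u ∈ Set.Icc (89 / 100 : ℝ) (111 / 100), |√u * x * p1 (√u * x)| ≤ K) :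
    ∏ k, phi (√(v k) * x) - phi x ^ n ≤ (∑ k, (v k - 1) ^ 2) / 8 *
      (P ^ (n - 2) * (P * (169 / 100 * x + 12625 / 10000 * K) + ((n : ℝ) - 1) * (12625 / 10000 * K ^ 2))) := by
  set f : ℝ → ℝ := fun u => phi (√u * x) with hf
  set f' : ℝ → ℝ := fun u => (√u * x) * p1 (√u * x) / (2 * u) with hf'
  set f'' : ℝ → ℝ := fun u => ((√u * x) * ((√u * x) * p2 (√u * x)) - (√u * x) * p1 (√u * x)) / (4 * u ^ 2)
    with hf''
  have hpos : ∀ u ∈ Set.Icc (89 / 100 : ℝ) (111 / 100), 0 < u := fun u hu => by linarith [hu.1]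
  have d1 : ∀ u ∈ Set.Icc (89 / 100 : ℝ) (111 / 100), HasDerivAt f (f' u) u :=
    fun u hu => psi_deriv834 hd x u (hpos u hu)
  have d2 : ∀ u ∈ Set.Icc (89 / 100 : ℝ) (111 / 100), HasDerivAt f' (f'' u) u :=
    fun u hu => psi_deriv2_834 hd x u (hpos u hu)
  have hone : (1 : ℝ) ∈ Set.Icc (89 / 100 : ℝ) (111 / 100) := ⟨by norm_num, by norm_num⟩
  -- bounds of the derivatives
  have b1 : ∀ u ∈ Set.Icc (89 / 100 : ℝ) (111 / 100), |f' u| ≤ K / (178 / 100) := by
    intro u hu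
    have hu0 := hpos u hu
    simp only [hf']
    rw [abs_div, abs_of_pos (by positivity : 0 < 2 * u)]
    apply div_le_div₀ hK (hKb u hu) (by norm_num)
    linarith [hu.1]
  have b2 : ∀ u ∈ Set.Icc (89 / 100 : ℝ) (111 / 100),
      |f'' u| ≤ (169 / 100 * x + 12625 / 10000 * K) / 4 := by
    intro u hu
    have hu0 := hpos u hu
    simp only [hf'']
    have hs : 0 < √u := Real.sqrt_pos.2 hu0
    have hsq : √u * √u = u := Real.mul_self_sqrt hu0.le
    have hslow : 9433 / 10000 ≤ √u := by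
      apply Real.le_sqrt_of_sq_le
      have := hu.1
      norm_num
      linarith
    have ht0 : 0 < √u * x := mul_pos hs hx
    have h1 : |(√u * x) * ((√u * x) * p2 (√u * x))| ≤ √u * x * (2 * cc) := by
      rw [abs_mul, abs_of_pos ht0]
      exact mul_le_mul_of_nonneg_left (p2_bd834 _) ht0.le
    have h2 := hKb u hu
    have h3 := abs_sub ((√u * x) * ((√u * x) * p2 (√u * x))) ((√u * x) * p1 (√u * x))
    rw [abs_div, abs_of_pos (by positivity : 0 < 4 * u ^ 2), div_le_iff₀ (by positivity)]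
    have h4 : √u * (2 * cc) ≤ 169 / 100 * u ^ 2 := by
      have h5 : u ^ 2 = √u * (√u ^ 3) := by
        calc u ^ 2 = (√u * √u) ^ 2 := by rw [hsq]
          _ = _ := by ring
      rw [h5]
      have h6 : (9433 / 10000 : ℝ) ^ 3 ≤ √u ^ 3 := pow_le_pow_left₀ (by norm_num) hslow 3
      have h7 : 2 * cc ≤ 169 / 100 * √u ^ 3 := by
        norm_num at h6 ⊢
        linarith
      nlinarith
    have h8 : √u * x * (2 * cc) ≤ 169 / 100 * x * u ^ 2 := by nlinarith
    have h9 : K ≤ 12625 / 10000 * K * u ^ 2 := by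
      have h10 : (89 / 100 : ℝ) ^ 2 ≤ u ^ 2 := pow_le_pow_left₀ (by norm_num) hu.1 2
      have h11 : 1 ≤ 12625 / 10000 * u ^ 2 := by
        norm_num at h10 ⊢
        linarith
      nlinarith
    calc |(√u * x) * ((√u * x) * p2 (√u * x)) - (√u * x) * p1 (√u * x)| ≤
        √u * x * (2 * cc) + K := by linarith
      _ ≤ 169 / 100 * x * u ^ 2 + 12625 / 10000 * K * u ^ 2 := by linarith
      _ = _ := by ring
  have hf1 : f 1 = phi x := by simp only [hf]; rw [Real.sqrt_one, one_mul]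
  -- the two kinds of differences
  have hA : ∀ k, |f (v k) - f 1| ≤ K / (178 / 100) * |v k - 1| := fun k =>
    (convex_Icc _ _).norm_image_sub_le_of_norm_hasDerivWithin_le
      (fun u hu => (d1 u hu).hasDerivWithinAt) b1 hone (hv k)
  have hB : ∀ k, |f (v k) - f 1 - f' 1 * (v k - 1)| ≤
      (169 / 100 * x + 12625 / 10000 * K) / 4 / 2 * (v k - 1) ^ 2 := fun k =>
    taylor2_834 f f' f'' _ _ _ d1 d2 b2 1 (v k) hone (hv k)
  set E := ∑ k, (v k - 1) ^ 2 with hE
  have hE0 : 0 ≤ E := Finset.sum_nonneg fun k _ => sq_nonneg _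
  have hSB : |∑ k, (f (v k) - f 1)| ≤ (169 / 100 * x + 12625 / 10000 * K) / 4 / 2 * E := by
    have h1 : ∑ k, (f (v k) - f 1) = ∑ k, (f (v k) - f 1 - f' 1 * (v k - 1)) := by
      rw [Finset.sum_sub_distrib (f := fun k => f (v k) - f 1), ← Finset.mul_sum, hsum]
      ring
    rw [h1, hE, Finset.mul_sum]
    exact (Finset.abs_sum_le_sum_abs _ _).trans (Finset.sum_le_sum fun k _ => hB k)
  have hSA : ∑ k, (f (v k) - f 1) ^ 2 ≤ (12625 / 10000 * K ^ 2) / 4 * E := by
    rw [hE, Finset.mul_sum]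
    refine Finset.sum_le_sum fun k _ => ?_
    have h1 := pow_le_pow_left₀ (abs_nonneg _) (hA k) 2
    rw [sq_abs, mul_pow, sq_abs] at h1
    refine h1.trans (mul_le_mul_of_nonneg_right ?_ (sq_nonneg _))
    have : (K / (178 / 100)) ^ 2 = K ^ 2 * (10000 / 31684) := by ring
    rw [this]
    nlinarith [sq_nonneg K]
  -- product expansion
  haveI : Nonempty (Fin n) := ⟨⟨0, by omega⟩⟩
  have hprod := prod2_834 (Finset.univ : Finset (Fin n)) Finset.univ_nonempty (fun k => f (v k)) (f 1) P hP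
    (hPb 1 hone) (fun k _ => hPb (v k) (hv k))
  rw [Finset.card_univ, Fintype.card_fin] at hprod
  have hCS : (∑ k, |f (v k) - f 1|) ^ 2 ≤ n * ∑ k, (f (v k) - f 1) ^ 2 := by
    have h1 := sq_sum_le_card_mul_sum_sq (s := (Finset.univ : Finset (Fin n)))
      (f := fun k => |f (v k) - f 1|)
    simp only [sq_abs, Finset.card_univ, Fintype.card_fin] at h1
    exact h1
  have hpow : P ^ (n - 1) = P ^ (n - 2) * P := by
    rw [← pow_succ]; congr 1; omega
  have hn' : (1 : ℝ) ≤ (n : ℝ) - 1 := by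
    have : (2 : ℝ) ≤ n := by exact_mod_cast hn
    linarith
  have hT : |∏ k, f (v k) - f 1 ^ n - f 1 ^ (n - 1) * ∑ k, (f (v k) - f 1)| ≤
      P ^ (n - 2) * (((n : ℝ) - 1) / 2 * ((12625 / 10000 * K ^ 2) / 4 * E)) := by
    have h1 : P * |∏ k, f (v k) - f 1 ^ n - f 1 ^ (n - 1) * ∑ k, (f (v k) - f 1)| ≤
        P * (P ^ (n - 2) * (((n : ℝ) - 1) / 2 * ((12625 / 10000 * K ^ 2) / 4 * E))) := by
      refine hprod.trans ?_
      rw [hpow]
      have h2 : ((∑ k, |f (v k) - f 1|) ^ 2 - ∑ k, (f (v k) - f 1) ^ 2) / 2 ≤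
          ((n : ℝ) - 1) / 2 * ((12625 / 10000 * K ^ 2) / 4 * E) := by
        have h3 : ((n : ℝ) - 1) / 2 * ∑ k, (f (v k) - f 1) ^ 2 ≤
            ((n : ℝ) - 1) / 2 * ((12625 / 10000 * K ^ 2) / 4 * E) :=
          mul_le_mul_of_nonneg_left hSA (by linarith)
        linarith
      calc P ^ (n - 2) * P * (((∑ k, |f (v k) - f 1|) ^ 2 - ∑ k, (f (v k) - f 1) ^ 2) / 2) ≤
          P ^ (n - 2) * P * (((n : ℝ) - 1) / 2 * ((12625 / 10000 * K ^ 2) / 4 * E)) :=
            mul_le_mul_of_nonneg_left h2 (by positivity)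
        _ = _ := by ring
    exact le_of_mul_le_mul_left h1 hP
  have hL : |f 1 ^ (n - 1) * ∑ k, (f (v k) - f 1)| ≤
      P ^ (n - 2) * P * ((169 / 100 * x + 12625 / 10000 * K) / 4 / 2 * E) := by
    rw [abs_mul, abs_pow, ← hpow]
    exact mul_le_mul (pow_le_pow_left₀ (abs_nonneg _) (hPb 1 hone) _) hSB (abs_nonneg _)
      (by positivity)
  have hfin : ∏ k, f (v k) - f 1 ^ n =
      (∏ k, f (v k) - f 1 ^ n - f 1 ^ (n - 1) * ∑ k, (f (v k) - f 1)) +
        f 1 ^ (n - 1) * ∑ k, (f (v k) - f 1) := by ring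
  rw [← hf1]
  show ∏ k, f (v k) - f 1 ^ n ≤ _
  rw [hfin]
  have e1 := le_abs_self (∏ k, f (v k) - f 1 ^ n - f 1 ^ (n - 1) * ∑ k, (f (v k) - f 1))
  have e2 := le_abs_self (f 1 ^ (n - 1) * ∑ k, (f (v k) - f 1))
  calc _ ≤ P ^ (n - 2) * (((n : ℝ) - 1) / 2 * ((12625 / 10000 * K ^ 2) / 4 * E)) +
        P ^ (n - 2) * P * ((169 / 100 * x + 12625 / 10000 * K) / 4 / 2 * E) := by linarith
    _ = _ := by ring

/-- constant of the head -/
def C1h (n : ℕ) : ℝ := (15 / 100 : ℝ) ^ (n - 2) * (15 / 100 * (1178 / 100) + ((n : ℝ) - 1) * (2118 / 1000))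

/-- constant of the tail -/
def C2h (n : ℕ) : ℝ := (15 / 100 : ℝ) ^ (n - 2) * (15 / 100 * (1155 / 100) + ((n : ℝ) - 1) * (1556 / 1000))

theorem head_834 (hd : ∀ t : ℝ, HasDerivAt phi (-(∫ x in (-1 : ℝ)..1, w x * x * Real.sin (t * x)) / m0) t)
    (h3 : ∀ t : ℝ, 3 ≤ t → |phi t| ≤ 3 / 20)
    (hc1 : (0.708874905227206 : ℝ) ≤ cc) (hc2 : cc ≤ (0.708874905227208 : ℝ))
    {n : ℕ} (hn : 7 ≤ n) (v : Fin n → ℝ) (hv : ∀ k, v k ∈ Set.Icc (89 / 100 : ℝ) (111 / 100))
    (hsum : ∑ k, (v k - 1) = 0) (x : ℝ) (hx : 69 / 20 < x) (hx6 : x ≤ 6) :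
    ∏ k, phi (√(v k) * x) - phi x ^ n ≤ (∑ k, (v k - 1) ^ 2) / 8 * C1h n := by
  have hc0 : 0 < cc := by linarith
  have hx0 : 0 < x := by linarith
  have hlow : ∀ u ∈ Set.Icc (89 / 100 : ℝ) (111 / 100), 32543 / 10000 ≤ √u * x := by
    intro u hu
    have hslow : 9433 / 10000 ≤ √u := by
      apply Real.le_sqrt_of_sq_le
      have := hu.1
      norm_num
      linarith
    nlinarith
  have h := gen_834 hd hc0 hc2 (by omega) v hv hsum x (15 / 100) (1295 / 1000) hx0 (by norm_num) (by norm_num)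
    (fun u hu => by
      have := h3 _ (by linarith [hlow u hu] : (3 : ℝ) ≤ √u * x)
      linarith)
    (fun u hu => by
      have hl := hlow u hu
      have ht : 0 < √u * x := by linarith
      have h4 := p1_bd834 (√u * x) hc0 ht
      have h5 := h3 _ (by linarith : (3 : ℝ) ≤ √u * x)
      have h6 : 2 * cc / (√u * x) ≤ 2 * cc / (32543 / 10000) :=
        div_le_div_of_nonneg_left (by linarith) (by norm_num) hl
      have h7 : 2 * cc / (32543 / 10000) ≤ 4357 / 10000 := by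
        rw [div_le_iff₀ (by norm_num)]; norm_num; linarith
      norm_num at hc2
      linarith)
  refine h.trans (mul_le_mul_of_nonneg_left ?_ (by positivity))
  unfold C1h
  apply mul_le_mul_of_nonneg_left _ (by positivity)
  have hn' : (0 : ℝ) ≤ (n : ℝ) - 1 := by
    have : (7 : ℝ) ≤ n := by exact_mod_cast hn
    linarith
  apply add_le_add
  · nlinarith
  · apply mul_le_mul_of_nonneg_left _ hn'
    norm_num

theorem tail_834 (hd : ∀ t : ℝ, HasDerivAt phi (-(∫ x in (-1 : ℝ)..1, w x * x * Real.sin (t * x)) / m0) t)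
    (h3 : ∀ t : ℝ, 3 ≤ t → |phi t| ≤ 3 / 20)
    (hdec : ∀ t : ℝ, 0 < t → |phi t| ≤ cc * (√(t ^ 2 + 1) + 1) / t ^ 2)
    (hc1 : (0.708874905227206 : ℝ) ≤ cc) (hc2 : cc ≤ (0.708874905227208 : ℝ))
    {n : ℕ} (hn : 7 ≤ n) (v : Fin n → ℝ) (hv : ∀ k, v k ∈ Set.Icc (89 / 100 : ℝ) (111 / 100))
    (hsum : ∑ k, (v k - 1) = 0) (x : ℝ) (hx6 : 6 < x) :
    ∏ k, phi (√(v k) * x) - phi x ^ n ≤ (∑ k, (v k - 1) ^ 2) / 8 * (C2h n * (6 / x) ^ 5) := by
  have hc0 : 0 < cc := by linarith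
  have hx0 : 0 < x := by linarith
  have hslow : ∀ u ∈ Set.Icc (89 / 100 : ℝ) (111 / 100), 9433 / 10000 ≤ √u := by
    intro u hu
    apply Real.le_sqrt_of_sq_le
    have := hu.1
    norm_num
    linarith
  have hlow : ∀ u ∈ Set.Icc (89 / 100 : ℝ) (111 / 100), 56598 / 10000 ≤ √u * x := by
    intro u hu
    have := hslow u hu
    nlinarith
  have h := gen_834 hd hc0 hc2 (by omega) v hv hsum x (15 / 100 * (6 / x)) (111 / 100) hx0
    (by positivity) (by norm_num)
    (fun u hu => by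
      have hl := hlow u hu
      have hsl := hslow u hu
      have ht : 0 < √u * x := by linarith
      have h4 := hdec _ ht
      have hxt : 9433 / 10000 * x ≤ √u * x := mul_le_mul_of_nonneg_right hsl hx0.le
      generalize √u * x = t at *
      have h5 : √(t ^ 2 + 1) ≤ t + 88343 / 1000000 := by
        rw [Real.sqrt_le_left (by linarith)]
        nlinarith
      have h6 : cc * (√(t ^ 2 + 1) + 1) ≤ 84897 / 100000 * t := by
        have h7 : cc * (√(t ^ 2 + 1) + 1) ≤ cc * (t + 1088343 / 1000000) :=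
          mul_le_mul_of_nonneg_left (by linarith) hc0.le
        have h8 : cc * (t + 1088343 / 1000000) ≤ 0.708874905227208 * (t + 1088343 / 1000000) :=
          mul_le_mul_of_nonneg_right hc2 (by linarith)
        have h9 : 0.708874905227208 * (t + 1088343 / 1000000) ≤ 84897 / 100000 * t := by
          norm_num
          linarith
        linarith
      refine h4.trans ?_
      rw [div_le_iff₀ (by positivity)]
      refine h6.trans ?_
      have h10 : 15 / 100 * (6 / x) * t ^ 2 = (9 / 10 * t / x) * t := by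
        field_simp
        ring
      rw [h10]
      apply mul_le_mul_of_nonneg_right _ ht.le
      rw [le_div_iff₀ hx0]
      nlinarith)
    (fun u hu => by
      have hl := hlow u hu
      have ht : 0 < √u * x := by linarith
      have h4 := p1_bd834 (√u * x) hc0 ht
      have h5 := h3 _ (by linarith : (3 : ℝ) ≤ √u * x)
      have h6 : 2 * cc / (√u * x) ≤ 2 * cc / (56598 / 10000) :=
        div_le_div_of_nonneg_left (by linarith) (by norm_num) hl
      have h7 : 2 * cc / (56598 / 10000) ≤ 2505 / 10000 := by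
        rw [div_le_iff₀ (by norm_num)]; norm_num; linarith
      norm_num at hc2
      linarith)
  refine h.trans (mul_le_mul_of_nonneg_left ?_ (by positivity))
  unfold C2h
  have hn' : (0 : ℝ) ≤ (n : ℝ) - 1 := by
    have : (7 : ℝ) ≤ n := by exact_mod_cast hn
    linarith
  have hy0 : 0 < 6 / x := by positivity
  have hy1 : 6 / x ≤ 1 := by rw [div_le_one hx0]; exact hx6.le
  rw [mul_pow]
  have hpw : (6 / x) ^ (n - 2) ≤ (6 / x) ^ 5 := pow_le_pow_of_le_one hy0.le hy1 (by omega)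
  have hin : 15 / 100 * (6 / x) * (169 / 100 * x + 12625 / 10000 * (111 / 100)) +
      ((n : ℝ) - 1) * (12625 / 10000 * (111 / 100) ^ 2) ≤
      15 / 100 * (1155 / 100) + ((n : ℝ) - 1) * (1556 / 1000) := by
    apply add_le_add
    · have h1 : 15 / 100 * (6 / x) * (169 / 100 * x + 12625 / 10000 * (111 / 100)) =
          15 / 100 * (6 * (169 / 100) + (6 / x) * (12625 / 10000 * (111 / 100))) := by
        field_simp
      rw [h1]
      nlinarith
    · apply mul_le_mul_of_nonneg_left _ hn'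
      norm_num
  calc (15 / 100) ^ (n - 2) * (6 / x) ^ (n - 2) *
        (15 / 100 * (6 / x) * (169 / 100 * x + 12625 / 10000 * (111 / 100)) +
      ((n : ℝ) - 1) * (12625 / 10000 * (111 / 100) ^ 2)) ≤
      (15 / 100) ^ (n - 2) * (6 / x) ^ 5 *
        (15 / 100 * (1155 / 100) + ((n : ℝ) - 1) * (1556 / 1000)) := by
        apply mul_le_mul _ hin (by positivity) (by positivity)
        exact mul_le_mul_of_nonneg_left hpw (by positivity)
    _ = _ := by ring


/-- majorant -/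
def Hf834 (C1 C2 y : ℝ) : ℝ := (Set.Ioc (69 / 20 : ℝ) 6).indicator (fun _ => C1) y +
  (Set.Ioi (6 : ℝ)).indicator (fun y => C2 * (6 / y) ^ 5) y

theorem Hf834_nonpos (C1 C2 y : ℝ) (hy : y ≤ 0) : Hf834 C1 C2 y = 0 := by
  unfold Hf834
  rw [Set.indicator_of_notMem, Set.indicator_of_notMem, add_zero]
  · simp only [Set.mem_Ioi, not_lt]; linarith
  · simp only [Set.mem_Ioc, not_and, not_le]; intro h; linarith

theorem Hf834_nonneg (C1 C2 y : ℝ) (h1 : 0 ≤ C1) (h2 : 0 ≤ C2) : 0 ≤ Hf834 C1 C2 y := by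
  unfold Hf834
  apply add_nonneg
  · exact Set.indicator_nonneg (fun _ _ => h1) _
  · apply Set.indicator_nonneg
    intro y hy
    have : (0 : ℝ) < y := lt_trans (by norm_num) hy
    positivity

theorem Hf834_tail_int (C2 : ℝ) : IntegrableOn (fun y : ℝ => C2 * (6 / y) ^ 5) (Set.Ioi 6) := by
  have h := (integrableOn_Ioi_rpow_of_lt (a := (-5 : ℝ)) (c := 6) (by norm_num) (by norm_num)).const_mul
    (C2 * 6 ^ 5)
  refine h.congr ?_
  refine (ae_restrict_iff' measurableSet_Ioi).2 (Filter.Eventually.of_forall fun y hy => ?_)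
  have hy0 : (0 : ℝ) < y := lt_trans (by norm_num) hy
  show C2 * 6 ^ 5 * y ^ (-5 : ℝ) = C2 * (6 / y) ^ 5
  rw [Real.rpow_neg hy0.le, show (5 : ℝ) = ((5 : ℕ) : ℝ) by norm_num, Real.rpow_natCast, div_pow]
  ring

theorem Hf834_tail_val (C2 : ℝ) : ∫ y in Set.Ioi (6 : ℝ), C2 * (6 / y) ^ 5 = C2 * (3 / 2) := by
  have h : ∫ y in Set.Ioi (6 : ℝ), C2 * (6 / y) ^ 5 =
      ∫ y in Set.Ioi (6 : ℝ), (C2 * 6 ^ 5) * y ^ (-5 : ℝ) := by
    refine setIntegral_congr_fun measurableSet_Ioi fun y hy => ?_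
    have hy0 : (0 : ℝ) < y := lt_trans (by norm_num) hy
    show C2 * (6 / y) ^ 5 = C2 * 6 ^ 5 * y ^ (-5 : ℝ)
    rw [Real.rpow_neg hy0.le, show (5 : ℝ) = ((5 : ℕ) : ℝ) by norm_num, Real.rpow_natCast, div_pow]
    ring
  rw [h, integral_const_mul, integral_Ioi_rpow_of_lt (by norm_num) (by norm_num)]
  have : (6 : ℝ) ^ ((-5 : ℝ) + 1) = 1 / 6 ^ 4 := by
    rw [show (-5 : ℝ) + 1 = -((4 : ℕ) : ℝ) by norm_num, Real.rpow_neg (by norm_num), Real.rpow_natCast]
    norm_num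
  rw [this]
  ring

theorem Hf834_int (C1 C2 : ℝ) : Integrable (Hf834 C1 C2) := by
  apply Integrable.add
  · rw [integrable_indicator_iff measurableSet_Ioc]
    exact integrableOn_const (by simp)
  · rw [integrable_indicator_iff measurableSet_Ioi]
    exact Hf834_tail_int C2

theorem Hf834_val (C1 C2 : ℝ) : ∫ y, Hf834 C1 C2 y = C1 * (51 / 20) + C2 * (3 / 2) := by
  unfold Hf834
  rw [integral_add, integral_indicator measurableSet_Ioc, integral_indicator measurableSet_Ioi,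
    Hf834_tail_val]
  · rw [setIntegral_const]
    simp only [Measure.real, Real.volume_Ioc, smul_eq_mul]
    rw [ENNReal.toReal_ofReal (by norm_num)]
    norm_num
    ring
  · rw [integrable_indicator_iff measurableSet_Ioc]
    exact integrableOn_const (by simp)
  · rw [integrable_indicator_iff measurableSet_Ioi]
    exact Hf834_tail_int C2

theorem Hf834_abs (C1 C2 y : ℝ) : Hf834 C1 C2 |y| = Hf834 C1 C2 y + Hf834 C1 C2 (-y) := by
  rcases le_total 0 y with h | h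
  · rw [abs_of_nonneg h, Hf834_nonpos C1 C2 (-y) (by linarith), add_zero]
  · rw [abs_of_nonpos h, Hf834_nonpos C1 C2 y h, zero_add]

theorem Hf834_abs_int (C1 C2 : ℝ) : Integrable (fun y => Hf834 C1 C2 |y|) := by
  simp only [Hf834_abs]
  exact (Hf834_int C1 C2).add (Hf834_int C1 C2).comp_neg

theorem Hf834_abs_val (C1 C2 : ℝ) : ∫ y, Hf834 C1 C2 |y| = 2 * (C1 * (51 / 20) + C2 * (3 / 2)) := by
  simp only [Hf834_abs]
  rw [integral_add (Hf834_int C1 C2) (Hf834_int C1 C2).comp_neg, integral_neg_eq_self, Hf834_val]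
  ring

theorem pw834 (n : ℕ) (hn : 7 ≤ n) : (n : ℝ) ^ 3 * ((n : ℝ) - 1) * (15 / 100 : ℝ) ^ (n - 2) ≤
    343 * 6 * (15 / 100) ^ 5 := by
  induction n, hn using Nat.le_induction with
  | base => norm_num
  | succ n hn ih =>
    have h1 : (15 / 100 : ℝ) ^ (n + 1 - 2) = (15 / 100 : ℝ) ^ (n - 2) * (15 / 100) := by
      rw [← pow_succ]; congr 1; omega
    rw [h1]
    have hn' : (7 : ℝ) ≤ n := by exact_mod_cast hn
    push_cast
    have h2 : ((n : ℝ) + 1) ^ 3 * ((n : ℝ) + 1 - 1) * (15 / 100) ≤ (n : ℝ) ^ 3 * ((n : ℝ) - 1) := by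
      have e1 : ((n : ℝ) + 1) ≤ 8 / 7 * n := by linarith
      have e2 : ((n : ℝ) + 1) ^ 3 ≤ (8 / 7 * n) ^ 3 := pow_le_pow_left₀ (by linarith) e1 3
      have e3 : ((n : ℝ) + 1 - 1) ≤ 7 / 6 * ((n : ℝ) - 1) := by linarith
      calc ((n : ℝ) + 1) ^ 3 * ((n : ℝ) + 1 - 1) * (15 / 100) ≤
          (8 / 7 * n) ^ 3 * (7 / 6 * ((n : ℝ) - 1)) * (15 / 100) := by
            apply mul_le_mul_of_nonneg_right _ (by norm_num)
            exact mul_le_mul e2 e3 (by linarith) (by positivity)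
        _ = ((8 / 7) ^ 3 * (7 / 6) * (15 / 100)) * ((n : ℝ) ^ 3 * ((n : ℝ) - 1)) := by ring
        _ ≤ 1 * ((n : ℝ) ^ 3 * ((n : ℝ) - 1)) := by
            apply mul_le_mul_of_nonneg_right _ (by
              apply mul_nonneg (by positivity); linarith)
            norm_num
        _ = _ := by ring
    calc ((n : ℝ) + 1) ^ 3 * ((n : ℝ) + 1 - 1) * ((15 / 100) ^ (n - 2) * (15 / 100)) =
        (((n : ℝ) + 1) ^ 3 * ((n : ℝ) + 1 - 1) * (15 / 100)) * (15 / 100) ^ (n - 2) := by ring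
      _ ≤ ((n : ℝ) ^ 3 * ((n : ℝ) - 1)) * (15 / 100) ^ (n - 2) :=
          mul_le_mul_of_nonneg_right h2 (by positivity)
      _ ≤ _ := ih


theorem pt_834 (hneg : ∀ t : ℝ, phi (-t) = phi t)
    (hd : ∀ t : ℝ, HasDerivAt phi (-(∫ x in (-1 : ℝ)..1, w x * x * Real.sin (t * x)) / m0) t)
    (h3 : ∀ t : ℝ, 3 ≤ t → |phi t| ≤ 3 / 20)
    (hpos : ∀ t : ℝ, 0 ≤ t → t ≤ 69 / 20 → 0 < phi t)
    (hdec : ∀ t : ℝ, 0 < t → |phi t| ≤ cc * (√(t ^ 2 + 1) + 1) / t ^ 2)
    (hc1 : (0.708874905227206 : ℝ) ≤ cc) (hc2 : cc ≤ (0.708874905227208 : ℝ))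
    {n : ℕ} (hn7 : 7 ≤ n) (θ : Fin n → ℝ) (hθ0 : ∀ k, 0 ≤ θ k) (hθ : ∑ k, θ k ^ 2 = 1)
    (hD : ∑ k, (θ k ^ 2 - 1 / n) ^ 2 ≤ 12 / 1000 / (n : ℝ) ^ 2) (ξ : ℝ) (hξ : phi (ξ / √n) < 0) :
    (∏ k, phi (θ k * ξ)) - phi (ξ / √n) ^ n ≤
      ((n : ℝ) ^ 2 * ∑ k, (θ k ^ 2 - 1 / n) ^ 2) / 8 * Hf834 (C1h n) (C2h n) |ξ / √n| := by
  have hn0 : (0 : ℝ) < n := by exact_mod_cast (by omega : 0 < n)
  have hsn : 0 < √(n : ℝ) := Real.sqrt_pos.2 hn0
  set y := |ξ / √n| with hy
  have hy' : y = |ξ| / √n := by rw [hy, abs_div, abs_of_pos hsn]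
  have hpabs : ∀ t : ℝ, phi |t| = phi t := by
    intro t
    rcases abs_cases t with ⟨h, _⟩ | ⟨h, _⟩
    · rw [h]
    · rw [h, hneg]
  have hphi : phi (ξ / √n) = phi y := (hpabs _).symm
  rw [hphi] at hξ ⊢
  have hylow : 69 / 20 < y := by
    by_contra hcon
    exact absurd (hpos y (abs_nonneg _) (not_lt.1 hcon)) (not_lt.2 hξ.le)
  set v : Fin n → ℝ := fun k => n * θ k ^ 2 with hv
  have hEeq : (n : ℝ) ^ 2 * ∑ k, (θ k ^ 2 - 1 / n) ^ 2 = ∑ k, (v k - 1) ^ 2 := by
    rw [Finset.mul_sum]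
    refine Finset.sum_congr rfl fun k _ => ?_
    simp only [hv]
    field_simp
  have hE12 : ∑ k, (v k - 1) ^ 2 ≤ 12 / 1000 := by
    rw [← hEeq]
    calc (n : ℝ) ^ 2 * ∑ k, (θ k ^ 2 - 1 / n) ^ 2 ≤ (n : ℝ) ^ 2 * (12 / 1000 / (n : ℝ) ^ 2) :=
          mul_le_mul_of_nonneg_left hD (by positivity)
      _ = 12 / 1000 := by field_simp
  have hvI : ∀ k, v k ∈ Set.Icc (89 / 100 : ℝ) (111 / 100) := by
    intro k
    have h1 : (v k - 1) ^ 2 ≤ 12 / 1000 :=
      (Finset.single_le_sum (f := fun k => (v k - 1) ^ 2) (fun i _ => sq_nonneg _)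
        (Finset.mem_univ k)).trans hE12
    have h2 : (v k - 1) ^ 2 ≤ (11 / 100) ^ 2 := by norm_num; linarith
    have h4 := abs_le.1 (abs_le_of_sq_le_sq h2 (by norm_num))
    constructor
    · linarith [h4.1]
    · linarith [h4.2]
  have hsum : ∑ k, (v k - 1) = 0 := by
    rw [Finset.sum_sub_distrib (f := fun k => v k)]
    simp only [hv]
    rw [← Finset.mul_sum, hθ]
    simp
  have hprod : ∏ k, phi (θ k * ξ) = ∏ k, phi (√(v k) * y) := by
    refine Finset.prod_congr rfl fun k _ => ?_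
    rw [← hpabs (θ k * ξ)]
    congr 1
    rw [abs_mul, abs_of_nonneg (hθ0 k), hy']
    simp only [hv]
    rw [Real.sqrt_mul hn0.le, Real.sqrt_sq (hθ0 k)]
    field_simp
  rw [hprod, hEeq]
  rcases le_or_gt y 6 with h6 | h6
  · have h := head_834 hd h3 hc1 hc2 hn7 v hvI hsum y hylow h6
    have hH : Hf834 (C1h n) (C2h n) y = C1h n := by
      unfold Hf834
      rw [Set.indicator_of_mem (show y ∈ Set.Ioc (69 / 20 : ℝ) 6 from ⟨hylow, h6⟩),
        Set.indicator_of_notMem (by simp only [Set.mem_Ioi, not_lt]; exact h6), add_zero]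
    rw [hH]; exact h
  · have h := tail_834 hd h3 hdec hc1 hc2 hn7 v hvI hsum y h6
    have hH : Hf834 (C1h n) (C2h n) y = C2h n * (6 / y) ^ 5 := by
      unfold Hf834
      rw [Set.indicator_of_notMem (by simp only [Set.mem_Ioc, not_and, not_le]; intro _; exact h6),
        Set.indicator_of_mem (show y ∈ Set.Ioi (6 : ℝ) from h6), zero_add]
    rw [hH]; exact h

theorem num_834 (n : ℕ) (hn : 7 ≤ n) :
    (n : ℝ) ^ 2 / 8 * (√(n : ℝ) * (2 * (C1h n * (51 / 20) + C2h n * (3 / 2)))) ≤ 14 / 100 := by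
  have hn' : (7 : ℝ) ≤ n := by exact_mod_cast hn
  have hs7 : 26457 / 10000 ≤ √(n : ℝ) := by
    apply Real.le_sqrt_of_sq_le
    norm_num
    linarith
  have hsq : √(n : ℝ) * √(n : ℝ) = n := Real.mul_self_sqrt (by linarith)
  have hsn : √(n : ℝ) ≤ n * (10000 / 26457) := by
    have hs0 : 0 ≤ √(n : ℝ) := Real.sqrt_nonneg _
    nlinarith
  have hp := pw834 n hn
  have hC : C1h n * (51 / 20) + C2h n * (3 / 2) ≤ (15 / 100 : ℝ) ^ (n - 2) * (892 / 100 * ((n : ℝ) - 1)) := by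
    unfold C1h C2h
    have h1 : (15 / 100 : ℝ) ^ (n - 2) * (15 / 100 * (1178 / 100) + ((n : ℝ) - 1) * (2118 / 1000)) * (51 / 20) +
        (15 / 100 : ℝ) ^ (n - 2) * (15 / 100 * (1155 / 100) + ((n : ℝ) - 1) * (1556 / 1000)) * (3 / 2) =
        (15 / 100 : ℝ) ^ (n - 2) * ((15 / 100 * (1178 / 100) + ((n : ℝ) - 1) * (2118 / 1000)) * (51 / 20) +
          (15 / 100 * (1155 / 100) + ((n : ℝ) - 1) * (1556 / 1000)) * (3 / 2)) := by ring
    rw [h1]
    apply mul_le_mul_of_nonneg_left _ (by positivity)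
    nlinarith
  calc (n : ℝ) ^ 2 / 8 * (√(n : ℝ) * (2 * (C1h n * (51 / 20) + C2h n * (3 / 2)))) ≤
      (n : ℝ) ^ 2 / 8 * ((n * (10000 / 26457)) *
        (2 * ((15 / 100 : ℝ) ^ (n - 2) * (892 / 100 * ((n : ℝ) - 1))))) := by
        apply mul_le_mul_of_nonneg_left _ (by positivity)
        apply mul_le_mul hsn _ _ (by positivity)
        · linarith
        · have : 0 ≤ C1h n := by
            unfold C1h
            have : (0 : ℝ) ≤ (n : ℝ) - 1 := by linarith
            positivity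
          have : 0 ≤ C2h n := by
            unfold C2h
            have : (0 : ℝ) ≤ (n : ℝ) - 1 := by linarith
            positivity
          positivity
    _ = ((n : ℝ) ^ 3 * ((n : ℝ) - 1) * (15 / 100 : ℝ) ^ (n - 2)) *
        (1 / 8 * (10000 / 26457) * 2 * (892 / 100)) := by ring
    _ ≤ (343 * 6 * (15 / 100) ^ 5) * (1 / 8 * (10000 / 26457) * 2 * (892 / 100)) :=
        mul_le_mul_of_nonneg_right hp (by norm_num)
    _ ≤ _ := by norm_num

/-- local second order comparison on the negative set, odd number of factors -/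
theorem odd_local (hC2 : ContDiff ℝ 2 phi) (hneg : ∀ t : ℝ, phi (-t) = phi t)
    (hd : ∀ t : ℝ, HasDerivAt phi (-(∫ x in (-1 : ℝ)..1, w x * x * Real.sin (t * x)) / m0) t)
    (hint : ∀ s : ℝ, 1 < s → Integrable (fun t : ℝ => |phi t| ^ s))
    (h1 : ∀ t : ℝ, |phi t| ≤ 1)
    (h3 : ∀ t : ℝ, 3 ≤ t → |phi t| ≤ 3 / 20)
    (hpos : ∀ t : ℝ, 0 ≤ t → t ≤ 69 / 20 → 0 < phi t)
    (hR3 : ∀ T : ℝ, 3 ≤ T → Rt T ≤ 754 / 10000)
    (hdec : ∀ t : ℝ, 0 < t → |phi t| ≤ cc * (√(t ^ 2 + 1) + 1) / t ^ 2)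
    (hc1 : (0.708874905227206 : ℝ) ≤ cc) (hc2 : cc ≤ (0.708874905227208 : ℝ))
    {n : ℕ} (hn7 : 7 ≤ n) (θ : Fin n → ℝ) (hθ0 : ∀ k, 0 ≤ θ k) (hθ : ∑ k, θ k ^ 2 = 1)
    (hD : ∑ k, (θ k ^ 2 - 1 / n) ^ 2 ≤ 12 / 1000 / (n : ℝ) ^ 2) :
    ∫ ξ in {ξ : ℝ | phi (ξ / √n) < 0}, ((∏ k, phi (θ k * ξ)) - phi (ξ / √n) ^ n) ≤
      14 / 100 * ∑ k, (θ k ^ 2 - 1 / n) ^ 2 := by
  have hn0 : (0 : ℝ) < n := by exact_mod_cast (by omega : 0 < n)
  have hn' : (7 : ℝ) ≤ n := by exact_mod_cast hn7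
  have hsn : 0 < √(n : ℝ) := Real.sqrt_pos.2 hn0
  have hcont : Continuous phi := hC2.continuous
  set D := ∑ k, (θ k ^ 2 - 1 / n) ^ 2 with hDdef
  have hD0 : 0 ≤ D := Finset.sum_nonneg fun k _ => sq_nonneg _
  have hAm : MeasurableSet {ξ : ℝ | phi (ξ / √n) < 0} :=
    (isOpen_lt (hcont.comp (continuous_id.div_const _)) continuous_const).measurableSet
  have hC1 : 0 ≤ C1h n := by
    unfold C1h
    have : (0 : ℝ) ≤ (n : ℝ) - 1 := by linarith
    positivity
  have hC2' : 0 ≤ C2h n := by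
    unfold C2h
    have : (0 : ℝ) ≤ (n : ℝ) - 1 := by linarith
    positivity
  have hRHS : 0 ≤ 14 / 100 * D := by positivity
  by_cases hgi : IntegrableOn (fun ξ : ℝ => (∏ k, phi (θ k * ξ)) - phi (ξ / √n) ^ n)
      {ξ : ℝ | phi (ξ / √n) < 0}
  swap
  · rw [integral_undef hgi]; exact hRHS
  have hKint : Integrable (fun ξ : ℝ => ((n : ℝ) ^ 2 * D) / 8 * Hf834 (C1h n) (C2h n) |ξ / √n|) := by
    have h := (Hf834_abs_int (C1h n) (C2h n)).comp_div hsn.ne'
    exact h.const_mul _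
  calc ∫ ξ in {ξ : ℝ | phi (ξ / √n) < 0}, ((∏ k, phi (θ k * ξ)) - phi (ξ / √n) ^ n) ≤
      ∫ ξ in {ξ : ℝ | phi (ξ / √n) < 0}, ((n : ℝ) ^ 2 * D) / 8 * Hf834 (C1h n) (C2h n) |ξ / √n| := by
        refine setIntegral_mono_on hgi hKint.integrableOn hAm fun ξ hξ => ?_
        exact pt_834 hneg hd h3 hpos hdec hc1 hc2 hn7 θ hθ0 hθ hD ξ hξ
    _ ≤ ∫ ξ : ℝ, ((n : ℝ) ^ 2 * D) / 8 * Hf834 (C1h n) (C2h n) |ξ / √n| := by
        refine setIntegral_le_integral hKint (Filter.Eventually.of_forall fun ξ => ?_)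
        have := Hf834_nonneg (C1h n) (C2h n) |ξ / √n| hC1 hC2'
        show 0 ≤ ((n : ℝ) ^ 2 * D) / 8 * Hf834 (C1h n) (C2h n) |ξ / √n|
        positivity
    _ = ((n : ℝ) ^ 2 * D) / 8 * (√(n : ℝ) * (2 * (C1h n * (51 / 20) + C2h n * (3 / 2)))) := by
        rw [integral_const_mul]
        have h := Measure.integral_comp_div (fun y => Hf834 (C1h n) (C2h n) |y|) (√(n : ℝ))
        rw [h, Hf834_abs_val, abs_of_pos hsn, smul_eq_mul]
    _ = ((n : ℝ) ^ 2 / 8 * (√(n : ℝ) * (2 * (C1h n * (51 / 20) + C2h n * (3 / 2))))) * D := by ring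
    _ ≤ 14 / 100 * D := mul_le_mul_of_nonneg_right (num_834 n hn7) hD0

end
end CG3
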