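import Pool.Agent.CG3.Base2

open MeasureTheory ProbabilityTheory
open scoped BigOperators

namespace CG3
noncomputable section

theorem K7_exp_lb (x : ℝ) (hx : 0 ≤ x) : x - x ^ 2 / 2 ≤ 1 - Real.exp (-x) := by
  have h1 := Real.quadratic_le_exp_of_nonneg hx
  have h2 : 0 < 1 + x + x ^ 2 / 2 := by positivity
  have h3 : Real.exp (-x) ≤ 1 - x + x ^ 2 / 2 := by
    rw [Real.exp_neg]
    rw [inv_le_comm₀ (Real.exp_pos _) (by nlinarith [sq_nonneg (x - 1)])]
    refine le_trans ?_ h1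
    rw [inv_le_iff_one_le_mul₀ (by nlinarith [sq_nonneg (x - 1)])]
    nlinarith [sq_nonneg (x ^ 2)]
  linarith

theorem K7_num (n : ℕ) (hn : 7 ≤ n) :
    ((n : ℝ) + 7) * (n : ℝ) ^ 2 * (15 / 100 : ℝ) ^ (n - 2) ≤ 14 * 49 * (15 / 100 : ℝ) ^ 5 := by
  induction n, hn using Nat.le_induction with
  | base => norm_num
  | succ m hm ih =>
    have h7 : (7 : ℝ) ≤ m := by exact_mod_cast hm
    have e : m + 1 - 2 = (m - 2) + 1 := by omega
    rw [e, pow_succ (15 / 100 : ℝ) (m - 2)]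
    push_cast
    refine le_trans ?_ ih
    have hq : (0 : ℝ) ≤ (15 / 100 : ℝ) ^ (m - 2) := by positivity
    have hm2 : ((m : ℝ) + 1 + 7) * ((m : ℝ) + 1) ^ 2 * (15 / 100) ≤ ((m : ℝ) + 7) * (m : ℝ) ^ 2 := by
      nlinarith [mul_nonneg (sub_nonneg.2 h7) (sub_nonneg.2 h7),
        mul_nonneg (mul_nonneg (sub_nonneg.2 h7) (sub_nonneg.2 h7)) (sub_nonneg.2 h7)]
    nlinarith [mul_le_mul_of_nonneg_right hm2 hq]

theorem K7_num2 (n : ℕ) (hn : 7 ≤ n) :
    288 / 1000 * √(n : ℝ) * (15 / 100 : ℝ) ^ (n - 2) ≤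
      45411 / 10000 * (1 - Real.exp (-(78 / 100000 / (n : ℝ) ^ 2))) := by
  have h7 : (7 : ℝ) ≤ n := by exact_mod_cast hn
  have hn0 : (0 : ℝ) < n := by linarith
  have hx0 : 0 ≤ 78 / 100000 / (n : ℝ) ^ 2 := by positivity
  have h1 := K7_exp_lb _ hx0
  have hs : √(n : ℝ) ≤ ((n : ℝ) + 7) / (52914 / 10000) := by
    have := Real.sq_sqrt hn0.le
    rw [le_div_iff₀ (by norm_num)]
    nlinarith [sq_nonneg (√(n : ℝ) - 26457 / 10000)]
  have hq : (0 : ℝ) ≤ (15 / 100 : ℝ) ^ (n - 2) := by positivity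
  have h2 := K7_num n hn
  have h3 : 288 / 1000 * √(n : ℝ) * (15 / 100 : ℝ) ^ (n - 2) ≤ 28354 / 10000000 / (n : ℝ) ^ 2 := by
    rw [le_div_iff₀ (by positivity)]
    have h4 : √(n : ℝ) * (15 / 100 : ℝ) ^ (n - 2) ≤ ((n : ℝ) + 7) / (52914 / 10000) * (15 / 100 : ℝ) ^ (n - 2) :=
      mul_le_mul_of_nonneg_right hs hq
    have h5 := mul_le_mul_of_nonneg_right h4 (by positivity : (0 : ℝ) ≤ (n : ℝ) ^ 2)
    have h6 : ((n : ℝ) + 7) / (52914 / 10000) * (15 / 100 : ℝ) ^ (n - 2) * (n : ℝ) ^ 2 =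
      (((n : ℝ) + 7) * (n : ℝ) ^ 2 * (15 / 100 : ℝ) ^ (n - 2)) / (52914 / 10000) := by ring
    rw [h6] at h5
    have h7 : (((n : ℝ) + 7) * (n : ℝ) ^ 2 * (15 / 100 : ℝ) ^ (n - 2)) / (52914 / 10000) ≤
      (14 * 49 * (15 / 100 : ℝ) ^ 5) / (52914 / 10000) := div_le_div_of_nonneg_right h2 (by norm_num)
    have h8 : (14 * 49 * (15 / 100 : ℝ) ^ 5) / (52914 / 10000) ≤ 984487 / 100000000 := by norm_num
    nlinarith
  have hy : ∃ y : ℝ, y = 1 / (n : ℝ) ^ 2 := ⟨_, rfl⟩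
  obtain ⟨y, hy⟩ := hy
  have hy0 : 0 ≤ y := by rw [hy]; positivity
  have hy1 : y ≤ 1 / 49 := by
    rw [hy]
    exact one_div_le_one_div_of_le (by norm_num) (by nlinarith)
  have e1 : 78 / 100000 / (n : ℝ) ^ 2 = 78 / 100000 * y := by rw [hy]; ring
  have e2 : 28354 / 10000000 / (n : ℝ) ^ 2 = 28354 / 10000000 * y := by rw [hy]; ring
  rw [e1] at h1 ⊢
  rw [e2] at h3
  nlinarith [mul_nonneg hy0 (sub_nonneg.2 hy1)]

/-- odd number of equal coordinates: the main diagonal is optimal when all squares are `≤ .36` -/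
theorem odd_case (hcont : Continuous phi) (h1 : ∀ t : ℝ, |phi t| ≤ 1)
    (hint : ∀ s : ℝ, 1 < s → Integrable (fun t : ℝ => |phi t| ^ s))
    (hneg : ∀ t : ℝ, phi (-t) = phi t)
    (h3 : ∀ t : ℝ, 3 ≤ t → |phi t| ≤ 3 / 20)
    (hpos : ∀ t : ℝ, 0 ≤ t → t ≤ 69 / 20 → 0 < phi t)
    (hR1 : ∀ T : ℝ, 69 / 20 ≤ T → Rt T ≤ 720 / 10000)
    (n : ℕ) (hn : 7 ≤ n) (hodd : Odd n)
    (hdiag : 45411 / 10000 ≤ ∫ ξ : ℝ, phi (ξ / √n) ^ n)
    (θ : Fin n → ℝ) (hθ0 : ∀ k, 0 ≤ θ k) (hθ : ∑ k, θ k ^ 2 = 1) (hx : ∀ k, θ k ^ 2 ≤ 36 / 100)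
    -- Hoelder
    (hHol : Integrable (fun ξ : ℝ => ∏ i, |phi (θ i * ξ)|) ∧
      ∫ ξ : ℝ, ∏ i, |phi (θ i * ξ)| ≤ Real.exp (∑ i, Hs (θ i ^ 2)))
    -- supporting line
    (a : ℝ) (hline : ∀ u : ℝ, 0 ≤ u → u ≤ 36 / 100 →
      Hs u ≤ Hs (1 / n) + a * (u - 1 / n) ∧
      (u ≤ 1 / 6 → Hs u ≤ Hs (1 / n) + a * (u - 1 / n) - 65 / 1000 * (u - 1 / n) ^ 2) ∧
      (1 / 6 ≤ u → Hs u ≤ Hs (1 / n) + a * (u - 1 / n) - 65 / 1000 * (1 / 6 - 1 / n) ^ 2))
    -- local comparison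
    (hloc : ∑ k, (θ k ^ 2 - 1 / n) ^ 2 ≤ 12 / 1000 / (n : ℝ) ^ 2 →
      ∫ ξ in {ξ : ℝ | phi (ξ / √n) < 0}, ((∏ k, phi (θ k * ξ)) - phi (ξ / √n) ^ n) ≤
        14 / 100 * ∑ k, (θ k ^ 2 - 1 / n) ^ 2) :
    ∫ ξ : ℝ, ∏ k, phi (θ k * ξ) ≤ ∫ ξ : ℝ, phi (ξ / √n) ^ n := by
  classical
  have h7 : (7 : ℝ) ≤ n := by exact_mod_cast hn
  have hn0 : (0 : ℝ) < n := by linarith
  have hn0' : n ≠ 0 := by omega
  obtain ⟨s, hsdef⟩ : ∃ s, s = √(n : ℝ) := ⟨_, rfl⟩
  have hs : 0 < s := by rw [hsdef]; exact Real.sqrt_pos.2 hn0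
  rw [← hsdef] at hdiag hloc ⊢
  have habs : ∀ t : ℝ, phi |t| = phi t := by
    intro t
    rcases abs_cases t with h | h
    · rw [h.1]
    · rw [h.1, hneg]
  -- integrability
  have hintn : Integrable (fun t : ℝ => |phi t| ^ n) := by
    have := hint (n : ℝ) (by linarith)
    simpa [Real.rpow_natCast] using this
  have hintn' : Integrable (fun t : ℝ => phi t ^ n) := by
    refine (integrable_norm_iff (hcont.pow n).aestronglyMeasurable).1 ?_
    simpa [Real.norm_eq_abs, abs_pow] using hintn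
  have hint2 : Integrable (fun t : ℝ => phi t ^ 2) := by
    have := hint 2 (by norm_num)
    have e : (fun t : ℝ => |phi t| ^ (2 : ℝ)) = fun t => phi t ^ 2 := by
      funext t
      rw [Real.rpow_two, sq_abs]
    rwa [e] at this
  have hI0 : Integrable (fun ξ : ℝ => phi (ξ / s) ^ n) := hintn'.comp_div hs.ne'
  have hcθ : Continuous (fun ξ : ℝ => ∏ k, phi (θ k * ξ)) :=
    continuous_finsetProd _ fun k _ => hcont.comp (continuous_const.mul continuous_id)
  have habsθ : ∀ ξ : ℝ, |∏ k, phi (θ k * ξ)| = ∏ k, |phi (θ k * ξ)| := fun ξ => Finset.abs_prod _ _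
  have hIθ : Integrable (fun ξ : ℝ => ∏ k, phi (θ k * ξ)) := by
    refine (integrable_norm_iff hcθ.aestronglyMeasurable).1 ?_
    simp only [Real.norm_eq_abs, habsθ]
    exact hHol.1
  -- Psi
  have hPsi1 : ∫ ξ : ℝ, |phi (ξ / s) ^ n| = s * Is n := by
    have h := Measure.integral_comp_div (fun t : ℝ => |phi t ^ n|) s
    simp only [smul_eq_mul] at h
    rw [h, abs_of_pos hs]
    congr 1
    unfold Is
    congr 1
    funext t
    rw [Real.rpow_natCast, abs_pow]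
  have hle1 : ∫ ξ : ℝ, phi (ξ / s) ^ n ≤ ∫ ξ : ℝ, |phi (ξ / s) ^ n| :=
    integral_mono hI0 hI0.abs fun ξ => le_abs_self _
  have hPsilb : 45411 / 10000 ≤ s * Is n := by linarith
  have hIspos : 0 < s * Is n := by linarith
  have hPsi : Real.exp (n * Hs (1 / n)) = s * Is n := by
    have e1 : ((1 / (n : ℝ)) ^ (-(1 / 2) : ℝ)) = s := by
      rw [one_div, Real.inv_rpow hn0.le, Real.rpow_neg hn0.le, inv_inv, ← Real.sqrt_eq_rpow, hsdef]
    have e2 : (1 / (1 / (n : ℝ))) = n := by field_simp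
    unfold Hs
    rw [e1, e2, ← mul_assoc, mul_one_div_cancel hn0.ne', one_mul, Real.exp_log hIspos]
  -- the set A
  have hmeas : MeasurableSet {ξ : ℝ | phi (ξ / s) < 0} :=
    (isOpen_lt (hcont.comp (continuous_id.div_const s)) continuous_const).measurableSet
  have hmeas' : MeasurableSet {t : ℝ | phi t < 0} := (isOpen_lt hcont continuous_const).measurableSet
  have hsplit : ∫ ξ : ℝ, |phi (ξ / s) ^ n| = (∫ ξ : ℝ, phi (ξ / s) ^ n) -
      2 * ∫ ξ in {ξ : ℝ | phi (ξ / s) < 0}, phi (ξ / s) ^ n := by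
    rw [← integral_indicator hmeas, ← integral_const_mul, ← integral_sub hI0 ((hI0.indicator hmeas).const_mul 2)]
    congr 1
    funext ξ
    by_cases hξ : phi (ξ / s) < 0
    · rw [Set.indicator_of_mem (show ξ ∈ {ξ : ℝ | phi (ξ / s) < 0} from hξ)]
      rw [abs_of_neg (hodd.pow_neg hξ)]
      ring
    · rw [Set.indicator_of_notMem (show ξ ∉ {ξ : ℝ | phi (ξ / s) < 0} from hξ)]
      rw [abs_of_nonneg (pow_nonneg (not_lt.1 hξ) n)]
      ring
  -- tail bound
  have htail : -(∫ ξ in {ξ : ℝ | phi (ξ / s) < 0}, phi (ξ / s) ^ n) ≤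
      144 / 1000 * s * (15 / 100 : ℝ) ^ (n - 2) := by
    have e1 : ∫ ξ in {ξ : ℝ | phi (ξ / s) < 0}, phi (ξ / s) ^ n =
        s * ∫ t : ℝ, Set.indicator {t : ℝ | phi t < 0} (fun t => phi t ^ n) t := by
      rw [← integral_indicator hmeas]
      have h := Measure.integral_comp_div (fun t : ℝ => Set.indicator {t : ℝ | phi t < 0} (fun t => phi t ^ n) t) s
      simp only [smul_eq_mul] at h
      rw [abs_of_pos hs] at h
      rw [← h]
      congr 1
    have e2 : ∫ t : ℝ, Set.indicator {t : ℝ | 69 / 20 < |t|} (fun t => phi t ^ 2) t = 2 * Rt (69 / 20) := by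
      have h := integral_comp_abs (f := Set.indicator (Set.Ioi (69 / 20 : ℝ)) (fun t => phi t ^ 2))
      have e3 : ∫ x in Set.Ioi (0 : ℝ), Set.indicator (Set.Ioi (69 / 20 : ℝ)) (fun t => phi t ^ 2) x = Rt (69 / 20) := by
        rw [setIntegral_indicator measurableSet_Ioi]
        unfold Rt
        congr 2
        ext x
        simp only [Set.mem_inter_iff, Set.mem_Ioi]
        constructor
        · exact fun h => h.2
        · exact fun h => ⟨by linarith, h⟩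
      rw [e3] at h
      rw [← h]
      congr 1
      funext t
      by_cases ht : 69 / 20 < |t|
      · rw [Set.indicator_of_mem (show t ∈ {t : ℝ | 69 / 20 < |t|} from ht),
          Set.indicator_of_mem (show |t| ∈ Set.Ioi (69 / 20 : ℝ) from ht), habs]
      · rw [Set.indicator_of_notMem (show t ∉ {t : ℝ | 69 / 20 < |t|} from ht),
          Set.indicator_of_notMem (show |t| ∉ Set.Ioi (69 / 20 : ℝ) from ht)]
    have hm3 : MeasurableSet {t : ℝ | 69 / 20 < |t|} :=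
      (isOpen_lt continuous_const continuous_abs).measurableSet
    have e4 : -(∫ t : ℝ, Set.indicator {t : ℝ | phi t < 0} (fun t => phi t ^ n) t) ≤
        (15 / 100 : ℝ) ^ (n - 2) * (2 * Rt (69 / 20)) := by
      rw [← e2, ← integral_neg, ← integral_const_mul]
      refine integral_mono (hintn'.indicator hmeas').neg ((hint2.indicator hm3).const_mul _) ?_
      intro t
      show -(Set.indicator {t : ℝ | phi t < 0} (fun t => phi t ^ n) t) ≤
        (15 / 100 : ℝ) ^ (n - 2) * Set.indicator {t : ℝ | 69 / 20 < |t|} (fun t => phi t ^ 2) t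
      by_cases ht : phi t < 0
      · rw [Set.indicator_of_mem (show t ∈ {t : ℝ | phi t < 0} from ht)]
        have ht2 : 69 / 20 < |t| := by
          by_contra hcon
          have := hpos |t| (abs_nonneg t) (not_lt.1 hcon)
          rw [habs] at this
          linarith
        rw [Set.indicator_of_mem (show t ∈ {t : ℝ | 69 / 20 < |t|} from ht2)]
        have h3' := h3 |t| (by linarith)
        rw [habs] at h3'
        have e5 : -(phi t ^ n) = |phi t| ^ (n - 2) * phi t ^ 2 := by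
          rw [← sq_abs (phi t), ← pow_add, show n - 2 + 2 = n by omega, ← abs_pow,
            abs_of_neg (hodd.pow_neg ht)]
        rw [e5]
        refine mul_le_mul_of_nonneg_right ?_ (sq_nonneg _)
        refine pow_le_pow_left₀ (abs_nonneg _) ?_ _
        norm_num at h3' ⊢
        linarith
      · rw [Set.indicator_of_notMem (show t ∉ {t : ℝ | phi t < 0} from ht)]
        have : 0 ≤ Set.indicator {t : ℝ | 69 / 20 < |t|} (fun t => phi t ^ 2) t :=
          Set.indicator_nonneg (fun t _ => sq_nonneg _) t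
        have h9 : (0 : ℝ) ≤ (15 / 100 : ℝ) ^ (n - 2) := by positivity
        simpa using mul_nonneg h9 this
    have hR := hR1 (69 / 20) le_rfl
    rw [e1]
    have hq : (0 : ℝ) ≤ (15 / 100 : ℝ) ^ (n - 2) := by positivity
    have e6 : (15 / 100 : ℝ) ^ (n - 2) * (2 * Rt (69 / 20)) ≤ (15 / 100 : ℝ) ^ (n - 2) * (144 / 1000) :=
      mul_le_mul_of_nonneg_left (by linarith) hq
    have e7 := mul_le_mul_of_nonneg_left (e4.trans e6) hs.le
    nlinarith
  -- the sum of the linear terms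
  obtain ⟨D, hD⟩ : ∃ D, D = ∑ k, (θ k ^ 2 - 1 / (n : ℝ)) ^ 2 := ⟨_, rfl⟩
  rw [← hD] at hloc
  have hD0 : 0 ≤ D := by rw [hD]; exact Finset.sum_nonneg fun k _ => sq_nonneg _
  have hlin : ∑ k : Fin n, (Hs (1 / n) + a * (θ k ^ 2 - 1 / (n : ℝ))) = n * Hs (1 / n) := by
    rw [Finset.sum_add_distrib, ← Finset.mul_sum, Finset.sum_sub_distrib, hθ]
    simp only [Finset.sum_const, Finset.card_univ, Fintype.card_fin, nsmul_eq_mul]
    rw [mul_one_div_cancel hn0.ne']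
    ring
  have hgapall : (∀ k, θ k ^ 2 ≤ 1 / 6) → ∑ k, Hs (θ k ^ 2) ≤ n * Hs (1 / n) - 65 / 1000 * D := by
    intro hall
    rw [← hlin, hD, Finset.mul_sum, ← Finset.sum_sub_distrib]
    exact Finset.sum_le_sum fun k _ => (hline _ (sq_nonneg _) (hx k)).2.1 (hall k)
  have hexpθ : ∀ g : ℝ, ∑ k, Hs (θ k ^ 2) ≤ n * Hs (1 / n) - g →
      ∫ ξ : ℝ, ∏ i, |phi (θ i * ξ)| ≤ s * Is n * Real.exp (-g) := by
    intro g hg
    refine hHol.2.trans ?_
    rw [← hPsi, ← Real.exp_add]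
    exact Real.exp_le_exp.2 (by linarith)
  by_cases hc : D ≤ 12 / 1000 / (n : ℝ) ^ 2
  · -- near the diagonal
    have hall : ∀ k, θ k ^ 2 ≤ 1 / 6 := by
      intro k
      have h1' : (θ k ^ 2 - 1 / (n : ℝ)) ^ 2 ≤ D := by
        rw [hD]
        exact Finset.single_le_sum (f := fun k => (θ k ^ 2 - 1 / (n : ℝ)) ^ 2)
          (fun k _ => sq_nonneg _) (Finset.mem_univ k)
      have h2' : (θ k ^ 2 - 1 / (n : ℝ)) ^ 2 ≤ (11 / 100 * (1 / (n : ℝ))) ^ 2 := by
        refine (h1'.trans hc).trans ?_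
        rw [mul_pow, one_div, inv_pow, div_eq_mul_inv]
        have : (0 : ℝ) ≤ ((n : ℝ) ^ 2)⁻¹ := by positivity
        nlinarith
      have h3' := abs_le_of_sq_le_sq h2' (by positivity)
      have h4' : 1 / (n : ℝ) ≤ 1 / 7 := one_div_le_one_div_of_le (by norm_num) h7
      have h5' := (abs_le.1 h3').2
      linarith
    have hgap := hexpθ _ (hgapall hall)
    have hloc' := hloc hc
    rw [integral_sub hIθ.integrableOn hI0.integrableOn] at hloc'
    have hθA : ∫ ξ : ℝ, ∏ k, phi (θ k * ξ) ≤ (∫ ξ : ℝ, ∏ i, |phi (θ i * ξ)|) +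
        2 * ∫ ξ in {ξ : ℝ | phi (ξ / s) < 0}, ∏ k, phi (θ k * ξ) := by
      rw [← integral_indicator hmeas, ← integral_const_mul,
        ← integral_add hHol.1 ((hIθ.indicator hmeas).const_mul 2)]
      refine integral_mono hIθ (hHol.1.add ((hIθ.indicator hmeas).const_mul 2)) ?_
      intro ξ
      show ∏ k, phi (θ k * ξ) ≤ ∏ i, |phi (θ i * ξ)| +
        2 * Set.indicator {ξ : ℝ | phi (ξ / s) < 0} (fun ξ => ∏ k, phi (θ k * ξ)) ξ
      rw [← habsθ]
      by_cases hξ : phi (ξ / s) < 0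
      · rw [Set.indicator_of_mem (show ξ ∈ {ξ : ℝ | phi (ξ / s) < 0} from hξ)]
        have := neg_abs_le (∏ k, phi (θ k * ξ))
        linarith
      · rw [Set.indicator_of_notMem (show ξ ∉ {ξ : ℝ | phi (ξ / s) < 0} from hξ)]
        have := le_abs_self (∏ k, phi (θ k * ξ))
        linarith
    have hx0 : 0 ≤ 65 / 1000 * D := by positivity
    have hexp := K7_exp_lb _ hx0
    have hDs : D ≤ 12 / 1000 / 49 := by
      refine hc.trans ?_
      exact div_le_div_of_nonneg_left (by norm_num) (by norm_num) (by nlinarith)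
    have hkey : 28 / 100 * D ≤ s * Is n * (1 - Real.exp (-(65 / 1000 * D))) := by
      have h1' : 0 ≤ 65 / 1000 * D - (65 / 1000 * D) ^ 2 / 2 := by nlinarith
      calc 28 / 100 * D ≤ 45411 / 10000 * (65 / 1000 * D - (65 / 1000 * D) ^ 2 / 2) := by nlinarith
        _ ≤ s * Is n * (65 / 1000 * D - (65 / 1000 * D) ^ 2 / 2) :=
            mul_le_mul_of_nonneg_right hPsilb h1'
        _ ≤ _ := mul_le_mul_of_nonneg_left hexp hIspos.le
    have hkey2 : s * Is n * (1 - Real.exp (-(65 / 1000 * D))) =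
      s * Is n - s * Is n * Real.exp (-(65 / 1000 * D)) := by ring
    rw [hkey2] at hkey
    linarith
  · -- far from the diagonal
    have hc' := not_le.1 hc
    have hgap : ∑ k, Hs (θ k ^ 2) ≤ n * Hs (1 / n) - 78 / 100000 / (n : ℝ) ^ 2 := by
      by_cases hall : ∀ k, θ k ^ 2 ≤ 1 / 6
      · refine (hgapall hall).trans ?_
        have : 78 / 100000 / (n : ℝ) ^ 2 = 65 / 1000 * (12 / 1000 / (n : ℝ) ^ 2) := by ring
        rw [this]
        linarith
      · push Not at hall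
        obtain ⟨k0, hk0⟩ := hall
        have h1' : ∑ k, Hs (θ k ^ 2) ≤ ∑ k, ((Hs (1 / n) + a * (θ k ^ 2 - 1 / (n : ℝ))) -
            (if k = k0 then 65 / 1000 * (1 / 6 - 1 / (n : ℝ)) ^ 2 else 0)) := by
          refine Finset.sum_le_sum fun k _ => ?_
          by_cases hk : k = k0
          · rw [if_pos hk]
            subst hk
            exact (hline _ (sq_nonneg _) (hx k)).2.2 hk0.le
          · rw [if_neg hk, sub_zero]
            exact (hline _ (sq_nonneg _) (hx k)).1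
        rw [Finset.sum_sub_distrib, hlin, Finset.sum_ite_eq' Finset.univ k0, if_pos (Finset.mem_univ _)] at h1'
        refine h1'.trans ?_
        have h4' : 1 / (n : ℝ) ≤ 1 / 7 := one_div_le_one_div_of_le (by norm_num) h7
        have h5' : (1 / 42 : ℝ) ^ 2 ≤ (1 / 6 - 1 / (n : ℝ)) ^ 2 :=
          pow_le_pow_left₀ (by norm_num) (by linarith) 2
        have h6' : 78 / 100000 / (n : ℝ) ^ 2 ≤ 78 / 100000 / 49 :=
          div_le_div_of_nonneg_left (by norm_num) (by norm_num) (by nlinarith)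
        linarith
    have h1' := hexpθ _ hgap
    have h2' : ∫ ξ : ℝ, ∏ k, phi (θ k * ξ) ≤ ∫ ξ : ℝ, ∏ i, |phi (θ i * ξ)| :=
      integral_mono hIθ hHol.1 fun ξ => by
        show ∏ k, phi (θ k * ξ) ≤ ∏ i, |phi (θ i * ξ)|
        rw [← habsθ]
        exact le_abs_self _
    have h3' := K7_num2 n hn
    rw [← hsdef] at h3'
    have h4' : 0 ≤ 1 - Real.exp (-(78 / 100000 / (n : ℝ) ^ 2)) := by
      rw [sub_nonneg]
      exact Real.exp_le_one_iff.2 (neg_nonpos.2 (by positivity))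
    have h5' := mul_le_mul_of_nonneg_right hPsilb h4'
    have h6' : s * Is n * (1 - Real.exp (-(78 / 100000 / (n : ℝ) ^ 2))) =
      s * Is n - s * Is n * Real.exp (-(78 / 100000 / (n : ℝ) ^ 2)) := by ring
    rw [h6'] at h5'
    have h7' : 288 / 1000 * s * (15 / 100 : ℝ) ^ (n - 2) = 2 * (144 / 1000 * s * (15 / 100 : ℝ) ^ (n - 2)) := by ring
    rw [h7'] at h3'
    linarith

end
end CG3
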