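import Pool.Agent.CG3.Assem1
import Pool.Agent.CG3.K7
import Pool.Agent.CG3.J18

open MeasureTheory ProbabilityTheory
open scoped BigOperators

namespace CG3
noncomputable section

theorem Hs_zero : Hs 0 = 0 := by simp [Hs]

theorem fHolder {n : ℕ} (θ : Fin n → ℝ) (hθ0 : ∀ i, 0 ≤ θ i) (hθ : ∑ i, θ i ^ 2 = 1)
    (hlt : ∀ i, θ i < 1) :
    Integrable (fun ξ : ℝ => ∏ i, |phi (θ i * ξ)|) ∧
    ∫ ξ : ℝ, ∏ i, |phi (θ i * ξ)| ≤ Real.exp (∑ i, Hs (θ i ^ 2)) :=
  holder_exp phi_cont phi_zero phi_abs_le_one phi_rpow_integrable Is_pos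
    (fun _ θ μ h1 h2 h3 h4 => holder_phi θ μ h1 h2 h3 h4 phi_rpow_integrable phi_meas)
    θ hθ0 hθ hlt

theorem le_abs_prod {n : ℕ} (θ : Fin n → ℝ) :
    ∫ ξ : ℝ, ∏ k, phi (θ k * ξ) ≤ ∫ ξ : ℝ, ∏ k, |phi (θ k * ξ)| := by
  refine (le_abs_self _).trans ((abs_integral_le_integral_abs).trans (le_of_eq ?_))
  congr 1
  ext ξ
  rw [Finset.abs_prod]

theorem F2_ge : (453228 / 100000 : ℝ) ≤ F2 := by
  have h2 : (14142135 / 10000000 : ℝ) ≤ √2 := by
    rw [Real.le_sqrt (by norm_num) (by norm_num)]; norm_num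
  have hpi := Real.pi_gt_d6
  have hB := B1_lo
  have hm := m0_hi
  have hm0 := m0_pos
  have hpi' : (3.141592 : ℝ) ≤ Real.pi := hpi.le
  have e1 : (3.141592 * 2 * 1.49364826562485405 : ℝ) ≤ 2 * Real.pi * B1 := by
    have hpi0 := Real.pi_pos
    nlinarith
  have e2 : m0 ^ 2 ≤ (2.92837241 : ℝ) := by nlinarith
  have e3 : (3.141592 * 2 * 1.49364826562485405 / 2.92837241 : ℝ) ≤ 2 * Real.pi * B1 / m0 ^ 2 := by
    rw [div_le_div_iff₀ (by norm_num) (by positivity)]
    nlinarith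
  unfold F2
  calc (453228 / 100000 : ℝ) ≤ 14142135 / 10000000 * (3.141592 * 2 * 1.49364826562485405 / 2.92837241) := by
        norm_num
    _ ≤ √2 * (2 * Real.pi * B1 / m0 ^ 2) := by
        apply mul_le_mul h2 e3 (by norm_num) (by positivity)

theorem F2_le : F2 ≤ (45411 / 10000 : ℝ) := by
  have h2 : √2 ≤ (1415 / 1000 : ℝ) := by
    rw [Real.sqrt_le_left (by norm_num)]; norm_num
  have h2' : √2 ≤ (141422 / 100000 : ℝ) := by
    rw [Real.sqrt_le_left (by norm_num)]; norm_num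
  have hpi := Real.pi_lt_d6
  have hpi' : Real.pi ≤ (3.141593 : ℝ) := hpi.le
  have hB := B1_hi
  have hB0 : (0 : ℝ) < B1 := lt_of_lt_of_le (by norm_num) B1_lo
  have hm := m0_lo
  have hm0 := m0_pos
  have hpi0 := Real.pi_pos
  have e1 : 2 * Real.pi * B1 ≤ (3.141593 * 2 * 1.4936483 : ℝ) := by
    have : B1 ≤ (1.4936483 : ℝ) := hB.trans (by norm_num)
    nlinarith
  have e2 : (2.92837 : ℝ) ≤ m0 ^ 2 := by nlinarith
  have e3 : 2 * Real.pi * B1 / m0 ^ 2 ≤ (3.141593 * 2 * 1.4936483 / 2.92837 : ℝ) := by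
    rw [div_le_div_iff₀ (by positivity) (by norm_num)]
    nlinarith
  unfold F2
  calc √2 * (2 * Real.pi * B1 / m0 ^ 2) ≤ 141422 / 100000 * (3.141593 * 2 * 1.4936483 / 2.92837) := by
        apply mul_le_mul h2' e3 (by positivity) (by norm_num)
    _ ≤ 45411 / 10000 := by norm_num

/-- the Nazarov-Podkorytov bound in terms of `Hs` -/
theorem Hs_NP (u : ℝ) (hu : 0 < u) (hu2 : u ≤ 1 / 2) :
    u ^ (-(1 / 2) : ℝ) * Is (1 / u) ≤ √(2 * Real.pi / (1 - cc)) := by
  have hs : 2 ≤ 1 / u := by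
    rw [le_div_iff₀ hu]; linarith
  have h := fNP (1 / u) hs
  have hcc : 0 < 1 - cc := by have := cc_hi; linarith
  have e : 2 * Real.pi / (1 / u * (1 - cc)) = u * (2 * Real.pi / (1 - cc)) := by
    field_simp
  rw [e, Real.sqrt_mul hu.le] at h
  have e2 : u ^ (-(1 / 2) : ℝ) = (√u)⁻¹ := by
    rw [Real.rpow_neg hu.le, Real.sqrt_eq_rpow]
  have hsu : 0 < √u := Real.sqrt_pos.mpr hu
  rw [e2]
  unfold Is
  rw [inv_mul_le_iff₀ hsu]
  exact h

theorem NP_const : √(2 * Real.pi / (1 - cc)) ≤ 46458 / 10000 := by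
  rw [Real.sqrt_le_left (by norm_num)]
  have hcc : 0 < 1 - cc := by have := cc_hi; linarith
  have hpi := Real.pi_lt_d6
  have hpi' : Real.pi ≤ (3.141593 : ℝ) := hpi.le
  have := cc_hi
  rw [div_le_iff₀ hcc]
  nlinarith

/-- line bound for at most five coordinates -/
theorem lineA5_all (u : ℝ) (hu : 0 < u) (hu2 : u ≤ 36 / 100) :
    Hs u ≤ u * Real.log (453228 / 100000) + 45 / 10000 * (1 - 5 * u) := by
  rcases le_total (94 / 1000 : ℝ) u with h | h
  · have h1 := lineA5 u (by norm_num at h ⊢; linarith) (by norm_num at hu2 ⊢; linarith)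
    norm_num at h1 ⊢
    linarith
  · have h1 := (Hs_NP u hu (by linarith)).trans NP_const
    have hpos : 0 < u ^ (-(1 / 2) : ℝ) * Is (1 / u) := by
      have : 1 < 1 / u := by rw [lt_div_iff₀ hu]; linarith
      exact mul_pos (Real.rpow_pos_of_pos hu _) (Is_pos _ this)
    have h2 : Hs u ≤ u * Real.log (46458 / 10000) := by
      unfold Hs
      exact mul_le_mul_of_nonneg_left (Real.log_le_log hpos h1) hu.le
    have h3 : Real.log (46458 / 10000) ≤ Real.log (453228 / 100000) + 2505 / 100000 := by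
      have e : (46458 / 10000 : ℝ) = 453228 / 100000 * (46458 * 10 / 453228) := by norm_num
      rw [e, Real.log_mul (by norm_num) (by norm_num)]
      have := Real.log_le_sub_one_of_pos (show (0 : ℝ) < 46458 * 10 / 453228 by norm_num)
      have h4 : (46458 * 10 / 453228 : ℝ) - 1 ≤ 2505 / 100000 := by norm_num
      linarith
    have h5 : u * Real.log (46458 / 10000) ≤ u * (Real.log (453228 / 100000) + 2505 / 100000) :=
      mul_le_mul_of_nonneg_left h3 hu.le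
    nlinarith

/-- region A for at most five nonzero coordinates -/
theorem regionA5 {n : ℕ} (θ : Fin n → ℝ) (hθ0 : ∀ k, 0 ≤ θ k) (hθ : ∑ k, θ k ^ 2 = 1)
    (hlt : ∀ k, θ k < 1) (hx : ∀ k, θ k ^ 2 ≤ 36 / 100)
    (hcard : (Finset.univ.filter (fun k => θ k ≠ 0)).card ≤ 5) :
    ∫ ξ : ℝ, ∏ k, phi (θ k * ξ) ≤ F2 := by
  have h1 := (le_abs_prod θ).trans (fHolder θ hθ0 hθ hlt).2
  have h2 : ∑ k, Hs (θ k ^ 2) ≤ Real.log (453228 / 100000) := by
    have e : ∑ k, Hs (θ k ^ 2) = ∑ k ∈ Finset.univ.filter (fun k => θ k ≠ 0), Hs (θ k ^ 2) := by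
      rw [Finset.sum_filter]
      refine Finset.sum_congr rfl (fun k _ => ?_)
      by_cases h : θ k = 0
      · simp [h, Hs_zero]
      · simp [h]
    have e2 : ∑ k ∈ Finset.univ.filter (fun k => θ k ≠ 0), θ k ^ 2 = 1 := by
      rw [Finset.sum_filter, ← hθ]
      refine Finset.sum_congr rfl (fun k _ => ?_)
      by_cases h : θ k = 0
      · simp [h]
      · simp [h]
    rw [e]
    have h3 : ∑ k ∈ Finset.univ.filter (fun k => θ k ≠ 0), Hs (θ k ^ 2) ≤
        ∑ k ∈ Finset.univ.filter (fun k => θ k ≠ 0),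
          (θ k ^ 2 * (Real.log (453228 / 100000) - 45 / 10000 * 5) + 45 / 10000) := by
      refine Finset.sum_le_sum (fun k hk => ?_)
      have hk0 : θ k ≠ 0 := (Finset.mem_filter.mp hk).2
      have := lineA5_all (θ k ^ 2) (by positivity) (hx k)
      linarith
    rw [Finset.sum_add_distrib, ← Finset.sum_mul, e2, Finset.sum_const, nsmul_eq_mul] at h3
    have h4 : ((Finset.univ.filter (fun k => θ k ≠ 0)).card : ℝ) ≤ 5 := by exact_mod_cast hcard
    linarith
  refine h1.trans ((Real.exp_le_exp.mpr h2).trans ?_)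
  rw [Real.exp_log (by norm_num)]
  exact F2_ge

end
end CG3
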