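import Pool.Agent.CG3.Base2

open MeasureTheory ProbabilityTheory
open scoped BigOperators

namespace CG3
noncomputable section


theorem xpow_up (m s M : ℝ) (hm : 0 ≤ m) (hms : 0 ≤ m + s) (hM : m ≤ M) (hM2 : m + s ≤ M) (n : ℕ) :
    (m + s) ^ (n + 2) ≤ m ^ (n + 2) + (n + 2) * m ^ (n + 1) * s + (n + 2) * (n + 1) / 2 * M ^ n * s ^ 2 := by
  have hM0 : 0 ≤ M := hm.trans hM
  induction n with
  | zero => norm_num; nlinarith
  | succ n ih =>
    have h1 := mul_le_mul_of_nonneg_left ih hms
    have h2 : (m + s) ^ (n + 1 + 2) = (m + s) * (m + s) ^ (n + 2) := by ring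
    rw [h2]
    refine h1.trans ?_
    have e1 : m ^ (n + 1) ≤ M ^ (n + 1) := pow_le_pow_left₀ hm hM _
    have e2 : (m + s) * M ^ n ≤ M ^ (n + 1) := by
      rw [pow_succ']; exact mul_le_mul_of_nonneg_right hM2 (pow_nonneg hM0 _)
    have hs2 : 0 ≤ s ^ 2 := sq_nonneg s
    have hn : (0:ℝ) ≤ n := Nat.cast_nonneg n
    have f1 : (n + 2) * m ^ (n + 1) * s ^ 2 ≤ (n + 2) * M ^ (n + 1) * s ^ 2 := by
      apply mul_le_mul_of_nonneg_right _ hs2
      apply mul_le_mul_of_nonneg_left e1; positivity
    have f2 : ((n:ℝ) + 2) * (n + 1) / 2 * ((m + s) * M ^ n) * s ^ 2 ≤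
        ((n:ℝ) + 2) * (n + 1) / 2 * M ^ (n + 1) * s ^ 2 := by
      apply mul_le_mul_of_nonneg_right _ hs2
      apply mul_le_mul_of_nonneg_left e2; positivity
    push_cast
    have e3 : (m + s) * (m ^ (n + 2) + (n + 2) * m ^ (n + 1) * s + (n + 2) * (n + 1) / 2 * M ^ n * s ^ 2)
      = m ^ (n + 3) + (n + 3) * m ^ (n + 2) * s + (n + 2) * m ^ (n + 1) * s ^ 2
        + ((n:ℝ) + 2) * (n + 1) / 2 * ((m + s) * M ^ n) * s ^ 2 := by ring
    rw [e3]
    have e4 : m ^ (n + 1 + 2) + ((n:ℝ) + 1 + 2) * m ^ (n + 1 + 1) * s + (n + 1 + 2) * (n + 1 + 1) / 2 * M ^ (n + 1) * s ^ 2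
      = m ^ (n + 3) + (n + 3) * m ^ (n + 2) * s + (n + 2) * M ^ (n + 1) * s ^ 2
        + ((n:ℝ) + 2) * (n + 1) / 2 * M ^ (n + 1) * s ^ 2 := by ring
    rw [e4]
    linarith

theorem xpow_lo (m s : ℝ) (hm : 0 ≤ m) (hms : 0 ≤ m + s) (n : ℕ) :
    m ^ (n + 1) + (n + 1) * m ^ n * s ≤ (m + s) ^ (n + 1) := by
  induction n with
  | zero => norm_num
  | succ n ih =>
    have h1 := mul_le_mul_of_nonneg_left ih hms
    have h2 : (m + s) ^ (n + 1 + 1) = (m + s) * (m + s) ^ (n + 1) := by ring
    rw [h2]
    refine le_trans ?_ h1
    push_cast
    have h3 : 0 ≤ ((n:ℝ) + 1) * m ^ n * s ^ 2 := by positivity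
    have h4 : (m + s) * (m ^ (n + 1) + (n + 1) * m ^ n * s) = m ^ (n + 1 + 1) + (n + 1 + 1) * m ^ (n + 1) * s
      + ((n:ℝ) + 1) * m ^ n * s ^ 2 := by ring
    rw [h4]; linarith

theorem xcosh (x : ℝ) : 1 + x ^ 2 / 2 ≤ Real.cosh x := by
  have h1 : Real.cosh x = 1 + 2 * Real.sinh (x / 2) ^ 2 := by
    have h2 := Real.cosh_two_mul (x / 2)
    have h3 := Real.cosh_sq (x / 2)
    rw [show 2 * (x / 2) = x by ring] at h2
    rw [h2, h3]; ring
  have h4 : (x / 2) ^ 2 ≤ Real.sinh (x / 2) ^ 2 := by
    rcases le_total 0 (x / 2) with h | h
    · have := Real.self_le_sinh_iff.mpr h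
      nlinarith
    · have := Real.sinh_le_self_iff.mpr h
      nlinarith
  rw [h1]; nlinarith

/-- even polynomial -/
def Qv (a b c d e f g t : ℝ) : ℝ :=
  a * t ^ 2 + b * t ^ 4 + c * t ^ 6 + d * t ^ 8 + e * t ^ 10 + f * t ^ 12 + g * t ^ 14
def Qd (a b c d e f g t : ℝ) : ℝ :=
  a * (2 * t) + b * (4 * t ^ 3) + c * (6 * t ^ 5) + d * (8 * t ^ 7) + e * (10 * t ^ 9) + f * (12 * t ^ 11)
    + g * (14 * t ^ 13)
def Qe (a b c d e f g t : ℝ) : ℝ :=
  a * 2 + b * (12 * t ^ 2) + c * (30 * t ^ 4) + d * (56 * t ^ 6) + e * (90 * t ^ 8) + f * (132 * t ^ 10)
    + g * (182 * t ^ 12)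

theorem Qv_up (a b c d e f g : ℝ) (ha : 0 ≤ a) (hb : 0 ≤ b) (hc : 0 ≤ c) (hd : 0 ≤ d) (he : 0 ≤ e)
    (hf : 0 ≤ f) (hg : 0 ≤ g) (m s h : ℝ) (hmh : h ≤ m) (hs : |s| ≤ h) :
    Qv a b c d e f g (m + s) ≤ Qv a b c d e f g m + Qd a b c d e f g m * s
      + Qe a b c d e f g (m + h) * (s ^ 2 / 2) := by
  have h1 := abs_le.mp hs
  have hh : 0 ≤ h := le_trans (abs_nonneg _) hs
  have key := fun n => xpow_up m s (m + h) (hh.trans hmh) (by linarith) (by linarith) (by linarith) n
  have k0 := mul_le_mul_of_nonneg_left (key 0) ha
  have k2 := mul_le_mul_of_nonneg_left (key 2) hb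
  have k4 := mul_le_mul_of_nonneg_left (key 4) hc
  have k6 := mul_le_mul_of_nonneg_left (key 6) hd
  have k8 := mul_le_mul_of_nonneg_left (key 8) he
  have k10 := mul_le_mul_of_nonneg_left (key 10) hf
  have k12 := mul_le_mul_of_nonneg_left (key 12) hg
  norm_num at k0 k2 k4 k6 k8 k10 k12
  simp only [Qv, Qd, Qe]
  nlinarith [k0, k2, k4, k6, k8, k10, k12]

theorem Qv_lo (a b c d e f g : ℝ) (ha : 0 ≤ a) (hb : 0 ≤ b) (hc : 0 ≤ c) (hd : 0 ≤ d) (he : 0 ≤ e)
    (hf : 0 ≤ f) (hg : 0 ≤ g) (m s : ℝ) (hm : 0 ≤ m) (hms : 0 ≤ m + s) :
    Qv a b c d e f g m + Qd a b c d e f g m * s ≤ Qv a b c d e f g (m + s) := by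
  have key := fun n => xpow_lo m s hm hms n
  have k0 := mul_le_mul_of_nonneg_left (key 1) ha
  have k2 := mul_le_mul_of_nonneg_left (key 3) hb
  have k4 := mul_le_mul_of_nonneg_left (key 5) hc
  have k6 := mul_le_mul_of_nonneg_left (key 7) hd
  have k8 := mul_le_mul_of_nonneg_left (key 9) he
  have k10 := mul_le_mul_of_nonneg_left (key 11) hf
  have k12 := mul_le_mul_of_nonneg_left (key 13) hg
  norm_num at k0 k2 k4 k6 k8 k10 k12
  simp only [Qv, Qd]
  linarith [k0, k2, k4, k6, k8, k10, k12]

theorem Qv_cont (a b c d e f g : ℝ) : Continuous (Qv a b c d e f g) := by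
  unfold Qv; fun_prop

theorem polyint (A0 A1 A2 A3 A4 h : ℝ) :
    ∫ s in (-h)..h, (A0 + A1 * s + A2 * s ^ 2 + A3 * s ^ 3 + A4 * s ^ 4)
      = 2 * h * A0 + 2 * h ^ 3 / 3 * A2 + 2 * h ^ 5 / 5 * A4 := by
  have hder : ∀ x ∈ Set.uIcc (-h) h, HasDerivAt (fun s => A0 * s + A1 * (s ^ 2 / 2) + A2 * (s ^ 3 / 3)
      + A3 * (s ^ 4 / 4) + A4 * (s ^ 5 / 5)) (A0 + A1 * x + A2 * x ^ 2 + A3 * x ^ 3 + A4 * x ^ 4) x := by
    intro x _
    have h1 := (hasDerivAt_id x).const_mul A0
    have h2 := ((hasDerivAt_pow 2 x).div_const 2).const_mul A1
    have h3 := ((hasDerivAt_pow 3 x).div_const 3).const_mul A2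
    have h4 := ((hasDerivAt_pow 4 x).div_const 4).const_mul A3
    have h5 := ((hasDerivAt_pow 5 x).div_const 5).const_mul A4
    have h6 := (((h1.add h2).add h3).add h4).add h5
    refine h6.congr_deriv ?_
    norm_num
  rw [intervalIntegral.integral_eq_sub_of_hasDerivAt hder
    (Continuous.intervalIntegrable (by fun_prop) _ _)]
  ring

theorem cell_lo (a b c d e f g : ℝ) (ha : 0 ≤ a) (hb : 0 ≤ b) (hc : 0 ≤ c) (hd : 0 ≤ d) (he : 0 ≤ e)
    (hf : 0 ≤ f) (hg : 0 ≤ g) (m h E K B w : ℝ) (hh : 0 < h) (hmh : h ≤ m)
    (hE : E ≤ Real.exp (-(Qv a b c d e f g m)))
    (hB0 : 0 ≤ B) (hB : B ≤ Qd a b c d e f g m) (hK : Qe a b c d e f g (m + h) ≤ K) (hKh : K * h ^ 2 ≤ 2)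
    (hw : w ≤ 2 * h + (B ^ 2 - K) * h ^ 3 / 3 - B ^ 2 * K * h ^ 5 / 10) (hw0 : 0 ≤ w) :
    E * w ≤ ∫ t in (m - h)..(m + h), Real.exp (-(Qv a b c d e f g t)) := by
  set Q := Qv a b c d e f g with hQ
  set q1 := Qd a b c d e f g m with hq1
  have hcont : Continuous (fun t => Real.exp (-(Q t))) := (Qv_cont a b c d e f g).neg.rexp
  have h1 : ∫ t in (m - h)..(m + h), Real.exp (-(Q t)) = ∫ s in (-h)..h, Real.exp (-(Q (m + s))) := by
    rw [intervalIntegral.integral_comp_add_left (fun t => Real.exp (-(Q t))) m]
    rw [show m + -h = m - h by ring]
  have hcont2 : Continuous (fun s => Real.exp (-(Q (m + s)))) := hcont.comp (by fun_prop)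
  -- symmetrise
  have h2 : ∫ s in (-h)..h, Real.exp (-(Q (m + s)))
      = ∫ s in (-h)..h, (Real.exp (-(Q (m + s))) + Real.exp (-(Q (m - s)))) / 2 := by
    have h3 : ∫ s in (-h)..h, Real.exp (-(Q (m - s))) = ∫ s in (-h)..h, Real.exp (-(Q (m + s))) := by
      have := intervalIntegral.integral_comp_neg (a := -h) (b := h) (fun s => Real.exp (-(Q (m + s))))
      simp only [neg_neg] at this
      rw [← this]
      apply intervalIntegral.integral_congr
      intro s _
      simp [sub_eq_add_neg]
    have hc3 : Continuous (fun s => Real.exp (-(Q (m - s)))) := hcont.comp (by fun_prop)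
    rw [intervalIntegral.integral_div, intervalIntegral.integral_add (hcont2.intervalIntegrable _ _)
      (hc3.intervalIntegrable _ _), h3]
    ring
  rw [h1, h2]
  have hK0 : 0 ≤ K := by
    refine le_trans ?_ hK
    have : 0 ≤ m + h := by linarith
    unfold Qe; positivity
  -- pointwise
  have h4 : ∀ s ∈ Set.Icc (-h) h, Real.exp (-(Q m)) * (1 + (B ^ 2 - K) / 2 * s ^ 2 - B ^ 2 * K / 4 * s ^ 4)
      ≤ (Real.exp (-(Q (m + s))) + Real.exp (-(Q (m - s)))) / 2 := by
    intro s hs
    have hsabs : |s| ≤ h := abs_le.mpr hs
    have u1 := Qv_up a b c d e f g ha hb hc hd he hf hg m s h hmh hsabs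
    have u2 := Qv_up a b c d e f g ha hb hc hd he hf hg m (-s) h hmh (by rwa [abs_neg])
    rw [← hQ, ← hq1] at u1 u2
    have hs2 : 0 ≤ s ^ 2 / 2 := by positivity
    have hs3 : s ^ 2 ≤ h ^ 2 := by
      have := pow_le_pow_left₀ (abs_nonneg s) hsabs 2
      rwa [sq_abs] at this
    have u3 := mul_le_mul_of_nonneg_right hK hs2
    have v1 : Real.exp (-(Q m)) * (Real.exp (-(K * (s ^ 2 / 2))) * Real.exp (-(q1 * s))) ≤ Real.exp (-(Q (m + s))) := by
      rw [← Real.exp_add, ← Real.exp_add]
      apply Real.exp_le_exp.mpr
      linarith
    have v2 : Real.exp (-(Q m)) * (Real.exp (-(K * (s ^ 2 / 2))) * Real.exp (q1 * s)) ≤ Real.exp (-(Q (m - s))) := by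
      rw [← Real.exp_add, ← Real.exp_add]
      apply Real.exp_le_exp.mpr
      have : m - s = m + -s := by ring
      rw [this]
      have : (-s) ^ 2 = s ^ 2 := by ring
      rw [this] at u2
      linarith
    have v3 : 1 - K * (s ^ 2 / 2) ≤ Real.exp (-(K * (s ^ 2 / 2))) := by
      have := Real.add_one_le_exp (-(K * (s ^ 2 / 2))); linarith
    have v4 : 1 + B ^ 2 * s ^ 2 / 2 ≤ (Real.exp (-(q1 * s)) + Real.exp (q1 * s)) / 2 := by
      have c1 : 1 + (q1 * s) ^ 2 / 2 ≤ Real.cosh (q1 * s) := xcosh (q1 * s)
      rw [Real.cosh_eq] at c1
      have c2 : B ^ 2 ≤ q1 ^ 2 := pow_le_pow_left₀ hB0 hB 2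
      nlinarith [sq_nonneg s]
    have v5 : 0 ≤ 1 - K * (s ^ 2 / 2) := by nlinarith
    have v6 : (1 - K * (s ^ 2 / 2)) * (1 + B ^ 2 * s ^ 2 / 2)
        ≤ Real.exp (-(K * (s ^ 2 / 2))) * ((Real.exp (-(q1 * s)) + Real.exp (q1 * s)) / 2) :=
      mul_le_mul v3 v4 (by positivity) (Real.exp_pos _).le
    have v7 := mul_le_mul_of_nonneg_left v6 (Real.exp_pos (-(Q m))).le
    calc Real.exp (-(Q m)) * (1 + (B ^ 2 - K) / 2 * s ^ 2 - B ^ 2 * K / 4 * s ^ 4)
        = Real.exp (-(Q m)) * ((1 - K * (s ^ 2 / 2)) * (1 + B ^ 2 * s ^ 2 / 2)) := by ring
      _ ≤ _ := v7
      _ = (Real.exp (-(Q m)) * (Real.exp (-(K * (s ^ 2 / 2))) * Real.exp (-(q1 * s)))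
          + Real.exp (-(Q m)) * (Real.exp (-(K * (s ^ 2 / 2))) * Real.exp (q1 * s))) / 2 := by ring
      _ ≤ _ := by linarith
  have h5 : ∫ s in (-h)..h, Real.exp (-(Q m)) * (1 + (B ^ 2 - K) / 2 * s ^ 2 - B ^ 2 * K / 4 * s ^ 4)
      ≤ ∫ s in (-h)..h, (Real.exp (-(Q (m + s))) + Real.exp (-(Q (m - s)))) / 2 := by
    apply intervalIntegral.integral_mono_on (by linarith)
    · exact Continuous.intervalIntegrable (by fun_prop) _ _
    · have hc3 : Continuous (fun s => Real.exp (-(Q (m - s)))) := hcont.comp (by fun_prop)
      exact ((hcont2.add hc3).div_const 2).intervalIntegrable _ _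
    · exact h4
  refine le_trans ?_ h5
  rw [intervalIntegral.integral_const_mul]
  have h6 : ∫ s in (-h)..h, (1 + (B ^ 2 - K) / 2 * s ^ 2 - B ^ 2 * K / 4 * s ^ 4)
      = 2 * h + (B ^ 2 - K) * h ^ 3 / 3 - B ^ 2 * K * h ^ 5 / 10 := by
    have := polyint 1 0 ((B ^ 2 - K) / 2) 0 (-(B ^ 2 * K / 4)) h
    have e : (fun s : ℝ => 1 + (B ^ 2 - K) / 2 * s ^ 2 - B ^ 2 * K / 4 * s ^ 4)
      = fun s => 1 + 0 * s + (B ^ 2 - K) / 2 * s ^ 2 + 0 * s ^ 3 + -(B ^ 2 * K / 4) * s ^ 4 := by
      funext s; ring
    rw [e, this]; ring
  rw [h6]
  exact mul_le_mul hE hw hw0 (Real.exp_pos _).le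

theorem exp_up2 (y y0 : ℝ) (hy : |y| ≤ y0) (hy0 : y0 ≤ 1) :
    Real.exp (-y) ≤ 1 - y + (1 + y0 / 2) * (y ^ 2 / 2) := by
  have h1 := Real.exp_bound (x := -y) (by rw [abs_neg]; linarith) (n := 3) (by norm_num)
  simp [Finset.sum_range_succ] at h1
  have h2 := (abs_le.mp h1).2
  have h3 : |y| ^ 3 ≤ y0 * y ^ 2 := by
    have : |y| ^ 3 = |y| * y ^ 2 := by rw [pow_succ, sq_abs]; ring
    rw [this]; exact mul_le_mul_of_nonneg_right hy (sq_nonneg _)
  have h4 : 0 ≤ |y| ^ 3 := by positivity
  norm_num [Nat.factorial] at h2
  nlinarith [sq_nonneg y]

theorem cell_up (a b c d e f g : ℝ) (ha : 0 ≤ a) (hb : 0 ≤ b) (hc : 0 ≤ c) (hd : 0 ≤ d) (he : 0 ≤ e)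
    (hf : 0 ≤ f) (hg : 0 ≤ g)
    (a' b' c' d' e' f' g' : ℝ) (ha' : 0 ≤ a') (hb' : 0 ≤ b') (hc' : 0 ≤ c') (hd' : 0 ≤ d') (he' : 0 ≤ e')
    (hf' : 0 ≤ f') (hg' : 0 ≤ g')
    (m h E w : ℝ) (hh : 0 < h) (hmh : h ≤ m)
    (hE : Real.exp (-(Qv a b c d e f g m)) ≤ E)
    (C D0 D1 D2 : ℝ) (hC : Qd a b c d e f g m = C) (hCh : C * h ≤ 1)
    (hD0 : Qv a' b' c' d' e' f' g' m = D0) (hD1 : Qd a' b' c' d' e' f' g' m = D1)
    (hD2 : Qe a' b' c' d' e' f' g' (m + h) ≤ D2)
    (hw : 2 * h * D0 + h ^ 3 / 3 * (D2 + C ^ 2 * (1 + C * h / 2) * D0 - 2 * C * D1)
      + D2 * (C ^ 2 * (1 + C * h / 2)) * h ^ 5 / 10 ≤ w) :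
    ∫ t in (m - h)..(m + h), Qv a' b' c' d' e' f' g' t * Real.exp (-(Qv a b c d e f g t)) ≤ E * w := by
  set Q := Qv a b c d e f g with hQ
  set P := Qv a' b' c' d' e' f' g' with hP
  have hm0 : 0 ≤ m := by linarith
  have hC0 : 0 ≤ C := by rw [← hC]; unfold Qd; positivity
  have hcont : Continuous (fun t => P t * Real.exp (-(Q t))) :=
    (Qv_cont _ _ _ _ _ _ _).mul (Qv_cont a b c d e f g).neg.rexp
  have h1 : ∫ t in (m - h)..(m + h), P t * Real.exp (-(Q t))
      = ∫ s in (-h)..h, P (m + s) * Real.exp (-(Q (m + s))) := by
    rw [intervalIntegral.integral_comp_add_left (fun t => P t * Real.exp (-(Q t))) m]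
    rw [show m + -h = m - h by ring]
  rw [h1]
  set k : ℝ := C ^ 2 * (1 + C * h / 2) with hk
  have hpt : ∀ s ∈ Set.Icc (-h) h, P (m + s) * Real.exp (-(Q (m + s))) ≤
      Real.exp (-(Q m)) * ((D0 + D1 * s + D2 * (s ^ 2 / 2)) * (1 - C * s + k * (s ^ 2 / 2))) := by
    intro s hs
    have hsabs : |s| ≤ h := abs_le.mpr hs
    have hms : 0 ≤ m + s := by linarith [hs.1]
    have u1 := Qv_up a' b' c' d' e' f' g' ha' hb' hc' hd' he' hf' hg' m s h hmh hsabs
    have u2 := Qv_lo a b c d e f g ha hb hc hd he hf hg m s hm0 hms
    rw [← hP, hD0, hD1] at u1
    rw [← hQ, hC] at u2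
    have hs2 : 0 ≤ s ^ 2 / 2 := by positivity
    have u3 := mul_le_mul_of_nonneg_right hD2 hs2
    have hP0 : 0 ≤ P (m + s) := by rw [hP]; unfold Qv; positivity
    have v1 : Real.exp (-(Q (m + s))) ≤ Real.exp (-(Q m)) * Real.exp (-(C * s)) := by
      rw [← Real.exp_add]
      apply Real.exp_le_exp.mpr; linarith
    have v2 := exp_up2 (C * s) (C * h) (by rw [abs_mul, abs_of_nonneg hC0]; exact mul_le_mul_of_nonneg_left hsabs hC0) hCh
    have v3 : Real.exp (-(C * s)) ≤ 1 - C * s + k * (s ^ 2 / 2) := by
      calc _ ≤ _ := v2
        _ = _ := by rw [hk]; ring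
    calc P (m + s) * Real.exp (-(Q (m + s)))
        ≤ (D0 + D1 * s + D2 * (s ^ 2 / 2)) * (Real.exp (-(Q m)) * (1 - C * s + k * (s ^ 2 / 2))) := by
          apply mul_le_mul (by linarith) _ (Real.exp_pos _).le (by linarith)
          exact v1.trans (mul_le_mul_of_nonneg_left v3 (Real.exp_pos _).le)
      _ = _ := by ring
  have h5 : ∫ s in (-h)..h, P (m + s) * Real.exp (-(Q (m + s))) ≤ ∫ s in (-h)..h,
      Real.exp (-(Q m)) * ((D0 + D1 * s + D2 * (s ^ 2 / 2)) * (1 - C * s + k * (s ^ 2 / 2))) := by
    apply intervalIntegral.integral_mono_on (by linarith)
    · have hc2 : Continuous (fun s => P (m + s) * Real.exp (-(Q (m + s)))) :=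
        hcont.comp (g := fun t => P t * Real.exp (-(Q t))) (by fun_prop : Continuous (fun s : ℝ => m + s))
      exact hc2.intervalIntegrable _ _
    · exact Continuous.intervalIntegrable (by fun_prop) _ _
    · exact hpt
  refine h5.trans ?_
  rw [intervalIntegral.integral_const_mul]
  have h6 : ∫ s in (-h)..h, (D0 + D1 * s + D2 * (s ^ 2 / 2)) * (1 - C * s + k * (s ^ 2 / 2))
      = 2 * h * D0 + h ^ 3 / 3 * (D2 + k * D0 - 2 * C * D1) + D2 * k * h ^ 5 / 10 := by
    have := polyint D0 (D1 - C * D0) (D2 / 2 - C * D1 + D0 * k / 2) (D1 * k / 2 - C * D2 / 2) (D2 * k / 4) h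
    have e : (fun s : ℝ => (D0 + D1 * s + D2 * (s ^ 2 / 2)) * (1 - C * s + k * (s ^ 2 / 2)))
      = fun s => D0 + (D1 - C * D0) * s + (D2 / 2 - C * D1 + D0 * k / 2) * s ^ 2
        + (D1 * k / 2 - C * D2 / 2) * s ^ 3 + (D2 * k / 4) * s ^ 4 := by
      funext s; ring
    rw [e, this]; ring
  rw [h6]
  have hnn : 0 ≤ ∫ s in (-h)..h, (D0 + D1 * s + D2 * (s ^ 2 / 2)) * (1 - C * s + k * (s ^ 2 / 2)) := by
    apply intervalIntegral.integral_nonneg (by linarith)
    intro s hs
    have h7 := hpt s hs
    have hms : 0 ≤ m + s := by linarith [hs.1]
    have hP0 : 0 ≤ P (m + s) := by rw [hP]; unfold Qv; positivity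
    have h8 : 0 ≤ Real.exp (-(Q m)) * ((D0 + D1 * s + D2 * (s ^ 2 / 2)) * (1 - C * s + k * (s ^ 2 / 2))) :=
      le_trans (mul_nonneg hP0 (Real.exp_pos _).le) h7
    exact nonneg_of_mul_nonneg_right h8 (Real.exp_pos _)
  rw [h6] at hnn
  exact mul_le_mul hE hw hnn (le_trans (Real.exp_pos _).le hE)

theorem xexp_le (x : ℝ) (h0 : 0 ≤ x) (h1 : x ≤ 1) :
    Real.exp x ≤ 1 + x + x ^ 2 / 2 + x ^ 3 / 6 + x ^ 4 / 24 + x ^ 5 / 120 + x ^ 6 / 720 + x ^ 7 / 4410 := by
  have h := Real.exp_bound' h0 h1 (n := 7) (by norm_num)
  refine h.trans ?_
  simp only [Finset.sum_range_succ, Finset.sum_range_zero]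
  norm_num [Nat.factorial]
  have : 0 ≤ x ^ 7 := by positivity
  linarith

theorem xexp_ge (x : ℝ) (h0 : 0 ≤ x) :
    1 + x + x ^ 2 / 2 + x ^ 3 / 6 + x ^ 4 / 24 + x ^ 5 / 120 + x ^ 6 / 720 ≤ Real.exp x := by
  have h := Real.sum_le_exp_of_nonneg h0 7
  refine le_trans ?_ h
  simp only [Finset.sum_range_succ, Finset.sum_range_zero]
  norm_num [Nat.factorial]

/-- state for lower bounds -/
def PL (a b c d e f g r m E S : ℝ) : Prop :=
  0 ≤ E ∧ E ≤ Real.exp (-(Qv a b c d e f g m)) ∧ S ≤ ∫ t in (0:ℝ)..r, Real.exp (-(Qv a b c d e f g t))

theorem stepL {a b c d e f g : ℝ} (ha : 0 ≤ a) (hb : 0 ≤ b) (hc : 0 ≤ c) (hd : 0 ≤ d) (he : 0 ≤ e)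
    (hf : 0 ≤ f) (hg : 0 ≤ g) {l m E S : ℝ} (h0 : PL a b c d e f g l m E S)
    (h r m' E' S' x K B : ℝ) (hh : 0 < h) (hl : 0 ≤ l) (hlm : m = l + h) (hmr : r = m + h)
    (hB0 : 0 ≤ B) (hB : B ≤ Qd a b c d e f g m) (hK : Qe a b c d e f g r ≤ K) (hKh : K * h ^ 2 ≤ 2)
    (hw0 : 0 ≤ 2 * h + (B ^ 2 - K) * h ^ 3 / 3 - B ^ 2 * K * h ^ 5 / 10)
    (hS' : S' ≤ S + E * (2 * h + (B ^ 2 - K) * h ^ 3 / 3 - B ^ 2 * K * h ^ 5 / 10))
    (hx0 : 0 ≤ x) (hx1 : x ≤ 1) (hx : Qv a b c d e f g m' ≤ Qv a b c d e f g m + x) (hE'0 : 0 ≤ E')
    (hE' : E' * (1 + x + x ^ 2 / 2 + x ^ 3 / 6 + x ^ 4 / 24 + x ^ 5 / 120 + x ^ 6 / 720 + x ^ 7 / 4410) ≤ E) :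
    PL a b c d e f g r m' E' S' := by
  obtain ⟨hE0, hE, hS⟩ := h0
  refine ⟨hE'0, ?_, ?_⟩
  · have h1 : Real.exp (-(Qv a b c d e f g m)) * Real.exp (-x) ≤ Real.exp (-(Qv a b c d e f g m')) := by
      rw [← Real.exp_add]
      apply Real.exp_le_exp.mpr; linarith
    refine le_trans ?_ h1
    have h2 : E' * Real.exp x ≤ E := (mul_le_mul_of_nonneg_left (xexp_le x hx0 hx1) hE'0).trans hE'
    have h3 : E' = (E' * Real.exp x) * Real.exp (-x) := by
      rw [mul_assoc, ← Real.exp_add]; simp
    rw [h3]
    exact mul_le_mul_of_nonneg_right (h2.trans hE) (Real.exp_pos _).le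
  · have h1 := cell_lo a b c d e f g ha hb hc hd he hf hg m h E K B
      (2 * h + (B ^ 2 - K) * h ^ 3 / 3 - B ^ 2 * K * h ^ 5 / 10) hh (by linarith) hE hB0 hB
      (by rw [← hmr]; exact hK) hKh le_rfl hw0
    have hcont : Continuous (fun t => Real.exp (-(Qv a b c d e f g t))) := (Qv_cont a b c d e f g).neg.rexp
    have h2 := intervalIntegral.integral_add_adjacent_intervals
      (hcont.intervalIntegrable (μ := volume) 0 l) (hcont.intervalIntegrable (μ := volume) l r)
    rw [← h2]
    have h3 : m - h = l := by linarith
    rw [h3, ← hmr] at h1
    linarith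

/-- state for upper bounds -/
def PU (a b c d e f g a' b' c' d' e' f' g' r m E S : ℝ) : Prop :=
  Real.exp (-(Qv a b c d e f g m)) ≤ E ∧
    ∫ t in (0:ℝ)..r, Qv a' b' c' d' e' f' g' t * Real.exp (-(Qv a b c d e f g t)) ≤ S

theorem stepU {a b c d e f g : ℝ} (ha : 0 ≤ a) (hb : 0 ≤ b) (hc : 0 ≤ c) (hd : 0 ≤ d) (he : 0 ≤ e)
    (hf : 0 ≤ f) (hg : 0 ≤ g)
    {a' b' c' d' e' f' g' : ℝ} (ha' : 0 ≤ a') (hb' : 0 ≤ b') (hc' : 0 ≤ c') (hd' : 0 ≤ d') (he' : 0 ≤ e')
    (hf' : 0 ≤ f') (hg' : 0 ≤ g')
    {l m E S : ℝ} (h0 : PU a b c d e f g a' b' c' d' e' f' g' l m E S)
    (h r m' E' S' x C D0 D1 D2 : ℝ) (hh : 0 < h) (hl : 0 ≤ l) (hlm : m = l + h) (hmr : r = m + h)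
    (hC : Qd a b c d e f g m = C) (hCh : C * h ≤ 1)
    (hD0 : Qv a' b' c' d' e' f' g' m = D0) (hD1 : Qd a' b' c' d' e' f' g' m = D1)
    (hD2 : Qe a' b' c' d' e' f' g' r ≤ D2)
    (hS' : S + E * (2 * h * D0 + h ^ 3 / 3 * (D2 + C ^ 2 * (1 + C * h / 2) * D0 - 2 * C * D1)
      + D2 * (C ^ 2 * (1 + C * h / 2)) * h ^ 5 / 10) ≤ S')
    (hx0 : 0 ≤ x) (hx : Qv a b c d e f g m + x ≤ Qv a b c d e f g m') (hE'0 : 0 ≤ E')
    (hE' : E ≤ E' * (1 + x + x ^ 2 / 2 + x ^ 3 / 6 + x ^ 4 / 24 + x ^ 5 / 120 + x ^ 6 / 720)) :
    PU a b c d e f g a' b' c' d' e' f' g' r m' E' S' := by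
  obtain ⟨hE, hS⟩ := h0
  refine ⟨?_, ?_⟩
  · have h1 : Real.exp (-(Qv a b c d e f g m')) ≤ Real.exp (-(Qv a b c d e f g m)) * Real.exp (-x) := by
      rw [← Real.exp_add]
      apply Real.exp_le_exp.mpr; linarith
    refine le_trans h1 ?_
    have h2 : E ≤ E' * Real.exp x := hE'.trans (mul_le_mul_of_nonneg_left (xexp_ge x hx0) hE'0)
    have h3 : E' = (E' * Real.exp x) * Real.exp (-x) := by
      rw [mul_assoc, ← Real.exp_add]; simp
    rw [h3]
    exact mul_le_mul_of_nonneg_right (hE.trans h2) (Real.exp_pos _).le
  · have h1 := cell_up a b c d e f g ha hb hc hd he hf hg a' b' c' d' e' f' g' ha' hb' hc' hd' he' hf' hg'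
      m h E _ hh (by linarith) hE C D0 D1 D2 hC hCh hD0 hD1 (by rw [← hmr]; exact hD2) le_rfl
    have hcont : Continuous (fun t => Qv a' b' c' d' e' f' g' t * Real.exp (-(Qv a b c d e f g t))) :=
      (Qv_cont _ _ _ _ _ _ _).mul (Qv_cont a b c d e f g).neg.rexp
    have h2 := intervalIntegral.integral_add_adjacent_intervals
      (hcont.intervalIntegrable (μ := volume) 0 l) (hcont.intervalIntegrable (μ := volume) l r)
    rw [← h2]
    have h3 : m - h = l := by linarith
    rw [h3, ← hmr] at h1
    linarith

theorem La0 : PL (2183439/2500000) (112203/5000000) (5649/5000000) (171/2500000) (9/2000000) (9/12500000) (0) 0 (1/20) (49890940150147/50000000000000) 0 := by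
  refine ⟨by norm_num, ?_, by simp⟩
  have h1 := xexp_le (272947409/125000000000) (by norm_num) (by norm_num)
  have h2 : Qv (2183439/2500000) (112203/5000000) (5649/5000000) (171/2500000) (9/2000000) (9/12500000) (0) (1/20) ≤ 272947409/125000000000 := by norm_num [Qv]
  have h3 : Real.exp (-(272947409/125000000000)) ≤ Real.exp (-(Qv (2183439/2500000) (112203/5000000) (5649/5000000) (171/2500000) (9/2000000) (9/12500000) (0) (1/20))) := Real.exp_le_exp.mpr (by linarith)
  refine le_trans ?_ h3
  have h4 : (49890940150147/50000000000000 : ℝ) = (49890940150147/50000000000000 * Real.exp (272947409/125000000000)) * Real.exp (-(272947409/125000000000)) := by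
    rw [mul_assoc, ← Real.exp_add]; simp
  rw [h4]
  have h5 : (49890940150147/50000000000000 : ℝ) * Real.exp (272947409/125000000000) ≤ 1 := by
    refine (mul_le_mul_of_nonneg_left h1 (by norm_num)).trans ?_
    norm_num
  calc _ ≤ 1 * Real.exp (-(272947409/125000000000)) := mul_le_mul_of_nonneg_right h5 (Real.exp_pos _).le
    _ = _ := one_mul _

theorem La1 : PL (2183439/2500000) (112203/5000000) (5649/5000000) (171/2500000) (9/2000000) (9/12500000) (0) (1/10) (3/20) (490264859165237/500000000000000) (49854731225189/500000000000000) :=
  stepL (by norm_num) (by norm_num) (by norm_num) (by norm_num) (by norm_num) (by norm_num) (by norm_num) La0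
    (1/20) (1/10) (3/20) (490264859165237/500000000000000) (49854731225189/500000000000000) (1747874517/100000000000) (874723733/500000000) (43674391/500000000) (by norm_num) (by norm_num) (by norm_num) (by norm_num)
    (by norm_num) (by norm_num [Qd]) (by norm_num [Qe]) (by norm_num) (by norm_num) (by norm_num) (by norm_num) (by norm_num) (by norm_num [Qv]) (by norm_num) (by norm_num)

theorem La2 : PL (2183439/2500000) (112203/5000000) (5649/5000000) (171/2500000) (9/2000000) (9/12500000) (0) (1/5) (1/4) (118349229646771/125000000000000) (6177919853171/31250000000000) :=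
  stepL (by norm_num) (by norm_num) (by norm_num) (by norm_num) (by norm_num) (by norm_num) (by norm_num) La1
    (1/20) (1/5) (1/4) (118349229646771/125000000000000) (6177919853171/31250000000000) (2188224127/62500000000) (351515433/200000000) (262316143/1000000000) (by norm_num) (by norm_num) (by norm_num) (by norm_num)
    (by norm_num) (by norm_num [Qd]) (by norm_num [Qe]) (by norm_num) (by norm_num) (by norm_num) (by norm_num) (by norm_num) (by norm_num [Qv]) (by norm_num) (by norm_num)

theorem La3 : PL (2183439/2500000) (112203/5000000) (5649/5000000) (171/2500000) (9/2000000) (9/12500000) (0) (3/10) (7/20) (898231586360587/1000000000000000) (146155252291531/500000000000000) :=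
  stepL (by norm_num) (by norm_num) (by norm_num) (by norm_num) (by norm_num) (by norm_num) (by norm_num) La2
    (1/20) (3/10) (7/20) (898231586360587/1000000000000000) (146155252291531/500000000000000) (6581680273/125000000000) (1771264409/1000000000) (43809699/100000000) (by norm_num) (by norm_num) (by norm_num) (by norm_num)
    (by norm_num) (by norm_num [Qd]) (by norm_num [Qe]) (by norm_num) (by norm_num) (by norm_num) (by norm_num) (by norm_num) (by norm_num [Qv]) (by norm_num) (by norm_num)

theorem La4 : PL (2183439/2500000) (112203/5000000) (5649/5000000) (171/2500000) (9/2000000) (9/12500000) (0) (2/5) (9/20) (20927991368147/25000000000000) (76416158214199/200000000000000) :=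
  stepL (by norm_num) (by norm_num) (by norm_num) (by norm_num) (by norm_num) (by norm_num) (by norm_num) La3
    (1/20) (2/5) (9/20) (20927991368147/25000000000000) (76416158214199/200000000000000) (7046090939/100000000000) (447680201/250000000) (307623721/500000000) (by norm_num) (by norm_num) (by norm_num) (by norm_num)
    (by norm_num) (by norm_num [Qd]) (by norm_num [Qe]) (by norm_num) (by norm_num) (by norm_num) (by norm_num) (by norm_num) (by norm_num [Qv]) (by norm_num) (by norm_num)

theorem La5 : PL (2183439/2500000) (112203/5000000) (5649/5000000) (171/2500000) (9/2000000) (9/12500000) (0) (1/2) (11/20) (191555864254969/250000000000000) (93150276877979/200000000000000) :=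
  stepL (by norm_num) (by norm_num) (by norm_num) (by norm_num) (by norm_num) (by norm_num) (by norm_num) La4
    (1/20) (1/2) (11/20) (191555864254969/250000000000000) (93150276877979/200000000000000) (88493170387/1000000000000) (18162529/10000000) (397172403/500000000) (by norm_num) (by norm_num) (by norm_num) (by norm_num)
    (by norm_num) (by norm_num [Qd]) (by norm_num [Qe]) (by norm_num) (by norm_num) (by norm_num) (by norm_num) (by norm_num) (by norm_num [Qv]) (by norm_num) (by norm_num)

theorem La6 : PL (2183439/2500000) (112203/5000000) (5649/5000000) (171/2500000) (9/2000000) (9/12500000) (0) (3/5) (13/20) (688600204682793/1000000000000000) (542345091740831/1000000000000000) :=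
  stepL (by norm_num) (by norm_num) (by norm_num) (by norm_num) (by norm_num) (by norm_num) (by norm_num) La5
    (1/20) (3/5) (13/20) (688600204682793/1000000000000000) (542345091740831/1000000000000000) (106812998393/1000000000000) (1848273343/1000000000) (195199419/200000000) (by norm_num) (by norm_num) (by norm_num) (by norm_num)
    (by norm_num) (by norm_num [Qd]) (by norm_num [Qe]) (by norm_num) (by norm_num) (by norm_num) (by norm_num) (by norm_num) (by norm_num [Qv]) (by norm_num) (by norm_num)

theorem La7 : PL (2183439/2500000) (112203/5000000) (5649/5000000) (171/2500000) (9/2000000) (9/12500000) (0) (7/10) (3/4) (75923891593341/125000000000000) (38199348223037/62500000000000) :=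
  stepL (by norm_num) (by norm_num) (by norm_num) (by norm_num) (by norm_num) (by norm_num) (by norm_num) La6
    (1/20) (7/10) (3/4) (75923891593341/125000000000000) (38199348223037/62500000000000) (62743947169/500000000000) (1887316553/1000000000) (1160853649/1000000000) (by norm_num) (by norm_num) (by norm_num) (by norm_num)
    (by norm_num) (by norm_num [Qd]) (by norm_num [Qe]) (by norm_num) (by norm_num) (by norm_num) (by norm_num) (by norm_num) (by norm_num [Qv]) (by norm_num) (by norm_num)

theorem La8 : PL (2183439/2500000) (112203/5000000) (5649/5000000) (171/2500000) (9/2000000) (9/12500000) (0) (4/5) (17/20) (525621590559669/1000000000000000) (671925768469459/1000000000000000) :=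
  stepL (by norm_num) (by norm_num) (by norm_num) (by norm_num) (by norm_num) (by norm_num) (by norm_num) La7
    (1/20) (4/5) (17/20) (525621590559669/1000000000000000) (671925768469459/1000000000000000) (36147852379/250000000000) (96703013/50000000) (1349617339/1000000000) (by norm_num) (by norm_num) (by norm_num) (by norm_num)
    (by norm_num) (by norm_num [Qd]) (by norm_num [Qe]) (by norm_num) (by norm_num) (by norm_num) (by norm_num) (by norm_num) (by norm_num [Qv]) (by norm_num) (by norm_num)

theorem La9 : PL (2183439/2500000) (112203/5000000) (5649/5000000) (171/2500000) (9/2000000) (9/12500000) (0) (9/10) (19/20) (89205162219549/200000000000000) (18112410694499/25000000000000) :=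
  stepL (by norm_num) (by norm_num) (by norm_num) (by norm_num) (by norm_num) (by norm_num) (by norm_num) La8
    (1/20) (9/10) (19/20) (89205162219549/200000000000000) (18112410694499/25000000000000) (41051180357/250000000000) (397870959/200000000) (1543058931/1000000000) (by norm_num) (by norm_num) (by norm_num) (by norm_num)
    (by norm_num) (by norm_num [Qd]) (by norm_num [Qe]) (by norm_num) (by norm_num) (by norm_num) (by norm_num) (by norm_num) (by norm_num [Qv]) (by norm_num) (by norm_num)

theorem La10 : PL (2183439/2500000) (112203/5000000) (5649/5000000) (171/2500000) (9/2000000) (9/12500000) (0) (1) (21/20) (92727390910141/250000000000000) (384558571270971/500000000000000) :=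
  stepL (by norm_num) (by norm_num) (by norm_num) (by norm_num) (by norm_num) (by norm_num) (by norm_num) La9
    (1/20) (1) (21/20) (92727390910141/250000000000000) (384558571270971/500000000000000) (184418553499/1000000000000) (51356571/25000000) (1742034389/1000000000) (by norm_num) (by norm_num) (by norm_num) (by norm_num)
    (by norm_num) (by norm_num [Qd]) (by norm_num [Qe]) (by norm_num) (by norm_num) (by norm_num) (by norm_num) (by norm_num) (by norm_num [Qv]) (by norm_num) (by norm_num)

theorem La11 : PL (2183439/2500000) (112203/5000000) (5649/5000000) (171/2500000) (9/2000000) (9/12500000) (0) (11/10) (23/20) (151029552081027/500000000000000) (25194803158011/31250000000000) :=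
  stepL (by norm_num) (by norm_num) (by norm_num) (by norm_num) (by norm_num) (by norm_num) (by norm_num) La10
    (1/20) (11/10) (23/20) (151029552081027/500000000000000) (25194803158011/31250000000000) (102667780729/500000000000) (266264171/125000000) (243438271/125000000) (by norm_num) (by norm_num) (by norm_num) (by norm_num)
    (by norm_num) (by norm_num [Qd]) (by norm_num [Qe]) (by norm_num) (by norm_num) (by norm_num) (by norm_num) (by norm_num) (by norm_num [Qv]) (by norm_num) (by norm_num)

theorem La12 : PL (2183439/2500000) (112203/5000000) (5649/5000000) (171/2500000) (9/2000000) (9/12500000) (0) (6/5) (5/4) (60174880212959/250000000000000) (836470342465967/1000000000000000) :=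
  stepL (by norm_num) (by norm_num) (by norm_num) (by norm_num) (by norm_num) (by norm_num) (by norm_num) La11
    (1/20) (6/5) (5/4) (60174880212959/250000000000000) (836470342465967/1000000000000000) (22707335267/100000000000) (2218574769/1000000000) (1080284961/500000000) (by norm_num) (by norm_num) (by norm_num) (by norm_num)
    (by norm_num) (by norm_num [Qd]) (by norm_num [Qe]) (by norm_num) (by norm_num) (by norm_num) (by norm_num) (by norm_num) (by norm_num [Qv]) (by norm_num) (by norm_num)

theorem La13 : PL (2183439/2500000) (112203/5000000) (5649/5000000) (171/2500000) (9/2000000) (9/12500000) (0) (13/10) (27/20) (93750201113461/500000000000000) (10757172977173/12500000000000) :=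
  stepL (by norm_num) (by norm_num) (by norm_num) (by norm_num) (by norm_num) (by norm_num) (by norm_num) La12
    (1/20) (13/10) (27/20) (93750201113461/500000000000000) (10757172977173/12500000000000) (124884181243/500000000000) (580438437/250000000) (476497711/200000000) (by norm_num) (by norm_num) (by norm_num) (by norm_num)
    (by norm_num) (by norm_num [Qd]) (by norm_num [Qe]) (by norm_num) (by norm_num) (by norm_num) (by norm_num) (by norm_num) (by norm_num [Qv]) (by norm_num) (by norm_num)

theorem La14 : PL (2183439/2500000) (112203/5000000) (5649/5000000) (171/2500000) (9/2000000) (9/12500000) (0) (7/5) (29/20) (17827791506621/125000000000000) (219839528198611/250000000000000) :=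
  stepL (by norm_num) (by norm_num) (by norm_num) (by norm_num) (by norm_num) (by norm_num) (by norm_num) La13
    (1/20) (7/5) (29/20) (17827791506621/125000000000000) (219839528198611/250000000000000) (10943235471/40000000000) (122116423/50000000) (2614736193/1000000000) (by norm_num) (by norm_num) (by norm_num) (by norm_num)
    (by norm_num) (by norm_num [Qd]) (by norm_num [Qe]) (by norm_num) (by norm_num) (by norm_num) (by norm_num) (by norm_num) (by norm_num [Qv]) (by norm_num) (by norm_num)

theorem La15 : PL (2183439/2500000) (112203/5000000) (5649/5000000) (171/2500000) (9/2000000) (9/12500000) (0) (3/2) (31/20) (26448622351063/250000000000000) (893653473791483/1000000000000000) :=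
  stepL (by norm_num) (by norm_num) (by norm_num) (by norm_num) (by norm_num) (by norm_num) (by norm_num) La14
    (1/20) (3/2) (31/20) (26448622351063/250000000000000) (893653473791483/1000000000000000) (74675416421/250000000000) (1291863309/500000000) (571811103/200000000) (by norm_num) (by norm_num) (by norm_num) (by norm_num)
    (by norm_num) (by norm_num [Qd]) (by norm_num [Qe]) (by norm_num) (by norm_num) (by norm_num) (by norm_num) (by norm_num) (by norm_num [Qv]) (by norm_num) (by norm_num)

theorem La16 : PL (2183439/2500000) (112203/5000000) (5649/5000000) (171/2500000) (9/2000000) (9/12500000) (0) (8/5) (33/20) (76411857980727/1000000000000000) (180852710577729/200000000000000) :=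
  stepL (by norm_num) (by norm_num) (by norm_num) (by norm_num) (by norm_num) (by norm_num) (by norm_num) La15
    (1/20) (8/5) (33/20) (76411857980727/1000000000000000) (180852710577729/200000000000000) (325360534173/1000000000000) (110014479/40000000) (389691619/125000000) (by norm_num) (by norm_num) (by norm_num) (by norm_num)
    (by norm_num) (by norm_num [Qd]) (by norm_num [Qe]) (by norm_num) (by norm_num) (by norm_num) (by norm_num) (by norm_num) (by norm_num [Qv]) (by norm_num) (by norm_num)

theorem La17 : PL (2183439/2500000) (112203/5000000) (5649/5000000) (171/2500000) (9/2000000) (9/12500000) (0) (17/10) (7/4) (53640269353557/1000000000000000) (911931919028857/1000000000000000) :=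
  stepL (by norm_num) (by norm_num) (by norm_num) (by norm_num) (by norm_num) (by norm_num) (by norm_num) La16
    (1/20) (17/10) (7/4) (53640269353557/1000000000000000) (911931919028857/1000000000000000) (353837804029/1000000000000) (1473972827/500000000) (3392697603/1000000000) (by norm_num) (by norm_num) (by norm_num) (by norm_num)
    (by norm_num) (by norm_num [Qd]) (by norm_num [Qe]) (by norm_num) (by norm_num) (by norm_num) (by norm_num) (by norm_num) (by norm_num [Qv]) (by norm_num) (by norm_num)

theorem La18 : PL (2183439/2500000) (112203/5000000) (5649/5000000) (171/2500000) (9/2000000) (9/12500000) (0) (9/5) (37/20) (9129641966201/250000000000000) (45865957538067/50000000000000) :=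
  stepL (by norm_num) (by norm_num) (by norm_num) (by norm_num) (by norm_num) (by norm_num) (by norm_num) La17
    (1/20) (9/5) (37/20) (9129641966201/250000000000000) (45865957538067/50000000000000) (24029951531/62500000000) (3183892367/1000000000) (1843825681/500000000) (by norm_num) (by norm_num) (by norm_num) (by norm_num)
    (by norm_num) (by norm_num [Qd]) (by norm_num [Qe]) (by norm_num) (by norm_num) (by norm_num) (by norm_num) (by norm_num) (by norm_num [Qv]) (by norm_num) (by norm_num)

theorem La19 : PL (2183439/2500000) (112203/5000000) (5649/5000000) (171/2500000) (9/2000000) (9/12500000) (0) (19/10) (39/20) (24049284011071/1000000000000000) (920990089058637/1000000000000000) :=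
  stepL (by norm_num) (by norm_num) (by norm_num) (by norm_num) (by norm_num) (by norm_num) (by norm_num) La18
    (1/20) (19/10) (39/20) (24049284011071/1000000000000000) (920990089058637/1000000000000000) (417715589057/1000000000000) (3467845617/1000000000) (125194993/31250000) (by norm_num) (by norm_num) (by norm_num) (by norm_num)
    (by norm_num) (by norm_num [Qd]) (by norm_num [Qe]) (by norm_num) (by norm_num) (by norm_num) (by norm_num) (by norm_num) (by norm_num [Qv]) (by norm_num) (by norm_num)

theorem La20 : PL (2183439/2500000) (112203/5000000) (5649/5000000) (171/2500000) (9/2000000) (9/12500000) (0) (2) (41/20) (3817983878887/250000000000000) (923410132907131/1000000000000000) :=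
  stepL (by norm_num) (by norm_num) (by norm_num) (by norm_num) (by norm_num) (by norm_num) (by norm_num) La19
    (1/20) (2) (41/20) (3817983878887/250000000000000) (923410132907131/1000000000000000) (227044159781/500000000000) (23827191/6250000) (272079721/62500000) (by norm_num) (by norm_num) (by norm_num) (by norm_num)
    (by norm_num) (by norm_num [Qd]) (by norm_num [Qe]) (by norm_num) (by norm_num) (by norm_num) (by norm_num) (by norm_num) (by norm_num [Qv]) (by norm_num) (by norm_num)

theorem La21 : PL (2183439/2500000) (112203/5000000) (5649/5000000) (171/2500000) (9/2000000) (9/12500000) (0) (21/10) (43/20) (2329001800627/250000000000000) (462474426385539/500000000000000) :=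
  stepL (by norm_num) (by norm_num) (by norm_num) (by norm_num) (by norm_num) (by norm_num) (by norm_num) La20
    (1/20) (21/10) (43/20) (2329001800627/250000000000000) (462474426385539/500000000000000) (247141335623/500000000000) (4233708373/1000000000) (4734829397/1000000000) (by norm_num) (by norm_num) (by norm_num) (by norm_num)
    (by norm_num) (by norm_num [Qd]) (by norm_num [Qe]) (by norm_num) (by norm_num) (by norm_num) (by norm_num) (by norm_num) (by norm_num [Qv]) (by norm_num) (by norm_num)

theorem La22 : PL (2183439/2500000) (112203/5000000) (5649/5000000) (171/2500000) (9/2000000) (9/12500000) (0) (11/5) (9/4) (5433391077767/1000000000000000) (925888901288563/1000000000000000) :=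
  stepL (by norm_num) (by norm_num) (by norm_num) (by norm_num) (by norm_num) (by norm_num) (by norm_num) La21
    (1/20) (11/5) (9/4) (5433391077767/1000000000000000) (925888901288563/1000000000000000) (67396321141/125000000000) (4753051713/1000000000) (5158606697/1000000000) (by norm_num) (by norm_num) (by norm_num) (by norm_num)
    (by norm_num) (by norm_num [Qd]) (by norm_num [Qe]) (by norm_num) (by norm_num) (by norm_num) (by norm_num) (by norm_num) (by norm_num [Qv]) (by norm_num) (by norm_num)

theorem La23 : PL (2183439/2500000) (112203/5000000) (5649/5000000) (171/2500000) (9/2000000) (9/12500000) (0) (23/10) (47/20) (3012281478661/1000000000000000) (926438176514831/1000000000000000) :=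
  stepL (by norm_num) (by norm_num) (by norm_num) (by norm_num) (by norm_num) (by norm_num) (by norm_num) La22
    (1/20) (23/10) (47/20) (3012281478661/1000000000000000) (926438176514831/1000000000000000) (29493275701/50000000000) (10542358/1953125) (281721581/50000000) (by norm_num) (by norm_num) (by norm_num) (by norm_num)
    (by norm_num) (by norm_num [Qd]) (by norm_num [Qe]) (by norm_num) (by norm_num) (by norm_num) (by norm_num) (by norm_num) (by norm_num [Qv]) (by norm_num) (by norm_num)

theorem La24 : PL (2183439/2500000) (112203/5000000) (5649/5000000) (171/2500000) (9/2000000) (9/12500000) (0) (12/5) (49/20) (49250738683/31250000000000) (926743389513479/1000000000000000) :=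
  stepL (by norm_num) (by norm_num) (by norm_num) (by norm_num) (by norm_num) (by norm_num) (by norm_num) La23
    (1/20) (12/5) (49/20) (49250738683/31250000000000) (926743389513479/1000000000000000) (647792491463/1000000000000) (6202758641/1000000000) (6174865933/1000000000) (by norm_num) (by norm_num) (by norm_num) (by norm_num)
    (by norm_num) (by norm_num [Qd]) (by norm_num [Qe]) (by norm_num) (by norm_num) (by norm_num) (by norm_num) (by norm_num) (by norm_num [Qv]) (by norm_num) (by norm_num)

theorem La25 : PL (2183439/2500000) (112203/5000000) (5649/5000000) (171/2500000) (9/2000000) (9/12500000) (0) (5/2) (51/20) (771150424921/1000000000000000) (926903534685397/1000000000000000) :=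
  stepL (by norm_num) (by norm_num) (by norm_num) (by norm_num) (by norm_num) (by norm_num) (by norm_num) La24
    (1/20) (5/2) (51/20) (771150424921/1000000000000000) (926903534685397/1000000000000000) (357388193123/500000000000) (7213289853/1000000000) (849499281/125000000) (by norm_num) (by norm_num) (by norm_num) (by norm_num)
    (by norm_num) (by norm_num [Qd]) (by norm_num [Qe]) (by norm_num) (by norm_num) (by norm_num) (by norm_num) (by norm_num) (by norm_num [Qv]) (by norm_num) (by norm_num)

theorem La26 : PL (2183439/2500000) (112203/5000000) (5649/5000000) (171/2500000) (9/2000000) (9/12500000) (0) (13/5) (13/5) (524226565653/1000000000000000) (463491090874597/500000000000000) :=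
  stepL (by norm_num) (by norm_num) (by norm_num) (by norm_num) (by norm_num) (by norm_num) (by norm_num) La25
    (1/20) (13/5) (13/5) (524226565653/1000000000000000) (463491090874597/500000000000000) (192979737103/500000000000) (2121669951/250000000) (7518413957/1000000000) (by norm_num) (by norm_num) (by norm_num) (by norm_num)
    (by norm_num) (by norm_num [Qd]) (by norm_num [Qe]) (by norm_num) (by norm_num) (by norm_num) (by norm_num) (by norm_num) (by norm_num [Qv]) (by norm_num) (by norm_num)

theorem Lb0 : PL (727813/625000) (37401/1250000) (1883/1250000) (57/625000) (3/500000) (3/3125000) (0) 0 (1/20) (99709279509947/100000000000000) 0 := by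
  refine ⟨by norm_num, ?_, by simp⟩
  have h1 := xexp_le (2911439029/1000000000000) (by norm_num) (by norm_num)
  have h2 : Qv (727813/625000) (37401/1250000) (1883/1250000) (57/625000) (3/500000) (3/3125000) (0) (1/20) ≤ 2911439029/1000000000000 := by norm_num [Qv]
  have h3 : Real.exp (-(2911439029/1000000000000)) ≤ Real.exp (-(Qv (727813/625000) (37401/1250000) (1883/1250000) (57/625000) (3/500000) (3/3125000) (0) (1/20))) := Real.exp_le_exp.mpr (by linarith)
  refine le_trans ?_ h3
  have h4 : (99709279509947/100000000000000 : ℝ) = (99709279509947/100000000000000 * Real.exp (2911439029/1000000000000)) * Real.exp (-(2911439029/1000000000000)) := by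
    rw [mul_assoc, ← Real.exp_add]; simp
  rw [h4]
  have h5 : (99709279509947/100000000000000 : ℝ) * Real.exp (2911439029/1000000000000) ≤ 1 := by
    refine (mul_le_mul_of_nonneg_left h1 (by norm_num)).trans ?_
    norm_num
  calc _ ≤ 1 * Real.exp (-(2911439029/1000000000000)) := mul_le_mul_of_nonneg_right h5 (Real.exp_pos _).le
    _ = _ := one_mul _

theorem Lb1 : PL (727813/625000) (37401/1250000) (1883/1250000) (57/625000) (3/500000) (3/3125000) (0) (1/10) (3/20) (974124234562493/1000000000000000) (49806466540957/500000000000000) :=
  stepL (by norm_num) (by norm_num) (by norm_num) (by norm_num) (by norm_num) (by norm_num) (by norm_num) Lb0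
    (1/20) (1/10) (3/20) (974124234562493/1000000000000000) (49806466540957/500000000000000) (23304993559/1000000000000) (2332596621/1000000000) (116465043/1000000000) (by norm_num) (by norm_num) (by norm_num) (by norm_num)
    (by norm_num) (by norm_num [Qd]) (by norm_num [Qe]) (by norm_num) (by norm_num) (by norm_num) (by norm_num) (by norm_num) (by norm_num [Qv]) (by norm_num) (by norm_num)

theorem Lb2 : PL (727813/625000) (37401/1250000) (1883/1250000) (57/625000) (3/500000) (3/3125000) (0) (1/5) (1/4) (5810594658293/6250000000000) (196935196357567/1000000000000000) :=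
  stepL (by norm_num) (by norm_num) (by norm_num) (by norm_num) (by norm_num) (by norm_num) (by norm_num) Lb1
    (1/20) (1/5) (1/4) (5810594658293/6250000000000) (196935196357567/1000000000000000) (46682114709/1000000000000) (117171811/50000000) (174877429/500000000) (by norm_num) (by norm_num) (by norm_num) (by norm_num)
    (by norm_num) (by norm_num [Qd]) (by norm_num [Qe]) (by norm_num) (by norm_num) (by norm_num) (by norm_num) (by norm_num) (by norm_num [Qv]) (by norm_num) (by norm_num)

theorem Lb3 : PL (727813/625000) (37401/1250000) (1883/1250000) (57/625000) (3/500000) (3/3125000) (0) (3/10) (7/20) (866664679198129/1000000000000000) (289826419589263/1000000000000000) :=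
  stepL (by norm_num) (by norm_num) (by norm_num) (by norm_num) (by norm_num) (by norm_num) (by norm_num) Lb2
    (1/20) (3/10) (7/20) (866664679198129/1000000000000000) (289826419589263/1000000000000000) (70204589579/1000000000000) (2361685879/1000000000) (584129321/1000000000) (by norm_num) (by norm_num) (by norm_num) (by norm_num)
    (by norm_num) (by norm_num [Qd]) (by norm_num [Qe]) (by norm_num) (by norm_num) (by norm_num) (by norm_num) (by norm_num) (by norm_num [Qv]) (by norm_num) (by norm_num)

theorem Lb4 : PL (727813/625000) (37401/1250000) (1883/1250000) (57/625000) (3/500000) (3/3125000) (0) (2/5) (9/20) (788951037813677/1000000000000000) (376430924898701/1000000000000000) :=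
  stepL (by norm_num) (by norm_num) (by norm_num) (by norm_num) (by norm_num) (by norm_num) (by norm_num) Lb3
    (1/20) (2/5) (9/20) (788951037813677/1000000000000000) (376430924898701/1000000000000000) (93947879187/1000000000000) (1193813869/500000000) (410164961/500000000) (by norm_num) (by norm_num) (by norm_num) (by norm_num)
    (by norm_num) (by norm_num [Qd]) (by norm_num [Qe]) (by norm_num) (by norm_num) (by norm_num) (by norm_num) (by norm_num) (by norm_num [Qv]) (by norm_num) (by norm_num)

theorem Lb5 : PL (727813/625000) (37401/1250000) (1883/1250000) (57/625000) (3/500000) (3/3125000) (0) (1/2) (11/20) (701144057700777/1000000000000000) (28455201839289/62500000000000) :=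
  stepL (by norm_num) (by norm_num) (by norm_num) (by norm_num) (by norm_num) (by norm_num) (by norm_num) Lb4
    (1/20) (1/2) (11/20) (701144057700777/1000000000000000) (28455201839289/62500000000000) (117990893849/1000000000000) (1210835267/500000000) (132390801/125000000) (by norm_num) (by norm_num) (by norm_num) (by norm_num)
    (by norm_num) (by norm_num [Qd]) (by norm_num [Qe]) (by norm_num) (by norm_num) (by norm_num) (by norm_num) (by norm_num) (by norm_num [Qv]) (by norm_num) (by norm_num)

theorem Lb6 : PL (727813/625000) (37401/1250000) (1883/1250000) (57/625000) (3/500000) (3/3125000) (0) (3/5) (13/20) (121614733447331/200000000000000) (525375022249229/1000000000000000) :=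
  stepL (by norm_num) (by norm_num) (by norm_num) (by norm_num) (by norm_num) (by norm_num) (by norm_num) Lb5
    (1/20) (3/5) (13/20) (121614733447331/200000000000000) (525375022249229/1000000000000000) (142417331191/1000000000000) (2464364457/1000000000) (1301329461/1000000000) (by norm_num) (by norm_num) (by norm_num) (by norm_num)
    (by norm_num) (by norm_num [Qd]) (by norm_num [Qe]) (by norm_num) (by norm_num) (by norm_num) (by norm_num) (by norm_num) (by norm_num [Qv]) (by norm_num) (by norm_num)

theorem Lb7 : PL (727813/625000) (37401/1250000) (1883/1250000) (57/625000) (3/500000) (3/3125000) (0) (7/10) (3/4) (102877702961783/200000000000000) (586179215750321/1000000000000000) :=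
  stepL (by norm_num) (by norm_num) (by norm_num) (by norm_num) (by norm_num) (by norm_num) (by norm_num) Lb6
    (1/20) (7/10) (3/4) (102877702961783/200000000000000) (586179215750321/1000000000000000) (3346343849/20000000000) (251642207/100000000) (773902433/500000000) (by norm_num) (by norm_num) (by norm_num) (by norm_num)
    (by norm_num) (by norm_num [Qd]) (by norm_num [Qe]) (by norm_num) (by norm_num) (by norm_num) (by norm_num) (by norm_num) (by norm_num [Qv]) (by norm_num) (by norm_num)

theorem Lb8 : PL (727813/625000) (37401/1250000) (1883/1250000) (57/625000) (3/500000) (3/3125000) (0) (4/5) (17/20) (424193746055623/1000000000000000) (12752641323581/20000000000000) :=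
  stepL (by norm_num) (by norm_num) (by norm_num) (by norm_num) (by norm_num) (by norm_num) (by norm_num) Lb7
    (1/20) (4/5) (17/20) (424193746055623/1000000000000000) (12752641323581/20000000000000) (192788546021/1000000000000) (2578747013/1000000000) (899744893/500000000) (by norm_num) (by norm_num) (by norm_num) (by norm_num)
    (by norm_num) (by norm_num [Qd]) (by norm_num [Qe]) (by norm_num) (by norm_num) (by norm_num) (by norm_num) (by norm_num) (by norm_num [Qv]) (by norm_num) (by norm_num)

theorem Lb9 : PL (727813/625000) (37401/1250000) (1883/1250000) (57/625000) (3/500000) (3/3125000) (0) (9/10) (19/20) (340784621794969/1000000000000000) (680079226356529/1000000000000000) :=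
  stepL (by norm_num) (by norm_num) (by norm_num) (by norm_num) (by norm_num) (by norm_num) (by norm_num) Lb8
    (1/20) (9/10) (19/20) (340784621794969/1000000000000000) (680079226356529/1000000000000000) (21893962857/100000000000) (132623653/50000000) (2057411909/1000000000) (by norm_num) (by norm_num) (by norm_num) (by norm_num)
    (by norm_num) (by norm_num [Qd]) (by norm_num [Qe]) (by norm_num) (by norm_num) (by norm_num) (by norm_num) (by norm_num) (by norm_num [Qv]) (by norm_num) (by norm_num)

theorem Lb10 : PL (727813/625000) (37401/1250000) (1883/1250000) (57/625000) (3/500000) (3/3125000) (0) (1) (21/20) (3331200101203/12500000000000) (142839048866057/200000000000000) :=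
  stepL (by norm_num) (by norm_num) (by norm_num) (by norm_num) (by norm_num) (by norm_num) (by norm_num) Lb9
    (1/20) (1) (21/20) (3331200101203/12500000000000) (142839048866057/200000000000000) (49178280933/200000000000) (17118857/6250000) (2322712519/1000000000) (by norm_num) (by norm_num) (by norm_num) (by norm_num)
    (by norm_num) (by norm_num [Qd]) (by norm_num [Qe]) (by norm_num) (by norm_num) (by norm_num) (by norm_num) (by norm_num) (by norm_num [Qv]) (by norm_num) (by norm_num)

theorem Lb11 : PL (727813/625000) (37401/1250000) (1883/1250000) (57/625000) (3/500000) (3/3125000) (0) (11/10) (23/20) (50667473322563/250000000000000) (148177603957391/200000000000000) :=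
  stepL (by norm_num) (by norm_num) (by norm_num) (by norm_num) (by norm_num) (by norm_num) (by norm_num) Lb10
    (1/20) (11/10) (23/20) (50667473322563/250000000000000) (148177603957391/200000000000000) (27378074861/100000000000) (2840151157/1000000000) (259667489/100000000) (by norm_num) (by norm_num) (by norm_num) (by norm_num)
    (by norm_num) (by norm_num [Qd]) (by norm_num [Qe]) (by norm_num) (by norm_num) (by norm_num) (by norm_num) (by norm_num) (by norm_num [Qv]) (by norm_num) (by norm_num)

theorem Lb12 : PL (727813/625000) (37401/1250000) (1883/1250000) (57/625000) (3/500000) (3/3125000) (0) (6/5) (5/4) (29945412108623/200000000000000) (95149994176837/125000000000000) :=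
  stepL (by norm_num) (by norm_num) (by norm_num) (by norm_num) (by norm_num) (by norm_num) (by norm_num) Lb11
    (1/20) (6/5) (5/4) (29945412108623/200000000000000) (95149994176837/125000000000000) (151382235113/500000000000) (2958099691/1000000000) (360094987/125000000) (by norm_num) (by norm_num) (by norm_num) (by norm_num)
    (by norm_num) (by norm_num [Qd]) (by norm_num [Qe]) (by norm_num) (by norm_num) (by norm_num) (by norm_num) (by norm_num) (by norm_num [Qv]) (by norm_num) (by norm_num)

theorem Lb13 : PL (727813/625000) (37401/1250000) (1883/1250000) (57/625000) (3/500000) (3/3125000) (0) (13/10) (27/20) (107317266050431/1000000000000000) (155243231052759/200000000000000) :=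
  stepL (by norm_num) (by norm_num) (by norm_num) (by norm_num) (by norm_num) (by norm_num) (by norm_num) Lb12
    (1/20) (13/10) (27/20) (107317266050431/1000000000000000) (155243231052759/200000000000000) (66604896663/200000000000) (3095671663/1000000000) (3176651407/1000000000) (by norm_num) (by norm_num) (by norm_num) (by norm_num)
    (by norm_num) (by norm_num [Qd]) (by norm_num [Qe]) (by norm_num) (by norm_num) (by norm_num) (by norm_num) (by norm_num) (by norm_num [Qv]) (by norm_num) (by norm_num)

theorem Lb14 : PL (727813/625000) (37401/1250000) (1883/1250000) (57/625000) (3/500000) (3/3125000) (0) (7/5) (29/20) (9314510768251/125000000000000) (98373442100067/125000000000000) :=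
  stepL (by norm_num) (by norm_num) (by norm_num) (by norm_num) (by norm_num) (by norm_num) (by norm_num) Lb13
    (1/20) (7/5) (29/20) (9314510768251/125000000000000) (98373442100067/125000000000000) (3647745157/10000000000) (1628218973/500000000) (871578731/250000000) (by norm_num) (by norm_num) (by norm_num) (by norm_num)
    (by norm_num) (by norm_num [Qd]) (by norm_num [Qe]) (by norm_num) (by norm_num) (by norm_num) (by norm_num) (by norm_num) (by norm_num [Qv]) (by norm_num) (by norm_num)

theorem Lb15 : PL (727813/625000) (37401/1250000) (1883/1250000) (57/625000) (3/500000) (3/3125000) (0) (3/2) (31/20) (50036168638919/1000000000000000) (158894690395719/200000000000000) :=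
  stepL (by norm_num) (by norm_num) (by norm_num) (by norm_num) (by norm_num) (by norm_num) (by norm_num) Lb14
    (1/20) (3/2) (31/20) (50036168638919/1000000000000000) (158894690395719/200000000000000) (398268887579/1000000000000) (430621103/125000000) (190603701/50000000) (by norm_num) (by norm_num) (by norm_num) (by norm_num)
    (by norm_num) (by norm_num [Qd]) (by norm_num [Qe]) (by norm_num) (by norm_num) (by norm_num) (by norm_num) (by norm_num) (by norm_num [Qv]) (by norm_num) (by norm_num)

theorem Lb16 : PL (727813/625000) (37401/1250000) (1883/1250000) (57/625000) (3/500000) (3/3125000) (0) (8/5) (33/20) (16212537434661/500000000000000) (799505346725473/1000000000000000) :=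
  stepL (by norm_num) (by norm_num) (by norm_num) (by norm_num) (by norm_num) (by norm_num) (by norm_num) Lb15
    (1/20) (8/5) (33/20) (16212537434661/500000000000000) (799505346725473/1000000000000000) (433814045563/1000000000000) (36671493/10000000) (4156710603/1000000000) (by norm_num) (by norm_num) (by norm_num) (by norm_num)
    (by norm_num) (by norm_num [Qd]) (by norm_num [Qe]) (by norm_num) (by norm_num) (by norm_num) (by norm_num) (by norm_num) (by norm_num [Qv]) (by norm_num) (by norm_num)

theorem Lb17 : PL (727813/625000) (37401/1250000) (1883/1250000) (57/625000) (3/500000) (3/3125000) (0) (17/10) (7/4) (20229627718497/1000000000000000) (802770108635959/1000000000000000) :=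
  stepL (by norm_num) (by norm_num) (by norm_num) (by norm_num) (by norm_num) (by norm_num) (by norm_num) Lb16
    (1/20) (17/10) (7/4) (20229627718497/1000000000000000) (802770108635959/1000000000000000) (94356747741/200000000000) (786118841/200000000) (1130899201/250000000) (by norm_num) (by norm_num) (by norm_num) (by norm_num)
    (by norm_num) (by norm_num [Qd]) (by norm_num [Qe]) (by norm_num) (by norm_num) (by norm_num) (by norm_num) (by norm_num) (by norm_num [Qv]) (by norm_num) (by norm_num)

theorem Lb18 : PL (727813/625000) (37401/1250000) (1883/1250000) (57/625000) (3/500000) (3/3125000) (0) (9/5) (37/20) (12115785628133/1000000000000000) (804809805889711/1000000000000000) :=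
  stepL (by norm_num) (by norm_num) (by norm_num) (by norm_num) (by norm_num) (by norm_num) (by norm_num) Lb17
    (1/20) (9/5) (37/20) (12115785628133/1000000000000000) (804809805889711/1000000000000000) (102527793199/200000000000) (2122594911/500000000) (2458434241/500000000) (by norm_num) (by norm_num) (by norm_num) (by norm_num)
    (by norm_num) (by norm_num [Qd]) (by norm_num [Qe]) (by norm_num) (by norm_num) (by norm_num) (by norm_num) (by norm_num) (by norm_num [Qv]) (by norm_num) (by norm_num)

theorem Lb19 : PL (727813/625000) (37401/1250000) (1883/1250000) (57/625000) (3/500000) (3/3125000) (0) (19/10) (39/20) (3470878634271/500000000000000) (403016702290513/500000000000000) :=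
  stepL (by norm_num) (by norm_num) (by norm_num) (by norm_num) (by norm_num) (by norm_num) (by norm_num) Lb18
    (1/20) (19/10) (39/20) (3470878634271/500000000000000) (403016702290513/500000000000000) (556954118743/1000000000000) (924758831/200000000) (1068330607/200000000) (by norm_num) (by norm_num) (by norm_num) (by norm_num)
    (by norm_num) (by norm_num [Qd]) (by norm_num [Qe]) (by norm_num) (by norm_num) (by norm_num) (by norm_num) (by norm_num) (by norm_num [Qv]) (by norm_num) (by norm_num)

theorem Lb20 : PL (727813/625000) (37401/1250000) (1883/1250000) (57/625000) (3/500000) (3/3125000) (0) (2) (41/20) (1894502892783/500000000000000) (20168395440031/25000000000000) :=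
  stepL (by norm_num) (by norm_num) (by norm_num) (by norm_num) (by norm_num) (by norm_num) (by norm_num) Lb19
    (1/20) (2) (41/20) (1894502892783/500000000000000) (20168395440031/25000000000000) (605451092749/1000000000000) (7942397/1562500) (2902183691/500000000) (by norm_num) (by norm_num) (by norm_num) (by norm_num)
    (by norm_num) (by norm_num [Qd]) (by norm_num [Qe]) (by norm_num) (by norm_num) (by norm_num) (by norm_num) (by norm_num) (by norm_num [Qv]) (by norm_num) (by norm_num)

theorem Lb21 : PL (727813/625000) (37401/1250000) (1883/1250000) (57/625000) (3/500000) (3/3125000) (0) (21/10) (43/20) (1960226049299/1000000000000000) (80712009250961/100000000000000) :=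
  stepL (by norm_num) (by norm_num) (by norm_num) (by norm_num) (by norm_num) (by norm_num) (by norm_num) Lb20
    (1/20) (21/10) (43/20) (1960226049299/1000000000000000) (80712009250961/100000000000000) (659043561661/1000000000000) (5644944497/1000000000) (3156552931/500000000) (by norm_num) (by norm_num) (by norm_num) (by norm_num)
    (by norm_num) (by norm_num [Qd]) (by norm_num [Qe]) (by norm_num) (by norm_num) (by norm_num) (by norm_num) (by norm_num) (by norm_num [Qv]) (by norm_num) (by norm_num)

theorem Lb22 : PL (727813/625000) (37401/1250000) (1883/1250000) (57/625000) (3/500000) (3/3125000) (0) (11/5) (11/5) (1379248555397/1000000000000000) (201829860783867/250000000000000) :=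
  stepL (by norm_num) (by norm_num) (by norm_num) (by norm_num) (by norm_num) (by norm_num) (by norm_num) Lb21
    (1/20) (11/5) (11/5) (1379248555397/1000000000000000) (201829860783867/250000000000000) (175760481543/500000000000) (1584350571/250000000) (3439071131/500000000) (by norm_num) (by norm_num) (by norm_num) (by norm_num)
    (by norm_num) (by norm_num [Qd]) (by norm_num [Qe]) (by norm_num) (by norm_num) (by norm_num) (by norm_num) (by norm_num) (by norm_num [Qv]) (by norm_num) (by norm_num)

theorem Ua0 : PU (6987/8000) (561/25000) (141/125000) (339/5000000) (2211/500000000) (0) (0) (0) (37401/5000000) (377/500000) (17/250000) (37/6250000) (51/100000000) (17/100000000) 0 (1/20) (49890940225233/50000000000000) 0 := by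
  refine ⟨?_, by simp⟩
  have h1 := xexp_ge (2183577767/1000000000000) (by norm_num)
  have h2 : 2183577767/1000000000000 ≤ Qv (6987/8000) (561/25000) (141/125000) (339/5000000) (2211/500000000) (0) (0) (1/20) := by norm_num [Qv]
  have h3 : Real.exp (-(Qv (6987/8000) (561/25000) (141/125000) (339/5000000) (2211/500000000) (0) (0) (1/20))) ≤ Real.exp (-(2183577767/1000000000000)) := Real.exp_le_exp.mpr (by linarith)
  refine le_trans h3 ?_
  have h4 : (49890940225233/50000000000000 : ℝ) = (49890940225233/50000000000000 * Real.exp (2183577767/1000000000000)) * Real.exp (-(2183577767/1000000000000)) := by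
    rw [mul_assoc, ← Real.exp_add]; simp
  rw [h4]
  have h5 : 1 ≤ (49890940225233/50000000000000 : ℝ) * Real.exp (2183577767/1000000000000) := by
    refine le_trans ?_ (mul_le_mul_of_nonneg_left h1 (by norm_num))
    norm_num
  calc _ = 1 * Real.exp (-(2183577767/1000000000000)) := (one_mul _).symm
    _ ≤ _ := mul_le_mul_of_nonneg_right h5 (Real.exp_pos _).le

theorem Ua1 : PU (6987/8000) (561/25000) (141/125000) (339/5000000) (2211/500000000) (0) (0) (0) (37401/5000000) (377/500000) (17/250000) (37/6250000) (51/100000000) (17/100000000) (1/10) (7/50) (245754762627569/250000000000000) (21026393/500000000000000) :=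
  stepU (by norm_num) (by norm_num) (by norm_num) (by norm_num) (by norm_num) (by norm_num) (by norm_num)
    (by norm_num) (by norm_num) (by norm_num) (by norm_num) (by norm_num) (by norm_num) (by norm_num) Ua0
    (1/20) (1/10) (7/50) (245754762627569/250000000000000) (21026393/500000000000000) (7471600643/500000000000) (2236127286154850211/25600000000000000000) (7661655475294740417/163840000000000000000000000) (15325242061273722519/4096000000000000000000000) (8998899/10000000000) (by norm_num) (by norm_num) (by norm_num) (by norm_num)
    (by norm_num [Qd]) (by norm_num) (by norm_num [Qv]) (by norm_num [Qd]) (by norm_num [Qe]) (by norm_num) (by norm_num) (by norm_num [Qv]) (by norm_num) (by norm_num)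

theorem Ua2 : PU (6987/8000) (561/25000) (141/125000) (339/5000000) (2211/500000000) (0) (0) (0) (37401/5000000) (377/500000) (17/250000) (37/6250000) (51/100000000) (17/100000000) (9/50) (11/50) (59909944603377/62500000000000) (329134691/1000000000000000) :=
  stepU (by norm_num) (by norm_num) (by norm_num) (by norm_num) (by norm_num) (by norm_num) (by norm_num)
    (by norm_num) (by norm_num) (by norm_num) (by norm_num) (by norm_num) (by norm_num) (by norm_num) Ua1
    (1/25) (9/50) (11/50) (59909944603377/62500000000000) (329134691/1000000000000000) (12598633129/500000000000) (23905436133980437225077/97656250000000000000000) (175737362955478465210365933/61035156250000000000000000000000) (50260352449153414250633433/610351562500000000000000000000) (1172871/400000000) (by norm_num) (by norm_num) (by norm_num) (by norm_num)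
    (by norm_num [Qd]) (by norm_num) (by norm_num [Qv]) (by norm_num [Qd]) (by norm_num [Qe]) (by norm_num) (by norm_num) (by norm_num [Qv]) (by norm_num) (by norm_num)

theorem Ua3 : PU (6987/8000) (561/25000) (141/125000) (339/5000000) (2211/500000000) (0) (0) (0) (37401/5000000) (377/500000) (17/250000) (37/6250000) (51/100000000) (17/100000000) (13/50) (29/100) (929033736729467/1000000000000000) (900340351/500000000000000) :=
  stepU (by norm_num) (by norm_num) (by norm_num) (by norm_num) (by norm_num) (by norm_num) (by norm_num)
    (by norm_num) (by norm_num) (by norm_num) (by norm_num) (by norm_num) (by norm_num) (by norm_num) Ua2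
    (1/25) (13/50) (29/100) (929033736729467/1000000000000000) (900340351/500000000000000) (6257236083/200000000000) (37621510355558616144801/97656250000000000000000) (1074748565342120138902842597/61035156250000000000000000000000) (195887342931141414262542789/610351562500000000000000000000) (30862469/5000000000) (by norm_num) (by norm_num) (by norm_num) (by norm_num)
    (by norm_num [Qd]) (by norm_num) (by norm_num [Qv]) (by norm_num [Qd]) (by norm_num [Qe]) (by norm_num) (by norm_num) (by norm_num [Qv]) (by norm_num) (by norm_num)

theorem Ua4 : PU (6987/8000) (561/25000) (141/125000) (339/5000000) (2211/500000000) (0) (0) (0) (37401/5000000) (377/500000) (17/250000) (37/6250000) (51/100000000) (17/100000000) (8/25) (7/20) (224557915892483/250000000000000) (969533429/200000000000000) :=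
  stepU (by norm_num) (by norm_num) (by norm_num) (by norm_num) (by norm_num) (by norm_num) (by norm_num)
    (by norm_num) (by norm_num) (by norm_num) (by norm_num) (by norm_num) (by norm_num) (by norm_num) Ua3
    (3/100) (8/25) (7/20) (224557915892483/250000000000000) (969533429/200000000000000) (1348681639/40000000000) (25438031639523914753446359/50000000000000000000000000) (53357956913014375562177001789177/1000000000000000000000000000000000000) (3695561704343388357125910400491/5000000000000000000000000000000000) (94330059/10000000000) (by norm_num) (by norm_num) (by norm_num) (by norm_num)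
    (by norm_num [Qd]) (by norm_num) (by norm_num [Qv]) (by norm_num [Qd]) (by norm_num [Qe]) (by norm_num) (by norm_num) (by norm_num [Qv]) (by norm_num) (by norm_num)

theorem Ua5 : PU (6987/8000) (561/25000) (141/125000) (339/5000000) (2211/500000000) (0) (0) (0) (37401/5000000) (377/500000) (17/250000) (37/6250000) (51/100000000) (17/100000000) (19/50) (41/100) (862902259379701/1000000000000000) (11068830073/1000000000000000) :=
  stepU (by norm_num) (by norm_num) (by norm_num) (by norm_num) (by norm_num) (by norm_num) (by norm_num)
    (by norm_num) (by norm_num) (by norm_num) (by norm_num) (by norm_num) (by norm_num) (by norm_num) Ua4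
    (3/100) (19/50) (41/100) (862902259379701/1000000000000000) (11068830073/1000000000000000) (20063292207/500000000000) (15750319597224289077/25600000000000000000) (18620625941902836418833/163840000000000000000000000) (5353348832517260781633/4096000000000000000000000) (67225251/5000000000) (by norm_num) (by norm_num) (by norm_num) (by norm_num)
    (by norm_num [Qd]) (by norm_num) (by norm_num [Qv]) (by norm_num [Qd]) (by norm_num [Qe]) (by norm_num) (by norm_num) (by norm_num [Qv]) (by norm_num) (by norm_num)

theorem Ua6 : PU (6987/8000) (561/25000) (141/125000) (339/5000000) (2211/500000000) (0) (0) (0) (37401/5000000) (377/500000) (17/250000) (37/6250000) (51/100000000) (17/100000000) (11/25) (47/100) (823628367902827/1000000000000000) (697489819/31250000000000) :=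
  stepU (by norm_num) (by norm_num) (by norm_num) (by norm_num) (by norm_num) (by norm_num) (by norm_num)
    (by norm_num) (by norm_num) (by norm_num) (by norm_num) (by norm_num) (by norm_num) (by norm_num) Ua5
    (3/100) (11/25) (47/100) (823628367902827/1000000000000000) (697489819/31250000000000) (582275119/12500000000) (36121666563042373472247771/50000000000000000000000000) (215009257184880099322458600946737/1000000000000000000000000000000000000) (10578320026058250039662851349199/5000000000000000000000000000000000) (36508441/2000000000) (by norm_num) (by norm_num) (by norm_num) (by norm_num)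
    (by norm_num [Qd]) (by norm_num) (by norm_num [Qv]) (by norm_num [Qd]) (by norm_num [Qe]) (by norm_num) (by norm_num) (by norm_num [Qv]) (by norm_num) (by norm_num)

theorem Ua7 : PU (6987/8000) (561/25000) (141/125000) (339/5000000) (2211/500000000) (0) (0) (0) (37401/5000000) (377/500000) (17/250000) (37/6250000) (51/100000000) (17/100000000) (1/2) (53/100) (781041422570441/1000000000000000) (20453557817/500000000000000) :=
  stepU (by norm_num) (by norm_num) (by norm_num) (by norm_num) (by norm_num) (by norm_num) (by norm_num)
    (by norm_num) (by norm_num) (by norm_num) (by norm_num) (by norm_num) (by norm_num) (by norm_num) Ua6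
    (3/100) (1/2) (53/100) (781041422570441/1000000000000000) (20453557817/500000000000000) (13272808013/250000000000) (41522483529624625595817837/50000000000000000000000000) (373302520758989486693021661594273/1000000000000000000000000000000000000) (16065234123996795204459045281913/5000000000000000000000000000000000) (119580023/5000000000) (by norm_num) (by norm_num) (by norm_num) (by norm_num)
    (by norm_num [Qd]) (by norm_num) (by norm_num [Qv]) (by norm_num [Qd]) (by norm_num [Qe]) (by norm_num) (by norm_num) (by norm_num [Qv]) (by norm_num) (by norm_num)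

theorem Ua8 : PU (6987/8000) (561/25000) (141/125000) (339/5000000) (2211/500000000) (0) (0) (0) (37401/5000000) (377/500000) (17/250000) (37/6250000) (51/100000000) (17/100000000) (14/25) (59/100) (735805419373367/1000000000000000) (17381699409/250000000000000) :=
  stepU (by norm_num) (by norm_num) (by norm_num) (by norm_num) (by norm_num) (by norm_num) (by norm_num)
    (by norm_num) (by norm_num) (by norm_num) (by norm_num) (by norm_num) (by norm_num) (by norm_num) Ua7
    (3/100) (14/25) (59/100) (735805419373367/1000000000000000) (17381699409/250000000000000) (14915619593/250000000000) (46971512588921545268916063/50000000000000000000000000) (607369681287436519074283729481673/1000000000000000000000000000000000000) (23251513247812592857446144140787/5000000000000000000000000000000000) (38121101/1250000000) (by norm_num) (by norm_num) (by norm_num) (by norm_num)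
    (by norm_num [Qd]) (by norm_num) (by norm_num [Qv]) (by norm_num [Qd]) (by norm_num [Qe]) (by norm_num) (by norm_num) (by norm_num [Qv]) (by norm_num) (by norm_num)

theorem Ua9 : PU (6987/8000) (561/25000) (141/125000) (339/5000000) (2211/500000000) (0) (0) (0) (37401/5000000) (377/500000) (17/250000) (37/6250000) (51/100000000) (17/100000000) (31/50) (16/25) (696575785791507/1000000000000000) (2779039883/25000000000000) :=
  stepU (by norm_num) (by norm_num) (by norm_num) (by norm_num) (by norm_num) (by norm_num) (by norm_num)
    (by norm_num) (by norm_num) (by norm_num) (by norm_num) (by norm_num) (by norm_num) (by norm_num) Ua8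
    (3/100) (31/50) (16/25) (696575785791507/1000000000000000) (2779039883/25000000000000) (1369727779/25000000000) (52475753066444597958870129/50000000000000000000000000) (939236677653067702093452396176937/1000000000000000000000000000000000000) (32413039016251113019501741761501/5000000000000000000000000000000000) (380756671/10000000000) (by norm_num) (by norm_num) (by norm_num) (by norm_num)
    (by norm_num [Qd]) (by norm_num) (by norm_num [Qv]) (by norm_num [Qd]) (by norm_num [Qe]) (by norm_num) (by norm_num) (by norm_num [Qv]) (by norm_num) (by norm_num)

theorem Ua10 : PU (6987/8000) (561/25000) (141/125000) (339/5000000) (2211/500000000) (0) (0) (0) (37401/5000000) (377/500000) (17/250000) (37/6250000) (51/100000000) (17/100000000) (33/50) (17/25) (332236412746327/500000000000000) (922980363/6250000000000) :=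
  stepU (by norm_num) (by norm_num) (by norm_num) (by norm_num) (by norm_num) (by norm_num) (by norm_num)
    (by norm_num) (by norm_num) (by norm_num) (by norm_num) (by norm_num) (by norm_num) (by norm_num) Ua9
    (1/50) (33/50) (17/25) (332236412746327/500000000000000) (922980363/6250000000000) (11795653529/250000000000) (3404025451861207239/2980232238769531250) (19045092874444939441152/14551915228366851806640625) (4862879386944630091008/582076609134674072265625) (54659729/1250000000) (by norm_num) (by norm_num) (by norm_num) (by norm_num)
    (by norm_num [Qd]) (by norm_num) (by norm_num [Qv]) (by norm_num [Qd]) (by norm_num [Qe]) (by norm_num) (by norm_num) (by norm_num [Qv]) (by norm_num) (by norm_num)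

theorem Ua11 : PU (6987/8000) (561/25000) (141/125000) (339/5000000) (2211/500000000) (0) (0) (0) (37401/5000000) (377/500000) (17/250000) (37/6250000) (51/100000000) (17/100000000) (7/10) (18/25) (315973325412271/500000000000000) (192303127791/1000000000000000) :=
  stepU (by norm_num) (by norm_num) (by norm_num) (by norm_num) (by norm_num) (by norm_num) (by norm_num)
    (by norm_num) (by norm_num) (by norm_num) (by norm_num) (by norm_num) (by norm_num) (by norm_num) Ua10
    (1/50) (7/10) (18/25) (315973325412271/500000000000000) (192303127791/1000000000000000) (50189005317/1000000000000) (232131057495450722367/190734863281250000000) (390493165986677810586573/232830643653869628906250000) (752831529065045031867753/74505805969238281250000000) (249478451/5000000000) (by norm_num) (by norm_num) (by norm_num) (by norm_num)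
    (by norm_num [Qd]) (by norm_num) (by norm_num [Qv]) (by norm_num [Qd]) (by norm_num [Qe]) (by norm_num) (by norm_num) (by norm_num [Qv]) (by norm_num) (by norm_num)

theorem Ua12 : PU (6987/8000) (561/25000) (141/125000) (339/5000000) (2211/500000000) (0) (0) (0) (37401/5000000) (377/500000) (17/250000) (37/6250000) (51/100000000) (17/100000000) (37/50) (19/25) (149798019404047/250000000000000) (49190240543/200000000000000) :=
  stepU (by norm_num) (by norm_num) (by norm_num) (by norm_num) (by norm_num) (by norm_num) (by norm_num)
    (by norm_num) (by norm_num) (by norm_num) (by norm_num) (by norm_num) (by norm_num) (by norm_num) Ua11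
    (1/50) (37/50) (19/25) (149798019404047/250000000000000) (49190240543/200000000000000) (26611383409/500000000000) (30816292718903784831/23841857910156250000) (123423828103574480933397/58207660913467407226562500) (14087509576355473327953/1164153218269348144531250) (566142103/10000000000) (by norm_num) (by norm_num) (by norm_num) (by norm_num)
    (by norm_num [Qd]) (by norm_num) (by norm_num [Qv]) (by norm_num [Qd]) (by norm_num [Qe]) (by norm_num) (by norm_num) (by norm_num [Qv]) (by norm_num) (by norm_num)

theorem Ua13 : PU (6987/8000) (561/25000) (141/125000) (339/5000000) (2211/500000000) (0) (0) (0) (37401/5000000) (377/500000) (17/250000) (37/6250000) (51/100000000) (17/100000000) (39/50) (4/5) (113279520194243/200000000000000) (309484760149/1000000000000000) :=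
  stepU (by norm_num) (by norm_num) (by norm_num) (by norm_num) (by norm_num) (by norm_num) (by norm_num)
    (by norm_num) (by norm_num) (by norm_num) (by norm_num) (by norm_num) (by norm_num) (by norm_num) Ua12
    (1/50) (39/50) (4/5) (113279520194243/200000000000000) (309484760149/1000000000000000) (56285903717/1000000000000) (261064854711171151869/190734863281250000000) (1233455280880891931731179/465661287307739257812500000) (1070397242353540761723771/74505805969238281250000000) (9987811/156250000) (by norm_num) (by norm_num) (by norm_num) (by norm_num)
    (by norm_num [Qd]) (by norm_num) (by norm_num [Qv]) (by norm_num [Qd]) (by norm_num [Qe]) (by norm_num) (by norm_num) (by norm_num [Qv]) (by norm_num) (by norm_num)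

theorem Ua14 : PU (6987/8000) (561/25000) (141/125000) (339/5000000) (2211/500000000) (0) (0) (0) (37401/5000000) (377/500000) (17/250000) (37/6250000) (51/100000000) (17/100000000) (41/50) (21/25) (66717965228773/125000000000000) (191848509211/500000000000000) :=
  stepU (by norm_num) (by norm_num) (by norm_num) (by norm_num) (by norm_num) (by norm_num) (by norm_num)
    (by norm_num) (by norm_num) (by norm_num) (by norm_num) (by norm_num) (by norm_num) (by norm_num) Ua13
    (1/50) (41/50) (21/25) (66717965228773/125000000000000) (191848509211/500000000000000) (59380504703/1000000000000) (8823819231399/6103515625000) (7804949716692/2384185791015625) (8070259677972/476837158203125) (718619137/10000000000) (by norm_num) (by norm_num) (by norm_num) (by norm_num)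
    (by norm_num [Qd]) (by norm_num) (by norm_num [Qv]) (by norm_num [Qd]) (by norm_num [Qe]) (by norm_num) (by norm_num) (by norm_num [Qv]) (by norm_num) (by norm_num)

theorem Ua15 : PU (6987/8000) (561/25000) (141/125000) (339/5000000) (2211/500000000) (0) (0) (0) (37401/5000000) (377/500000) (17/250000) (37/6250000) (51/100000000) (17/100000000) (43/50) (22/25) (501401437429679/1000000000000000) (117322036119/250000000000000) :=
  stepU (by norm_num) (by norm_num) (by norm_num) (by norm_num) (by norm_num) (by norm_num) (by norm_num)
    (by norm_num) (by norm_num) (by norm_num) (by norm_num) (by norm_num) (by norm_num) (by norm_num) Ua14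
    (1/50) (43/50) (22/25) (501401437429679/1000000000000000) (117322036119/250000000000000) (62508749543/1000000000000) (290579001192195128091/190734863281250000000) (1865916317957381590720869/465661287307739257812500000) (1475227627573945186232109/74505805969238281250000000) (804815731/10000000000) (by norm_num) (by norm_num) (by norm_num) (by norm_num)
    (by norm_num [Qd]) (by norm_num) (by norm_num [Qv]) (by norm_num [Qd]) (by norm_num [Qe]) (by norm_num) (by norm_num) (by norm_num [Qv]) (by norm_num) (by norm_num)

theorem Ua16 : PU (6987/8000) (561/25000) (141/125000) (339/5000000) (2211/500000000) (0) (0) (0) (37401/5000000) (377/500000) (17/250000) (37/6250000) (51/100000000) (17/100000000) (9/10) (23/25) (93906182276867/200000000000000) (566844072231/1000000000000000) :=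
  stepU (by norm_num) (by norm_num) (by norm_num) (by norm_num) (by norm_num) (by norm_num) (by norm_num)
    (by norm_num) (by norm_num) (by norm_num) (by norm_num) (by norm_num) (by norm_num) (by norm_num) Ua15
    (1/50) (9/10) (23/25) (93906182276867/200000000000000) (566844072231/1000000000000000) (8209114641/125000000000) (38197428623447845389/23841857910156250000) (283019860026989967057957/58207660913467407226562500) (26799567568066826223867/1164153218269348144531250) (898338177/10000000000) (by norm_num) (by norm_num) (by norm_num) (by norm_num)
    (by norm_num [Qd]) (by norm_num) (by norm_num [Qv]) (by norm_num [Qd]) (by norm_num [Qe]) (by norm_num) (by norm_num) (by norm_num [Qv]) (by norm_num) (by norm_num)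

theorem Ua17 : PU (6987/8000) (561/25000) (141/125000) (339/5000000) (2211/500000000) (0) (0) (0) (37401/5000000) (377/500000) (17/250000) (37/6250000) (51/100000000) (17/100000000) (47/50) (24/25) (438280335618509/1000000000000000) (169204339533/250000000000000) :=
  stepU (by norm_num) (by norm_num) (by norm_num) (by norm_num) (by norm_num) (by norm_num) (by norm_num)
    (by norm_num) (by norm_num) (by norm_num) (by norm_num) (by norm_num) (by norm_num) (by norm_num) Ua16
    (1/50) (47/50) (24/25) (438280335618509/1000000000000000) (169204339533/250000000000000) (68875394127/1000000000000) (320756750793650207193/190734863281250000000) (340728157087381985428377/58207660913467407226562500) (1982996169344416196907327/74505805969238281250000000) (249943463/2500000000) (by norm_num) (by norm_num) (by norm_num) (by norm_num)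
    (by norm_num [Qd]) (by norm_num) (by norm_num [Qv]) (by norm_num [Qd]) (by norm_num [Qe]) (by norm_num) (by norm_num) (by norm_num [Qv]) (by norm_num) (by norm_num)

theorem Ua18 : PU (6987/8000) (561/25000) (141/125000) (339/5000000) (2211/500000000) (0) (0) (0) (37401/5000000) (377/500000) (17/250000) (37/6250000) (51/100000000) (17/100000000) (49/50) (1) (203892496385261/500000000000000) (49969415167/62500000000000) :=
  stepU (by norm_num) (by norm_num) (by norm_num) (by norm_num) (by norm_num) (by norm_num) (by norm_num)
    (by norm_num) (by norm_num) (by norm_num) (by norm_num) (by norm_num) (by norm_num) (by norm_num) Ua17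
    (1/50) (49/50) (1) (203892496385261/500000000000000) (49969415167/62500000000000) (72118684303/1000000000000) (10503831832067835477/5960464477539062500) (101818008822128364724032/14551915228366851806640625) (17820768045111659792352/582076609134674072265625) (277444089/2500000000) (by norm_num) (by norm_num) (by norm_num) (by norm_num)
    (by norm_num [Qd]) (by norm_num) (by norm_num [Qv]) (by norm_num [Qd]) (by norm_num [Qe]) (by norm_num) (by norm_num) (by norm_num [Qv]) (by norm_num) (by norm_num)

theorem Ua19 : PU (6987/8000) (561/25000) (141/125000) (339/5000000) (2211/500000000) (0) (0) (0) (37401/5000000) (377/500000) (17/250000) (37/6250000) (51/100000000) (17/100000000) (51/50) (26/25) (9454163101391/25000000000000) (187012642451/200000000000000) :=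
  stepU (by norm_num) (by norm_num) (by norm_num) (by norm_num) (by norm_num) (by norm_num) (by norm_num)
    (by norm_num) (by norm_num) (by norm_num) (by norm_num) (by norm_num) (by norm_num) (by norm_num) Ua18
    (1/50) (51/50) (26/25) (9454163101391/25000000000000) (187012642451/200000000000000) (75405418561/1000000000000) (92193231/50000000) (5193/625000) (70113/2000000) (307268513/2500000000) (by norm_num) (by norm_num) (by norm_num) (by norm_num)
    (by norm_num [Qd]) (by norm_num) (by norm_num [Qv]) (by norm_num [Qd]) (by norm_num [Qe]) (by norm_num) (by norm_num) (by norm_num [Qv]) (by norm_num) (by norm_num)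

theorem Ua20 : PU (6987/8000) (561/25000) (141/125000) (339/5000000) (2211/500000000) (0) (0) (0) (37401/5000000) (377/500000) (17/250000) (37/6250000) (51/100000000) (17/100000000) (53/50) (27/25) (69906480799159/200000000000000) (1083441066957/1000000000000000) :=
  stepU (by norm_num) (by norm_num) (by norm_num) (by norm_num) (by norm_num) (by norm_num) (by norm_num)
    (by norm_num) (by norm_num) (by norm_num) (by norm_num) (by norm_num) (by norm_num) (by norm_num) Ua19
    (1/50) (53/50) (27/25) (69906480799159/200000000000000) (1083441066957/1000000000000000) (19684591443/250000000000) (45933694833012723867/23841857910156250000) (570886954285659663998853/58207660913467407226562500) (46536419287590887215821/1164153218269348144531250) (679240009/5000000000) (by norm_num) (by norm_num) (by norm_num) (by norm_num)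
    (by norm_num [Qd]) (by norm_num) (by norm_num [Qv]) (by norm_num [Qd]) (by norm_num [Qe]) (by norm_num) (by norm_num) (by norm_num [Qv]) (by norm_num) (by norm_num)

theorem Ua21 : PU (6987/8000) (561/25000) (141/125000) (339/5000000) (2211/500000000) (0) (0) (0) (37401/5000000) (377/500000) (17/250000) (37/6250000) (51/100000000) (17/100000000) (11/10) (28/25) (40246952492999/125000000000000) (311107699853/250000000000000) :=
  stepU (by norm_num) (by norm_num) (by norm_num) (by norm_num) (by norm_num) (by norm_num) (by norm_num)
    (by norm_num) (by norm_num) (by norm_num) (by norm_num) (by norm_num) (by norm_num) (by norm_num) Ua20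
    (1/50) (11/10) (28/25) (40246952492999/125000000000000) (311107699853/250000000000000) (41060222229/500000000000) (383477046167712968757/190734863281250000000) (5361465941206785071003241/465661287307739257812500000) (3383326146029985470699523/74505805969238281250000000) (749451841/5000000000) (by norm_num) (by norm_num) (by norm_num) (by norm_num)
    (by norm_num [Qd]) (by norm_num) (by norm_num [Qv]) (by norm_num [Qd]) (by norm_num [Qe]) (by norm_num) (by norm_num) (by norm_num [Qv]) (by norm_num) (by norm_num)

theorem Ua22 : PU (6987/8000) (561/25000) (141/125000) (339/5000000) (2211/500000000) (0) (0) (0) (37401/5000000) (377/500000) (17/250000) (37/6250000) (51/100000000) (17/100000000) (57/50) (29/25) (147787275522969/500000000000000) (708818740703/500000000000000) :=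
  stepU (by norm_num) (by norm_num) (by norm_num) (by norm_num) (by norm_num) (by norm_num) (by norm_num)
    (by norm_num) (by norm_num) (by norm_num) (by norm_num) (by norm_num) (by norm_num) (by norm_num) Ua21
    (1/50) (57/50) (29/25) (147787275522969/500000000000000) (708818740703/500000000000000) (42777367697/500000000000) (24982876359581102193/11920928955078125000) (195695199298306228393908/14551915228366851806640625) (29923309493362767588204/582076609134674072265625) (825682219/5000000000) (by norm_num) (by norm_num) (by norm_num) (by norm_num)
    (by norm_num [Qd]) (by norm_num) (by norm_num [Qv]) (by norm_num [Qd]) (by norm_num [Qe]) (by norm_num) (by norm_num) (by norm_num [Qv]) (by norm_num) (by norm_num)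

theorem Ua23 : PU (6987/8000) (561/25000) (141/125000) (339/5000000) (2211/500000000) (0) (0) (0) (37401/5000000) (377/500000) (17/250000) (37/6250000) (51/100000000) (17/100000000) (59/50) (6/5) (270393038224067/1000000000000000) (25038853769/15625000000000) :=
  stepU (by norm_num) (by norm_num) (by norm_num) (by norm_num) (by norm_num) (by norm_num) (by norm_num)
    (by norm_num) (by norm_num) (by norm_num) (by norm_num) (by norm_num) (by norm_num) (by norm_num) Ua22
    (1/50) (59/50) (6/5) (270393038224067/1000000000000000) (25038853769/15625000000000) (44522247607/500000000000) (416231583753619883859/190734863281250000000) (7280344389493018728437319/465661287307739257812500000) (4322492136222256844706741/74505805969238281250000000) (1817007611/10000000000) (by norm_num) (by norm_num) (by norm_num) (by norm_num)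
    (by norm_num [Qd]) (by norm_num) (by norm_num [Qv]) (by norm_num [Qd]) (by norm_num [Qe]) (by norm_num) (by norm_num) (by norm_num [Qv]) (by norm_num) (by norm_num)

theorem Ua24 : PU (6987/8000) (561/25000) (141/125000) (339/5000000) (2211/500000000) (0) (0) (0) (37401/5000000) (377/500000) (17/250000) (37/6250000) (51/100000000) (17/100000000) (61/50) (31/25) (3081007925149/12500000000000) (1798230299737/1000000000000000) :=
  stepU (by norm_num) (by norm_num) (by norm_num) (by norm_num) (by norm_num) (by norm_num) (by norm_num)
    (by norm_num) (by norm_num) (by norm_num) (by norm_num) (by norm_num) (by norm_num) (by norm_num) Ua23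
    (1/50) (61/50) (31/25) (3081007925149/12500000000000) (1798230299737/1000000000000000) (18518634217/200000000000) (27712621002357/12207031250000) (172597381224813/9536743164062500) (62261531760411/953674316406250) (1997123179/10000000000) (by norm_num) (by norm_num) (by norm_num) (by norm_num)
    (by norm_num [Qd]) (by norm_num) (by norm_num [Qv]) (by norm_num [Qd]) (by norm_num [Qe]) (by norm_num) (by norm_num) (by norm_num [Qv]) (by norm_num) (by norm_num)

theorem Ua25 : PU (6987/8000) (561/25000) (141/125000) (339/5000000) (2211/500000000) (0) (0) (0) (37401/5000000) (377/500000) (17/250000) (37/6250000) (51/100000000) (17/100000000) (63/50) (127/100) (229401153664641/1000000000000000) (2003956920589/1000000000000000) :=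
  stepU (by norm_num) (by norm_num) (by norm_num) (by norm_num) (by norm_num) (by norm_num) (by norm_num)
    (by norm_num) (by norm_num) (by norm_num) (by norm_num) (by norm_num) (by norm_num) (by norm_num) Ua24
    (1/50) (63/50) (127/100) (229401153664641/1000000000000000) (2003956920589/1000000000000000) (71811192817/1000000000000) (450077296329755256081/190734863281250000000) (4858454496820270420125927/232830643653869628906250000) (5459568888896531102747079/74505805969238281250000000) (2193167767/10000000000) (by norm_num) (by norm_num) (by norm_num) (by norm_num)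
    (by norm_num [Qd]) (by norm_num) (by norm_num [Qv]) (by norm_num [Qd]) (by norm_num [Qe]) (by norm_num) (by norm_num) (by norm_num [Qv]) (by norm_num) (by norm_num)

theorem Ua26 : PU (6987/8000) (561/25000) (141/125000) (339/5000000) (2211/500000000) (0) (0) (0) (37401/5000000) (377/500000) (17/250000) (37/6250000) (51/100000000) (17/100000000) (32/25) (129/100) (54606973233013/250000000000000) (1055110796919/500000000000000) :=
  stepU (by norm_num) (by norm_num) (by norm_num) (by norm_num) (by norm_num) (by norm_num) (by norm_num)
    (by norm_num) (by norm_num) (by norm_num) (by norm_num) (by norm_num) (by norm_num) (by norm_num) Ua25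
    (1/100) (32/25) (129/100) (54606973233013/250000000000000) (1055110796919/500000000000000) (49016283129/1000000000000) (121393305260758939792328157/50000000000000000000000000) (23161644002551552997670347198841153/1000000000000000000000000000000000000) (398907614265944089979263667434473/5000000000000000000000000000000000) (229767047/1000000000) (by norm_num) (by norm_num) (by norm_num) (by norm_num)
    (by norm_num [Qd]) (by norm_num) (by norm_num [Qv]) (by norm_num [Qd]) (by norm_num [Qe]) (by norm_num) (by norm_num) (by norm_num [Qv]) (by norm_num) (by norm_num)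

theorem Ua27 : PU (6987/8000) (561/25000) (141/125000) (339/5000000) (2211/500000000) (0) (0) (0) (37401/5000000) (377/500000) (17/250000) (37/6250000) (51/100000000) (17/100000000) (13/10) (131/100) (207787515701841/1000000000000000) (2218572711393/1000000000000000) :=
  stepU (by norm_num) (by norm_num) (by norm_num) (by norm_num) (by norm_num) (by norm_num) (by norm_num)
    (by norm_num) (by norm_num) (by norm_num) (by norm_num) (by norm_num) (by norm_num) (by norm_num) Ua26
    (1/100) (13/10) (131/100) (207787515701841/1000000000000000) (2218572711393/1000000000000000) (24969976089/500000000000) (123691675216909566260180259/50000000000000000000000000) (24802875788300675910816593298157377/1000000000000000000000000000000000000) (421886242390175345743887918823191/5000000000000000000000000000000000) (2406790461/10000000000) (by norm_num) (by norm_num) (by norm_num) (by norm_num)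
    (by norm_num [Qd]) (by norm_num) (by norm_num [Qv]) (by norm_num [Qd]) (by norm_num [Qe]) (by norm_num) (by norm_num) (by norm_num [Qv]) (by norm_num) (by norm_num)

theorem Ua28 : PU (6987/8000) (561/25000) (141/125000) (339/5000000) (2211/500000000) (0) (0) (0) (37401/5000000) (377/500000) (17/250000) (37/6250000) (51/100000000) (17/100000000) (33/25) (133/100) (39496246700129/200000000000000) (93154277801/40000000000000) :=
  stepU (by norm_num) (by norm_num) (by norm_num) (by norm_num) (by norm_num) (by norm_num) (by norm_num)
    (by norm_num) (by norm_num) (by norm_num) (by norm_num) (by norm_num) (by norm_num) (by norm_num) Ua27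
    (1/100) (33/25) (133/100) (39496246700129/200000000000000) (93154277801/40000000000000) (12718109713/250000000000) (126011759343712306379849481/50000000000000000000000000) (26538188901681704602455459031891257/1000000000000000000000000000000000000) (445956170884381817249879704375029/5000000000000000000000000000000000) (63019223/250000000) (by norm_num) (by norm_num) (by norm_num) (by norm_num)
    (by norm_num [Qd]) (by norm_num) (by norm_num [Qv]) (by norm_num [Qd]) (by norm_num [Qe]) (by norm_num) (by norm_num) (by norm_num [Qv]) (by norm_num) (by norm_num)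

theorem Ua29 : PU (6987/8000) (561/25000) (141/125000) (339/5000000) (2211/500000000) (0) (0) (0) (37401/5000000) (377/500000) (17/250000) (37/6250000) (51/100000000) (17/100000000) (67/50) (27/20) (46877376697577/250000000000000) (610228468077/250000000000000) :=
  stepU (by norm_num) (by norm_num) (by norm_num) (by norm_num) (by norm_num) (by norm_num) (by norm_num)
    (by norm_num) (by norm_num) (by norm_num) (by norm_num) (by norm_num) (by norm_num) (by norm_num) Ua28
    (1/100) (67/50) (27/20) (46877376697577/250000000000000) (610228468077/250000000000000) (5181401257/100000000000) (128354220834179964101803983/50000000000000000000000000) (28372044896743157293111451775732393/1000000000000000000000000000000000000) (471165991131608177607084459368547/5000000000000000000000000000000000) (1319931563/5000000000) (by norm_num) (by norm_num) (by norm_num) (by norm_num)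
    (by norm_num [Qd]) (by norm_num) (by norm_num [Qv]) (by norm_num [Qd]) (by norm_num [Qe]) (by norm_num) (by norm_num) (by norm_num [Qv]) (by norm_num) (by norm_num)

theorem Ua30 : PU (6987/8000) (561/25000) (141/125000) (339/5000000) (2211/500000000) (0) (0) (0) (37401/5000000) (377/500000) (17/250000) (37/6250000) (51/100000000) (17/100000000) (34/25) (137/100) (177872072085439/1000000000000000) (2554576654881/1000000000000000) :=
  stepU (by norm_num) (by norm_num) (by norm_num) (by norm_num) (by norm_num) (by norm_num) (by norm_num)
    (by norm_num) (by norm_num) (by norm_num) (by norm_num) (by norm_num) (by norm_num) (by norm_num) Ua29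
    (1/100) (34/25) (137/100) (177872072085439/1000000000000000) (2554576654881/1000000000000000) (42211961/800000000) (66928508784193450257/25600000000000000000) (4965843727807990845454953/163840000000000000000000000) (407606778121067897390973/4096000000000000000000000) (552869541/2000000000) (by norm_num) (by norm_num) (by norm_num) (by norm_num)
    (by norm_num [Qd]) (by norm_num) (by norm_num [Qv]) (by norm_num [Qd]) (by norm_num [Qe]) (by norm_num) (by norm_num) (by norm_num [Qv]) (by norm_num) (by norm_num)

theorem Ua31 : PU (6987/8000) (561/25000) (141/125000) (339/5000000) (2211/500000000) (0) (0) (0) (37401/5000000) (377/500000) (17/250000) (37/6250000) (51/100000000) (17/100000000) (69/50) (139/100) (168567970482013/1000000000000000) (1334836374699/500000000000000) :=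
  stepU (by norm_num) (by norm_num) (by norm_num) (by norm_num) (by norm_num) (by norm_num) (by norm_num)
    (by norm_num) (by norm_num) (by norm_num) (by norm_num) (by norm_num) (by norm_num) (by norm_num) Ua30
    (1/100) (69/50) (139/100) (168567970482013/1000000000000000) (1334836374699/500000000000000) (53725541653/1000000000000) (133109033703175227172593147/50000000000000000000000000) (32354239666304366376827479899923313/1000000000000000000000000000000000000) (525212712482784603345851631752943/5000000000000000000000000000000000) (180907249/625000000) (by norm_num) (by norm_num) (by norm_num) (by norm_num)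
    (by norm_num [Qd]) (by norm_num) (by norm_num [Qv]) (by norm_num [Qd]) (by norm_num [Qe]) (by norm_num) (by norm_num) (by norm_num [Qv]) (by norm_num) (by norm_num)

theorem Ua32 : PU (6987/8000) (561/25000) (141/125000) (339/5000000) (2211/500000000) (0) (0) (0) (37401/5000000) (377/500000) (17/250000) (37/6250000) (51/100000000) (17/100000000) (7/5) (141/100) (159595577442143/1000000000000000) (2786024646597/1000000000000000) :=
  stepU (by norm_num) (by norm_num) (by norm_num) (by norm_num) (by norm_num) (by norm_num) (by norm_num)
    (by norm_num) (by norm_num) (by norm_num) (by norm_num) (by norm_num) (by norm_num) (by norm_num) Ua31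
    (1/100) (7/5) (141/100) (159595577442143/1000000000000000) (2786024646597/1000000000000000) (10939215947/200000000000) (135522819032522707118798049/50000000000000000000000000) (34512542095723700197259893555245897/1000000000000000000000000000000000000) (554160370505453547563980506525261/5000000000000000000000000000000000) (757670363/2500000000) (by norm_num) (by norm_num) (by norm_num) (by norm_num)
    (by norm_num [Qd]) (by norm_num) (by norm_num [Qv]) (by norm_num [Qd]) (by norm_num [Qe]) (by norm_num) (by norm_num) (by norm_num [Qv]) (by norm_num) (by norm_num)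

theorem Ua33 : PU (6987/8000) (561/25000) (141/125000) (339/5000000) (2211/500000000) (0) (0) (0) (37401/5000000) (377/500000) (17/250000) (37/6250000) (51/100000000) (17/100000000) (71/50) (143/100) (75476316839057/500000000000000) (362931329221/125000000000000) :=
  stepU (by norm_num) (by norm_num) (by norm_num) (by norm_num) (by norm_num) (by norm_num) (by norm_num)
    (by norm_num) (by norm_num) (by norm_num) (by norm_num) (by norm_num) (by norm_num) (by norm_num) Ua32
    (1/100) (71/50) (143/100) (75476316839057/500000000000000) (362931329221/125000000000000) (11135374203/200000000000) (137961851395602082744885671/50000000000000000000000000) (36789338207162949655671178751856537/1000000000000000000000000000000000000) (584469822840421229938251031699899/5000000000000000000000000000000000) (634635869/2000000000) (by norm_num) (by norm_num) (by norm_num) (by norm_num)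
    (by norm_num [Qd]) (by norm_num) (by norm_num [Qv]) (by norm_num [Qd]) (by norm_num [Qe]) (by norm_num) (by norm_num) (by norm_num [Qv]) (by norm_num) (by norm_num)

theorem Ua34 : PU (6987/8000) (561/25000) (141/125000) (339/5000000) (2211/500000000) (0) (0) (0) (37401/5000000) (377/500000) (17/250000) (37/6250000) (51/100000000) (17/100000000) (36/25) (29/20) (142636276979881/1000000000000000) (3021765575783/1000000000000000) :=
  stepU (by norm_num) (by norm_num) (by norm_num) (by norm_num) (by norm_num) (by norm_num) (by norm_num)
    (by norm_num) (by norm_num) (by norm_num) (by norm_num) (by norm_num) (by norm_num) (by norm_num) Ua33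
    (1/100) (36/25) (29/20) (142636276979881/1000000000000000) (3021765575783/1000000000000000) (11333646191/200000000000) (140426906857724036772709773/50000000000000000000000000) (39190200690199610107624351240776033/1000000000000000000000000000000000000) (616204403507118247417651419838617/5000000000000000000000000000000000) (1661184179/5000000000) (by norm_num) (by norm_num) (by norm_num) (by norm_num)
    (by norm_num [Qd]) (by norm_num) (by norm_num [Qv]) (by norm_num [Qd]) (by norm_num [Qe]) (by norm_num) (by norm_num) (by norm_num [Qv]) (by norm_num) (by norm_num)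

theorem Ua35 : PU (6987/8000) (561/25000) (141/125000) (339/5000000) (2211/500000000) (0) (0) (0) (37401/5000000) (377/500000) (17/250000) (37/6250000) (51/100000000) (17/100000000) (73/50) (147/100) (16830384353809/125000000000000) (628156341951/200000000000000) :=
  stepU (by norm_num) (by norm_num) (by norm_num) (by norm_num) (by norm_num) (by norm_num) (by norm_num)
    (by norm_num) (by norm_num) (by norm_num) (by norm_num) (by norm_num) (by norm_num) (by norm_num) Ua34
    (1/100) (73/50) (147/100) (16830384353809/125000000000000) (628156341951/200000000000000) (57670485357/1000000000000) (73174418857408678359/25600000000000000000) (6835562522987542398035577/163840000000000000000000000) (532013903256723225530091/4096000000000000000000000) (3478632499/10000000000) (by norm_num) (by norm_num) (by norm_num) (by norm_num)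
    (by norm_num [Qd]) (by norm_num) (by norm_num [Qv]) (by norm_num [Qd]) (by norm_num [Qe]) (by norm_num) (by norm_num) (by norm_num [Qv]) (by norm_num) (by norm_num)

theorem Ua36 : PU (6987/8000) (561/25000) (141/125000) (339/5000000) (2211/500000000) (0) (0) (0) (37401/5000000) (377/500000) (17/250000) (37/6250000) (51/100000000) (17/100000000) (37/25) (149/100) (31742264414113/250000000000000) (815077362091/250000000000000) :=
  stepU (by norm_num) (by norm_num) (by norm_num) (by norm_num) (by norm_num) (by norm_num) (by norm_num)
    (by norm_num) (by norm_num) (by norm_num) (by norm_num) (by norm_num) (by norm_num) (by norm_num) Ua35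
    (1/100) (37/25) (149/100) (31742264414113/250000000000000) (815077362091/250000000000000) (58683970771/1000000000000) (145438319079854072319511737/50000000000000000000000000) (44387732531758881590550523770246873/1000000000000000000000000000000000000) (684220477718415860106169163624613/5000000000000000000000000000000000) (364238309/1000000000) (by norm_num) (by norm_num) (by norm_num) (by norm_num)
    (by norm_num [Qd]) (by norm_num) (by norm_num [Qv]) (by norm_num [Qd]) (by norm_num [Qe]) (by norm_num) (by norm_num) (by norm_num [Qv]) (by norm_num) (by norm_num)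

theorem Ua37 : PU (6987/8000) (561/25000) (141/125000) (339/5000000) (2211/500000000) (0) (0) (0) (37401/5000000) (377/500000) (17/250000) (37/6250000) (51/100000000) (17/100000000) (3/2) (151/100) (59804876281057/500000000000000) (169007909343/50000000000000) :=
  stepU (by norm_num) (by norm_num) (by norm_num) (by norm_num) (by norm_num) (by norm_num) (by norm_num)
    (by norm_num) (by norm_num) (by norm_num) (by norm_num) (by norm_num) (by norm_num) (by norm_num) Ua36
    (1/100) (3/2) (151/100) (59804876281057/500000000000000) (169007909343/50000000000000) (1492725873/25000000000) (147986358765932642731872639/50000000000000000000000000) (47196909876647063345126524639031817/1000000000000000000000000000000000000) (720647610697517266740156108326931/5000000000000000000000000000000000) (1907030467/5000000000) (by norm_num) (by norm_num) (by norm_num) (by norm_num)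
    (by norm_num [Qd]) (by norm_num) (by norm_num [Qv]) (by norm_num [Qd]) (by norm_num [Qe]) (by norm_num) (by norm_num) (by norm_num [Qv]) (by norm_num) (by norm_num)

theorem Ua38 : PU (6987/8000) (561/25000) (141/125000) (339/5000000) (2211/500000000) (0) (0) (0) (37401/5000000) (377/500000) (17/250000) (37/6250000) (51/100000000) (17/100000000) (38/25) (153/100) (11256021739927/100000000000000) (437517138599/125000000000000) :=
  stepU (by norm_num) (by norm_num) (by norm_num) (by norm_num) (by norm_num) (by norm_num) (by norm_num)
    (by norm_num) (by norm_num) (by norm_num) (by norm_num) (by norm_num) (by norm_num) (by norm_num) Ua37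
    (1/100) (38/25) (153/100) (11256021739927/100000000000000) (437517138599/125000000000000) (30373018571/500000000000) (150563789529322929181097061/50000000000000000000000000) (50155202507762714239405431994103217/1000000000000000000000000000000000000) (758791718969708408402470594637169/5000000000000000000000000000000000) (3994138653/10000000000) (by norm_num) (by norm_num) (by norm_num) (by norm_num)
    (by norm_num [Qd]) (by norm_num) (by norm_num [Qv]) (by norm_num [Qd]) (by norm_num [Qe]) (by norm_num) (by norm_num) (by norm_num [Qv]) (by norm_num) (by norm_num)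

theorem Ua39 : PU (6987/8000) (561/25000) (141/125000) (339/5000000) (2211/500000000) (0) (0) (0) (37401/5000000) (377/500000) (17/250000) (37/6250000) (51/100000000) (17/100000000) (77/50) (31/20) (26453768757101/250000000000000) (3620055985567/1000000000000000) :=
  stepU (by norm_num) (by norm_num) (by norm_num) (by norm_num) (by norm_num) (by norm_num) (by norm_num)
    (by norm_num) (by norm_num) (by norm_num) (by norm_num) (by norm_num) (by norm_num) (by norm_num) Ua38
    (1/100) (77/50) (31/20) (26453768757101/250000000000000) (3620055985567/1000000000000000) (3862209303/62500000000) (153171524611678697050689963/50000000000000000000000000) (53269644720968010116850323789909073/1000000000000000000000000000000000000) (798736815582399803905938400643487/5000000000000000000000000000000000) (4183123211/10000000000) (by norm_num) (by norm_num) (by norm_num) (by norm_num)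
    (by norm_num [Qd]) (by norm_num) (by norm_num [Qv]) (by norm_num [Qd]) (by norm_num [Qe]) (by norm_num) (by norm_num) (by norm_num [Qv]) (by norm_num) (by norm_num)

theorem Ua40 : PU (6987/8000) (561/25000) (141/125000) (339/5000000) (2211/500000000) (0) (0) (0) (37401/5000000) (377/500000) (17/250000) (37/6250000) (51/100000000) (17/100000000) (39/25) (157/100) (49684273815769/500000000000000) (934931491263/250000000000000) :=
  stepU (by norm_num) (by norm_num) (by norm_num) (by norm_num) (by norm_num) (by norm_num) (by norm_num)
    (by norm_num) (by norm_num) (by norm_num) (by norm_num) (by norm_num) (by norm_num) (by norm_num) Ua39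
    (1/100) (39/25) (157/100) (49684273815769/500000000000000) (934931491263/250000000000000) (62857353993/1000000000000) (79774980106217371581/25600000000000000000) (9264761550759424623289857/163840000000000000000000000) (688596569593558496982729/4096000000000000000000000) (2190779321/5000000000) (by norm_num) (by norm_num) (by norm_num) (by norm_num)
    (by norm_num [Qd]) (by norm_num) (by norm_num [Qv]) (by norm_num [Qd]) (by norm_num [Qe]) (by norm_num) (by norm_num) (by norm_num [Qv]) (by norm_num) (by norm_num)

theorem Ua41 : PU (6987/8000) (561/25000) (141/125000) (339/5000000) (2211/500000000) (0) (0) (0) (37401/5000000) (377/500000) (17/250000) (37/6250000) (51/100000000) (17/100000000) (79/50) (159/100) (46607245470283/500000000000000) (1929480172271/500000000000000) :=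
  stepU (by norm_num) (by norm_num) (by norm_num) (by norm_num) (by norm_num) (by norm_num) (by norm_num)
    (by norm_num) (by norm_num) (by norm_num) (by norm_num) (by norm_num) (by norm_num) (by norm_num) Ua40
    (1/100) (79/50) (159/100) (46607245470283/500000000000000) (1929480172271/500000000000000) (63932449573/1000000000000) (158481715732953724002819927/50000000000000000000000000) (59996866466533282683848901348835833/1000000000000000000000000000000000000) (884391750722721527238256392645483/5000000000000000000000000000000000) (4590028991/10000000000) (by norm_num) (by norm_num) (by norm_num) (by norm_num)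
    (by norm_num [Qd]) (by norm_num) (by norm_num [Qv]) (by norm_num [Qd]) (by norm_num [Qe]) (by norm_num) (by norm_num) (by norm_num [Qv]) (by norm_num) (by norm_num)

theorem Ua42 : PU (6987/8000) (561/25000) (141/125000) (339/5000000) (2211/500000000) (0) (0) (0) (37401/5000000) (377/500000) (17/250000) (37/6250000) (51/100000000) (17/100000000) (8/5) (161/100) (87346428252581/1000000000000000) (124299228863/31250000000000) :=
  stepU (by norm_num) (by norm_num) (by norm_num) (by norm_num) (by norm_num) (by norm_num) (by norm_num)
    (by norm_num) (by norm_num) (by norm_num) (by norm_num) (by norm_num) (by norm_num) (by norm_num) Ua41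
    (1/100) (8/5) (161/100) (87346428252581/1000000000000000) (124299228863/31250000000000) (520168369/8000000000) (161186156951900821252468029/50000000000000000000000000) (63625530567070771703654023089547137/1000000000000000000000000000000000000) (930296481812729929505414551632201/5000000000000000000000000000000000) (1202290371/2500000000) (by norm_num) (by norm_num) (by norm_num) (by norm_num)
    (by norm_num [Qd]) (by norm_num) (by norm_num [Qv]) (by norm_num [Qd]) (by norm_num [Qe]) (by norm_num) (by norm_num) (by norm_num [Qv]) (by norm_num) (by norm_num)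

theorem Ua43 : PU (6987/8000) (561/25000) (141/125000) (339/5000000) (2211/500000000) (0) (0) (0) (37401/5000000) (377/500000) (17/250000) (37/6250000) (51/100000000) (17/100000000) (81/50) (163/100) (81757584105851/1000000000000000) (2047695366281/500000000000000) :=
  stepU (by norm_num) (by norm_num) (by norm_num) (by norm_num) (by norm_num) (by norm_num) (by norm_num)
    (by norm_num) (by norm_num) (by norm_num) (by norm_num) (by norm_num) (by norm_num) (by norm_num) Ua42
    (1/100) (81/50) (163/100) (81757584105851/1000000000000000) (2047695366281/500000000000000) (33061784133/500000000000) (163924875396476237920107651/50000000000000000000000000) (67442160162459029778494634536919297/1000000000000000000000000000000000000) (978392818484466720623212332190839/5000000000000000000000000000000000) (5039629947/10000000000) (by norm_num) (by norm_num) (by norm_num) (by norm_num)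
    (by norm_num [Qd]) (by norm_num) (by norm_num [Qv]) (by norm_num [Qd]) (by norm_num [Qe]) (by norm_num) (by norm_num) (by norm_num [Qv]) (by norm_num) (by norm_num)

theorem Ua44 : PU (6987/8000) (561/25000) (141/125000) (339/5000000) (2211/500000000) (0) (0) (0) (37401/5000000) (377/500000) (17/250000) (37/6250000) (51/100000000) (17/100000000) (41/25) (33/20) (76440917500259/1000000000000000) (4212230732309/1000000000000000) :=
  stepU (by norm_num) (by norm_num) (by norm_num) (by norm_num) (by norm_num) (by norm_num) (by norm_num)
    (by norm_num) (by norm_num) (by norm_num) (by norm_num) (by norm_num) (by norm_num) (by norm_num) Ua43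
    (1/100) (41/25) (33/20) (76440917500259/1000000000000000) (4212230732309/1000000000000000) (67240455231/1000000000000) (166698950647693105275560553/50000000000000000000000000) (71455746108223518864819502721787513/1000000000000000000000000000000000000) (1028794141381662191604056634179157/5000000000000000000000000000000000) (528215849/1000000000) (by norm_num) (by norm_num) (by norm_num) (by norm_num)
    (by norm_num [Qd]) (by norm_num) (by norm_num [Qv]) (by norm_num [Qd]) (by norm_num [Qe]) (by norm_num) (by norm_num) (by norm_num [Qv]) (by norm_num) (by norm_num)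

theorem Ua45 : PU (6987/8000) (561/25000) (141/125000) (339/5000000) (2211/500000000) (0) (0) (0) (37401/5000000) (377/500000) (17/250000) (37/6250000) (51/100000000) (17/100000000) (83/50) (167/100) (71389154549331/1000000000000000) (2163962241019/500000000000000) :=
  stepU (by norm_num) (by norm_num) (by norm_num) (by norm_num) (by norm_num) (by norm_num) (by norm_num)
    (by norm_num) (by norm_num) (by norm_num) (by norm_num) (by norm_num) (by norm_num) (by norm_num) Ua44
    (1/100) (83/50) (167/100) (71389154549331/1000000000000000) (2163962241019/500000000000000) (68372161443/1000000000000) (86788863764019214083/25600000000000000000) (12398714403861457313067393/163840000000000000000000000) (886063983737787075142647/4096000000000000000000000) (5537525473/10000000000) (by norm_num) (by norm_num) (by norm_num) (by norm_num)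
    (by norm_num [Qd]) (by norm_num) (by norm_num [Qv]) (by norm_num [Qd]) (by norm_num [Qe]) (by norm_num) (by norm_num) (by norm_num [Qv]) (by norm_num) (by norm_num)

theorem Ua46 : PU (6987/8000) (561/25000) (141/125000) (339/5000000) (2211/500000000) (0) (0) (0) (37401/5000000) (377/500000) (17/250000) (37/6250000) (51/100000000) (17/100000000) (42/25) (169/100) (66594820459343/1000000000000000) (4442306770929/1000000000000000) :=
  stepU (by norm_num) (by norm_num) (by norm_num) (by norm_num) (by norm_num) (by norm_num) (by norm_num)
    (by norm_num) (by norm_num) (by norm_num) (by norm_num) (by norm_num) (by norm_num) (by norm_num) Ua45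
    (1/100) (42/25) (169/100) (66594820459343/1000000000000000) (4442306770929/1000000000000000) (695191571/10000000000) (172357677597790449176733717/50000000000000000000000000) (80112119685483083199767621974634193/1000000000000000000000000000000000000) (1137002024810034499715133295211553/5000000000000000000000000000000000) (181455243/312500000) (by norm_num) (by norm_num) (by norm_num) (by norm_num)
    (by norm_num [Qd]) (by norm_num) (by norm_num [Qv]) (by norm_num [Qd]) (by norm_num [Qe]) (by norm_num) (by norm_num) (by norm_num [Qv]) (by norm_num) (by norm_num)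

theorem Ua47 : PU (6987/8000) (561/25000) (141/125000) (339/5000000) (2211/500000000) (0) (0) (0) (37401/5000000) (377/500000) (17/250000) (37/6250000) (51/100000000) (17/100000000) (17/10) (171/100) (15512567684479/250000000000000) (4555218610801/1000000000000000) :=
  stepU (by norm_num) (by norm_num) (by norm_num) (by norm_num) (by norm_num) (by norm_num) (by norm_num)
    (by norm_num) (by norm_num) (by norm_num) (by norm_num) (by norm_num) (by norm_num) (by norm_num) Ua46
    (1/100) (17/10) (171/100) (15512567684479/250000000000000) (4555218610801/1000000000000000) (3534096439/50000000000) (175244680536742584973008219/50000000000000000000000000) (84775350623047429942750114930903857/1000000000000000000000000000000000000) (1195073773606778871170315103445071/5000000000000000000000000000000000) (3045092697/5000000000) (by norm_num) (by norm_num) (by norm_num) (by norm_num)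
    (by norm_num [Qd]) (by norm_num) (by norm_num [Qv]) (by norm_num [Qd]) (by norm_num [Qe]) (by norm_num) (by norm_num) (by norm_num [Qv]) (by norm_num) (by norm_num)

theorem Ua48 : PU (6987/8000) (561/25000) (141/125000) (339/5000000) (2211/500000000) (0) (0) (0) (37401/5000000) (377/500000) (17/250000) (37/6250000) (51/100000000) (17/100000000) (43/25) (173/100) (11549544308243/200000000000000) (186660311469/40000000000000) :=
  stepU (by norm_num) (by norm_num) (by norm_num) (by norm_num) (by norm_num) (by norm_num) (by norm_num)
    (by norm_num) (by norm_num) (by norm_num) (by norm_num) (by norm_num) (by norm_num) (by norm_num) Ua47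
    (1/100) (43/25) (173/100) (11549544308243/200000000000000) (186660311469/40000000000000) (71860980073/1000000000000) (178171745800046070014181441/50000000000000000000000000) (89676491550111090163983051882672777/1000000000000000000000000000000000000) (1255982101779671323830933823764909/5000000000000000000000000000000000) (51114771/80000000) (by norm_num) (by norm_num) (by norm_num) (by norm_num)
    (by norm_num [Qd]) (by norm_num) (by norm_num [Qv]) (by norm_num [Qd]) (by norm_num [Qe]) (by norm_num) (by norm_num) (by norm_num [Qv]) (by norm_num) (by norm_num)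

theorem Ua49 : PU (6987/8000) (561/25000) (141/125000) (339/5000000) (2211/500000000) (0) (0) (0) (37401/5000000) (377/500000) (17/250000) (37/6250000) (51/100000000) (17/100000000) (87/50) (7/4) (26839639538549/500000000000000) (955205872603/200000000000000) :=
  stepU (by norm_num) (by norm_num) (by norm_num) (by norm_num) (by norm_num) (by norm_num) (by norm_num)
    (by norm_num) (by norm_num) (by norm_num) (by norm_num) (by norm_num) (by norm_num) (by norm_num) Ua48
    (1/100) (87/50) (7/4) (26839639538549/500000000000000) (955205872603/200000000000000) (7305683223/100000000000) (181140154162605379362657543/50000000000000000000000000) (94827196366043254972002064054987353/1000000000000000000000000000000000000) (1319882473511493351543629386041627/5000000000000000000000000000000000) (6705092129/10000000000) (by norm_num) (by norm_num) (by norm_num) (by norm_num)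
    (by norm_num [Qd]) (by norm_num) (by norm_num [Qv]) (by norm_num [Qd]) (by norm_num [Qe]) (by norm_num) (by norm_num) (by norm_num [Qv]) (by norm_num) (by norm_num)

theorem Ua50 : PU (6987/8000) (561/25000) (141/125000) (339/5000000) (2211/500000000) (0) (0) (0) (37401/5000000) (377/500000) (17/250000) (37/6250000) (51/100000000) (17/100000000) (44/25) (177/100) (49836967988561/1000000000000000) (4883646142377/1000000000000000) :=
  stepU (by norm_num) (by norm_num) (by norm_num) (by norm_num) (by norm_num) (by norm_num) (by norm_num)
    (by norm_num) (by norm_num) (by norm_num) (by norm_num) (by norm_num) (by norm_num) (by norm_num) Ua49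
    (1/100) (44/25) (177/100) (49836967988561/1000000000000000) (4883646142377/1000000000000000) (37135012419/500000000000) (48274140400437/13107200000000) (2690790606236817/26843545600000000) (930760194747201/3355443200000000) (219954473/312500000) (by norm_num) (by norm_num) (by norm_num) (by norm_num)
    (by norm_num [Qd]) (by norm_num) (by norm_num [Qv]) (by norm_num [Qd]) (by norm_num [Qe]) (by norm_num) (by norm_num) (by norm_num [Qv]) (by norm_num) (by norm_num)

theorem Ua51 : PU (6987/8000) (561/25000) (141/125000) (339/5000000) (2211/500000000) (0) (0) (0) (37401/5000000) (377/500000) (17/250000) (37/6250000) (51/100000000) (17/100000000) (89/50) (179/100) (1848510345993/40000000000000) (4989229076333/1000000000000000) :=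
  stepU (by norm_num) (by norm_num) (by norm_num) (by norm_num) (by norm_num) (by norm_num) (by norm_num)
    (by norm_num) (by norm_num) (by norm_num) (by norm_num) (by norm_num) (by norm_num) (by norm_num) Ua50
    (1/100) (89/50) (179/100) (1848510345993/40000000000000) (4989229076333/1000000000000000) (75501116517/1000000000000) (187206349931770982091949107/50000000000000000000000000) (105927168669198317489513047482505953/1000000000000000000000000000000000000) (1457334077677384876236450810518823/5000000000000000000000000000000000) (3695452533/5000000000) (by norm_num) (by norm_num) (by norm_num) (by norm_num)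
    (by norm_num [Qd]) (by norm_num) (by norm_num [Qv]) (by norm_num [Qd]) (by norm_num [Qe]) (by norm_num) (by norm_num) (by norm_num [Qv]) (by norm_num) (by norm_num)

theorem Ua52 : PU (6987/8000) (561/25000) (141/125000) (339/5000000) (2211/500000000) (0) (0) (0) (37401/5000000) (377/500000) (17/250000) (37/6250000) (51/100000000) (17/100000000) (9/5) (181/100) (42798593315131/1000000000000000) (5092657625423/1000000000000000) :=
  stepU (by norm_num) (by norm_num) (by norm_num) (by norm_num) (by norm_num) (by norm_num) (by norm_num)
    (by norm_num) (by norm_num) (by norm_num) (by norm_num) (by norm_num) (by norm_num) (by norm_num) Ua51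
    (1/100) (9/5) (181/100) (42798593315131/1000000000000000) (5092657625423/1000000000000000) (38375342819/500000000000) (190306930734996358317277209/50000000000000000000000000) (111903132330672097213428409223293977/1000000000000000000000000000000000000) (1531251545567923486736364866369541/5000000000000000000000000000000000) (7763475353/10000000000) (by norm_num) (by norm_num) (by norm_num) (by norm_num)
    (by norm_num [Qd]) (by norm_num) (by norm_num [Qv]) (by norm_num [Qd]) (by norm_num [Qe]) (by norm_num) (by norm_num) (by norm_num [Qv]) (by norm_num) (by norm_num)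

theorem Ua53 : PU (6987/8000) (561/25000) (141/125000) (339/5000000) (2211/500000000) (0) (0) (0) (37401/5000000) (377/500000) (17/250000) (37/6250000) (51/100000000) (17/100000000) (91/50) (183/100) (39586411067373/1000000000000000) (5193820068063/1000000000000000) :=
  stepU (by norm_num) (by norm_num) (by norm_num) (by norm_num) (by norm_num) (by norm_num) (by norm_num)
    (by norm_num) (by norm_num) (by norm_num) (by norm_num) (by norm_num) (by norm_num) (by norm_num) Ua52
    (1/100) (91/50) (183/100) (39586411067373/1000000000000000) (5193820068063/1000000000000000) (78019331077/1000000000000) (193454445037937975008222431/50000000000000000000000000) (118182148792668288564961492025811657/1000000000000000000000000000000000000) (1608895297874851748009081965163379/5000000000000000000000000000000000) (4078825123/5000000000) (by norm_num) (by norm_num) (by norm_num) (by norm_num)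
    (by norm_num [Qd]) (by norm_num) (by norm_num [Qv]) (by norm_num [Qd]) (by norm_num [Qe]) (by norm_num) (by norm_num) (by norm_num [Qv]) (by norm_num) (by norm_num)

theorem Ua54 : PU (6987/8000) (561/25000) (141/125000) (339/5000000) (2211/500000000) (0) (0) (0) (37401/5000000) (377/500000) (17/250000) (37/6250000) (51/100000000) (17/100000000) (46/25) (37/20) (285688840021/7812500000000) (5292613757303/1000000000000000) :=
  stepU (by norm_num) (by norm_num) (by norm_num) (by norm_num) (by norm_num) (by norm_num) (by norm_num)
    (by norm_num) (by norm_num) (by norm_num) (by norm_num) (by norm_num) (by norm_num) (by norm_num) Ua53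
    (1/100) (46/25) (37/20) (285688840021/7812500000000) (5292613757303/1000000000000000) (79307672977/1000000000000) (196650416287472571274836933/50000000000000000000000000) (124779550545827522029276610352004593/1000000000000000000000000000000000000) (1690481424964425128271338431026897/5000000000000000000000000000000000) (8574932367/10000000000) (by norm_num) (by norm_num) (by norm_num) (by norm_num)
    (by norm_num [Qd]) (by norm_num) (by norm_num [Qv]) (by norm_num [Qd]) (by norm_num [Qe]) (by norm_num) (by norm_num) (by norm_num [Qv]) (by norm_num) (by norm_num)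

theorem Ua55 : PU (6987/8000) (561/25000) (141/125000) (339/5000000) (2211/500000000) (0) (0) (0) (37401/5000000) (377/500000) (17/250000) (37/6250000) (51/100000000) (17/100000000) (93/50) (187/100) (16867938626493/500000000000000) (5388945325117/1000000000000000) :=
  stepU (by norm_num) (by norm_num) (by norm_num) (by norm_num) (by norm_num) (by norm_num) (by norm_num)
    (by norm_num) (by norm_num) (by norm_num) (by norm_num) (by norm_num) (by norm_num) (by norm_num) Ua54
    (1/100) (93/50) (187/100) (16867938626493/500000000000000) (5388945325117/1000000000000000) (20154088389/250000000000) (102346968113633699247/25600000000000000000) (21579622667653849718107113/163840000000000000000000000) (1455096665535434497093443/4096000000000000000000000) (901693881/1000000000) (by norm_num) (by norm_num) (by norm_num) (by norm_num)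
    (by norm_num [Qd]) (by norm_num) (by norm_num [Qv]) (by norm_num [Qd]) (by norm_num [Qe]) (by norm_num) (by norm_num) (by norm_num [Qv]) (by norm_num) (by norm_num)

theorem Ua56 : PU (6987/8000) (561/25000) (141/125000) (339/5000000) (2211/500000000) (0) (0) (0) (37401/5000000) (377/500000) (17/250000) (37/6250000) (51/100000000) (17/100000000) (47/25) (189/100) (15540797448753/500000000000000) (274136541711/50000000000000) :=
  stepU (by norm_num) (by norm_num) (by norm_num) (by norm_num) (by norm_num) (by norm_num) (by norm_num)
    (by norm_num) (by norm_num) (by norm_num) (by norm_num) (by norm_num) (by norm_num) (by norm_num) Ua55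
    (1/100) (47/25) (189/100) (15540797448753/500000000000000) (274136541711/50000000000000) (81946037923/1000000000000) (203194096274642540447642097/50000000000000000000000000) (138995372532755235809194214619235113/1000000000000000000000000000000000000) (1866421457887800607567321796563293/5000000000000000000000000000000000) (4742704909/5000000000) (by norm_num) (by norm_num) (by norm_num) (by norm_num)
    (by norm_num [Qd]) (by norm_num) (by norm_num [Qv]) (by norm_num [Qd]) (by norm_num [Qe]) (by norm_num) (by norm_num) (by norm_num [Qv]) (by norm_num) (by norm_num)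

theorem Ua57 : PU (6987/8000) (561/25000) (141/125000) (339/5000000) (2211/500000000) (0) (0) (0) (37401/5000000) (377/500000) (17/250000) (37/6250000) (51/100000000) (17/100000000) (19/10) (191/100) (7149368735083/250000000000000) (222955835111/40000000000000) :=
  stepU (by norm_num) (by norm_num) (by norm_num) (by norm_num) (by norm_num) (by norm_num) (by norm_num)
    (by norm_num) (by norm_num) (by norm_num) (by norm_num) (by norm_num) (by norm_num) (by norm_num) Ua56
    (1/100) (19/10) (191/100) (7149368735083/250000000000000) (222955835111/40000000000000) (41648707469/500000000000) (206545130920798432952418999/50000000000000000000000000) (146649182284857005221059750734989497/1000000000000000000000000000000000000) (1961287359042163723339573894609611/5000000000000000000000000000000000) (623888629/625000000) (by norm_num) (by norm_num) (by norm_num) (by norm_num)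
    (by norm_num [Qd]) (by norm_num) (by norm_num [Qv]) (by norm_num [Qd]) (by norm_num [Qe]) (by norm_num) (by norm_num) (by norm_num [Qv]) (by norm_num) (by norm_num)

theorem Ua58 : PU (6987/8000) (561/25000) (141/125000) (339/5000000) (2211/500000000) (0) (0) (0) (37401/5000000) (377/500000) (17/250000) (37/6250000) (51/100000000) (17/100000000) (48/25) (193/100) (13137885069503/500000000000000) (56623756277/10000000000000) :=
  stepU (by norm_num) (by norm_num) (by norm_num) (by norm_num) (by norm_num) (by norm_num) (by norm_num)
    (by norm_num) (by norm_num) (by norm_num) (by norm_num) (by norm_num) (by norm_num) (by norm_num) Ua57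
    (1/100) (48/25) (193/100) (13137885069503/500000000000000) (56623756277/10000000000000) (84671198087/1000000000000) (209951278594891842291774621/50000000000000000000000000) (154692295738889358387939660540863937/1000000000000000000000000000000000000) (2061122181951569948891343124590249/5000000000000000000000000000000000) (5254689297/5000000000) (by norm_num) (by norm_num) (by norm_num) (by norm_num)
    (by norm_num [Qd]) (by norm_num) (by norm_num [Qv]) (by norm_num [Qd]) (by norm_num [Qe]) (by norm_num) (by norm_num) (by norm_num [Qv]) (by norm_num) (by norm_num)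

theorem Ua59 : PU (6987/8000) (561/25000) (141/125000) (339/5000000) (2211/500000000) (0) (0) (0) (37401/5000000) (377/500000) (17/250000) (37/6250000) (51/100000000) (17/100000000) (97/50) (39/20) (24108852595339/1000000000000000) (359257177039/62500000000000) :=
  stepU (by norm_num) (by norm_num) (by norm_num) (by norm_num) (by norm_num) (by norm_num) (by norm_num)
    (by norm_num) (by norm_num) (by norm_num) (by norm_num) (by norm_num) (by norm_num) (by norm_num) Ua58
    (1/100) (97/50) (39/20) (24108852595339/1000000000000000) (359257177039/62500000000000) (43034063199/500000000000) (213414354555342135654474723/50000000000000000000000000) (163145188788372451277263909663255233/1000000000000000000000000000000000000) (2166229513174767912631255489130967/5000000000000000000000000000000000) (5534529723/5000000000) (by norm_num) (by norm_num) (by norm_num) (by norm_num)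
    (by norm_num [Qd]) (by norm_num) (by norm_num [Qv]) (by norm_num [Qd]) (by norm_num [Qe]) (by norm_num) (by norm_num) (by norm_num [Qv]) (by norm_num) (by norm_num)

theorem Ua60 : PU (6987/8000) (561/25000) (141/125000) (339/5000000) (2211/500000000) (0) (0) (0) (37401/5000000) (377/500000) (17/250000) (37/6250000) (51/100000000) (17/100000000) (49/25) (197/100) (22089229466767/1000000000000000) (1457766941719/250000000000000) :=
  stepU (by norm_num) (by norm_num) (by norm_num) (by norm_num) (by norm_num) (by norm_num) (by norm_num)
    (by norm_num) (by norm_num) (by norm_num) (by norm_num) (by norm_num) (by norm_num) (by norm_num) Ua59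
    (1/100) (49/25) (197/100) (22089229466767/1000000000000000) (1457766941719/250000000000000) (4374448269/50000000000) (111071354405631808149/25600000000000000000) (28185328765294118343542097/163840000000000000000000000) (1865264844295072277920161/4096000000000000000000000) (728974563/625000000) (by norm_num) (by norm_num) (by norm_num) (by norm_num)
    (by norm_num [Qd]) (by norm_num) (by norm_num [Qv]) (by norm_num [Qd]) (by norm_num [Qe]) (by norm_num) (by norm_num) (by norm_num [Qv]) (by norm_num) (by norm_num)

theorem Ua61 : PU (6987/8000) (561/25000) (141/125000) (339/5000000) (2211/500000000) (0) (0) (0) (37401/5000000) (377/500000) (17/250000) (37/6250000) (51/100000000) (17/100000000) (99/50) (199/100) (4041911464527/200000000000000) (5911198132177/1000000000000000) :=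
  stepU (by norm_num) (by norm_num) (by norm_num) (by norm_num) (by norm_num) (by norm_num) (by norm_num)
    (by norm_num) (by norm_num) (by norm_num) (by norm_num) (by norm_num) (by norm_num) (by norm_num) Ua60
    (1/100) (99/50) (199/100) (4041911464527/200000000000000) (5911198132177/1000000000000000) (88934507993/1000000000000) (220518879823990818183468687/50000000000000000000000000) (181368593176306084076649934979525673/1000000000000000000000000000000000000) (2393586116198143206678306226140963/5000000000000000000000000000000000) (2459097631/2000000000) (by norm_num) (by norm_num) (by norm_num) (by norm_num)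
    (by norm_num [Qd]) (by norm_num) (by norm_num [Qv]) (by norm_num [Qd]) (by norm_num [Qe]) (by norm_num) (by norm_num) (by norm_num [Qv]) (by norm_num) (by norm_num)

theorem Ua62 : PU (6987/8000) (561/25000) (141/125000) (339/5000000) (2211/500000000) (0) (0) (0) (37401/5000000) (377/500000) (17/250000) (37/6250000) (51/100000000) (17/100000000) (2) (201/100) (1846265515573/100000000000000) (2994239457/500000000000) :=
  stepU (by norm_num) (by norm_num) (by norm_num) (by norm_num) (by norm_num) (by norm_num) (by norm_num)
    (by norm_num) (by norm_num) (by norm_num) (by norm_num) (by norm_num) (by norm_num) (by norm_num) Ua61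
    (1/100) (2) (201/100) (1846265515573/100000000000000) (2994239457/500000000000) (45202787827/500000000000) (224164294353481996420937589/50000000000000000000000000) (191186709012690299123065702134342417/1000000000000000000000000000000000000) (2516557683372034748862074629969281/5000000000000000000000000000000000) (2026163/1562500) (by norm_num) (by norm_num) (by norm_num) (by norm_num)
    (by norm_num [Qd]) (by norm_num) (by norm_num [Qv]) (by norm_num [Qd]) (by norm_num [Qe]) (by norm_num) (by norm_num) (by norm_num [Qv]) (by norm_num) (by norm_num)

theorem Ua63 : PU (6987/8000) (561/25000) (141/125000) (339/5000000) (2211/500000000) (0) (0) (0) (37401/5000000) (377/500000) (17/250000) (37/6250000) (51/100000000) (17/100000000) (101/50) (203/100) (6578717213/390625000000) (3031446097411/500000000000000) :=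
  stepU (by norm_num) (by norm_num) (by norm_num) (by norm_num) (by norm_num) (by norm_num) (by norm_num)
    (by norm_num) (by norm_num) (by norm_num) (by norm_num) (by norm_num) (by norm_num) (by norm_num) Ua62
    (1/100) (101/50) (203/100) (6578717213/390625000000) (3031446097411/500000000000000) (11487877409/125000000000) (227874572629968774531022011/50000000000000000000000000) (201510014366213530686079563590437617/1000000000000000000000000000000000000) (2646250009557931745500403378649519/5000000000000000000000000000000000) (6841179863/5000000000) (by norm_num) (by norm_num) (by norm_num) (by norm_num)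
    (by norm_num [Qd]) (by norm_num) (by norm_num [Qv]) (by norm_num [Qd]) (by norm_num [Qe]) (by norm_num) (by norm_num) (by norm_num [Qv]) (by norm_num) (by norm_num)

theorem Ua64 : PU (6987/8000) (561/25000) (141/125000) (339/5000000) (2211/500000000) (0) (0) (0) (37401/5000000) (377/500000) (17/250000) (37/6250000) (51/100000000) (17/100000000) (51/25) (41/20) (15339317632867/1000000000000000) (245377157069/40000000000000) :=
  stepU (by norm_num) (by norm_num) (by norm_num) (by norm_num) (by norm_num) (by norm_num) (by norm_num)
    (by norm_num) (by norm_num) (by norm_num) (by norm_num) (by norm_num) (by norm_num) (by norm_num) Ua63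
    (1/100) (51/25) (41/20) (15339317632867/1000000000000000) (245377157069/40000000000000) (93427720317/1000000000000) (231651879674739332215466913/50000000000000000000000000) (212366241656041193051260792791075273/1000000000000000000000000000000000000) (2783092800370776184428957021549837/5000000000000000000000000000000000) (14443357333/10000000000) (by norm_num) (by norm_num) (by norm_num) (by norm_num)
    (by norm_num [Qd]) (by norm_num) (by norm_num [Qv]) (by norm_num [Qd]) (by norm_num [Qe]) (by norm_num) (by norm_num) (by norm_num [Qv]) (by norm_num) (by norm_num)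

theorem Ua65 : PU (6987/8000) (561/25000) (141/125000) (339/5000000) (2211/500000000) (0) (0) (0) (37401/5000000) (377/500000) (17/250000) (37/6250000) (51/100000000) (17/100000000) (103/50) (207/100) (2789886203539/200000000000000) (3101544333009/500000000000000) :=
  stepU (by norm_num) (by norm_num) (by norm_num) (by norm_num) (by norm_num) (by norm_num) (by norm_num)
    (by norm_num) (by norm_num) (by norm_num) (by norm_num) (by norm_num) (by norm_num) (by norm_num) Ua64
    (1/100) (103/50) (207/100) (2789886203539/200000000000000) (3101544333009/500000000000000) (3799223677/40000000000) (120575210638950135771/25600000000000000000) (36664918634732769318409137/163840000000000000000000000) (2398246472894900160667599/4096000000000000000000000) (1906723671/1250000000) (by norm_num) (by norm_num) (by norm_num) (by norm_num)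
    (by norm_num [Qd]) (by norm_num) (by norm_num [Qv]) (by norm_num [Qd]) (by norm_num [Qe]) (by norm_num) (by norm_num) (by norm_num [Qv]) (by norm_num) (by norm_num)

theorem Ua66 : PU (6987/8000) (561/25000) (141/125000) (339/5000000) (2211/500000000) (0) (0) (0) (37401/5000000) (377/500000) (17/250000) (37/6250000) (51/100000000) (17/100000000) (52/25) (209/100) (3166357200579/250000000000000) (250755170909/40000000000000) :=
  stepU (by norm_num) (by norm_num) (by norm_num) (by norm_num) (by norm_num) (by norm_num) (by norm_num)
    (by norm_num) (by norm_num) (by norm_num) (by norm_num) (by norm_num) (by norm_num) (by norm_num) Ua65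
    (1/100) (52/25) (209/100) (3166357200579/250000000000000) (250755170909/40000000000000) (48281290019/500000000000) (239416631808788620511564877/50000000000000000000000000) (235797423528711926395982101262001633/1000000000000000000000000000000000000) (3080106949025364555760397022847833/5000000000000000000000000000000000) (2014657461/1250000000) (by norm_num) (by norm_num) (by norm_num) (by norm_num)
    (by norm_num [Qd]) (by norm_num) (by norm_num [Qv]) (by norm_num [Qd]) (by norm_num [Qe]) (by norm_num) (by norm_num) (by norm_num [Qv]) (by norm_num) (by norm_num)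

theorem Ua67 : PU (6987/8000) (561/25000) (141/125000) (339/5000000) (2211/500000000) (0) (0) (0) (37401/5000000) (377/500000) (17/250000) (37/6250000) (51/100000000) (17/100000000) (21/10) (211/100) (11481091624201/1000000000000000) (197869268061/31250000000000) :=
  stepU (by norm_num) (by norm_num) (by norm_num) (by norm_num) (by norm_num) (by norm_num) (by norm_num)
    (by norm_num) (by norm_num) (by norm_num) (by norm_num) (by norm_num) (by norm_num) (by norm_num) Ua66
    (1/100) (21/10) (211/100) (11481091624201/1000000000000000) (197869268061/31250000000000) (98174664579/1000000000000) (243408807096256842692696979/50000000000000000000000000) (248437272736401816855637618101784737/1000000000000000000000000000000000000) (3241303250133325106730407257852551/5000000000000000000000000000000000) (8518820257/5000000000) (by norm_num) (by norm_num) (by norm_num) (by norm_num)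
    (by norm_num [Qd]) (by norm_num) (by norm_num [Qv]) (by norm_num [Qd]) (by norm_num [Qe]) (by norm_num) (by norm_num) (by norm_num [Qv]) (by norm_num) (by norm_num)

theorem Ua68 : PU (6987/8000) (561/25000) (141/125000) (339/5000000) (2211/500000000) (0) (0) (0) (37401/5000000) (377/500000) (17/250000) (37/6250000) (51/100000000) (17/100000000) (53/25) (213/100) (2597603408091/250000000000000) (6391924022257/1000000000000000) :=
  stepU (by norm_num) (by norm_num) (by norm_num) (by norm_num) (by norm_num) (by norm_num) (by norm_num)
    (by norm_num) (by norm_num) (by norm_num) (by norm_num) (by norm_num) (by norm_num) (by norm_num) Ua67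
    (1/100) (53/25) (213/100) (2597603408091/250000000000000) (6391924022257/1000000000000000) (12477232583/125000000000) (247477477426615301580788601/50000000000000000000000000) (261740121736209259097703616453220697/1000000000000000000000000000000000000) (3411705092075095185358180428345189/5000000000000000000000000000000000) (3603818289/2000000000) (by norm_num) (by norm_num) (by norm_num) (by norm_num)
    (by norm_num [Qd]) (by norm_num) (by norm_num [Qv]) (by norm_num [Qd]) (by norm_num [Qe]) (by norm_num) (by norm_num) (by norm_num [Qv]) (by norm_num) (by norm_num)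

theorem Ua69 : PU (6987/8000) (561/25000) (141/125000) (339/5000000) (2211/500000000) (0) (0) (0) (37401/5000000) (377/500000) (17/250000) (37/6250000) (51/100000000) (17/100000000) (107/50) (43/20) (37550427247/4000000000000) (6449232268251/1000000000000000) :=
  stepU (by norm_num) (by norm_num) (by norm_num) (by norm_num) (by norm_num) (by norm_num) (by norm_num)
    (by norm_num) (by norm_num) (by norm_num) (by norm_num) (by norm_num) (by norm_num) (by norm_num) Ua68
    (1/100) (107/50) (43/20) (37550427247/4000000000000) (6449232268251/1000000000000000) (101493219853/1000000000000) (251625225616113867495229503/50000000000000000000000000) (275743999981653464423014260073720713/1000000000000000000000000000000000000) (3591923304018564660751748786679507/5000000000000000000000000000000000) (19066079683/10000000000) (by norm_num) (by norm_num) (by norm_num) (by norm_num)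
    (by norm_num [Qd]) (by norm_num) (by norm_num [Qv]) (by norm_num [Qd]) (by norm_num [Qe]) (by norm_num) (by norm_num) (by norm_num [Qv]) (by norm_num) (by norm_num)

theorem Ua70 : PU (6987/8000) (561/25000) (141/125000) (339/5000000) (2211/500000000) (0) (0) (0) (37401/5000000) (377/500000) (17/250000) (37/6250000) (51/100000000) (17/100000000) (54/25) (217/100) (2116776055301/250000000000000) (3251889395363/500000000000000) :=
  stepU (by norm_num) (by norm_num) (by norm_num) (by norm_num) (by norm_num) (by norm_num) (by norm_num)
    (by norm_num) (by norm_num) (by norm_num) (by norm_num) (by norm_num) (by norm_num) (by norm_num) Ua69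
    (1/100) (54/25) (217/100) (2116776055301/250000000000000) (3251889395363/500000000000000) (1290022893/12500000000) (130997620320073095873/25600000000000000000) (47593794526307310387873033/163840000000000000000000000) (3098716894125384707580717/4096000000000000000000000) (10091700783/5000000000) (by norm_num) (by norm_num) (by norm_num) (by norm_num)
    (by norm_num [Qd]) (by norm_num) (by norm_num [Qv]) (by norm_num [Qd]) (by norm_num [Qe]) (by norm_num) (by norm_num) (by norm_num [Qv]) (by norm_num) (by norm_num)

theorem Ua71 : PU (6987/8000) (561/25000) (141/125000) (339/5000000) (2211/500000000) (0) (0) (0) (37401/5000000) (377/500000) (17/250000) (37/6250000) (51/100000000) (17/100000000) (109/50) (219/100) (7623562193547/1000000000000000) (163890186191/25000000000000) :=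
  stepU (by norm_num) (by norm_num) (by norm_num) (by norm_num) (by norm_num) (by norm_num) (by norm_num)
    (by norm_num) (by norm_num) (by norm_num) (by norm_num) (by norm_num) (by norm_num) (by norm_num) Ua70
    (1/100) (109/50) (219/100) (7623562193547/1000000000000000) (163890186191/25000000000000) (13118102973/125000000000) (260168753644997742788546667/50000000000000000000000000) (306019805347867155747691276645206993/1000000000000000000000000000000000000) (3984478851533877671417524937079903/5000000000000000000000000000000000) (33400321/15625000) (by norm_num) (by norm_num) (by norm_num) (by norm_num)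
    (by norm_num [Qd]) (by norm_num) (by norm_num [Qv]) (by norm_num [Qd]) (by norm_num [Qe]) (by norm_num) (by norm_num) (by norm_num [Qv]) (by norm_num) (by norm_num)

theorem Ua72 : PU (6987/8000) (561/25000) (141/125000) (339/5000000) (2211/500000000) (0) (0) (0) (37401/5000000) (377/500000) (17/250000) (37/6250000) (51/100000000) (17/100000000) (11/5) (221/100) (3425930774323/500000000000000) (6604768035293/1000000000000000) :=
  stepU (by norm_num) (by norm_num) (by norm_num) (by norm_num) (by norm_num) (by norm_num) (by norm_num)
    (by norm_num) (by norm_num) (by norm_num) (by norm_num) (by norm_num) (by norm_num) (by norm_num) Ua71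
    (1/100) (11/5) (221/100) (3425930774323/500000000000000) (6604768035293/1000000000000000) (1334042071/12500000000) (264570175848491675036921169/50000000000000000000000000) (322381204022002508246203845761828457/1000000000000000000000000000000000000) (4198274646843536909444576583263421/5000000000000000000000000000000000) (22650015983/10000000000) (by norm_num) (by norm_num) (by norm_num) (by norm_num)
    (by norm_num [Qd]) (by norm_num) (by norm_num [Qv]) (by norm_num [Qd]) (by norm_num [Qe]) (by norm_num) (by norm_num) (by norm_num [Qv]) (by norm_num) (by norm_num)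

theorem Ua73 : PU (6987/8000) (561/25000) (141/125000) (339/5000000) (2211/500000000) (0) (0) (0) (37401/5000000) (377/500000) (17/250000) (37/6250000) (51/100000000) (17/100000000) (111/50) (56/25) (5818367974479/1000000000000000) (6651315831029/1000000000000000) :=
  stepU (by norm_num) (by norm_num) (by norm_num) (by norm_num) (by norm_num) (by norm_num) (by norm_num)
    (by norm_num) (by norm_num) (by norm_num) (by norm_num) (by norm_num) (by norm_num) (by norm_num) Ua72
    (1/100) (111/50) (56/25) (5818367974479/1000000000000000) (6651315831029/1000000000000000) (32700113831/200000000000) (269061967494439261276538391/50000000000000000000000000) (339622987321594511454755307171981177/1000000000000000000000000000000000000) (4424811016294492390144784795081259/5000000000000000000000000000000000) (24010760039/10000000000) (by norm_num) (by norm_num) (by norm_num) (by norm_num)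
    (by norm_num [Qd]) (by norm_num) (by norm_num [Qv]) (by norm_num [Qd]) (by norm_num [Qe]) (by norm_num) (by norm_num) (by norm_num [Qv]) (by norm_num) (by norm_num)

theorem Ua74 : PU (6987/8000) (561/25000) (141/125000) (339/5000000) (2211/500000000) (0) (0) (0) (37401/5000000) (377/500000) (17/250000) (37/6250000) (51/100000000) (17/100000000) (113/50) (57/25) (2324007903591/500000000000000) (6736849423197/1000000000000000) :=
  stepU (by norm_num) (by norm_num) (by norm_num) (by norm_num) (by norm_num) (by norm_num) (by norm_num)
    (by norm_num) (by norm_num) (by norm_num) (by norm_num) (by norm_num) (by norm_num) (by norm_num) Ua73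
    (1/50) (113/50) (57/25) (2324007903591/500000000000000) (6736849423197/1000000000000000) (224579389961/1000000000000) (32898886851478002033/5960464477539062500) (5344228719440696134308672/14551915228366851806640625) (557678689927431235107168/582076609134674072265625) (27018933137/10000000000) (by norm_num) (by norm_num) (by norm_num) (by norm_num)
    (by norm_num [Qd]) (by norm_num) (by norm_num [Qv]) (by norm_num [Qd]) (by norm_num [Qe]) (by norm_num) (by norm_num) (by norm_num [Qv]) (by norm_num) (by norm_num)

theorem Ua75 : PU (6987/8000) (561/25000) (141/125000) (339/5000000) (2211/500000000) (0) (0) (0) (37401/5000000) (377/500000) (17/250000) (37/6250000) (51/100000000) (17/100000000) (23/10) (58/25) (3684161947219/1000000000000000) (1362541942751/200000000000000) :=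
  stepU (by norm_num) (by norm_num) (by norm_num) (by norm_num) (by norm_num) (by norm_num) (by norm_num)
    (by norm_num) (by norm_num) (by norm_num) (by norm_num) (by norm_num) (by norm_num) (by norm_num) Ua74
    (1/50) (23/10) (58/25) (3684161947219/1000000000000000) (1362541942751/200000000000000) (232397349289/1000000000000) (1089250071661061437527/190734863281250000000) (47462069553509763339411519/116415321826934814453125000) (79440476109047642277462033/74505805969238281250000000) (3807158483/1250000000) (by norm_num) (by norm_num) (by norm_num) (by norm_num)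
    (by norm_num [Qd]) (by norm_num) (by norm_num [Qv]) (by norm_num [Qd]) (by norm_num [Qe]) (by norm_num) (by norm_num) (by norm_num [Qv]) (by norm_num) (by norm_num)

theorem Ua76 : PU (6987/8000) (561/25000) (141/125000) (339/5000000) (2211/500000000) (0) (0) (0) (37401/5000000) (377/500000) (17/250000) (37/6250000) (51/100000000) (17/100000000) (117/50) (59/25) (1448216055359/500000000000000) (6879488130753/1000000000000000) :=
  stepU (by norm_num) (by norm_num) (by norm_num) (by norm_num) (by norm_num) (by norm_num) (by norm_num)
    (by norm_num) (by norm_num) (by norm_num) (by norm_num) (by norm_num) (by norm_num) (by norm_num) Ua75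
    (1/50) (117/50) (59/25) (1448216055359/500000000000000) (6879488130753/1000000000000000) (60140852911/250000000000) (140917534695136963851/23841857910156250000) (26352620308476445873162437/58207660913467407226562500) (1383181071991204338350973/1164153218269348144531250) (8597670117/2500000000) (by norm_num) (by norm_num) (by norm_num) (by norm_num)
    (by norm_num [Qd]) (by norm_num) (by norm_num [Qv]) (by norm_num [Qd]) (by norm_num [Qe]) (by norm_num) (by norm_num) (by norm_num [Qv]) (by norm_num) (by norm_num)

theorem Ua77 : PU (6987/8000) (561/25000) (141/125000) (339/5000000) (2211/500000000) (0) (0) (0) (37401/5000000) (377/500000) (17/250000) (37/6250000) (51/100000000) (17/100000000) (119/50) (12/5) (451554075861/200000000000000) (108403416091/15625000000000) :=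
  stepU (by norm_num) (by norm_num) (by norm_num) (by norm_num) (by norm_num) (by norm_num) (by norm_num)
    (by norm_num) (by norm_num) (by norm_num) (by norm_num) (by norm_num) (by norm_num) (by norm_num) Ua76
    (1/50) (119/50) (12/5) (451554075861/200000000000000) (108403416091/15625000000000) (249101913909/1000000000000) (1167147043256360932629/190734863281250000000) (234207775269763915293548289/465661287307739257812500000) (98779872587936426082505251/74505805969238281250000000) (19446802917/5000000000) (by norm_num) (by norm_num) (by norm_num) (by norm_num)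
    (by norm_num [Qd]) (by norm_num) (by norm_num [Qv]) (by norm_num [Qd]) (by norm_num [Qe]) (by norm_num) (by norm_num) (by norm_num [Qv]) (by norm_num) (by norm_num)

theorem Ua78 : PU (6987/8000) (561/25000) (141/125000) (339/5000000) (2211/500000000) (0) (0) (0) (37401/5000000) (377/500000) (17/250000) (37/6250000) (51/100000000) (17/100000000) (121/50) (61/25) (218034339369/125000000000000) (3494181619227/500000000000000) :=
  stepU (by norm_num) (by norm_num) (by norm_num) (by norm_num) (by norm_num) (by norm_num) (by norm_num)
    (by norm_num) (by norm_num) (by norm_num) (by norm_num) (by norm_num) (by norm_num) (by norm_num) Ua77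
    (1/50) (121/50) (61/25) (218034339369/125000000000000) (3494181619227/500000000000000) (258038947427/1000000000000) (38681296214517/6103515625000) (1332852468483348/2384185791015625) (706426816617756/476837158203125) (44051282191/10000000000) (by norm_num) (by norm_num) (by norm_num) (by norm_num)
    (by norm_num [Qd]) (by norm_num) (by norm_num [Qv]) (by norm_num [Qd]) (by norm_num [Qe]) (by norm_num) (by norm_num) (by norm_num [Qv]) (by norm_num) (by norm_num)

theorem Ua79 : PU (6987/8000) (561/25000) (141/125000) (339/5000000) (2211/500000000) (0) (0) (0) (37401/5000000) (377/500000) (17/250000) (37/6250000) (51/100000000) (17/100000000) (123/50) (62/25) (1335006780589/1000000000000000) (1757949603523/250000000000000) :=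
  stepU (by norm_num) (by norm_num) (by norm_num) (by norm_num) (by norm_num) (by norm_num) (by norm_num)
    (by norm_num) (by norm_num) (by norm_num) (by norm_num) (by norm_num) (by norm_num) (by norm_num) Ua78
    (1/50) (123/50) (62/25) (1335006780589/1000000000000000) (1757949603523/250000000000000) (66850619387/250000000000) (1252399451380991923251/190734863281250000000) (289525482755686610415541359/465661287307739257812500000) (123516823999965257598418389/74505805969238281250000000) (12490297397/2500000000) (by norm_num) (by norm_num) (by norm_num) (by norm_num)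
    (by norm_num [Qd]) (by norm_num) (by norm_num [Qv]) (by norm_num [Qd]) (by norm_num [Qe]) (by norm_num) (by norm_num) (by norm_num [Qv]) (by norm_num) (by norm_num)

theorem Ua80 : PU (6987/8000) (561/25000) (141/125000) (339/5000000) (2211/500000000) (0) (0) (0) (37401/5000000) (377/500000) (17/250000) (37/6250000) (51/100000000) (17/100000000) (5/2) (63/25) (505891398517/500000000000000) (7068802459209/1000000000000000) :=
  stepU (by norm_num) (by norm_num) (by norm_num) (by norm_num) (by norm_num) (by norm_num) (by norm_num)
    (by norm_num) (by norm_num) (by norm_num) (by norm_num) (by norm_num) (by norm_num) (by norm_num) Ua79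
    (1/50) (5/2) (63/25) (505891398517/500000000000000) (7068802459209/1000000000000000) (277222470139/1000000000000) (162263986584574054809/23841857910156250000) (40278494614111051081680117/58207660913467407226562500) (2162767631808260007200487/1164153218269348144531250) (11346931581/2000000000) (by norm_num) (by norm_num) (by norm_num) (by norm_num)
    (by norm_num [Qd]) (by norm_num) (by norm_num [Qv]) (by norm_num [Qd]) (by norm_num [Qe]) (by norm_num) (by norm_num) (by norm_num [Qv]) (by norm_num) (by norm_num)

theorem Ua81 : PU (6987/8000) (561/25000) (141/125000) (339/5000000) (2211/500000000) (0) (0) (0) (37401/5000000) (377/500000) (17/250000) (37/6250000) (51/100000000) (17/100000000) (127/50) (64/25) (94868968197/125000000000000) (7100044185169/1000000000000000) :=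
  stepU (by norm_num) (by norm_num) (by norm_num) (by norm_num) (by norm_num) (by norm_num) (by norm_num)
    (by norm_num) (by norm_num) (by norm_num) (by norm_num) (by norm_num) (by norm_num) (by norm_num) Ua80
    (1/50) (127/50) (64/25) (94868968197/125000000000000) (7100044185169/1000000000000000) (287531025397/1000000000000) (1346075698299411015153/190734863281250000000) (179451147069586358059467843/232830643653869628906250000) (155337658701208029824607207/74505805969238281250000000) (64498661569/10000000000) (by norm_num) (by norm_num) (by norm_num) (by norm_num)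
    (by norm_num [Qd]) (by norm_num) (by norm_num [Qv]) (by norm_num [Qd]) (by norm_num [Qe]) (by norm_num) (by norm_num) (by norm_num [Qv]) (by norm_num) (by norm_num)

theorem Ua82 : PU (6987/8000) (561/25000) (141/125000) (339/5000000) (2211/500000000) (0) (0) (0) (37401/5000000) (377/500000) (17/250000) (37/6250000) (51/100000000) (17/100000000) (129/50) (13/5) (281583359933/500000000000000) (3563086482731/500000000000000) :=
  stepU (by norm_num) (by norm_num) (by norm_num) (by norm_num) (by norm_num) (by norm_num) (by norm_num)
    (by norm_num) (by norm_num) (by norm_num) (by norm_num) (by norm_num) (by norm_num) (by norm_num) Ua81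
    (1/50) (129/50) (13/5) (281583359933/500000000000000) (3563086482731/500000000000000) (298362519293/1000000000000) (10909759720821698958/1490116119384765625) (12502801165319462655885312/14551915228366851806640625) (1363858095619621632294912/582076609134674072265625) (36698909771/5000000000) (by norm_num) (by norm_num) (by norm_num) (by norm_num)
    (by norm_num [Qd]) (by norm_num) (by norm_num [Qv]) (by norm_num [Qd]) (by norm_num [Qe]) (by norm_num) (by norm_num) (by norm_num [Qv]) (by norm_num) (by norm_num)

theorem Ua83 : PU (6987/8000) (561/25000) (141/125000) (339/5000000) (2211/500000000) (0) (0) (0) (37401/5000000) (377/500000) (17/250000) (37/6250000) (51/100000000) (17/100000000) (131/50) (66/25) (413154659223/1000000000000000) (3573905134701/500000000000000) :=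
  stepU (by norm_num) (by norm_num) (by norm_num) (by norm_num) (by norm_num) (by norm_num) (by norm_num)
    (by norm_num) (by norm_num) (by norm_num) (by norm_num) (by norm_num) (by norm_num) (by norm_num) Ua82
    (1/50) (131/50) (66/25) (413154659223/1000000000000000) (3573905134701/500000000000000) (19359609561/62500000000) (742093879327203/97656250000000) (36569928438398043/38146972656250000) (160943480763911157/61035156250000000) (41798310351/5000000000) (by norm_num) (by norm_num) (by norm_num) (by norm_num)
    (by norm_num [Qd]) (by norm_num) (by norm_num [Qv]) (by norm_num [Qd]) (by norm_num [Qe]) (by norm_num) (by norm_num) (by norm_num [Qv]) (by norm_num) (by norm_num)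

theorem Ua84 : PU (6987/8000) (561/25000) (141/125000) (339/5000000) (2211/500000000) (0) (0) (0) (37401/5000000) (377/500000) (17/250000) (37/6250000) (51/100000000) (17/100000000) (133/50) (67/25) (14974453809/50000000000000) (3582771360559/500000000000000) :=
  stepU (by norm_num) (by norm_num) (by norm_num) (by norm_num) (by norm_num) (by norm_num) (by norm_num)
    (by norm_num) (by norm_num) (by norm_num) (by norm_num) (by norm_num) (by norm_num) (by norm_num) Ua83
    (1/50) (133/50) (67/25) (14974453809/50000000000000) (3582771360559/500000000000000) (80436027627/250000000000) (188139475080104091687/23841857910156250000) (62321883857104753712889333/58207660913467407226562500) (3459318449826205050862041/1164153218269348144531250) (95281896371/10000000000) (by norm_num) (by norm_num) (by norm_num) (by norm_num)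
    (by norm_num [Qd]) (by norm_num) (by norm_num [Qv]) (by norm_num [Qd]) (by norm_num [Qe]) (by norm_num) (by norm_num) (by norm_num [Qv]) (by norm_num) (by norm_num)

theorem Ua85 : PU (6987/8000) (561/25000) (141/125000) (339/5000000) (2211/500000000) (0) (0) (0) (37401/5000000) (377/500000) (17/250000) (37/6250000) (51/100000000) (17/100000000) (27/10) (68/25) (214369741323/1000000000000000) (7179916686667/1000000000000000) :=
  stepU (by norm_num) (by norm_num) (by norm_num) (by norm_num) (by norm_num) (by norm_num) (by norm_num)
    (by norm_num) (by norm_num) (by norm_num) (by norm_num) (by norm_num) (by norm_num) (by norm_num) Ua84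
    (1/50) (27/10) (68/25) (214369741323/1000000000000000) (7179916686667/1000000000000000) (334375725277/1000000000000) (1563784538956253290317/190734863281250000000) (557398700443198462408337871/465661287307739257812500000) (249813664024653935749458603/74505805969238281250000000) (108665563479/10000000000) (by norm_num) (by norm_num) (by norm_num) (by norm_num)
    (by norm_num [Qd]) (by norm_num) (by norm_num [Qv]) (by norm_num [Qd]) (by norm_num [Qe]) (by norm_num) (by norm_num) (by norm_num [Qv]) (by norm_num) (by norm_num)

theorem Ua86 : PU (6987/8000) (561/25000) (141/125000) (339/5000000) (2211/500000000) (0) (0) (0) (37401/5000000) (377/500000) (17/250000) (37/6250000) (51/100000000) (17/100000000) (137/50) (69/25) (37853156097/250000000000000) (224732323587/31250000000000) :=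
  stepU (by norm_num) (by norm_num) (by norm_num) (by norm_num) (by norm_num) (by norm_num) (by norm_num)
    (by norm_num) (by norm_num) (by norm_num) (by norm_num) (by norm_num) (by norm_num) (by norm_num) Ua85
    (1/50) (137/50) (69/25) (37853156097/250000000000000) (224732323587/31250000000000) (86923413867/250000000000) (101601003798448245303/11920928955078125000) (19494198108922290513833268/14551915228366851806640625) (2204863817770623525197364/582076609134674072265625) (61993831847/5000000000) (by norm_num) (by norm_num) (by norm_num) (by norm_num)
    (by norm_num [Qd]) (by norm_num) (by norm_num [Qv]) (by norm_num [Qd]) (by norm_num [Qe]) (by norm_num) (by norm_num) (by norm_num [Qv]) (by norm_num) (by norm_num)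

theorem Ua87 : PU (6987/8000) (561/25000) (141/125000) (339/5000000) (2211/500000000) (0) (0) (0) (37401/5000000) (377/500000) (17/250000) (37/6250000) (51/100000000) (17/100000000) (139/50) (281/100) (19222897453/200000000000000) (3600275622183/500000000000000) :=
  stepU (by norm_num) (by norm_num) (by norm_num) (by norm_num) (by norm_num) (by norm_num) (by norm_num)
    (by norm_num) (by norm_num) (by norm_num) (by norm_num) (by norm_num) (by norm_num) (by norm_num) Ua86
    (1/50) (139/50) (281/100) (19222897453/200000000000000) (3600275622183/500000000000000) (454469199787/1000000000000) (1690832483597209779819/190734863281250000000) (698890569417194915560596129/465661287307739257812500000) (319201183508661611563734621/74505805969238281250000000) (141519725837/10000000000) (by norm_num) (by norm_num) (by norm_num) (by norm_num)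
    (by norm_num [Qd]) (by norm_num) (by norm_num [Qv]) (by norm_num [Qd]) (by norm_num [Qe]) (by norm_num) (by norm_num) (by norm_num [Qv]) (by norm_num) (by norm_num)

theorem Ua88 : PU (6987/8000) (561/25000) (141/125000) (339/5000000) (2211/500000000) (0) (0) (0) (37401/5000000) (377/500000) (17/250000) (37/6250000) (51/100000000) (17/100000000) (71/25) (287/100) (27000473337/500000000000000) (7210625794699/1000000000000000) :=
  stepU (by norm_num) (by norm_num) (by norm_num) (by norm_num) (by norm_num) (by norm_num) (by norm_num)
    (by norm_num) (by norm_num) (by norm_num) (by norm_num) (by norm_num) (by norm_num) (by norm_num) Ua87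
    (3/100) (71/25) (287/100) (27000473337/500000000000000) (7210625794699/1000000000000000) (576541021301/1000000000000) (465954728405794052307308331/50000000000000000000000000) (1732577832737657146537219877065157457/1000000000000000000000000000000000000) (25022424809634692228162989174370079/5000000000000000000000000000000000) (86321548933/5000000000) (by norm_num) (by norm_num) (by norm_num) (by norm_num)
    (by norm_num [Qd]) (by norm_num) (by norm_num [Qv]) (by norm_num [Qd]) (by norm_num [Qe]) (by norm_num) (by norm_num) (by norm_num [Qv]) (by norm_num) (by norm_num)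

theorem Ua89 : PU (6987/8000) (561/25000) (141/125000) (339/5000000) (2211/500000000) (0) (0) (0) (37401/5000000) (377/500000) (17/250000) (37/6250000) (51/100000000) (17/100000000) (29/10) (293/100) (7310939711/250000000000000) (721737524193/100000000000000) :=
  stepU (by norm_num) (by norm_num) (by norm_num) (by norm_num) (by norm_num) (by norm_num) (by norm_num)
    (by norm_num) (by norm_num) (by norm_num) (by norm_num) (by norm_num) (by norm_num) (by norm_num) Ua88
    (3/100) (29/10) (293/100) (7310939711/250000000000000) (721737524193/100000000000000) (153334799063/250000000000) (495354574253633198216759997/50000000000000000000000000) (2062942873217619677524045694320963713/1000000000000000000000000000000000000) (30210293970805774587706022360673993/5000000000000000000000000000000000) (52661004969/2500000000) (by norm_num) (by norm_num) (by norm_num) (by norm_num)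
    (by norm_num [Qd]) (by norm_num) (by norm_num [Qv]) (by norm_num [Qd]) (by norm_num [Qe]) (by norm_num) (by norm_num) (by norm_num [Qv]) (by norm_num) (by norm_num)

theorem Ua90 : PU (6987/8000) (561/25000) (141/125000) (339/5000000) (2211/500000000) (0) (0) (0) (37401/5000000) (377/500000) (17/250000) (37/6250000) (51/100000000) (17/100000000) (74/25) (149/50) (1063450533/62500000000000) (7221745368247/1000000000000000) :=
  stepU (by norm_num) (by norm_num) (by norm_num) (by norm_num) (by norm_num) (by norm_num) (by norm_num)
    (by norm_num) (by norm_num) (by norm_num) (by norm_num) (by norm_num) (by norm_num) (by norm_num) Ua89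
    (3/100) (74/25) (149/50) (1063450533/62500000000000) (7221745368247/1000000000000000) (270780152741/500000000000) (527328364148945448404584623/50000000000000000000000000) (2462186437273139864747328123000918633/1000000000000000000000000000000000000) (36539987710453044221874771680825667/5000000000000000000000000000000000) (64240724351/2500000000) (by norm_num) (by norm_num) (by norm_num) (by norm_num)
    (by norm_num [Qd]) (by norm_num) (by norm_num [Qv]) (by norm_num [Qd]) (by norm_num [Qe]) (by norm_num) (by norm_num) (by norm_num [Qv]) (by norm_num) (by norm_num)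

theorem Ua91 : PU (6987/8000) (561/25000) (141/125000) (339/5000000) (2211/500000000) (0) (0) (0) (37401/5000000) (377/500000) (17/250000) (37/6250000) (51/100000000) (17/100000000) (3) (3) (13588747167/1000000000000000) (3611850654743/500000000000000) :=
  stepU (by norm_num) (by norm_num) (by norm_num) (by norm_num) (by norm_num) (by norm_num) (by norm_num)
    (by norm_num) (by norm_num) (by norm_num) (by norm_num) (by norm_num) (by norm_num) (by norm_num) Ua90
    (1/50) (3) (3) (13588747167/1000000000000000) (3611850654743/500000000000000) (28108191517/125000000000) (1086202458639885865272639/97656250000000000000000) (174459418072485424384798689649317/61035156250000000000000000000000) (5232635777635457245929261371931/610351562500000000000000000000) (1466488881/50000000) (by norm_num) (by norm_num) (by norm_num) (by norm_num)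
    (by norm_num [Qd]) (by norm_num) (by norm_num [Qv]) (by norm_num [Qd]) (by norm_num [Qe]) (by norm_num) (by norm_num) (by norm_num [Qv]) (by norm_num) (by norm_num)

/-- coefficient bounds -/
theorem PBsix (hc1 : (0.708874905227206 : ℝ) ≤ cc) (t : ℝ) :
    6 * PB t ≤ Qv (2183439/2500000) (112203/5000000) (5649/5000000) (171/2500000) (9/2000000) (9/12500000) (0) t := by
  unfold PB Qv
  have h1 : (1 - cc) / 2 ≤ 1455626/10000000 := by linarith
  have h2 := mul_le_mul_of_nonneg_right h1 (sq_nonneg t)
  nlinarith [h2]

theorem PBeight (hc1 : (0.708874905227206 : ℝ) ≤ cc) (t : ℝ) :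
    8 * PB t ≤ Qv (727813/625000) (37401/1250000) (1883/1250000) (57/625000) (3/500000) (3/3125000) (0) t := by
  unfold PB Qv
  have h1 : (1 - cc) / 2 ≤ 1455626/10000000 := by linarith
  have h2 := mul_le_mul_of_nonneg_right h1 (sq_nonneg t)
  nlinarith [h2]

theorem PPsix (hc2 : cc ≤ (0.708874905227208 : ℝ)) (t : ℝ) :
    Qv (6987/8000) (561/25000) (141/125000) (339/5000000) (2211/500000000) (0) (0) t ≤ 6 * PP t := by
  unfold PP Qv
  have h1 : 1455625/10000000 ≤ (1 - cc) / 2 := by linarith
  have h2 := mul_le_mul_of_nonneg_right h1 (sq_nonneg t)
  nlinarith [h2]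

theorem PBcont : Continuous PB := by unfold PB; fun_prop
theorem PPcont : Continuous PP := by unfold PP; fun_prop

/-- scaling -/
theorem PBscale (hc2 : cc ≤ (0.708874905227208 : ℝ)) (a b : ℝ) (hb : 0 < b) (hab : b ≤ a) (s : ℝ) :
    a * PB (Real.sqrt (b / a) * s) ≤ b * PB s := by
  have ha : 0 < a := lt_of_lt_of_le hb hab
  set r := Real.sqrt (b / a) with hr
  have hr2 : r ^ 2 = b / a := Real.sq_sqrt (by positivity)
  have hr2le : r ^ 2 ≤ 1 := by rw [hr2]; exact (div_le_one ha).mpr hab
  have hr0 : 0 ≤ r ^ 2 := sq_nonneg r
  have hal : 0 ≤ (1 - cc) / 2 := by linarith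
  have hbr : b = a * r ^ 2 := by rw [hr2]; field_simp
  have e4 : (r ^ 2) ^ 2 ≤ r ^ 2 := by nlinarith
  have e6 : (r ^ 2) ^ 3 ≤ r ^ 2 := by
    calc (r^2)^3 = (r^2)^2 * r^2 := by ring
      _ ≤ r^2 * 1 := by nlinarith
      _ = r^2 := mul_one _
  have e8 : (r ^ 2) ^ 4 ≤ r ^ 2 := by
    calc (r^2)^4 = (r^2)^3 * r^2 := by ring
      _ ≤ r^2 * 1 := by nlinarith
      _ = r^2 := mul_one _
  have e10 : (r ^ 2) ^ 5 ≤ r ^ 2 := by
    calc (r^2)^5 = (r^2)^4 * r^2 := by ring
      _ ≤ r^2 * 1 := by nlinarith
      _ = r^2 := mul_one _
  have e12 : (r ^ 2) ^ 6 ≤ r ^ 2 := by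
    calc (r^2)^6 = (r^2)^5 * r^2 := by ring
      _ ≤ r^2 * 1 := by nlinarith
      _ = r^2 := mul_one _
  rw [hbr, mul_assoc]
  apply mul_le_mul_of_nonneg_left _ ha.le
  unfold PB
  have s4 : 0 ≤ s ^ 4 := by positivity
  have s6 : 0 ≤ s ^ 6 := by positivity
  have s8 : 0 ≤ s ^ 8 := by positivity
  have s10 : 0 ≤ s ^ 10 := by positivity
  have s12 : 0 ≤ s ^ 12 := by positivity
  have f4 := mul_le_mul_of_nonneg_right e4 s4
  have f6 := mul_le_mul_of_nonneg_right e6 s6
  have f8 := mul_le_mul_of_nonneg_right e8 s8
  have f10 := mul_le_mul_of_nonneg_right e10 s10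
  have f12 := mul_le_mul_of_nonneg_right e12 s12
  have g4 : (r * s) ^ 4 = (r ^ 2) ^ 2 * s ^ 4 := by ring
  have g6 : (r * s) ^ 6 = (r ^ 2) ^ 3 * s ^ 6 := by ring
  have g8 : (r * s) ^ 8 = (r ^ 2) ^ 4 * s ^ 8 := by ring
  have g10 : (r * s) ^ 10 = (r ^ 2) ^ 5 * s ^ 10 := by ring
  have g12 : (r * s) ^ 12 = (r ^ 2) ^ 6 * s ^ 12 := by ring
  rw [g4, g6, g8, g10, g12]
  have g2 : (1 - cc) / 2 * (r * s) ^ 2 = r ^ 2 * ((1 - cc) / 2 * s ^ 2) := by ring
  rw [g2]
  nlinarith [f4, f6, f8, f10, f12]

theorem PBmono (hc2 : cc ≤ (0.708874905227208 : ℝ)) (a b : ℝ) (hb : 0 < b) (hab : b ≤ a) :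
    Real.sqrt b * ∫ t in (0:ℝ)..(13/5), Real.exp (-(b * PB t)) ≤
      Real.sqrt a * ∫ t in (0:ℝ)..(13/5), Real.exp (-(a * PB t)) := by
  have ha : 0 < a := lt_of_lt_of_le hb hab
  set r := Real.sqrt (b / a) with hr
  have hrpos : 0 < r := Real.sqrt_pos.mpr (by positivity)
  have hr1 : r ≤ 1 := by
    rw [hr]
    exact Real.sqrt_le_one.mpr ((div_le_one ha).mpr hab)
  have hcont : ∀ c : ℝ, Continuous (fun t => Real.exp (-(c * PB t))) := fun c =>
    (continuous_const.mul PBcont).neg.rexp
  have h1 := intervalIntegral.integral_comp_mul_left (a := 0) (b := 13/5/r) (fun t => Real.exp (-(a * PB t))) hrpos.ne'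
  have e1 : r * 0 = 0 := mul_zero _
  have e2 : r * (13/5/r) = 13/5 := by field_simp
  rw [e1, e2, smul_eq_mul] at h1
  have h2 : ∫ t in (0:ℝ)..(13/5), Real.exp (-(a * PB t)) = r * ∫ x in (0:ℝ)..(13/5/r), Real.exp (-(a * PB (r * x))) := by
    rw [h1]; field_simp
  have h3 : Real.sqrt a * r = Real.sqrt b := by
    rw [hr, ← Real.sqrt_mul ha.le]
    congr 1; field_simp
  rw [h2, ← mul_assoc, h3]
  apply mul_le_mul_of_nonneg_left _ (Real.sqrt_nonneg _)
  have hc3 : Continuous (fun x => Real.exp (-(a * PB (r * x)))) := (hcont a).comp (by fun_prop)
  have h4 : (13:ℝ)/5 ≤ 13/5/r := by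
    rw [le_div_iff₀ hrpos]; nlinarith
  have h5 := intervalIntegral.integral_add_adjacent_intervals
    (hc3.intervalIntegrable (μ := volume) 0 (13/5)) (hc3.intervalIntegrable (μ := volume) (13/5) (13/5/r))
  rw [← h5]
  have h6 : 0 ≤ ∫ x in (13/5:ℝ)..(13/5/r), Real.exp (-(a * PB (r * x))) :=
    intervalIntegral.integral_nonneg h4 (fun _ _ => (Real.exp_pos _).le)
  have h7 : ∫ t in (0:ℝ)..(13/5), Real.exp (-(b * PB t)) ≤ ∫ x in (0:ℝ)..(13/5), Real.exp (-(a * PB (r * x))) := by
    apply intervalIntegral.integral_mono_on (by norm_num) ((hcont b).intervalIntegrable _ _) (hc3.intervalIntegrable _ _)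
    intro x _
    apply Real.exp_le_exp.mpr
    have := PBscale hc2 a b hb hab x
    linarith
  linarith

theorem num6 (hc1 : (0.708874905227206 : ℝ) ≤ cc) :
    463491090874597/500000000000000 ≤ ∫ t in (0:ℝ)..(13/5), Real.exp (-(6 * PB t)) := by
  refine La26.2.2.trans ?_
  apply intervalIntegral.integral_mono_on (by norm_num)
  · exact ((Qv_cont _ _ _ _ _ _ _).neg.rexp).intervalIntegrable _ _
  · exact ((continuous_const.mul PBcont).neg.rexp).intervalIntegrable _ _
  · intro t _
    apply Real.exp_le_exp.mpr
    have := PBsix hc1 t
    linarith

theorem num8 (hc1 : (0.708874905227206 : ℝ) ≤ cc) :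
    8073/10000 ≤ ∫ t in (0:ℝ)..(13/5), Real.exp (-(8 * PB t)) := by
  have h0 : (8073/10000 : ℝ) ≤ 201829860783867/250000000000000 := by norm_num
  refine h0.trans (Lb22.2.2.trans ?_)
  have hcont : Continuous (fun t => Real.exp (-(8 * PB t))) := (continuous_const.mul PBcont).neg.rexp
  have h5 := intervalIntegral.integral_add_adjacent_intervals
    (hcont.intervalIntegrable (μ := volume) 0 (11/5)) (hcont.intervalIntegrable (μ := volume) (11/5) (13/5))
  rw [← h5]
  have h6 : 0 ≤ ∫ x in (11/5:ℝ)..(13/5), Real.exp (-(8 * PB x)) :=
    intervalIntegral.integral_nonneg (by norm_num) (fun _ _ => (Real.exp_pos _).le)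
  have h7 : ∫ t in (0:ℝ)..(11/5), Real.exp (-(Qv (727813/625000) (37401/1250000) (1883/1250000) (57/625000) (3/500000) (3/3125000) (0) t))
      ≤ ∫ t in (0:ℝ)..(11/5), Real.exp (-(8 * PB t)) := by
    apply intervalIntegral.integral_mono_on (by norm_num)
    · exact ((Qv_cont _ _ _ _ _ _ _).neg.rexp).intervalIntegrable _ _
    · exact hcont.intervalIntegrable _ _
    · intro t _
      apply Real.exp_le_exp.mpr
      have := PBeight hc1 t
      linarith
  linarith

theorem phipow_int (hcont : Continuous phi)
    (hint : ∀ s : ℝ, 1 < s → Integrable (fun t : ℝ => |phi t| ^ s)) (n : ℕ) (hn : 2 ≤ n) :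
    Integrable (fun t => phi t ^ n) := by
  have h1 := hint n (by exact_mod_cast (by omega : 1 < n))
  simp_rw [Real.rpow_natCast] at h1
  apply h1.mono' (hcont.pow n).aestronglyMeasurable
  apply Filter.Eventually.of_forall
  intro t
  simp

/-- lower bound of the total integral -/
theorem main_lower (hcont : Continuous phi) (hneg : ∀ t : ℝ, phi (-t) = phi t)
    (hint : ∀ s : ℝ, 1 < s → Integrable (fun t : ℝ => |phi t| ^ s))
    (hpos : ∀ t : ℝ, 0 ≤ t → t ≤ 69 / 20 → 0 < phi t)
    (hPB : ∀ t : ℝ, 0 ≤ t → t ≤ 13 / 5 → Real.exp (-(PB t)) ≤ phi t)
    (n : ℕ) (hn : 2 ≤ n) (δ : ℝ)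
    (htail : -δ ≤ ∫ t in Set.Ioi (69/20 : ℝ), phi t ^ n) :
    2 * ((∫ t in (0:ℝ)..(13/5), Real.exp (-(n * PB t))) - δ) ≤ ∫ t, phi t ^ n := by
  have hi := phipow_int hcont hint n hn
  have h1 : ∫ t, phi t ^ n = 2 * ∫ t in Set.Ioi (0:ℝ), phi t ^ n := by
    have h2 := integral_comp_abs (f := fun t => phi t ^ n)
    rw [← h2]
    apply integral_congr_ae
    filter_upwards with t
    rcases abs_cases t with ⟨h, _⟩ | ⟨h, _⟩
    · rw [h]
    · rw [h, hneg]
  rw [h1]
  apply mul_le_mul_of_nonneg_left _ (by norm_num)
  have h2 : ∫ t in Set.Ioi (0:ℝ), phi t ^ n = (∫ t in (0:ℝ)..(69/20), phi t ^ n) + ∫ t in Set.Ioi (69/20 : ℝ), phi t ^ n := by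
    rw [intervalIntegral.integral_interval_add_Ioi hi.integrableOn hi.integrableOn]
  have hc2 : Continuous (fun t => phi t ^ n) := hcont.pow n
  have h3 := intervalIntegral.integral_add_adjacent_intervals
    (hc2.intervalIntegrable (μ := volume) 0 (13/5)) (hc2.intervalIntegrable (μ := volume) (13/5) (69/20))
  have h4 : 0 ≤ ∫ x in (13/5:ℝ)..(69/20), phi x ^ n := by
    apply intervalIntegral.integral_nonneg (by norm_num)
    intro t ht
    exact pow_nonneg (hpos t (by linarith [ht.1]) ht.2).le n
  have h5 : ∫ t in (0:ℝ)..(13/5), Real.exp (-(n * PB t)) ≤ ∫ t in (0:ℝ)..(13/5), phi t ^ n := by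
    apply intervalIntegral.integral_mono_on (by norm_num)
    · exact ((continuous_const.mul PBcont).neg.rexp).intervalIntegrable _ _
    · exact hc2.intervalIntegrable _ _
    · intro t ht
      have h6 := pow_le_pow_left₀ (Real.exp_pos _).le (hPB t ht.1 ht.2) n
      rw [← Real.exp_nat_mul] at h6
      rw [show -(n * PB t) = n * -(PB t) by ring]
      exact h6
  linarith

theorem tail_abs (hcont : Continuous phi)
    (hint : ∀ s : ℝ, 1 < s → Integrable (fun t : ℝ => |phi t| ^ s))
    (h3 : ∀ t : ℝ, 3 ≤ t → |phi t| ≤ 3 / 20)
    (hR3 : ∀ T : ℝ, 3 ≤ T → Rt T ≤ 754 / 10000) (n : ℕ) (T : ℝ) (hT : 3 ≤ T) :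
    |∫ t in Set.Ioi T, phi t ^ (n + 2)| ≤ (3/20) ^ n * (754/10000) := by
  have hi := phipow_int hcont hint 2 le_rfl
  have h1 : |∫ t in Set.Ioi T, phi t ^ (n + 2)| ≤ ∫ t in Set.Ioi T, (3/20) ^ n * phi t ^ 2 := by
    rw [← Real.norm_eq_abs]
    apply norm_integral_le_of_norm_le (hi.integrableOn.const_mul _)
    filter_upwards [ae_restrict_mem measurableSet_Ioi] with t ht
    have ht' : T < t := ht
    rw [norm_pow, Real.norm_eq_abs, pow_add, sq_abs]
    apply mul_le_mul_of_nonneg_right _ (sq_nonneg _)
    exact pow_le_pow_left₀ (abs_nonneg _) (h3 t (by linarith)) n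
  rw [integral_const_mul] at h1
  refine h1.trans ?_
  apply mul_le_mul_of_nonneg_left (hR3 T hT) (by positivity)

theorem pow_num (n : ℕ) (hn : 7 ≤ n) : (n:ℝ) * (3/20) ^ (n - 2) ≤ 7 * (3/20) ^ 5 := by
  induction n, hn using Nat.le_induction with
  | base => norm_num
  | succ n hn ih =>
    have h1 : n + 1 - 2 = (n - 2) + 1 := by omega
    rw [h1, pow_succ]
    have h2 : (7:ℝ) ≤ n := by exact_mod_cast hn
    have h3 : (0:ℝ) ≤ (3/20) ^ (n - 2) := by positivity
    push_cast
    nlinarith

theorem sqrt_le_half (n : ℕ) (hn : 4 ≤ n) : Real.sqrt n ≤ n / 2 := by
  have h2 : (4:ℝ) ≤ n := by exact_mod_cast hn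
  rw [Real.sqrt_le_left (by positivity)]
  nlinarith

theorem gen_lower (hcont : Continuous phi) (hneg : ∀ t : ℝ, phi (-t) = phi t)
    (hint : ∀ s : ℝ, 1 < s → Integrable (fun t : ℝ => |phi t| ^ s))
    (h3 : ∀ t : ℝ, 3 ≤ t → |phi t| ≤ 3 / 20)
    (hR3 : ∀ T : ℝ, 3 ≤ T → Rt T ≤ 754 / 10000)
    (hpos : ∀ t : ℝ, 0 ≤ t → t ≤ 69 / 20 → 0 < phi t)
    (hPB : ∀ t : ℝ, 0 ≤ t → t ≤ 13 / 5 → Real.exp (-(PB t)) ≤ phi t)
    (hc2 : cc ≤ (0.708874905227208 : ℝ)) (k : ℕ) (hk : 6 ≤ k) (n : ℕ) (hn : k ≤ n) (hkn : Even n ∨ 7 ≤ n) :
    2 * (Real.sqrt k * ∫ t in (0:ℝ)..(13/5), Real.exp (-(k * PB t))) - 7 * (3/20) ^ 5 * (754/10000)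
      ≤ ∫ ξ : ℝ, phi (ξ / √n) ^ n := by
  have hn0 : (0:ℝ) < n := by exact_mod_cast (by omega : 0 < n)
  have hk0 : (0:ℝ) < k := by exact_mod_cast (by omega : 0 < k)
  have h1 : ∫ ξ : ℝ, phi (ξ / √n) ^ n = √n * ∫ t, phi t ^ n := by
    have := Measure.integral_comp_div (fun t => phi t ^ n) (√(n:ℝ))
    rw [this, abs_of_nonneg (Real.sqrt_nonneg _), smul_eq_mul]
  rw [h1]
  have hmono := PBmono hc2 n k hk0 (by exact_mod_cast hn)
  have hsn : 0 ≤ √(n:ℝ) := Real.sqrt_nonneg _
  rcases hkn with hev | h7
  · have h2 := main_lower hcont hneg hint hpos hPB n (by omega) 0 (by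
      rw [neg_zero]
      apply integral_nonneg
      intro t
      exact hev.pow_nonneg _)
    rw [sub_zero] at h2
    have h4 := mul_le_mul_of_nonneg_left h2 hsn
    have h5 : (0:ℝ) ≤ 7 * (3/20) ^ 5 * (754/10000) := by norm_num
    linarith
  · obtain ⟨j, rfl⟩ : ∃ j, n = j + 2 := ⟨n - 2, by omega⟩
    have ht := tail_abs hcont hint h3 hR3 j (69/20) (by norm_num)
    have ht2 := (abs_le.mp ht).1
    have h2 := main_lower hcont hneg hint hpos hPB (j + 2) (by omega) ((3/20) ^ j * (754/10000)) ht2
    have h4 := mul_le_mul_of_nonneg_left h2 hsn
    have h5 := pow_num (j + 2) h7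
    have h6 := sqrt_le_half (j + 2) (by omega)
    have h7' : j + 2 - 2 = j := by omega
    rw [h7'] at h5
    have h8 : √((j + 2 : ℕ) : ℝ) * ((3/20) ^ j * (754/10000)) ≤ 7 * (3/20) ^ 5 * (754/10000) / 2 := by
      have h9 : (0:ℝ) ≤ (3/20) ^ j * (754/10000) := by positivity
      have h10 := mul_le_mul_of_nonneg_right h6 h9
      have h11 : ((j + 2 : ℕ) : ℝ) / 2 * ((3/20) ^ j * (754/10000))
        = (((j + 2 : ℕ) : ℝ) * (3/20) ^ j) * (754/10000) / 2 := by ring
      rw [h11] at h10
      linarith
    linarith

theorem sixval : Is 6 = ∫ t, phi t ^ 6 := by
  unfold Is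
  apply integral_congr_ae
  filter_upwards with t
  rw [show (6:ℝ) = ((6:ℕ):ℝ) by norm_num, Real.rpow_natCast]
  exact Even.pow_abs (by decide) _

theorem G_int (hcont : Continuous phi)
    (hint : ∀ s : ℝ, 1 < s → Integrable (fun t : ℝ => |phi t| ^ s)) (h1 : ∀ t : ℝ, |phi t| ≤ 1) :
    Integrable (fun t => phi t ^ 6 * Real.log |phi t|) := by
  have h5 := hint 5 (by norm_num)
  apply h5.mono'
  · apply AEStronglyMeasurable.mul
    · exact (hcont.pow 6).aestronglyMeasurable
    · exact (Real.measurable_log.comp hcont.abs.measurable).aestronglyMeasurable
  · apply Filter.Eventually.of_forall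
    intro t
    rw [show (5:ℝ) = ((5:ℕ):ℝ) by norm_num, Real.rpow_natCast, norm_mul, norm_pow, Real.norm_eq_abs, Real.norm_eq_abs]
    rcases (abs_nonneg (phi t)).eq_or_lt with h0 | h0
    · rw [← h0]; simp
    · have h2 := (Real.abs_log_mul_self_lt _ h0 (h1 t)).le
      rw [abs_mul, abs_abs] at h2
      have h3 : 0 ≤ |phi t| ^ 5 := by positivity
      calc |phi t| ^ 6 * abs (Real.log |phi t|) = |phi t| ^ 5 * (abs (Real.log |phi t|) * |phi t|) := by ring
        _ ≤ |phi t| ^ 5 * 1 := mul_le_mul_of_nonneg_left h2 h3
        _ = |phi t| ^ 5 := mul_one _

/-- numerical lower bounds at the main diagonal -/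
theorem diag_numeric (hcont : Continuous phi) (hC2 : ContDiff ℝ 2 phi)
    (hneg : ∀ t : ℝ, phi (-t) = phi t)
    (hd : ∀ t : ℝ, HasDerivAt phi (-(∫ x in (-1 : ℝ)..1, w x * x * Real.sin (t * x)) / m0) t)
    (hint : ∀ s : ℝ, 1 < s → Integrable (fun t : ℝ => |phi t| ^ s))
    (h1 : ∀ t : ℝ, |phi t| ≤ 1)
    (h3 : ∀ t : ℝ, 3 ≤ t → |phi t| ≤ 3 / 20)
    (hpos : ∀ t : ℝ, 0 ≤ t → t ≤ 69 / 20 → 0 < phi t)
    (hR3 : ∀ T : ℝ, 3 ≤ T → Rt T ≤ 754 / 10000)
    (hP : ∀ t : ℝ, 0 ≤ t → t ≤ 29 / 5 → phi t ≤ Real.exp (-(PP t)))
    (hPB : ∀ t : ℝ, 0 ≤ t → t ≤ 13 / 5 → Real.exp (-(PB t)) ≤ phi t)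
    (hDhi : ∀ t : ℝ, 0 ≤ t → t ≤ 3 →
      t * ((∫ x in (-1 : ℝ)..1, w x * x * Real.sin (t * x)) / m0) + 2 * phi t * Real.log (phi t) ≤
        (74802 / 10000000 * t ^ 4 + 754 / 1000000 * t ^ 6 + 68 / 1000000 * t ^ 8
          + 592 / 100000000 * t ^ 10 + 51 / 100000000 * t ^ 12 + 17 / 100000000 * t ^ 14) * phi t)
    (hc1 : (0.708874905227206 : ℝ) ≤ cc) (hc2 : cc ≤ (0.708874905227208 : ℝ)) :
    (45411 / 10000 ≤ √6 * Is 6) ∧
    (1 / 12 + (∫ t : ℝ, |phi t| ^ (6 : ℝ) * Real.log |phi t|) / Is 6 ≤ 39 / 10000) ∧
    (∀ n : ℕ, 6 ≤ n → 45411 / 10000 ≤ ∫ ξ : ℝ, phi (ξ / √n) ^ n) ∧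
    (∀ n : ℕ, 8 ≤ n → 456 / 100 ≤ ∫ ξ : ℝ, phi (ξ / √n) ^ n) := by
  have hs6 : (2.449489 : ℝ) ≤ √6 := Real.le_sqrt_of_sq_le (by norm_num)
  have hs8 : (2.828427 : ℝ) ≤ √8 := Real.le_sqrt_of_sq_le (by norm_num)
  have hn6 := num6 hc1
  have hn8 := num8 hc1
  have key6 : ∀ n : ℕ, 6 ≤ n → 45411 / 10000 ≤ ∫ ξ : ℝ, phi (ξ / √n) ^ n := by
    intro n hn
    have hcase : Even n ∨ 7 ≤ n := by
      rcases Nat.lt_or_ge 6 n with h | h
      · right; omega
      · left; have : n = 6 := by omega
        rw [this]; decide
    have h := gen_lower hcont hneg hint h3 hR3 hpos hPB hc2 6 le_rfl n hn hcase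
    refine le_trans ?_ h
    push_cast
    have h2 : (2.449489 : ℝ) * (463491090874597/500000000000000) ≤ √6 * ∫ t in (0:ℝ)..(13/5), Real.exp (-(6 * PB t)) :=
      mul_le_mul hs6 hn6 (by norm_num) (Real.sqrt_nonneg _)
    have h4 : (45411 / 10000 : ℝ) ≤ 2 * ((2.449489 : ℝ) * (463491090874597/500000000000000)) - 7 * (3/20) ^ 5 * (754/10000) := by
      norm_num
    linarith
  have hI6 : 2 * (463491090874597/500000000000000) ≤ Is 6 := by
    rw [sixval]
    have h2 := main_lower hcont hneg hint hpos hPB 6 (by norm_num) 0 (by
      rw [neg_zero]
      apply integral_nonneg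
      intro t
      exact Even.pow_nonneg (by decide) _)
    rw [sub_zero] at h2
    push_cast at h2
    linarith
  have hIpos : 0 < Is 6 := lt_of_lt_of_le (by norm_num) hI6
  refine ⟨?_, ?_, key6, ?_⟩
  · have h2 : (2.449489 : ℝ) * (2 * (463491090874597/500000000000000)) ≤ √6 * Is 6 :=
      mul_le_mul hs6 hI6 (by norm_num) (Real.sqrt_nonneg _)
    refine le_trans ?_ h2
    norm_num
  · -- the logarithmic part
    have hi6 := phipow_int hcont hint 6 (by norm_num)
    have hGi := G_int hcont hint h1
    have hG : ∫ t : ℝ, |phi t| ^ (6 : ℝ) * Real.log |phi t| = ∫ t, phi t ^ 6 * Real.log |phi t| := by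
      apply integral_congr_ae
      filter_upwards with t
      congr 1
      rw [show (6:ℝ) = ((6:ℕ):ℝ) by norm_num, Real.rpow_natCast]
      exact Even.pow_abs (by decide) _
    rw [hG]
    have hmain : Is 6 / 12 + ∫ t, phi t ^ 6 * Real.log |phi t| ≤ 39/10000 * Is 6 := by
      set H : ℝ → ℝ := fun t => phi t ^ 6 / 12 + phi t ^ 6 * Real.log |phi t| with hH
      have hHi : Integrable H := (hi6.div_const 12).add hGi
      have e1 : Is 6 / 12 + ∫ t, phi t ^ 6 * Real.log |phi t| = ∫ t, H t := by
        rw [sixval, ← integral_div, ← integral_add (hi6.div_const 12) hGi]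
      have e2 : ∫ t, H t = 2 * ∫ t in Set.Ioi (0:ℝ), H t := by
        have h2 := integral_comp_abs (f := H)
        rw [← h2]
        apply integral_congr_ae
        filter_upwards with t
        simp only [hH]
        rcases abs_cases t with ⟨h, _⟩ | ⟨h, _⟩
        · rw [h]
        · rw [h, hneg]
      have e3 : ∫ t in Set.Ioi (0:ℝ), H t = (∫ t in (0:ℝ)..3, H t) + ∫ t in Set.Ioi (3 : ℝ), H t := by
        rw [intervalIntegral.integral_interval_add_Ioi hHi.integrableOn hHi.integrableOn]
      have e4 : ∫ t in Set.Ioi (3 : ℝ), H t ≤ 0 := by
        apply setIntegral_nonpos measurableSet_Ioi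
        intro t ht
        have ht' : (3:ℝ) < t := ht
        have h5 := h3 t ht'.le
        simp only [hH]
        have h6 : (0:ℝ) ≤ phi t ^ 6 := Even.pow_nonneg (by decide) _
        rcases (abs_nonneg (phi t)).eq_or_lt with h0 | h0
        · have : phi t = 0 := abs_eq_zero.mp h0.symm
          rw [this]; simp
        · have h7 := Real.log_le_sub_one_of_pos h0
          nlinarith
      have e5 : 2 * ∫ t in (0:ℝ)..3, H t ≤ (3/20) ^ 6 / 2 + 3611850654743/500000000000000 := by
        set Ff : ℝ → ℝ := fun t => t * phi t ^ 6 / 6 with hFf
        have hdc : Continuous (deriv phi) := hC2.continuous_deriv (by norm_num)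
        have hFd : ∀ t, HasDerivAt Ff (phi t ^ 6 / 6 + t * phi t ^ 5 * deriv phi t) t := by
          intro t
          have hp : HasDerivAt phi (deriv phi t) t := (hd t).differentiableAt.hasDerivAt
          have h8 := ((hasDerivAt_id t).mul (hp.pow 6)).div_const 6
          refine h8.congr_deriv ?_
          simp only [id]
          norm_num
          ring
        have hFc : Continuous (fun t => phi t ^ 6 / 6 + t * phi t ^ 5 * deriv phi t) := by fun_prop
        have hFI : ∫ t in (0:ℝ)..3, (phi t ^ 6 / 6 + t * phi t ^ 5 * deriv phi t) = phi 3 ^ 6 / 2 := by
          rw [intervalIntegral.integral_eq_sub_of_hasDerivAt (fun t _ => hFd t) (hFc.intervalIntegrable _ _)]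
          simp only [hFf]; ring
        have hphi3 : phi 3 ^ 6 ≤ (3/20) ^ 6 := by
          have h9 := pow_le_pow_left₀ (abs_nonneg _) (h3 3 le_rfl) 6
          rwa [Even.pow_abs (by decide)] at h9
        have hU : ∫ t in (0:ℝ)..3, Qv (0) (37401/5000000) (377/500000) (17/250000) (37/6250000) (51/100000000) (17/100000000) t * Real.exp (-(Qv (6987/8000) (561/25000) (141/125000) (339/5000000) (2211/500000000) (0) (0) t))
            ≤ 3611850654743/500000000000000 := Ua91.2
        have hcu : Continuous (fun t => Qv (0) (37401/5000000) (377/500000) (17/250000) (37/6250000) (51/100000000) (17/100000000) t * Real.exp (-(Qv (6987/8000) (561/25000) (141/125000) (339/5000000) (2211/500000000) (0) (0) t))) :=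
          (Qv_cont _ _ _ _ _ _ _).mul (Qv_cont _ _ _ _ _ _ _).neg.rexp
        have hpt : ∫ t in (0:ℝ)..3, 2 * H t ≤ ∫ t in (0:ℝ)..3, ((phi t ^ 6 / 6 + t * phi t ^ 5 * deriv phi t)
            + Qv (0) (37401/5000000) (377/500000) (17/250000) (37/6250000) (51/100000000) (17/100000000) t * Real.exp (-(Qv (6987/8000) (561/25000) (141/125000) (339/5000000) (2211/500000000) (0) (0) t))) := by
          apply intervalIntegral.integral_mono_on (by norm_num)
          · exact (hHi.const_mul 2).intervalIntegrable
          · exact (hFc.add hcu).intervalIntegrable _ _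
          · intro t ht
            have hp := hpos t ht.1 (by linarith [ht.2])
            have hD := hDhi t ht.1 ht.2
            have hder : deriv phi t = -((∫ x in (-1 : ℝ)..1, w x * x * Real.sin (t * x)) / m0) := by
              rw [(hd t).deriv, neg_div]
            set Sg : ℝ := (∫ x in (-1 : ℝ)..1, w x * x * Real.sin (t * x)) / m0 with hSg
            have hp5 : 0 ≤ phi t ^ 5 := by positivity
            have hD2 := mul_le_mul_of_nonneg_right hD hp5
            have hpp := hP t ht.1 (by linarith [ht.2])
            have h10 : phi t ^ 6 ≤ Real.exp (-(Qv (6987/8000) (561/25000) (141/125000) (339/5000000) (2211/500000000) (0) (0) t)) := by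
              calc phi t ^ 6 ≤ (Real.exp (-(PP t))) ^ 6 := pow_le_pow_left₀ hp.le hpp 6
                _ = Real.exp (((6:ℕ):ℝ) * -(PP t)) := (Real.exp_nat_mul _ _).symm
                _ ≤ _ := by
                  apply Real.exp_le_exp.mpr
                  have := PPsix hc2 t
                  push_cast
                  linarith
            have hQ0 : 0 ≤ Qv (0) (37401/5000000) (377/500000) (17/250000) (37/6250000) (51/100000000) (17/100000000) t := by
              have := ht.1
              unfold Qv; positivity
            have h11 := mul_le_mul_of_nonneg_left h10 hQ0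
            simp only [hH]
            rw [abs_of_pos hp, hder]
            have h12 : (74802 / 10000000 * t ^ 4 + 754 / 1000000 * t ^ 6 + 68 / 1000000 * t ^ 8
              + 592 / 100000000 * t ^ 10 + 51 / 100000000 * t ^ 12 + 17 / 100000000 * t ^ 14)
              = Qv (0) (37401/5000000) (377/500000) (17/250000) (37/6250000) (51/100000000) (17/100000000) t := by
              unfold Qv; ring
            rw [h12] at hD2
            have h13 : Qv (0) (37401/5000000) (377/500000) (17/250000) (37/6250000) (51/100000000) (17/100000000) t * phi t * phi t ^ 5
              = Qv (0) (37401/5000000) (377/500000) (17/250000) (37/6250000) (51/100000000) (17/100000000) t * phi t ^ 6 := by ring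
            rw [h13] at hD2
            have h14 : (t * Sg + 2 * phi t * Real.log (phi t)) * phi t ^ 5
              = t * Sg * phi t ^ 5 + 2 * (phi t ^ 6 * Real.log (phi t)) := by ring
            rw [h14] at hD2
            linarith
        rw [intervalIntegral.integral_const_mul, intervalIntegral.integral_add (hFc.intervalIntegrable _ _)
          (hcu.intervalIntegrable _ _), hFI] at hpt
        linarith
      rw [e1, e2, e3]
      have e6 : ((3/20:ℝ)) ^ 6 / 2 + 3611850654743/500000000000000 ≤ 39/10000 * (2 * (463491090874597/500000000000000)) := by
        norm_num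
      have e7 := mul_le_mul_of_nonneg_left hI6 (by norm_num : (0:ℝ) ≤ 39/10000)
      linarith
    have h20 : 1 / 12 + (∫ t, phi t ^ 6 * Real.log |phi t|) / Is 6
        = (Is 6 / 12 + ∫ t, phi t ^ 6 * Real.log |phi t|) / Is 6 := by
      field_simp
    rw [h20, div_le_iff₀ hIpos]
    exact hmain
  · intro n hn
    have h := gen_lower hcont hneg hint h3 hR3 hpos hPB hc2 8 (by norm_num) n hn (Or.inr (by omega))
    refine le_trans ?_ h
    push_cast
    have h2 : (2.828427 : ℝ) * (8073/10000) ≤ √8 * ∫ t in (0:ℝ)..(13/5), Real.exp (-(8 * PB t)) :=
      mul_le_mul hs8 hn8 (by norm_num) (Real.sqrt_nonneg _)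
    have h4 : (456 / 100 : ℝ) ≤ 2 * ((2.828427 : ℝ) * (8073/10000)) - 7 * (3/20) ^ 5 * (754/10000) := by
      norm_num
    linarith

end
end CG3
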