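import Pool.Agent.CG3.Base2

open MeasureTheory ProbabilityTheory
open scoped BigOperators

namespace CG3
noncomputable section

/-- evaluation of an integer polynomial given by its coefficient list -/
def ev8c : List ℤ → ℝ → ℝ
  | [], _ => 0
  | c :: p, x => (c : ℝ) + x * ev8c p x

def padd : List ℤ → List ℤ → List ℤ
  | [], q => q
  | p, [] => p
  | a :: p, b :: q => (a + b) :: padd p q

def smul : ℤ → List ℤ → List ℤ
  | _, [] => []
  | c, a :: p => (c * a) :: smul c p

def pmul : List ℤ → List ℤ → List ℤ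
  | [], _ => []
  | a :: p, q => padd (smul a q) (0 :: pmul p q)

def stepA (a : ℤ) : ℤ → List ℤ → List ℤ
  | c, [] => [c]
  | c, d :: q => (c + a * d) :: stepA a d q

def pshift (a : ℤ) : List ℤ → List ℤ
  | [] => []
  | c :: p => stepA a c (pshift a p)

def lb : List ℤ → ℤ → ℤ
  | [], _ => 0
  | c :: p, h => c + min 0 (h * lb p h)

def cov : List ℤ → List ℤ → Bool
  | _, [] => true
  | p, h :: hs => decide (0 ≤ lb p h) && cov (pshift h p) hs

def dl : ℤ → List ℤ → List ℤ
  | _, [] => []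
  | n, c :: p => (n * c) :: dl (n + 2) p

def aL : List ℤ := [17030314057236480000, -1703031405723648000, 60822550204416000, -1126343522304000, 12799358208000, -98456601600, 546981120, -2298240, 7560, -20]
def bL : List ℤ := [51090942171709440000, -8515157028618240000, 425757851430912000, -10137091700736000, 140792940288000, -1279935820800, 8204716800, -39070080, 143640, -420, 1]
def mL : List ℤ := [2432902008176640000000000000000000, -354139413851671365104505077760000, 16675554276530455034835025920000, -383949073208829631096129536000, 5220241778254069219580928000, -46764262571522092319923200, 296567977521652923340800, -1400713210675640476800, 5116601687407899840, -14883185314100220, 35284360477804]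
def rL : List ℤ := [0, -1216451004088320000, 405483668029440000, -70959641905152000, 8930295069696000, -893699949542400, 74480074905600, -5320033257600, 332502194880, -18472344540, 923617228]
def q1 : List ℤ := [7480, 748]
def q2 : List ℤ := [7480200, 897624]
def q3 : List ℤ := [748020000000000000000000, 75400000000000000000000, 6800000000000000000000, 592000000000000000000, 51000000000000000000, 4231015801555204701, 353599159871014435, 29410590580769428, 2438170056761429, 201649696427928, 16648362201775, 1372676177531, 113061758536, 9304808494, 765265598, 281701313]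

/-- `κD (α - κ φ²)` scaled, minus the error allowance -/
def HP (sg : ℤ) (q : List ℤ) (D : ℤ) : List ℤ :=
  padd (smul (sg * D) (padd (smul (21 * 708874905227207) (pmul (padd aL (smul (-1) bL)) mL))
    (smul (708874905227207 ^ 2) (pmul bL bL))))
    (padd (smul (-441 * sg) (pmul (dl 4 q) (pmul mL mL)))
      [-(D * 10 ^ 21 * 51090942171709440000 ^ 2)])

theorem cov1 : cov (HP 1 q1 (10 ^ 6)) [4, 5] = true := by decide +kernel
theorem cov2 : cov (HP (-1) q2 (10 ^ 9)) [1] = true := by decide +kernel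
theorem cov3 : cov (HP (-1) q3 (10 ^ 26)) [3, 4, 2] = true := by decide +kernel

theorem ev_nil (x : ℝ) : ev8c [] x = 0 := rfl
theorem ev_cons (c : ℤ) (p : List ℤ) (x : ℝ) : ev8c (c :: p) x = (c : ℝ) + x * ev8c p x := rfl

theorem ev_padd (p q : List ℤ) (x : ℝ) : ev8c (padd p q) x = ev8c p x + ev8c q x := by
  induction p generalizing q with
  | nil => simp [padd, ev8c]
  | cons a p ih =>
    cases q with
    | nil => simp [padd, ev8c]
    | cons b q =>
      simp only [padd, ev_cons, ih]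
      push_cast
      ring

theorem ev_smul (c : ℤ) (p : List ℤ) (x : ℝ) : ev8c (smul c p) x = (c : ℝ) * ev8c p x := by
  induction p with
  | nil => simp [smul, ev8c]
  | cons a p ih =>
    simp only [smul, ev_cons, ih]
    push_cast
    ring

theorem ev_pmul (p q : List ℤ) (x : ℝ) : ev8c (pmul p q) x = ev8c p x * ev8c q x := by
  induction p with
  | nil => simp [pmul, ev8c]
  | cons a p ih =>
    simp only [pmul, ev_padd, ev_smul, ev_cons, ih]
    push_cast
    ring

theorem ev_stepA (a c : ℤ) (q : List ℤ) (x : ℝ) :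
    ev8c (stepA a c q) x = (c : ℝ) + (x + a) * ev8c q x := by
  induction q generalizing c with
  | nil => simp [stepA, ev8c]
  | cons d q ih =>
    simp only [stepA, ev_cons, ih]
    push_cast
    ring

theorem ev_pshift (a : ℤ) (p : List ℤ) (x : ℝ) : ev8c (pshift a p) x = ev8c p (x + a) := by
  induction p with
  | nil => rfl
  | cons c p ih =>
    rw [pshift, ev_stepA, ih, ev_cons]

theorem lb_le (p : List ℤ) (h : ℤ) (u : ℝ) (h0 : 0 ≤ u) (h1 : u ≤ h) :
    ((lb p h : ℤ) : ℝ) ≤ ev8c p u := by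
  induction p with
  | nil => simp [lb, ev8c]
  | cons c p ih =>
    rw [lb, ev_cons]
    push_cast
    have h2 : min (0 : ℝ) ((h : ℝ) * (lb p h : ℝ)) ≤ u * ev8c p u := by
      rcases le_total 0 (lb p h) with h3 | h3
      · have h3' : (0 : ℝ) ≤ (lb p h : ℝ) := by exact_mod_cast h3
        exact (min_le_left _ _).trans (mul_nonneg h0 (h3'.trans ih))
      · have h3' : (lb p h : ℝ) ≤ 0 := by exact_mod_cast h3
        calc min (0 : ℝ) ((h : ℝ) * (lb p h : ℝ)) ≤ (h : ℝ) * (lb p h : ℝ) := min_le_right _ _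
          _ ≤ u * (lb p h : ℝ) := mul_le_mul_of_nonpos_right h1 h3'
          _ ≤ u * ev8c p u := mul_le_mul_of_nonneg_left ih h0
    linarith

theorem cov_sound (hs : List ℤ) : ∀ (p : List ℤ), cov p hs = true → ∀ u : ℝ, 0 < u →
    u ≤ ((hs.sum : ℤ) : ℝ) → 0 ≤ ev8c p u := by
  induction hs with
  | nil =>
    intro p _ u h0 h1
    simp only [List.sum_nil, Int.cast_zero] at h1
    exact absurd h0 (not_lt.2 h1)
  | cons h hs ih =>
    intro p hc u h0 h1
    simp only [cov, Bool.and_eq_true, decide_eq_true_eq] at hc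
    rcases le_total u (h : ℝ) with h2 | h2
    · have h3 := lb_le p h u h0.le h2
      have h4 : (0 : ℝ) ≤ (lb p h : ℝ) := by exact_mod_cast hc.1
      exact h4.trans h3
    · rcases h2.eq_or_lt with h2 | h2
      · have h3 := lb_le p h u h0.le h2.symm.le
        have h4 : (0 : ℝ) ≤ (lb p h : ℝ) := by exact_mod_cast hc.1
        exact h4.trans h3
      · have h3 := ih (pshift h p) hc.2 (u - h) (by linarith) (by
          rw [List.sum_cons] at h1
          push_cast at h1 ⊢
          linarith)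
        rw [ev_pshift, sub_add_cancel] at h3
        exact h3

theorem ev_HP (sg : ℤ) (q : List ℤ) (D : ℤ) (s : ℝ) : ev8c (HP sg q D) s =
    (sg : ℝ) * ((D : ℝ) * (21 * 708874905227207 * ((ev8c aL s - ev8c bL s) * ev8c mL s) +
      708874905227207 ^ 2 * ev8c bL s ^ 2) - 441 * (ev8c (dl 4 q) s * ev8c mL s ^ 2)) -
      (D : ℝ) * 10 ^ 21 * 51090942171709440000 ^ 2 := by
  simp only [HP, ev_padd, ev_smul, ev_pmul, ev_cons, ev_nil]
  push_cast
  ring

theorem hasDerivAt_ev (p : List ℤ) (n : ℕ) (t : ℝ) :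
    HasDerivAt (fun t : ℝ => t ^ (n + 1) * ev8c p (t ^ 2)) (t ^ n * ev8c (dl (n + 1) p) (t ^ 2)) t := by
  induction p generalizing n with
  | nil =>
    simp only [ev8c, dl, mul_zero]
    exact hasDerivAt_const t 0
  | cons c p ih =>
    have h1 := ih (n + 2)
    have h2 := ((hasDerivAt_id t).pow (n + 1)).mul_const (c : ℝ)
    have h3 := h2.add h1
    refine (h3.congr_of_eventuallyEq (Filter.Eventually.of_forall fun x => ?_)).congr_deriv ?_
    · simp only [ev_cons, Pi.add_apply, Pi.pow_apply, id]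
      ring
    · simp only [dl, ev_cons, id]
      push_cast
      have : ((n : ℤ) + 2 + 1) = (n : ℤ) + 1 + 2 := by ring
      rw [this]
      simp
      ring

/-- Taylor polynomials -/
def Cn (n : ℕ) (t : ℝ) : ℝ := ∑ k ∈ Finset.range n, (-1) ^ k * t ^ (2 * k) / ((2 * k).factorial : ℝ)
def Sn (n : ℕ) (t : ℝ) : ℝ :=
  ∑ k ∈ Finset.range n, (-1) ^ k * t ^ (2 * k + 1) / ((2 * k + 1).factorial : ℝ)

theorem hasDerivAt_Sn (n : ℕ) (t : ℝ) : HasDerivAt (Sn n) (Cn n t) t := by
  unfold Sn Cn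
  apply HasDerivAt.fun_sum
  intro k _
  have h := ((hasDerivAt_pow (2 * k + 1) t).const_mul ((-1 : ℝ) ^ k)).div_const
    ((2 * k + 1).factorial : ℝ)
  refine h.congr_deriv ?_
  rw [Nat.factorial_succ]
  push_cast
  field_simp

theorem hasDerivAt_Cn (n : ℕ) (t : ℝ) : HasDerivAt (Cn (n + 1)) (-Sn n t) t := by
  have h0 : Cn (n + 1) = fun t : ℝ => (∑ k ∈ Finset.range n,
      (-1) ^ (k + 1) * t ^ (2 * (k + 1)) / ((2 * (k + 1)).factorial : ℝ)) + 1 := by
    funext x
    unfold Cn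
    rw [Finset.sum_range_succ']
    simp
  rw [h0]
  unfold Sn
  rw [← Finset.sum_neg_distrib]
  apply HasDerivAt.add_const
  apply HasDerivAt.fun_sum
  intro k _
  have h := ((hasDerivAt_pow (2 * (k + 1)) t).const_mul ((-1 : ℝ) ^ (k + 1))).div_const
    ((2 * (k + 1)).factorial : ℝ)
  refine h.congr_deriv ?_
  have e1 : 2 * (k + 1) = (2 * k + 1) + 1 := by ring
  rw [e1, Nat.factorial_succ]
  push_cast
  rw [pow_succ]
  field_simp

theorem mono_nonneg (f f' : ℝ → ℝ) (h0 : f 0 = 0) (hf : ∀ t, HasDerivAt f (f' t) t)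
    (h : ∀ t, 0 ≤ t → 0 ≤ f' t) (t : ℝ) (ht : 0 ≤ t) : 0 ≤ f t := by
  have hm : MonotoneOn f (Set.Ici 0) := by
    apply monotoneOn_of_deriv_nonneg (convex_Ici 0)
    · exact fun x _ => (hf x).continuousAt.continuousWithinAt
    · exact fun x _ => (hf x).differentiableAt.differentiableWithinAt
    · intro x hx
      rw [(hf x).deriv]
      rw [interior_Ici] at hx
      exact h x (le_of_lt hx)
  have := hm (Set.mem_Ici.2 le_rfl) (Set.mem_Ici.2 ht) ht
  rwa [h0] at this

theorem taylor_sc (n : ℕ) : (∀ t : ℝ, 0 ≤ t → 0 ≤ (-1) ^ (n + 1) * (Real.cos t - Cn (n + 1) t)) ∧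
    (∀ t : ℝ, 0 ≤ t → 0 ≤ (-1) ^ (n + 1) * (Real.sin t - Sn (n + 1) t)) := by
  have step : ∀ n : ℕ, (∀ t : ℝ, 0 ≤ t → 0 ≤ (-1) ^ (n + 1) * (Real.cos t - Cn (n + 1) t)) →
      (∀ t : ℝ, 0 ≤ t → 0 ≤ (-1) ^ (n + 1) * (Real.sin t - Sn (n + 1) t)) := by
    intro n hn t ht
    refine mono_nonneg (fun t => (-1) ^ (n + 1) * (Real.sin t - Sn (n + 1) t))
      (fun t => (-1) ^ (n + 1) * (Real.cos t - Cn (n + 1) t)) ?_ ?_ hn t ht
    · simp [Sn]
    · intro x
      exact ((Real.hasDerivAt_sin x).sub (hasDerivAt_Sn (n + 1) x)).const_mul _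
  induction n with
  | zero =>
    have h : ∀ t : ℝ, 0 ≤ t → 0 ≤ (-1) ^ (0 + 1) * (Real.cos t - Cn (0 + 1) t) := by
      intro t _
      have := Real.cos_le_one t
      simp [Cn]
      linarith
    exact ⟨h, step 0 h⟩
  | succ n ih =>
    have h : ∀ t : ℝ, 0 ≤ t → 0 ≤ (-1) ^ (n + 1 + 1) * (Real.cos t - Cn (n + 1 + 1) t) := by
      intro t ht
      refine mono_nonneg (fun t => (-1) ^ (n + 1 + 1) * (Real.cos t - Cn (n + 1 + 1) t))
        (fun t => (-1) ^ (n + 1) * (Real.sin t - Sn (n + 1) t)) ?_ ?_ ih.2 t ht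
      · simp only [Real.cos_zero]
        have : Cn (n + 1 + 1) 0 = 1 := by
          unfold Cn
          rw [Finset.sum_range_succ']
          simp
        rw [this]
        ring
      · intro x
        have := ((Real.hasDerivAt_cos x).sub (hasDerivAt_Cn (n + 1) x)).const_mul
          ((-1 : ℝ) ^ (n + 1 + 1))
        refine this.congr_deriv ?_
        rw [pow_succ ((-1 : ℝ)) (n + 1)]
        ring
    exact ⟨h, step (n + 1) h⟩

theorem D_eq (t : ℝ) : (∫ x in (-1 : ℝ)..1, w x * x * Real.sin (t * x)) / m0 =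
    t * phi t - cc * Real.sin t := by
  have hw : ∀ x : ℝ, HasDerivAt w (-x * w x) x := by
    intro x
    have h1 : HasDerivAt (fun x : ℝ => -(x ^ 2) / 2) (-x) x := by
      have := ((hasDerivAt_pow 2 x).neg).div_const 2
      refine this.congr_deriv ?_
      norm_num
      ring
    have h2 := h1.exp
    refine h2.congr_deriv ?_
    unfold w
    ring
  have hwc : Continuous w := by unfold w; fun_prop
  have hF : ∀ x ∈ Set.uIcc (-1 : ℝ) 1, HasDerivAt (fun x => -(w x * Real.sin (t * x)))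
      (w x * x * Real.sin (t * x) - t * (w x * Real.cos (t * x))) x := by
    intro x _
    have h1 : HasDerivAt (fun x : ℝ => t * x) t x := by
      have := (hasDerivAt_id x).const_mul t
      simpa using this
    have h2 := ((hw x).mul h1.sin).neg
    refine h2.congr_deriv ?_
    ring
  have hi1 : IntervalIntegrable (fun x => w x * x * Real.sin (t * x)) volume (-1) 1 := by
    apply Continuous.intervalIntegrable; fun_prop
  have hi2 : IntervalIntegrable (fun x => t * (w x * Real.cos (t * x))) volume (-1) 1 := by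
    apply Continuous.intervalIntegrable; fun_prop
  have h1 := intervalIntegral.integral_eq_sub_of_hasDerivAt hF (hi1.sub hi2)
  rw [intervalIntegral.integral_sub hi1 hi2, intervalIntegral.integral_const_mul] at h1
  have hw1 : w 1 = Real.exp (-(1 / 2)) := by unfold w; norm_num
  have hw2 : w (-1) = Real.exp (-(1 / 2)) := by unfold w; norm_num
  rw [hw1, hw2] at h1
  have h2 : ∫ x in (-1 : ℝ)..1, w x * x * Real.sin (t * x) =
      t * (∫ x in (-1 : ℝ)..1, w x * Real.cos (t * x)) -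
        2 * Real.exp (-(1 / 2)) * Real.sin t := by
    have h3 : Real.sin (t * -1) = -Real.sin t := by rw [mul_neg_one, Real.sin_neg]
    rw [h3, mul_one] at h1
    linarith
  rw [h2]
  unfold phi cc
  ring

theorem H_close (a b p c a' b' p' c' κ e : ℝ) (ha : |a| ≤ 2) (hb : |b| ≤ 2) (hp : |p| ≤ 2)
    (ha' : |a'| ≤ 2) (hb' : |b'| ≤ 2) (hp' : |p'| ≤ 2) (hc' : |c'| ≤ 2)
    (hc : |c| ≤ 2) (da : |a - a'| ≤ e) (db : |b - b'| ≤ e) (dp : |p - p'| ≤ e)
    (dc : |c - c'| ≤ e) (k0 : 0 ≤ κ) (k1 : κ ≤ 1) :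
    |(c * ((a - b) * p + c * b ^ 2) - κ * p ^ 2) -
      (c' * ((a' - b') * p' + c' * b' ^ 2) - κ * p' ^ 2)| ≤ 60 * e := by
  have he : 0 ≤ e := (abs_nonneg _).trans da
  have t1 : |(c - c') * (a - b) * p| ≤ e * 4 * 2 := by
    rw [abs_mul, abs_mul]
    have : |a - b| ≤ 4 := (abs_sub _ _).trans (by linarith)
    exact mul_le_mul (mul_le_mul dc this (abs_nonneg _) he) hp (abs_nonneg _) (by positivity)
  have t2 : |c' * ((a - a') - (b - b')) * p| ≤ 2 * (2 * e) * 2 := by
    rw [abs_mul, abs_mul]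
    have : |(a - a') - (b - b')| ≤ 2 * e := (abs_sub _ _).trans (by linarith)
    exact mul_le_mul (mul_le_mul hc' this (abs_nonneg _) (by norm_num)) hp (abs_nonneg _)
      (by positivity)
  have t3 : |c' * (a' - b') * (p - p')| ≤ 2 * 4 * e := by
    rw [abs_mul, abs_mul]
    have : |a' - b'| ≤ 4 := (abs_sub _ _).trans (by linarith)
    exact mul_le_mul (mul_le_mul hc' this (abs_nonneg _) (by norm_num)) dp (abs_nonneg _)
      (by norm_num)
  have t4 : |(c * b - c' * b') * (c * b + c' * b')| ≤ (4 * e) * 8 := by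
    rw [abs_mul]
    have h1 : |c * b - c' * b'| ≤ 4 * e := by
      have : c * b - c' * b' = (c - c') * b + c' * (b - b') := by ring
      rw [this]
      refine (abs_add_le _ _).trans ?_
      rw [abs_mul, abs_mul]
      have q1 : |c - c'| * |b| ≤ e * 2 := mul_le_mul dc hb (abs_nonneg _) he
      have q2 : |c'| * |b - b'| ≤ 2 * e := mul_le_mul hc' db (abs_nonneg _) (by norm_num)
      linarith
    have h2 : |c * b + c' * b'| ≤ 8 := by
      refine (abs_add_le _ _).trans ?_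
      rw [abs_mul, abs_mul]
      have q1 : |c| * |b| ≤ 2 * 2 := mul_le_mul hc hb (abs_nonneg _) (by norm_num)
      have q2 : |c'| * |b'| ≤ 2 * 2 := mul_le_mul hc' hb' (abs_nonneg _) (by norm_num)
      linarith
    exact mul_le_mul h1 h2 (abs_nonneg _) (by positivity)
  have t5 : |κ * (p - p') * (p + p')| ≤ 1 * e * 4 := by
    rw [abs_mul, abs_mul]
    have h1 : |κ| ≤ 1 := by rw [abs_of_nonneg k0]; exact k1
    have h2 : |p + p'| ≤ 4 := (abs_add_le _ _).trans (by linarith)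
    exact mul_le_mul (mul_le_mul h1 dp (abs_nonneg _) (by norm_num)) h2 (abs_nonneg _)
      (by positivity)
  have hid : (c * ((a - b) * p + c * b ^ 2) - κ * p ^ 2) -
      (c' * ((a' - b') * p' + c' * b' ^ 2) - κ * p' ^ 2) =
      (c - c') * (a - b) * p + c' * ((a - a') - (b - b')) * p + c' * (a' - b') * (p - p') +
      (c * b - c' * b') * (c * b + c' * b') - κ * (p - p') * (p + p') := by ring
  rw [hid]
  rw [abs_le] at t1 t2 t3 t4 t5 ⊢
  constructor <;> linarith [t1.1, t1.2, t2.1, t2.2, t3.1, t3.2, t4.1, t4.2, t5.1, t5.2]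

/-- the constant `21!` -/
def FF : ℝ := 51090942171709440000

theorem FF_pos : 0 < FF := by unfold FF; norm_num

theorem Sn11 (t : ℝ) : Sn 11 t = t * (ev8c bL (t ^ 2) / FF) := by
  simp only [Sn, Finset.sum_range_succ, Finset.sum_range_zero, bL, ev8c, FF]
  norm_num [Nat.factorial]
  ring

theorem Sn12 (t : ℝ) : Sn 12 t = Sn 11 t - t ^ 23 / 25852016738884976640000 := by
  unfold Sn
  rw [Finset.sum_range_succ]
  norm_num [Nat.factorial]
  ring

theorem Cn12 (t : ℝ) : Cn 12 t = Cn 11 t - t ^ 22 / 1124000727777607680000 := by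
  unfold Cn
  rw [Finset.sum_range_succ]
  norm_num [Nat.factorial]
  ring

theorem SC11 (t : ℝ) : Sn 11 t - t * Cn 11 t = t ^ 3 * (ev8c aL (t ^ 2) / FF) := by
  simp only [Sn, Cn, Finset.sum_range_succ, Finset.sum_range_zero, aL, ev8c, FF]
  norm_num [Nat.factorial]
  ring

/-- enclosure of `b = sin t / t` and `a = (sin t - t cos t) / t³` -/
theorem encl_ab (t : ℝ) (h0 : 0 < t) (h3 : t ≤ 3) :
    |Real.sin t / t - ev8c bL (t ^ 2) / FF| ≤ 1 / 10 ^ 11 ∧
    |(Real.sin t - t * Real.cos t) / t ^ 3 - ev8c aL (t ^ 2) / FF| ≤ 1 / 10 ^ 11 := by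
  have s1 := (taylor_sc 10).2 t h0.le
  have s2 := (taylor_sc 11).2 t h0.le
  have c1 := (taylor_sc 10).1 t h0.le
  have c2 := (taylor_sc 11).1 t h0.le
  norm_num at s1 s2 c1 c2
  rw [Sn12] at s2
  rw [Cn12] at c2
  have e1 := Sn11 t
  have e2 := SC11 t
  have p20 : t ^ 20 ≤ 3 ^ 20 := pow_le_pow_left₀ h0.le h3 20
  have p22 : t ^ 22 ≤ 3 ^ 22 := pow_le_pow_left₀ h0.le h3 22
  constructor
  · have q1 : Real.sin t / t ≤ ev8c bL (t ^ 2) / FF := by
      rw [div_le_iff₀ h0]
      linarith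
    have q2 : ev8c bL (t ^ 2) / FF - t ^ 22 / 25852016738884976640000 ≤ Real.sin t / t := by
      rw [le_div_iff₀ h0]
      have : (ev8c bL (t ^ 2) / FF - t ^ 22 / 25852016738884976640000) * t =
          Sn 11 t - t ^ 23 / 25852016738884976640000 := by rw [e1]; ring
      rw [this]
      linarith
    rw [abs_le]
    constructor
    · have : t ^ 22 / 25852016738884976640000 ≤ 1 / 10 ^ 11 := by
        rw [div_le_div_iff₀ (by norm_num) (by norm_num)]
        linarith
      linarith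
    · have : (0 : ℝ) < 1 / 10 ^ 11 := by norm_num
      linarith
  · have t3 : 0 < t ^ 3 := by positivity
    have q1 : (Real.sin t - t * Real.cos t) / t ^ 3 ≤
        ev8c aL (t ^ 2) / FF + t ^ 20 / 1124000727777607680000 := by
      rw [div_le_iff₀ t3]
      have : (ev8c aL (t ^ 2) / FF + t ^ 20 / 1124000727777607680000) * t ^ 3 =
          Sn 11 t - t * Cn 11 t + t * (t ^ 22 / 1124000727777607680000) := by rw [e2]; ring
      rw [this]
      have := mul_le_mul_of_nonneg_left c2 h0.le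
      nlinarith
    have q2 : ev8c aL (t ^ 2) / FF - t ^ 20 / 25852016738884976640000 ≤
        (Real.sin t - t * Real.cos t) / t ^ 3 := by
      rw [le_div_iff₀ t3]
      have : (ev8c aL (t ^ 2) / FF - t ^ 20 / 25852016738884976640000) * t ^ 3 =
          Sn 11 t - t * Cn 11 t - t ^ 23 / 25852016738884976640000 := by
        rw [e2]; ring
      rw [this]
      have := mul_le_mul_of_nonneg_left c1 h0.le
      nlinarith
    rw [abs_le]
    constructor
    · have : t ^ 20 / 25852016738884976640000 ≤ 1 / 10 ^ 11 := by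
        rw [div_le_div_iff₀ (by norm_num) (by norm_num)]
        linarith
      linarith
    · have : t ^ 20 / 1124000727777607680000 ≤ 1 / 10 ^ 11 := by
        rw [div_le_div_iff₀ (by norm_num) (by norm_num)]
        linarith
      linarith

theorem moms : mom 0 = 1 ∧ mom 1 = 1 - cc ∧ mom 2 = 3 - 4 * cc ∧ mom 3 = 15 - 21 * cc ∧
    mom 4 = 105 - 148 * cc ∧ mom 5 = 945 - 1333 * cc ∧ mom 6 = 10395 - 14664 * cc ∧
    mom 7 = 135135 - 190633 * cc ∧ mom 8 = 2027025 - 2859496 * cc ∧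
    mom 9 = 34459425 - 48611433 * cc ∧ mom 10 = 654729075 - 923617228 * cc ∧
    mom 11 = 13749310575 - 19395961789 * cc := by
  have m0 : mom 0 = 1 := rfl
  have st : ∀ k : ℕ, mom (k + 1) = (2 * (k : ℝ) + 1) * mom k - cc := fun k => rfl
  have m1 : mom 1 = 1 - cc := by rw [st 0, m0]; push_cast; ring
  have m2 : mom 2 = 3 - 4 * cc := by rw [st 1, m1]; push_cast; ring
  have m3 : mom 3 = 15 - 21 * cc := by rw [st 2, m2]; push_cast; ring
  have m4 : mom 4 = 105 - 148 * cc := by rw [st 3, m3]; push_cast; ring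
  have m5 : mom 5 = 945 - 1333 * cc := by rw [st 4, m4]; push_cast; ring
  have m6 : mom 6 = 10395 - 14664 * cc := by rw [st 5, m5]; push_cast; ring
  have m7 : mom 7 = 135135 - 190633 * cc := by rw [st 6, m6]; push_cast; ring
  have m8 : mom 8 = 2027025 - 2859496 * cc := by rw [st 7, m7]; push_cast; ring
  have m9 : mom 9 = 34459425 - 48611433 * cc := by rw [st 8, m8]; push_cast; ring
  have m10 : mom 10 = 654729075 - 923617228 * cc := by rw [st 9, m9]; push_cast; ring
  have m11 : mom 11 = 13749310575 - 19395961789 * cc := by rw [st 10, m10]; push_cast; ring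
  exact ⟨m0, m1, m2, m3, m4, m5, m6, m7, m8, m9, m10, m11⟩

/-- the approximate value of `cc` -/
def c0 : ℝ := 708874905227207 / 10 ^ 15

/-- the approximation of `phi` -/
def mm (s : ℝ) : ℝ := 21 * ev8c mL s / (10 ^ 15 * FF)

theorem sum11 (t : ℝ) : ∑ k ∈ Finset.range (2 * 5 + 1),
    (-1) ^ k * mom k * t ^ (2 * k) / (2 * k).factorial =
    mm (t ^ 2) - (cc - c0) * (ev8c rL (t ^ 2) / 2432902008176640000) := by
  obtain ⟨m0, m1, m2, m3, m4, m5, m6, m7, m8, m9, m10, -⟩ := moms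
  simp only [Finset.sum_range_succ, Finset.sum_range_zero, m0, m1, m2, m3, m4, m5, m6, m7, m8, m9,
    m10, mm, mL, rL, ev8c, FF, c0, Nat.reduceMul, Nat.reduceAdd]
  norm_num [Nat.factorial]
  ring

theorem sum12 (t : ℝ) : ∑ k ∈ Finset.range (2 * 5 + 2),
    (-1) ^ k * mom k * t ^ (2 * k) / (2 * k).factorial =
    mm (t ^ 2) - (cc - c0) * (ev8c rL (t ^ 2) / 2432902008176640000) -
      (13749310575 - 19395961789 * cc) * (t ^ 22 / 1124000727777607680000) := by
  have h : ∑ k ∈ Finset.range (2 * 5 + 2),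
      (-1) ^ k * mom k * t ^ (2 * k) / ((2 * k).factorial : ℝ) =
      ∑ k ∈ Finset.range (2 * 5 + 1), (-1) ^ k * mom k * t ^ (2 * k) / ((2 * k).factorial : ℝ) +
      (-1) ^ 11 * mom 11 * t ^ (2 * 11) / ((2 * 11).factorial : ℝ) :=
    Finset.sum_range_succ _ _
  rw [h, sum11, moms.2.2.2.2.2.2.2.2.2.2.2]
  norm_num [Nat.factorial]
  ring

theorem covr1 : cov (padd [200 * 2432902008176640000] rL) [9] = true := by decide +kernel
theorem covr2 : cov (padd [200 * 2432902008176640000] (smul (-1) rL)) [9] = true := by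
  decide +kernel
theorem covm1 : cov (padd [3 * 1000000000000000 * 51090942171709440000] (smul 42 mL)) [9] = true := by
  decide +kernel
theorem covm2 : cov (padd [3 * 1000000000000000 * 51090942171709440000] (smul (-42) mL)) [9] = true := by
  decide +kernel
theorem cova1 : cov (padd [3 * 51090942171709440000] (smul 2 aL)) [9] = true := by
  decide +kernel
theorem cova2 : cov (padd [3 * 51090942171709440000] (smul (-2) aL)) [9] = true := by
  decide +kernel
theorem covb1 : cov (padd [3 * 51090942171709440000] (smul 2 bL)) [9] = true := by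
  decide +kernel
theorem covb2 : cov (padd [3 * 51090942171709440000] (smul (-2) bL)) [9] = true := by
  decide +kernel

theorem cov_two (p : List ℤ) (A : ℤ) (m : ℤ) (s : ℝ) (h0 : 0 < s) (h9 : s ≤ 9)
    (h1 : cov (padd [A] (smul m p)) [9] = true) (h2 : cov (padd [A] (smul (-m) p)) [9] = true) :
    |(m : ℝ) * ev8c p s| ≤ A := by
  have e1 := cov_sound _ _ h1 s h0 (by simpa using h9)
  have e2 := cov_sound _ _ h2 s h0 (by simpa using h9)
  rw [ev_padd, ev_smul, ev_cons, ev_nil] at e1 e2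
  push_cast at e1 e2
  rw [abs_le]
  constructor <;> linarith

theorem encl_phi
    (hT1 : ∀ (K : ℕ) (t : ℝ), phi t ≤
      ∑ k ∈ Finset.range (2 * K + 1), (-1) ^ k * mom k * t ^ (2 * k) / (2 * k).factorial)
    (hT2 : ∀ (K : ℕ) (t : ℝ),
      ∑ k ∈ Finset.range (2 * K + 2), (-1) ^ k * mom k * t ^ (2 * k) / (2 * k).factorial ≤ phi t)
    (hc1 : (0.708874905227206 : ℝ) ≤ cc) (hc2 : cc ≤ (0.708874905227208 : ℝ))
    (t : ℝ) (h0 : 0 < t) (h3 : t ≤ 3) : |phi t - mm (t ^ 2)| ≤ 1 / 10 ^ 11 := by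
  have u := hT1 5 t
  have l := hT2 5 t
  rw [sum11] at u
  rw [sum12] at l
  have hs0 : 0 < t ^ 2 := by positivity
  have hs9 : t ^ 2 ≤ 9 := by nlinarith
  have hr := cov_two rL (200 * 2432902008176640000) 1 (t ^ 2) hs0 hs9 (by decide +kernel)
    (by decide +kernel)
  push_cast at hr
  rw [one_mul] at hr
  have hr' : |ev8c rL (t ^ 2) / 2432902008176640000| ≤ 200 := by
    rw [abs_div, abs_of_pos (by norm_num : (0 : ℝ) < 2432902008176640000),
      div_le_iff₀ (by norm_num)]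
    linarith
  have hd : |cc - c0| ≤ 1 / 10 ^ 14 := by
    unfold c0
    rw [abs_le]
    norm_num at hc1 hc2 ⊢
    constructor <;> linarith
  have hprod : |(cc - c0) * (ev8c rL (t ^ 2) / 2432902008176640000)| ≤ 1 / 10 ^ 14 * 200 := by
    rw [abs_mul]
    exact mul_le_mul hd hr' (abs_nonneg _) (by norm_num)
  have p22 : t ^ 22 ≤ 3 ^ 22 := pow_le_pow_left₀ h0.le h3 22
  have hm : (13749310575 - 19395961789 * cc) * (t ^ 22 / 1124000727777607680000) ≤
      1 / 10 * (3 ^ 22 / 1124000727777607680000) := by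
    apply mul_le_mul
    · norm_num at hc1 ⊢
      linarith
    · exact div_le_div_of_nonneg_right p22 (by norm_num)
    · positivity
    · norm_num
  rw [abs_le] at hprod ⊢
  constructor
  · norm_num at hm hprod ⊢
    linarith [hprod.1, hprod.2]
  · norm_num at hm hprod ⊢
    linarith [hprod.1, hprod.2]

/-- the numerator of the derivative -/
def al (t : ℝ) : ℝ := cc * ((Real.sin t - t * Real.cos t) / t ^ 3 - Real.sin t / t) * phi t +
  cc * (cc * (Real.sin t / t) ^ 2)

theorem core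
    (hT1 : ∀ (K : ℕ) (t : ℝ), phi t ≤
      ∑ k ∈ Finset.range (2 * K + 1), (-1) ^ k * mom k * t ^ (2 * k) / (2 * k).factorial)
    (hT2 : ∀ (K : ℕ) (t : ℝ),
      ∑ k ∈ Finset.range (2 * K + 2), (-1) ^ k * mom k * t ^ (2 * k) / (2 * k).factorial ≤ phi t)
    (hc1 : (0.708874905227206 : ℝ) ≤ cc) (hc2 : cc ≤ (0.708874905227208 : ℝ))
    (sg : ℤ) (hsg : sg = 1 ∨ sg = -1) (q : List ℤ) (D : ℤ) (hD : 0 < D) (hs : List ℤ)
    (hcov : cov (HP sg q D) hs = true) (t : ℝ) (h0 : 0 < t) (h3 : t ≤ 3)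
    (ht : t ^ 2 ≤ ((hs.sum : ℤ) : ℝ)) (k0 : 0 ≤ ev8c (dl 4 q) (t ^ 2) / D)
    (k1 : ev8c (dl 4 q) (t ^ 2) / D ≤ 1) :
    0 ≤ (sg : ℝ) * (al t - ev8c (dl 4 q) (t ^ 2) / D * phi t ^ 2) := by
  have hs0 : 0 < t ^ 2 := by positivity
  have hs9 : t ^ 2 ≤ 9 := by nlinarith
  have hD' : (0 : ℝ) < D := by exact_mod_cast hD
  obtain ⟨db, da⟩ := encl_ab t h0 h3
  have dp := encl_phi hT1 hT2 hc1 hc2 t h0 h3
  have ba := cov_two aL (3 * 51090942171709440000) 2 (t ^ 2) hs0 hs9 (by decide +kernel)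
    (by decide +kernel)
  have bb := cov_two bL (3 * 51090942171709440000) 2 (t ^ 2) hs0 hs9 (by decide +kernel)
    (by decide +kernel)
  have bm := cov_two mL (3 * 1000000000000000 * 51090942171709440000) 42 (t ^ 2) hs0 hs9
    (by decide +kernel) (by decide +kernel)
  have ba' : |ev8c aL (t ^ 2) / FF| ≤ 3 / 2 := by
    rw [abs_div, abs_of_pos FF_pos, div_le_iff₀ FF_pos]
    rw [abs_mul] at ba
    push_cast at ba
    unfold FF
    rw [abs_of_pos (by norm_num : (0 : ℝ) < 2)] at ba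
    linarith
  have bb' : |ev8c bL (t ^ 2) / FF| ≤ 3 / 2 := by
    rw [abs_div, abs_of_pos FF_pos, div_le_iff₀ FF_pos]
    rw [abs_mul] at bb
    push_cast at bb
    unfold FF
    rw [abs_of_pos (by norm_num : (0 : ℝ) < 2)] at bb
    linarith
  have bm' : |mm (t ^ 2)| ≤ 3 / 2 := by
    unfold mm
    have hp : (0 : ℝ) < 10 ^ 15 * FF := by have := FF_pos; positivity
    rw [abs_div, abs_of_pos hp, div_le_iff₀ hp, abs_mul]
    rw [abs_mul] at bm
    push_cast at bm
    unfold FF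
    rw [abs_of_pos (by norm_num : (0 : ℝ) < 42)] at bm
    rw [abs_of_pos (by norm_num : (0 : ℝ) < 21)]
    norm_num at bm ⊢
    linarith
  have aux : ∀ x y : ℝ, |y| ≤ 3 / 2 → |x - y| ≤ 1 / 10 ^ 11 → |x| ≤ 2 := by
    intro x y hy hxy
    have := abs_sub_abs_le_abs_sub x y
    norm_num at hxy ⊢
    linarith
  have dc : |cc - c0| ≤ 1 / 10 ^ 11 := by
    unfold c0
    rw [abs_le]
    norm_num at hc1 hc2 ⊢
    constructor <;> linarith
  have bc : |c0| ≤ 3 / 2 := by
    unfold c0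
    rw [abs_le]
    norm_num
  have H := H_close _ _ _ cc _ _ _ c0 (ev8c (dl 4 q) (t ^ 2) / D) (1 / 10 ^ 11)
    (aux _ _ ba' da) (aux _ _ bb' db) (aux _ _ bm' dp) (ba'.trans (by norm_num))
    (bb'.trans (by norm_num)) (bm'.trans (by norm_num)) (bc.trans (by norm_num)) (aux _ _ bc dc)
    da db dp dc k0 k1
  have e1 := cov_sound _ _ hcov (t ^ 2) hs0 ht
  rw [ev_HP] at e1
  have hF := FF_pos
  have hid : (sg : ℝ) * ((D : ℝ) * (21 * 708874905227207 *
      ((ev8c aL (t ^ 2) - ev8c bL (t ^ 2)) * ev8c mL (t ^ 2)) +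
      708874905227207 ^ 2 * ev8c bL (t ^ 2) ^ 2) -
      441 * (ev8c (dl 4 q) (t ^ 2) * ev8c mL (t ^ 2) ^ 2)) =
      ((D : ℝ) * 10 ^ 30 * FF ^ 2) * ((sg : ℝ) *
      (c0 * ((ev8c aL (t ^ 2) / FF - ev8c bL (t ^ 2) / FF) * mm (t ^ 2) +
        c0 * (ev8c bL (t ^ 2) / FF) ^ 2) - ev8c (dl 4 q) (t ^ 2) / D * mm (t ^ 2) ^ 2)) := by
    unfold mm c0
    field_simp
    ring
  rw [hid] at e1
  have hid2 : (D : ℝ) * 10 ^ 21 * 51090942171709440000 ^ 2 =
      ((D : ℝ) * 10 ^ 30 * FF ^ 2) * (1 / 10 ^ 9) := by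
    unfold FF
    ring
  rw [hid2, ← mul_sub] at e1
  have hpos : 0 < (D : ℝ) * 10 ^ 30 * FF ^ 2 := by positivity
  have e2 := nonneg_of_mul_nonneg_right e1 hpos
  have hal : al t = cc * (((Real.sin t - t * Real.cos t) / t ^ 3 - Real.sin t / t) * phi t +
      cc * (Real.sin t / t) ^ 2) := by
    unfold al
    ring
  rw [hal]
  rw [abs_le] at H
  rcases hsg with rfl | rfl
  · push_cast at e2 ⊢
    norm_num at e2 H ⊢
    linarith [H.1, H.2]
  · push_cast at e2 ⊢
    norm_num at e2 H ⊢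
    linarith [H.1, H.2]

/-- `t l'(t) - 2 l(t)` -/
def Nf (t : ℝ) : ℝ := t ^ 2 - cc * (t * Real.sin t) / phi t + 2 * Real.log (phi t)

theorem Nf_deriv (t : ℝ) (h0 : 0 < t) (hp : 0 < phi t)
    (hd : HasDerivAt phi (-(t * phi t - cc * Real.sin t)) t) :
    HasDerivAt Nf (t ^ 3 * al t / phi t ^ 2) t := by
  have h1 : HasDerivAt (fun t : ℝ => t ^ 2) (2 * t) t := by
    refine (hasDerivAt_pow 2 t).congr_deriv ?_
    norm_num
  have h2 : HasDerivAt (fun t : ℝ => t * Real.sin t) (1 * Real.sin t + t * Real.cos t) t :=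
    (hasDerivAt_id t).mul (Real.hasDerivAt_sin t)
  have h3 := (h2.const_mul cc).div hd hp.ne'
  have h4 := (hd.log hp.ne').const_mul 2
  have h5 := (h1.sub h3).add h4
  refine h5.congr_deriv ?_
  unfold al
  have hp' := hp.ne'
  have h0' := h0.ne'
  field_simp
  ring

/-- comparison -/
theorem compare (f f' : ℝ → ℝ) (T : ℝ) (hc : ContinuousOn f (Set.Icc 0 T)) (h0 : f 0 = 0)
    (hf : ∀ t, 0 < t → t < T → HasDerivAt f (f' t) t)
    (h : ∀ t, 0 < t → t < T → 0 ≤ f' t) (t : ℝ) (ht : 0 ≤ t) (htT : t ≤ T) : 0 ≤ f t := by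
  have hm : MonotoneOn f (Set.Icc 0 T) := by
    apply monotoneOn_of_deriv_nonneg (convex_Icc 0 T) hc
    · intro x hx
      rw [interior_Icc] at hx
      exact (hf x hx.1 hx.2).differentiableAt.differentiableWithinAt
    · intro x hx
      rw [interior_Icc] at hx
      rw [(hf x hx.1 hx.2).deriv]
      exact h x hx.1 hx.2
  have := hm (Set.mem_Icc.2 ⟨le_rfl, ht.trans htT⟩) (Set.mem_Icc.2 ⟨ht, htT⟩) ht
  rwa [h0] at this

theorem Nf_compare
    (hz : phi 0 = 1)
    (hd : ∀ t : ℝ, HasDerivAt phi (-(∫ x in (-1 : ℝ)..1, w x * x * Real.sin (t * x)) / m0) t)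
    (hT1 : ∀ (K : ℕ) (t : ℝ), phi t ≤
      ∑ k ∈ Finset.range (2 * K + 1), (-1) ^ k * mom k * t ^ (2 * k) / (2 * k).factorial)
    (hT2 : ∀ (K : ℕ) (t : ℝ),
      ∑ k ∈ Finset.range (2 * K + 2), (-1) ^ k * mom k * t ^ (2 * k) / (2 * k).factorial ≤ phi t)
    (hc1 : (0.708874905227206 : ℝ) ≤ cc) (hc2 : cc ≤ (0.708874905227208 : ℝ))
    (hpos : ∀ t : ℝ, 0 ≤ t → t ≤ 69 / 20 → 0 < phi t)
    (sg : ℤ) (hsg : sg = 1 ∨ sg = -1) (q : List ℤ) (D : ℤ) (hD : 0 < D) (hs : List ℤ)
    (hcov : cov (HP sg q D) hs = true) (T : ℝ) (hT3 : T ≤ 3) 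
    (hT : T ^ 2 ≤ ((hs.sum : ℤ) : ℝ)) (k0 : ∀ s : ℝ, 0 < s → s ≤ 9 → 0 ≤ ev8c (dl 4 q) s)
    (k1 : ∀ s : ℝ, 0 < s → s ≤ 9 → ev8c (dl 4 q) s ≤ D) (t : ℝ) (ht : 0 ≤ t) (htT : t ≤ T) :
    0 ≤ (sg : ℝ) * (Nf t - t ^ 4 * ev8c q (t ^ 2) / D) := by
  have hD' : (0 : ℝ) < D := by exact_mod_cast hD
  have hd' : ∀ t : ℝ, HasDerivAt phi (-(t * phi t - cc * Real.sin t)) t := by
    intro t
    have := hd t
    rw [neg_div, D_eq] at this
    exact this
  have hphic : Continuous phi := continuous_iff_continuousAt.2 fun x => (hd x).continuousAt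
  refine compare (fun t => (sg : ℝ) * (Nf t - t ^ 4 * ev8c q (t ^ 2) / D))
    (fun t => (sg : ℝ) * (t ^ 3 * al t / phi t ^ 2 - t ^ 3 * ev8c (dl 4 q) (t ^ 2) / D)) T ?_ ?_ ?_ ?_
    t ht htT
  · apply ContinuousOn.mul continuousOn_const
    apply ContinuousOn.sub
    · unfold Nf
      have hne : ∀ x ∈ Set.Icc (0 : ℝ) T, phi x ≠ 0 := fun x hx =>
        (hpos x hx.1 (by linarith [hx.2])).ne'
      apply ContinuousOn.add
      · apply ContinuousOn.sub (by fun_prop)
        exact ContinuousOn.div (by fun_prop) hphic.continuousOn hne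
      · exact continuousOn_const.mul (hphic.continuousOn.log hne)
    · apply ContinuousOn.div_const
      intro x _
      exact (hasDerivAt_ev q 3 x).continuousAt.continuousWithinAt
  · simp [Nf, hz]
  · intro t h0 h1
    have hp : 0 < phi t := hpos t h0.le (by linarith)
    have e1 := Nf_deriv t h0 hp (hd' t)
    have e2 := (hasDerivAt_ev q 3 t).div_const (D : ℝ)
    exact (e1.sub e2).const_mul (sg : ℝ)
  · intro t h0 h1
    have hp : 0 < phi t := hpos t h0.le (by linarith)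
    have hs0 : 0 < t ^ 2 := by positivity
    have hs9 : t ^ 2 ≤ 9 := by nlinarith
    have c := core hT1 hT2 hc1 hc2 sg hsg q D hD hs hcov t h0 (by linarith)
      (le_trans (by nlinarith) hT) (div_nonneg (k0 _ hs0 hs9) hD'.le)
      (by rw [div_le_one hD']; exact k1 _ hs0 hs9)
    have hid : (sg : ℝ) * (t ^ 3 * al t / phi t ^ 2 - t ^ 3 * ev8c (dl 4 q) (t ^ 2) / D) =
        (t ^ 3 / phi t ^ 2) * ((sg : ℝ) * (al t - ev8c (dl 4 q) (t ^ 2) / D * phi t ^ 2)) := by
      have hp' := hp.ne'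
      have hD'' := hD'.ne'
      field_simp
    rw [hid]
    exact mul_nonneg (by positivity) c

theorem k1a : cov (padd [10 ^ 6] (smul (-1) (dl 4 q1))) [9] = true := by decide +kernel
theorem k1b : cov (dl 4 q1) [9] = true := by decide +kernel
theorem k2a : cov (padd [10 ^ 9] (smul (-1) (dl 4 q2))) [9] = true := by decide +kernel
theorem k2b : cov (dl 4 q2) [9] = true := by decide +kernel
theorem k3a : cov (padd [10 ^ 26] (smul (-1) (dl 4 q3))) [9] = true := by decide +kernel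
theorem k3b : cov (dl 4 q3) [9] = true := by decide +kernel

theorem kbounds (q : List ℤ) (D : ℤ) (ha : cov (padd [D] (smul (-1) (dl 4 q))) [9] = true)
    (hb : cov (dl 4 q) [9] = true) : (∀ s : ℝ, 0 < s → s ≤ 9 → 0 ≤ ev8c (dl 4 q) s) ∧
    (∀ s : ℝ, 0 < s → s ≤ 9 → ev8c (dl 4 q) s ≤ D) := by
  constructor
  · intro s h0 h9
    exact cov_sound _ _ hb s h0 (by simpa using h9)
  · intro s h0 h9
    have := cov_sound _ _ ha s h0 (by simpa using h9)
    rw [ev_padd, ev_smul, ev_cons, ev_nil] at this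
    push_cast at this
    linarith

/-- tail of `q3` -/
def q3t : List ℤ := q3.drop 5

theorem covt : cov (padd [17 * 10 ^ 18] (smul (-1) q3t)) [9] = true := by decide +kernel

theorem q3_le (t : ℝ) (h0 : 0 < t) (h3 : t ≤ 3) : t ^ 4 * ev8c q3 (t ^ 2) / (10 ^ 26 : ℤ) ≤
    74802 / 10000000 * t ^ 4 + 754 / 1000000 * t ^ 6 + 68 / 1000000 * t ^ 8
          + 592 / 100000000 * t ^ 10 + 51 / 100000000 * t ^ 12 + 17 / 100000000 * t ^ 14 := by
  have hs0 : 0 < t ^ 2 := by positivity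
  have hs9 : t ^ 2 ≤ 9 := by nlinarith
  have c := cov_sound _ _ covt (t ^ 2) hs0 (by simpa using hs9)
  rw [ev_padd, ev_smul, ev_cons, ev_nil] at c
  push_cast at c
  have h1 : t ^ 4 * ev8c q3 (t ^ 2) = 748020000000000000000000 * t ^ 4 +
      75400000000000000000000 * t ^ 6 + 6800000000000000000000 * t ^ 8 +
      592000000000000000000 * t ^ 10 + 51000000000000000000 * t ^ 12 +
      t ^ 14 * ev8c q3t (t ^ 2) := by
    have : ev8c q3 (t ^ 2) = 748020000000000000000000 + t ^ 2 * (75400000000000000000000 +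
      t ^ 2 * (6800000000000000000000 + t ^ 2 * (592000000000000000000 + t ^ 2 *
      (51000000000000000000 + t ^ 2 * ev8c q3t (t ^ 2))))) := by
      simp only [q3, q3t, List.drop, ev_cons]
      norm_num
    rw [this]
    ring
  rw [h1, div_le_iff₀ (by norm_num)]
  have h14 : 0 < t ^ 14 := by positivity
  push_cast
  nlinarith [mul_le_mul_of_nonneg_left (by linarith : ev8c q3t (t ^ 2) ≤ 17 * 10 ^ 18) h14.le]

/-- bounds for `t ℓ'(t) - 2 ℓ(t)`, `ℓ = -log phi` (multiplied by `phi`) -/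
theorem D1_bounds
    (hz : phi 0 = 1)
    (hd : ∀ t : ℝ, HasDerivAt phi (-(∫ x in (-1 : ℝ)..1, w x * x * Real.sin (t * x)) / m0) t)
    (hT1 : ∀ (K : ℕ) (t : ℝ), phi t ≤
      ∑ k ∈ Finset.range (2 * K + 1), (-1) ^ k * mom k * t ^ (2 * k) / (2 * k).factorial)
    (hT2 : ∀ (K : ℕ) (t : ℝ),
      ∑ k ∈ Finset.range (2 * K + 2), (-1) ^ k * mom k * t ^ (2 * k) / (2 * k).factorial ≤ phi t)
    (hD1 : ∀ (K : ℕ) (t : ℝ), 0 ≤ t →
      ∑ k ∈ Finset.range (2 * K + 2), (-1) ^ k * mom (k + 1) * t ^ (2 * k + 1) / (2 * k + 1).factorial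
        ≤ (∫ x in (-1 : ℝ)..1, w x * x * Real.sin (t * x)) / m0)
    (hD2 : ∀ (K : ℕ) (t : ℝ), 0 ≤ t →
      (∫ x in (-1 : ℝ)..1, w x * x * Real.sin (t * x)) / m0 ≤
      ∑ k ∈ Finset.range (2 * K + 1), (-1) ^ k * mom (k + 1) * t ^ (2 * k + 1) / (2 * k + 1).factorial)
    (hc1 : (0.708874905227206 : ℝ) ≤ cc) (hc2 : cc ≤ (0.708874905227208 : ℝ))
    (hpos : ∀ t : ℝ, 0 ≤ t → t ≤ 69 / 20 → 0 < phi t) :
    (∀ t : ℝ, 0 ≤ t → t ≤ 3 → 748 / 100000 * t ^ 4 * (1 + t ^ 2 / 10) * phi t ≤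
      t * ((∫ x in (-1 : ℝ)..1, w x * x * Real.sin (t * x)) / m0) + 2 * phi t * Real.log (phi t)) ∧
    (∀ t : ℝ, 0 ≤ t → t ≤ 83 / 100 →
      t * ((∫ x in (-1 : ℝ)..1, w x * x * Real.sin (t * x)) / m0) + 2 * phi t * Real.log (phi t) ≤
        74802 / 10000000 * t ^ 4 * (1 + 12 / 100 * t ^ 2) * phi t) ∧
    (∀ t : ℝ, 0 ≤ t → t ≤ 3 →
      t * ((∫ x in (-1 : ℝ)..1, w x * x * Real.sin (t * x)) / m0) + 2 * phi t * Real.log (phi t) ≤
        (74802 / 10000000 * t ^ 4 + 754 / 1000000 * t ^ 6 + 68 / 1000000 * t ^ 8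
          + 592 / 100000000 * t ^ 10 + 51 / 100000000 * t ^ 12 + 17 / 100000000 * t ^ 14) * phi t) := by
  have hN : ∀ t : ℝ, 0 ≤ t → t ≤ 3 →
      t * ((∫ x in (-1 : ℝ)..1, w x * x * Real.sin (t * x)) / m0) + 2 * phi t * Real.log (phi t) =
        Nf t * phi t := by
    intro t h0 h3
    have hp : phi t ≠ 0 := (hpos t h0 (by linarith)).ne'
    rw [D_eq]
    unfold Nf
    field_simp
  have kb1 := kbounds q1 (10 ^ 6) k1a k1b
  have kb2 := kbounds q2 (10 ^ 9) k2a k2b
  have kb3 := kbounds q3 (10 ^ 26) k3a k3b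
  refine ⟨?_, ?_, ?_⟩
  · intro t h0 h3
    have hp : 0 < phi t := hpos t h0 (by linarith)
    have c := Nf_compare hz hd hT1 hT2 hc1 hc2 hpos 1 (Or.inl rfl) q1 (10 ^ 6) (by norm_num)
      [4, 5] cov1 3 le_rfl (by norm_num) kb1.1 kb1.2 t h0 h3
    rw [hN t h0 h3]
    apply mul_le_mul_of_nonneg_right _ hp.le
    simp only [q1, ev_cons, ev_nil] at c
    push_cast at c
    norm_num at c
    nlinarith
  · intro t h0 h3
    have hp : 0 < phi t := hpos t h0 (by linarith)
    have c := Nf_compare hz hd hT1 hT2 hc1 hc2 hpos (-1) (Or.inr rfl) q2 (10 ^ 9) (by norm_num)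
      [1] cov2 (83 / 100) (by norm_num) (by norm_num) kb2.1 kb2.2 t h0 h3
    rw [hN t h0 (by linarith)]
    apply mul_le_mul_of_nonneg_right _ hp.le
    simp only [q2, ev_cons, ev_nil] at c
    push_cast at c
    norm_num at c
    nlinarith
  · intro t h0 h3
    have hp : 0 < phi t := hpos t h0 (by linarith)
    have c := Nf_compare hz hd hT1 hT2 hc1 hc2 hpos (-1) (Or.inr rfl) q3 (10 ^ 26) (by norm_num)
      [3, 4, 2] cov3 3 le_rfl (by norm_num) kb3.1 kb3.2 t h0 h3
    rw [hN t h0 h3]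
    apply mul_le_mul_of_nonneg_right _ hp.le
    rcases h0.eq_or_lt with h0 | h0
    · subst h0
      simp [Nf, hz]
    · have h1 := q3_le t h0 h3
      push_cast at c h1
      linarith

end
end CG3
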