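import Pool.Agent.CG3.Assem2
import Pool.Agent.CG3.J19
import Pool.Agent.CG3.J8c

open MeasureTheory ProbabilityTheory
open scoped BigOperators

namespace CG3
noncomputable section

def fD1 := D1_bounds phi_zero phi_deriv phi_le_taylor taylor_le_phi dphi_ge_taylor dphi_le_taylor
    cc_lo cc_hi fpos

def fNum := diag_numeric phi_cont phi_contDiff phi_neg phi_deriv phi_rpow_integrable phi_abs_le_one
    f3 fpos fR.1 fP fPB fD1.2.2 cc_lo cc_hi

theorem fdiag6 : ∀ n : ℕ, 6 ≤ n → 45411 / 10000 ≤ ∫ ξ : ℝ, phi (ξ / √n) ^ n := fNum.2.2.1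

theorem fdiag8 : ∀ n : ℕ, 8 ≤ n → 456 / 100 ≤ ∫ ξ : ℝ, phi (ξ / √n) ^ n := fNum.2.2.2

/-- the derivative of `Hs` at `1/6` -/
def l6 : ℝ := Real.log (√6 * Is 6) - 1 / 2
  - 6 * ((∫ t : ℝ, |phi t| ^ (6 : ℝ) * Real.log |phi t|) / Is 6)

theorem sqrt6_eq : ((1 / 6 : ℝ)) ^ (-(1 / 2) : ℝ) = √6 := by
  rw [Real.sqrt_eq_rpow, one_div, Real.inv_rpow (by norm_num), Real.rpow_neg (by norm_num), inv_inv]

theorem hd6 : HasDerivAt Hs l6 (1 / 6) := by
  have h := Hs_deriv phi_meas phi_abs_le_one phi_rpow_integrable Is_pos (1 / 6) (by norm_num)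
    (by norm_num)
  rw [sqrt6_eq] at h
  have e : (1 / (1 / 6) : ℝ) = 6 := by norm_num
  rw [e] at h
  unfold l6
  convert h using 1
  ring

theorem Hs_sixth : Hs (1 / 6) = 1 / 6 * Real.log (√6 * Is 6) := by
  unfold Hs
  rw [sqrt6_eq]
  norm_num

theorem h6line : ∀ u : ℝ, 10 / 49 ≤ u → u ≤ 36 / 100 → Hs u ≤ Hs (1 / 6) + l6 * (u - 1 / 6) := by
  intro u h1 h2
  have h3 := lineA6 u (by norm_num at h1 ⊢; linarith) (by norm_num at h2 ⊢; linarith)
  have hL := fNum.1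
  have hlam := fNum.2.1
  rw [Hs_sixth]
  unfold l6
  set K := (∫ t : ℝ, |phi t| ^ (6 : ℝ) * Real.log |phi t|) / Is 6
  set L := Real.log (√6 * Is 6)
  have hL' : Real.log (45411 / 10000) ≤ L := Real.log_le_log (by norm_num) hL
  have hu : 0 < u := by linarith
  have h4 : u * Real.log (45411 / 10000) ≤ u * L := mul_le_mul_of_nonneg_left hL' hu.le
  have h5 : 0 ≤ (6 * u - 1) * (39 / 10000 - (1 / 12 + K)) := by
    apply mul_nonneg <;> linarith
  norm_num at h3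
  norm_num at h4
  nlinarith

/-- region A for `n ≥ 6` (given the sign of the concavity functional) -/
theorem regionA6 (hCs : (∀ s : ℝ, 49 / 10 ≤ s → 0 ≤ Cs s) ∧
      (∀ s : ℝ, 6 ≤ s → 13 / 100 * Is s ≤ s * Cs s))
    {n : ℕ} (hn : 6 ≤ n) (θ : Fin n → ℝ) (hθ0 : ∀ k, 0 ≤ θ k) (hθ : ∑ k, θ k ^ 2 = 1)
    (hlt : ∀ k, θ k < 1) (hx : ∀ k, θ k ^ 2 ≤ 36 / 100) :
    ∫ ξ : ℝ, ∏ k, phi (θ k * ξ) ≤ ∫ ξ : ℝ, phi (ξ / √n) ^ n := by
  have hn0 : (0 : ℝ) < n := by exact_mod_cast (by omega : 0 < n)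
  have hcv1 : ConcaveOn ℝ (Set.Ioc 0 (10 / 49)) Hs := by
    have h := Hs_concave phi_meas phi_abs_le_one phi_rpow_integrable Is_pos 0 (49 / 10)
      (by norm_num) le_rfl (fun s hs => by
        rw [zero_mul]; exact mul_nonneg (by linarith) (hCs.1 s hs))
    have e : (1 / (49 / 10) : ℝ) = 10 / 49 := by norm_num
    rw [e] at h
    simpa using h
  have hcv2 : ConcaveOn ℝ (Set.Ioc 0 (1 / 6)) (fun u => Hs u + 65 / 1000 * u ^ 2) := by
    have h := Hs_concave phi_meas phi_abs_le_one phi_rpow_integrable Is_pos (13 / 100) 6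
      (by norm_num) (by norm_num) hCs.2
    have e : (13 / 100 / 2 : ℝ) = 65 / 1000 := by norm_num
    rw [e] at h
    exact h
  obtain ⟨a, ha⟩ := lines phi_cont phi_abs_le_one phi_rpow_integrable fPB fNP cc_lo cc_hi hcv1 hcv2
    l6 hd6 h6line n hn
  have hHol := fHolder θ hθ0 hθ hlt
  rcases Nat.even_or_odd n with he | ho
  · -- even
    have h1 := (le_abs_prod θ).trans hHol.2
    have h2 : ∑ k, Hs (θ k ^ 2) ≤ n * Hs (1 / n) := by
      have h3 : ∑ k, Hs (θ k ^ 2) ≤ ∑ k, (Hs (1 / n) + a * (θ k ^ 2 - 1 / n)) :=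
        Finset.sum_le_sum (fun k _ => (ha (θ k ^ 2) (sq_nonneg _) (hx k)).1)
      rw [Finset.sum_add_distrib, ← Finset.mul_sum, Finset.sum_sub_distrib, hθ] at h3
      simp only [Finset.sum_const, Finset.card_univ, Fintype.card_fin, nsmul_eq_mul] at h3
      have e : (n : ℝ) * (1 / n) = 1 := by field_simp
      rw [e] at h3
      linarith
    refine h1.trans ((Real.exp_le_exp.mpr h2).trans (le_of_eq ?_))
    have e1 : (1 / (n : ℝ)) ^ (-(1 / 2) : ℝ) = √n := by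
      rw [Real.sqrt_eq_rpow, one_div, Real.inv_rpow hn0.le, Real.rpow_neg hn0.le, inv_inv]
    have hI : 0 < Is n := Is_pos n (by
      have : (6 : ℝ) ≤ n := by exact_mod_cast hn
      linarith)
    have e2 : (n : ℝ) * Hs (1 / n) = Real.log (√n * Is n) := by
      unfold Hs
      rw [e1]
      have : (1 / (1 / (n : ℝ))) = n := by simp
      rw [this]
      field_simp
    have hsn : 0 < √(n : ℝ) := Real.sqrt_pos.mpr hn0
    rw [e2, Real.exp_log (by positivity)]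
    have e3 : ∫ ξ : ℝ, phi (ξ / √n) ^ n = |√(n : ℝ)| • ∫ t : ℝ, phi t ^ n := by
      rw [← MeasureTheory.Measure.integral_comp_div (fun t => phi t ^ n) (√(n : ℝ))]
    rw [e3, abs_of_pos hsn, smul_eq_mul]
    congr 1
    unfold Is
    congr 1
    ext t
    rw [Real.rpow_natCast, he.pow_abs]
  · -- odd
    have hn7 : 7 ≤ n := by
      rcases Nat.lt_or_ge 6 n with h | h
      · omega
      · have : n = 6 := by omega
        subst this
        exact absurd ho (by decide)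
    exact odd_case phi_cont phi_abs_le_one phi_rpow_integrable phi_neg f3 fpos fR.2.1 n hn7 ho
      (fdiag6 n hn) θ hθ0 hθ hx hHol a ha
      (fun hD => odd_local phi_contDiff phi_neg phi_deriv phi_rpow_integrable phi_abs_le_one f3 fpos
        fR.1 phi_decay cc_lo cc_hi hn7 θ hθ0 hθ hD)

end
end CG3
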