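import Pool.Agent.CG3.Assem3

open MeasureTheory ProbabilityTheory
open scoped BigOperators

namespace CG3
noncomputable section

/-- statement of the Cauchy-Schwarz region bound -/
def CSreg : Prop := ∀ (x y v F : ℝ), 34 / 100 ≤ y → y ≤ x → 36 / 100 ≤ x → x ≤ 21 / 40 →
    x + y + v = 1 → 0 < v → (x ≤ 1 / 2 ∨ 9 / 5 * (x - 1 / 2) ≤ v) →
    (F ≤ √((1 / √x * Gd ((1 - cc) * (v / x))) * (1 / √y * Gd ((1 - cc) * (v / y))))
      + (3 / 20 : ℝ) * (2 / √(√x * √y)) * √(Rt (181 / 50 * √x / √v) * Rt (181 / 50 * √y / √v))) →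
    F ≤ √2 * (2 * Real.pi * B1 / m0 ^ 2)

/-- large first or second coordinate -/
theorem region_big (hCS : CSreg) {n : ℕ} (θ : Fin n → ℝ) (hθ0 : ∀ k, 0 ≤ θ k)
    (hθ : ∑ k, θ k ^ 2 = 1) (hlt : ∀ k, θ k < 1)
    (i j : Fin n) (hij : i ≠ j) (hj : 0 < θ j) (hji : θ j ≤ θ i)
    (hx1 : 36 / 100 ≤ θ i ^ 2)
    (hbig : 21 / 40 ≤ θ i ^ 2 ∨ 34 / 100 ≤ θ j ^ 2) :
    ∫ ξ : ℝ, ∏ k, phi (θ k * ξ) ≤ F2 := by
  have hi : 0 < θ i := lt_of_lt_of_le hj hji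
  rcases lt_or_ge (θ i ^ 2) (21 / 40) with h | h
  swap
  · exact region_M θ hθ i j hij hi hj (hlt i) h
  have hy : 34 / 100 ≤ θ j ^ 2 := by
    rcases hbig with h' | h'
    · exact absurd h (not_lt.mpr h')
    · exact h'
  have hv := v_nonneg θ hθ i j hij
  have hyx : θ j ^ 2 ≤ θ i ^ 2 := pow_le_pow_left₀ hj.le hji 2
  by_cases hT : 1 / 2 ≤ θ i ^ 2 ∧ 1 - θ i ^ 2 - θ j ^ 2 ≤ 9 / 5 * (θ i ^ 2 - 1 / 2)
  · exact region_T3 θ hθ i j hij hj hji hT.1 h.le hT.2 hv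
  have hv0 : 0 < 1 - θ i ^ 2 - θ j ^ 2 := by
    rcases lt_or_ge (θ i ^ 2) (1 / 2) with h1 | h1
    · linarith
    · have h2 : ¬ (1 - θ i ^ 2 - θ j ^ 2 ≤ 9 / 5 * (θ i ^ 2 - 1 / 2)) := fun h2 => hT ⟨h1, h2⟩
      push Not at h2
      linarith
  have hcorner : θ i ^ 2 ≤ 1 / 2 ∨ 9 / 5 * (θ i ^ 2 - 1 / 2) ≤ 1 - θ i ^ 2 - θ j ^ 2 := by
    rcases lt_or_ge (θ i ^ 2) (1 / 2) with h1 | h1
    · exact Or.inl h1.le
    · right
      have h2 : ¬ (1 - θ i ^ 2 - θ j ^ 2 ≤ 9 / 5 * (θ i ^ 2 - 1 / 2)) := fun h2 => hT ⟨h1, h2⟩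
      push Not at h2
      exact h2.le
  have hk : ∀ k, k ≠ i → k ≠ j → 0 ≤ θ k ∧ θ k ^ 2 ≤ 1 - θ i ^ 2 - θ j ^ 2 := by
    intro k hki hkj
    refine ⟨hθ0 k, ?_⟩
    rw [← top_sum_le θ hθ i j hij]
    exact Finset.single_le_sum (f := fun k => θ k ^ 2) (fun k _ => sq_nonneg _)
      (by simp [hki, hkj])
  have hF := fCS θ hθ i j hij hi hj (1 - θ i ^ 2 - θ j ^ 2) hv0 hk
  have e1 : (1 - θ i ^ 2 - θ j ^ 2) / (1 - θ i ^ 2 - θ j ^ 2) = 1 := div_self hv0.ne'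
  rw [e1, Real.rpow_one] at hF
  refine hCS (θ i ^ 2) (θ j ^ 2) (1 - θ i ^ 2 - θ j ^ 2) _ hy hyx hx1 h.le (by ring) hv0 hcorner ?_
  rw [Real.sqrt_sq hi.le, Real.sqrt_sq hj.le]
  exact hF

theorem card_rest {n : ℕ} (θ : Fin n → ℝ) (i j : Fin n) (hij : i ≠ j) (hi : 0 < θ i)
    (hj : 0 < θ j) (M : ℕ) (hM : (Finset.univ.filter (fun k => θ k ≠ 0)).card ≤ M + 2) :
    (((Finset.univ.erase i).erase j).filter (fun k => θ k ≠ 0)).card ≤ M := by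
  classical
  have e : ((Finset.univ.erase i).erase j).filter (fun k => θ k ≠ 0) =
      ((Finset.univ.filter (fun k => θ k ≠ 0)).erase i).erase j := by
    ext k
    simp only [Finset.mem_filter, Finset.mem_erase, Finset.mem_univ, and_true, true_and]
    tauto
  rw [e, Finset.card_erase_of_mem, Finset.card_erase_of_mem]
  · omega
  · simp [hi.ne']
  · simp [hij.symm, hj.ne']

/-- at most five nonzero coordinates -/
theorem Fbound5 (hCS : CSreg) {n : ℕ} (θ : Fin n → ℝ) (hθ0 : ∀ k, 0 ≤ θ k)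
    (hθ : ∑ k, θ k ^ 2 = 1) (hlt : ∀ k, θ k < 1)
    (hcard : (Finset.univ.filter (fun k => θ k ≠ 0)).card ≤ 5) :
    ∫ ξ : ℝ, ∏ k, phi (θ k * ξ) ≤ F2 := by
  obtain ⟨i, j, hij, hj, hji, hk⟩ := exists_top_two θ hθ0 hθ hlt
  have hi : 0 < θ i := lt_of_lt_of_le hj hji
  rcases le_total (θ i ^ 2) (36 / 100) with hA | hB
  · refine regionA5 θ hθ0 hθ hlt (fun k => ?_) hcard
    by_cases hki : k = i
    · rw [hki]; exact hA
    · exact (pow_le_pow_left₀ (hθ0 k) ((hk k hki).trans hji) 2).trans hA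
  by_cases hbig : 21 / 40 ≤ θ i ^ 2 ∨ 34 / 100 ≤ θ j ^ 2
  · exact region_big hCS θ hθ0 hθ hlt i j hij hj hji hB hbig
  push Not at hbig
  have h := T2hyp_card θ hθ0 hθ i j hij hj hji hk hbig.1.le 3 (by norm_num)
    (card_rest θ i j hij hi hj 3 hcard)
  have h1 : T2hyp (1 / 3) (∫ ξ : ℝ, ∏ k, phi (θ k * ξ)) (θ i ^ 2) (θ j ^ 2) := by
    have := h.1
    norm_num at this ⊢
    exact this
  have h2 := coverI h1 (by norm_num at hB ⊢; linarith) (by linarith [hbig.1])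
    (by norm_num; linarith [hbig.2]) (pow_le_pow_left₀ hj.le hji 2)
    (by have := h.2; norm_num at this; linarith)
  refine h2.trans (le_trans (by norm_num) F2_ge)

/-- `n ≥ 6` -/
theorem Fbound6 (hCS : CSreg) (hCs : (∀ s : ℝ, 49 / 10 ≤ s → 0 ≤ Cs s) ∧
      (∀ s : ℝ, 6 ≤ s → 13 / 100 * Is s ≤ s * Cs s)) {n : ℕ} (hn : 6 ≤ n) (θ : Fin n → ℝ)
    (hθ0 : ∀ k, 0 ≤ θ k) (hθ : ∑ k, θ k ^ 2 = 1) (hlt : ∀ k, θ k < 1) :
    ∫ ξ : ℝ, ∏ k, phi (θ k * ξ) ≤ ∫ ξ : ℝ, phi (ξ / √n) ^ n := by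
  obtain ⟨i, j, hij, hj, hji, hk⟩ := exists_top_two θ hθ0 hθ hlt
  have hi : 0 < θ i := lt_of_lt_of_le hj hji
  rcases le_total (θ i ^ 2) (36 / 100) with hA | hB
  · refine regionA6 hCs hn θ hθ0 hθ hlt (fun k => ?_)
    by_cases hki : k = i
    · rw [hki]; exact hA
    · exact (pow_le_pow_left₀ (hθ0 k) ((hk k hki).trans hji) 2).trans hA
  by_cases hbig : 21 / 40 ≤ θ i ^ 2 ∨ 34 / 100 ≤ θ j ^ 2
  · exact (region_big hCS θ hθ0 hθ hlt i j hij hj hji hB hbig).trans (F2_le.trans (fdiag6 n hn))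
  push Not at hbig
  rcases Nat.lt_or_ge n 8 with h8 | h8
  · -- n = 6, 7
    have hc : (Finset.univ.filter (fun k => θ k ≠ 0)).card ≤ 5 + 2 := by
      refine (Finset.card_filter_le _ _).trans ?_
      rw [Finset.card_univ, Fintype.card_fin]; omega
    have h := T2hyp_card θ hθ0 hθ i j hij hj hji hk hbig.1.le 5 (by norm_num)
      (card_rest θ i j hij hi hj 5 hc)
    have h1 : T2hyp (1 / 5) (∫ ξ : ℝ, ∏ k, phi (θ k * ξ)) (θ i ^ 2) (θ j ^ 2) := by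
      have := h.1
      norm_num at this ⊢
      exact this
    have h2 := coverII h1 (by norm_num at hB ⊢; linarith) (by linarith [hbig.1])
      (by norm_num; linarith [hbig.2]) (pow_le_pow_left₀ hj.le hji 2)
      (by have := h.2; norm_num at this; linarith)
    exact h2.trans (fdiag6 n hn)
  · have h1 : T2hyp 0 (∫ ξ : ℝ, ∏ k, phi (θ k * ξ)) (θ i ^ 2) (θ j ^ 2) := by
      refine T2hyp_of θ hθ0 hθ i j hij hj hji hk hbig.1.le 0 ?_ ?_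
      · rw [zero_mul]; exact Finset.sum_nonneg (fun k _ => by positivity)
      · rw [zero_pow (by norm_num), zero_mul]; exact Finset.sum_nonneg (fun k _ => by positivity)
    rcases le_total (θ j ^ 2) (1 / 20) with h5 | h5
    · exact (coverIII0 h1 (by norm_num at hB ⊢; linarith) hbig.1.le (by positivity) h5).trans
        (fdiag8 n h8)
    · have h2 := coverIII h1 (by norm_num at hB ⊢; linarith) (by linarith [hbig.1]) h5
        (by norm_num; linarith [hbig.2]) (pow_le_pow_left₀ hj.le hji 2)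
      exact h2.trans (le_trans (by norm_num) (fdiag8 n h8))

end
end CG3
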