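import Mathlib

/-! Basic definitions for the Gaussian cube section problem (MP_3a0321_gt). -/

open MeasureTheory ProbabilityTheory
open scoped BigOperators

namespace CG3
noncomputable section

/-- unnormalised Gaussian weight -/
def w (x : ℝ) : ℝ := Real.exp (-(x ^ 2) / 2)

/-- `m0 = ∫_{-1}^1 e^{-x²/2} dx` -/
def m0 : ℝ := ∫ x in (-1 : ℝ)..1, w x

/-- characteristic function of the standard Gaussian conditioned to `[-1,1]` -/
def phi (t : ℝ) : ℝ := (∫ x in (-1 : ℝ)..1, w x * Real.cos (t * x)) / m0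

/-- `cc = 2 e^{-1/2} / m0`; the variance of the truncated Gaussian is `1 - cc` -/
def cc : ℝ := 2 * Real.exp (-(1 / 2)) / m0

/-- moments of the truncated Gaussian: `mom k = E X^(2k)` -/
def mom : ℕ → ℝ
  | 0 => 1
  | (k + 1) => (2 * k + 1) * mom k - cc

/-- `B = ∫_{-1}^1 e^{-x²} dx` -/
def B1 : ℝ := ∫ x in (-1 : ℝ)..1, Real.exp (-(x ^ 2))

/-- Gaussian measure of the central section of the cube `[-1,1]^n` orthogonal to `θ`,
computed inside the hyperplane `θ^⊥`. -/
def secG {n : ℕ} (θ : EuclideanSpace ℝ (Fin n)) : ℝ :=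
  (stdGaussian ((ℝ ∙ θ)ᗮ : Submodule ℝ (EuclideanSpace ℝ (Fin n)))).real
    {x | ∀ i, |(x : EuclideanSpace ℝ (Fin n)) i| ≤ 1}

end
end CG3
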