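import Pool.Agent.CG3.Base

/-! Further definitions for the Gaussian cube section problem (MP_3a0321_gt). -/

open MeasureTheory ProbabilityTheory
open scoped BigOperators

namespace CG3
noncomputable section

/-- half tail of `∫ phi²` -/
def Rt (T : ℝ) : ℝ := ∫ t in Set.Ioi T, phi t ^ 2

/-- truncated power series of `-log phi` (lower bound) -/
def PP (t : ℝ) : ℝ := (1 - cc) / 2 * t ^ 2 + 374 / 100000 * t ^ 4 + 188 / 1000000 * t ^ 6
  + 113 / 10000000 * t ^ 8 + 737 / 1000000000 * t ^ 10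

/-- majorant of the main part -/
def Mint (s2 s3 s4 s5 : ℝ) : ℝ := 2 * ∫ x in Set.Ioi (0 : ℝ),
  Real.exp (-((1 - cc) / 2 * x ^ 2 + 374 / 100000 * s2 * x ^ 4 + 188 / 1000000 * s3 * x ^ 6
    + 113 / 10000000 * s4 * x ^ 8 + 737 / 1000000000 * s5 * x ^ 10))

/-- `L^s` integral of phi -/
def Is (s : ℝ) : ℝ := ∫ t : ℝ, |phi t| ^ s

/-- the concavity functional -/
def Cs (s : ℝ) : ℝ := ∫ t : ℝ, |phi t| ^ s *
  (1 / 4 - s * Real.log |phi t| - s ^ 2 * (Real.log |phi t|) ^ 2)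

/-- Hoelder function `u ↦ u log (u^{-1/2} I(1/u))` -/
def Hs (u : ℝ) : ℝ := u * Real.log (u ^ (-(1 / 2) : ℝ) * Is (1 / u))

/-- Gaussian damped integral of `phi²` -/
def Gd (τ2 : ℝ) : ℝ := ∫ t : ℝ, phi t ^ 2 * Real.exp (-(τ2 * t ^ 2 / 2))

/-- upper bound polynomial for `-log phi` on `[0, 2.6]` -/
def PB (t : ℝ) : ℝ := (1 - cc) / 2 * t ^ 2 + 37401 / 10000000 * t ^ 4 + 1883 / 10000000 * t ^ 6
  + 114 / 10000000 * t ^ 8 + 75 / 100000000 * t ^ 10 + 12 / 100000000 * t ^ 12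

end
end CG3
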