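import Pool.Agent.CG3.Base

open MeasureTheory ProbabilityTheory
open scoped BigOperators

namespace CG3
noncomputable section

theorem w_cont : Continuous w := by
  unfold w
  fun_prop

theorem w_pos (x : ℝ) : 0 < w x := Real.exp_pos _

theorem w_neg (x : ℝ) : w (-x) = w x := by
  unfold w
  rw [neg_sq]

theorem m0_pos : 0 < m0 := by
  unfold m0
  exact intervalIntegral.intervalIntegral_pos_of_pos (w_cont.intervalIntegrable _ _) w_pos
    (by norm_num)

/-- the truncated Gaussian law -/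
def nu : Measure ℝ := (volume.restrict (Set.Icc (-1 : ℝ) 1)).withDensity
  (fun x => ENNReal.ofReal (w x / m0))

theorem dens_meas : Measurable (fun x : ℝ => ENNReal.ofReal (w x / m0)) :=
  (w_cont.div_const m0).measurable.ennreal_ofReal

theorem nu_int {E : Type} [NormedAddCommGroup E] [NormedSpace ℝ E] (g : ℝ → E) :
    ∫ x, g x ∂nu = ∫ x in (-1 : ℝ)..1, (w x / m0) • g x := by
  unfold nu
  rw [integral_withDensity_eq_integral_toReal_smul dens_meas
    (Filter.Eventually.of_forall fun x => ENNReal.ofReal_lt_top),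
    intervalIntegral.integral_of_le (by norm_num), ← integral_Icc_eq_integral_Ioc]
  refine integral_congr_ae (Filter.Eventually.of_forall fun x => ?_)
  simp only
  rw [ENNReal.toReal_ofReal (div_nonneg (w_pos x).le m0_pos.le)]

theorem nu_lint (g : ℝ → ENNReal) (hg : Measurable g) :
    ∫⁻ x, g x ∂nu = ∫⁻ x in Set.Icc (-1 : ℝ) 1, ENNReal.ofReal (w x / m0) * g x := by
  unfold nu
  rw [lintegral_withDensity_eq_lintegral_mul _ dens_meas hg]
  rfl

theorem nu_univ : nu Set.univ = 1 := by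
  unfold nu
  rw [withDensity_apply _ MeasurableSet.univ, Measure.restrict_univ,
    ← ofReal_integral_eq_lintegral_ofReal, integral_Icc_eq_integral_Ioc,
    ← intervalIntegral.integral_of_le (by norm_num), intervalIntegral.integral_div]
  · change ENNReal.ofReal (m0 / m0) = 1
    rw [div_self m0_pos.ne', ENNReal.ofReal_one]
  · exact ((w_cont.div_const m0).continuousOn).integrableOn_compact isCompact_Icc
  · exact Filter.Eventually.of_forall fun x => div_nonneg (w_pos x).le m0_pos.le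

instance nu_prob : IsProbabilityMeasure nu := ⟨nu_univ⟩

theorem nu_ae : ∀ᵐ x ∂nu, x ∈ Set.Icc (-1 : ℝ) 1 := by
  have h : nu ≪ volume.restrict (Set.Icc (-1 : ℝ) 1) := withDensity_absolutelyContinuous _ _
  exact h.ae_le (ae_restrict_mem measurableSet_Icc)

theorem nu_odd (g : ℝ → ℝ) (hg : ∀ x, g (-x) = - g x) : ∫ x, g x ∂nu = 0 := by
  rw [nu_int]
  have h1 : ∫ x in (-1 : ℝ)..1, (w x / m0) • g x = ∫ x in (-1 : ℝ)..1, (w (-x) / m0) • g (-x) := by
    rw [intervalIntegral.integral_comp_neg (fun x => (w x / m0) • g x), neg_neg]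
  have h2 : ∫ x in (-1 : ℝ)..1, (w (-x) / m0) • g (-x) = - ∫ x in (-1 : ℝ)..1, (w x / m0) • g x := by
    rw [← intervalIntegral.integral_neg]
    refine intervalIntegral.integral_congr fun x _ => ?_
    simp only [w_neg, hg, smul_neg]
  linarith

theorem nu_integrable {E : Type} [NormedAddCommGroup E] (g : ℝ → E) (hg : Continuous g) :
    Integrable g nu := by
  have hc : IsCompact (Set.Icc (-1 : ℝ) 1) := isCompact_Icc
  obtain ⟨C, hC⟩ := hc.exists_bound_of_continuousOn hg.continuousOn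
  have : SecondCountableTopologyEither ℝ E := inferInstance
  refine Integrable.of_bound hg.aestronglyMeasurable C ?_
  filter_upwards [nu_ae] with x hx using hC x hx

theorem nu_cos (ξ : ℝ) : ∫ x, Real.cos (ξ * x) ∂nu = phi ξ := by
  rw [nu_int]
  unfold phi
  rw [← intervalIntegral.integral_div]
  refine intervalIntegral.integral_congr fun x _ => ?_
  simp only [smul_eq_mul]
  ring

theorem nu_char (ξ : ℝ) : ∫ x, Complex.exp (((ξ * x : ℝ) : ℂ) * Complex.I) ∂nu = (phi ξ : ℂ) := by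
  have h1 : ∀ x : ℝ, Complex.exp (((ξ * x : ℝ) : ℂ) * Complex.I) =
      ((Real.cos (ξ * x) : ℝ) : ℂ) + ((Real.sin (ξ * x) : ℝ) : ℂ) * Complex.I := by
    intro x
    rw [Complex.exp_mul_I, Complex.ofReal_cos, Complex.ofReal_sin]
  simp_rw [h1]
  rw [integral_add, integral_mul_const, integral_complex_ofReal, integral_complex_ofReal, nu_cos,
    nu_odd (fun x => Real.sin (ξ * x)) (fun x => by rw [mul_neg, Real.sin_neg])]
  · simp
  · exact nu_integrable _ (by fun_prop)
  · exact nu_integrable _ (by fun_prop)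

/-- product law -/
def mu (n : ℕ) : Measure (Fin n → ℝ) := Measure.pi (fun _ => nu)

instance mu_prob (n : ℕ) : IsProbabilityMeasure (mu n) := by
  unfold mu; infer_instance

/-- the linear form -/
def S {n : ℕ} (θ : Fin n → ℝ) (x : Fin n → ℝ) : ℝ := ∑ i, θ i * x i

theorem S_cont {n : ℕ} (θ : Fin n → ℝ) : Continuous (S θ) := by
  unfold S
  fun_prop

theorem prod_char {n : ℕ} (θ : Fin n → ℝ) (ξ : ℝ) :
    ((∏ i, phi (θ i * ξ) : ℝ) : ℂ) =
      ∫ x, Complex.exp (((ξ * S θ x : ℝ) : ℂ) * Complex.I) ∂(mu n) := by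
  unfold mu
  have h1 : ∀ x : Fin n → ℝ, Complex.exp (((ξ * S θ x : ℝ) : ℂ) * Complex.I) =
      ∏ i, Complex.exp ((((θ i * ξ) * x i : ℝ) : ℂ) * Complex.I) := by
    intro x
    rw [← Complex.exp_sum, ← Finset.sum_mul, ← Complex.ofReal_sum]
    congr 3
    unfold S
    rw [Finset.mul_sum]
    exact Finset.sum_congr rfl fun i _ => by ring
  simp_rw [h1]
  rw [integral_fintype_prod_eq_prod
    (f := fun i (y : ℝ) => Complex.exp ((((θ i * ξ) * y : ℝ) : ℂ) * Complex.I))]
  simp_rw [nu_char]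
  rw [Complex.ofReal_prod]

theorem mu_ae (n : ℕ) : ∀ᵐ x ∂(mu n), x ∈ Set.pi Set.univ (fun _ : Fin n => Set.Icc (-1 : ℝ) 1) := by
  unfold mu
  have h : ∀ i : Fin n, ∀ᵐ x ∂(Measure.pi (fun _ : Fin n => nu)), x i ∈ Set.Icc (-1 : ℝ) 1 :=
    fun i => Measure.tendsto_eval_ae_ae (i := i) nu_ae
  filter_upwards [ae_all_iff.2 h] with x hx i _ using hx i

theorem mu_integrable {n : ℕ} {E : Type} [NormedAddCommGroup E] (g : (Fin n → ℝ) → E)
    (hg : Continuous g) : Integrable g (mu n) := by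
  have hc : IsCompact (Set.pi Set.univ (fun _ : Fin n => Set.Icc (-1 : ℝ) 1)) :=
    isCompact_univ_pi fun _ => isCompact_Icc
  obtain ⟨C, hC⟩ := hc.exists_bound_of_continuousOn hg.continuousOn
  refine Integrable.of_bound hg.aestronglyMeasurable C ?_
  filter_upwards [mu_ae n] with x hx using hC x hx

theorem prod_cos {n : ℕ} (θ : Fin n → ℝ) (ξ : ℝ) :
    ∏ i, phi (θ i * ξ) = ∫ x, Real.cos (ξ * S θ x) ∂(mu n) := by
  have h := congrArg Complex.re (prod_char θ ξ)
  rw [Complex.ofReal_re] at h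
  rw [h]
  have hi : Integrable (fun x => Complex.exp (((ξ * S θ x : ℝ) : ℂ) * Complex.I)) (mu n) := by
    refine mu_integrable _ ?_
    have := S_cont θ
    fun_prop
  have h2 := integral_re hi
  change (∫ x, Complex.exp (((ξ * S θ x : ℝ) : ℂ) * Complex.I) ∂(mu n)).re = _
  rw [← RCLike.re_eq_complex_re, ← h2]
  refine integral_congr_ae (Filter.Eventually.of_forall fun x => ?_)
  simp only [RCLike.re_eq_complex_re]
  exact Complex.exp_ofReal_mul_I_re _

/-- Gaussian kernel -/
def G (e u : ℝ) : ℝ := Real.sqrt (2 * Real.pi) / e * Real.exp (-(u ^ 2 / (2 * e ^ 2)))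

theorem G_cont (e : ℝ) : Continuous (G e) := by
  unfold G
  fun_prop

theorem G_nonneg {e : ℝ} (he : 0 < e) (u : ℝ) : 0 ≤ G e u := by
  unfold G
  positivity

theorem gauss_cos {e : ℝ} (he : 0 < e) (s : ℝ) :
    ∫ ξ : ℝ, Real.cos (ξ * s) * Real.exp (-(e ^ 2 * ξ ^ 2 / 2)) = G e s := by
  have hb : 0 < ((e ^ 2 / 2 : ℝ) : ℂ).re := by
    rw [Complex.ofReal_re]; positivity
  have h := congrArg Complex.re (fourierIntegral_gaussian hb (s : ℂ))
  have hfun : ∀ x : ℝ, Complex.exp (Complex.I * (s : ℂ) * (x : ℂ)) *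
      Complex.exp (-((e ^ 2 / 2 : ℝ) : ℂ) * (x : ℂ) ^ 2) =
      Complex.exp (((x * s : ℝ) : ℂ) * Complex.I) * ((Real.exp (-(e ^ 2 * x ^ 2 / 2)) : ℝ) : ℂ) := by
    intro x
    rw [Complex.ofReal_exp]
    congr 2
    · push_cast; ring
    · push_cast; ring
  simp_rw [hfun] at h
  have hi : Integrable (fun x : ℝ => Complex.exp (((x * s : ℝ) : ℂ) * Complex.I) *
      ((Real.exp (-(e ^ 2 * x ^ 2 / 2)) : ℝ) : ℂ)) := by
    have h1 : Integrable (fun x : ℝ => Real.exp (-(e ^ 2 / 2) * x ^ 2)) :=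
      integrable_exp_neg_mul_sq (by positivity)
    refine h1.mono' (by fun_prop) (Filter.Eventually.of_forall fun x => ?_)
    rw [norm_mul, Complex.norm_exp_ofReal_mul_I, one_mul, Complex.norm_real, Real.norm_eq_abs,
      abs_of_pos (Real.exp_pos _)]
    apply le_of_eq
    congr 1
    ring
  have h2 := integral_re hi
  have h3 : ∫ ξ : ℝ, Real.cos (ξ * s) * Real.exp (-(e ^ 2 * ξ ^ 2 / 2)) =
      ∫ x : ℝ, RCLike.re (Complex.exp (((x * s : ℝ) : ℂ) * Complex.I) *
      ((Real.exp (-(e ^ 2 * x ^ 2 / 2)) : ℝ) : ℂ)) := by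
    refine integral_congr_ae (Filter.Eventually.of_forall fun x => ?_)
    simp only [RCLike.re_eq_complex_re]
    rw [Complex.re_mul_ofReal, Complex.exp_ofReal_mul_I_re]
  rw [h3, h2, RCLike.re_eq_complex_re, h]
  unfold G
  have h4 : ((Real.pi : ℂ) / ((e ^ 2 / 2 : ℝ) : ℂ)) ^ (1 / 2 : ℂ) =
      ((Real.sqrt (2 * Real.pi) / e : ℝ) : ℂ) := by
    rw [← Complex.ofReal_div]
    have h5 : ((1 / 2 : ℂ)) = ((1 / 2 : ℝ) : ℂ) := by push_cast; rfl
    rw [h5, ← Complex.ofReal_cpow (by positivity), ← Real.sqrt_eq_rpow]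
    congr 1
    have h6 : Real.pi / (e ^ 2 / 2) = (2 * Real.pi) / e ^ 2 := by field_simp
    rw [h6, Real.sqrt_div' _ (by positivity), Real.sqrt_sq he.le]
  have h7 : Complex.exp (-(s : ℂ) ^ 2 / (4 * ((e ^ 2 / 2 : ℝ) : ℂ))) =
      ((Real.exp (-(s ^ 2 / (2 * e ^ 2))) : ℝ) : ℂ) := by
    rw [Complex.ofReal_exp]
    congr 1
    push_cast
    have : (e : ℂ) ≠ 0 := by exact_mod_cast he.ne'
    field_simp
    ring
  rw [h4, h7, ← Complex.ofReal_mul, Complex.ofReal_re]

theorem mollified {n : ℕ} (θ : Fin n → ℝ) {e : ℝ} (he : 0 < e) :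
    ∫ ξ : ℝ, (∏ i, phi (θ i * ξ)) * Real.exp (-(e ^ 2 * ξ ^ 2 / 2)) =
      ∫ x, G e (S θ x) ∂(mu n) := by
  have h1 : ∀ ξ : ℝ, (∏ i, phi (θ i * ξ)) * Real.exp (-(e ^ 2 * ξ ^ 2 / 2)) =
      ∫ x, Real.cos (ξ * S θ x) * Real.exp (-(e ^ 2 * ξ ^ 2 / 2)) ∂(mu n) := by
    intro ξ
    rw [prod_cos, integral_mul_const]
  simp_rw [h1]
  rw [integral_integral_swap]
  · refine integral_congr_ae (Filter.Eventually.of_forall fun x => ?_)
    simp only
    rw [gauss_cos he]
  · have h2 : Integrable (fun x : ℝ => Real.exp (-(e ^ 2 / 2) * x ^ 2)) :=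
      integrable_exp_neg_mul_sq (by positivity)
    have h3 : Integrable (fun p : ℝ × (Fin n → ℝ) => Real.exp (-(e ^ 2 / 2) * p.1 ^ 2))
      (volume.prod (mu n)) := h2.comp_fst (mu n)
    have hS := S_cont θ
    refine h3.mono' ?_ (Filter.Eventually.of_forall fun p => ?_)
    · refine Continuous.aestronglyMeasurable ?_
      unfold Function.uncurry
      fun_prop
    · simp only [Function.uncurry]
      rw [norm_mul, Real.norm_eq_abs, Real.norm_eq_abs, abs_of_pos (Real.exp_pos _)]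
      have h4 : Real.exp (-(e ^ 2 * p.1 ^ 2 / 2)) = Real.exp (-(e ^ 2 / 2) * p.1 ^ 2) := by
        congr 1; ring
      rw [h4]
      calc |Real.cos (p.1 * S θ p.2)| * Real.exp (-(e ^ 2 / 2) * p.1 ^ 2)
          ≤ 1 * Real.exp (-(e ^ 2 / 2) * p.1 ^ 2) :=
            mul_le_mul_of_nonneg_right (Real.abs_cos_le_one _) (Real.exp_pos _).le
        _ = Real.exp (-(e ^ 2 / 2) * p.1 ^ 2) := one_mul _

theorem limit {n : ℕ} (θ : Fin n → ℝ)
    (hint : Integrable (fun ξ : ℝ => ∏ i, phi (θ i * ξ))) (C : ℝ → ℝ) (hC : Continuous C)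
    (h : ∀ e : ℝ, 0 < e → ∫ x, G e (S θ x) ∂(mu n) ≤ C e) :
    ∫ ξ : ℝ, ∏ i, phi (θ i * ξ) ≤ C 0 := by
  have ht : Filter.Tendsto (fun k : ℕ => (1 : ℝ) / ((k : ℝ) + 1)) Filter.atTop (nhds 0) :=
    tendsto_one_div_add_atTop_nhds_zero_nat
  have h1 : Filter.Tendsto (fun k : ℕ => ∫ ξ : ℝ, (∏ i, phi (θ i * ξ)) *
      Real.exp (-(((1 : ℝ) / ((k : ℝ) + 1)) ^ 2 * ξ ^ 2 / 2))) Filter.atTop
      (nhds (∫ ξ : ℝ, ∏ i, phi (θ i * ξ))) := by
    refine tendsto_integral_of_dominated_convergence (fun ξ => |∏ i, phi (θ i * ξ)|) ?_ hint.abs ?_ ?_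
    · intro k
      exact hint.aestronglyMeasurable.mul (by fun_prop)
    · intro k
      refine Filter.Eventually.of_forall fun ξ => ?_
      rw [norm_mul, Real.norm_eq_abs, Real.norm_eq_abs, abs_of_pos (Real.exp_pos _)]
      have h2 : Real.exp (-(((1 : ℝ) / ((k : ℝ) + 1)) ^ 2 * ξ ^ 2 / 2)) ≤ 1 := by
        rw [Real.exp_le_one_iff]
        have : 0 ≤ ((1 : ℝ) / ((k : ℝ) + 1)) ^ 2 * ξ ^ 2 / 2 := by positivity
        linarith
      exact mul_le_of_le_one_right (abs_nonneg _) h2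
    · refine Filter.Eventually.of_forall fun ξ => ?_
      have h3 : Continuous (fun e : ℝ => (∏ i, phi (θ i * ξ)) * Real.exp (-(e ^ 2 * ξ ^ 2 / 2))) := by
        fun_prop
      have h4 := (h3.tendsto 0).comp ht
      have h5 : (∏ i, phi (θ i * ξ)) * Real.exp (-((0 : ℝ) ^ 2 * ξ ^ 2 / 2)) =
          ∏ i, phi (θ i * ξ) := by simp
      rw [h5] at h4
      exact h4
  have h5 : Filter.Tendsto (fun k : ℕ => C ((1 : ℝ) / ((k : ℝ) + 1))) Filter.atTop (nhds (C 0)) :=
    (hC.tendsto 0).comp ht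
  refine le_of_tendsto_of_tendsto' h1 h5 fun k => ?_
  have hk : 0 < (1 : ℝ) / ((k : ℝ) + 1) := by positivity
  rw [mollified θ hk]
  exact h _ hk

theorem S_update {n : ℕ} (θ x : Fin n → ℝ) (i : Fin n) (t : ℝ) :
    S θ (Function.update x i t) = θ i * t + S θ (Function.update x i 0) := by
  have h : Function.update x i t = Pi.single i t + Function.update x i 0 := by
    funext k
    by_cases hk : k = i
    · subst hk; simp
    · simp [hk]
  rw [h]
  unfold S
  simp only [Pi.add_apply, mul_add, Finset.sum_add_distrib]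
  congr 1
  rw [Finset.sum_eq_single i]
  · rw [Pi.single_eq_same]
  · intro k _ hk
    rw [Pi.single_eq_of_ne hk, mul_zero]
  · intro h; exact absurd (Finset.mem_univ _) h

theorem G_integral {e : ℝ} (he : 0 < e) : ∫ u, G e u = 2 * Real.pi := by
  unfold G
  rw [integral_const_mul]
  have h : ∀ u : ℝ, Real.exp (-(u ^ 2 / (2 * e ^ 2))) = Real.exp (-(1 / (2 * e ^ 2)) * u ^ 2) := by
    intro u; congr 1; ring
  simp_rw [h]
  rw [integral_gaussian]
  have h2 : Real.pi / (1 / (2 * e ^ 2)) = (2 * Real.pi) * e ^ 2 := by field_simp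
  rw [h2, Real.sqrt_mul (show (0 : ℝ) ≤ 2 * Real.pi by positivity) (e ^ 2), Real.sqrt_sq he.le]
  have h3 := Real.mul_self_sqrt (show 0 ≤ 2 * Real.pi by positivity)
  rw [div_mul_eq_mul_div, mul_comm (Real.sqrt (2 * Real.pi)) (Real.sqrt (2 * Real.pi) * e),
    mul_right_comm, h3, mul_div_assoc, div_self he.ne', mul_one]

theorem G_integrable {e : ℝ} (he : 0 < e) : Integrable (G e) := by
  unfold G
  refine Integrable.const_mul ?_ _
  have h : ∀ u : ℝ, Real.exp (-(u ^ 2 / (2 * e ^ 2))) = Real.exp (-(1 / (2 * e ^ 2)) * u ^ 2) := by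
    intro u; congr 1; ring
  simp_rw [h]
  exact integrable_exp_neg_mul_sq (by positivity)

theorem lint_affine (h : ℝ → ENNReal) (hh : Measurable h) {a : ℝ} (ha : 0 < a) (y : ℝ) :
    ∫⁻ s, h (a * s + y) = ENNReal.ofReal a⁻¹ * ∫⁻ u, h u := by
  have h1 := Real.map_volume_mul_left ha.ne'
  have h2 : ∫⁻ s, h (a * s + y) = ∫⁻ v, h (v + y) ∂(Measure.map (a * ·) volume) := by
    rw [lintegral_map (f := fun v => h (v + y)) (g := fun s => a * s) (hh.comp (by fun_prop))
      (by fun_prop)]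
  rw [h2, h1, lintegral_smul_measure, lintegral_add_right_eq_self h y,
    abs_of_pos (inv_pos.2 ha), smul_eq_mul]

theorem keyK (b c : ℝ) (hb : |b| ≤ 1) :
    ∫ t in (-1 : ℝ)..1, w t * w (c - b * t) ≤
      ∫ t in (-1 : ℝ)..1, Real.exp (-((1 + b ^ 2) * t ^ 2 / 2)) := by
  have hc1 : Continuous (fun t : ℝ => w t * w (c - b * t)) := by
    have := w_cont
    fun_prop
  have hc2 : Continuous (fun t : ℝ => w t * w (c + b * t)) := by
    have := w_cont
    fun_prop
  have h1 : ∫ t in (-1 : ℝ)..1, w t * w (c - b * t) = ∫ t in (-1 : ℝ)..1, w t * w (c + b * t) := by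
    have h := intervalIntegral.integral_comp_neg (a := (-1 : ℝ)) (b := 1)
      (fun t => w t * w (c + b * t))
    rw [neg_neg] at h
    rw [← h]
    refine intervalIntegral.integral_congr fun t _ => ?_
    simp only [w_neg]
    congr 2
    ring
  have h2 : ∫ t in (-1 : ℝ)..1, w t * w (c - b * t) =
      ∫ t in (-1 : ℝ)..1, (w t * w (c - b * t) + w t * w (c + b * t)) / 2 := by
    rw [intervalIntegral.integral_div, intervalIntegral.integral_add
      (hc1.intervalIntegrable _ _) (hc2.intervalIntegrable _ _), ← h1]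
    ring
  rw [h2]
  refine intervalIntegral.integral_mono_on (by norm_num)
    (((hc1.add hc2).div_const 2).intervalIntegrable _ _)
    (Continuous.intervalIntegrable (by fun_prop) _ _) fun t ht => ?_
  have h3 : (w t * w (c - b * t) + w t * w (c + b * t)) / 2 =
      Real.exp (-((1 + b ^ 2) * t ^ 2 / 2)) * (Real.exp (-(c ^ 2 / 2)) * Real.cosh (b * c * t)) := by
    unfold w
    rw [Real.cosh_eq, ← Real.exp_add, ← Real.exp_add, mul_div_assoc', mul_div_assoc', mul_add,
      mul_add, ← Real.exp_add, ← Real.exp_add, ← Real.exp_add, ← Real.exp_add]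
    congr 3 <;> ring
  rw [h3]
  have h4 := Real.cosh_le_exp_half_sq (b * c * t)
  have h5 : Real.exp (-(c ^ 2 / 2)) * Real.cosh (b * c * t) ≤ 1 := by
    calc Real.exp (-(c ^ 2 / 2)) * Real.cosh (b * c * t)
        ≤ Real.exp (-(c ^ 2 / 2)) * Real.exp ((b * c * t) ^ 2 / 2) :=
          mul_le_mul_of_nonneg_left h4 (Real.exp_pos _).le
      _ = Real.exp (-(c ^ 2 / 2) + (b * c * t) ^ 2 / 2) := (Real.exp_add _ _).symm
      _ ≤ 1 := by
        rw [Real.exp_le_one_iff]
        have hb2 : b ^ 2 ≤ 1 := by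
          rw [← sq_abs]; nlinarith [abs_nonneg b]
        have ht2 : t ^ 2 ≤ 1 := by nlinarith [ht.1, ht.2]
        have : (b * c * t) ^ 2 ≤ c ^ 2 := by
          have : (b * c * t) ^ 2 = c ^ 2 * (b ^ 2 * t ^ 2) := by ring
          rw [this]
          have h6 : b ^ 2 * t ^ 2 ≤ 1 := by nlinarith [sq_nonneg b, sq_nonneg t]
          nlinarith [sq_nonneg c]
        linarith
  exact mul_le_of_le_one_right (Real.exp_pos _).le h5

theorem keyK' (b c : ℝ) (hb : |b| ≤ 1) :
    ∫⁻ t in Set.Icc (-1 : ℝ) 1, ENNReal.ofReal (w t / m0) * ENNReal.ofReal (w (c - b * t) / m0) ≤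
      ENNReal.ofReal ((∫ t in (-1 : ℝ)..1, Real.exp (-((1 + b ^ 2) * t ^ 2 / 2))) / m0 ^ 2) := by
  have hc1 : Continuous (fun t : ℝ => w t * w (c - b * t) / m0 ^ 2) := by
    have := w_cont
    fun_prop
  have h1 : ∀ t : ℝ, ENNReal.ofReal (w t / m0) * ENNReal.ofReal (w (c - b * t) / m0) =
      ENNReal.ofReal (w t * w (c - b * t) / m0 ^ 2) := by
    intro t
    rw [← ENNReal.ofReal_mul (div_nonneg (w_pos _).le m0_pos.le)]
    congr 1
    rw [div_mul_div_comm, sq]
  simp_rw [h1]
  rw [← ofReal_integral_eq_lintegral_ofReal (hc1.continuousOn.integrableOn_compact isCompact_Icc)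
    (Filter.Eventually.of_forall fun t => by
      have := (w_pos t).le
      have := (w_pos (c - b * t)).le
      positivity), integral_Icc_eq_integral_Ioc,
    ← intervalIntegral.integral_of_le (by norm_num), intervalIntegral.integral_div]
  exact ENNReal.ofReal_le_ofReal (div_le_div_of_nonneg_right (keyK b c hb) (by positivity))

theorem T3_main {n : ℕ} (θ : Fin n → ℝ) (i j : Fin n) (hij : i ≠ j)
    (hj : 0 < θ j) (hji : θ j ≤ θ i) {e : ℝ} (he : 0 < e) :
    ∫⁻ x, ENNReal.ofReal (G e (S θ x)) ∂(mu n) ≤ ENNReal.ofReal (2 * Real.pi / (θ i * m0 ^ 2) *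
      ∫ x in (-1 : ℝ)..1, Real.exp (-((1 + θ j ^ 2 / θ i ^ 2) * x ^ 2 / 2))) := by
  have hi : 0 < θ i := lt_of_lt_of_le hj hji
  obtain ⟨T, hT⟩ : ∃ T, T = ∫ x in (-1 : ℝ)..1, Real.exp (-((1 + (θ j / θ i) ^ 2) * x ^ 2 / 2)) :=
    ⟨_, rfl⟩
  have hT' : ∫ x in (-1 : ℝ)..1, Real.exp (-((1 + θ j ^ 2 / θ i ^ 2) * x ^ 2 / 2)) = T := by
    rw [hT, div_pow]
  rw [hT']
  have hGm : Measurable (fun u => ENNReal.ofReal (G e u)) := (G_cont e).measurable.ennreal_ofReal
  have hfm : Measurable (fun x : Fin n → ℝ => ENNReal.ofReal (G e (S θ x))) :=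
    ((G_cont e).comp (S_cont θ)).measurable.ennreal_ofReal
  have hWm : Measurable (fun x : ℝ => ENNReal.ofReal (w x / m0)) := dens_meas
  obtain ⟨Cc, hCc⟩ : ∃ Cc : ENNReal, Cc = ENNReal.ofReal (2 * Real.pi / (θ i * m0 ^ 2) * T) :=
    ⟨_, rfl⟩
  rw [← hCc]
  -- the two dimensional bound
  have key : ∀ x : Fin n → ℝ, ∫⁻ t, ∫⁻ s, ENNReal.ofReal
      (G e (S θ (Function.update (Function.update x j t) i s))) ∂nu ∂nu ≤ Cc := by
    intro x
    obtain ⟨z, hz⟩ : ∃ z, z = S θ (Function.update (Function.update x i 0) j 0) := ⟨_, rfl⟩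
    have h1 : ∀ t s, S θ (Function.update (Function.update x j t) i s) =
        θ i * s + (θ j * t + z) := by
      intro t s
      rw [S_update, Function.update_comm hij.symm, S_update θ _ j, hz]
    simp_rw [h1]
    -- inner integral
    have h2 : ∀ t, ∫⁻ s, ENNReal.ofReal (G e (θ i * s + (θ j * t + z))) ∂nu ≤
        ENNReal.ofReal (θ i)⁻¹ * ∫⁻ u, ENNReal.ofReal (w ((u - z) / θ i - θ j / θ i * t) / m0) *
          ENNReal.ofReal (G e u) := by
      intro t
      rw [nu_lint (fun s => ENNReal.ofReal (G e (θ i * s + (θ j * t + z))))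
        (hGm.comp (g := fun u => ENNReal.ofReal (G e u)) (f := fun s => θ i * s + (θ j * t + z))
          (by fun_prop))]
      have h3 := lint_affine (fun u => ENNReal.ofReal (w ((u - z) / θ i - θ j / θ i * t) / m0) *
          ENNReal.ofReal (G e u)) ((hWm.comp (by fun_prop)).mul hGm) hi (θ j * t + z)
      rw [← h3]
      refine (setLIntegral_le_lintegral _ _).trans (le_of_eq ?_)
      refine lintegral_congr fun s => ?_
      congr 4
      field_simp
      ring
    calc ∫⁻ t, ∫⁻ s, ENNReal.ofReal (G e (θ i * s + (θ j * t + z))) ∂nu ∂nu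
        ≤ ∫⁻ t, (ENNReal.ofReal (θ i)⁻¹ * ∫⁻ u, ENNReal.ofReal
          (w ((u - z) / θ i - θ j / θ i * t) / m0) * ENNReal.ofReal (G e u)) ∂nu :=
          lintegral_mono h2
      _ = ENNReal.ofReal (θ i)⁻¹ * ∫⁻ t, (∫⁻ u, ENNReal.ofReal
          (w ((u - z) / θ i - θ j / θ i * t) / m0) * ENNReal.ofReal (G e u)) ∂nu := by
          rw [lintegral_const_mul' _ _ ENNReal.ofReal_ne_top]
      _ = ENNReal.ofReal (θ i)⁻¹ * ∫⁻ u, ∫⁻ t, ENNReal.ofReal
          (w ((u - z) / θ i - θ j / θ i * t) / m0) * ENNReal.ofReal (G e u) ∂nu := by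
          congr 1
          refine lintegral_lintegral_swap ?_
          have := w_cont
          have := G_cont e
          refine Measurable.aemeasurable ?_
          unfold Function.uncurry
          exact ((Continuous.measurable (by fun_prop)).ennreal_ofReal).mul
            ((Continuous.measurable (by fun_prop)).ennreal_ofReal)
      _ ≤ ENNReal.ofReal (θ i)⁻¹ * ∫⁻ u, ENNReal.ofReal (T / m0 ^ 2) * ENNReal.ofReal (G e u) := by
          refine mul_le_mul_right (lintegral_mono fun u => ?_) _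
          simp only
          rw [lintegral_mul_const' _ _ ENNReal.ofReal_ne_top]
          refine mul_le_mul_left ?_ _
          rw [nu_lint (fun t => ENNReal.ofReal (w ((u - z) / θ i - θ j / θ i * t) / m0))
            (hWm.comp (g := fun x => ENNReal.ofReal (w x / m0))
              (f := fun t => (u - z) / θ i - θ j / θ i * t) (by fun_prop)), hT]
          refine keyK' (θ j / θ i) ((u - z) / θ i) ?_
          rw [abs_of_pos (by positivity)]
          exact (div_le_one hi).2 hji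
      _ = Cc := by
          rw [lintegral_const_mul' _ _ ENNReal.ofReal_ne_top,
            ← ofReal_integral_eq_lintegral_ofReal (G_integrable he)
              (Filter.Eventually.of_forall fun u => G_nonneg he u), G_integral he,
            ← ENNReal.ofReal_mul, ← ENNReal.ofReal_mul (by positivity), hCc]
          · congr 1
            have := m0_pos
            field_simp
          · rw [hT]
            refine div_nonneg ?_ (by positivity)
            exact intervalIntegral.integral_nonneg (by norm_num) fun _ _ => (Real.exp_pos _).le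
  -- reduce
  have hle : (MeasureTheory.lmarginal (fun _ : Fin n => nu) Finset.univ
      (fun x : Fin n → ℝ => ENNReal.ofReal (G e (S θ x)))) ≤
      (MeasureTheory.lmarginal (fun _ : Fin n => nu) Finset.univ (fun _ : Fin n → ℝ => Cc)) := by
    refine lmarginal_le_of_subset (s := {j, i}) (Finset.subset_univ _) hfm measurable_const ?_
    intro x
    rw [lmarginal_insert _ hfm (by simpa using hij.symm)]
    simp_rw [lmarginal_singleton]
    have h5 : (MeasureTheory.lmarginal (fun _ : Fin n => nu) {j, i} (fun _ : Fin n → ℝ => Cc)) x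
        = Cc := by
      unfold lmarginal
      rw [lintegral_const, measure_univ, mul_one]
    rw [h5]
    exact key x
  have h6 := hle 0
  rw [← lintegral_eq_lmarginal_univ, ← lintegral_eq_lmarginal_univ, lintegral_const, measure_univ,
    mul_one] at h6
  exact h6

/-- two-coordinate bound -/
theorem F_le_T3 {n : ℕ} (θ : Fin n → ℝ) (i j : Fin n) (hij : i ≠ j)
    (hj : 0 < θ j) (hji : θ j ≤ θ i)
    (hint : Integrable (fun ξ : ℝ => ∏ i, phi (θ i * ξ))) :
    ∫ ξ : ℝ, ∏ i, phi (θ i * ξ) ≤ 2 * Real.pi / (θ i * m0 ^ 2) *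
      ∫ x in (-1 : ℝ)..1, Real.exp (-((1 + θ j ^ 2 / θ i ^ 2) * x ^ 2 / 2)) := by
  have hi : 0 < θ i := lt_of_lt_of_le hj hji
  refine limit θ hint (fun _ => _) continuous_const fun e he => ?_
  have h1 := T3_main θ i j hij hj hji he
  have hG : Integrable (fun x => G e (S θ x)) (mu n) :=
    mu_integrable _ ((G_cont e).comp (S_cont θ))
  rw [← ofReal_integral_eq_lintegral_ofReal hG
    (Filter.Eventually.of_forall fun x => G_nonneg he _)] at h1
  rwa [ENNReal.ofReal_le_ofReal_iff] at h1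
  have hm := m0_pos
  refine mul_nonneg (by positivity) ?_
  exact intervalIntegral.integral_nonneg (by norm_num) fun _ _ => (Real.exp_pos _).le

theorem resample_lint {n : ℕ} (i : Fin n) (h : (Fin n → ℝ) → ENNReal) (hh : Measurable h) :
    ∫⁻ x, h x ∂(mu n) = ∫⁻ x, ∫⁻ t, h (Function.update x i t) ∂nu ∂(mu n) := by
  have hH : Measurable (fun x : Fin n → ℝ => ∫⁻ t, h (Function.update x i t) ∂nu) := by
    have h1 := hh.lmarginal (fun _ : Fin n => nu) (s := {i})
    rwa [lmarginal_singleton] at h1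
  have h2 := lmarginal_eq_of_subset (μ := fun _ : Fin n => nu) (s := {i}) (t := Finset.univ)
    (f := h) (g := fun x => ∫⁻ t, h (Function.update x i t) ∂nu) (Finset.subset_univ _) hh hH (by
      rw [lmarginal_singleton, lmarginal_singleton]
      funext x
      simp only [Function.update_idem]
      rw [lintegral_const, measure_univ, mul_one])
  have h3 := congrFun h2 0
  rw [← lintegral_eq_lmarginal_univ, ← lintegral_eq_lmarginal_univ] at h3
  exact h3

theorem update_cont {n : ℕ} (i : Fin n) :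
    Continuous (fun p : (Fin n → ℝ) × ℝ => Function.update p.1 i p.2) :=
  continuous_fst.update i continuous_snd

theorem resample_map {n : ℕ} (i : Fin n) :
    Measure.map (fun p : (Fin n → ℝ) × ℝ => Function.update p.1 i p.2) ((mu n).prod nu) = mu n := by
  refine Measure.ext_of_lintegral _ fun h hh => ?_
  rw [lintegral_map hh (update_cont i).measurable,
    lintegral_prod (fun p : (Fin n → ℝ) × ℝ => h (Function.update p.1 i p.2))
      (hh.comp (update_cont i).measurable).aemeasurable, resample_lint i h hh]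

theorem resample {n : ℕ} (i : Fin n) (f : (Fin n → ℝ) → ℝ) (hf : Continuous f) :
    ∫ x, f x ∂(mu n) = ∫ x, ∫ t, f (Function.update x i t) ∂nu ∂(mu n) := by
  have h1 : Integrable (fun p : (Fin n → ℝ) × ℝ => f (Function.update p.1 i p.2))
      ((mu n).prod nu) := by
    have h2 : Integrable f (Measure.map (fun p : (Fin n → ℝ) × ℝ => Function.update p.1 i p.2)
        ((mu n).prod nu)) := by
      rw [resample_map]; exact mu_integrable f hf
    exact h2.comp_measurable (update_cont i).measurable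
  rw [← integral_prod _ h1]
  conv_lhs => rw [← resample_map i]
  rw [integral_map (update_cont i).measurable.aemeasurable hf.aestronglyMeasurable]

theorem w_deriv (x : ℝ) : HasDerivAt w (-(x * w x)) x := by
  unfold w
  have h1 : HasDerivAt (fun x : ℝ => -(x ^ 2) / 2) (-x) x := by
    have := ((hasDerivAt_pow 2 x).neg).div_const 2
    convert! this using 1
    simp
    ring
  have h2 := h1.exp
  convert! h2 using 1
  ring

theorem int_w2 : ∫ t in (-1 : ℝ)..1, t ^ 2 * w t = m0 - 2 * Real.exp (-(1 / 2)) := by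
  have h1 : ∀ t ∈ Set.uIcc (-1 : ℝ) 1, HasDerivAt (fun t => t * w t) (w t - t ^ 2 * w t) t := by
    intro t _
    have := (hasDerivAt_id t).mul (w_deriv t)
    convert! this using 1
    simp only [id]
    ring
  have hc : Continuous (fun t => w t - t ^ 2 * w t) := by
    have := w_cont
    fun_prop
  have h2 := intervalIntegral.integral_eq_sub_of_hasDerivAt h1 (hc.intervalIntegrable _ _)
  have hc2 : Continuous (fun t => t ^ 2 * w t) := by
    have := w_cont
    fun_prop
  rw [intervalIntegral.integral_sub (w_cont.intervalIntegrable _ _)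
    (hc2.intervalIntegrable _ _)] at h2
  have h3 : w 1 = Real.exp (-(1 / 2)) := by unfold w; congr 1; norm_num
  have h4 : w (-1) = Real.exp (-(1 / 2)) := by rw [w_neg, h3]
  rw [h3, h4] at h2
  have h5 : m0 = ∫ t in (-1 : ℝ)..1, w t := rfl
  rw [h5]
  linarith

theorem int_w4 : ∫ t in (-1 : ℝ)..1, t ^ 4 * w t = 3 * m0 - 8 * Real.exp (-(1 / 2)) := by
  have h1 : ∀ t ∈ Set.uIcc (-1 : ℝ) 1, HasDerivAt (fun t => t ^ 3 * w t)
      (3 * (t ^ 2 * w t) - t ^ 4 * w t) t := by
    intro t _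
    have := (hasDerivAt_pow 3 t).mul (w_deriv t)
    convert! this using 1
    push_cast
    ring
  have hc : Continuous (fun t => 3 * (t ^ 2 * w t) - t ^ 4 * w t) := by
    have := w_cont
    fun_prop
  have h2 := intervalIntegral.integral_eq_sub_of_hasDerivAt h1 (hc.intervalIntegrable _ _)
  have hc2 : Continuous (fun t => 3 * (t ^ 2 * w t)) := by
    have := w_cont
    fun_prop
  have hc4 : Continuous (fun t => t ^ 4 * w t) := by
    have := w_cont
    fun_prop
  rw [intervalIntegral.integral_sub (hc2.intervalIntegrable _ _)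
    (hc4.intervalIntegrable _ _), intervalIntegral.integral_const_mul, int_w2] at h2
  have h3 : w 1 = Real.exp (-(1 / 2)) := by unfold w; congr 1; norm_num
  have h4 : w (-1) = Real.exp (-(1 / 2)) := by rw [w_neg, h3]
  rw [h3, h4] at h2
  linarith

theorem nu_m2 : ∫ t, t ^ 2 ∂nu = 1 - cc := by
  rw [nu_int]
  have h1 : ∫ t in (-1 : ℝ)..1, (w t / m0) • t ^ 2 = (∫ t in (-1 : ℝ)..1, t ^ 2 * w t) / m0 := by
    rw [← intervalIntegral.integral_div]
    refine intervalIntegral.integral_congr fun x _ => ?_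
    simp only [smul_eq_mul]
    ring
  rw [h1, int_w2]
  unfold cc
  have := m0_pos
  field_simp

theorem nu_m4 : ∫ t, t ^ 4 ∂nu = 3 - 4 * cc := by
  rw [nu_int]
  have h1 : ∫ t in (-1 : ℝ)..1, (w t / m0) • t ^ 4 = (∫ t in (-1 : ℝ)..1, t ^ 4 * w t) / m0 := by
    rw [← intervalIntegral.integral_div]
    refine intervalIntegral.integral_congr fun x _ => ?_
    simp only [smul_eq_mul]
    ring
  rw [h1, int_w4]
  unfold cc
  have := m0_pos
  field_simp
  ring

theorem nu_quartic (c0 c1 c2 c3 c4 : ℝ) :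
    ∫ t, (c0 + c1 * t + c2 * t ^ 2 + c3 * t ^ 3 + c4 * t ^ 4) ∂nu =
      c0 + c2 * (1 - cc) + c4 * (3 - 4 * cc) := by
  rw [integral_add (nu_integrable _ (by fun_prop)) (nu_integrable _ (by fun_prop)),
    integral_add (nu_integrable _ (by fun_prop)) (nu_integrable _ (by fun_prop)),
    integral_add (nu_integrable _ (by fun_prop)) (nu_integrable _ (by fun_prop)),
    integral_add (nu_integrable _ (by fun_prop)) (nu_integrable _ (by fun_prop)),
    integral_const_mul c4, integral_const_mul c2, nu_m2, nu_m4,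
    nu_odd (fun t => c1 * t) (fun t => by ring), nu_odd (fun t => c3 * t ^ 3) (fun t => by ring),
    integral_const, probReal_univ]
  simp

theorem nu_sq (a y : ℝ) : ∫ t, (a * t + y) ^ 2 ∂nu = a ^ 2 * (1 - cc) + y ^ 2 := by
  have h : ∀ t : ℝ, (a * t + y) ^ 2 =
      y ^ 2 + (2 * a * y) * t + a ^ 2 * t ^ 2 + 0 * t ^ 3 + 0 * t ^ 4 := fun t => by ring
  simp_rw [h]
  rw [nu_quartic]
  ring

theorem nu_four (a y : ℝ) : ∫ t, (a * t + y) ^ 4 ∂nu =
    a ^ 4 * (3 - 4 * cc) + 6 * a ^ 2 * (1 - cc) * y ^ 2 + y ^ 4 := by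
  have h : ∀ t : ℝ, (a * t + y) ^ 4 =
      y ^ 4 + (4 * a * y ^ 3) * t + (6 * a ^ 2 * y ^ 2) * t ^ 2 + (4 * a ^ 3 * y) * t ^ 3 +
        a ^ 4 * t ^ 4 := fun t => by ring
  simp_rw [h]
  rw [nu_quartic]
  ring

theorem m0_le : m0 ≤ 1.7167 := by
  have h1 : m0 ≤ ∫ x in (-1 : ℝ)..1, (1 - x ^ 2 / 2 + x ^ 4 / 8) := by
    unfold m0
    refine intervalIntegral.integral_mono_on (by norm_num) (w_cont.intervalIntegrable _ _)
      (Continuous.intervalIntegrable (by fun_prop) _ _) fun x _ => ?_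
    unfold w
    have h2 : ∀ y : ℝ, 0 ≤ y → Real.exp (-y) ≤ 1 - y + y ^ 2 / 2 := by
      intro y hy
      have h3 := Real.quadratic_le_exp_of_nonneg hy
      have h4 : 0 < 1 - y + y ^ 2 / 2 := by nlinarith [sq_nonneg (y - 1)]
      rw [Real.exp_neg, inv_le_comm₀ (Real.exp_pos _) h4]
      refine le_trans ?_ h3
      rw [inv_le_iff_one_le_mul₀ h4]
      nlinarith [sq_nonneg (y ^ 2)]
    have h5 := h2 (x ^ 2 / 2) (by positivity)
    calc Real.exp (-(x ^ 2) / 2) = Real.exp (-(x ^ 2 / 2)) := by congr 1; ring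
      _ ≤ 1 - x ^ 2 / 2 + (x ^ 2 / 2) ^ 2 / 2 := h5
      _ = 1 - x ^ 2 / 2 + x ^ 4 / 8 := by ring
  refine h1.trans ?_
  have h6 : ∫ x in (-1 : ℝ)..1, (1 - x ^ 2 / 2 + x ^ 4 / 8) = 103 / 60 := by
    rw [intervalIntegral.integral_add (Continuous.intervalIntegrable (by fun_prop) _ _)
      (Continuous.intervalIntegrable (by fun_prop) _ _),
      intervalIntegral.integral_sub (Continuous.intervalIntegrable (by fun_prop) _ _)
      (Continuous.intervalIntegrable (by fun_prop) _ _), intervalIntegral.integral_div,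
      intervalIntegral.integral_div, integral_pow, integral_pow]
    norm_num
  rw [h6]
  norm_num

theorem exp_half_gt : (0.6 : ℝ) < Real.exp (-(1 / 2)) := by
  have h1 : Real.exp (1 / 2) ^ 2 = Real.exp 1 := by
    rw [← Real.exp_nat_mul]; norm_num
  have h2 := Real.exp_one_lt_d9
  have h3 : Real.exp (1 / 2) < 1.65 := by
    by_contra h
    push Not at h
    nlinarith [Real.exp_pos (1 / 2)]
  rw [Real.exp_neg, lt_inv_comm₀ (by norm_num) (Real.exp_pos _)]
  refine h3.trans ?_
  norm_num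

theorem cc_ge : 2 / 3 ≤ cc := by
  unfold cc
  rw [le_div_iff₀ m0_pos]
  have := m0_le
  have := exp_half_gt
  linarith

theorem mom_bound {n : ℕ} (θ : Fin n → ℝ) (A : Finset (Fin n)) :
    ∫ x, (∑ k ∈ A, θ k * x k) ^ 2 ∂(mu n) = (1 - cc) * ∑ k ∈ A, θ k ^ 2 ∧
    ∫ x, (∑ k ∈ A, θ k * x k) ^ 4 ∂(mu n) ≤ 3 * ((1 - cc) * ∑ k ∈ A, θ k ^ 2) ^ 2 := by
  classical
  induction A using Finset.induction with
  | empty => simp
  | insert j A hj ih =>
    have hup : ∀ (x : Fin n → ℝ) (t : ℝ), ∑ k ∈ insert j A, θ k * Function.update x j t k =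
        θ j * t + ∑ k ∈ A, θ k * x k := by
      intro x t
      rw [Finset.sum_insert hj, Function.update_self]
      congr 1
      refine Finset.sum_congr rfl fun k hk => ?_
      rw [Function.update_of_ne (show k ≠ j from fun h => hj (h ▸ hk))]
    obtain ⟨ih1, ih2⟩ := ih
    have hi2 : Integrable (fun x : Fin n → ℝ => (∑ k ∈ A, θ k * x k) ^ 2) (mu n) :=
      mu_integrable _ (by fun_prop)
    have hi4 : Integrable (fun x : Fin n → ℝ => (∑ k ∈ A, θ k * x k) ^ 4) (mu n) :=
      mu_integrable _ (by fun_prop)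
    constructor
    · rw [resample j _ (by fun_prop)]
      simp_rw [hup, nu_sq]
      rw [integral_add (integrable_const _) hi2, integral_const, probReal_univ, ih1,
        Finset.sum_insert hj]
      simp only [smul_eq_mul]
      ring
    · rw [resample j _ (by fun_prop)]
      simp_rw [hup, nu_four]
      have e1 : Integrable (fun x : Fin n → ℝ => θ j ^ 4 * (3 - 4 * cc) +
          6 * θ j ^ 2 * (1 - cc) * (∑ k ∈ A, θ k * x k) ^ 2) (mu n) := mu_integrable _ (by fun_prop)
      rw [integral_add e1 hi4,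
        integral_add (integrable_const _) (hi2.const_mul _), integral_const, probReal_univ,
        integral_const_mul, ih1, Finset.sum_insert hj]
      simp only [smul_eq_mul]
      have hcc := cc_ge
      have h5 : θ j ^ 4 * (3 - 4 * cc) ≤ 3 * (θ j ^ 2 * (1 - cc)) ^ 2 := by
        have : 3 * (θ j ^ 2 * (1 - cc)) ^ 2 - θ j ^ 4 * (3 - 4 * cc) =
          (θ j ^ 4) * (cc * (3 * cc - 2)) := by ring
        have h6 : 0 ≤ (θ j ^ 4) * (cc * (3 * cc - 2)) := by
          apply mul_nonneg (by positivity)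
          apply mul_nonneg (by linarith) (by linarith)
        linarith
      nlinarith [h5, ih2]

theorem G_pow_integrable {e : ℝ} (he : 0 < e) (k : ℕ) : Integrable (fun u => u ^ k * G e u) := by
  have h := integrable_rpow_mul_exp_neg_mul_sq (b := 1 / (2 * e ^ 2)) (by positivity)
    (s := (k : ℝ)) (by have : (0 : ℝ) ≤ k := Nat.cast_nonneg k
                       linarith)
  have h2 := h.const_mul (Real.sqrt (2 * Real.pi) / e)
  refine h2.congr (Filter.Eventually.of_forall fun u => ?_)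
  simp only
  unfold G
  rw [Real.rpow_natCast]
  have : Real.exp (-(u ^ 2 / (2 * e ^ 2))) = Real.exp (-(1 / (2 * e ^ 2)) * u ^ 2) := by
    congr 1; ring
  rw [this]
  ring

theorem G_deriv {e : ℝ} (he : 0 < e) (u : ℝ) : HasDerivAt (G e) (-(u / e ^ 2) * G e u) u := by
  unfold G
  have h1 : HasDerivAt (fun u : ℝ => -(u ^ 2 / (2 * e ^ 2))) (-(u / e ^ 2)) u := by
    have := ((hasDerivAt_pow 2 u).div_const (2 * e ^ 2)).neg
    convert! this using 1
    simp
    field_simp
  have h2 := h1.exp.const_mul (Real.sqrt (2 * Real.pi) / e)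
  convert! h2 using 1
  ring

theorem G_neg (e u : ℝ) : G e (-u) = G e u := by
  unfold G
  rw [neg_sq]

theorem G_odd (e : ℝ) (k : ℕ) (hk : Odd k) : ∫ u, u ^ k * G e u = 0 := by
  have h1 := integral_neg_eq_self (fun u => u ^ k * G e u) volume
  have h2 : ∫ u, (-u) ^ k * G e (-u) = - ∫ u, u ^ k * G e u := by
    rw [← integral_neg]
    refine integral_congr_ae (Filter.Eventually.of_forall fun u => ?_)
    simp only
    rw [hk.neg_pow, G_neg]
    ring
  linarith

theorem G_m2 {e : ℝ} (he : 0 < e) : ∫ u, u ^ 2 * G e u = 2 * Real.pi * e ^ 2 := by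
  have hd : ∀ u : ℝ, HasDerivAt (fun u => u ^ 1 * G e u) (G e u - 1 / e ^ 2 * (u ^ 2 * G e u)) u := by
    intro u
    have := (hasDerivAt_pow 1 u).mul (G_deriv he u)
    convert! this using 1
    simp
    ring
  have h1 := integral_eq_zero_of_hasDerivAt_of_integrable hd
    ((G_integrable he).sub ((G_pow_integrable he 2).const_mul _)) (G_pow_integrable he 1)
  rw [integral_sub (G_integrable he) ((G_pow_integrable he 2).const_mul _), integral_const_mul,
    G_integral he] at h1
  field_simp at h1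
  linarith

theorem G_m4 {e : ℝ} (he : 0 < e) : ∫ u, u ^ 4 * G e u = 6 * Real.pi * e ^ 4 := by
  have hd : ∀ u : ℝ, HasDerivAt (fun u => u ^ 3 * G e u)
      (3 * (u ^ 2 * G e u) - 1 / e ^ 2 * (u ^ 4 * G e u)) u := by
    intro u
    have := (hasDerivAt_pow 3 u).mul (G_deriv he u)
    convert! this using 1
    simp
    ring
  have h1 := integral_eq_zero_of_hasDerivAt_of_integrable hd
    (((G_pow_integrable he 2).const_mul _).sub ((G_pow_integrable he 4).const_mul _))
    (G_pow_integrable he 3)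
  rw [integral_sub ((G_pow_integrable he 2).const_mul _) ((G_pow_integrable he 4).const_mul _),
    integral_const_mul, integral_const_mul, G_m2 he] at h1
  field_simp at h1
  nlinarith [h1]

theorem G_quartic {e : ℝ} (he : 0 < e) (c0 c1 c2 c3 c4 : ℝ) :
    Integrable (fun u => (c0 + c1 * u + c2 * u ^ 2 + c3 * u ^ 3 + c4 * u ^ 4) * G e u) ∧
    ∫ u, (c0 + c1 * u + c2 * u ^ 2 + c3 * u ^ 3 + c4 * u ^ 4) * G e u =
      2 * Real.pi * (c0 + c2 * e ^ 2 + 3 * c4 * e ^ 4) := by
  have h0 := (G_integrable he).const_mul c0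
  have h1 := (G_pow_integrable he 1).const_mul c1
  have h2 := (G_pow_integrable he 2).const_mul c2
  have h3 := (G_pow_integrable he 3).const_mul c3
  have h4 := (G_pow_integrable he 4).const_mul c4
  have hfun : (fun u => (c0 + c1 * u + c2 * u ^ 2 + c3 * u ^ 3 + c4 * u ^ 4) * G e u) =
      (fun u => c0 * G e u + c1 * (u ^ 1 * G e u) + c2 * (u ^ 2 * G e u) + c3 * (u ^ 3 * G e u) +
        c4 * (u ^ 4 * G e u)) := by
    funext u; ring
  rw [hfun]
  have i01 := h0.add h1
  have i012 := i01.add h2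
  have i0123 := i012.add h3
  refine ⟨i0123.add h4, ?_⟩
  have e1 := integral_add i0123 h4
  have e2 := integral_add i012 h3
  have e3 := integral_add i01 h2
  have e4 := integral_add h0 h1
  simp only [Pi.add_apply] at e1 e2 e3 e4
  rw [e1, e2, e3, e4, integral_const_mul, integral_const_mul, integral_const_mul,
    integral_const_mul, integral_const_mul, G_integral he, G_odd e 1 (by decide),
    G_odd e 3 (by decide), G_m2 he, G_m4 he]
  ring

/-- the majorant -/
def q (x : ℝ) : ℝ := (1 - 2211 / 10000 * x ^ 2) ^ 2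

theorem w_le_q (x : ℝ) (hx : x ∈ Set.Icc (-1 : ℝ) 1) : w x ≤ q x := by
  have h0 : Real.exp (-(1 / 4)) ≤ 7789 / 10000 := by
    have h1 : Real.exp (-(1 / 4)) ^ 4 = Real.exp (-1) := by
      rw [← Real.exp_nat_mul]; norm_num
    have h2 := Real.exp_neg_one_lt_d9
    refine (pow_le_pow_iff_left₀ (Real.exp_pos _).le (by norm_num) (n := 4) (by norm_num)).1 ?_
    rw [h1]
    refine h2.le.trans ?_
    norm_num
  have hy0 : 0 ≤ x ^ 2 := sq_nonneg x
  have hy1 : x ^ 2 ≤ 1 := by nlinarith [hx.1, hx.2]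
  have hconv := convexOn_exp.2 (Set.mem_univ (0 : ℝ)) (Set.mem_univ (-(1 / 4) : ℝ))
    (show 0 ≤ 1 - x ^ 2 by linarith) hy0 (by ring)
  simp only [smul_eq_mul, mul_zero, zero_add, Real.exp_zero, mul_one] at hconv
  have h3 : Real.exp (x ^ 2 * -(1 / 4)) ≤ 1 - 2211 / 10000 * x ^ 2 := by nlinarith
  have h4 : w x = Real.exp (x ^ 2 * -(1 / 4)) ^ 2 := by
    unfold w
    rw [← Real.exp_nat_mul]
    congr 1
    push_cast
    ring
  rw [h4]
  unfold q
  exact pow_le_pow_left₀ (Real.exp_pos _).le h3 2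

theorem inner_bound {th e : ℝ} (hth : 0 < th) (he : 0 < e) (y : ℝ) :
    ∫ t, G e (th * t + y) ∂nu ≤ 2 * Real.pi / (th * m0) *
      (1 - 2 * (2211 / 10000) * ((y ^ 2 + e ^ 2) / th ^ 2) +
        (2211 / 10000) ^ 2 * ((y ^ 4 + 6 * y ^ 2 * e ^ 2 + 3 * e ^ 4) / th ^ 4)) := by
  have hm := m0_pos
  -- the function in the variable `u`
  have hh : ∀ u : ℝ, q ((u - y) / th) / m0 * G e u =
      (((1 - 2 * (2211 / 10000) * (y ^ 2 / th ^ 2) + (2211 / 10000) ^ 2 * (y ^ 4 / th ^ 4)) / m0) +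
       ((4 * (2211 / 10000) * y / th ^ 2 - 4 * (2211 / 10000) ^ 2 * y ^ 3 / th ^ 4) / m0) * u +
       ((- 2 * (2211 / 10000) / th ^ 2 + 6 * (2211 / 10000) ^ 2 * y ^ 2 / th ^ 4) / m0) * u ^ 2 +
       ((- 4 * (2211 / 10000) ^ 2 * y / th ^ 4) / m0) * u ^ 3 +
       (((2211 / 10000) ^ 2 / th ^ 4) / m0) * u ^ 4) * G e u := by
    intro u
    unfold q
    congr 1
    field_simp
    ring
  obtain ⟨hI, hV⟩ := G_quartic he
    ((1 - 2 * (2211 / 10000) * (y ^ 2 / th ^ 2) + (2211 / 10000) ^ 2 * (y ^ 4 / th ^ 4)) / m0)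
    ((4 * (2211 / 10000) * y / th ^ 2 - 4 * (2211 / 10000) ^ 2 * y ^ 3 / th ^ 4) / m0)
    ((- 2 * (2211 / 10000) / th ^ 2 + 6 * (2211 / 10000) ^ 2 * y ^ 2 / th ^ 4) / m0)
    ((- 4 * (2211 / 10000) ^ 2 * y / th ^ 4) / m0)
    (((2211 / 10000) ^ 2 / th ^ 4) / m0)
  simp_rw [← hh] at hI hV
  have hI2 : Integrable (fun t => q t / m0 * G e (th * t + y)) := by
    have h1 := (hI.comp_add_right y).comp_mul_left' hth.ne'
    refine h1.congr (Filter.Eventually.of_forall fun t => ?_)
    simp only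
    congr 3
    field_simp
    ring
  have hV2 : ∫ t, q t / m0 * G e (th * t + y) = th⁻¹ * ∫ u, q ((u - y) / th) / m0 * G e u := by
    have h1 := integral_add_right_eq_self (μ := volume) (fun u => q ((u - y) / th) / m0 * G e u) y
    rw [← h1]
    have h2 := Measure.integral_comp_mul_left (fun u => q ((u + y - y) / th) / m0 * G e (u + y)) th
    rw [abs_of_pos (inv_pos.2 hth), smul_eq_mul] at h2
    rw [← h2]
    refine integral_congr_ae (Filter.Eventually.of_forall fun t => ?_)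
    simp only
    congr 3
    field_simp
    ring
  rw [nu_int, intervalIntegral.integral_of_le (by norm_num), ← integral_Icc_eq_integral_Ioc]
  calc ∫ t in Set.Icc (-1 : ℝ) 1, (w t / m0) • G e (th * t + y)
      ≤ ∫ t in Set.Icc (-1 : ℝ) 1, q t / m0 * G e (th * t + y) := by
        refine setIntegral_mono_on ?_ hI2.integrableOn measurableSet_Icc fun t ht => ?_
        · have := w_cont
          have := G_cont e
          exact (Continuous.continuousOn (by fun_prop)).integrableOn_compact isCompact_Icc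
        · rw [smul_eq_mul]
          exact mul_le_mul_of_nonneg_right (div_le_div_of_nonneg_right (w_le_q t ht) hm.le)
            (G_nonneg he _)
    _ ≤ ∫ t, q t / m0 * G e (th * t + y) := by
        refine setIntegral_le_integral hI2 (Filter.Eventually.of_forall fun t => ?_)
        have h1 : 0 ≤ q t := sq_nonneg _
        exact mul_nonneg (by positivity) (G_nonneg he _)
    _ = th⁻¹ * ∫ u, q ((u - y) / th) / m0 * G e u := hV2
    _ = _ := by
        rw [hV]
        field_simp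
        ring

/-- moment bound (conditioning on coordinate `i0`) -/
theorem F_le_M {n : ℕ} (θ : Fin n → ℝ) (hθ : ∑ i, θ i ^ 2 = 1) (i0 : Fin n)
    (hx : 0 < θ i0) (hx1 : θ i0 < 1)
    (hint : Integrable (fun ξ : ℝ => ∏ i, phi (θ i * ξ))) :
    ∫ ξ : ℝ, ∏ i, phi (θ i * ξ) ≤ 2 * Real.pi / (θ i0 * m0) *
      (1 - 2 * (2211 / 10000) * ((1 - cc) * ((1 - θ i0 ^ 2) / θ i0 ^ 2))
        + 3 * (2211 / 10000) ^ 2 * ((1 - cc) * ((1 - θ i0 ^ 2) / θ i0 ^ 2)) ^ 2) := by
  classical
  have hm := m0_pos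
  obtain ⟨V, hV⟩ : ∃ V, V = (1 - cc) * (1 - θ i0 ^ 2) := ⟨_, rfl⟩
  have hsum : ∑ k ∈ Finset.univ.erase i0, θ k ^ 2 = 1 - θ i0 ^ 2 := by
    have := Finset.sum_erase_eq_sub (f := fun k => θ k ^ 2) (Finset.mem_univ i0)
    rw [this, hθ]
  have hS : ∀ x : Fin n → ℝ, S θ (Function.update x i0 0) = ∑ k ∈ Finset.univ.erase i0, θ k * x k := by
    intro x
    unfold S
    rw [← Finset.add_sum_erase _ _ (Finset.mem_univ i0), Function.update_self, mul_zero, zero_add]
    refine Finset.sum_congr rfl fun k hk => ?_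
    rw [Function.update_of_ne (Finset.ne_of_mem_erase hk)]
  obtain ⟨m2, m4⟩ := mom_bound θ (Finset.univ.erase i0)
  rw [hsum, ← hV] at m2 m4
  have hi2 : Integrable (fun x : Fin n → ℝ => (∑ k ∈ Finset.univ.erase i0, θ k * x k) ^ 2) (mu n) :=
    mu_integrable _ (by fun_prop)
  have hi4 : Integrable (fun x : Fin n → ℝ => (∑ k ∈ Finset.univ.erase i0, θ k * x k) ^ 4) (mu n) :=
    mu_integrable _ (by fun_prop)
  have main := limit θ hint (fun e => 2 * Real.pi / (θ i0 * m0) *
      (1 - 2 * (2211 / 10000) * ((V + e ^ 2) / θ i0 ^ 2) +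
        (2211 / 10000) ^ 2 * ((3 * V ^ 2 + 6 * V * e ^ 2 + 3 * e ^ 4) / θ i0 ^ 4)))
    (by fun_prop) (fun e he => ?_)
  · refine main.trans (le_of_eq ?_)
    rw [hV]
    field_simp
    ring
  · rw [resample i0 (fun x => G e (S θ x)) ((G_cont e).comp (S_cont θ))]
    have h1 : ∀ (x : Fin n → ℝ), ∫ t, G e (S θ (Function.update x i0 t)) ∂nu ≤
        2 * Real.pi / (θ i0 * m0) *
      (1 - 2 * (2211 / 10000) * (((∑ k ∈ Finset.univ.erase i0, θ k * x k) ^ 2 + e ^ 2) / θ i0 ^ 2) +
        (2211 / 10000) ^ 2 * (((∑ k ∈ Finset.univ.erase i0, θ k * x k) ^ 4 +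
          6 * (∑ k ∈ Finset.univ.erase i0, θ k * x k) ^ 2 * e ^ 2 + 3 * e ^ 4) / θ i0 ^ 4)) := by
      intro x
      have h0 : ∀ t, S θ (Function.update x i0 t) =
          θ i0 * t + ∑ k ∈ Finset.univ.erase i0, θ k * x k := by
        intro t
        rw [S_update θ x i0 t, hS]
      have h00 : (fun t => G e (S θ (Function.update x i0 t))) =
          fun t => G e (θ i0 * t + ∑ k ∈ Finset.univ.erase i0, θ k * x k) := by
        funext t; rw [h0]
      rw [h00]
      exact inner_bound hx he _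
    have hint2 : Integrable (fun p : (Fin n → ℝ) × ℝ => G e (S θ (Function.update p.1 i0 p.2)))
        ((mu n).prod nu) := by
      have h2 : Integrable (fun x => G e (S θ x)) (Measure.map
          (fun p : (Fin n → ℝ) × ℝ => Function.update p.1 i0 p.2) ((mu n).prod nu)) := by
        rw [resample_map]; exact mu_integrable _ ((G_cont e).comp (S_cont θ))
      exact h2.comp_measurable (update_cont i0).measurable
    refine (integral_mono hint2.integral_prod_left (mu_integrable _ (by fun_prop)) h1).trans ?_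
    rw [integral_const_mul]
    refine mul_le_mul_of_nonneg_left ?_ (by positivity)
    have h3 : ∀ x : Fin n → ℝ, (1 - 2 * (2211 / 10000) *
        (((∑ k ∈ Finset.univ.erase i0, θ k * x k) ^ 2 + e ^ 2) / θ i0 ^ 2) +
        (2211 / 10000) ^ 2 * (((∑ k ∈ Finset.univ.erase i0, θ k * x k) ^ 4 +
          6 * (∑ k ∈ Finset.univ.erase i0, θ k * x k) ^ 2 * e ^ 2 + 3 * e ^ 4) / θ i0 ^ 4)) =
        (1 - 2 * (2211 / 10000) * (e ^ 2 / θ i0 ^ 2) +
          (2211 / 10000) ^ 2 * (3 * e ^ 4 / θ i0 ^ 4)) +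
        (- 2 * (2211 / 10000) / θ i0 ^ 2 + (2211 / 10000) ^ 2 * (6 * e ^ 2) / θ i0 ^ 4) *
          (∑ k ∈ Finset.univ.erase i0, θ k * x k) ^ 2 +
        ((2211 / 10000) ^ 2 / θ i0 ^ 4) * (∑ k ∈ Finset.univ.erase i0, θ k * x k) ^ 4 := by
      intro x
      field_simp
      ring
    simp_rw [h3]
    have e1 : Integrable (fun x : Fin n → ℝ => (1 - 2 * (2211 / 10000) * (e ^ 2 / θ i0 ^ 2) +
          (2211 / 10000) ^ 2 * (3 * e ^ 4 / θ i0 ^ 4)) +
        (- 2 * (2211 / 10000) / θ i0 ^ 2 + (2211 / 10000) ^ 2 * (6 * e ^ 2) / θ i0 ^ 4) *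
          (∑ k ∈ Finset.univ.erase i0, θ k * x k) ^ 2) (mu n) := mu_integrable _ (by fun_prop)
    rw [integral_add e1 (hi4.const_mul _), integral_add (integrable_const _) (hi2.const_mul _),
      integral_const, probReal_univ, integral_const_mul, integral_const_mul, m2]
    have h5 : ((2211 / 10000 : ℝ) ^ 2 / θ i0 ^ 4) *
        ∫ x, (∑ k ∈ Finset.univ.erase i0, θ k * x k) ^ 4 ∂(mu n) ≤
        ((2211 / 10000) ^ 2 / θ i0 ^ 4) * (3 * V ^ 2) := mul_le_mul_of_nonneg_left m4 (by positivity)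
    refine (add_le_add le_rfl h5).trans (le_of_eq ?_)
    simp only [smul_eq_mul, one_mul]
    field_simp
    ring

end
end CG3
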