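import Pool.Agent.CG3.Base2

open MeasureTheory ProbabilityTheory
open scoped BigOperators

namespace CG3
noncomputable section

/-- truncated weight -/
def GBF (x : ℝ) : ℝ := Set.indicator (Set.Icc (-1) 1) w x

lemma GB_w_cont : Continuous w := by
  unfold w; fun_prop

lemma GBF_int : Integrable GBF := by
  unfold GBF
  exact (integrable_indicator_iff measurableSet_Icc).2 (GB_w_cont.continuousOn.integrableOn_Icc)

lemma GBF_even (x : ℝ) : GBF (-x) = GBF x := by
  have hw : w (-x) = w x := by simp [w]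
  unfold GBF
  by_cases h : x ∈ Set.Icc (-1 : ℝ) 1
  · have h' : -x ∈ Set.Icc (-1 : ℝ) 1 := ⟨by linarith [h.2], by linarith [h.1]⟩
    rw [Set.indicator_of_mem h, Set.indicator_of_mem h', hw]
  · have h' : -x ∉ Set.Icc (-1 : ℝ) 1 := by
      intro h'
      exact h ⟨by linarith [h'.2], by linarith [h'.1]⟩
    rw [Set.indicator_of_notMem h, Set.indicator_of_notMem h']

lemma GBF_nonneg (x : ℝ) : 0 ≤ GBF x := by
  unfold GBF
  apply Set.indicator_nonneg
  intro y _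
  exact (Real.exp_pos _).le

lemma GB_a (t : ℝ) : ∫ x, GBF x * Real.cos (t * x) = ∫ x in (-1 : ℝ)..1, w x * Real.cos (t * x) := by
  rw [intervalIntegral.integral_of_le (by norm_num), ← integral_Icc_eq_integral_Ioc,
    ← integral_indicator measurableSet_Icc]
  congr 1
  funext x
  unfold GBF
  by_cases h : x ∈ Set.Icc (-1 : ℝ) 1
  · rw [Set.indicator_of_mem h, Set.indicator_of_mem h]
  · rw [Set.indicator_of_notMem h, Set.indicator_of_notMem h, zero_mul]

lemma GBF_cos_int (t : ℝ) : Integrable (fun x => GBF x * Real.cos (t * x)) := by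
  apply GBF_int.mono
  · exact GBF_int.aestronglyMeasurable.mul (Continuous.aestronglyMeasurable (by fun_prop))
  · refine Filter.Eventually.of_forall fun x => ?_
    rw [norm_mul]
    have : ‖Real.cos (t * x)‖ ≤ 1 := Real.abs_cos_le_one _
    nlinarith [norm_nonneg (GBF x)]

lemma GBF_sin_int (t : ℝ) : Integrable (fun x => GBF x * Real.sin (t * x)) := by
  apply GBF_int.mono
  · exact GBF_int.aestronglyMeasurable.mul (Continuous.aestronglyMeasurable (by fun_prop))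
  · refine Filter.Eventually.of_forall fun x => ?_
    rw [norm_mul]
    have : ‖Real.sin (t * x)‖ ≤ 1 := Real.abs_sin_le_one _
    nlinarith [norm_nonneg (GBF x)]

lemma GB_sin (t : ℝ) : ∫ x, GBF x * Real.sin (t * x) = 0 := by
  have h1 : ∫ x, GBF (-x) * Real.sin (t * (-x)) = ∫ x, GBF x * Real.sin (t * x) :=
    integral_neg_eq_self (fun x => GBF x * Real.sin (t * x)) volume
  have h2 : ∫ x, GBF (-x) * Real.sin (t * (-x)) = - ∫ x, GBF x * Real.sin (t * x) := by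
    rw [← integral_neg]
    congr 1
    funext x
    rw [GBF_even, mul_neg, Real.sin_neg]
    ring
  linarith

/-- autocorrelation -/
def GBC (d : ℝ) : ℝ := ∫ x, GBF x * GBF (d - x)

lemma GB_prod_int : Integrable (fun p : ℝ × ℝ => GBF p.2 * GBF (p.1 - p.2))
    (volume.prod volume) := by
  have := GBF_int.convolution_integrand (ContinuousLinearMap.mul ℝ ℝ) GBF_int
  simpa using this

lemma GBC_int : Integrable GBC := GB_prod_int.integral_prod_left

lemma GB_conv (t : ℝ) :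
    ∫ d, GBC d * Real.cos (t * d) = (∫ x, GBF x * Real.cos (t * x)) ^ 2 := by
  have hint2 : Integrable (fun p : ℝ × ℝ => GBF p.2 * GBF (p.1 - p.2) * Real.cos (t * p.1))
      (volume.prod volume) := by
    apply GB_prod_int.mono
    · exact GB_prod_int.aestronglyMeasurable.mul (Continuous.aestronglyMeasurable (by fun_prop))
    · refine Filter.Eventually.of_forall fun p => ?_
      rw [norm_mul]
      have : ‖Real.cos (t * p.1)‖ ≤ 1 := Real.abs_cos_le_one _
      nlinarith [norm_nonneg (GBF p.2 * GBF (p.1 - p.2))]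
  have e1 : ∫ d, GBC d * Real.cos (t * d)
      = ∫ d, ∫ x, GBF x * GBF (d - x) * Real.cos (t * d) := by
    congr 1
    funext d
    rw [integral_mul_const]
    rfl
  rw [e1, integral_integral_swap (f := fun d x => GBF x * GBF (d - x) * Real.cos (t * d)) hint2]
  have e2 : ∀ x, ∫ d, GBF x * GBF (d - x) * Real.cos (t * d)
      = (∫ y, GBF y * Real.cos (t * y)) * (GBF x * Real.cos (t * x)) := by
    intro x
    have h1 : ∫ d, GBF x * GBF (d - x) * Real.cos (t * d)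
        = GBF x * ∫ d, GBF (d - x) * Real.cos (t * ((d - x) + x)) := by
      rw [← integral_const_mul]
      congr 1
      funext d
      rw [sub_add_cancel]
      ring
    have h2 : ∫ d, GBF (d - x) * Real.cos (t * ((d - x) + x))
        = ∫ y, GBF y * Real.cos (t * (y + x)) :=
      integral_sub_right_eq_self (fun y => GBF y * Real.cos (t * (y + x))) x
    have h3 : ∫ y, GBF y * Real.cos (t * (y + x))
        = ∫ y, (GBF y * Real.cos (t * y) * Real.cos (t * x)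
          - GBF y * Real.sin (t * y) * Real.sin (t * x)) := by
      congr 1
      funext y
      rw [mul_add, Real.cos_add]
      ring
    rw [h1, h2, h3, integral_sub ((GBF_cos_int t).mul_const _) ((GBF_sin_int t).mul_const _),
      integral_mul_const, integral_mul_const, GB_sin]
    ring
  simp_rw [e2]
  rw [integral_const_mul]
  ring

lemma GB_gauss (τ : ℝ) (hτ : 0 < τ) (d : ℝ) :
    ∫ t : ℝ, Real.exp (-(τ ^ 2 * t ^ 2 / 2)) * Real.cos (t * d)
      = √(2 * Real.pi) / τ * Real.exp (-(d ^ 2 / (2 * τ ^ 2))) := by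
  have hb : 0 < ((τ ^ 2 / 2 : ℝ) : ℂ).re := by
    rw [Complex.ofReal_re]; positivity
  have h := fourierIntegral_gaussian hb (d : ℂ)
  have hint : Integrable (fun x : ℝ => Complex.exp (Complex.I * d * x)
      * Complex.exp (-((τ ^ 2 / 2 : ℝ) : ℂ) * x ^ 2)) := by
    have h0 := integrable_cexp_quadratic' (b := -((τ ^ 2 / 2 : ℝ) : ℂ)) (by
      rw [Complex.neg_re, Complex.ofReal_re]
      have : 0 < τ ^ 2 / 2 := by positivity
      linarith) (Complex.I * d) 0
    refine h0.congr (Filter.Eventually.of_forall fun x => ?_)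
    show Complex.exp _ = Complex.exp _ * Complex.exp _
    rw [← Complex.exp_add]
    congr 1
    ring
  have h2 := congrArg Complex.re h
  have h3 : (∫ x : ℝ, Complex.exp (Complex.I * d * x)
      * Complex.exp (-((τ ^ 2 / 2 : ℝ) : ℂ) * x ^ 2)).re
      = ∫ x : ℝ, (Complex.exp (Complex.I * d * x)
      * Complex.exp (-((τ ^ 2 / 2 : ℝ) : ℂ) * x ^ 2)).re :=
    (integral_re hint).symm
  rw [h3] at h2
  have h4 : ∀ x : ℝ, (Complex.exp (Complex.I * d * x)
      * Complex.exp (-((τ ^ 2 / 2 : ℝ) : ℂ) * x ^ 2)).re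
      = Real.exp (-(τ ^ 2 * x ^ 2 / 2)) * Real.cos (x * d) := by
    intro x
    have e1 : Complex.exp (-((τ ^ 2 / 2 : ℝ) : ℂ) * x ^ 2)
        = ((Real.exp (-(τ ^ 2 * x ^ 2 / 2)) : ℝ) : ℂ) := by
      rw [Complex.ofReal_exp]
      congr 1
      push_cast
      ring
    rw [e1, Complex.re_mul_ofReal]
    have e2 : Complex.I * d * x = ((x * d : ℝ) : ℂ) * Complex.I := by
      push_cast; ring
    rw [e2, Complex.exp_ofReal_mul_I_re]
    ring
  simp_rw [h4] at h2
  rw [h2]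
  have h5 : ((Real.pi : ℂ) / ((τ ^ 2 / 2 : ℝ) : ℂ)) ^ (1 / 2 : ℂ)
      = ((√(2 * Real.pi) / τ : ℝ) : ℂ) := by
    have e3 : (Real.pi : ℂ) / ((τ ^ 2 / 2 : ℝ) : ℂ) = ((Real.pi / (τ ^ 2 / 2) : ℝ) : ℂ) := by
      push_cast; ring
    have e4 : (1 / 2 : ℂ) = ((1 / 2 : ℝ) : ℂ) := by push_cast; ring
    rw [e3, e4, ← Complex.ofReal_cpow (by positivity)]
    congr 1
    rw [← Real.sqrt_eq_rpow]
    have e5 : Real.pi / (τ ^ 2 / 2) = (2 * Real.pi) / τ ^ 2 := by field_simp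
    rw [e5, Real.sqrt_div (by positivity), Real.sqrt_sq hτ.le]
  have h6 : Complex.exp (-(d : ℂ) ^ 2 / (4 * ((τ ^ 2 / 2 : ℝ) : ℂ)))
      = ((Real.exp (-(d ^ 2 / (2 * τ ^ 2))) : ℝ) : ℂ) := by
    rw [Complex.ofReal_exp]
    congr 1
    push_cast
    have : (τ : ℂ) ≠ 0 := by exact_mod_cast hτ.ne'
    field_simp
    ring
  rw [h5, h6, ← Complex.ofReal_mul, Complex.ofReal_re]

/-- the majorant -/
def GBq (h : ℝ) : ℝ := 1 - 0.4925 * h - 0.4925 * h ^ 2 - 0.1525 * h ^ 3 + 0.064 * h ^ 4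
  + 0.147 * h ^ 6

lemma GBq_nonneg (h : ℝ) (h1 : 1 ≤ h) : 0 ≤ GBq h := by
  obtain ⟨v, rfl⟩ : ∃ v, h = 1 + v := ⟨h - 1, by ring⟩
  have hv : 0 ≤ v := by linarith
  have e : GBq (1 + v) = (v - 16 / 100) ^ 2 * (2.8021115776 + 3.839726048 * v
      + 2.5625296 * v ^ 2 + 0.92904 * v ^ 3 + 0.147 * v ^ 4)
      + (0.00176594361344 + 0.0013787180032 * v) := by
    unfold GBq
    ring
  rw [e]
  positivity

/-- lower bound polynomial for `exp (-u²)` -/
def GBL (u : ℝ) : ℝ := ∑ m ∈ Finset.range 8, (-(u ^ 2)) ^ m / m.factorial - 9 / 322560 * u ^ 16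

lemma GBL_le (u : ℝ) (h0 : 0 ≤ u) (h1 : u ≤ 1) : GBL u ≤ Real.exp (-(u ^ 2)) := by
  have hu : |-(u ^ 2)| ≤ 1 := by
    rw [abs_neg, abs_of_nonneg (sq_nonneg u)]
    nlinarith
  have h := Real.exp_bound hu (n := 8) (by norm_num)
  have h2 := (abs_le.1 h).1
  have e : |-(u ^ 2)| ^ 8 * ((Nat.succ 8 : ℕ) / (((8 : ℕ).factorial : ℕ) * (8 : ℕ)) : ℝ)
      = 9 / 322560 * u ^ 16 := by
    rw [abs_neg, abs_of_nonneg (sq_nonneg u)]
    norm_num [Nat.factorial]
    ring
  unfold GBL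
  rw [← e]
  linarith

/-- antiderivative of `GBL` -/
def GBG (u : ℝ) : ℝ := u - u ^ 3 / 3 + u ^ 5 / 10 - u ^ 7 / 42 + u ^ 9 / 216 - u ^ 11 / 1320
  + u ^ 13 / 9360 - u ^ 15 / 75600 - 9 / 322560 * (u ^ 17 / 17)

lemma GBG_deriv (u : ℝ) : HasDerivAt GBG (GBL u) u := by
  have hp : ∀ n : ℕ, HasDerivAt (fun x : ℝ => x ^ n) ((n : ℝ) * u ^ (n - 1)) u :=
    fun n => hasDerivAt_pow n u
  have h3 := (hp 3).div_const 3
  have h5 := (hp 5).div_const 10
  have h7 := (hp 7).div_const 42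
  have h9 := (hp 9).div_const 216
  have h11 := (hp 11).div_const 1320
  have h13 := (hp 13).div_const 9360
  have h15 := (hp 15).div_const 75600
  have h17 := ((hp 17).div_const 17).const_mul (9 / 322560)
  have := ((((((((hasDerivAt_id' u).fun_sub h3).fun_add h5).fun_sub h7).fun_add h9).fun_sub
    h11).fun_add h13).fun_sub h15).fun_sub h17
  have h2 : HasDerivAt GBG _ u := this
  refine h2.congr_deriv ?_
  unfold GBL
  simp only [Finset.sum_range_succ, Finset.sum_range_zero, Nat.factorial]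
  push_cast
  ring

lemma GBL_cont : Continuous GBL := by
  unfold GBL
  fun_prop

lemma GB_tail (a : ℝ) (h0 : 0 ≤ a) (h1 : a ≤ 1) :
    GBG 1 - GBG a ≤ ∫ u in a..1, Real.exp (-(u ^ 2)) := by
  have e : ∫ u in a..1, GBL u = GBG 1 - GBG a :=
    intervalIntegral.integral_eq_sub_of_hasDerivAt (fun u _ => GBG_deriv u)
      (GBL_cont.intervalIntegrable _ _)
  rw [← e]
  apply intervalIntegral.integral_mono_on h1 (GBL_cont.intervalIntegrable _ _)
  · apply Continuous.intervalIntegrable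
    fun_prop
  · intro u hu
    exact GBL_le u (h0.trans hu.1) hu.2

/-- quotient polynomial -/
def GBR (h : ℝ) : ℝ := (251/14000000) * h ^ 0 + (471197/1008000000) * h ^ 1 + (20419183/3024000000) * h ^ 2 + (-397817/60000000) * h ^ 3 + (-4553/57600) * h ^ 4 + (152003437/1080000000) * h ^ 5 + (-183/4480) * h ^ 6 + (3809/53760) * h ^ 7 + (-32297/483840) * h ^ 8 + (1107/22400) * h ^ 9 + (-1951/63360) * h ^ 10 + (511/34560) * h ^ 11 + (-259/49920) * h ^ 12 + (53/40320) * h ^ 13 + (-143/604800) * h ^ 14 + (1/35840) * h ^ 15 + (-1/609280) * h ^ 16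

lemma GBR_nonneg1 (h : ℝ) (h0 : 0 ≤ h) (h1 : h ≤ 1 / 2) : 0 ≤ GBR h := by
  obtain ⟨s, hs⟩ : ∃ s, s = 2 * h := ⟨_, rfl⟩
  obtain ⟨u, hu⟩ : ∃ u, u = 1 - s := ⟨_, rfl⟩
  have hs0 : 0 ≤ s := by rw [hs]; linarith
  have hu0 : 0 ≤ u := by rw [hu, hs]; linarith
  have hh : h = s / 2 := by rw [hs]; ring
  have e : GBR h = (251/14000000) * s ^ 0 * u ^ 16 + (1049501/2016000000) * s ^ 1 * u ^ 15 + (88850593/12096000000) * s ^ 2 * u ^ 14 + (247907687/4320000000) * s ^ 3 * u ^ 13 + (598057673/2160000000) * s ^ 4 * u ^ 12 + (2055829067/2304000000) * s ^ 5 * u ^ 11 + (162883910857/80640000000) * s ^ 6 * u ^ 10 + (213605753467/64512000000) * s ^ 7 * u ^ 9 + (7729315271017/1935360000000) * s ^ 8 * u ^ 8 + (3445447564333/967680000000) * s ^ 9 * u ^ 7 + (1419350566897/608256000000) * s ^ 10 * u ^ 6 + (13485390353117/12165120000000) * s ^ 11 * u ^ 5 + (23738058845437/63258624000000) * s ^ 12 * u ^ 4 + (28722182750047/316293120000000) * s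 ^ 13 * u ^ 3 + (75509743222229/4428103680000000) * s ^ 14 * u ^ 2 + (39516286259033/14169931776000000) * s ^ 15 * u ^ 1 + (712967787890621/2408888401920000000) * s ^ 16 * u ^ 0 := by
    rw [hu, hh]
    unfold GBR
    ring
  rw [e]
  positivity

lemma GBR_nonneg2 (h : ℝ) (h0 : 1 / 2 ≤ h) (h1 : h ≤ 1) : 0 ≤ GBR h := by
  obtain ⟨s, hs⟩ : ∃ s, s = 2 * h - 1 := ⟨_, rfl⟩
  obtain ⟨u, hu⟩ : ∃ u, u = 1 - s := ⟨_, rfl⟩
  have hs0 : 0 ≤ s := by rw [hs]; linarith
  have hu0 : 0 ≤ u := by rw [hu, hs]; linarith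
  have hh : h = (s + 1) / 2 := by rw [hs]; ring
  have e : GBR h = (712967787890621/2408888401920000000) * s ^ 0 * u ^ 16 + (2682866758077377/401481400320000000) * s ^ 1 * u ^ 15 + (45442194644830589/602222100480000000) * s ^ 2 * u ^ 14 + (1791276257955577/3308912640000000) * s ^ 3 * u ^ 13 + (57835490192670491/21507932160000000) * s ^ 4 * u ^ 12 + (9469058124782543/977633280000000) * s ^ 5 * u ^ 11 + (140106400560579611/5376983040000000) * s ^ 6 * u ^ 10 + (1004625789276021379/18819440640000000) * s ^ 7 * u ^ 9 + (792944134596780557/9409720320000000) * s ^ 8 * u ^ 8 + (53855439566358323/522762240000000) * s ^ 9 * u ^ 7 + (229112359362001649/2352430080000000) * s ^ 10 * u ^ 6 + (5534132096162143/78414336000000) * s ^ 11 * u ^ 5 + (22636335387070211/588107520000000) * s ^ 12 * u ^ 4 + (1499101487144461/98017920000000) * s ^ 13 * u ^ 3 + (1372102004681/328185000000) * s ^ 14 * u ^ 2 + (156663492353/222768000000) * s ^ 15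 * u ^ 1 + (504373901951/9189180000000) * s ^ 16 * u ^ 0 := by
    rw [hu, hh]
    unfold GBR
    ring
  rw [e]
  positivity

lemma GB_key (h : ℝ) (h0 : 0 ≤ h) (h1 : h ≤ 1) :
    0.746825 * (1 - GBq h) ≤ GBG 1 - GBG (1 - h) := by
  have hR : 0 ≤ GBR h := by
    rcases le_total h (1 / 2) with h2 | h2
    · exact GBR_nonneg1 h h0 h2
    · exact GBR_nonneg2 h h2 h1
  have e : GBG 1 - GBG (1 - h) - 0.746825 * (1 - GBq h) = h * GBR h := by
    unfold GBG GBq GBR
    ring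
  have := mul_nonneg h0 hR
  linarith

lemma GB_J (hB2 : B1 ≤ (1.49364826562485406 : ℝ)) (hB0 : 0 < B1) (h : ℝ) (h0 : 0 ≤ h) :
    ∫ u in Set.Icc (-(1 - h)) (1 - h), Real.exp (-(u ^ 2)) ≤ B1 * GBq h := by
  rcases le_or_gt h 1 with h1 | h1
  · have hle : -(1 - h) ≤ 1 - h := by linarith
    rw [integral_Icc_eq_integral_Ioc, ← intervalIntegral.integral_of_le hle]
    have hc : Continuous (fun u : ℝ => Real.exp (-(u ^ 2))) := by fun_prop
    have hi : ∀ a b : ℝ, IntervalIntegrable (fun u : ℝ => Real.exp (-(u ^ 2))) volume a b :=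
      fun a b => hc.intervalIntegrable a b
    have hsum1 := intervalIntegral.integral_add_adjacent_intervals (hi (-1) (-(1 - h)))
      (hi (-(1 - h)) (1 - h))
    have hsum2 := intervalIntegral.integral_add_adjacent_intervals (hi (-1) (1 - h))
      (hi (1 - h) 1)
    have hneg : ∫ u in (-1 : ℝ)..(-(1 - h)), Real.exp (-(u ^ 2))
        = ∫ u in (1 - h)..1, Real.exp (-(u ^ 2)) := by
      have := intervalIntegral.integral_comp_neg (a := 1 - h) (b := 1)
        (fun u : ℝ => Real.exp (-(u ^ 2)))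
      rw [← this]
      congr 1
      funext u
      simp
    have hB : B1 = ∫ u in (-1 : ℝ)..1, Real.exp (-(u ^ 2)) := rfl
    have htail := GB_tail (1 - h) (by linarith) (by linarith)
    have hkey := GB_key h h0 h1
    have hq : 0 ≤ 1 - GBq h := by
      have e : 1 - GBq h = h * (0.4925 + 0.4925 * h + 0.1525 * h ^ 2 - 0.064 * h ^ 3
          - 0.147 * h ^ 5) := by unfold GBq; ring
      rw [e]
      apply mul_nonneg h0
      have h3 : h ^ 3 ≤ 1 := pow_le_one₀ h0 h1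
      have h5 : h ^ 5 ≤ 1 := pow_le_one₀ h0 h1
      nlinarith [sq_nonneg h]
    have hBq : B1 * (1 - GBq h) ≤ 2 * 0.746825 * (1 - GBq h) := by
      apply mul_le_mul_of_nonneg_right _ hq
      linarith
    nlinarith
  · rw [Set.Icc_eq_empty (by linarith)]
    simp only [Measure.restrict_empty, integral_zero_measure]
    exact mul_nonneg hB0.le (GBq_nonneg h h1.le)

lemma GBC_eq (d : ℝ) : GBC d = Real.exp (-(d ^ 2 / 4))
    * ∫ u in Set.Icc (-(1 - |d| / 2)) (1 - |d| / 2), Real.exp (-(u ^ 2)) := by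
  have h1 : GBC d = ∫ u, GBF (u + d / 2) * GBF (d - (u + d / 2)) :=
    (integral_add_right_eq_self (fun x => GBF x * GBF (d - x)) (d / 2)).symm
  rw [h1, ← integral_indicator measurableSet_Icc, ← integral_const_mul]
  congr 1
  funext u
  have hd := abs_le.1 (le_refl |d|)
  by_cases hu : u ∈ Set.Icc (-(1 - |d| / 2)) (1 - |d| / 2)
  · rw [Set.indicator_of_mem hu]
    have m1 : u + d / 2 ∈ Set.Icc (-1 : ℝ) 1 := ⟨by linarith [hu.1, hd.1], by linarith [hu.2, hd.2]⟩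
    have m2 : d - (u + d / 2) ∈ Set.Icc (-1 : ℝ) 1 :=
      ⟨by linarith [hu.2, hd.1], by linarith [hu.1, hd.2]⟩
    unfold GBF
    rw [Set.indicator_of_mem m1, Set.indicator_of_mem m2]
    unfold w
    rw [← Real.exp_add, ← Real.exp_add]
    congr 1
    ring
  · rw [Set.indicator_of_notMem hu, mul_zero]
    by_cases m1 : u + d / 2 ∈ Set.Icc (-1 : ℝ) 1
    · have m2 : d - (u + d / 2) ∉ Set.Icc (-1 : ℝ) 1 := by
        intro m2
        apply hu
        rcases abs_cases d with ⟨ha, _⟩ | ⟨ha, _⟩ <;> rw [ha] <;>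
          constructor <;> linarith [m1.1, m1.2, m2.1, m2.2]
      unfold GBF
      rw [Set.indicator_of_notMem m2, mul_zero]
    · unfold GBF
      rw [Set.indicator_of_notMem m1, zero_mul]

lemma GBC_le (hB2 : B1 ≤ (1.49364826562485406 : ℝ)) (hB0 : 0 < B1) (d : ℝ) :
    GBC d ≤ Real.exp (-(d ^ 2 / 4)) * (B1 * GBq (|d| / 2)) := by
  rw [GBC_eq]
  exact mul_le_mul_of_nonneg_left (GB_J hB2 hB0 _ (by positivity)) (Real.exp_pos _).le

/-- half line moments -/
lemma GB_M (s : ℝ) (hs : 0 < s) (k : ℕ) :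
    ∫ x in Set.Ioi (0 : ℝ), x ^ k * Real.exp (-(x ^ 2 / (2 * s ^ 2)))
      = (√2 * s) ^ (k + 1) / 2 * Real.Gamma (((k : ℝ) + 1) / 2) := by
  have hb : (0 : ℝ) < 1 / (2 * s ^ 2) := by positivity
  have h := integral_rpow_mul_exp_neg_mul_rpow (p := 2) (q := (k : ℝ)) (b := 1 / (2 * s ^ 2))
    (by norm_num) (by have : (0 : ℝ) ≤ k := Nat.cast_nonneg k; linarith) hb
  have e1 : ∫ x in Set.Ioi (0 : ℝ), x ^ (k : ℝ) * Real.exp (-(1 / (2 * s ^ 2)) * x ^ (2 : ℝ))
      = ∫ x in Set.Ioi (0 : ℝ), x ^ k * Real.exp (-(x ^ 2 / (2 * s ^ 2))) := by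
    congr 1
    funext x
    rw [Real.rpow_natCast, Real.rpow_two]
    congr 2
    ring
  rw [e1] at h
  rw [h]
  have hr : (0 : ℝ) < √2 * s := by positivity
  have e2 : 1 / (2 * s ^ 2) = (√2 * s) ^ (-2 : ℝ) := by
    rw [Real.rpow_neg hr.le, Real.rpow_two, mul_pow, Real.sq_sqrt (by norm_num)]
    simp
  have e3 : (1 / (2 * s ^ 2)) ^ (-((k : ℝ) + 1) / 2) = (√2 * s) ^ (k + 1) := by
    rw [e2, ← Real.rpow_mul hr.le, ← Real.rpow_natCast]
    congr 1
    push_cast
    ring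
  rw [e3]
  ring

lemma GB_Mint (s : ℝ) (hs : 0 < s) (k : ℕ) :
    IntegrableOn (fun x : ℝ => x ^ k * Real.exp (-(x ^ 2 / (2 * s ^ 2)))) (Set.Ioi 0) := by
  have hb : (0 : ℝ) < 1 / (2 * s ^ 2) := by positivity
  have h := integrableOn_rpow_mul_exp_neg_mul_sq hb (s := (k : ℝ))
    (by have : (0 : ℝ) ≤ k := Nat.cast_nonneg k; linarith)
  refine h.congr_fun ?_ measurableSet_Ioi
  intro x _
  show x ^ (k : ℝ) * Real.exp (-(1 / (2 * s ^ 2)) * x ^ 2) = _
  rw [Real.rpow_natCast]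
  congr 2
  ring

lemma GB_G3 : Real.Gamma (3 / 2) = √Real.pi / 2 := by
  have h : (3 / 2 : ℝ) = 1 / 2 + 1 := by norm_num
  rw [h, Real.Gamma_add_one (by norm_num), Real.Gamma_one_half_eq]
  ring

lemma GB_G5 : Real.Gamma (5 / 2) = 3 * √Real.pi / 4 := by
  have h : (5 / 2 : ℝ) = 3 / 2 + 1 := by norm_num
  rw [h, Real.Gamma_add_one (by norm_num), GB_G3]
  ring

lemma GB_G7 : Real.Gamma (7 / 2) = 15 * √Real.pi / 8 := by
  have h : (7 / 2 : ℝ) = 5 / 2 + 1 := by norm_num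
  rw [h, Real.Gamma_add_one (by norm_num), GB_G5]
  ring

lemma GB_I (s : ℝ) (hs : 0 < s) :
    ∫ d : ℝ, Real.exp (-(d ^ 2 / (2 * s ^ 2))) * GBq (|d| / 2)
      = √(2 * Real.pi) * s * (1 - 0.4925 * s / √(2 * Real.pi) - 0.123125 * s ^ 2
        - 0.07625 * s ^ 3 / √(2 * Real.pi) + 0.012 * s ^ 4 + 0.147 * 15 / 64 * s ^ 6) := by
  have h1 : ∫ d : ℝ, Real.exp (-(d ^ 2 / (2 * s ^ 2))) * GBq (|d| / 2)
      = 2 * ∫ x in Set.Ioi (0 : ℝ), Real.exp (-(x ^ 2 / (2 * s ^ 2))) * GBq (x / 2) := by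
    rw [← integral_comp_abs (f := fun x => Real.exp (-(x ^ 2 / (2 * s ^ 2))) * GBq (x / 2))]
    congr 1
    funext d
    rw [sq_abs]
  obtain ⟨f, hf⟩ : ∃ f : ℕ → ℝ → ℝ, ∀ k x, f k x = x ^ k * Real.exp (-(x ^ 2 / (2 * s ^ 2))) :=
    ⟨_, fun _ _ => rfl⟩
  obtain ⟨μ, hμ⟩ : ∃ μ : Measure ℝ, μ = volume.restrict (Set.Ioi 0) := ⟨_, rfl⟩
  have hi : ∀ k, Integrable (f k) μ := by
    intro k
    have : f k = fun x => x ^ k * Real.exp (-(x ^ 2 / (2 * s ^ 2))) := funext (hf k)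
    rw [this, hμ]
    exact GB_Mint s hs k
  have hM : ∀ k, ∫ x, f k x ∂μ = (√2 * s) ^ (k + 1) / 2 * Real.Gamma (((k : ℝ) + 1) / 2) := by
    intro k
    rw [← GB_M s hs k, hμ]
    congr 1
    funext x
    exact hf k x
  have h2 : ∫ x in Set.Ioi (0 : ℝ), Real.exp (-(x ^ 2 / (2 * s ^ 2))) * GBq (x / 2)
      = ∫ x, (f 0 x - 0.24625 * f 1 x - 0.123125 * f 2 x - 0.0190625 * f 3 x
        + 0.004 * f 4 x + 0.147 / 64 * f 6 x) ∂μ := by
    rw [hμ]
    congr 1
    funext x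
    simp only [hf]
    unfold GBq
    ring
  have i0 := hi 0
  have i1 : Integrable (fun x => 0.24625 * f 1 x) μ := (hi 1).const_mul 0.24625
  have i2 : Integrable (fun x => 0.123125 * f 2 x) μ := (hi 2).const_mul 0.123125
  have i3 : Integrable (fun x => 0.0190625 * f 3 x) μ := (hi 3).const_mul 0.0190625
  have i4 : Integrable (fun x => 0.004 * f 4 x) μ := (hi 4).const_mul 0.004
  have i6 : Integrable (fun x => 0.147 / 64 * f 6 x) μ := (hi 6).const_mul (0.147 / 64)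
  have j1 : Integrable (fun x => f 0 x - 0.24625 * f 1 x) μ := i0.sub i1
  have j2 : Integrable (fun x => f 0 x - 0.24625 * f 1 x - 0.123125 * f 2 x) μ := j1.sub i2
  have j3 : Integrable (fun x => f 0 x - 0.24625 * f 1 x - 0.123125 * f 2 x
    - 0.0190625 * f 3 x) μ := j2.sub i3
  have j4 : Integrable (fun x => f 0 x - 0.24625 * f 1 x - 0.123125 * f 2 x
    - 0.0190625 * f 3 x + 0.004 * f 4 x) μ := j3.add i4
  rw [h1, h2, integral_add j4 i6, integral_add j3 i4, integral_sub j2 i3,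
    integral_sub j1 i2, integral_sub i0 i1, integral_const_mul, integral_const_mul,
    integral_const_mul, integral_const_mul, integral_const_mul]
  simp only [hM]
  have g0 : Real.Gamma ((((0 : ℕ) : ℝ) + 1) / 2) = √Real.pi := by
    rw [← Real.Gamma_one_half_eq]; norm_num
  have g1 : Real.Gamma ((((1 : ℕ) : ℝ) + 1) / 2) = 1 := by norm_num
  have g2 : Real.Gamma ((((2 : ℕ) : ℝ) + 1) / 2) = √Real.pi / 2 := by rw [← GB_G3]; norm_num
  have g3 : Real.Gamma ((((3 : ℕ) : ℝ) + 1) / 2) = 1 := by norm_num [Real.Gamma_two]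
  have g4 : Real.Gamma ((((4 : ℕ) : ℝ) + 1) / 2) = 3 * √Real.pi / 4 := by
    rw [← GB_G5]; norm_num
  have g6 : Real.Gamma ((((6 : ℕ) : ℝ) + 1) / 2) = 15 * √Real.pi / 8 := by
    rw [← GB_G7]; norm_num
  rw [g0, g1, g2, g3, g4, g6, Real.sqrt_mul (by norm_num)]
  have hsq : √2 ^ 2 = 2 := Real.sq_sqrt (by norm_num)
  have hp : 0 < √Real.pi := Real.sqrt_pos.2 Real.pi_pos
  have h20 : 0 < √2 := Real.sqrt_pos.2 (by norm_num)
  have e2 : √2 ^ 4 = 4 := by nlinarith
  have e3 : √2 ^ 3 = 2 * √2 := by nlinarith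
  have e5 : √2 ^ 5 = 4 * √2 := by
    have : √2 ^ 5 = √2 ^ 4 * √2 := by ring
    rw [this, e2]
  have e7 : √2 ^ 7 = 8 * √2 := by
    have : √2 ^ 7 = √2 ^ 4 * √2 ^ 3 := by ring
    rw [this, e2, e3]; ring
  simp only [mul_pow, Nat.reduceAdd, zero_add, pow_one]
  rw [hsq, e2, e3, e5, e7]
  field_simp
  ring

lemma GB_Rint (s : ℝ) (hs : 0 < s) (k : ℕ) :
    Integrable (fun x : ℝ => |x| ^ k * Real.exp (-(x ^ 2 / (2 * s ^ 2)))) := by
  have hb : (0 : ℝ) < 1 / (2 * s ^ 2) := by positivity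
  have h := integrable_rpow_mul_exp_neg_mul_sq hb (s := (k : ℝ))
    (by have : (0 : ℝ) ≤ k := Nat.cast_nonneg k; linarith)
  refine h.abs.congr (Filter.Eventually.of_forall fun x => ?_)
  show |x ^ (k : ℝ) * Real.exp (-(1 / (2 * s ^ 2)) * x ^ 2)| = _
  rw [Real.rpow_natCast, abs_mul, abs_pow, abs_of_pos (Real.exp_pos _)]
  congr 2
  ring

lemma GB_qint (s : ℝ) (hs : 0 < s) :
    Integrable (fun d : ℝ => Real.exp (-(d ^ 2 / (2 * s ^ 2))) * GBq (|d| / 2)) := by
  have h := (((((GB_Rint s hs 0).sub ((GB_Rint s hs 1).const_mul 0.24625)).sub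
    ((GB_Rint s hs 2).const_mul 0.123125)).sub ((GB_Rint s hs 3).const_mul 0.0190625)).add
    ((GB_Rint s hs 4).const_mul 0.004)).add ((GB_Rint s hs 6).const_mul (0.147 / 64))
  refine h.congr (Filter.Eventually.of_forall fun x => ?_)
  simp only [Pi.add_apply, Pi.sub_apply, GBq]
  ring

/-- Gaussian-damped version of Plancherel and an explicit bound. -/
theorem G_bound (hm1 : (1.7112487837842976 : ℝ) ≤ m0) (hm2 : m0 ≤ (1.7112487837842977 : ℝ))
    (hB1 : (1.49364826562485405 : ℝ) ≤ B1) (hB2 : B1 ≤ (1.49364826562485406 : ℝ))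
    (τ s : ℝ) (hτ : 0 < τ) (hs : 0 < s) (hs2 : s ^ 2 * (1 + τ ^ 2 / 2) = τ ^ 2) :
    ∫ t : ℝ, phi t ^ 2 * Real.exp (-(τ ^ 2 * t ^ 2 / 2)) ≤
      2 * Real.pi * B1 / m0 ^ 2 * (1 / √(1 + τ ^ 2 / 2)) *
        (1 - 1964 / 10000 * s - 1231 / 10000 * s ^ 2 - 304 / 10000 * s ^ 3 + 12 / 1000 * s ^ 4
          + 345 / 10000 * s ^ 6) := by
  have hm0 : 0 < m0 := by linarith
  have hB0 : 0 < B1 := by linarith
  have hk : Integrable (fun t : ℝ => Real.exp (-(τ ^ 2 * t ^ 2 / 2))) := by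
    have hb : (0 : ℝ) < τ ^ 2 / 2 := by positivity
    refine (integrable_exp_neg_mul_sq hb).congr (Filter.Eventually.of_forall fun x => ?_)
    show Real.exp _ = Real.exp _
    congr 1
    ring
  have e1 : ∀ t, phi t ^ 2 * Real.exp (-(τ ^ 2 * t ^ 2 / 2))
      = 1 / m0 ^ 2 * ∫ d, GBC d * Real.cos (t * d) * Real.exp (-(τ ^ 2 * t ^ 2 / 2)) := by
    intro t
    rw [integral_mul_const, GB_conv, GB_a]
    unfold phi
    rw [div_pow]
    ring
  have hprod : Integrable (fun p : ℝ × ℝ => GBC p.2 * Real.cos (p.1 * p.2)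
      * Real.exp (-(τ ^ 2 * p.1 ^ 2 / 2))) (volume.prod volume) := by
    have h0 : Integrable (fun p : ℝ × ℝ => Real.exp (-(τ ^ 2 * p.1 ^ 2 / 2)) * GBC p.2)
      (volume.prod volume) := hk.mul_prod GBC_int
    have h1 : Integrable (fun p : ℝ × ℝ => (Real.exp (-(τ ^ 2 * p.1 ^ 2 / 2)) * GBC p.2)
        * Real.cos (p.1 * p.2)) (volume.prod volume) := by
      apply h0.mono
      · exact h0.aestronglyMeasurable.mul (Continuous.aestronglyMeasurable (by fun_prop))
      · refine Filter.Eventually.of_forall fun p => ?_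
        rw [norm_mul]
        have : ‖Real.cos (p.1 * p.2)‖ ≤ 1 := Real.abs_cos_le_one _
        nlinarith [norm_nonneg (Real.exp (-(τ ^ 2 * p.1 ^ 2 / 2)) * GBC p.2)]
    refine h1.congr (Filter.Eventually.of_forall fun p => ?_)
    show _ = _
    ring
  have e2 : ∫ t : ℝ, phi t ^ 2 * Real.exp (-(τ ^ 2 * t ^ 2 / 2))
      = 1 / m0 ^ 2 * ∫ d, ∫ t, GBC d * Real.cos (t * d) * Real.exp (-(τ ^ 2 * t ^ 2 / 2)) := by
    simp_rw [e1]
    rw [integral_const_mul, integral_integral_swap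
      (f := fun t d => GBC d * Real.cos (t * d) * Real.exp (-(τ ^ 2 * t ^ 2 / 2))) hprod]
  have e3 : ∀ d, ∫ t, GBC d * Real.cos (t * d) * Real.exp (-(τ ^ 2 * t ^ 2 / 2))
      = √(2 * Real.pi) / τ * (GBC d * Real.exp (-(d ^ 2 / (2 * τ ^ 2)))) := by
    intro d
    have : ∀ t, GBC d * Real.cos (t * d) * Real.exp (-(τ ^ 2 * t ^ 2 / 2))
        = GBC d * (Real.exp (-(τ ^ 2 * t ^ 2 / 2)) * Real.cos (t * d)) := fun t => by ring
    simp_rw [this]
    rw [integral_const_mul, GB_gauss τ hτ]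
    ring
  simp_rw [e3] at e2
  rw [integral_const_mul] at e2
  have hCint : Integrable (fun d => GBC d * Real.exp (-(d ^ 2 / (2 * τ ^ 2)))) := by
    apply GBC_int.mono
    · exact GBC_int.aestronglyMeasurable.mul (Continuous.aestronglyMeasurable (by fun_prop))
    · refine Filter.Eventually.of_forall fun d => ?_
      rw [norm_mul]
      have : ‖Real.exp (-(d ^ 2 / (2 * τ ^ 2)))‖ ≤ 1 := by
        rw [Real.norm_eq_abs, abs_of_pos (Real.exp_pos _)]
        apply Real.exp_le_one_iff.2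
        have : 0 ≤ d ^ 2 / (2 * τ ^ 2) := by positivity
        linarith
      nlinarith [norm_nonneg (GBC d)]
  have hle : ∫ d, GBC d * Real.exp (-(d ^ 2 / (2 * τ ^ 2)))
      ≤ B1 * ∫ d : ℝ, Real.exp (-(d ^ 2 / (2 * s ^ 2))) * GBq (|d| / 2) := by
    rw [← integral_const_mul]
    apply integral_mono hCint ((GB_qint s hs).const_mul B1)
    intro d
    show GBC d * Real.exp (-(d ^ 2 / (2 * τ ^ 2)))
      ≤ B1 * (Real.exp (-(d ^ 2 / (2 * s ^ 2))) * GBq (|d| / 2))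
    have h1 := mul_le_mul_of_nonneg_right (GBC_le hB2 hB0 d)
      (Real.exp_pos (-(d ^ 2 / (2 * τ ^ 2)))).le
    have h2 : Real.exp (-(d ^ 2 / (2 * s ^ 2)))
        = Real.exp (-(d ^ 2 / 4)) * Real.exp (-(d ^ 2 / (2 * τ ^ 2))) := by
      rw [← Real.exp_add]
      congr 1
      have h3 : 1 / s ^ 2 = 1 / τ ^ 2 + 1 / 2 := by
        field_simp
        nlinarith [hs2]
      have h4 : -(d ^ 2 / (2 * s ^ 2)) = -(d ^ 2 / 2 * (1 / s ^ 2)) := by
        field_simp
      rw [h4, h3]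
      field_simp
      ring
    rw [h2]
    linarith
  rw [GB_I s hs] at hle
  rw [e2]
  have hX : 0 < √(2 * Real.pi) := Real.sqrt_pos.2 (by positivity)
  have hX2 : √(2 * Real.pi) ^ 2 = 2 * Real.pi := Real.sq_sqrt (by positivity)
  have hXle : √(2 * Real.pi) ≤ 2.5075 := by
    rw [Real.sqrt_le_left (by norm_num)]
    have := Real.pi_lt_d4
    norm_num
    linarith
  have hsq : √(1 + τ ^ 2 / 2) = τ / s := by
    have : 1 + τ ^ 2 / 2 = (τ / s) ^ 2 := by
      field_simp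
      nlinarith [hs2]
    rw [this]
    exact Real.sqrt_sq (by positivity)
  obtain ⟨X, hXd⟩ : ∃ X, X = √(2 * Real.pi) := ⟨_, rfl⟩
  rw [← hXd] at hX hX2 hXle hle ⊢
  have hb : 1 - 0.4925 * s / X - 0.123125 * s ^ 2 - 0.07625 * s ^ 3 / X + 0.012 * s ^ 4
      + 0.147 * 15 / 64 * s ^ 6 ≤ 1 - 1964 / 10000 * s - 1231 / 10000 * s ^ 2
        - 304 / 10000 * s ^ 3 + 12 / 1000 * s ^ 4 + 345 / 10000 * s ^ 6 := by
    have c1 : 1964 / 10000 * s ≤ 0.4925 * s / X := by
      rw [le_div_iff₀ hX]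
      nlinarith
    have c3 : 304 / 10000 * s ^ 3 ≤ 0.07625 * s ^ 3 / X := by
      rw [le_div_iff₀ hX]
      have : 0 < s ^ 3 := by positivity
      nlinarith
    have c2 : 0 < s ^ 2 := by positivity
    have c6 : 0 < s ^ 6 := by positivity
    nlinarith
  have hfin : 1 / m0 ^ 2 * (X / τ * ∫ d, GBC d * Real.exp (-(d ^ 2 / (2 * τ ^ 2))))
      ≤ 1 / m0 ^ 2 * (X / τ * (B1 * (X * s * (1 - 1964 / 10000 * s - 1231 / 10000 * s ^ 2
        - 304 / 10000 * s ^ 3 + 12 / 1000 * s ^ 4 + 345 / 10000 * s ^ 6)))) := by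
    apply mul_le_mul_of_nonneg_left _ (by positivity)
    apply mul_le_mul_of_nonneg_left _ (by positivity)
    refine hle.trans ?_
    apply mul_le_mul_of_nonneg_left _ hB0.le
    exact mul_le_mul_of_nonneg_left hb (by positivity)
  refine hfin.trans (le_of_eq ?_)
  rw [hsq, ← hX2]
  field_simp


end
end CG3
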