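import Pool.Agent.CG3.Base2

open MeasureTheory ProbabilityTheory
open scoped BigOperators

namespace CG3
noncomputable section


theorem rpow_deriv1 (x : ℝ) (hx : 0 ≤ x) (s : ℝ) (hs : 0 < s) :
    HasDerivAt (fun r : ℝ => x ^ r) (x ^ s * Real.log x) s := by
  rcases hx.eq_or_lt with h | h
  · subst h
    simp only [Real.log_zero, mul_zero]
    have : (fun r : ℝ => (0 : ℝ) ^ r) =ᶠ[nhds s] fun _ => (0 : ℝ) := by
      filter_upwards [lt_mem_nhds hs] with r hr
      exact Real.zero_rpow hr.ne'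
    exact (hasDerivAt_const s (0 : ℝ)).congr_of_eventuallyEq this
  · exact (Real.hasStrictDerivAt_const_rpow h s).hasDerivAt

theorem rpow_bd1 (x : ℝ) (hx : 0 ≤ x) (hx1 : x ≤ 1) (s' d s : ℝ) (hd : 0 < d)
    (hs : s' + d ≤ s) : |x ^ s * Real.log x| ≤ 1 / d * x ^ s' := by
  rcases hx.eq_or_lt with h | h
  · subst h
    simp only [Real.log_zero, mul_zero, abs_zero]
    positivity
  · have h1 : x ^ s = x ^ s' * x ^ (s - s') := by
      rw [← Real.rpow_add h]; ring_nf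
    have h2 := Real.abs_log_mul_self_rpow_lt x (s - s') h hx1 (by linarith)
    have h3 : 1 / (s - s') ≤ 1 / d := one_div_le_one_div_of_le hd (by linarith)
    have h4 : 0 < x ^ s' := Real.rpow_pos_of_pos h _
    rw [h1, mul_assoc, abs_mul, abs_of_pos h4, mul_comm (x ^ (s - s')), mul_comm (1 / d)]
    exact mul_le_mul_of_nonneg_left (h2.le.trans h3) h4.le

theorem rpow_bd2 (x : ℝ) (hx : 0 ≤ x) (hx1 : x ≤ 1) (s' d s : ℝ) (hd : 0 < d)
    (hs : s' + d ≤ s) : |x ^ s * Real.log x ^ 2| ≤ (2 / d) ^ 2 * x ^ s' := by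
  rcases hx.eq_or_lt with h | h
  · subst h
    simp only [Real.log_zero]
    simp only [ne_eq, OfNat.ofNat_ne_zero, not_false_eq_true, zero_pow, mul_zero, abs_zero]
    positivity
  · have h1 : x ^ s = x ^ s' * (x ^ ((s - s') / 2) * x ^ ((s - s') / 2)) := by
      rw [← Real.rpow_add h, ← Real.rpow_add h]; ring_nf
    have h2 := Real.abs_log_mul_self_rpow_lt x ((s - s') / 2) h hx1 (by linarith)
    have h3 : 1 / ((s - s') / 2) ≤ 2 / d := by
      rw [one_div_div]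
      exact div_le_div_of_nonneg_left (by norm_num) hd (by linarith)
    have h4 : 0 < x ^ s' := Real.rpow_pos_of_pos h _
    have h5 : x ^ s * Real.log x ^ 2 = x ^ s' * (Real.log x * x ^ ((s - s') / 2)) ^ 2 := by
      rw [h1]; ring
    rw [h5, abs_mul, abs_of_pos h4, mul_comm ((2 / d) ^ 2), abs_pow]
    exact mul_le_mul_of_nonneg_left (pow_le_pow_left₀ (abs_nonneg _) (h2.le.trans h3) 2) h4.le

section gen
variable (g : ℝ → ℝ) (hm : Measurable g) (h0 : ∀ t, 0 ≤ g t) (h1 : ∀ t : ℝ, g t ≤ 1)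
    (hint : ∀ s : ℝ, 1 < s → Integrable (fun t : ℝ => g t ^ s))
include hm h0 h1 hint

theorem gen_deriv1 (s : ℝ) (hs : 1 < s) :
    Integrable (fun t => g t ^ s * Real.log (g t)) ∧
    HasDerivAt (fun r => ∫ t, g t ^ r) (∫ t, g t ^ s * Real.log (g t)) s := by
  obtain ⟨d, hd, hsd⟩ : ∃ d : ℝ, 0 < d ∧ s = 1 + 3 * d := ⟨(s - 1) / 3, by linarith, by ring⟩
  have hnb : Set.Ioi (1 + 2 * d) ∈ nhds s := Ioi_mem_nhds (by linarith)
  refine hasDerivAt_integral_of_dominated_loc_of_deriv_le (s := Set.Ioi (1 + 2 * d))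
    (F := fun r t => g t ^ r) (F' := fun r t => g t ^ r * Real.log (g t))
    (bound := fun t => 1 / d * g t ^ (1 + d)) hnb ?_ (hint s hs) ?_ ?_ ?_ ?_
  · exact Filter.Eventually.of_forall fun r => (hm.pow_const r).aestronglyMeasurable
  · exact ((hm.pow_const s).mul (Real.measurable_log.comp hm)).aestronglyMeasurable
  · refine Filter.Eventually.of_forall fun t r hr => ?_
    rw [Set.mem_Ioi] at hr
    exact rpow_bd1 (g t) (h0 t) (h1 t) (1 + d) d r hd (by linarith)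
  · exact (hint (1 + d) (by linarith)).const_mul _
  · refine Filter.Eventually.of_forall fun t r hr => ?_
    rw [Set.mem_Ioi] at hr
    exact rpow_deriv1 (g t) (h0 t) r (by linarith)

theorem gen_deriv2 (s : ℝ) (hs : 1 < s) :
    Integrable (fun t => g t ^ s * Real.log (g t) ^ 2) ∧
    HasDerivAt (fun r => ∫ t, g t ^ r * Real.log (g t)) (∫ t, g t ^ s * Real.log (g t) ^ 2) s := by
  obtain ⟨d, hd, hsd⟩ : ∃ d : ℝ, 0 < d ∧ s = 1 + 3 * d := ⟨(s - 1) / 3, by linarith, by ring⟩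
  have hnb : Set.Ioi (1 + 2 * d) ∈ nhds s := Ioi_mem_nhds (by linarith)
  refine hasDerivAt_integral_of_dominated_loc_of_deriv_le (s := Set.Ioi (1 + 2 * d))
    (F := fun r t => g t ^ r * Real.log (g t)) (F' := fun r t => g t ^ r * Real.log (g t) ^ 2)
    (bound := fun t => (2 / d) ^ 2 * g t ^ (1 + d)) hnb ?_
    (gen_deriv1 g hm h0 h1 hint s hs).1 ?_ ?_ ?_ ?_
  · exact Filter.Eventually.of_forall fun r =>
      ((hm.pow_const r).mul (Real.measurable_log.comp hm)).aestronglyMeasurable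
  · exact ((hm.pow_const s).mul ((Real.measurable_log.comp hm).pow_const 2)).aestronglyMeasurable
  · refine Filter.Eventually.of_forall fun t r hr => ?_
    rw [Set.mem_Ioi] at hr
    exact rpow_bd2 (g t) (h0 t) (h1 t) (1 + d) d r hd (by linarith)
  · exact (hint (1 + d) (by linarith)).const_mul _
  · refine Filter.Eventually.of_forall fun t r hr => ?_
    rw [Set.mem_Ioi] at hr
    have := (rpow_deriv1 (g t) (h0 t) r (by linarith)).mul_const (Real.log (g t))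
    refine this.congr_deriv ?_
    ring

end gen

/-- derivative of `Hs` -/
theorem Hs_deriv (hm : Measurable phi) (h1 : ∀ t : ℝ, |phi t| ≤ 1)
    (hint : ∀ s : ℝ, 1 < s → Integrable (fun t : ℝ => |phi t| ^ s))
    (hI : ∀ s : ℝ, 1 < s → 0 < Is s) (u : ℝ) (hu : 0 < u) (hu1 : u < 1) :
    HasDerivAt Hs (Real.log (u ^ (-(1 / 2) : ℝ) * Is (1 / u)) - 1 / 2
      - (1 / u) * (∫ t : ℝ, |phi t| ^ (1 / u) * Real.log |phi t|) / Is (1 / u)) u := by
  have hs : 1 < 1 / u := by rw [lt_div_iff₀ hu]; linarith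
  have hI1 : HasDerivAt Is (∫ t : ℝ, |phi t| ^ (1 / u) * Real.log |phi t|) (1 / u) :=
    (gen_deriv1 (fun t => |phi t|) (measurable_abs.comp hm) (fun t => abs_nonneg _) h1 hint _ hs).2
  have hinv : HasDerivAt (fun v : ℝ => 1 / v) (-(u ^ 2)⁻¹) u := by
    simpa [one_div] using hasDerivAt_inv hu.ne'
  have hIs : HasDerivAt (fun v => Is (1 / v))
      ((∫ t : ℝ, |phi t| ^ (1 / u) * Real.log |phi t|) * (-(u ^ 2)⁻¹)) u :=
    HasDerivAt.comp (h₂ := Is) u hI1 hinv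
  have hp : HasDerivAt (fun v : ℝ => v ^ (-(1 / 2) : ℝ)) ((-(1 / 2)) * u ^ (-(1 / 2) - 1 : ℝ)) u :=
    Real.hasDerivAt_rpow_const (Or.inl hu.ne')
  have hpos : 0 < u ^ (-(1 / 2) : ℝ) := Real.rpow_pos_of_pos hu _
  have hIp := hI _ hs
  have hl := ((hp.mul hIs).log (mul_pos hpos hIp).ne')
  have hf := (hasDerivAt_id u).mul hl
  have e : Hs = (id * fun y => Real.log (((fun v : ℝ => v ^ (-(1 / 2) : ℝ)) * fun v => Is (1 / v)) y)) := by
    funext v
    simp [Hs]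
  rw [e]
  refine hf.congr_deriv ?_
  have hu2 : u ^ (-(1 / 2) - 1 : ℝ) = u ^ (-(1 / 2) : ℝ) / u := by
    rw [Real.rpow_sub hu, Real.rpow_one]
  simp only [Pi.mul_apply, id, hu2]
  set A := u ^ (-(1 / 2) : ℝ)
  set I0 := Is (1 / u)
  set J := ∫ t : ℝ, |phi t| ^ (1 / u) * Real.log |phi t|
  have hA : A ≠ 0 := hpos.ne'
  have hI0 : I0 ≠ 0 := hIp.ne'
  field_simp
  ring

/-- concavity of `Hs` from the sign of `Cs` -/
theorem Hs_concave (hm : Measurable phi) (h1 : ∀ t : ℝ, |phi t| ≤ 1)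
    (hint : ∀ s : ℝ, 1 < s → Integrable (fun t : ℝ => |phi t| ^ s))
    (hI : ∀ s : ℝ, 1 < s → 0 < Is s) (c s0 : ℝ) (hs0 : 1 < s0) (hc : 0 ≤ c)
    (hC : ∀ s : ℝ, s0 ≤ s → c * Is s ≤ s * Cs s) :
    ConcaveOn ℝ (Set.Ioc 0 (1 / s0)) (fun u => Hs u + c / 2 * u ^ 2) := by
  have hlt : ∀ u ∈ Set.Ioc (0 : ℝ) (1 / s0), 0 < u ∧ u < 1 ∧ s0 ≤ 1 / u := by
    intro u hu
    have h3 : u ≤ 1 / s0 := hu.2
    have h4 : 1 / s0 < 1 := by rw [div_lt_one (by linarith)]; exact hs0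
    refine ⟨hu.1, by linarith, ?_⟩
    rw [le_div_iff₀ hu.1]
    rw [le_div_iff₀ (by linarith)] at h3
    linarith
  have hder : ∀ u : ℝ, 0 < u → u < 1 → HasDerivAt (fun u => Hs u + c / 2 * u ^ 2)
      (Real.log (u ^ (-(1 / 2) : ℝ) * Is (1 / u)) - 1 / 2
      - (1 / u) * (∫ t : ℝ, |phi t| ^ (1 / u) * Real.log |phi t|) / Is (1 / u) + c * u) u := by
    intro u hu hu1
    have h2 : HasDerivAt (fun u : ℝ => c / 2 * u ^ 2) (c * u) u := by
      have := (hasDerivAt_pow 2 u).const_mul (c / 2)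
      refine this.congr_deriv ?_
      simp; ring
    exact (Hs_deriv hm h1 hint hI u hu hu1).add h2
  have hder2 : ∀ u : ℝ, 0 < u → u < 1 → HasDerivAt (fun u =>
      (Real.log (u ^ (-(1 / 2) : ℝ) * Is (1 / u)) - 1 / 2
      - (1 / u) * (∫ t : ℝ, |phi t| ^ (1 / u) * Real.log |phi t|) / Is (1 / u) + c * u))
      (-(1 / u) * (Cs (1 / u) / Is (1 / u) + ((1 / u) * (∫ t : ℝ, |phi t| ^ (1 / u) * Real.log |phi t|) / Is (1 / u) + 1 / 2) ^ 2) + c) u := by
    intro u hu hu1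
    have hs : 1 < 1 / u := by rw [lt_div_iff₀ hu]; linarith
    have G1 := gen_deriv1 (fun t => |phi t|) (measurable_abs.comp hm) (fun t => abs_nonneg _) h1 hint _ hs
    have G2 := gen_deriv2 (fun t => |phi t|) (measurable_abs.comp hm) (fun t => abs_nonneg _) h1 hint _ hs
    have hI1 : HasDerivAt Is (∫ t : ℝ, |phi t| ^ (1 / u) * Real.log |phi t|) (1 / u) := G1.2
    have hinv : HasDerivAt (fun v : ℝ => 1 / v) (-(u ^ 2)⁻¹) u := by
      simpa [one_div] using hasDerivAt_inv hu.ne'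
    have hIs : HasDerivAt (fun v => Is (1 / v))
        ((∫ t : ℝ, |phi t| ^ (1 / u) * Real.log |phi t|) * (-(u ^ 2)⁻¹)) u :=
      HasDerivAt.comp (h₂ := Is) u hI1 hinv
    have hJs : HasDerivAt (fun v => ∫ t, |phi t| ^ (1 / v) * Real.log |phi t|)
        ((∫ t : ℝ, |phi t| ^ (1 / u) * Real.log |phi t| ^ 2) * (-(u ^ 2)⁻¹)) u :=
      HasDerivAt.comp (h₂ := fun r => ∫ t, |phi t| ^ r * Real.log |phi t|) u G2.2 hinv
    have hp : HasDerivAt (fun v : ℝ => v ^ (-(1 / 2) : ℝ)) ((-(1 / 2)) * u ^ (-(1 / 2) - 1 : ℝ)) u :=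
      Real.hasDerivAt_rpow_const (Or.inl hu.ne')
    have hpos : 0 < u ^ (-(1 / 2) : ℝ) := Real.rpow_pos_of_pos hu _
    have hIp := hI _ hs
    have hl := ((hp.mul hIs).log (mul_pos hpos hIp).ne')
    have hq := (hinv.mul hJs).div hIs hIp.ne'
    have hf := ((hl.sub_const (1 / 2)).sub hq).add ((hasDerivAt_id u).const_mul c)
    have hCs : Cs (1 / u) = 1 / 4 * Is (1 / u) - (1 / u) * (∫ t : ℝ, |phi t| ^ (1 / u) * Real.log |phi t|)
        - (1 / u) ^ 2 * (∫ t : ℝ, |phi t| ^ (1 / u) * Real.log |phi t| ^ 2) := by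
      unfold Cs Is
      rw [← integral_const_mul, ← integral_const_mul, ← integral_const_mul]
      have e1 := integral_sub ((hint _ hs).const_mul (1 / 4)) (G1.1.const_mul (1 / u))
      have e2 := integral_sub (((hint _ hs).const_mul (1 / 4)).sub (G1.1.const_mul (1 / u)))
        (G2.1.const_mul ((1 / u) ^ 2))
      rw [← e1]
      refine Eq.trans ?_ e2
      congr 1
      funext t
      simp only [Pi.sub_apply]
      ring
    refine HasDerivAt.congr_deriv hf ?_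
    have hu2 : u ^ (-(1 / 2) - 1 : ℝ) = u ^ (-(1 / 2) : ℝ) / u := by
      rw [Real.rpow_sub hu, Real.rpow_one]
    simp only [Pi.mul_apply, id, hu2, hCs]
    set A := u ^ (-(1 / 2) : ℝ)
    set I0 := Is (1 / u)
    set J := ∫ t : ℝ, |phi t| ^ (1 / u) * Real.log |phi t|
    set K := ∫ t : ℝ, |phi t| ^ (1 / u) * Real.log |phi t| ^ 2
    have hA : A ≠ 0 := hpos.ne'
    have hI0 : I0 ≠ 0 := hIp.ne'
    field_simp
    ring
  have hsub : interior (Set.Ioc (0 : ℝ) (1 / s0)) ⊆ Set.Ioc 0 (1 / s0) := interior_subset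
  refine concaveOn_of_hasDerivWithinAt2_nonpos (convex_Ioc _ _) ?_
    (fun u hu => (hder u (hlt u (hsub hu)).1 (hlt u (hsub hu)).2.1).hasDerivWithinAt)
    (fun u hu => (hder2 u (hlt u (hsub hu)).1 (hlt u (hsub hu)).2.1).hasDerivWithinAt) ?_
  · intro u hu
    exact (hder u (hlt u hu).1 (hlt u hu).2.1).continuousAt.continuousWithinAt
  · intro u hu
    obtain ⟨hu0, hu1, hus⟩ := hlt u (hsub hu)
    have h5 := hC (1 / u) hus
    have hIp := hI (1 / u) (by linarith)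
    have h6 : c ≤ (1 / u) * Cs (1 / u) / Is (1 / u) := by
      rw [le_div_iff₀ hIp]; exact h5
    have h7 : 0 ≤ (1 / u) * ((1 / u) * (∫ t : ℝ, |phi t| ^ (1 / u) * Real.log |phi t|) / Is (1 / u) + 1 / 2) ^ 2 := by
      positivity
    have h8 : (1 / u) * Cs (1 / u) / Is (1 / u) = (1 / u) * (Cs (1 / u) / Is (1 / u)) := by ring
    rw [h8] at h6
    nlinarith

end
end CG3
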