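import Pool.Agent.CG3.Base2

open MeasureTheory ProbabilityTheory
open scoped BigOperators

namespace CG3
noncomputable section


theorem J8_mom : mom 0 = 1 ∧ mom 1 = 1 - cc ∧
    mom 2 = 3 - 4 * cc ∧
    mom 3 = 15 - 21 * cc ∧
    mom 4 = 105 - 148 * cc ∧
    mom 5 = 945 - 1333 * cc ∧
    mom 6 = 10395 - 14664 * cc ∧
    mom 7 = 135135 - 190633 * cc ∧
    mom 8 = 2027025 - 2859496 * cc ∧
    mom 9 = 34459425 - 48611433 * cc := by
  have h0 : mom 0 = 1 := rfl
  have h1 : mom 1 = 1 - cc := by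
    show (2 * ((0 : ℕ) : ℝ) + 1) * mom 0 - cc = _
    rw [h0]; push_cast; ring
  have h2 : mom 2 = 3 - 4 * cc := by
    show (2 * ((1 : ℕ) : ℝ) + 1) * mom 1 - cc = _
    rw [h1]; push_cast; ring
  have h3 : mom 3 = 15 - 21 * cc := by
    show (2 * ((2 : ℕ) : ℝ) + 1) * mom 2 - cc = _
    rw [h2]; push_cast; ring
  have h4 : mom 4 = 105 - 148 * cc := by
    show (2 * ((3 : ℕ) : ℝ) + 1) * mom 3 - cc = _
    rw [h3]; push_cast; ring
  have h5 : mom 5 = 945 - 1333 * cc := by
    show (2 * ((4 : ℕ) : ℝ) + 1) * mom 4 - cc = _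
    rw [h4]; push_cast; ring
  have h6 : mom 6 = 10395 - 14664 * cc := by
    show (2 * ((5 : ℕ) : ℝ) + 1) * mom 5 - cc = _
    rw [h5]; push_cast; ring
  have h7 : mom 7 = 135135 - 190633 * cc := by
    show (2 * ((6 : ℕ) : ℝ) + 1) * mom 6 - cc = _
    rw [h6]; push_cast; ring
  have h8 : mom 8 = 2027025 - 2859496 * cc := by
    show (2 * ((7 : ℕ) : ℝ) + 1) * mom 7 - cc = _
    rw [h7]; push_cast; ring
  have h9 : mom 9 = 34459425 - 48611433 * cc := by
    show (2 * ((8 : ℕ) : ℝ) + 1) * mom 8 - cc = _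
    rw [h8]; push_cast; ring
  exact ⟨h0, h1, h2, h3, h4, h5, h6, h7, h8, h9⟩

theorem J8_poly (c t : ℝ) (hc1 : (0.708874905227206 : ℝ) ≤ c) (hc2 : c ≤ (0.708874905227208 : ℝ))
    (ht : 0 ≤ t) (ht2 : t ≤ 13 / 5) :
    (1) * (1 - 1 * c) * t ^ 1 + (-1/6) * (3 - 4 * c) * t ^ 3 + (1/120) * (15 - 21 * c) * t ^ 5 + (-1/5040) * (105 - 148 * c) * t ^ 7 + (1/362880) * (945 - 1333 * c) * t ^ 9 + (-1/39916800) * (10395 - 14664 * c) * t ^ 11 + (1/6227020800) * (135135 - 190633 * c) * t ^ 13 + (-1/1307674368000) * (2027025 - 2859496 * c) * t ^ 15 + (1/355687428096000) * (34459425 - 48611433 * c) * t ^ 17 ≤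
    ((1 - c) * t + 4 * (37401 / 10000000) * t ^ 3 + 6 * (1883 / 10000000) * t ^ 5 + 8 * (114 / 10000000) * t ^ 7 + 10 * (75 / 100000000) * t ^ 9 + 12 * (12 / 100000000) * t ^ 11) *
    ((1) * 1 * t ^ 0 + (-1/2) * (1 - 1 * c) * t ^ 2 + (1/24) * (3 - 4 * c) * t ^ 4 + (-1/720) * (15 - 21 * c) * t ^ 6 + (1/40320) * (105 - 148 * c) * t ^ 8 + (-1/3628800) * (945 - 1333 * c) * t ^ 10 + (1/479001600) * (10395 - 14664 * c) * t ^ 12 + (-1/87178291200) * (135135 - 190633 * c) * t ^ 14) := by
  have q1 : c ^ 2 ≤ (0.708874905227206 + 0.708874905227208) * c - 0.708874905227206 * 0.708874905227208 := by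
    nlinarith [mul_nonneg (sub_nonneg.2 hc1) (sub_nonneg.2 hc2)]
  have q2 : 2 * 0.708874905227206 * c - 0.708874905227206 ^ 2 ≤ c ^ 2 := by
    nlinarith [sq_nonneg (c - 0.708874905227206)]
  have l0 : ((2743/12500000000) : ℝ) ≤ (37401/2500000) + (1/3) * c + (-1/2) * c ^ 2 := by
    linarith [q1, q2, hc1, hc2]
  have l1 : ((65899/100000000000) : ℝ) ≤ (-3969/625000) + (-1637797/15000000) * c + (1/6) * c ^ 2 := by
    linarith [q1, q2, hc1, hc2]
  have l2 : ((791/1562500000) : ℝ) ≤ (27927/20000000) + (2357009/126000000) * c + (-7/240) * c ^ 2 := by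
    linarith [q1, q2, hc1, hc2]
  have l3 : ((20009/500000000000) : ℝ) ≤ (-4171/20000000) + (-261700657/113400000000) * c + (37/10080) * c ^ 2 := by
    linarith [q1, q2, hc1, hc2]
  have l4 : ((643/781250000) : ℝ) ≤ (39219/1600000000) + (283134787/1247400000000) * c + (-1333/3628800) * c ^ 2 := by
    linarith [q1, q2, hc1, hc2]
  have l5 : ((-4261/25000000000) : ℝ) ≤ (-2109/800000000) + (-70920988763/3891888000000000) * c + (611/19958400) * c ^ 2 := by
    linarith [q1, q2, hc1, hc2]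
  have l6 : ((4431/500000000000) : ℝ) ≤ (11201/38400000000) + (188160180697/163459296000000000) * c + (-190633/87178291200) * c ^ 2 := by
    linarith [q1, q2, hc1, hc2]
  have l7 : ((-21279/100000000000000) : ℝ) ≤ (-13081/100800000000) + (52089723131/285005952000000000) * c := by
    linarith [q1, q2, hc1, hc2]
  have l8 : ((739/250000000000000) : ℝ) ≤ (311/153600000000) + (-59200327/20756736000000000) * c := by
    linarith [q1, q2, hc1, hc2]
  have l9 : ((-13409/500000000000000000) : ℝ) ≤ (-1901/5376000000000) + (11323937/22702680000000000) * c := by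
    linarith [q1, q2, hc1, hc2]
  have l10 : ((17121/100000000000000000000) : ℝ) ≤ (211/10752000000000) + (-3656657/132088320000000000) * c := by
    linarith [q1, q2, hc1, hc2]
  have l11 : ((-82907/100000000000000000000000) : ℝ) ≤ (-1/448000000000) + (190633/60540480000000000) * c := by
    linarith [q1, q2, hc1, hc2]
  obtain ⟨s, hs⟩ : ∃ s, s = t ^ 2 := ⟨_, rfl⟩
  have hs0 : 0 ≤ s := by rw [hs]; positivity
  have hs1 : s ≤ 6.76 := by rw [hs]; nlinarith
  have k0 : ((2743/12500000000) : ℝ) * s ^ 0 ≤ ((37401/2500000) + (1/3) * c + (-1/2) * c ^ 2) * s ^ 0 :=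
    mul_le_mul_of_nonneg_right l0 (by positivity)
  have k1 : ((65899/100000000000) : ℝ) * s ^ 1 ≤ ((-3969/625000) + (-1637797/15000000) * c + (1/6) * c ^ 2) * s ^ 1 :=
    mul_le_mul_of_nonneg_right l1 (by positivity)
  have k2 : ((791/1562500000) : ℝ) * s ^ 2 ≤ ((27927/20000000) + (2357009/126000000) * c + (-7/240) * c ^ 2) * s ^ 2 :=
    mul_le_mul_of_nonneg_right l2 (by positivity)
  have k3 : ((20009/500000000000) : ℝ) * s ^ 3 ≤ ((-4171/20000000) + (-261700657/113400000000) * c + (37/10080) * c ^ 2) * s ^ 3 :=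
    mul_le_mul_of_nonneg_right l3 (by positivity)
  have k4 : ((643/781250000) : ℝ) * s ^ 4 ≤ ((39219/1600000000) + (283134787/1247400000000) * c + (-1333/3628800) * c ^ 2) * s ^ 4 :=
    mul_le_mul_of_nonneg_right l4 (by positivity)
  have k5 : ((-4261/25000000000) : ℝ) * s ^ 5 ≤ ((-2109/800000000) + (-70920988763/3891888000000000) * c + (611/19958400) * c ^ 2) * s ^ 5 :=
    mul_le_mul_of_nonneg_right l5 (by positivity)
  have k6 : ((4431/500000000000) : ℝ) * s ^ 6 ≤ ((11201/38400000000) + (188160180697/163459296000000000) * c + (-190633/87178291200) * c ^ 2) * s ^ 6 :=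
    mul_le_mul_of_nonneg_right l6 (by positivity)
  have k7 : ((-21279/100000000000000) : ℝ) * s ^ 7 ≤ ((-13081/100800000000) + (52089723131/285005952000000000) * c) * s ^ 7 :=
    mul_le_mul_of_nonneg_right l7 (by positivity)
  have k8 : ((739/250000000000000) : ℝ) * s ^ 8 ≤ ((311/153600000000) + (-59200327/20756736000000000) * c) * s ^ 8 :=
    mul_le_mul_of_nonneg_right l8 (by positivity)
  have k9 : ((-13409/500000000000000000) : ℝ) * s ^ 9 ≤ ((-1901/5376000000000) + (11323937/22702680000000000) * c) * s ^ 9 :=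
    mul_le_mul_of_nonneg_right l9 (by positivity)
  have k10 : ((17121/100000000000000000000) : ℝ) * s ^ 10 ≤ ((211/10752000000000) + (-3656657/132088320000000000) * c) * s ^ 10 :=
    mul_le_mul_of_nonneg_right l10 (by positivity)
  have k11 : ((-82907/100000000000000000000000) : ℝ) * s ^ 11 ≤ ((-1/448000000000) + (190633/60540480000000000) * c) * s ^ 11 :=
    mul_le_mul_of_nonneg_right l11 (by positivity)
  have hq : 0 ≤ (643/781250000) + (-4261/25000000000) * s + (4431/500000000000) * s ^ 2 + (-21279/100000000000000) * s ^ 3 := by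
    have hu : 0 ≤ 6.76 - s := by linarith
    have e : (643/781250000) + (-4261/25000000000) * s + (4431/500000000000) * s ^ 2 + (-21279/100000000000000) * s ^ 3 =
        (15786786289/1562500000000000000) + (4987358557/62500000000000000) * (6.76 - s) + (11366547/2500000000000000) * (6.76 - s) ^ 2 + (21279/100000000000000) * (6.76 - s) ^ 3 := by
      ring
    rw [e]
    positivity
  have hq2 : 0 ≤ s ^ 4 * ((643/781250000) + (-4261/25000000000) * s + (4431/500000000000) * s ^ 2 + (-21279/100000000000000) * s ^ 3) := by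
    positivity
  have hp8 : 0 ≤ s ^ 8 * ((739/250000000000000) + (-13409/500000000000000000) * s) := by
    have : 0 ≤ (739/250000000000000) + (-13409/500000000000000000) * s := by linarith
    positivity
  have hp10 : 0 ≤ s ^ 10 * ((17121/100000000000000000000) + (-82907/100000000000000000000000) * s) := by
    have : 0 ≤ (17121/100000000000000000000) + (-82907/100000000000000000000000) * s := by linarith
    positivity
  have hlow : 0 ≤ (2743/12500000000) * s ^ 0 + (65899/100000000000) * s ^ 1 + (791/1562500000) * s ^ 2 + (20009/500000000000) * s ^ 3 + (643/781250000) * s ^ 4 + (-4261/25000000000) * s ^ 5 + (4431/500000000000) * s ^ 6 + (-21279/100000000000000) * s ^ 7 + (739/250000000000000) * s ^ 8 + (-13409/500000000000000000) * s ^ 9 + (17121/100000000000000000000) * s ^ 10 + (-82907/100000000000000000000000) * s ^ 11 := by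
    have b0 : 0 ≤ (2743/12500000000) * s ^ 0 + (65899/100000000000) * s ^ 1 + (791/1562500000) * s ^ 2 + (20009/500000000000) * s ^ 3 := by positivity
    refine (add_nonneg (add_nonneg (add_nonneg b0 hq2) hp8) hp10).trans (le_of_eq ?_)
    ring
  have htot : 0 ≤ ((37401/2500000) + (1/3) * c + (-1/2) * c ^ 2) * s ^ 0 + ((-3969/625000) + (-1637797/15000000) * c + (1/6) * c ^ 2) * s ^ 1 + ((27927/20000000) + (2357009/126000000) * c + (-7/240) * c ^ 2) * s ^ 2 + ((-4171/20000000) + (-261700657/113400000000) * c + (37/10080) * c ^ 2) * s ^ 3 + ((39219/1600000000) + (283134787/1247400000000) * c + (-1333/3628800) * c ^ 2) * s ^ 4 + ((-2109/800000000) + (-70920988763/3891888000000000) * c + (611/19958400) * c ^ 2) * s ^ 5 + ((11201/38400000000) + (188160180697/163459296000000000) * c + (-190633/87178291200) * c ^ 2) * s ^ 6 + ((-13081/100800000000) + (52089723131/285005952000000000) * c) * s ^ 7 + ((311/153600000000) + (-59200327/20756736000000000) * c) * s ^ 8 + ((-1901/5376000000000)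 + (11323937/22702680000000000) * c) * s ^ 9 + ((211/10752000000000) + (-3656657/132088320000000000) * c) * s ^ 10 + ((-1/448000000000) + (190633/60540480000000000) * c) * s ^ 11 :=
    hlow.trans (add_le_add (add_le_add (add_le_add (add_le_add (add_le_add (add_le_add (add_le_add (add_le_add (add_le_add (add_le_add (add_le_add k0 k1) k2) k3) k4) k5) k6) k7) k8) k9) k10) k11)
  have hfin : 0 ≤ t ^ 3 * (((37401/2500000) + (1/3) * c + (-1/2) * c ^ 2) * s ^ 0 + ((-3969/625000) + (-1637797/15000000) * c + (1/6) * c ^ 2) * s ^ 1 + ((27927/20000000) + (2357009/126000000) * c + (-7/240) * c ^ 2) * s ^ 2 + ((-4171/20000000) + (-261700657/113400000000) * c + (37/10080) * c ^ 2) * s ^ 3 + ((39219/1600000000) + (283134787/1247400000000) * c + (-1333/3628800) * c ^ 2) * s ^ 4 + ((-2109/800000000) + (-70920988763/3891888000000000) * c + (611/19958400) * c ^ 2) * s ^ 5 + ((11201/38400000000) + (188160180697/163459296000000000) * c + (-190633/87178291200) * c ^ 2) * s ^ 6 + ((-13081/100800000000)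 + (52089723131/285005952000000000) * c) * s ^ 7 + ((311/153600000000) + (-59200327/20756736000000000) * c) * s ^ 8 + ((-1901/5376000000000) + (11323937/22702680000000000) * c) * s ^ 9 + ((211/10752000000000) + (-3656657/132088320000000000) * c) * s ^ 10 + ((-1/448000000000) + (190633/60540480000000000) * c) * s ^ 11) :=
    mul_nonneg (by positivity) htot
  rw [hs] at hfin
  refine le_of_sub_nonneg (hfin.trans (le_of_eq ?_))
  ring

/-- `exp (-PB) ≤ phi` on `[0, 2.6]` -/
theorem expPB_le_phi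
    (hz : phi 0 = 1)
    (hd : ∀ t : ℝ, HasDerivAt phi (-(∫ x in (-1 : ℝ)..1, w x * x * Real.sin (t * x)) / m0) t)
    (hT1 : ∀ (K : ℕ) (t : ℝ), phi t ≤
      ∑ k ∈ Finset.range (2 * K + 1), (-1) ^ k * mom k * t ^ (2 * k) / (2 * k).factorial)
    (hT2 : ∀ (K : ℕ) (t : ℝ),
      ∑ k ∈ Finset.range (2 * K + 2), (-1) ^ k * mom k * t ^ (2 * k) / (2 * k).factorial ≤ phi t)
    (hD1 : ∀ (K : ℕ) (t : ℝ), 0 ≤ t →
      ∑ k ∈ Finset.range (2 * K + 2), (-1) ^ k * mom (k + 1) * t ^ (2 * k + 1) / (2 * k + 1).factorial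
        ≤ (∫ x in (-1 : ℝ)..1, w x * x * Real.sin (t * x)) / m0)
    (hD2 : ∀ (K : ℕ) (t : ℝ), 0 ≤ t →
      (∫ x in (-1 : ℝ)..1, w x * x * Real.sin (t * x)) / m0 ≤
      ∑ k ∈ Finset.range (2 * K + 1), (-1) ^ k * mom (k + 1) * t ^ (2 * k + 1) / (2 * k + 1).factorial)
    (hc1 : (0.708874905227206 : ℝ) ≤ cc) (hc2 : cc ≤ (0.708874905227208 : ℝ)) :
    ∀ t : ℝ, 0 ≤ t → t ≤ 13 / 5 → Real.exp (-(PB t)) ≤ phi t := by
  obtain ⟨m0', m1, m2, m3, m4, m5, m6, m7, m8, m9⟩ := J8_mom
  intro t ht ht2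
  have hD : ∀ t : ℝ, HasDerivAt (fun t => phi t * Real.exp (PB t))
      ((-(∫ x in (-1 : ℝ)..1, w x * x * Real.sin (t * x)) / m0) * Real.exp (PB t) +
        phi t * (Real.exp (PB t) * ((1 - cc) * t + 4 * (37401 / 10000000) * t ^ 3 + 6 * (1883 / 10000000) * t ^ 5 + 8 * (114 / 10000000) * t ^ 7 + 10 * (75 / 100000000) * t ^ 9 + 12 * (12 / 100000000) * t ^ 11))) t := by
    intro t
    have h1 : HasDerivAt PB ((1 - cc) * t + 4 * (37401 / 10000000) * t ^ 3 + 6 * (1883 / 10000000) * t ^ 5 + 8 * (114 / 10000000) * t ^ 7 + 10 * (75 / 100000000) * t ^ 9 + 12 * (12 / 100000000) * t ^ 11) t := by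
      unfold PB
      have e : ∀ n : ℕ, HasDerivAt (fun t : ℝ => t ^ n) ((n : ℝ) * t ^ (n - 1)) t := fun n => hasDerivAt_pow n t
      have h := ((((((e 2).const_mul ((1 - cc) / 2)).add ((e 4).const_mul (37401 / 10000000))).add
        ((e 6).const_mul (1883 / 10000000))).add ((e 8).const_mul (114 / 10000000))).add
        ((e 10).const_mul (75 / 100000000))).add ((e 12).const_mul (12 / 100000000))
      refine h.congr_deriv ?_
      push_cast
      ring
    exact (hd t).mul h1.exp
  have hkey : ∀ t : ℝ, 0 ≤ t → t ≤ 13 / 5 →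
      (∫ x in (-1 : ℝ)..1, w x * x * Real.sin (t * x)) / m0 ≤ ((1 - cc) * t + 4 * (37401 / 10000000) * t ^ 3 + 6 * (1883 / 10000000) * t ^ 5 + 8 * (114 / 10000000) * t ^ 7 + 10 * (75 / 100000000) * t ^ 9 + 12 * (12 / 100000000) * t ^ 11) * phi t := by
    intro t ht ht2
    have a1 := hD2 4 t ht
    have a2 := hT2 3 t
    have a3 := J8_poly cc t hc1 hc2 ht ht2
    have hpos : 0 ≤ (1 - cc) * t + 4 * (37401 / 10000000) * t ^ 3 + 6 * (1883 / 10000000) * t ^ 5 + 8 * (114 / 10000000) * t ^ 7 + 10 * (75 / 100000000) * t ^ 9 + 12 * (12 / 100000000) * t ^ 11 := by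
      have : 0 ≤ 1 - cc := by linarith
      positivity
    refine a1.trans (le_trans (le_trans (le_of_eq ?_) a3) (mul_le_mul_of_nonneg_left (le_trans (le_of_eq ?_) a2) hpos))
    · simp only [Finset.sum_range_succ, Finset.sum_range_zero, Nat.factorial]
      norm_num [m0', m1, m2, m3, m4, m5, m6, m7, m8, m9]
      ring
    · simp only [Finset.sum_range_succ, Finset.sum_range_zero, Nat.factorial]
      norm_num [m0', m1, m2, m3, m4, m5, m6, m7, m8, m9]
      ring
  have hmono : MonotoneOn (fun t => phi t * Real.exp (PB t)) (Set.Icc 0 (13 / 5)) := by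
    refine monotoneOn_of_deriv_nonneg (convex_Icc _ _)
      (fun t _ => (hD t).continuousAt.continuousWithinAt)
      (fun t _ => (hD t).differentiableAt.differentiableWithinAt) ?_
    intro t htt
    rw [interior_Icc] at htt
    rw [(hD t).deriv]
    have h1 := hkey t htt.1.le htt.2.le
    have h2 := (Real.exp_pos (PB t)).le
    have h3 : (-(∫ x in (-1 : ℝ)..1, w x * x * Real.sin (t * x)) / m0) * Real.exp (PB t) +
        phi t * (Real.exp (PB t) * ((1 - cc) * t + 4 * (37401 / 10000000) * t ^ 3 + 6 * (1883 / 10000000) * t ^ 5 + 8 * (114 / 10000000) * t ^ 7 + 10 * (75 / 100000000) * t ^ 9 + 12 * (12 / 100000000) * t ^ 11)) =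
        Real.exp (PB t) * (((1 - cc) * t + 4 * (37401 / 10000000) * t ^ 3 + 6 * (1883 / 10000000) * t ^ 5 + 8 * (114 / 10000000) * t ^ 7 + 10 * (75 / 100000000) * t ^ 9 + 12 * (12 / 100000000) * t ^ 11) * phi t - (∫ x in (-1 : ℝ)..1, w x * x * Real.sin (t * x)) / m0) := by
      ring
    rw [h3]
    exact mul_nonneg h2 (sub_nonneg.2 h1)
  have h := hmono (Set.left_mem_Icc.2 (by norm_num)) ⟨ht, ht2⟩ ht
  have hPB0 : PB 0 = 0 := by simp [PB]
  simp only [hz, hPB0, Real.exp_zero, mul_one] at h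
  rw [Real.exp_neg]
  rw [inv_le_iff_one_le_mul₀ (Real.exp_pos _)]
  exact h

end
end CG3
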