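import Pool.Agent.CG3.Base2

open MeasureTheory ProbabilityTheory
open scoped BigOperators

namespace CG3
noncomputable section

/-- corner region (two-coordinate bound) -/
theorem T3_region
    (hm1 : (1.7112487837842976 : ℝ) ≤ m0) (hm2 : m0 ≤ (1.7112487837842977 : ℝ))
    (hB1 : (1.49364826562485405 : ℝ) ≤ B1) (hB2 : B1 ≤ (1.49364826562485406 : ℝ))
    (x y v : ℝ) (hx1 : 1 / 2 ≤ x) (hx : x ≤ 21 / 40) (hv : x + y + v = 1) (hv0 : 0 ≤ v)
    (hv1 : v ≤ 9 / 5 * (x - 1 / 2)) :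
    2 * Real.pi / (√x * m0 ^ 2) *
      (∫ t in (-1 : ℝ)..1, Real.exp (-((1 + y / x) * t ^ 2 / 2))) ≤
      √2 * (2 * Real.pi * B1 / m0 ^ 2) := by
  have hx0 : 0 < x := by linarith
  have hm0 : 0 < m0 := by linarith
  have hB0 : 0 < B1 := by linarith
  obtain ⟨e, he⟩ : ∃ e : ℝ, e = 1 - (1 - v) / (2 * x) := ⟨_, rfl⟩
  have hc : ∀ t : ℝ, -((1 + y / x) * t ^ 2 / 2) = -(t ^ 2) + e * t ^ 2 := by
    intro t
    have hy : y = 1 - x - v := by linarith
    rw [he, hy]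
    field_simp
    ring
  obtain ⟨h, hh⟩ : ∃ h : ℝ, x = 1 / 2 + h := ⟨x - 1 / 2, by ring⟩
  have hh0 : 0 ≤ h := by linarith
  have hh1 : h ≤ 1 / 40 := by linarith
  have hv2 : v ≤ 9 / 5 * h := by rw [hh] at hv1; linarith
  have he0 : 0 ≤ e := by
    have : (1 - v) / (2 * x) ≤ 1 := by
      rw [div_le_one (by linarith)]
      linarith
    rw [he]
    linarith
  have he1 : e * (1 + 2 * h) ≤ 19 / 5 * h := by
    have h1 : e * (2 * x) = 2 * x - (1 - v) := by
      rw [he]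
      field_simp
    have h2 : 2 * x = 1 + 2 * h := by rw [hh]; ring
    rw [h2] at h1
    rw [h1]
    linarith
  have he2 : e ≤ 1 / 10 := by
    nlinarith
  -- pointwise bound
  have hpt : ∀ t ∈ Set.Icc (-1 : ℝ) 1, Real.exp (-((1 + y / x) * t ^ 2 / 2)) ≤
      Real.exp (-(t ^ 2)) + e * (t ^ 2 * Real.exp (-(t ^ 2))) +
        11 / 20 * e ^ 2 * (t ^ 4 * Real.exp (-(t ^ 2))) := by
    intro t ht
    have ht2 : t ^ 2 ≤ 1 := by
      have := ht.1
      have := ht.2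
      nlinarith
    have hz0 : 0 ≤ e * t ^ 2 := mul_nonneg he0 (sq_nonneg t)
    have hz1 : e * t ^ 2 ≤ 1 / 10 := by nlinarith [sq_nonneg t]
    have hexp : Real.exp (e * t ^ 2) ≤ 1 + e * t ^ 2 + 11 / 20 * (e * t ^ 2) ^ 2 := by
      have := Real.exp_bound' hz0 (by linarith) (n := 3) (by norm_num)
      simp only [Finset.sum_range_succ, Finset.sum_range_zero, Nat.factorial] at this
      norm_num at this
      nlinarith [mul_nonneg (sq_nonneg (e * t ^ 2)) (sub_nonneg.2 hz1)]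
    rw [hc t, Real.exp_add]
    have := mul_le_mul_of_nonneg_left hexp (Real.exp_pos (-(t ^ 2))).le
    nlinarith
  obtain ⟨I2, hI2⟩ : ∃ I2 : ℝ, I2 = ∫ t in (-1 : ℝ)..1, t ^ 2 * Real.exp (-(t ^ 2)) := ⟨_, rfl⟩
  obtain ⟨I4, hI4⟩ : ∃ I4 : ℝ, I4 = ∫ t in (-1 : ℝ)..1, t ^ 4 * Real.exp (-(t ^ 2)) := ⟨_, rfl⟩
  have c0 : Continuous fun t : ℝ => Real.exp (-(t ^ 2)) := by fun_prop
  have c2 : Continuous fun t : ℝ => t ^ 2 * Real.exp (-(t ^ 2)) := by fun_prop
  have c4 : Continuous fun t : ℝ => t ^ 4 * Real.exp (-(t ^ 2)) := by fun_prop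
  have e2 : B1 - 2 * I2 = 2 * Real.exp (-1) := by
    have hd : ∀ t ∈ Set.uIcc (-1 : ℝ) 1, HasDerivAt (fun t : ℝ => t * Real.exp (-(t ^ 2)))
        (Real.exp (-(t ^ 2)) - 2 * (t ^ 2 * Real.exp (-(t ^ 2)))) t := by
      intro t _
      have h1 : HasDerivAt (fun t : ℝ => -(t ^ 2)) (-(2 * t)) t := by
        have : HasDerivAt (fun t : ℝ => -(t ^ 2)) (-(((2 : ℕ) : ℝ) * t ^ (2 - 1))) t :=
          (hasDerivAt_pow 2 t).neg
        convert this using 1
        norm_num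
      exact ((hasDerivAt_id' t).mul h1.exp).congr_deriv (by ring)
    have := intervalIntegral.integral_eq_sub_of_hasDerivAt hd
      ((c0.sub (c2.const_mul 2)).intervalIntegrable _ _)
    rw [intervalIntegral.integral_sub (c0.intervalIntegrable _ _)
      ((c2.const_mul 2).intervalIntegrable _ _), intervalIntegral.integral_const_mul, ← hI2] at this
    rw [B1, this]
    norm_num
    ring
  have e4 : 3 * I2 - 2 * I4 = 2 * Real.exp (-1) := by
    have hd : ∀ t ∈ Set.uIcc (-1 : ℝ) 1, HasDerivAt (fun t : ℝ => t ^ 3 * Real.exp (-(t ^ 2)))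
        (3 * (t ^ 2 * Real.exp (-(t ^ 2))) - 2 * (t ^ 4 * Real.exp (-(t ^ 2)))) t := by
      intro t _
      have h1 : HasDerivAt (fun t : ℝ => -(t ^ 2)) (-(2 * t)) t := by
        have : HasDerivAt (fun t : ℝ => -(t ^ 2)) (-(((2 : ℕ) : ℝ) * t ^ (2 - 1))) t :=
          (hasDerivAt_pow 2 t).neg
        convert this using 1
        norm_num
      exact ((hasDerivAt_pow 3 t).mul h1.exp).congr_deriv (by norm_num; ring)
    have := intervalIntegral.integral_eq_sub_of_hasDerivAt hd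
      (((c2.const_mul 3).sub (c4.const_mul 2)).intervalIntegrable _ _)
    rw [intervalIntegral.integral_sub ((c2.const_mul 3).intervalIntegrable _ _)
      ((c4.const_mul 2).intervalIntegrable _ _), intervalIntegral.integral_const_mul,
      intervalIntegral.integral_const_mul, ← hI2, ← hI4] at this
    rw [this]
    norm_num
    ring
  have hint : (∫ t in (-1 : ℝ)..1, Real.exp (-((1 + y / x) * t ^ 2 / 2))) ≤
      B1 + e * I2 + 11 / 20 * e ^ 2 * I4 := by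
    have h1 : (∫ t in (-1 : ℝ)..1, Real.exp (-((1 + y / x) * t ^ 2 / 2))) ≤
        ∫ t in (-1 : ℝ)..1, (Real.exp (-(t ^ 2)) + e * (t ^ 2 * Real.exp (-(t ^ 2))) +
          11 / 20 * e ^ 2 * (t ^ 4 * Real.exp (-(t ^ 2)))) := by
      apply intervalIntegral.integral_mono_on (by norm_num)
      · exact (by fun_prop : Continuous fun t : ℝ =>
          Real.exp (-((1 + y / x) * t ^ 2 / 2))).intervalIntegrable _ _
      · exact ((c0.add (c2.const_mul e)).add (c4.const_mul (11 / 20 * e ^ 2))).intervalIntegrable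
          _ _
      · exact hpt
    have i1 : IntervalIntegrable (fun t : ℝ => Real.exp (-(t ^ 2)) +
        e * (t ^ 2 * Real.exp (-(t ^ 2)))) volume (-1) 1 :=
      (by fun_prop : Continuous fun t : ℝ => Real.exp (-(t ^ 2)) +
        e * (t ^ 2 * Real.exp (-(t ^ 2)))).intervalIntegrable _ _
    have i2 : IntervalIntegrable (fun t : ℝ => 11 / 20 * e ^ 2 * (t ^ 4 * Real.exp (-(t ^ 2))))
        volume (-1) 1 := (c4.const_mul _).intervalIntegrable _ _
    have i3 : IntervalIntegrable (fun t : ℝ => Real.exp (-(t ^ 2))) volume (-1) 1 :=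
      c0.intervalIntegrable _ _
    have i4 : IntervalIntegrable (fun t : ℝ => e * (t ^ 2 * Real.exp (-(t ^ 2)))) volume (-1) 1 :=
      (c2.const_mul _).intervalIntegrable _ _
    rw [intervalIntegral.integral_add i1 i2, intervalIntegral.integral_add i3 i4,
      intervalIntegral.integral_const_mul, intervalIntegral.integral_const_mul, ← hI2, ← hI4] at h1
    exact h1
  -- numerics
  have hexp1 : (0.36787944 : ℝ) ≤ Real.exp (-1) := by
    rw [Real.exp_neg, ← one_div, le_div_iff₀ (Real.exp_pos 1)]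
    have := Real.exp_one_lt_d9
    nlinarith
  have hI2u : I2 ≤ 0.3789447 := by linarith
  have hI4u : I4 ≤ 0.2005377 := by linarith
  have hS : 1 + h - h ^ 2 / 2 ≤ √(2 * x) := by
    apply Real.le_sqrt_of_sq_le
    rw [hh]
    nlinarith [mul_nonneg hh0 hh0, mul_nonneg (mul_nonneg hh0 hh0) hh0,
      mul_nonneg (mul_nonneg (mul_nonneg hh0 hh0) hh0) hh0]
  have hfin : (∫ t in (-1 : ℝ)..1, Real.exp (-((1 + y / x) * t ^ 2 / 2))) ≤ √(2 * x) * B1 := by
    have hnum : e * 0.3789447 + 11 / 20 * e ^ 2 * 0.2005377 ≤ (h - h ^ 2 / 2) * 1.4936482 := by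
      have hE : e ≤ 19 / 5 * h / (1 + 2 * h) := by
        rw [le_div_iff₀ (by linarith)]
        exact he1
      have hE2 : e ^ 2 ≤ (19 / 5 * h / (1 + 2 * h)) ^ 2 := pow_le_pow_left₀ he0 hE 2
      have : 19 / 5 * h / (1 + 2 * h) * 0.3789447 +
          11 / 20 * (19 / 5 * h / (1 + 2 * h)) ^ 2 * 0.2005377 ≤
          (h - h ^ 2 / 2) * 1.4936482 := by
        rw [div_pow]
        have h12 : 0 < 1 + 2 * h := by linarith
        rw [← sub_nonneg]
        have : (h - h ^ 2 / 2) * 1.4936482 - (19 / 5 * h / (1 + 2 * h) * 0.3789447 +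
          11 / 20 * ((19 / 5 * h) ^ 2 / (1 + 2 * h) ^ 2) * 0.2005377) =
          h * ((1 - h / 2) * 1.4936482 * (1 + 2 * h) ^ 2 - 19 / 5 * 0.3789447 * (1 + 2 * h) -
            11 / 20 * (19 / 5) ^ 2 * h * 0.2005377) / (1 + 2 * h) ^ 2 := by
          field_simp
          ring
        rw [this]
        apply div_nonneg _ (by positivity)
        apply mul_nonneg hh0
        nlinarith [mul_nonneg hh0 hh0, mul_nonneg (mul_nonneg hh0 hh0) hh0,
          mul_nonneg hh0 (sub_nonneg.2 hh1)]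
      linarith
    have h3 : (1 + h - h ^ 2 / 2) * B1 ≤ √(2 * x) * B1 := mul_le_mul_of_nonneg_right hS hB0.le
    have h4 : (h - h ^ 2 / 2) * 1.4936482 ≤ (h - h ^ 2 / 2) * B1 :=
      mul_le_mul_of_nonneg_left (by linarith) (by nlinarith)
    have h5 : e * I2 ≤ e * 0.3789447 := mul_le_mul_of_nonneg_left hI2u he0
    have h6 : 11 / 20 * e ^ 2 * I4 ≤ 11 / 20 * e ^ 2 * 0.2005377 :=
      mul_le_mul_of_nonneg_left hI4u (by positivity)
    linarith
  have hsx : 0 < √x := Real.sqrt_pos.2 hx0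
  rw [Real.sqrt_mul (by norm_num)] at hfin
  have hpi := Real.pi_pos
  rw [div_mul_eq_mul_div, div_le_iff₀ (by positivity)]
  have e5 : √2 * (2 * Real.pi * B1 / m0 ^ 2) * (√x * m0 ^ 2) = 2 * Real.pi * (√2 * √x * B1) := by
    field_simp
  rw [e5]
  exact mul_le_mul_of_nonneg_left hfin (by positivity)

/-- one large coordinate -/
theorem M_region
    (hm1 : (1.7112487837842976 : ℝ) ≤ m0) (hm2 : m0 ≤ (1.7112487837842977 : ℝ))
    (hB1 : (1.49364826562485405 : ℝ) ≤ B1) (hB2 : B1 ≤ (1.49364826562485406 : ℝ))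
    (hc1 : (0.708874905227206 : ℝ) ≤ cc) (hc2 : cc ≤ (0.708874905227208 : ℝ))
    (x : ℝ) (hx1 : 21 / 40 ≤ x) (hx : x ≤ 1) :
    2 * Real.pi / (√x * m0) *
      (1 - 2 * (2211 / 10000) * ((1 - cc) * ((1 - x) / x))
        + 3 * (2211 / 10000) ^ 2 * ((1 - cc) * ((1 - x) / x)) ^ 2) ≤
      √2 * (2 * Real.pi * B1 / m0 ^ 2) := by
  have hx0 : 0 < x := by linarith
  have hm0 : 0 < m0 := by linarith
  have hB0 : 0 < B1 := by linarith
  obtain ⟨z, hz⟩ : ∃ z : ℝ, z = (1 - x) / x := ⟨_, rfl⟩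
  have hzx : x * (1 + z) = 1 := by rw [hz]; field_simp; ring
  have hz0 : 0 ≤ z := by rw [hz]; exact div_nonneg (by linarith) hx0.le
  have hz1 : z ≤ 19 / 21 := by rw [hz, div_le_iff₀ hx0]; linarith
  rw [← hz]
  obtain ⟨V, hV⟩ : ∃ V : ℝ, V = (1 - cc) * z := ⟨_, rfl⟩
  rw [← hV]
  have hVl : 29112 / 100000 * z ≤ V := by
    rw [hV]; exact mul_le_mul_of_nonneg_right (by linarith) hz0
  have hVu : V ≤ 1 / 3 := by
    rw [hV]; nlinarith
  have hV0 : 0 ≤ V := le_trans (by positivity) hVl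
  obtain ⟨P, hP⟩ : ∃ P : ℝ, P = 1 - 2 * (2211 / 10000) * V + 3 * (2211 / 10000) ^ 2 * V ^ 2 :=
    ⟨_, rfl⟩
  rw [← hP]
  have hP0 : 0 ≤ P := by rw [hP]; nlinarith [sq_nonneg V]
  obtain ⟨Q, hQ⟩ : ∃ Q : ℝ, Q = 1 - 2 * (2211 / 10000) * (29112 / 100000 * z) +
    3 * (2211 / 10000) ^ 2 * (29112 / 100000 * z) ^ 2 := ⟨_, rfl⟩
  have hPQ : P ≤ Q := by
    rw [hP, hQ]
    nlinarith [mul_nonneg (sub_nonneg.2 hVl) (sub_nonneg.2 hVu), mul_nonneg hV0 (sub_nonneg.2 hVl),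
      mul_nonneg hz0 (sub_nonneg.2 hVl)]
  have hQ2 : Q ^ 2 * (1 + z) ≤ 1.5237 := by
    obtain ⟨u, hu⟩ : ∃ u : ℝ, z = 19 / 21 - u := ⟨19 / 21 - z, by ring⟩
    have hu0 : 0 ≤ u := by linarith
    have hu1 : u ≤ 19 / 21 := by linarith
    rw [hQ, hu]
    nlinarith [mul_nonneg hu0 (sub_nonneg.2 hu1), mul_nonneg (mul_nonneg hu0 hu0) hu0,
      mul_nonneg (mul_nonneg hu0 hu0) (sub_nonneg.2 hu1),
      mul_nonneg (mul_nonneg (mul_nonneg hu0 hu0) hu0) (sub_nonneg.2 hu1),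
      mul_nonneg (mul_nonneg (mul_nonneg (mul_nonneg hu0 hu0) hu0) hu0) (sub_nonneg.2 hu1)]
  have hmain : m0 * P ≤ √(2 * x) * B1 := by
    have h1 : √(2 * x) * B1 = √(2 * x * B1 ^ 2) := by
      rw [Real.sqrt_mul (by positivity : (0 : ℝ) ≤ 2 * x), Real.sqrt_sq hB0.le]
    rw [h1]
    apply Real.le_sqrt_of_sq_le
    have h2 : P ^ 2 ≤ Q ^ 2 := pow_le_pow_left₀ hP0 hPQ 2
    have h3 : P ^ 2 * (1 + z) ≤ 1.5237 :=
      le_trans (mul_le_mul_of_nonneg_right h2 (by linarith)) hQ2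
    have h4 : P ^ 2 ≤ 1.5237 * x := by
      have := mul_le_mul_of_nonneg_left h3 hx0.le
      have e1 : x * (P ^ 2 * (1 + z)) = P ^ 2 * (x * (1 + z)) := by ring
      rw [e1, hzx] at this
      linarith
    have h5 : m0 ^ 2 * 1.5237 ≤ 2 * B1 ^ 2 := by
      have a1 : m0 ^ 2 ≤ (1.71124879 : ℝ) ^ 2 := pow_le_pow_left₀ hm0.le (by linarith) 2
      have a2 : (1.49364826 : ℝ) ^ 2 ≤ B1 ^ 2 := pow_le_pow_left₀ (by norm_num) (by linarith) 2
      nlinarith
    calc (m0 * P) ^ 2 = m0 ^ 2 * P ^ 2 := by ring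
      _ ≤ m0 ^ 2 * (1.5237 * x) := mul_le_mul_of_nonneg_left h4 (by positivity)
      _ = (m0 ^ 2 * 1.5237) * x := by ring
      _ ≤ (2 * B1 ^ 2) * x := mul_le_mul_of_nonneg_right h5 hx0.le
      _ = 2 * x * B1 ^ 2 := by ring
  have hsx : 0 < √x := Real.sqrt_pos.2 hx0
  rw [Real.sqrt_mul (by norm_num)] at hmain
  have hpi := Real.pi_pos
  rw [div_mul_eq_mul_div, div_le_iff₀ (by positivity)]
  have e5 : √2 * (2 * Real.pi * B1 / m0 ^ 2) * (√x * m0) =
      2 * Real.pi * (√2 * √x * B1) / m0 := by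
    field_simp
  rw [e5, le_div_iff₀ hm0]
  have := mul_le_mul_of_nonneg_left hmain (by positivity : (0:ℝ) ≤ 2 * Real.pi)
  linarith

end
end CG3
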