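import Pool.Agent.CG3.Base2

open MeasureTheory ProbabilityTheory
open scoped BigOperators

namespace CG3
noncomputable section

theorem Hs_lower_10808
    (hint : ∀ s : ℝ, 1 < s → Integrable (fun t : ℝ => |phi t| ^ s))
    (hPB : ∀ t : ℝ, 0 ≤ t → t ≤ 13 / 5 → Real.exp (-(PB t)) ≤ phi t)
    (hc1 : (0.708874905227206 : ℝ) ≤ cc) (u : ℝ) (h0 : 0 < u) (h1 : u < 1) : -u ≤ Hs u := by
  have hs : 1 < 1 / u := by rw [lt_div_iff₀ h0]; linarith
  have hint' := hint (1 / u) hs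
  have hsq1 : √u ≤ 1 := Real.sqrt_le_iff.2 ⟨by norm_num, by linarith⟩
  have hpt : ∀ t ∈ Set.Ioc 0 (√u), Real.exp (-1) ≤ |phi t| ^ (1 / u) := by
    intro t ht
    have ht1 : t ≤ 1 := ht.2.trans hsq1
    have ht0 := ht.1.le
    have htu : t ^ 2 ≤ u := by
      have := pow_le_pow_left₀ ht0 ht.2 2
      rwa [Real.sq_sqrt h0.le] at this
    have hPBt : PB t ≤ t ^ 2 := by
      unfold PB
      have e4 : t ^ 4 ≤ t ^ 2 := pow_le_pow_of_le_one ht0 ht1 (by norm_num)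
      have e6 : t ^ 6 ≤ t ^ 2 := pow_le_pow_of_le_one ht0 ht1 (by norm_num)
      have e8 : t ^ 8 ≤ t ^ 2 := pow_le_pow_of_le_one ht0 ht1 (by norm_num)
      have e10 : t ^ 10 ≤ t ^ 2 := pow_le_pow_of_le_one ht0 ht1 (by norm_num)
      have e12 : t ^ 12 ≤ t ^ 2 := pow_le_pow_of_le_one ht0 ht1 (by norm_num)
      have e0 : (1 - cc) / 2 * t ^ 2 ≤ 1 / 2 * t ^ 2 :=
        mul_le_mul_of_nonneg_right (by linarith) (sq_nonneg t)
      have e1 := sq_nonneg t
      linarith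
    have h3 := hPB t ht0 (by linarith)
    have h4 : Real.exp (-(t ^ 2)) ≤ |phi t| :=
      (Real.exp_le_exp.2 (by linarith)).trans (h3.trans (le_abs_self _))
    calc Real.exp (-1) ≤ Real.exp (-(t ^ 2) * (1 / u)) := by
          apply Real.exp_le_exp.2
          have h5 : t ^ 2 * (1 / u) ≤ 1 := by
            rw [mul_one_div, div_le_one h0]
            exact htu
          linarith
      _ = (Real.exp (-(t ^ 2))) ^ (1 / u) := by rw [← Real.exp_mul]
      _ ≤ |phi t| ^ (1 / u) := Real.rpow_le_rpow (Real.exp_pos _).le h4 (by positivity)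
  have h5 : Real.exp (-1) * √u ≤ Is (1 / u) := by
    calc Real.exp (-1) * √u = ∫ t in Set.Ioc 0 (√u), Real.exp (-1) := by
          rw [setIntegral_const, Real.volume_real_Ioc_of_le (Real.sqrt_nonneg u), smul_eq_mul]
          ring
      _ ≤ ∫ t in Set.Ioc 0 (√u), |phi t| ^ (1 / u) :=
          setIntegral_mono_on continuous_const.integrableOn_Ioc hint'.integrableOn measurableSet_Ioc hpt
      _ ≤ Is (1 / u) :=
          setIntegral_le_integral hint' (Filter.Eventually.of_forall fun t =>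
            Real.rpow_nonneg (abs_nonneg _) _)
  have hup : 0 < u ^ (-(1 / 2) : ℝ) := Real.rpow_pos_of_pos h0 _
  have h6 : Real.exp (-1) ≤ u ^ (-(1 / 2) : ℝ) * Is (1 / u) := by
    have h7 : u ^ (-(1 / 2) : ℝ) * (Real.exp (-1) * √u) = Real.exp (-1) := by
      rw [Real.sqrt_eq_rpow, Real.rpow_neg h0.le]
      have h8 : u ^ (1 / 2 : ℝ) ≠ 0 := (Real.rpow_pos_of_pos h0 _).ne'
      field_simp
    calc Real.exp (-1) = u ^ (-(1 / 2) : ℝ) * (Real.exp (-1) * √u) := h7.symm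
      _ ≤ u ^ (-(1 / 2) : ℝ) * Is (1 / u) := mul_le_mul_of_nonneg_left h5 hup.le
  have h9 : -1 ≤ Real.log (u ^ (-(1 / 2) : ℝ) * Is (1 / u)) := by
    rw [Real.le_log_iff_exp_le (lt_of_lt_of_le (Real.exp_pos _) h6)]
    exact h6
  unfold Hs
  nlinarith

theorem tangent_10808 {S : Set ℝ} {f : ℝ → ℝ} {f' x : ℝ} (hf : ConcaveOn ℝ S f) (hx : x ∈ S)
    (h : HasDerivAt f f' x) {u : ℝ} (hu : u ∈ S) : f u ≤ f x + f' * (u - x) := by
  rcases lt_trichotomy u x with h1 | h1 | h1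
  · have h2 := hf.le_slope_of_hasDerivAt hu hx h1 h
    rw [slope_def_field, le_div_iff₀ (by linarith)] at h2
    linarith
  · subst h1; simp
  · have h2 := hf.slope_le_of_hasDerivAt hx hu h1 h
    rw [slope_def_field, div_le_iff₀ (by linarith)] at h2
    linarith

theorem support_10808 {f : ℝ → ℝ} {p q x : ℝ} (hf : ConcaveOn ℝ (Set.Ioc p q) f) (hp : p < x)
    (hq : x < q) : ∃ a : ℝ, ∀ u ∈ Set.Ioc p q, f u ≤ f x + a * (u - x) := by
  have hAne : ((fun y => (f x - f y) / (x - y)) '' Set.Ioo p x).Nonempty :=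
    (Set.nonempty_Ioo.2 hp).image _
  have hlow : ∀ z ∈ Set.Ioc x q, ∀ a ∈ (fun y => (f x - f y) / (x - y)) '' Set.Ioo p x,
      (f z - f x) / (z - x) ≤ a := by
    rintro z hz _ ⟨y, hy, rfl⟩
    exact hf.slope_anti_adjacent ⟨hy.1, hy.2.le.trans hq.le⟩ ⟨hp.trans hz.1, hz.2⟩ hy.2 hz.1
  have hbdd : BddBelow ((fun y => (f x - f y) / (x - y)) '' Set.Ioo p x) :=
    ⟨_, fun a ha => hlow q ⟨hq, le_rfl⟩ a ha⟩
  refine ⟨sInf ((fun y => (f x - f y) / (x - y)) '' Set.Ioo p x), fun u hu => ?_⟩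
  rcases lt_trichotomy u x with h1 | h1 | h1
  · have h2 := csInf_le hbdd (Set.mem_image_of_mem (fun y => (f x - f y) / (x - y))
      (⟨hu.1, h1⟩ : u ∈ Set.Ioo p x))
    rw [le_div_iff₀ (by linarith)] at h2
    linarith
  · subst h1; simp
  · have h2 := le_csInf hAne (fun a ha => hlow u ⟨h1, hu.2⟩ a ha)
    rw [div_le_iff₀ (by linarith)] at h2
    linarith

theorem zero_10808 (hlow : ∀ u, 0 < u → u < 1 → -u ≤ Hs u) (A a x0 c : ℝ)
    (h : ∀ u, 0 < u → u ≤ 1 / 6 → Hs u ≤ A + a * (u - x0) - c * (u - x0) ^ 2) :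
    Hs 0 ≤ A + a * (0 - x0) - c * (0 - x0) ^ 2 := by
  have hc : Continuous (fun u : ℝ => A + a * (u - x0) - c * (u - x0) ^ 2 + u) := by fun_prop
  have ht := (hc.tendsto 0).mono_left (nhdsWithin_le_nhds (s := Set.Ioi 0))
  have h2 := ge_of_tendsto ht (b := 0) (by
    filter_upwards [Ioc_mem_nhdsGT (by norm_num : (0 : ℝ) < 1 / 6)] with u hu
    have h3 := h u hu.1 hu.2
    have h4 := hlow u hu.1 (by linarith [hu.2])
    linarith)
  have h5 : Hs 0 = 0 := by unfold Hs; simp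
  rw [h5]
  simpa using h2

/-- supporting lines of `Hs` -/
theorem lines (hcont : Continuous phi) (h1 : ∀ t : ℝ, |phi t| ≤ 1)
    (hint : ∀ s : ℝ, 1 < s → Integrable (fun t : ℝ => |phi t| ^ s))
    (hPB : ∀ t : ℝ, 0 ≤ t → t ≤ 13 / 5 → Real.exp (-(PB t)) ≤ phi t)
    (hNP : ∀ s : ℝ, 2 ≤ s → Is s ≤ √(2 * Real.pi / (s * (1 - cc))))
    (hc1 : (0.708874905227206 : ℝ) ≤ cc) (hc2 : cc ≤ (0.708874905227208 : ℝ))
    (hcv1 : ConcaveOn ℝ (Set.Ioc 0 (10 / 49)) Hs)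
    (hcv2 : ConcaveOn ℝ (Set.Ioc 0 (1 / 6)) (fun u => Hs u + 65 / 1000 * u ^ 2))
    (l6 : ℝ) (hd6 : HasDerivAt Hs l6 (1 / 6))
    (h6 : ∀ u : ℝ, 10 / 49 ≤ u → u ≤ 36 / 100 → Hs u ≤ Hs (1 / 6) + l6 * (u - 1 / 6))
    (n : ℕ) (hn : 6 ≤ n) :
    ∃ a : ℝ, ∀ u : ℝ, 0 ≤ u → u ≤ 36 / 100 →
      Hs u ≤ Hs (1 / n) + a * (u - 1 / n) ∧
      (u ≤ 1 / 6 → Hs u ≤ Hs (1 / n) + a * (u - 1 / n) - 65 / 1000 * (u - 1 / n) ^ 2) ∧
      (1 / 6 ≤ u → Hs u ≤ Hs (1 / n) + a * (u - 1 / n) - 65 / 1000 * (1 / 6 - 1 / n) ^ 2) := by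
  have hlow := Hs_lower_10808 hint hPB hc1
  have hm6 : (1 / 6 : ℝ) ∈ Set.Ioc (0 : ℝ) (10 / 49) := by constructor <;> norm_num
  have hm6' : (1 / 6 : ℝ) ∈ Set.Ioc (0 : ℝ) (1 / 6) := by constructor <;> norm_num
  -- tangent line at 1/6
  have hT : ∀ u, 0 < u → u ≤ 10 / 49 → Hs u ≤ Hs (1 / 6) + l6 * (u - 1 / 6) :=
    fun u h0 h1 => tangent_10808 hcv1 hm6 hd6 ⟨h0, h1⟩
  have hT' : ∀ u, 0 < u → u ≤ 36 / 100 → Hs u ≤ Hs (1 / 6) + l6 * (u - 1 / 6) := by
    intro u h0 h1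
    rcases le_total u (10 / 49) with h2 | h2
    · exact hT u h0 h2
    · exact h6 u h2 h1
  -- reduction of the claims
  suffices hmain : ∃ a : ℝ,
      (∀ u, 0 < u → u ≤ 1 / 6 →
        Hs u ≤ Hs (1 / n) + a * (u - 1 / n) - 65 / 1000 * (u - 1 / n) ^ 2) ∧
      (∀ u, 1 / 6 ≤ u → u ≤ 36 / 100 →
        Hs u ≤ Hs (1 / n) + a * (u - 1 / n) - 65 / 1000 * (1 / 6 - 1 / n) ^ 2) by
    obtain ⟨a, ha1, ha2⟩ := hmain
    have ha1' : ∀ u, 0 ≤ u → u ≤ 1 / 6 →
        Hs u ≤ Hs (1 / n) + a * (u - 1 / n) - 65 / 1000 * (u - 1 / n) ^ 2 := by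
      intro u h0 h1
      rcases h0.eq_or_lt with h2 | h2
      · rw [← h2]
        exact zero_10808 hlow _ _ _ _ ha1
      · exact ha1 u h2 h1
    refine ⟨a, fun u h0 h1 => ⟨?_, fun h2 => ha1' u h0 h2, fun h2 => ha2 u h2 h1⟩⟩
    rcases le_total u (1 / 6) with h2 | h2
    · have h3 := ha1' u h0 h2
      have h4 := sq_nonneg (u - 1 / (n : ℝ))
      linarith
    · have h3 := ha2 u h2 h1
      have h4 := sq_nonneg (1 / 6 - 1 / (n : ℝ))
      linarith
  rcases hn.eq_or_lt with h7 | h7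
  · -- n = 6
    have hn6 : (1 / (n : ℝ)) = 1 / 6 := by rw [← h7]; norm_num
    rw [hn6]
    refine ⟨l6, fun u h0 h1 => ?_, fun u h0 h1 => ?_⟩
    · have hdF : HasDerivAt (fun u : ℝ => Hs u + 65 / 1000 * u ^ 2)
          (l6 + 65 / 1000 * (2 * (1 / 6))) (1 / 6) := by
        have h8 : HasDerivAt (fun u : ℝ => 65 / 1000 * u ^ 2) (65 / 1000 * (2 * (1 / 6)))
            (1 / 6 : ℝ) := by
          have h9 := (hasDerivAt_pow 2 (1 / 6 : ℝ)).const_mul (65 / 1000)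
          exact h9.congr_deriv (by norm_num)
        exact hd6.add h8
      have h10 := tangent_10808 hcv2 hm6' hdF (u := u) ⟨h0, h1⟩
      nlinarith
    · have h10 := hT' u (by linarith) h1
      linarith
  · -- n ≥ 7
    have hn7 : (7 : ℝ) ≤ n := by exact_mod_cast h7
    have hx0 : 0 < 1 / (n : ℝ) := by positivity
    have hx1 : 1 / (n : ℝ) < 1 / 6 := by
      apply one_div_lt_one_div_of_lt (by norm_num)
      linarith
    set x := 1 / (n : ℝ) with hx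
    obtain ⟨a', ha'⟩ := support_10808 hcv2 hx0 hx1
    have hii : ∀ u, 0 < u → u ≤ 1 / 6 →
        Hs u ≤ Hs x + (a' - 2 * (65 / 1000) * x) * (u - x) - 65 / 1000 * (u - x) ^ 2 := by
      intro u h0 h1
      have h2 := ha' u ⟨h0, h1⟩
      nlinarith
    set a := a' - 2 * (65 / 1000) * x with ha
    have h16 := hii (1 / 6) (by norm_num) le_rfl
    have hxT := hT x hx0 (by linarith)
    have hal : l6 ≤ a := by
      have h3 : 0 < 1 / 6 - x := by linarith
      have h4 : 0 ≤ (a - l6) * (1 / 6 - x) := by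
        have h5 := sq_nonneg (1 / 6 - x)
        nlinarith
      by_contra hcon
      push Not at hcon
      have h5 : (a - l6) * (1 / 6 - x) < 0 := mul_neg_of_neg_of_pos (by linarith) h3
      linarith
    refine ⟨a, hii, fun u h0 h1 => ?_⟩
    rcases le_total u (10 / 49) with h2 | h2
    · -- concavity between x and u
      have hux : 0 < u - x := by linarith
      have hA0 : 0 ≤ (u - 1 / 6) / (u - x) := div_nonneg (by linarith) hux.le
      have hB0 : 0 ≤ (1 / 6 - x) / (u - x) := div_nonneg (by linarith) hux.le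
      have hAB : (u - 1 / 6) / (u - x) + (1 / 6 - x) / (u - x) = 1 := by
        rw [← add_div, div_eq_one_iff_eq hux.ne']; ring
      have hconc := hcv1.2 (⟨hx0, by linarith⟩ : x ∈ Set.Ioc (0 : ℝ) (10 / 49))
        (⟨by linarith, h2⟩ : u ∈ Set.Ioc (0 : ℝ) (10 / 49)) hA0 hB0 hAB
      simp only [smul_eq_mul] at hconc
      have e1 : (u - 1 / 6) / (u - x) * x + (1 / 6 - x) / (u - x) * u = 1 / 6 := by
        field_simp
        ring
      rw [e1] at hconc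
      have e2 : (u - 1 / 6) * Hs x + (1 / 6 - x) * Hs u ≤ (u - x) * Hs (1 / 6) := by
        have h3 := mul_le_mul_of_nonneg_left hconc hux.le
        have e3 : (u - x) * ((u - 1 / 6) / (u - x) * Hs x + (1 / 6 - x) / (u - x) * Hs u) =
            (u - 1 / 6) * Hs x + (1 / 6 - x) * Hs u := by
          field_simp
        rw [e3] at h3
        exact h3
      have e4 : (u - x) * Hs (1 / 6) ≤ (u - x) * (Hs x + a * (1 / 6 - x) -
          65 / 1000 * (1 / 6 - x) ^ 2) := mul_le_mul_of_nonneg_left h16 hux.le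
      have h3 : 0 < 1 / 6 - x := by linarith
      have e5 : (1 / 6 - x) * Hs u ≤ (1 / 6 - x) * (Hs x + a * (u - x) -
          65 / 1000 * (1 / 6 - x) ^ 2) := by
        have e6 : 0 ≤ (u - 1 / 6) * (65 / 1000 * (1 / 6 - x) ^ 2) :=
          mul_nonneg (by linarith) (by positivity)
        nlinarith
      exact le_of_mul_le_mul_left e5 h3
    · have h3 := h6 u h2 h1
      have h4 : 0 ≤ (a - l6) * (u - 1 / 6) := mul_nonneg (by linarith) (by linarith)
      nlinarith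

end
end CG3
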