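import Pool.Agent.CG3.Base2

open MeasureTheory ProbabilityTheory
open scoped BigOperators

namespace CG3
noncomputable section


theorem term833 {t : ℝ} (ht : 0 < t) (hI : 0 < Is (1 / t ^ 2)) :
    (Is (1 / t ^ 2) / t) ^ (t ^ 2) = Real.exp (Hs (t ^ 2)) := by
  have h1 : (t ^ 2) ^ (-(1 / 2) : ℝ) = t⁻¹ := by
    rw [Real.rpow_neg (by positivity), ← Real.sqrt_eq_rpow, Real.sqrt_sq ht.le]
  have hx : (t ^ 2) ^ (-(1 / 2) : ℝ) * Is (1 / t ^ 2) = Is (1 / t ^ 2) / t := by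
    rw [h1]; field_simp
  unfold Hs
  rw [hx, Real.rpow_def_of_pos (by positivity), mul_comm]

/-- Hoelder bound in exponential form (zero coordinates allowed) -/
theorem holder_exp (hcont : Continuous phi) (h0 : phi 0 = 1) (h1 : ∀ t : ℝ, |phi t| ≤ 1)
    (hint : ∀ s : ℝ, 1 < s → Integrable (fun t : ℝ => |phi t| ^ s))
    (hI : ∀ s : ℝ, 1 < s → 0 < Is s)
    (hH : ∀ (m : ℕ) (θ μ : Fin m → ℝ), (∀ i, 0 < μ i) → ∑ i, μ i = 1 → (∀ i, μ i < 1) →
      (∀ i, 0 < θ i) → Integrable (fun ξ : ℝ => ∏ i, |phi (θ i * ξ)|) ∧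
      ∫ ξ : ℝ, ∏ i, |phi (θ i * ξ)| ≤ ∏ i, ((∫ t : ℝ, |phi t| ^ (1 / μ i)) / θ i) ^ (μ i))
    {n : ℕ} (θ : Fin n → ℝ) (hθ0 : ∀ i, 0 ≤ θ i) (hθ : ∑ i, θ i ^ 2 = 1) (hlt : ∀ i, θ i < 1) :
    Integrable (fun ξ : ℝ => ∏ i, |phi (θ i * ξ)|) ∧
    ∫ ξ : ℝ, ∏ i, |phi (θ i * ξ)| ≤ Real.exp (∑ i, Hs (θ i ^ 2)) := by
  classical
  set S : Finset (Fin n) := Finset.univ.filter (fun i => θ i ≠ 0) with hS
  have hmem : ∀ i, i ∈ S ↔ θ i ≠ 0 := by intro i; simp [hS]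
  obtain ⟨e⟩ : Nonempty (Fin S.card ≃ S) := ⟨S.equivFin.symm⟩
  have hprod : ∀ f : Fin n → ℝ, (∀ i, θ i = 0 → f i = 1) →
      ∏ i, f i = ∏ j : Fin S.card, f (e j) := by
    intro f hf
    have a1 : ∏ i, f i = ∏ i ∈ S, f i := by
      symm
      apply Finset.prod_subset (Finset.subset_univ _)
      intro i _ hi
      apply hf
      by_contra hc
      exact hi ((hmem i).2 hc)
    rw [a1, ← Finset.prod_coe_sort S f]
    exact (Equiv.prod_comp e (fun x : S => f x)).symm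
  have hsum : ∀ f : Fin n → ℝ, (∀ i, θ i = 0 → f i = 0) →
      ∑ i, f i = ∑ j : Fin S.card, f (e j) := by
    intro f hf
    have a1 : ∑ i, f i = ∑ i ∈ S, f i := by
      symm
      apply Finset.sum_subset (Finset.subset_univ _)
      intro i _ hi
      apply hf
      by_contra hc
      exact hi ((hmem i).2 hc)
    rw [a1, ← Finset.sum_coe_sort S f]
    exact (Equiv.sum_comp e (fun x : S => f x)).symm
  have hpos : ∀ j : Fin S.card, 0 < θ (e j) := by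
    intro j
    have := (hmem _).1 (e j).2
    exact lt_of_le_of_ne (hθ0 _) (Ne.symm this)
  have hμ1 : ∑ j : Fin S.card, θ (e j) ^ 2 = 1 := by
    rw [← hsum (fun i => θ i ^ 2) (by intro i hi; simp [hi]), hθ]
  have hμlt : ∀ j : Fin S.card, θ (e j) ^ 2 < 1 := by
    intro j
    have h1 := hpos j
    have h2 := hlt (e j)
    nlinarith
  obtain ⟨hi1, hi2⟩ := hH S.card (fun j => θ (e j)) (fun j => θ (e j) ^ 2)
    (fun j => pow_pos (hpos j) 2) hμ1 hμlt hpos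
  have hfun : (fun ξ : ℝ => ∏ i, |phi (θ i * ξ)|) =
      fun ξ : ℝ => ∏ j : Fin S.card, |phi (θ (e j) * ξ)| := by
    funext ξ
    exact hprod (fun i => |phi (θ i * ξ)|) (by intro i hi; simp [hi, h0])
  have hexp : Real.exp (∑ i, Hs (θ i ^ 2)) =
      ∏ j : Fin S.card, ((∫ t : ℝ, |phi t| ^ (1 / θ (e j) ^ 2)) / θ (e j)) ^ (θ (e j) ^ 2) := by
    rw [hsum (fun i => Hs (θ i ^ 2)) (by intro i hi; simp [hi, Hs]), Real.exp_sum]
    apply Finset.prod_congr rfl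
    intro j _
    have hI' : 0 < Is (1 / θ (e j) ^ 2) := by
      apply hI
      rw [lt_div_iff₀ (pow_pos (hpos j) 2)]
      simpa using hμlt j
    exact (term833 (hpos j) hI').symm
  rw [hfun, hexp]
  exact ⟨hi1, hi2⟩

end
end CG3
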