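import Pool.Agent.CG3.Facts
import Pool.Agent.CG3.J14
import Pool.Agent.CG3.J8b
import Pool.Agent.CG3.J16
import Pool.Agent.CG3.K5
import Pool.Agent.CG3.K6
import Pool.Agent.CG3.K8

open MeasureTheory ProbabilityTheory
open scoped BigOperators

namespace CG3
noncomputable section

theorem Rt_nonneg (T : ℝ) : 0 ≤ Rt T :=
  setIntegral_nonneg measurableSet_Ioi (fun t _ => sq_nonneg _)

theorem fPB : ∀ t : ℝ, 0 ≤ t → t ≤ 13 / 5 → Real.exp (-(PB t)) ≤ phi t :=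
  expPB_le_phi phi_zero phi_deriv phi_le_taylor taylor_le_phi dphi_ge_taylor dphi_le_taylor
    cc_lo cc_hi

theorem Is_pos (s : ℝ) (hs : 1 < s) : 0 < Is s := by
  unfold Is
  rw [integral_pos_iff_support_of_nonneg (fun t => Real.rpow_nonneg (abs_nonneg _) _)
    (phi_rpow_integrable s hs)]
  refine lt_of_lt_of_le ?_ (measure_mono (s := Set.Ioo (0 : ℝ) 1) ?_)
  · simp
  · intro t ht
    have h1 : 0 < phi t := lt_of_lt_of_le (Real.exp_pos _) (fPB t ht.1.le (by linarith [ht.2]))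
    simp only [Function.mem_support]
    have h2 : 0 < |phi t| := abs_pos.mpr h1.ne'
    exact (Real.rpow_pos_of_pos h2 s).ne'

/-- the value for the two-diagonal -/
def F2 : ℝ := √2 * (2 * Real.pi * B1 / m0 ^ 2)

theorem F2_pos : 0 < F2 := by
  have := m0_pos
  have hB : 0 < B1 := lt_of_lt_of_le (by norm_num) B1_lo
  unfold F2; positivity

/-- the two largest coordinates -/
theorem exists_top_two {n : ℕ} (θ : Fin n → ℝ) (hθ0 : ∀ k, 0 ≤ θ k) (hθ : ∑ k, θ k ^ 2 = 1)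
    (hlt : ∀ k, θ k < 1) :
    ∃ i j, i ≠ j ∧ 0 < θ j ∧ θ j ≤ θ i ∧ (∀ k, k ≠ i → θ k ≤ θ j) := by
  classical
  have hne : (Finset.univ : Finset (Fin n)).Nonempty := by
    rcases Finset.eq_empty_or_nonempty (Finset.univ : Finset (Fin n)) with h | h
    · rw [h] at hθ; simp at hθ
    · exact h
  obtain ⟨i, -, hi⟩ := Finset.exists_max_image Finset.univ θ hne
  have hex : ∃ k, k ≠ i ∧ 0 < θ k := by
    by_contra hcon
    push Not at hcon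
    have h0 : ∀ k, k ≠ i → θ k ^ 2 = 0 := by
      intro k hk
      have := le_antisymm (hcon k hk) (hθ0 k)
      rw [this]; ring
    have h1 : ∑ k, θ k ^ 2 = θ i ^ 2 := by
      rw [Finset.sum_eq_single i (fun k _ hk => h0 k hk) (by simp)]
    rw [hθ] at h1
    have h2 := hlt i
    have h3 := hθ0 i
    nlinarith
  obtain ⟨k0, hk0, hk0p⟩ := hex
  obtain ⟨j, hj, hjm⟩ := Finset.exists_max_image (Finset.univ.erase i) θ ⟨k0, by simp [hk0]⟩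
  refine ⟨i, j, (Finset.ne_of_mem_erase hj).symm, ?_, hi j (Finset.mem_univ _), ?_⟩
  · exact lt_of_lt_of_le hk0p (hjm k0 (by simp [hk0]))
  · intro k hk
    exact hjm k (by simp [hk])

theorem sum_split {n : ℕ} (f : Fin n → ℝ) (i j : Fin n) (hij : i ≠ j) :
    ∑ k, f k = f i + f j + ∑ k ∈ (Finset.univ.erase i).erase j, f k := by
  classical
  rw [← Finset.add_sum_erase Finset.univ f (Finset.mem_univ i),
    ← Finset.add_sum_erase (Finset.univ.erase i) f (a := j) (by simp [hij.symm])]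
  ring

/-- integrability of the product -/
theorem prod_int {n : ℕ} (θ : Fin n → ℝ) (i j : Fin n) (hij : i ≠ j) (hi : 0 < θ i)
    (hj : 0 < θ j) : Integrable (fun ξ : ℝ => ∏ i, phi (θ i * ξ)) :=
  prod_integrable θ i j hij hi.ne' hj.ne' phi_cont phi_abs_le_one phi_rpow_integrable

theorem region_M {n : ℕ} (θ : Fin n → ℝ) (hθ : ∑ k, θ k ^ 2 = 1) (i j : Fin n) (hij : i ≠ j)
    (hi : 0 < θ i) (hj : 0 < θ j) (hi1 : θ i < 1) (hx : 21 / 40 ≤ θ i ^ 2) :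
    ∫ ξ : ℝ, ∏ k, phi (θ k * ξ) ≤ F2 := by
  have h1 := F_le_M θ hθ i hi hi1 (prod_int θ i j hij hi hj)
  have h2 := M_region m0_lo m0_hi B1_lo B1_hi cc_lo cc_hi (θ i ^ 2) hx (by nlinarith)
  rw [Real.sqrt_sq hi.le] at h2
  exact h1.trans h2

theorem region_T3 {n : ℕ} (θ : Fin n → ℝ) (hθ : ∑ k, θ k ^ 2 = 1) (i j : Fin n) (hij : i ≠ j)
    (hj : 0 < θ j) (hji : θ j ≤ θ i) (hx1 : 1 / 2 ≤ θ i ^ 2) (hx : θ i ^ 2 ≤ 21 / 40)
    (hv : 1 - θ i ^ 2 - θ j ^ 2 ≤ 9 / 5 * (θ i ^ 2 - 1 / 2)) (hv0 : 0 ≤ 1 - θ i ^ 2 - θ j ^ 2) :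
    ∫ ξ : ℝ, ∏ k, phi (θ k * ξ) ≤ F2 := by
  have hi : 0 < θ i := lt_of_lt_of_le hj hji
  have h1 := F_le_T3 θ i j hij hj hji (prod_int θ i j hij hi hj)
  have h2 := T3_region m0_lo m0_hi B1_lo B1_hi (θ i ^ 2) (θ j ^ 2) (1 - θ i ^ 2 - θ j ^ 2) hx1 hx
    (by ring) hv0 hv
  rw [Real.sqrt_sq hi.le] at h2
  exact h1.trans h2

theorem top_sum_le {n : ℕ} (θ : Fin n → ℝ) (hθ : ∑ k, θ k ^ 2 = 1) (i j : Fin n) (hij : i ≠ j) :
    ∑ k ∈ (Finset.univ.erase i).erase j, θ k ^ 2 = 1 - θ i ^ 2 - θ j ^ 2 := by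
  have h := sum_split (fun k => θ k ^ 2) i j hij
  beta_reduce at h
  linarith

theorem v_nonneg {n : ℕ} (θ : Fin n → ℝ) (hθ : ∑ k, θ k ^ 2 = 1) (i j : Fin n) (hij : i ≠ j) :
    0 ≤ 1 - θ i ^ 2 - θ j ^ 2 := by
  rw [← top_sum_le θ hθ i j hij]
  exact Finset.sum_nonneg (fun k _ => sq_nonneg _)

theorem fG : ∀ τ s : ℝ, 0 < τ → 0 < s → s ^ 2 * (1 + τ ^ 2 / 2) = τ ^ 2 → Gd (τ ^ 2) ≤
      2 * Real.pi * B1 / m0 ^ 2 * (1 / √(1 + τ ^ 2 / 2)) *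
        (1 - 1964 / 10000 * s - 1231 / 10000 * s ^ 2 - 304 / 10000 * s ^ 3 + 12 / 1000 * s ^ 4
          + 345 / 10000 * s ^ 6) :=
  fun τ s h1 h2 h3 => G_bound m0_lo m0_hi B1_lo B1_hi τ s h1 h2 h3

end
end CG3
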