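import Pool.Agent.CG3.Base

open MeasureTheory ProbabilityTheory
open scoped BigOperators

namespace CG3
noncomputable section

theorem int_even_pow (k : ℕ) : (∫ x in (-1 : ℝ)..1, x ^ (2 * k)) = 2 / (2 * k + 1) := by
  rw [integral_pow]
  have h : (-1 : ℝ) ^ (2 * k + 1) = -1 := by rw [pow_succ, pow_mul]; norm_num
  rw [h]
  push_cast
  norm_num

theorem int_exp_bound (c : ℝ) (hc0 : 0 ≤ c) (hc1 : c ≤ 1) (n : ℕ) (hn : 0 < n) :
    |(∫ x in (-1 : ℝ)..1, Real.exp (-(c * x ^ 2))) -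
      ∑ k ∈ Finset.range n, (-c) ^ k / (Nat.factorial k : ℝ) * (2 / (2 * k + 1))| ≤
      c ^ n * ((n.succ : ℝ) * ((Nat.factorial n : ℝ) * n)⁻¹) * (2 / (2 * n + 1)) := by
  have hS : (∫ x in (-1 : ℝ)..1, ∑ k ∈ Finset.range n, (-(c * x ^ 2)) ^ k / (Nat.factorial k : ℝ)) =
      ∑ k ∈ Finset.range n, (-c) ^ k / (Nat.factorial k : ℝ) * (2 / (2 * k + 1)) := by
    rw [intervalIntegral.integral_finset_sum]
    · refine Finset.sum_congr rfl fun k _ => ?_
      rw [← int_even_pow k, ← intervalIntegral.integral_const_mul]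
      refine intervalIntegral.integral_congr fun x _ => ?_
      show (-(c * x ^ 2)) ^ k / (Nat.factorial k : ℝ) = (-c) ^ k / (Nat.factorial k : ℝ) * x ^ (2 * k)
      rw [pow_mul, ← neg_mul, mul_pow]
      ring
    · intro k _
      exact (by fun_prop : Continuous fun x : ℝ =>
        (-(c * x ^ 2)) ^ k / (Nat.factorial k : ℝ)).intervalIntegrable _ _
  rw [← hS, ← intervalIntegral.integral_sub
    ((by fun_prop : Continuous fun x : ℝ => Real.exp (-(c * x ^ 2))).intervalIntegrable _ _)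
    ((by fun_prop : Continuous fun x : ℝ => ∑ k ∈ Finset.range n,
      (-(c * x ^ 2)) ^ k / (Nat.factorial k : ℝ)).intervalIntegrable _ _)]
  have hR : c ^ n * ((n.succ : ℝ) * ((Nat.factorial n : ℝ) * n)⁻¹) * (2 / (2 * n + 1)) =
      ∫ x in (-1 : ℝ)..1, c ^ n * ((n.succ : ℝ) * ((Nat.factorial n : ℝ) * n)⁻¹) * x ^ (2 * n) := by
    rw [intervalIntegral.integral_const_mul, int_even_pow]
  rw [hR, ← Real.norm_eq_abs]
  refine intervalIntegral.norm_integral_le_of_norm_le (by norm_num) ?_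
    ((by fun_prop : Continuous fun x : ℝ =>
      c ^ n * ((n.succ : ℝ) * ((Nat.factorial n : ℝ) * n)⁻¹) * x ^ (2 * n)).intervalIntegrable _ _)
  refine Filter.Eventually.of_forall fun x hx => ?_
  have hx2 : x ^ 2 ≤ 1 := by nlinarith [hx.1, hx.2]
  have hy : |(-(c * x ^ 2))| ≤ 1 := by
    rw [abs_neg, abs_of_nonneg (by positivity)]
    nlinarith [sq_nonneg x]
  have h := Real.exp_bound hy hn
  rw [Real.norm_eq_abs]
  refine h.trans (le_of_eq ?_)
  rw [abs_neg, abs_of_nonneg (by positivity), mul_pow, ← pow_mul]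
  ring

theorem exp_half_bound : |Real.exp (-(1 / 2)) - ∑ m ∈ Finset.range 16,
    (-(1 / 2) : ℝ) ^ m / (Nat.factorial m : ℝ)| ≤
      (1 / 2 : ℝ) ^ 16 * ((Nat.succ 16 : ℝ) * ((Nat.factorial 16 : ℝ) * (16 : ℕ))⁻¹) := by
  have h := Real.exp_bound (x := -(1 / 2)) (by rw [abs_neg, abs_of_nonneg] <;> norm_num)
    (n := 16) (by norm_num)
  rw [abs_neg, abs_of_nonneg (by norm_num : (0 : ℝ) ≤ 1 / 2)] at h
  exact h

theorem m0_eq : m0 = ∫ x in (-1 : ℝ)..1, Real.exp (-(1 / 2 * x ^ 2)) := by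
  unfold m0 w
  refine intervalIntegral.integral_congr fun x _ => ?_
  show Real.exp (-(x ^ 2) / 2) = Real.exp (-(1 / 2 * x ^ 2))
  congr 1; ring

theorem B1_eq : B1 = ∫ x in (-1 : ℝ)..1, Real.exp (-(1 * x ^ 2)) := by
  unfold B1
  refine intervalIntegral.integral_congr fun x _ => ?_
  show Real.exp (-(x ^ 2)) = Real.exp (-(1 * x ^ 2))
  congr 1; ring

theorem m0_bounds : (1.7112487837842976 : ℝ) ≤ m0 ∧ m0 ≤ (1.7112487837842977 : ℝ) := by
  have h := int_exp_bound (1 / 2) (by norm_num) (by norm_num) 17 (by norm_num)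
  rw [← m0_eq, abs_le] at h
  obtain ⟨h1, h2⟩ := h
  simp only [Finset.sum_range_succ, Finset.sum_range_zero, Nat.factorial] at h1 h2
  norm_num at h1 h2
  constructor <;> norm_num <;> linarith

theorem B1_bounds : (1.49364826562485405 : ℝ) ≤ B1 ∧ B1 ≤ (1.49364826562485406 : ℝ) := by
  have h := int_exp_bound 1 (by norm_num) (by norm_num) 21 (by norm_num)
  rw [← B1_eq, abs_le] at h
  obtain ⟨h1, h2⟩ := h
  simp only [Finset.sum_range_succ, Finset.sum_range_zero, Nat.factorial] at h1 h2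
  norm_num at h1 h2
  constructor <;> norm_num <;> linarith

theorem exp_half_bounds : (0.60653065971263342 : ℝ) ≤ Real.exp (-(1 / 2)) ∧
    Real.exp (-(1 / 2)) ≤ (0.60653065971263343 : ℝ) := by
  have h := exp_half_bound
  rw [abs_le] at h
  obtain ⟨h1, h2⟩ := h
  simp only [Finset.sum_range_succ, Finset.sum_range_zero, Nat.factorial] at h1 h2
  norm_num at h1 h2
  constructor <;> norm_num <;> linarith

theorem m0_lo : (1.7112487837842976 : ℝ) ≤ m0 := m0_bounds.1
theorem m0_hi : m0 ≤ (1.7112487837842977 : ℝ) := m0_bounds.2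
theorem B1_lo : (1.49364826562485405 : ℝ) ≤ B1 := B1_bounds.1
theorem B1_hi : B1 ≤ (1.49364826562485406 : ℝ) := B1_bounds.2
theorem cc_lo : (0.708874905227206 : ℝ) ≤ cc := by
  have h0 : (0 : ℝ) < m0 := lt_of_lt_of_le (by norm_num) m0_lo
  unfold cc
  rw [le_div_iff₀ h0]
  have h1 := m0_hi
  have h2 := exp_half_bounds.1
  norm_num at h1 h2 ⊢
  linarith
theorem cc_hi : cc ≤ (0.708874905227208 : ℝ) := by
  have h0 : (0 : ℝ) < m0 := lt_of_lt_of_le (by norm_num) m0_lo
  unfold cc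
  rw [div_le_iff₀ h0]
  have h1 := m0_lo
  have h2 := exp_half_bounds.2
  norm_num at h1 h2 ⊢
  linarith

end
end CG3
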