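import Pool.Agent.CG3.Base2

open MeasureTheory ProbabilityTheory

namespace CG3
noncomputable section

theorem gauss_Icc (r : ℝ) (hr : 0 ≤ r) : (gaussianReal 0 1).real (Set.Icc (-r) r) =
    1 / √(2 * Real.pi) * ∫ x in (-r)..r, Real.exp (-(x ^ 2) / 2) := by
  have h0 : 0 ≤ ∫ x in Set.Icc (-r) r, gaussianPDFReal 0 1 x :=
    setIntegral_nonneg measurableSet_Icc (fun x _ => gaussianPDFReal_nonneg 0 1 x)
  rw [measureReal_def, gaussianReal_apply_eq_integral 0 one_ne_zero, ENNReal.toReal_ofReal h0,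
    integral_Icc_eq_integral_Ioc, ← intervalIntegral.integral_of_le (by linarith),
    ← intervalIntegral.integral_const_mul]
  refine intervalIntegral.integral_congr (fun x _ => ?_)
  simp only [gaussianPDFReal]
  norm_num

theorem gauss_one : (gaussianReal 0 1).real (Set.Icc (-1) 1) = m0 / √(2 * Real.pi) := by
  rw [gauss_Icc 1 (by norm_num)]
  unfold m0 w
  rw [one_div_mul_eq_div]

theorem gauss_sqrt_two : (gaussianReal 0 1).real (Set.Icc (-√2) √2) = B1 / √Real.pi := by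
  rw [gauss_Icc (√2) (by positivity)]
  have hs2 : 0 < √(2 : ℝ) := by positivity
  have h : ∫ x in (-√2)..√2, Real.exp (-(x ^ 2) / 2) = √2 * B1 := by
    unfold B1
    have h1 := intervalIntegral.integral_comp_mul_left (a := -1) (b := 1)
      (fun x => Real.exp (-(x ^ 2) / 2)) hs2.ne'
    rw [smul_eq_mul, mul_neg, mul_one] at h1
    have h2 : ∫ x in (-1 : ℝ)..1, Real.exp (-((√2 * x) ^ 2) / 2) =
        ∫ x in (-1 : ℝ)..1, Real.exp (-(x ^ 2)) := by
      refine intervalIntegral.integral_congr (fun x _ => ?_)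
      rw [mul_pow, Real.sq_sqrt (by norm_num)]
      congr 1
      ring
    rw [h2] at h1
    rw [h1]
    field_simp
  rw [h, Real.sqrt_mul (by norm_num)]
  have hsp : 0 < √Real.pi := Real.sqrt_pos.mpr Real.pi_pos
  field_simp

/-- extra mass outside `[-1,1]` -/
theorem extra_mass (r : ℝ) (hr1 : 1 ≤ r) (hr : r ^ 2 ≤ 3 / 2) :
    (gaussianReal 0 1).real (Set.Icc (-1) 1) * (1 + 39 / 100 * cc * (r ^ 2 - 1)) ≤
      (gaussianReal 0 1).real (Set.Icc (-r) r) := by
  have hm := intervalIntegral.intervalIntegral_pos_of_pos_on (a := (-1 : ℝ)) (b := 1)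
    (f := fun x => Real.exp (-(x ^ 2) / 2)) (Continuous.intervalIntegrable (by fun_prop) _ _)
    (fun x _ => Real.exp_pos _) (by norm_num)
  have hm0 : 0 < m0 := hm
  rw [gauss_one, gauss_Icc r (by linarith)]
  have hr2 : r ≤ 1225 / 1000 := by nlinarith
  have hpi : 0 < √(2 * Real.pi) := Real.sqrt_pos.mpr (by positivity)
  set f : ℝ → ℝ := fun x => Real.exp (-(x ^ 2) / 2) with hf
  have hfi : ∀ a b : ℝ, IntervalIntegrable f volume a b := fun a b =>
    Continuous.intervalIntegrable (by fun_prop) _ _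
  have e1 : ∫ x in (-r)..r, f x = (∫ x in (-r)..(-1), f x) + m0 + ∫ x in (1 : ℝ)..r, f x := by
    have h1 := intervalIntegral.integral_add_adjacent_intervals (hfi (-r) (-1)) (hfi (-1) 1)
    have h2 := intervalIntegral.integral_add_adjacent_intervals (hfi (-r) 1) (hfi 1 r)
    have h3 : ∫ x in (-1 : ℝ)..1, f x = m0 := rfl
    linarith
  have e2 : ∫ x in (-r)..(-1), f x = ∫ x in (1 : ℝ)..r, f x := by
    have h1 := intervalIntegral.integral_comp_neg (a := 1) (b := r) f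
    have h2 : ∀ x, f (-x) = f x := by intro x; simp [hf]
    simp only [h2] at h1
    exact h1.symm
  have e3 : Real.exp (-(1 / 2)) * ((r - 1) - (r - 1) ^ 2 / 2 - (r - 1) ^ 3 / 6) ≤
      ∫ x in (1 : ℝ)..r, f x := by
    have h1 : ∫ x in (1 : ℝ)..r, Real.exp (-(1 / 2)) * ((3 - x ^ 2) / 2) =
        Real.exp (-(1 / 2)) * ((r - 1) - (r - 1) ^ 2 / 2 - (r - 1) ^ 3 / 6) := by
      rw [intervalIntegral.integral_const_mul]
      congr 1
      have h2 : ∫ x in (1 : ℝ)..r, (3 - x ^ 2) / 2 = ∫ x in (1 : ℝ)..r, (3 / 2 - 1 / 2 * x ^ 2) := by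
        congr 1; ext x; ring
      rw [h2, intervalIntegral.integral_sub (by simp)
        (Continuous.intervalIntegrable (by fun_prop) _ _), intervalIntegral.integral_const_mul,
        integral_pow, intervalIntegral.integral_const]
      simp only [smul_eq_mul]
      norm_num
      ring
    rw [← h1]
    refine intervalIntegral.integral_mono_on hr1 (Continuous.intervalIntegrable (by fun_prop) _ _)
      (hfi 1 r) (fun x _ => ?_)
    have h3 : f x = Real.exp (-(1 / 2)) * Real.exp (-((x ^ 2 - 1) / 2)) := by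
      rw [← Real.exp_add, hf]
      ring_nf
    rw [h3]
    refine mul_le_mul_of_nonneg_left ?_ (Real.exp_pos _).le
    have := Real.one_sub_le_exp_neg ((x ^ 2 - 1) / 2)
    linarith
  have e4 : 39 / 100 * cc * (r ^ 2 - 1) * m0 ≤ 2 * ∫ x in (1 : ℝ)..r, f x := by
    have h1 : cc * m0 = 2 * Real.exp (-(1 / 2)) := by unfold cc; field_simp
    have h2 : 39 / 100 * cc * (r ^ 2 - 1) * m0 = Real.exp (-(1 / 2)) * (78 / 100 * (r ^ 2 - 1)) := by
      linear_combination (39 / 100 * (r ^ 2 - 1)) * h1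
    rw [h2]
    have h3 : 78 / 100 * (r ^ 2 - 1) ≤ 2 * ((r - 1) - (r - 1) ^ 2 / 2 - (r - 1) ^ 3 / 6) := by
      have hp : 0 ≤ r - 1 := by linarith
      have hq : 0 ≤ 44 / 100 - 178 / 100 * (r - 1) - (r - 1) ^ 2 / 3 := by nlinarith
      have := mul_nonneg hp hq
      nlinarith
    have h4 := mul_le_mul_of_nonneg_left h3 (Real.exp_pos (-(1 / 2))).le
    nlinarith
  rw [div_mul_eq_mul_div, one_div_mul_eq_div]
  refine div_le_div_of_nonneg_right ?_ hpi.le
  rw [e1, e2]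
  nlinarith

theorem below_known
    (hm1 : (1.7112487837842976 : ℝ) ≤ m0) (hm2 : m0 ≤ (1.7112487837842977 : ℝ))
    (hc1 : (0.708874905227206 : ℝ) ≤ cc) (hc2 : cc ≤ (0.708874905227208 : ℝ))
    (n : ℕ) (hn : 3 ≤ n) :
    (m0 / √(2 * Real.pi)) ^ n / √(1 - cc) <
      (gaussianReal 0 1).real (Set.Icc (-√((n : ℝ) / (n - 1))) √((n : ℝ) / (n - 1))) ^ (n - 1) := by
  obtain ⟨m, rfl⟩ : ∃ m, n = m + 3 := ⟨n - 3, by omega⟩
  have hm0 : 0 < m0 := lt_of_lt_of_le (by norm_num) hm1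
  have hpi : 0 < √(2 * Real.pi) := Real.sqrt_pos.mpr (by positivity)
  have hcc : 0 < 1 - cc := by linarith
  have hmR : (0 : ℝ) ≤ m := Nat.cast_nonneg m
  have hx : ((m + 3 : ℕ) : ℝ) / ((m + 3 : ℕ) - 1) = 1 + 1 / (m + 2) := by
    push_cast
    have : (m : ℝ) + 3 - 1 = m + 2 := by ring
    rw [this]
    field_simp
    ring
  rw [hx]
  have hx0 : (0 : ℝ) ≤ 1 + 1 / (m + 2) := by positivity
  have hr2 : √(1 + 1 / ((m : ℝ) + 2)) ^ 2 = 1 + 1 / (m + 2) := Real.sq_sqrt hx0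
  have hr1 : 1 ≤ √(1 + 1 / ((m : ℝ) + 2)) := by
    rw [Real.one_le_sqrt]
    have : (0 : ℝ) ≤ 1 / (m + 2) := by positivity
    linarith
  have hr3 : √(1 + 1 / ((m : ℝ) + 2)) ^ 2 ≤ 3 / 2 := by
    rw [hr2]
    have : 1 / ((m : ℝ) + 2) ≤ 1 / 2 := by
      apply one_div_le_one_div_of_le (by norm_num); linarith
    linarith
  have h := extra_mass _ hr1 hr3
  rw [hr2, gauss_one] at h
  set p := m0 / √(2 * Real.pi) with hp
  set q := (gaussianReal 0 1).real (Set.Icc (-√(1 + 1 / ((m : ℝ) + 2))) √(1 + 1 / ((m : ℝ) + 2)))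
  have hp0 : 0 < p := by positivity
  have e : m + 3 - 1 = m + 2 := by omega
  rw [e]
  have h1 : p ^ (m + 2) * (1 + 39 / 100 * cc) ≤ q ^ (m + 2) := by
    have hb := one_add_mul_le_pow (a := 39 / 100 * cc * (1 + 1 / ((m : ℝ) + 2) - 1)) (by
      have : 0 ≤ 39 / 100 * cc * (1 + 1 / ((m : ℝ) + 2) - 1) := by
        have h2 : (0 : ℝ) ≤ 1 + 1 / ((m : ℝ) + 2) - 1 := by
          have : (0 : ℝ) ≤ 1 / (m + 2) := by positivity
          linarith
        have h3 : 0 ≤ cc := by linarith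
        positivity
      linarith) (m + 2)
    have e2 : 1 + ((m + 2 : ℕ) : ℝ) * (39 / 100 * cc * (1 + 1 / ((m : ℝ) + 2) - 1)) =
        1 + 39 / 100 * cc := by
      push_cast
      field_simp
      ring
    rw [e2] at hb
    calc p ^ (m + 2) * (1 + 39 / 100 * cc)
        ≤ p ^ (m + 2) * (1 + 39 / 100 * cc * (1 + 1 / ((m : ℝ) + 2) - 1)) ^ (m + 2) :=
          mul_le_mul_of_nonneg_left hb (by positivity)
      _ = (p * (1 + 39 / 100 * cc * (1 + 1 / ((m : ℝ) + 2) - 1))) ^ (m + 2) := (mul_pow _ _ _).symm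
      _ ≤ q ^ (m + 2) := by
          apply pow_le_pow_left₀ _ h
          have h2 : (0 : ℝ) ≤ 1 + 1 / ((m : ℝ) + 2) - 1 := by
            have : (0 : ℝ) ≤ 1 / (m + 2) := by positivity
            linarith
          have h3 : 0 ≤ cc := by linarith
          positivity
  refine lt_of_lt_of_le ?_ h1
  rw [pow_succ, mul_div_assoc]
  refine mul_lt_mul_of_pos_left ?_ (by positivity)
  have hs : 0 < √(1 - cc) := Real.sqrt_pos.mpr hcc
  rw [div_lt_iff₀ hs, hp, div_lt_iff₀ hpi, mul_assoc, ← Real.sqrt_mul hcc.le]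
  have hk : (0 : ℝ) < 1 + 39 / 100 * cc := by linarith
  have h5 : m0 / (1 + 39 / 100 * cc) < √((1 - cc) * (2 * Real.pi)) := by
    rw [Real.lt_sqrt (by positivity), div_pow, div_lt_iff₀ (by positivity)]
    have h6 := Real.pi_gt_d6
    have h7 : (2.97 : ℝ) ≤ (1 - cc) * (2 * Real.pi) * (1 + 39 / 100 * cc) ^ 2 := by
      have a1 : (1.62 : ℝ) ≤ (1 + 39 / 100 * cc) ^ 2 := by nlinarith
      have a2 : (1.829 : ℝ) ≤ (1 - cc) * (2 * Real.pi) := by nlinarith
      have a3 : (1.6293 : ℝ) ≤ (1 + 39 / 100 * cc) ^ 2 := by nlinarith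
      calc (2.97 : ℝ) ≤ 1.829 * 1.6293 := by norm_num
        _ ≤ (1 - cc) * (2 * Real.pi) * (1 + 39 / 100 * cc) ^ 2 :=
          mul_le_mul a2 a3 (by norm_num) (by positivity)
    have h8 : m0 ^ 2 < 2.93 := by nlinarith
    linarith
  rw [div_lt_iff₀ hk] at h5
  linarith

end
end CG3
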