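import Pool.Agent.CG3.Base

open MeasureTheory ProbabilityTheory
open scoped BigOperators

namespace CG3
noncomputable section

/-- generalised Hoelder with a weight -/
theorem holder_weighted {ι : Type*} [Fintype ι] (G : ℝ → ℝ) (hG : Measurable G)
    (hG0 : ∀ x, 0 ≤ G x) (f : ι → ℝ → ℝ) (hf : ∀ i, Measurable (f i)) (hf0 : ∀ i x, 0 ≤ f i x)
    (μ : ι → ℝ) (hμ : ∀ i, 0 < μ i) (hμ1 : ∑ i, μ i = 1)
    (hint : ∀ i, Integrable (fun x => G x * f i x ^ (1 / μ i))) :
    Integrable (fun x => G x * ∏ i, f i x) ∧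
    ∫ x, G x * ∏ i, f i x ≤ ∏ i, (∫ x, G x * f i x ^ (1 / μ i)) ^ (μ i) := by
  classical
  have hprod : ∀ x, ∏ i, (ENNReal.ofReal (G x * f i x ^ (1 / μ i))) ^ μ i =
      ENNReal.ofReal (G x * ∏ i, f i x) := by
    intro x
    have h1 : ∀ i, (ENNReal.ofReal (G x * f i x ^ (1 / μ i))) ^ μ i =
        ENNReal.ofReal (G x ^ μ i * f i x) := by
      intro i
      have h0 : 0 ≤ f i x ^ (1 / μ i) := Real.rpow_nonneg (hf0 i x) _
      rw [ENNReal.ofReal_rpow_of_nonneg (mul_nonneg (hG0 x) h0) (hμ i).le,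
        Real.mul_rpow (hG0 x) h0, ← Real.rpow_mul (hf0 i x), one_div, inv_mul_cancel₀ (hμ i).ne',
        Real.rpow_one]
    simp_rw [h1]
    rw [← ENNReal.ofReal_prod_of_nonneg
      (fun i _ => mul_nonneg (Real.rpow_nonneg (hG0 x) _) (hf0 i x)), Finset.prod_mul_distrib,
      ← Real.rpow_sum_of_nonneg (hG0 x) (fun i _ => (hμ i).le), hμ1, Real.rpow_one]
  have hnn : ∀ i x, 0 ≤ G x * f i x ^ (1 / μ i) := fun i x =>
    mul_nonneg (hG0 x) (Real.rpow_nonneg (hf0 i x) _)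
  have hle : ∫⁻ x, ENNReal.ofReal (G x * ∏ i, f i x) ≤
      ENNReal.ofReal (∏ i, (∫ x, G x * f i x ^ (1 / μ i)) ^ (μ i)) := by
    have h := ENNReal.lintegral_prod_norm_pow_le (μ := (volume : Measure ℝ)) Finset.univ
      (f := fun i x => ENNReal.ofReal (G x * f i x ^ (1 / μ i)))
      (fun i _ => by
        have := (hint i).aestronglyMeasurable.aemeasurable
        exact this.ennreal_ofReal) hμ1 (fun i _ => (hμ i).le)
    simp_rw [hprod] at h
    refine h.trans (le_of_eq ?_)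
    rw [ENNReal.ofReal_prod_of_nonneg
      (fun i _ => Real.rpow_nonneg (integral_nonneg (hnn i)) _)]
    refine Finset.prod_congr rfl fun i _ => ?_
    rw [← ofReal_integral_eq_lintegral_ofReal (hint i) (Filter.Eventually.of_forall (hnn i)),
      ENNReal.ofReal_rpow_of_nonneg (integral_nonneg (hnn i)) (hμ i).le]
  have hmeas : Measurable (fun x => G x * ∏ i, f i x) :=
    hG.mul (Finset.measurable_prod _ fun i _ => hf i)
  have hnn' : ∀ x, 0 ≤ G x * ∏ i, f i x := fun x =>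
    mul_nonneg (hG0 x) (Finset.prod_nonneg fun i _ => hf0 i x)
  refine ⟨⟨hmeas.aestronglyMeasurable, ?_⟩, ?_⟩
  · rw [hasFiniteIntegral_iff_ofReal (Filter.Eventually.of_forall hnn')]
    exact hle.trans_lt ENNReal.ofReal_lt_top
  · rw [integral_eq_lintegral_of_nonneg_ae (Filter.Eventually.of_forall hnn')
      hmeas.aestronglyMeasurable]
    exact ENNReal.toReal_le_of_le_ofReal
      (Finset.prod_nonneg fun i _ => Real.rpow_nonneg (integral_nonneg (hnn i)) _) hle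

/-- generalised Hoelder for the product of characteristic functions -/
theorem holder_phi {ι : Type*} [Fintype ι] (θ μ : ι → ℝ) (hμ : ∀ i, 0 < μ i)
    (hμ1 : ∑ i, μ i = 1) (hlt : ∀ i, μ i < 1) (hθ : ∀ i, 0 < θ i)
    (hint : ∀ s : ℝ, 1 < s → Integrable (fun t : ℝ => |phi t| ^ s)) (hmeas : Measurable phi) :
    Integrable (fun ξ : ℝ => ∏ i, |phi (θ i * ξ)|) ∧
    ∫ ξ : ℝ, ∏ i, |phi (θ i * ξ)| ≤ ∏ i, ((∫ t : ℝ, |phi t| ^ (1 / μ i)) / θ i) ^ (μ i) := by
  have hs : ∀ i, 1 < 1 / μ i := fun i => by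
    rw [lt_div_iff₀ (hμ i)]; simpa using hlt i
  have hI : ∀ i, Integrable (fun ξ : ℝ => |phi (θ i * ξ)| ^ (1 / μ i)) := fun i =>
    (hint (1 / μ i) (hs i)).comp_mul_left' (hθ i).ne'
  have h := holder_weighted (fun _ => 1) measurable_const (fun _ => zero_le_one)
    (fun i ξ => |phi (θ i * ξ)|)
    (fun i => by
      have : Measurable (fun ξ : ℝ => phi (θ i * ξ)) := hmeas.comp (measurable_const_mul (θ i))
      exact this.abs)
    (fun i x => abs_nonneg _) μ hμ hμ1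
    (fun i => by simpa using hI i)
  simp only [one_mul] at h
  refine ⟨h.1, h.2.trans (le_of_eq ?_)⟩
  refine Finset.prod_congr rfl fun i _ => ?_
  congr 1
  have := Measure.integral_comp_mul_left (fun t : ℝ => |phi t| ^ (1 / μ i)) (θ i)
  rw [this, abs_of_pos (inv_pos.2 (hθ i)), smul_eq_mul]
  exact (div_eq_inv_mul _ _).symm

theorem prod_integrable {n : ℕ} (θ : Fin n → ℝ) (i j : Fin n) (hij : i ≠ j)
    (hi : θ i ≠ 0) (hj : θ j ≠ 0) (hc : Continuous phi) (h1 : ∀ t, |phi t| ≤ 1)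
    (hint : ∀ s : ℝ, 1 < s → Integrable (fun t : ℝ => |phi t| ^ s)) :
    Integrable (fun ξ : ℝ => ∏ i, phi (θ i * ξ)) := by
  classical
  have h2 : ∀ t : ℝ, |phi t| ^ (2 : ℝ) = phi t ^ 2 := by
    intro t
    rw [show (2 : ℝ) = ((2 : ℕ) : ℝ) by norm_num, Real.rpow_natCast, sq_abs]
  have hsq : Integrable (fun t : ℝ => phi t ^ 2) := by
    have := hint 2 (by norm_num)
    simp_rw [h2] at this
    exact this
  have hI : Integrable (fun ξ : ℝ => phi (θ i * ξ) ^ 2 + phi (θ j * ξ) ^ 2) :=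
    (hsq.comp_mul_left' hi).add (hsq.comp_mul_left' hj)
  refine hI.mono' (Continuous.aestronglyMeasurable (by fun_prop)) (Filter.Eventually.of_forall ?_)
  intro ξ
  rw [Real.norm_eq_abs, Finset.abs_prod]
  have hle : ∏ k, |phi (θ k * ξ)| ≤ |phi (θ i * ξ)| * |phi (θ j * ξ)| := by
    have : ∏ k ∈ ({i, j} : Finset (Fin n)), |phi (θ k * ξ)| = |phi (θ i * ξ)| * |phi (θ j * ξ)| := by
      rw [Finset.prod_pair hij]
    rw [← this, ← Finset.prod_sdiff (Finset.subset_univ ({i, j} : Finset (Fin n)))]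
    refine mul_le_of_le_one_left (Finset.prod_nonneg fun k _ => abs_nonneg _) ?_
    exact Finset.prod_le_one (fun k _ => abs_nonneg _) (fun k _ => h1 _)
  refine hle.trans ?_
  have ha := abs_nonneg (phi (θ i * ξ))
  have hb := abs_nonneg (phi (θ j * ξ))
  nlinarith [sq_abs (phi (θ i * ξ)), sq_abs (phi (θ j * ξ)),
    sq_nonneg (|phi (θ i * ξ)| - |phi (θ j * ξ)|), sq_nonneg (|phi (θ i * ξ)|),
    sq_nonneg (|phi (θ j * ξ)|)]

end
end CG3
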