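import Pool.Agent.CG3.Base2

open MeasureTheory ProbabilityTheory
open scoped BigOperators

namespace CG3
noncomputable section

theorem npow_aux {f g y s : ℝ} (hf : 0 ≤ f) (hfg : f ≤ g) (hy : 0 < y) (hyg : y ≤ g)
    (hs : 2 ≤ s) : y ^ (s - 2) * (g ^ 2 - f ^ 2) ≤ g ^ s - f ^ s := by
  have hx : ∀ x : ℝ, 0 ≤ x → x ^ s = x ^ 2 * x ^ (s - 2) := by
    intro x hx
    rcases hx.eq_or_lt with h | h
    · rw [← h, Real.zero_rpow (by linarith)]
      simp
    · rw [← Real.rpow_natCast x 2, ← Real.rpow_add h]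
      congr 1
      push_cast
      ring
  rw [hx g (hf.trans hfg), hx f hf]
  have hg2 : y ^ (s - 2) ≤ g ^ (s - 2) := Real.rpow_le_rpow hy.le hyg (by linarith)
  have hfg2 : f ^ (s - 2) ≤ g ^ (s - 2) := Real.rpow_le_rpow hf hfg (by linarith)
  have hfs : f ^ 2 ≤ g ^ 2 := pow_le_pow_left₀ hf hfg 2
  rcases le_total f y with h | h
  · have hf2 : f ^ (s - 2) ≤ y ^ (s - 2) := Real.rpow_le_rpow hf h (by linarith)
    nlinarith [mul_nonneg (sq_nonneg g) (sub_nonneg.2 hg2), mul_nonneg (sq_nonneg f)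
      (sub_nonneg.2 hf2)]
  · nlinarith [mul_nonneg (sq_nonneg f) (sub_nonneg.2 hfg2), mul_nonneg (sub_nonneg.2 hfs)
      (sub_nonneg.2 hg2)]

theorem npow_tail {f y s : ℝ} (hf : 0 ≤ f) (hfy : f ≤ y) (hs : 2 ≤ s) :
    f ^ s ≤ y ^ (s - 2) * f ^ 2 := by
  rcases hf.eq_or_lt with h | h
  · rw [← h, Real.zero_rpow (by linarith)]
    simp
  · have : f ^ s = f ^ 2 * f ^ (s - 2) := by
      rw [← Real.rpow_natCast f 2, ← Real.rpow_add h]
      congr 1
      push_cast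
      ring
    rw [this, mul_comm]
    exact mul_le_mul_of_nonneg_right (Real.rpow_le_rpow hf hfy (by linarith)) (sq_nonneg f)

/-- the tail function -/
def Tl (a x : ℝ) : ℝ := Set.indicator (Set.Ioi (18 / 5)) (fun x => Real.exp (-a * x)) x

theorem Tl_int {a : ℝ} (ha : 0 < a) :
    Integrable (fun t : ℝ => Tl a |t|) ∧ ∫ t : ℝ, Tl a |t| = 2 * (Real.exp (-a * (18 / 5)) / a) := by
  have h1 : ∫ t : ℝ, Tl a |t| = 2 * (Real.exp (-a * (18 / 5)) / a) := by
    rw [integral_comp_abs (f := Tl a)]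
    congr 1
    have : (fun x => Tl a x) = Set.indicator (Set.Ioi (18 / 5)) (fun x => Real.exp (-a * x)) := rfl
    show ∫ x in Set.Ioi (0 : ℝ), Set.indicator (Set.Ioi (18 / 5)) (fun x => Real.exp (-a * x)) x = _
    rw [setIntegral_indicator measurableSet_Ioi, Set.Ioi_inter_Ioi,
      show max (0 : ℝ) (18 / 5) = 18 / 5 by norm_num, integral_exp_mul_Ioi (by linarith)]
    field_simp
  refine ⟨?_, h1⟩
  by_contra h
  rw [integral_undef h] at h1
  have : 0 < 2 * (Real.exp (-a * (18 / 5)) / a) := by positivity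
  linarith


/-- Nazarov-Podkorytov type comparison with the Gaussian -/
theorem NP_bound (hm : Measurable phi)
    (hneg : ∀ t : ℝ, phi (-t) = phi t)
    (h3 : ∀ t : ℝ, 3 ≤ t → |phi t| ≤ 3 / 20)
    (hg : ∀ t : ℝ, |t| ≤ 181 / 50 → |phi t| ≤ Real.exp (-((1 - cc) * t ^ 2 / 2)))
    (hint : ∀ s : ℝ, 1 < s → Integrable (fun t : ℝ => |phi t| ^ s))
    (hpl : ∫ t : ℝ, phi t ^ 2 = 2 * Real.pi * B1 / m0 ^ 2)
    (hm1 : (1.7112487837842976 : ℝ) ≤ m0) (hm2 : m0 ≤ (1.7112487837842977 : ℝ))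
    (hB1 : (1.49364826562485405 : ℝ) ≤ B1) (hB2 : B1 ≤ (1.49364826562485406 : ℝ))
    (hc1 : (0.708874905227206 : ℝ) ≤ cc) (hc2 : cc ≤ (0.708874905227208 : ℝ)) :
    ∀ s : ℝ, 2 ≤ s → ∫ t : ℝ, |phi t| ^ s ≤ √(2 * Real.pi / (s * (1 - cc))) := by
  intro s hs
  set σ : ℝ := 1 - cc with hσ
  have hσ1 : 0.291125 ≤ σ := by rw [hσ]; linarith
  have hσ2 : σ ≤ 0.2911251 := by rw [hσ]; linarith
  have hσ0 : 0 < σ := by linarith
  have hs0 : 0 < s := by linarith
  -- evenness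
  have habs : ∀ t : ℝ, |phi t| = |phi (|t|)| := by
    intro t
    rcases abs_choice t with h | h
    · rw [h]
    · rw [h, hneg]
  have hfy : ∀ t : ℝ, 18 / 5 < |t| → |phi t| ≤ 3 / 20 := by
    intro t ht
    rw [habs]
    exact h3 _ (by linarith)
  -- lower bound for g
  have hgy : ∀ t : ℝ, |t| ≤ 18 / 5 → 3 / 20 ≤ Real.exp (-(σ * t ^ 2 / 2)) := by
    intro t ht
    have h1 : t ^ 2 ≤ (18 / 5) ^ 2 := by
      rw [← sq_abs]
      exact pow_le_pow_left₀ (abs_nonneg _) ht 2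
    have h2 : -(1.8865 : ℝ) ≤ -(σ * t ^ 2 / 2) := by
      have : σ * t ^ 2 ≤ 0.2911251 * (18 / 5) ^ 2 := by
        apply mul_le_mul hσ2 h1 (sq_nonneg _) (by norm_num)
      norm_num at this ⊢
      linarith
    refine le_trans ?_ (Real.exp_le_exp.2 h2)
    have h3 : Real.exp (-(1.8865 : ℝ)) = Real.exp 0.1135 / (Real.exp 1 * Real.exp 1) := by
      rw [← Real.exp_add, ← Real.exp_sub]
      norm_num
    have h4 := Real.quadratic_le_exp_of_nonneg (x := 0.1135) (by norm_num)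
    have h5 := Real.exp_one_lt_d9
    have h6 := Real.exp_pos 1
    rw [h3, le_div_iff₀ (by positivity)]
    have h7 : Real.exp 1 * Real.exp 1 ≤ 2.7182818286 * 2.7182818286 :=
      mul_le_mul h5.le h5.le h6.le (by norm_num)
    norm_num at h4 h7 ⊢
    linarith
  have hy0 : (0 : ℝ) < (3 / 20 : ℝ) ^ (s - 2) := Real.rpow_pos_of_pos (by norm_num) _
  -- integrable functions
  have i1 : Integrable (fun t : ℝ => Real.exp (-(s * σ / 2) * t ^ 2)) :=
    integrable_exp_neg_mul_sq (by positivity)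
  have i2 : Integrable (fun t : ℝ => |phi t| ^ s) := hint s (by linarith)
  have i3 : Integrable (fun t : ℝ => Real.exp (-σ * t ^ 2)) := integrable_exp_neg_mul_sq hσ0
  obtain ⟨i4, e4⟩ := Tl_int (a := σ * (18 / 5)) (by positivity)
  have i5 : Integrable (fun t : ℝ => phi t ^ 2) := by
    have := hint 2 (by norm_num)
    simpa [Real.rpow_two, sq_abs] using this
  have key : ∀ t : ℝ, (3 / 20 : ℝ) ^ (s - 2) *
      (Real.exp (-σ * t ^ 2) - Tl (σ * (18 / 5)) |t| - phi t ^ 2) ≤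
      Real.exp (-(s * σ / 2) * t ^ 2) - |phi t| ^ s := by
    intro t
    have eg : Real.exp (-(s * σ / 2) * t ^ 2) = (Real.exp (-(σ * t ^ 2 / 2))) ^ s := by
      rw [← Real.exp_mul]
      congr 1
      ring
    have eg2 : Real.exp (-σ * t ^ 2) = (Real.exp (-(σ * t ^ 2 / 2))) ^ 2 := by
      rw [← Real.exp_nat_mul]
      congr 1
      push_cast
      ring
    by_cases ht : |t| ≤ 18 / 5
    · have hT : Tl (σ * (18 / 5)) |t| = 0 := by
        unfold Tl
        rw [Set.indicator_of_notMem]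
        simpa using ht
      rw [hT, sub_zero, eg, eg2, ← sq_abs (phi t)]
      exact npow_aux (abs_nonneg _) (hg t (by linarith)) (by norm_num) (hgy t ht) hs
    · rw [not_le] at ht
      have hT : Tl (σ * (18 / 5)) |t| = Real.exp (-(σ * (18 / 5)) * |t|) := by
        unfold Tl
        rw [Set.indicator_of_mem]
        exact ht
      have h1 : Real.exp (-σ * t ^ 2) ≤ Tl (σ * (18 / 5)) |t| := by
        rw [hT]
        apply Real.exp_le_exp.2
        rw [← sq_abs]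
        have : 0 ≤ σ * (|t| * (|t| - 18 / 5)) :=
          mul_nonneg hσ0.le (mul_nonneg (abs_nonneg _) (by linarith))
        nlinarith
      have h2 := npow_tail (abs_nonneg (phi t)) (hfy t ht) hs
      rw [sq_abs] at h2
      have h3 : 0 < Real.exp (-(s * σ / 2) * t ^ 2) := Real.exp_pos _
      have h4 : (3 / 20 : ℝ) ^ (s - 2) * (Real.exp (-σ * t ^ 2) - Tl (σ * (18 / 5)) |t|) ≤ 0 :=
        mul_nonpos_of_nonneg_of_nonpos hy0.le (by linarith)
      have h5 : (3 / 20 : ℝ) ^ (s - 2) *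
        (Real.exp (-σ * t ^ 2) - Tl (σ * (18 / 5)) |t| - phi t ^ 2) =
        (3 / 20 : ℝ) ^ (s - 2) * (Real.exp (-σ * t ^ 2) - Tl (σ * (18 / 5)) |t|)
          - (3 / 20 : ℝ) ^ (s - 2) * phi t ^ 2 := by ring
      rw [h5]
      linarith
  have hI := integral_mono (((i3.sub i4).sub i5).const_mul ((3 / 20 : ℝ) ^ (s - 2)))
    (i1.sub i2) key
  simp only [Pi.sub_apply] at hI
  rw [integral_const_mul] at hI
  have e1 : ∫ t : ℝ, (Real.exp (-(s * σ / 2) * t ^ 2) - |phi t| ^ s) =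
      (∫ t : ℝ, Real.exp (-(s * σ / 2) * t ^ 2)) - ∫ t : ℝ, |phi t| ^ s := integral_sub i1 i2
  have e2 : ∫ t : ℝ, (Real.exp (-σ * t ^ 2) - Tl (σ * (18 / 5)) |t| - phi t ^ 2) =
      (∫ t : ℝ, Real.exp (-σ * t ^ 2)) - (∫ t : ℝ, Tl (σ * (18 / 5)) |t|) - ∫ t : ℝ, phi t ^ 2 := by
    have h1 : ∫ t : ℝ, (Real.exp (-σ * t ^ 2) - Tl (σ * (18 / 5)) |t| - phi t ^ 2) =
        (∫ t : ℝ, (Real.exp (-σ * t ^ 2) - Tl (σ * (18 / 5)) |t|)) - ∫ t : ℝ, phi t ^ 2 :=
      integral_sub (i3.sub i4) i5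
    have h2 : ∫ t : ℝ, (Real.exp (-σ * t ^ 2) - Tl (σ * (18 / 5)) |t|) =
      (∫ t : ℝ, Real.exp (-σ * t ^ 2)) - (∫ t : ℝ, Tl (σ * (18 / 5)) |t|) := integral_sub i3 i4
    rw [h1, h2]
  rw [e1, e2, integral_gaussian, integral_gaussian, e4, hpl] at hI
  have e5 : Real.pi / (s * σ / 2) = 2 * Real.pi / (s * σ) := by field_simp
  rw [e5] at hI
  -- numerics
  have hnum : 0 ≤ √(Real.pi / σ) - 2 * (Real.exp (-(σ * (18 / 5)) * (18 / 5)) / (σ * (18 / 5)))
      - 2 * Real.pi * B1 / m0 ^ 2 := by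
    have hpi1 := Real.pi_gt_d4
    have hpi2 := Real.pi_lt_d4
    have a1 : (3.28 : ℝ) ≤ √(Real.pi / σ) := by
      apply Real.le_sqrt_of_sq_le
      rw [le_div_iff₀ hσ0]
      have : (3.28 : ℝ) ^ 2 * σ ≤ 3.28 ^ 2 * 0.2911251 :=
        mul_le_mul_of_nonneg_left hσ2 (by norm_num)
      norm_num at this ⊢
      linarith
    have a2 : Real.exp (-(σ * (18 / 5)) * (18 / 5)) ≤ 1 / 41 := by
      have b1 : -(σ * (18 / 5)) * (18 / 5) ≤ -(3.77 : ℝ) := by
        norm_num at hσ1 ⊢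
        linarith
      refine (Real.exp_le_exp.2 b1).trans ?_
      rw [Real.exp_neg, ← one_div]
      apply one_div_le_one_div_of_le (by norm_num)
      have b2 : Real.exp (3.77 : ℝ) = Real.exp 1 * Real.exp 1 * Real.exp 1 * Real.exp 0.77 := by
        rw [← Real.exp_add, ← Real.exp_add, ← Real.exp_add]
        norm_num
      have b3 := Real.quadratic_le_exp_of_nonneg (x := 0.77) (by norm_num)
      have b4 : (2.718 : ℝ) ≤ Real.exp 1 := by linarith [Real.exp_one_gt_d9]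
      have b5 : (2.718 * 2.718 : ℝ) ≤ Real.exp 1 * Real.exp 1 :=
        mul_le_mul b4 b4 (by norm_num) (by positivity)
      have b6 : (2.718 * 2.718 * 2.718 : ℝ) ≤ Real.exp 1 * Real.exp 1 * Real.exp 1 :=
        mul_le_mul b5 b4 (by norm_num) (by positivity)
      have b7 : (2.718 * 2.718 * 2.718 * 2.0664 : ℝ) ≤
          Real.exp 1 * Real.exp 1 * Real.exp 1 * Real.exp 0.77 :=
        mul_le_mul b6 (by norm_num at b3 ⊢; linarith) (by norm_num) (by positivity)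
      rw [b2]
      refine le_trans ?_ b7
      norm_num
    have a3 : 2 * (Real.exp (-(σ * (18 / 5)) * (18 / 5)) / (σ * (18 / 5))) ≤ 0.0466 := by
      have : Real.exp (-(σ * (18 / 5)) * (18 / 5)) / (σ * (18 / 5)) ≤ 0.0233 := by
        rw [div_le_iff₀ (by positivity)]
        refine a2.trans ?_
        norm_num at hσ1 ⊢
        linarith
      linarith
    have a4 : 2 * Real.pi * B1 / m0 ^ 2 ≤ 3.205 := by
      have hm0 : (1.7112487 : ℝ) ≤ m0 := by linarith
      have c1 : (1.7112487 : ℝ) ^ 2 ≤ m0 ^ 2 := pow_le_pow_left₀ (by norm_num) hm0 2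
      rw [div_le_iff₀ (by positivity)]
      have c2 : Real.pi * B1 ≤ 3.1416 * 1.4936483 :=
        mul_le_mul hpi2.le (by linarith) (by linarith) (by norm_num)
      norm_num at c1 c2 ⊢
      linarith
    linarith
  have hfin := mul_nonneg hy0.le hnum
  linarith

end
end CG3
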