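import Pool.Agent.CG3.Base2

open MeasureTheory ProbabilityTheory
open scoped BigOperators

namespace CG3
noncomputable section

def j11momq : ℕ → ℚ
  | 0 => 1
  | (k + 1) => (2 * k + 1) * j11momq k - 708874905227207 / 10 ^ 15
def j11Bq : ℕ → ℚ
  | 0 => 0
  | (k + 1) => (2 * k + 1) * j11Bq k + 1
def j11aq (k : ℕ) : ℚ := (-1) ^ k * j11momq k / (2 * k).factorial
def j11Iq (T : ℚ) : ℚ := ∑ j ∈ Finset.range 12, ∑ k ∈ Finset.range 12, j11aq j * j11aq k * T ^ (2 * (j + k) + 1) / (2 * (j + k) + 1)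
def j11E1q : ℚ := ∑ k ∈ Finset.range 12, j11Bq k / 10 ^ 15 * 36 ^ k / (2 * k).factorial
def j11E2q : ℚ := (j11momq 12 + j11Bq 12 / 10 ^ 15) * 36 ^ 12 / (24).factorial

theorem j11I3 : 152744 / 100000 ≤ j11Iq 3 := by decide +kernel
theorem j11I345 : 1530579 / 1000000 ≤ j11Iq (69/20) := by decide +kernel
theorem j11I5 : 155133 / 100000 ≤ j11Iq 5 := by decide +kernel
theorem j11I6 : 156312 / 100000 ≤ j11Iq 6 := by decide +kernel
theorem j11hE1 : j11E1q ≤ 1 / 10^8 := by decide +kernel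
theorem j11hE2 : j11E2q ≤ 3 / 10^7 := by decide +kernel

def j11pp (t : ℝ) : ℝ := ∑ k ∈ Finset.range 12, ((j11aq k : ℚ) : ℝ) * t ^ (2 * k)

theorem j11mom_close (hc1 : (0.708874905227206 : ℝ) ≤ cc) (hc2 : cc ≤ (0.708874905227208 : ℝ)) (k : ℕ) :
    |mom k - ((j11momq k : ℚ) : ℝ)| ≤ ((j11Bq k : ℚ) : ℝ) / 10 ^ 15 := by
  induction k with
  | zero => simp [mom, j11momq, j11Bq]
  | succ k ih =>
    have h0 : mom (k+1) - ((j11momq (k+1) : ℚ) : ℝ)
        = (2*(k:ℝ)+1) * (mom k - ((j11momq k : ℚ) : ℝ)) - (cc - 708874905227207/10^15) := by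
      simp only [mom, j11momq]; push_cast; ring
    rw [h0]
    have h1 : |(2*(k:ℝ)+1) * (mom k - ((j11momq k : ℚ) : ℝ))| ≤ (2*(k:ℝ)+1) * (((j11Bq k : ℚ) : ℝ)/10^15) := by
      rw [abs_mul, abs_of_nonneg (show (0:ℝ) ≤ 2*(k:ℝ)+1 by positivity)]
      exact mul_le_mul_of_nonneg_left ih (by positivity)
    have h2 : |cc - 708874905227207/10^15| ≤ 1/10^15 := by
      rw [abs_le]; constructor <;> norm_num at hc1 hc2 ⊢ <;> linarith
    have h3 : ((j11Bq (k+1) : ℚ) : ℝ) / 10 ^ 15 = (2*(k:ℝ)+1) * (((j11Bq k : ℚ) : ℝ)/10^15) + 1/10^15 := by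
      simp only [j11Bq]; push_cast; ring
    rw [h3]
    exact (abs_sub _ _).trans (add_le_add h1 h2)

theorem j11phi_close
    (hT1 : ∀ (K : ℕ) (t : ℝ), phi t ≤
      ∑ k ∈ Finset.range (2 * K + 1), (-1) ^ k * mom k * t ^ (2 * k) / (2 * k).factorial)
    (hT2 : ∀ (K : ℕ) (t : ℝ),
      ∑ k ∈ Finset.range (2 * K + 2), (-1) ^ k * mom k * t ^ (2 * k) / (2 * k).factorial ≤ phi t)
    (hc1 : (0.708874905227206 : ℝ) ≤ cc) (hc2 : cc ≤ (0.708874905227208 : ℝ))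
    {t : ℝ} (h0 : 0 ≤ t) (h6 : t ≤ 6) : |phi t - j11pp t| ≤ 1 / 10 ^ 6 := by
  have hL := hT2 5 t
  have hU := hT1 6 t
  norm_num only [] at hL hU
  rw [Finset.sum_range_succ] at hU
  set L := ∑ k ∈ Finset.range 12, (-1) ^ k * mom k * t ^ (2 * k) / (2 * k).factorial with hLdef
  have ht2 : t ^ 2 ≤ 36 := by nlinarith
  have hpow : ∀ k : ℕ, t ^ (2 * k) ≤ 36 ^ k := by
    intro k; rw [pow_mul]; exact pow_le_pow_left₀ (by positivity) ht2 k
  have hE1 : |L - j11pp t| ≤ 1 / 10 ^ 8 := by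
    have e1 : L - j11pp t = ∑ k ∈ Finset.range 12,
        (-1) ^ k * (mom k - ((j11momq k : ℚ) : ℝ)) * t ^ (2 * k) / (2 * k).factorial := by
      rw [hLdef, j11pp, ← Finset.sum_sub_distrib]
      refine Finset.sum_congr rfl fun k _ => ?_
      simp only [j11aq]; push_cast; ring
    rw [e1]
    refine (Finset.abs_sum_le_sum_abs _ _).trans ?_
    have e2 : ∀ k ∈ Finset.range 12,
        |(-1) ^ k * (mom k - ((j11momq k : ℚ) : ℝ)) * t ^ (2 * k) / (2 * k).factorial| ≤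
          ((j11Bq k : ℚ) : ℝ) / 10 ^ 15 * 36 ^ k / (2 * k).factorial := by
      intro k _
      have hm := j11mom_close hc1 hc2 k
      have hB : 0 ≤ ((j11Bq k : ℚ) : ℝ) / 10 ^ 15 := (abs_nonneg _).trans hm
      rw [abs_div, abs_mul, abs_mul, abs_pow, abs_neg, abs_one, one_pow, one_mul,
        abs_of_nonneg (show (0:ℝ) ≤ t ^ (2 * k) by positivity),
        abs_of_nonneg (show (0:ℝ) ≤ ((2 * k).factorial : ℝ) by positivity)]
      exact div_le_div_of_nonneg_right (mul_le_mul hm (hpow k) (by positivity) hB) (by positivity)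
    refine (Finset.sum_le_sum e2).trans ?_
    have e3 : ((j11E1q : ℚ) : ℝ) = ∑ k ∈ Finset.range 12, ((j11Bq k : ℚ) : ℝ) / 10 ^ 15 * 36 ^ k / (2 * k).factorial := by
      simp only [j11E1q]; push_cast; rfl
    rw [← e3]
    have := (Rat.cast_le (K := ℝ)).2 j11hE1
    push_cast at this
    exact this
  have hE2 : (-1) ^ 12 * mom 12 * t ^ (2 * 12) / (2 * 12).factorial ≤ 3 / 10 ^ 7 := by
    have hm := j11mom_close hc1 hc2 12
    have hm' := (abs_le.1 hm).2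
    have e3 := (Rat.cast_le (K := ℝ)).2 j11hE2
    have e4 : ((j11E2q : ℚ) : ℝ) = (((j11momq 12 : ℚ) : ℝ) + ((j11Bq 12 : ℚ) : ℝ) / 10 ^ 15) * 36 ^ 12 / ((24).factorial : ℝ) := by
      simp only [j11E2q]; push_cast; rfl
    rw [e4] at e3
    have hQ : (0 : ℚ) ≤ j11momq 12 + j11Bq 12 / 10 ^ 15 := by decide +kernel
    have hQ' : (0 : ℝ) ≤ ((j11momq 12 : ℚ) : ℝ) + ((j11Bq 12 : ℚ) : ℝ) / 10 ^ 15 := by
      exact_mod_cast hQ
    have e5 : (-1) ^ 12 * mom 12 * t ^ (2 * 12) / ((2 * 12).factorial : ℝ) ≤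
        (((j11momq 12 : ℚ) : ℝ) + ((j11Bq 12 : ℚ) : ℝ) / 10 ^ 15) * 36 ^ 12 / ((24).factorial : ℝ) := by
      have : (2 * 12).factorial = (24).factorial := rfl
      rw [this]
      refine div_le_div_of_nonneg_right ?_ (by positivity)
      rw [show ((-1 : ℝ)) ^ 12 = 1 by norm_num, one_mul]
      exact mul_le_mul (by linarith) (hpow 12) (by positivity) hQ'
    refine e5.trans (e3.trans ?_)
    push_cast; norm_num
  have hE1' := abs_le.1 hE1
  rw [abs_le]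
  constructor
  · have := hE1'.1
    norm_num at this ⊢
    linarith
  · have := hE1'.2
    norm_num at this hE2 ⊢
    norm_num at hU
    linarith

theorem j11pp_sq (t : ℝ) : j11pp t ^ 2 = ∑ j ∈ Finset.range 12, ∑ k ∈ Finset.range 12,
    ((j11aq j : ℚ) : ℝ) * ((j11aq k : ℚ) : ℝ) * t ^ (2 * (j + k)) := by
  rw [sq, j11pp, Finset.sum_mul_sum]
  refine Finset.sum_congr rfl fun j _ => Finset.sum_congr rfl fun k _ => ?_
  rw [mul_add, pow_add]; ring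

theorem j11pp_int (T : ℚ) : ∫ t in (0:ℝ)..(T:ℝ), j11pp t ^ 2 = ((j11Iq T : ℚ) : ℝ) := by
  simp_rw [j11pp_sq]
  rw [intervalIntegral.integral_finsetSum]
  · simp only [j11Iq]
    push_cast
    refine Finset.sum_congr rfl fun j _ => ?_
    rw [intervalIntegral.integral_finsetSum]
    · refine Finset.sum_congr rfl fun k _ => ?_
      rw [intervalIntegral.integral_const_mul, integral_pow]
      push_cast
      ring
    · intro k _
      exact (Continuous.intervalIntegrable (by fun_prop) _ _)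
  · intro k _
    exact (Continuous.intervalIntegrable (by fun_prop) _ _)

theorem j11low (hcont : Continuous phi)
    (hclose : ∀ t : ℝ, 0 ≤ t → t ≤ 6 → |phi t - j11pp t| ≤ 1 / 10 ^ 6) (T : ℚ) (h0 : 0 ≤ T) (h6 : T ≤ 6) :
    (1 - 1 / 10 ^ 5) * ((j11Iq T : ℚ) : ℝ) - 6 / 10 ^ 7 ≤ ∫ t in (0:ℝ)..(T:ℝ), phi t ^ 2 := by
  have h0' : (0:ℝ) ≤ (T:ℝ) := by exact_mod_cast h0
  have h6' : (T:ℝ) ≤ 6 := by exact_mod_cast h6
  have hpc : Continuous j11pp := by unfold j11pp; fun_prop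
  have key : ∀ t ∈ Set.Icc (0:ℝ) (T:ℝ), (1 - 1 / 10 ^ 5) * j11pp t ^ 2 - 1 / 10 ^ 7 ≤ phi t ^ 2 := by
    intro t ht
    have h := hclose t ht.1 (ht.2.trans h6')
    have h2 : (phi t - j11pp t) ^ 2 ≤ (1 / 10 ^ 6) ^ 2 := by
      rw [← sq_abs (phi t - j11pp t)]
      exact pow_le_pow_left₀ (abs_nonneg _) h 2
    have h3 := sq_nonneg (j11pp t + 10 ^ 5 * (phi t - j11pp t))
    nlinarith
  have hmono := intervalIntegral.integral_mono_on (μ := volume) h0'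
    (f := fun t => (1 - 1 / 10 ^ 5) * j11pp t ^ 2 - 1 / 10 ^ 7) (g := fun t => phi t ^ 2)
    (Continuous.intervalIntegrable (by fun_prop) _ _) (Continuous.intervalIntegrable (by fun_prop) _ _) key
  have e : ∫ t in (0:ℝ)..(T:ℝ), ((1 - 1 / 10 ^ 5) * j11pp t ^ 2 - 1 / 10 ^ 7)
      = (1 - 1 / 10 ^ 5) * ((j11Iq T : ℚ) : ℝ) - 1 / 10 ^ 7 * T := by
    rw [intervalIntegral.integral_sub (Continuous.intervalIntegrable (by fun_prop) _ _) (Continuous.intervalIntegrable (by fun_prop) _ _),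
      intervalIntegral.integral_const_mul, j11pp_int]
    simp
    ring
  rw [e] at hmono
  refine le_trans ?_ hmono
  nlinarith

theorem j11int (hcont : Continuous phi) (hint : ∀ s : ℝ, 1 < s → Integrable (fun t : ℝ => |phi t| ^ s)) :
    Integrable (fun t : ℝ => phi t ^ 2) := by
  have h := hint 2 (by norm_num)
  refine h.congr (Filter.Eventually.of_forall fun t => ?_)
  simp only
  rw [show (2:ℝ) = ((2:ℕ):ℝ) by norm_num, Real.rpow_natCast, sq_abs]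

theorem j11half (hneg : ∀ t : ℝ, phi (-t) = phi t) (hI : Integrable (fun t : ℝ => phi t ^ 2)) :
    ∫ t in Set.Ioi (0:ℝ), phi t ^ 2 = (∫ t : ℝ, phi t ^ 2) / 2 := by
  have h1 := intervalIntegral.integral_Iic_add_Ioi (b := (0:ℝ)) (f := fun t : ℝ => phi t ^ 2) (μ := volume) hI.integrableOn hI.integrableOn
  have h2 : ∫ t in Set.Iic (0:ℝ), phi t ^ 2 = ∫ t in Set.Ioi (0:ℝ), phi t ^ 2 := by
    have := integral_comp_neg_Iic (0:ℝ) (fun t => phi t ^ 2)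
    simp only [hneg, neg_zero] at this
    exact this
  rw [h2] at h1
  linarith

theorem j11Rt (hneg : ∀ t : ℝ, phi (-t) = phi t) (hI : Integrable (fun t : ℝ => phi t ^ 2))
    (hpl : ∫ t : ℝ, phi t ^ 2 = 2 * Real.pi * B1 / m0 ^ 2)
    (hm1 : (1.7112487837842976 : ℝ) ≤ m0)
    (hB2 : B1 ≤ (1.49364826562485406 : ℝ)) (T : ℝ) :
    Rt T ≤ 1602405 / 1000000 - ∫ t in (0:ℝ)..T, phi t ^ 2 := by
  have h1 := intervalIntegral.integral_interval_add_Ioi (a := (0:ℝ)) (b := T) (f := fun t : ℝ => phi t ^ 2) (μ := volume) hI.integrableOn hI.integrableOn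
  rw [j11half hneg hI, hpl] at h1
  have h2 : 2 * Real.pi * B1 / m0 ^ 2 / 2 ≤ 1602405 / 1000000 := by
    have hm : (1.7112487837842976 : ℝ) ^ 2 ≤ m0 ^ 2 := pow_le_pow_left₀ (by norm_num) hm1 2
    have hm0 : 0 < m0 ^ 2 := lt_of_lt_of_le (by norm_num) hm
    rw [div_div, div_le_iff₀ (by positivity)]
    have hpi := Real.pi_lt_d6
    have hpi0 := Real.pi_pos
    have : Real.pi * B1 ≤ 3.141593 * 1.49364826562485406 :=
      (mul_le_mul_of_nonneg_left hB2 hpi0.le).trans (mul_le_mul_of_nonneg_right hpi.le (by norm_num))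
    nlinarith
  unfold Rt
  linarith

theorem j11anti (hI : Integrable (fun t : ℝ => phi t ^ 2)) {a b : ℝ} (h : a ≤ b) : Rt b ≤ Rt a := by
  unfold Rt
  refine setIntegral_mono_set hI.integrableOn ?_ ?_
  · exact Filter.Eventually.of_forall fun t => sq_nonneg _
  · exact (Set.Ioi_subset_Ioi h).eventuallyLE

theorem j11last (hI : Integrable (fun t : ℝ => phi t ^ 2))
    (hdec : ∀ t : ℝ, 0 < t → |phi t| ≤ cc * (√(t ^ 2 + 1) + 1) / t ^ 2) (T : ℝ) (hT : 0 < T) :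
    Rt T ≤ cc ^ 2 * (1 / T + 1 / T ^ 2 + 2 / (3 * T ^ 3) + 1 / (4 * T ^ 4)) := by
  have hb : ∀ t ∈ Set.Ioi T, phi t ^ 2 ≤ cc ^ 2 * (t ^ (-2 : ℝ) + 2 * t ^ (-3 : ℝ) + 2 * t ^ (-4 : ℝ) + t ^ (-5 : ℝ)) := by
    intro t ht
    have ht0 : 0 < t := hT.trans ht
    have h1 := hdec t ht0
    have h2 : phi t ^ 2 ≤ (cc * (√(t ^ 2 + 1) + 1) / t ^ 2) ^ 2 := by
      rw [← sq_abs (phi t)]
      exact pow_le_pow_left₀ (abs_nonneg _) h1 2
    refine h2.trans ?_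
    have hs : √(t ^ 2 + 1) ≤ t + 1 / (2 * t) := by
      rw [Real.sqrt_le_left (by positivity)]
      have : (t + 1 / (2 * t)) ^ 2 = t ^ 2 + 1 + (1 / (2 * t)) ^ 2 := by field_simp; ring
      rw [this]
      have := sq_nonneg (1 / (2 * t))
      linarith
    have hs2 : √(t ^ 2 + 1) ^ 2 = t ^ 2 + 1 := Real.sq_sqrt (by positivity)
    have h3 : (√(t ^ 2 + 1) + 1) ^ 2 ≤ t ^ 2 + 2 + 2 * t + 1 / t := by
      have : 2 * (1 / (2 * t)) = 1 / t := by field_simp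
      nlinarith
    have e1 : (cc * (√(t ^ 2 + 1) + 1) / t ^ 2) ^ 2 = cc ^ 2 * ((√(t ^ 2 + 1) + 1) ^ 2 / t ^ 4) := by
      field_simp
    rw [e1]
    refine mul_le_mul_of_nonneg_left ?_ (sq_nonneg _)
    have e2 : t ^ (-2 : ℝ) + 2 * t ^ (-3 : ℝ) + 2 * t ^ (-4 : ℝ) + t ^ (-5 : ℝ) = (t ^ 2 + 2 + 2 * t + 1 / t) / t ^ 4 := by
      rw [Real.rpow_neg ht0.le, Real.rpow_neg ht0.le, Real.rpow_neg ht0.le, Real.rpow_neg ht0.le]
      rw [show (2:ℝ) = ((2:ℕ):ℝ) by norm_num, show (3:ℝ) = ((3:ℕ):ℝ) by norm_num, show (4:ℝ) = ((4:ℕ):ℝ) by norm_num,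
        show (5:ℝ) = ((5:ℕ):ℝ) by norm_num]
      simp only [Real.rpow_natCast]
      push_cast
      field_simp
      ring
    rw [e2]
    exact div_le_div_of_nonneg_right h3 (by positivity)
  have i2 := integrableOn_Ioi_rpow_of_lt (a := -2) (by norm_num) hT
  have i3 := integrableOn_Ioi_rpow_of_lt (a := -3) (by norm_num) hT
  have i4 := integrableOn_Ioi_rpow_of_lt (a := -4) (by norm_num) hT
  have i5 := integrableOn_Ioi_rpow_of_lt (a := -5) (by norm_num) hT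
  have j1 : IntegrableOn (fun t : ℝ => t ^ (-2 : ℝ) + 2 * t ^ (-3 : ℝ)) (Set.Ioi T) := i2.add (i3.const_mul 2)
  have j2 : IntegrableOn (fun t : ℝ => t ^ (-2 : ℝ) + 2 * t ^ (-3 : ℝ) + 2 * t ^ (-4 : ℝ)) (Set.Ioi T) := j1.add (i4.const_mul 2)
  have j3 : IntegrableOn (fun t : ℝ => t ^ (-2 : ℝ) + 2 * t ^ (-3 : ℝ) + 2 * t ^ (-4 : ℝ) + t ^ (-5 : ℝ)) (Set.Ioi T) := j2.add i5
  unfold Rt
  refine (setIntegral_mono_on hI.integrableOn (j3.const_mul (cc ^ 2)) measurableSet_Ioi hb).trans ?_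
  rw [integral_const_mul, integral_add j2 i5, integral_add j1 (i4.const_mul 2), integral_add i2 (i3.const_mul 2),
    integral_const_mul, integral_const_mul, integral_Ioi_rpow_of_lt (by norm_num) hT, integral_Ioi_rpow_of_lt (by norm_num) hT,
    integral_Ioi_rpow_of_lt (by norm_num) hT, integral_Ioi_rpow_of_lt (by norm_num) hT]
  apply le_of_eq
  congr 1
  rw [show (-2:ℝ) + 1 = -((1:ℕ):ℝ) by norm_num, show (-3:ℝ) + 1 = -((2:ℕ):ℝ) by norm_num,
    show (-4:ℝ) + 1 = -((3:ℕ):ℝ) by norm_num, show (-5:ℝ) + 1 = -((4:ℕ):ℝ) by norm_num]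
  rw [Real.rpow_neg hT.le, Real.rpow_neg hT.le, Real.rpow_neg hT.le, Real.rpow_neg hT.le]
  simp only [Real.rpow_natCast]
  push_cast
  field_simp

/-- tails of `∫ phi²` (true values: Rt 3 = .074961, Rt 3.45 = .07184, Rt 3.62 = .07176, Rt 5 = .051072,
Rt 6 = .039279; `∫ phi² = 3.20480716`) -/
theorem R_bounds
    (hneg : ∀ t : ℝ, phi (-t) = phi t) (hcont : Continuous phi)
    (hT1 : ∀ (K : ℕ) (t : ℝ), phi t ≤
      ∑ k ∈ Finset.range (2 * K + 1), (-1) ^ k * mom k * t ^ (2 * k) / (2 * k).factorial)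
    (hT2 : ∀ (K : ℕ) (t : ℝ),
      ∑ k ∈ Finset.range (2 * K + 2), (-1) ^ k * mom k * t ^ (2 * k) / (2 * k).factorial ≤ phi t)
    (hint : ∀ s : ℝ, 1 < s → Integrable (fun t : ℝ => |phi t| ^ s))
    (hdec : ∀ t : ℝ, 0 < t → |phi t| ≤ cc * (√(t ^ 2 + 1) + 1) / t ^ 2)
    (hpl : ∫ t : ℝ, phi t ^ 2 = 2 * Real.pi * B1 / m0 ^ 2)
    (hm1 : (1.7112487837842976 : ℝ) ≤ m0) (hm2 : m0 ≤ (1.7112487837842977 : ℝ))
    (hB1 : (1.49364826562485405 : ℝ) ≤ B1) (hB2 : B1 ≤ (1.49364826562485406 : ℝ))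
    (hc1 : (0.708874905227206 : ℝ) ≤ cc) (hc2 : cc ≤ (0.708874905227208 : ℝ)) :
    (∀ T : ℝ, 3 ≤ T → Rt T ≤ 754 / 10000) ∧ (∀ T : ℝ, 69 / 20 ≤ T → Rt T ≤ 720 / 10000) ∧
    (∀ T : ℝ, 5 ≤ T → Rt T ≤ 513 / 10000) ∧ (∀ T : ℝ, 6 ≤ T → Rt T ≤ 395 / 10000) ∧
    (∀ T : ℝ, 0 < T → Rt T ≤ cc ^ 2 * (1 / T + 1 / T ^ 2 + 2 / (3 * T ^ 3) + 1 / (4 * T ^ 4))) := by
  have hI := j11int hcont hint
  have hcl : ∀ t : ℝ, 0 ≤ t → t ≤ 6 → |phi t - j11pp t| ≤ 1 / 10 ^ 6 :=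
    fun t h0 h6 => j11phi_close hT1 hT2 hc1 hc2 h0 h6
  have main : ∀ (q b v : ℚ), 0 ≤ q → q ≤ 6 → v ≤ j11Iq q →
      1602405 / 1000000 - ((1 - 1 / 10 ^ 5) * v - 6 / 10 ^ 7) ≤ b → ∀ T : ℝ, (q : ℝ) ≤ T → Rt T ≤ (b : ℝ) := by
    intro q b v hq0 hq6 hv hb T hT
    have h1 := j11low hcont hcl q hq0 hq6
    have h2 := j11Rt hneg hI hpl hm1 hB2 (q : ℝ)
    have h3 := j11anti hI hT
    have hv' : ((v : ℚ) : ℝ) ≤ ((j11Iq q : ℚ) : ℝ) := by exact_mod_cast hv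
    have hb' : (1602405 / 1000000 - ((1 - 1 / 10 ^ 5) * (v : ℝ) - 6 / 10 ^ 7) : ℝ) ≤ (b : ℝ) := by
      have := (Rat.cast_le (K := ℝ)).2 hb
      push_cast at this
      exact this
    nlinarith
  refine ⟨?_, ?_, ?_, ?_, fun T hT => j11last hI hdec T hT⟩
  · intro T hT
    have := main 3 (754 / 10000) (152744 / 100000) (by norm_num) (by norm_num) j11I3 (by norm_num) T (by push_cast; exact hT)
    push_cast at this; exact this
  · intro T hT
    have := main (69 / 20) (720 / 10000) (1530579 / 1000000) (by norm_num) (by norm_num) j11I345 (by norm_num) T (by push_cast; exact hT)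
    push_cast at this; exact this
  · intro T hT
    have := main 5 (513 / 10000) (155133 / 100000) (by norm_num) (by norm_num) j11I5 (by norm_num) T (by push_cast; exact hT)
    push_cast at this; exact this
  · intro T hT
    have := main 6 (395 / 10000) (156312 / 100000) (by norm_num) (by norm_num) j11I6 (by norm_num) T (by push_cast; exact hT)
    push_cast at this; exact this

end
end CG3
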