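import Pool.Agent.CG3.Base2

open MeasureTheory ProbabilityTheory
open scoped BigOperators

namespace CG3
noncomputable section


theorem j12_le_one (hneg : ∀ t : ℝ, phi (-t) = phi t)
    (h3 : ∀ t : ℝ, 3 ≤ t → |phi t| ≤ 3 / 20)
    (hg : ∀ t : ℝ, |t| ≤ 181 / 50 → |phi t| ≤ Real.exp (-((1 - cc) * t ^ 2 / 2)))
    (hc2 : cc ≤ (0.708874905227208 : ℝ)) (t : ℝ) : |phi t| ≤ 1 := by
  by_cases h : |t| ≤ 181 / 50
  · refine (hg t h).trans ?_
    rw [Real.exp_le_one_iff]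
    have : 0 ≤ (1 - cc) * t ^ 2 := mul_nonneg (by linarith) (sq_nonneg t)
    linarith
  · push Not at h
    have e : |phi t| = |phi (|t|)| := by
      rcases abs_cases t with ⟨h1, _⟩ | ⟨h1, _⟩
      · rw [h1]
      · rw [h1, hneg]
    rw [e]
    exact (h3 |t| (by linarith)).trans (by norm_num)

theorem j12_case1 (hP : ∀ t : ℝ, 0 ≤ t → t ≤ 29 / 5 → phi t ≤ Real.exp (-(PP t)))
    (hpos : ∀ t : ℝ, 0 ≤ t → t ≤ 69 / 20 → 0 < phi t)
    {n : ℕ} (θ : Fin n → ℝ) (hθ : ∑ k, θ k ^ 2 = 1) (i j : Fin n)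
    (hj : 0 < θ j) (hji : θ j ≤ θ i) (hk : ∀ k, k ≠ i → 0 ≤ θ k ∧ θ k ≤ θ j)
    (ξ : ℝ) (hξ : 0 < ξ) (h1 : ξ ≤ 69 / 20 / θ j) (h2 : θ i * ξ ≤ 29 / 5) :
    ∏ k, phi (θ k * ξ) ≤ Real.exp (-((1 - cc) / 2 * ξ ^ 2 + 374 / 100000 * (∑ k, θ k ^ 4) * ξ ^ 4
      + 188 / 1000000 * (∑ k, θ k ^ 6) * ξ ^ 6
      + 113 / 10000000 * (∑ k, θ k ^ 8) * ξ ^ 8 + 737 / 1000000000 * (∑ k, θ k ^ 10) * ξ ^ 10)) := by
  have hs : ∑ k, PP (θ k * ξ) = (1 - cc) / 2 * ξ ^ 2 + 374 / 100000 * (∑ k, θ k ^ 4) * ξ ^ 4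
      + 188 / 1000000 * (∑ k, θ k ^ 6) * ξ ^ 6
      + 113 / 10000000 * (∑ k, θ k ^ 8) * ξ ^ 8
      + 737 / 1000000000 * (∑ k, θ k ^ 10) * ξ ^ 10 := by
    have e : ∀ k, PP (θ k * ξ) = (1 - cc) / 2 * ξ ^ 2 * θ k ^ 2 + 374 / 100000 * ξ ^ 4 * θ k ^ 4
      + 188 / 1000000 * ξ ^ 6 * θ k ^ 6
      + 113 / 10000000 * ξ ^ 8 * θ k ^ 8
      + 737 / 1000000000 * ξ ^ 10 * θ k ^ 10 := by
      intro k; unfold PP; ring
    simp_rw [e, Finset.sum_add_distrib, ← Finset.mul_sum, hθ]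
    ring
  rw [← hs, ← Finset.sum_neg_distrib, Real.exp_sum]
  rw [← Finset.mul_prod_erase Finset.univ (fun k => phi (θ k * ξ)) (Finset.mem_univ i),
    ← Finset.mul_prod_erase Finset.univ (fun k => Real.exp (-(PP (θ k * ξ)))) (Finset.mem_univ i)]
  have hk1 : ∀ k ∈ Finset.univ.erase i, 0 ≤ θ k * ξ ∧ θ k * ξ ≤ 69 / 20 := by
    intro k hk'
    obtain ⟨a, b⟩ := hk k (Finset.ne_of_mem_erase hk')
    refine ⟨by positivity, ?_⟩
    rw [le_div_iff₀ hj] at h1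
    nlinarith
  have hprodpos : 0 < ∏ k ∈ Finset.univ.erase i, phi (θ k * ξ) :=
    Finset.prod_pos fun k hk' => hpos _ (hk1 k hk').1 (hk1 k hk').2
  apply mul_le_mul
  · exact hP _ (mul_nonneg (hj.le.trans hji) hξ.le) h2
  · apply Finset.prod_le_prod
    · intro k hk'
      exact (hpos _ (hk1 k hk').1 (hk1 k hk').2).le
    · intro k hk'
      exact hP _ (hk1 k hk').1 ((hk1 k hk').2.trans (by norm_num))
  · exact hprodpos.le
  · exact (Real.exp_pos _).le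

theorem j12_case2 
    (h3 : ∀ t : ℝ, 3 ≤ t → |phi t| ≤ 3 / 20)
    (hg : ∀ t : ℝ, |t| ≤ 181 / 50 → |phi t| ≤ Real.exp (-((1 - cc) * t ^ 2 / 2)))
    {n : ℕ} (θ : Fin n → ℝ) (hθ : ∑ k, θ k ^ 2 = 1) (i j : Fin n)
    (hj : 0 < θ j) (hk : ∀ k, k ≠ i → 0 ≤ θ k ∧ θ k ≤ θ j)
    (ξ : ℝ) (hξ : 0 < ξ) (h1 : ξ ≤ 181 / 50 / θ j) (h2 : 3 ≤ θ i * ξ) :
    ∏ k, phi (θ k * ξ) ≤ 3 / 20 * Real.exp (-((1 - cc) * (1 - θ i ^ 2) / 2 * ξ ^ 2)) := by
  have hs : ∑ k ∈ Finset.univ.erase i, θ k ^ 2 = 1 - θ i ^ 2 := by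
    have := Finset.add_sum_erase Finset.univ (fun k => θ k ^ 2) (Finset.mem_univ i)
    simp only [hθ] at this
    linarith
  refine (le_abs_self _).trans ?_
  rw [Finset.abs_prod,
    ← Finset.mul_prod_erase Finset.univ (fun k => |phi (θ k * ξ)|) (Finset.mem_univ i)]
  have hk1 : ∀ k ∈ Finset.univ.erase i, |θ k * ξ| ≤ 181 / 50 := by
    intro k hk'
    obtain ⟨a, b⟩ := hk k (Finset.ne_of_mem_erase hk')
    rw [abs_of_nonneg (by positivity)]
    rw [le_div_iff₀ hj] at h1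
    nlinarith
  have hp : ∏ k ∈ Finset.univ.erase i, |phi (θ k * ξ)| ≤
      Real.exp (-((1 - cc) * (1 - θ i ^ 2) / 2 * ξ ^ 2)) := by
    have e1 : -((1 - cc) * (1 - θ i ^ 2) / 2 * ξ ^ 2) =
        ∑ k ∈ Finset.univ.erase i, -((1 - cc) * (θ k * ξ) ^ 2 / 2) := by
      rw [← hs, Finset.mul_sum, Finset.sum_div, Finset.sum_mul, ← Finset.sum_neg_distrib]
      refine Finset.sum_congr rfl fun k _ => ?_
      ring
    rw [e1, Real.exp_sum]
    exact Finset.prod_le_prod (fun k _ => abs_nonneg _) (fun k hk' => hg _ (hk1 k hk'))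
  exact mul_le_mul (h3 _ h2) hp (Finset.prod_nonneg fun k _ => abs_nonneg _) (by norm_num)

theorem j12_exp : Real.exp (-(0.291125094772792 * (181 / 50) ^ 2 / 2)) ≤ 3 / 20 := by
  have h1 := Real.exp_one_gt_d9
  have h2 : (1 : ℝ) - 0.0925 ≤ Real.exp (-0.0925) := by
    have := Real.add_one_le_exp (-0.0925 : ℝ)
    linarith
  have h3 : Real.exp (1.9075) = Real.exp 1 * Real.exp 1 * Real.exp (-0.0925) := by
    rw [← Real.exp_add, ← Real.exp_add]; norm_num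
  have h4 : (20 / 3 : ℝ) ≤ Real.exp 1.9075 := by
    rw [h3]
    have h5 : (7.389 : ℝ) ≤ Real.exp 1 * Real.exp 1 := by nlinarith
    have h6 : (7.389 : ℝ) * 0.9075 ≤ Real.exp 1 * Real.exp 1 * Real.exp (-0.0925) :=
      mul_le_mul h5 (by linarith) (by norm_num) (by positivity)
    refine le_trans ?_ h6
    norm_num
  have h7 : Real.exp 1.9075 ≤ Real.exp (0.291125094772792 * (181 / 50) ^ 2 / 2) :=
    Real.exp_le_exp.2 (by norm_num)
  rw [Real.exp_neg]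
  have h8 : (20 / 3 : ℝ) ≤ Real.exp (0.291125094772792 * (181 / 50) ^ 2 / 2) := h4.trans h7
  rw [inv_le_comm₀ (by positivity) (by norm_num)]
  refine le_trans (by norm_num) h8

theorem j12_case3 
    (h3 : ∀ t : ℝ, 3 ≤ t → |phi t| ≤ 3 / 20)
    (hg : ∀ t : ℝ, |t| ≤ 181 / 50 → |phi t| ≤ Real.exp (-((1 - cc) * t ^ 2 / 2)))
    (hc2 : cc ≤ (0.708874905227208 : ℝ))
    {n : ℕ} (θ : Fin n → ℝ) (hθ : ∑ k, θ k ^ 2 = 1) (i j : Fin n) (hij : i ≠ j)
    (hj : 0 < θ j) (hk : ∀ k, k ≠ i → 0 ≤ θ k ∧ θ k ≤ θ j)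
    (ξ : ℝ) (hξ : 0 < ξ) (h1 : 181 / 50 / θ j < ξ) :
    ∏ k, phi (θ k * ξ) ≤ (3 / 20 : ℝ) ^ ((1 - θ i ^ 2 - θ j ^ 2) / θ j ^ 2) *
      (|phi (θ i * ξ)| * |phi (θ j * ξ)|) := by
  have hmem : j ∈ Finset.univ.erase i := Finset.mem_erase.2 ⟨hij.symm, Finset.mem_univ _⟩
  have hs : ∑ k ∈ (Finset.univ.erase i).erase j, θ k ^ 2 = 1 - θ i ^ 2 - θ j ^ 2 := by
    have e1 := Finset.add_sum_erase Finset.univ (fun k => θ k ^ 2) (Finset.mem_univ i)
    have e2 := Finset.add_sum_erase (Finset.univ.erase i) (fun k => θ k ^ 2) hmem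
    simp only [hθ] at e1 e2
    linarith
  refine (le_abs_self _).trans ?_
  rw [Finset.abs_prod,
    ← Finset.mul_prod_erase Finset.univ (fun k => |phi (θ k * ξ)|) (Finset.mem_univ i),
    ← Finset.mul_prod_erase (Finset.univ.erase i) (fun k => |phi (θ k * ξ)|) hmem]
  have hy : 0 < θ j ^ 2 := by positivity
  have hp : ∏ k ∈ (Finset.univ.erase i).erase j, |phi (θ k * ξ)| ≤
      (3 / 20 : ℝ) ^ ((1 - θ i ^ 2 - θ j ^ 2) / θ j ^ 2) := by
    rw [← hs, Finset.sum_div, Real.rpow_sum_of_pos (by norm_num)]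
    apply Finset.prod_le_prod (fun k _ => abs_nonneg _)
    intro k hk'
    obtain ⟨a, b⟩ := hk k (Finset.ne_of_mem_erase (Finset.mem_of_mem_erase hk'))
    have hu : θ k ^ 2 / θ j ^ 2 ≤ 1 := by
      rw [div_le_one hy]; nlinarith
    have hu0 : 0 ≤ θ k ^ 2 / θ j ^ 2 := by positivity
    by_cases hc : 181 / 50 ≤ θ k * ξ
    · refine (h3 _ (by linarith)).trans ?_
      calc (3 / 20 : ℝ) = (3 / 20 : ℝ) ^ (1 : ℝ) := (Real.rpow_one _).symm
        _ ≤ _ := Real.rpow_le_rpow_of_exponent_ge (by norm_num) (by norm_num) hu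
    · push Not at hc
      have h0 : 0 ≤ θ k * ξ := by positivity
      refine (hg _ (by rw [abs_of_nonneg h0]; exact hc.le)).trans ?_
      have e2 : (181 / 50) ^ 2 / θ j ^ 2 ≤ ξ ^ 2 := by
        rw [← div_pow]
        exact pow_le_pow_left₀ (by positivity) h1.le 2
      have e1 : -((1 - cc) * (θ k * ξ) ^ 2 / 2) ≤
          -(0.291125094772792 * (181 / 50) ^ 2 / 2) * (θ k ^ 2 / θ j ^ 2) := by
        have e3 : (181 / 50) ^ 2 * (θ k ^ 2 / θ j ^ 2) ≤ (θ k * ξ) ^ 2 := by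
          calc _ = θ k ^ 2 * ((181 / 50) ^ 2 / θ j ^ 2) := by ring
            _ ≤ θ k ^ 2 * ξ ^ 2 := mul_le_mul_of_nonneg_left e2 (sq_nonneg _)
            _ = _ := by ring
        have e4 : (0.291125094772792 : ℝ) * ((181 / 50) ^ 2 * (θ k ^ 2 / θ j ^ 2)) ≤
            (1 - cc) * (θ k * ξ) ^ 2 :=
          mul_le_mul (by linarith) e3 (by positivity) (by linarith)
        linarith
      calc _ ≤ Real.exp (-(0.291125094772792 * (181 / 50) ^ 2 / 2) * (θ k ^ 2 / θ j ^ 2)) :=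
            Real.exp_le_exp.2 e1
        _ = (Real.exp (-(0.291125094772792 * (181 / 50) ^ 2 / 2))) ^ (θ k ^ 2 / θ j ^ 2) := by
            rw [Real.exp_mul]
        _ ≤ _ := Real.rpow_le_rpow (Real.exp_pos _).le j12_exp hu0
  have h0 : 0 ≤ |phi (θ i * ξ)| * |phi (θ j * ξ)| := by positivity
  calc _ = (|phi (θ i * ξ)| * |phi (θ j * ξ)|) *
        ∏ k ∈ (Finset.univ.erase i).erase j, |phi (θ k * ξ)| := by ring
    _ ≤ (|phi (θ i * ξ)| * |phi (θ j * ξ)|) *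
        (3 / 20 : ℝ) ^ ((1 - θ i ^ 2 - θ j ^ 2) / θ j ^ 2) := mul_le_mul_of_nonneg_left hp h0
    _ = _ := by ring

theorem j12_cs {μ : Measure ℝ} {A B : ℝ → ℝ} (hA : Integrable (fun x => A x ^ 2) μ)
    (hB : Integrable (fun x => B x ^ 2) μ) (hAB : Integrable (fun x => A x * B x) μ) :
    ∫ x, A x * B x ∂μ ≤ √((∫ x, A x ^ 2 ∂μ) * ∫ x, B x ^ 2 ∂μ) := by
  have h : ∀ t : ℝ, 0 ≤ (∫ x, A x ^ 2 ∂μ) * (t * t) + (-2 * ∫ x, A x * B x ∂μ) * t +
      ∫ x, B x ^ 2 ∂μ := by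
    intro t
    have e : (∫ x, A x ^ 2 ∂μ) * (t * t) + (-2 * ∫ x, A x * B x ∂μ) * t + ∫ x, B x ^ 2 ∂μ =
        ∫ x, (t * t * A x ^ 2 + (-2 * t) * (A x * B x) + B x ^ 2) ∂μ := by
      rw [integral_add, integral_add, integral_const_mul, integral_const_mul]
      · ring
      · exact hA.const_mul _
      · exact hAB.const_mul _
      · exact (hA.const_mul _).add (hAB.const_mul _)
      · exact hB
    rw [e]
    apply integral_nonneg
    intro x
    show 0 ≤ t * t * A x ^ 2 + (-2 * t) * (A x * B x) + B x ^ 2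
    nlinarith [sq_nonneg (t * A x - B x)]
  have h2 := discrim_le_zero h
  unfold discrim at h2
  apply Real.le_sqrt_of_sq_le
  nlinarith

/- NOTE (helper612): STATEMENT CORRECTED: in the posted version the integral body of the second term
swallowed the `+ (3/20)^..` term (precedence of `∫` is 60); here it is `3 / 10 * (∫ ξ in .., ..) + ..`. -/
/-- main majorant bound (T2): here `i` is the largest coordinate, `j` the second largest. -/
theorem F_le_T2 (hcont : Continuous phi)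
    (hneg : ∀ t : ℝ, phi (-t) = phi t)
    (hP : ∀ t : ℝ, 0 ≤ t → t ≤ 29 / 5 → phi t ≤ Real.exp (-(PP t)))
    (h3 : ∀ t : ℝ, 3 ≤ t → |phi t| ≤ 3 / 20)
    (hg : ∀ t : ℝ, |t| ≤ 181 / 50 → |phi t| ≤ Real.exp (-((1 - cc) * t ^ 2 / 2)))
    (hpos : ∀ t : ℝ, 0 ≤ t → t ≤ 69 / 20 → 0 < phi t)
    (hint : ∀ s : ℝ, 1 < s → Integrable (fun t : ℝ => |phi t| ^ s))
    (hc1 : (0.708874905227206 : ℝ) ≤ cc) (hc2 : cc ≤ (0.708874905227208 : ℝ))
    {n : ℕ} (θ : Fin n → ℝ) (hθ : ∑ k, θ k ^ 2 = 1) (i j : Fin n) (hij : i ≠ j)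
    (hj : 0 < θ j) (hji : θ j ≤ θ i) (hk : ∀ k, k ≠ i → 0 ≤ θ k ∧ θ k ≤ θ j)
    (hx : θ i ^ 2 ≤ 21 / 40) :
    ∫ ξ : ℝ, ∏ k, phi (θ k * ξ) ≤
      Mint (∑ k, θ k ^ 4) (∑ k, θ k ^ 6) (∑ k, θ k ^ 8) (∑ k, θ k ^ 10)
      + 3 / 10 * (∫ ξ in Set.Ioi (min (69 / 20 / θ j) 8),
          Real.exp (-((1 - cc) * (1 - θ i ^ 2) / 2 * ξ ^ 2)))
      + (3 / 20 : ℝ) ^ ((1 - θ i ^ 2 - θ j ^ 2) / θ j ^ 2) * (2 / √(θ i * θ j))
          * √(Rt (181 / 50 * θ i / θ j) * Rt (181 / 50)) := by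
  have hi : 0 < θ i := lt_of_lt_of_le hj hji
  have h1c : 0 < 1 - cc := by linarith
  have hle1 := j12_le_one hneg h3 hg hc2
  set m := min (69 / 20 / θ j) 8 with hm
  have hm0 : 0 ≤ m := le_min (by positivity) (by norm_num)
  set a := 181 / 50 / θ j with ha
  have ha0 : 0 ≤ a := by positivity
  set c : ℝ := (3 / 20 : ℝ) ^ ((1 - θ i ^ 2 - θ j ^ 2) / θ j ^ 2) with hc
  have hc0 : 0 ≤ c := by positivity
  -- square integrability
  have hsq : Integrable (fun t : ℝ => phi t ^ 2) := by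
    have := hint 2 (by norm_num)
    refine this.congr (Filter.Eventually.of_forall fun t => ?_)
    show |phi t| ^ (2:ℝ) = phi t ^ 2
    rw [Real.rpow_two, sq_abs]
  have hsqi : Integrable (fun ξ : ℝ => |phi (θ i * ξ)| ^ 2) := by
    have := (integrable_comp_mul_left_iff (fun t : ℝ => phi t ^ 2) hi.ne').2 hsq
    refine this.congr (Filter.Eventually.of_forall fun t => ?_)
    show phi (θ i * t) ^ 2 = |phi (θ i * t)| ^ 2
    rw [sq_abs]
  have hsqj : Integrable (fun ξ : ℝ => |phi (θ j * ξ)| ^ 2) := by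
    have := (integrable_comp_mul_left_iff (fun t : ℝ => phi t ^ 2) hj.ne').2 hsq
    refine this.congr (Filter.Eventually.of_forall fun t => ?_)
    show phi (θ j * t) ^ 2 = |phi (θ j * t)| ^ 2
    rw [sq_abs]
  have hci : ∀ k, Continuous fun ξ : ℝ => phi (θ k * ξ) := fun k =>
    hcont.comp (continuous_const.mul continuous_id)
  have hij2 : Integrable (fun ξ : ℝ => |phi (θ i * ξ)| * |phi (θ j * ξ)|) := by
    refine Integrable.mono' ((hsqi.add hsqj).const_mul (1 / 2 : ℝ))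
      ((hci i).abs.mul (hci j).abs).aestronglyMeasurable
      (Filter.Eventually.of_forall fun ξ => ?_)
    rw [Real.norm_eq_abs, abs_of_nonneg (by positivity)]
    show |phi (θ i * ξ)| * |phi (θ j * ξ)| ≤
      1 / 2 * (|phi (θ i * ξ)| ^ 2 + |phi (θ j * ξ)| ^ 2)
    nlinarith [sq_nonneg (|phi (θ i * ξ)| - |phi (θ j * ξ)|)]
  have hmem : j ∈ Finset.univ.erase i := Finset.mem_erase.2 ⟨hij.symm, Finset.mem_univ _⟩
  have hfc : Continuous fun ξ : ℝ => ∏ k, phi (θ k * ξ) :=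
    continuous_finsetProd _ fun k _ => hci k
  have hfint : Integrable (fun ξ : ℝ => ∏ k, phi (θ k * ξ)) := by
    refine Integrable.mono' hij2 hfc.aestronglyMeasurable
      (Filter.Eventually.of_forall fun ξ => ?_)
    rw [Real.norm_eq_abs, Finset.abs_prod,
      ← Finset.mul_prod_erase Finset.univ (fun k => |phi (θ k * ξ)|) (Finset.mem_univ i),
      ← Finset.mul_prod_erase (Finset.univ.erase i) (fun k => |phi (θ k * ξ)|) hmem]
    apply mul_le_mul_of_nonneg_left _ (abs_nonneg _)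
    apply mul_le_of_le_one_right (abs_nonneg _)
    exact Finset.prod_le_one (fun k _ => abs_nonneg _) (fun k _ => hle1 _)
  -- evenness
  have heven : ∫ ξ : ℝ, ∏ k, phi (θ k * ξ) = 2 * ∫ ξ in Set.Ioi (0:ℝ), ∏ k, phi (θ k * ξ) := by
    rw [← integral_comp_abs (f := fun ξ => ∏ k, phi (θ k * ξ))]
    congr 1
    ext ξ
    refine Finset.prod_congr rfl fun k _ => ?_
    rcases abs_cases ξ with ⟨h, _⟩ | ⟨h, _⟩
    · rw [h]
    · rw [h, mul_neg, hneg]
  -- the three majorants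
  set E1 : ℝ → ℝ := fun x => Real.exp (-((1 - cc) / 2 * x ^ 2 +
      374 / 100000 * (∑ k, θ k ^ 4) * x ^ 4 + 188 / 1000000 * (∑ k, θ k ^ 6) * x ^ 6
      + 113 / 10000000 * (∑ k, θ k ^ 8) * x ^ 8
      + 737 / 1000000000 * (∑ k, θ k ^ 10) * x ^ 10)) with hE1
  set E2 : ℝ → ℝ := fun ξ => Real.exp (-((1 - cc) * (1 - θ i ^ 2) / 2 * ξ ^ 2)) with hE2
  set E3 : ℝ → ℝ := fun ξ => |phi (θ i * ξ)| * |phi (θ j * ξ)| with hE3
  have hE1i : Integrable E1 := by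
    have g := integrable_exp_neg_mul_sq (show 0 < (1 - cc) / 2 by linarith)
    refine Integrable.mono' g (by rw [hE1]; fun_prop) (Filter.Eventually.of_forall fun ξ => ?_)
    rw [Real.norm_eq_abs, abs_of_nonneg (Real.exp_pos _).le]
    apply Real.exp_le_exp.2
    have a4 : 0 ≤ ∑ k, θ k ^ 4 := Finset.sum_nonneg fun k _ => by positivity
    have a6 : 0 ≤ ∑ k, θ k ^ 6 := Finset.sum_nonneg fun k _ => by positivity
    have a8 : 0 ≤ ∑ k, θ k ^ 8 := Finset.sum_nonneg fun k _ => by positivity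
    have a10 : 0 ≤ ∑ k, θ k ^ 10 := Finset.sum_nonneg fun k _ => by positivity
    have b4 : 0 ≤ 374 / 100000 * (∑ k, θ k ^ 4) * ξ ^ 4 := by positivity
    have b6 : 0 ≤ 188 / 1000000 * (∑ k, θ k ^ 6) * ξ ^ 6 := by positivity
    have b8 : 0 ≤ 113 / 10000000 * (∑ k, θ k ^ 8) * ξ ^ 8 := by positivity
    have b10 : 0 ≤ 737 / 1000000000 * (∑ k, θ k ^ 10) * ξ ^ 10 := by positivity
    linarith
  have hE2i : Integrable E2 := by
    have g := integrable_exp_neg_mul_sq (show 0 < (1 - cc) * (1 - θ i ^ 2) / 2 by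
      have : 0 < 1 - θ i ^ 2 := by linarith
      positivity)
    refine g.congr (Filter.Eventually.of_forall fun ξ => ?_)
    show Real.exp _ = Real.exp _
    congr 1; ring
  have hpt : ∀ ξ ∈ Set.Ioi (0:ℝ), ∏ k, phi (θ k * ξ) ≤
      E1 ξ + (Set.Ioi m).indicator (fun ξ => 3 / 20 * E2 ξ) ξ +
        (Set.Ioi a).indicator (fun ξ => c * E3 ξ) ξ := by
    intro ξ hξ
    have hξ : 0 < ξ := hξ
    have n1 : 0 ≤ E1 ξ := (Real.exp_pos _).le
    have n2 : 0 ≤ (Set.Ioi m).indicator (fun ξ => 3 / 20 * E2 ξ) ξ :=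
      Set.indicator_nonneg (fun ξ _ => by
        have : 0 < E2 ξ := Real.exp_pos _
        positivity) ξ
    have n3 : 0 ≤ (Set.Ioi a).indicator (fun ξ => c * E3 ξ) ξ :=
      Set.indicator_nonneg (fun ξ _ => by
        have : 0 ≤ E3 ξ := by rw [hE3]; positivity
        positivity) ξ
    by_cases k1 : ξ ≤ 69 / 20 / θ j ∧ θ i * ξ ≤ 29 / 5
    · have := j12_case1 hP hpos θ hθ i j hj hji hk ξ hξ k1.1 k1.2
      have e : ∏ k, phi (θ k * ξ) ≤ E1 ξ := this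
      linarith
    · by_cases k2 : ξ ≤ 181 / 50 / θ j
      · have k3 : 3 ≤ θ i * ξ := by
          by_contra hcon
          push Not at hcon
          apply k1
          refine ⟨?_, by linarith⟩
          rw [le_div_iff₀ hj]
          nlinarith
        have k4 : m < ξ := by
          by_contra hcon
          push Not at hcon
          apply k1
          refine ⟨hcon.trans (min_le_left _ _), ?_⟩
          have k5 : ξ ≤ 8 := hcon.trans (min_le_right _ _)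
          have k6 : θ i ≤ 29 / 40 := by
            by_contra hcc
            push Not at hcc
            nlinarith
          nlinarith
        have e : ∏ k, phi (θ k * ξ) ≤ 3 / 20 * E2 ξ :=
          j12_case2 h3 hg θ hθ i j hj hk ξ hξ k2 k3
        have e2 : (Set.Ioi m).indicator (fun ξ => 3 / 20 * E2 ξ) ξ = 3 / 20 * E2 ξ :=
          Set.indicator_of_mem (Set.mem_Ioi.2 k4) _
        linarith
      · push Not at k2
        have e : ∏ k, phi (θ k * ξ) ≤ c * E3 ξ :=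
          j12_case3 h3 hg hc2 θ hθ i j hij hj hk ξ hξ k2
        have e2 : (Set.Ioi a).indicator (fun ξ => c * E3 ξ) ξ = c * E3 ξ :=
          Set.indicator_of_mem (Set.mem_Ioi.2 k2) _
        linarith
  have hI2 : Integrable ((Set.Ioi m).indicator (fun ξ => 3 / 20 * E2 ξ)) :=
    (hE2i.const_mul _).indicator measurableSet_Ioi
  have hI3 : Integrable ((Set.Ioi a).indicator (fun ξ => c * E3 ξ)) :=
    (hij2.const_mul _).indicator measurableSet_Ioi
  have hmain : ∫ ξ in Set.Ioi (0:ℝ), ∏ k, phi (θ k * ξ) ≤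
      (∫ ξ in Set.Ioi (0:ℝ), E1 ξ) + 3 / 20 * (∫ ξ in Set.Ioi m, E2 ξ) +
        c * (∫ ξ in Set.Ioi a, E3 ξ) := by
    have e0 : ∫ ξ in Set.Ioi (0:ℝ), ∏ k, phi (θ k * ξ) ≤ ∫ ξ in Set.Ioi (0:ℝ),
        (E1 ξ + (Set.Ioi m).indicator (fun ξ => 3 / 20 * E2 ξ) ξ +
        (Set.Ioi a).indicator (fun ξ => c * E3 ξ) ξ) :=
      setIntegral_mono_on hfint.integrableOn
        ((hE1i.integrableOn.add hI2.integrableOn).add hI3.integrableOn) measurableSet_Ioi hpt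
    have i1 : Integrable (fun ξ => E1 ξ + (Set.Ioi m).indicator (fun ξ => 3 / 20 * E2 ξ) ξ)
        (volume.restrict (Set.Ioi (0:ℝ))) := hE1i.integrableOn.add hI2.integrableOn
    rw [integral_add i1 hI3.integrableOn,
      integral_add hE1i.integrableOn hI2.integrableOn,
      setIntegral_indicator measurableSet_Ioi, setIntegral_indicator measurableSet_Ioi,
      Set.Ioi_inter_Ioi, Set.Ioi_inter_Ioi, max_eq_right hm0, max_eq_right ha0,
      integral_const_mul, integral_const_mul] at e0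
    exact e0
  -- Cauchy-Schwarz
  have hcs : ∫ ξ in Set.Ioi a, E3 ξ ≤ 1 / √(θ i * θ j) *
      √(Rt (181 / 50 * θ i / θ j) * Rt (181 / 50)) := by
    have e1 := j12_cs (μ := volume.restrict (Set.Ioi a)) (A := fun ξ => |phi (θ i * ξ)|)
      (B := fun ξ => |phi (θ j * ξ)|) hsqi.integrableOn hsqj.integrableOn hij2.integrableOn
    have e2 : ∫ ξ in Set.Ioi a, |phi (θ i * ξ)| ^ 2 = (θ i)⁻¹ * Rt (181 / 50 * θ i / θ j) := by
      have := integral_comp_mul_left_Ioi (fun t => phi t ^ 2) a hi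
      simp only [sq_abs]
      rw [this, Rt, smul_eq_mul, ha]
      congr 3
      congr 1
      ring_nf
    have e3 : ∫ ξ in Set.Ioi a, |phi (θ j * ξ)| ^ 2 = (θ j)⁻¹ * Rt (181 / 50) := by
      have := integral_comp_mul_left_Ioi (fun t => phi t ^ 2) a hj
      simp only [sq_abs]
      rw [this, Rt, smul_eq_mul, ha]
      have e4 : θ j * (181 / 50 / θ j) = 181 / 50 := by field_simp
      rw [e4]
    rw [e2, e3] at e1
    refine e1.trans (le_of_eq ?_)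
    rw [show (θ i)⁻¹ * Rt (181 / 50 * θ i / θ j) * ((θ j)⁻¹ * Rt (181 / 50)) =
      (θ i * θ j)⁻¹ * (Rt (181 / 50 * θ i / θ j) * Rt (181 / 50)) by rw [mul_inv]; ring,
      Real.sqrt_mul (by positivity), Real.sqrt_inv, one_div]
  rw [heven]
  have hMint : Mint (∑ k, θ k ^ 4) (∑ k, θ k ^ 6) (∑ k, θ k ^ 8) (∑ k, θ k ^ 10) =
      2 * ∫ ξ in Set.Ioi (0:ℝ), E1 ξ := rfl
  rw [hMint]
  have hf : c * (∫ ξ in Set.Ioi a, E3 ξ) ≤ c * (1 / √(θ i * θ j) *
      √(Rt (181 / 50 * θ i / θ j) * Rt (181 / 50))) := mul_le_mul_of_nonneg_left hcs hc0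
  have hfin : c * (2 / √(θ i * θ j)) * √(Rt (181 / 50 * θ i / θ j) * Rt (181 / 50)) =
      2 * (c * (1 / √(θ i * θ j) *
      √(Rt (181 / 50 * θ i / θ j) * Rt (181 / 50)))) := by ring
  rw [hfin]
  linarith

end
end CG3
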