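import Pool.Agent.CG3.Base2

open MeasureTheory ProbabilityTheory
open scoped BigOperators

namespace CG3
noncomputable section

theorem FCS_cs {μ : Measure ℝ} (f g : ℝ → ℝ) (hf0 : ∀ x, 0 ≤ f x) (hg0 : ∀ x, 0 ≤ g x)
    (hfm : AEStronglyMeasurable f μ) (hgm : AEStronglyMeasurable g μ)
    (hf : Integrable (fun x => f x ^ 2) μ) (hg : Integrable (fun x => g x ^ 2) μ) :
    ∫ x, f x * g x ∂μ ≤ √((∫ x, f x ^ 2 ∂μ) * (∫ x, g x ^ 2 ∂μ)) := by
  have h := integral_mul_le_Lp_mul_Lq_of_nonneg (μ := μ) Real.HolderConjugate.two_two (f := f) (g := g)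
    (Filter.Eventually.of_forall hf0) (Filter.Eventually.of_forall hg0)
    (by rw [ENNReal.ofReal_ofNat]; exact (memLp_two_iff_integrable_sq hfm).mpr hf)
    (by rw [ENNReal.ofReal_ofNat]; exact (memLp_two_iff_integrable_sq hgm).mpr hg)
  have e1 : ∀ f : ℝ → ℝ, ∫ x, f x ^ (2 : ℝ) ∂μ = ∫ x, f x ^ 2 ∂μ := by
    intro f
    simp
  rw [e1, e1, ← Real.sqrt_eq_rpow, ← Real.sqrt_eq_rpow,
    ← Real.sqrt_mul (integral_nonneg (fun x => sq_nonneg _))] at h
  exact h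

theorem FCS_int {μ : Measure ℝ} (f g : ℝ → ℝ) (hf0 : ∀ x, 0 ≤ f x) (hg0 : ∀ x, 0 ≤ g x)
    (hfm : AEStronglyMeasurable f μ) (hgm : AEStronglyMeasurable g μ)
    (hf : Integrable (fun x => f x ^ 2) μ) (hg : Integrable (fun x => g x ^ 2) μ) :
    Integrable (fun x => f x * g x) μ := by
  refine Integrable.mono' ((hf.add hg).div_const 2) (hfm.mul hgm) ?_
  refine Filter.Eventually.of_forall (fun x => ?_)
  rw [Real.norm_of_nonneg (mul_nonneg (hf0 x) (hg0 x))]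
  show f x * g x ≤ (f x ^ 2 + g x ^ 2) / 2
  nlinarith [sq_nonneg (f x - g x)]

/-- the numerical inequality `exp (-(σ² 3.62² / 2)) ≤ 3/20` in the form used -/
theorem FCS_num (hc2 : cc ≤ (0.708874905227208 : ℝ)) (x : ℝ) (hx : 0 ≤ x) :
    Real.exp (-((1 - cc) * (181 / 50 : ℝ) ^ 2 / 2 * x)) ≤ (3 / 20 : ℝ) ^ x := by
  have h1 : (20 / 3 : ℝ) ≤ Real.exp (1.9 : ℝ) * Real.exp (0.0075 : ℝ) := by
    have e1 := Real.sum_le_exp_of_nonneg (x := (1.9 : ℝ)) (by norm_num) 9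
    have e2 := Real.add_one_le_exp (0.0075 : ℝ)
    simp only [Finset.sum_range_succ, Finset.sum_range_zero, Nat.factorial] at e1
    norm_num at e1 e2 ⊢
    nlinarith [Real.exp_pos (19 / 10 : ℝ), Real.exp_pos (3 / 400 : ℝ)]
  rw [← Real.exp_add] at h1
  have h2 : Real.exp (1.9 + 0.0075 : ℝ) ≤ Real.exp ((1 - cc) * (181 / 50 : ℝ) ^ 2 / 2) := by
    apply Real.exp_le_exp.mpr
    norm_num
    nlinarith
  have h3 : Real.exp (-((1 - cc) * (181 / 50 : ℝ) ^ 2 / 2)) ≤ 3 / 20 := by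
    rw [Real.exp_neg]
    have h4 : (20 / 3 : ℝ) ≤ Real.exp ((1 - cc) * (181 / 50 : ℝ) ^ 2 / 2) := h1.trans h2
    have h5 := inv_anti₀ (by norm_num : (0 : ℝ) < 20 / 3) h4
    norm_num at h5 ⊢
    exact h5
  have h6 := Real.rpow_le_rpow (Real.exp_pos _).le h3 hx
  rw [← Real.exp_mul] at h6
  have h7 : -((1 - cc) * (181 / 50 : ℝ) ^ 2 / 2 * x) =
      -((1 - cc) * (181 / 50 : ℝ) ^ 2 / 2) * x := by ring
  rw [h7]
  exact h6

/-- Cauchy-Schwarz bound: the two coordinates `i`, `j` are separated from the others. -/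
theorem F_le_CS (hcont : Continuous phi)
    (hneg : ∀ t : ℝ, phi (-t) = phi t)
    (h3 : ∀ t : ℝ, 3 ≤ t → |phi t| ≤ 3 / 20)
    (hg : ∀ t : ℝ, |t| ≤ 181 / 50 → |phi t| ≤ Real.exp (-((1 - cc) * t ^ 2 / 2)))
    (hint : ∀ s : ℝ, 1 < s → Integrable (fun t : ℝ => |phi t| ^ s))
    (hc1 : (0.708874905227206 : ℝ) ≤ cc) (hc2 : cc ≤ (0.708874905227208 : ℝ))
    {n : ℕ} (θ : Fin n → ℝ) (hθ : ∑ k, θ k ^ 2 = 1) (i j : Fin n) (hij : i ≠ j)
    (hi : 0 < θ i) (hj : 0 < θ j) (u : ℝ) (hu : 0 < u)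
    (hk : ∀ k, k ≠ i → k ≠ j → 0 ≤ θ k ∧ θ k ^ 2 ≤ u) :
    ∫ ξ : ℝ, ∏ k, phi (θ k * ξ) ≤
      √((1 / θ i * ∫ t : ℝ, phi t ^ 2 *
            Real.exp (-((1 - cc) * ((1 - θ i ^ 2 - θ j ^ 2) / θ i ^ 2) * t ^ 2 / 2))) *
        (1 / θ j * ∫ t : ℝ, phi t ^ 2 *
            Real.exp (-((1 - cc) * ((1 - θ i ^ 2 - θ j ^ 2) / θ j ^ 2) * t ^ 2 / 2))))
      + (3 / 20 : ℝ) ^ ((1 - θ i ^ 2 - θ j ^ 2) / u) * (2 / √(θ i * θ j))
          * √(Rt (181 / 50 * θ i / √u) * Rt (181 / 50 * θ j / √u)) := by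
  obtain ⟨v, hv⟩ : ∃ v, v = 1 - θ i ^ 2 - θ j ^ 2 := ⟨_, rfl⟩
  rw [← hv]
  have hsig : 0 < 1 - cc := by linarith
  -- bounds on phi
  have habs : ∀ t, |phi t| = abs (phi (abs t)) := by
    intro t
    rcases abs_choice t with h | h <;> rw [h]
    rw [hneg]
  have hle1 : ∀ t, |phi t| ≤ 1 := by
    intro t
    by_cases ht : |t| ≤ 181 / 50
    · refine (hg t ht).trans (Real.exp_le_one_iff.mpr ?_)
      have : 0 ≤ (1 - cc) * t ^ 2 / 2 := by positivity
      linarith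
    · push Not at ht
      rw [habs]
      have := h3 |t| (by linarith)
      linarith
  have hsq : Integrable (fun t => phi t ^ 2) := by
    have := hint 2 (by norm_num)
    refine this.congr (Filter.Eventually.of_forall (fun t => ?_))
    show |phi t| ^ (2 : ℝ) = phi t ^ 2
    rw [Real.rpow_two, sq_abs]
  -- the set of the other indices
  obtain ⟨s, hs⟩ : ∃ s : Finset (Fin n), s = (Finset.univ.erase i).erase j := ⟨_, rfl⟩
  have hji : j ∈ Finset.univ.erase i := Finset.mem_erase.mpr ⟨hij.symm, Finset.mem_univ _⟩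
  have hprod : ∀ f : Fin n → ℝ, ∏ k, f k = f i * (f j * ∏ k ∈ s, f k) := by
    intro f
    rw [hs, Finset.mul_prod_erase _ _ hji, Finset.mul_prod_erase _ _ (Finset.mem_univ i)]
  have hsum : ∑ k, θ k ^ 2 = θ i ^ 2 + (θ j ^ 2 + ∑ k ∈ s, θ k ^ 2) := by
    rw [hs, Finset.add_sum_erase (Finset.univ.erase i) (fun k => θ k ^ 2) hji,
      Finset.add_sum_erase Finset.univ (fun k => θ k ^ 2) (Finset.mem_univ i)]
  have hvs : v = ∑ k ∈ s, θ k ^ 2 := by
    rw [hv]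
    linarith
  have hks : ∀ k ∈ s, 0 ≤ θ k ∧ θ k ^ 2 ≤ u := by
    intro k hk'
    rw [hs, Finset.mem_erase, Finset.mem_erase] at hk'
    exact hk k hk'.2.1 hk'.1
  have hv0 : 0 ≤ v := by
    rw [hvs]
    exact Finset.sum_nonneg (fun k _ => sq_nonneg _)
  obtain ⟨T, hT⟩ : ∃ T, T = 181 / 50 / √u := ⟨_, rfl⟩
  have hsu : 0 < √u := Real.sqrt_pos.mpr hu
  have hsu2 : √u ^ 2 = u := Real.sq_sqrt hu.le
  have hT0 : 0 < T := by rw [hT]; positivity
  have hT2 : √u * T = 181 / 50 := by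
    rw [hT]
    field_simp
  obtain ⟨P, hP⟩ : ∃ P : ℝ → ℝ, P = fun ξ => ∏ k, |phi (θ k * ξ)| := ⟨_, rfl⟩
  obtain ⟨r, hr⟩ : ∃ r : ℝ → ℝ, r = fun ξ => ∏ k ∈ s, |phi (θ k * ξ)| := ⟨_, rfl⟩
  have hPr : ∀ ξ, P ξ = (|phi (θ i * ξ)| * |phi (θ j * ξ)|) * r ξ := by
    intro ξ
    rw [hP, hr]
    show ∏ k, |phi (θ k * ξ)| = _
    rw [hprod (fun k => |phi (θ k * ξ)|)]
    ring
  have hr0 : ∀ ξ, 0 ≤ r ξ := by
    intro ξ
    rw [hr]
    exact Finset.prod_nonneg (fun k _ => abs_nonneg _)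
  have hr1 : ∀ ξ, r ξ ≤ 1 := by
    intro ξ
    rw [hr]
    exact Finset.prod_le_one (fun k _ => abs_nonneg _) (fun k _ => hle1 _)
  have hci : Continuous (fun ξ => |phi (θ i * ξ)|) := (hcont.comp (continuous_const_mul _)).abs
  have hcj : Continuous (fun ξ => |phi (θ j * ξ)|) := (hcont.comp (continuous_const_mul _)).abs
  have hcP : Continuous P := by
    rw [hP]
    exact continuous_finsetProd _ (fun k _ => (hcont.comp (continuous_const_mul _)).abs)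
  have hi2 : Integrable (fun ξ => |phi (θ i * ξ)| ^ 2) := by
    have := hsq.comp_mul_left' hi.ne'
    refine this.congr (Filter.Eventually.of_forall (fun t => ?_))
    show phi (θ i * t) ^ 2 = |phi (θ i * t)| ^ 2
    rw [sq_abs]
  have hj2 : Integrable (fun ξ => |phi (θ j * ξ)| ^ 2) := by
    have := hsq.comp_mul_left' hj.ne'
    refine this.congr (Filter.Eventually.of_forall (fun t => ?_))
    show phi (θ j * t) ^ 2 = |phi (θ j * t)| ^ 2
    rw [sq_abs]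
  have hg0 : Integrable (fun ξ => |phi (θ i * ξ)| * |phi (θ j * ξ)|) :=
    FCS_int _ _ (fun _ => abs_nonneg _) (fun _ => abs_nonneg _) hci.aestronglyMeasurable
      hcj.aestronglyMeasurable hi2 hj2
  have hP0 : ∀ ξ, 0 ≤ P ξ := by
    intro ξ
    rw [hPr]
    exact mul_nonneg (mul_nonneg (abs_nonneg _) (abs_nonneg _)) (hr0 ξ)
  have hPint : Integrable P := by
    refine Integrable.mono' hg0 hcP.aestronglyMeasurable (Filter.Eventually.of_forall (fun ξ => ?_))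
    rw [Real.norm_of_nonneg (hP0 ξ), hPr]
    have h5 : 0 ≤ |phi (θ i * ξ)| * |phi (θ j * ξ)| := by positivity
    nlinarith [hr1 ξ, hr0 ξ]
  -- step 0
  have step0 : ∫ ξ : ℝ, ∏ k, phi (θ k * ξ) ≤ ∫ ξ, P ξ := by
    refine (le_abs_self _).trans (abs_integral_le_integral_abs.trans (le_of_eq ?_))
    rw [hP]
    congr 1
    funext ξ
    exact Finset.abs_prod _ _
  -- step 1
  have step1 : ∫ ξ, P ξ = (∫ ξ in Set.Iic (-T), P ξ) +
      ((∫ ξ in Set.Ioc (-T) T, P ξ) + (∫ ξ in Set.Ioi T, P ξ)) := by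
    rw [← setIntegral_union (Set.Ioc_disjoint_Ioi le_rfl) measurableSet_Ioi hPint.integrableOn
      hPint.integrableOn, Set.Ioc_union_Ioi_eq_Ioi (by linarith),
      ← integral_add_compl (measurableSet_Iic (a := -T)) hPint, Set.compl_Iic]
  -- step 2
  have step2 : ∫ ξ in Set.Iic (-T), P ξ = ∫ ξ in Set.Ioi T, P ξ := by
    rw [← integral_comp_neg_Ioi]
    congr 1
    funext ξ
    rw [hP]
    show ∏ k, |phi (θ k * -ξ)| = ∏ k, |phi (θ k * ξ)|
    refine Finset.prod_congr rfl (fun k _ => ?_)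
    rw [mul_neg, hneg]
  -- step 3
  obtain ⟨K, hK⟩ : ∃ K, K = (3 / 20 : ℝ) ^ (v / u) := ⟨_, rfl⟩
  have hK0 : 0 ≤ K := by rw [hK]; positivity
  have hrK : ∀ ξ, T < ξ → r ξ ≤ K := by
    intro ξ hξ
    have hξ0 : 0 < ξ := hT0.trans hξ
    have e1 : K = ∏ k ∈ s, (3 / 20 : ℝ) ^ (θ k ^ 2 / u) := by
      rw [hK, ← Real.rpow_sum_of_pos (by norm_num), ← Finset.sum_div, ← hvs]
    rw [hr, e1]
    refine Finset.prod_le_prod (fun k _ => abs_nonneg _) (fun k hk' => ?_)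
    obtain ⟨h5, h6⟩ := hks k hk'
    by_cases h7 : 181 / 50 ≤ θ k * ξ
    · have h8 : θ k ^ 2 / u ≤ 1 := by
        rw [div_le_one hu]
        exact h6
      calc |phi (θ k * ξ)| ≤ 3 / 20 := h3 _ (by linarith)
        _ = (3 / 20 : ℝ) ^ (1 : ℝ) := (Real.rpow_one _).symm
        _ ≤ _ := Real.rpow_le_rpow_of_exponent_ge (by norm_num) (by norm_num) h8
    · push Not at h7
      have h8 : |θ k * ξ| ≤ 181 / 50 := by
        rw [abs_of_nonneg (by positivity)]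
        exact h7.le
      refine (hg _ h8).trans (le_trans ?_ (FCS_num hc2 (θ k ^ 2 / u) (by positivity)))
      apply Real.exp_le_exp.mpr
      have h9 : (181 / 50 : ℝ) ^ 2 / u ≤ ξ ^ 2 := by
        have h12 : T ^ 2 ≤ ξ ^ 2 := pow_le_pow_left₀ hT0.le hξ.le 2
        rw [div_le_iff₀ hu, ← hT2, mul_pow, hsu2, mul_comm]
        exact mul_le_mul_of_nonneg_right h12 hu.le
      have h10 : 0 ≤ (1 - cc) / 2 * θ k ^ 2 := by positivity
      have h11 := mul_le_mul_of_nonneg_left h9 h10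
      have e2 : (1 - cc) * (181 / 50 : ℝ) ^ 2 / 2 * (θ k ^ 2 / u) =
          (1 - cc) / 2 * θ k ^ 2 * ((181 / 50 : ℝ) ^ 2 / u) := by ring
      have e3 : (1 - cc) * (θ k * ξ) ^ 2 / 2 = (1 - cc) / 2 * θ k ^ 2 * ξ ^ 2 := by ring
      rw [e2, e3]
      linarith
  have hRt : ∀ a : ℝ, 0 < a → ∫ ξ in Set.Ioi T, |phi (a * ξ)| ^ 2 = a⁻¹ * Rt (181 / 50 * a / √u) := by
    intro a ha
    have e1 := integral_comp_mul_left_Ioi (fun t => phi t ^ 2) T ha
    have e2 : a * T = 181 / 50 * a / √u := by rw [hT]; ring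
    rw [e2, smul_eq_mul] at e1
    unfold Rt
    rw [← e1]
    congr 1
    funext ξ
    exact sq_abs _
  have step3 : ∫ ξ in Set.Ioi T, P ξ ≤
      K * √((1 / θ i * Rt (181 / 50 * θ i / √u)) * (1 / θ j * Rt (181 / 50 * θ j / √u))) := by
    calc ∫ ξ in Set.Ioi T, P ξ ≤ ∫ ξ in Set.Ioi T, K * (|phi (θ i * ξ)| * |phi (θ j * ξ)|) := by
          refine setIntegral_mono_on hPint.integrableOn (hg0.integrableOn.const_mul K)
            measurableSet_Ioi (fun ξ hξ => ?_)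
          rw [hPr, mul_comm]
          exact mul_le_mul_of_nonneg_right (hrK ξ hξ) (by positivity)
      _ = K * ∫ ξ in Set.Ioi T, |phi (θ i * ξ)| * |phi (θ j * ξ)| := integral_const_mul _ _
      _ ≤ _ := by
          refine mul_le_mul_of_nonneg_left ?_ hK0
          have := FCS_cs (μ := volume.restrict (Set.Ioi T)) (fun ξ => |phi (θ i * ξ)|)
            (fun ξ => |phi (θ j * ξ)|) (fun _ => abs_nonneg _) (fun _ => abs_nonneg _)
            hci.aestronglyMeasurable hcj.aestronglyMeasurable hi2.integrableOn hj2.integrableOn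
          rw [hRt _ hi, hRt _ hj] at this
          rw [one_div, one_div]
          exact this
  -- step 4
  obtain ⟨e, he⟩ : ∃ e : ℝ → ℝ, e = fun ξ => Real.exp (-((1 - cc) * v * ξ ^ 2 / 4)) := ⟨_, rfl⟩
  have he0 : ∀ ξ, 0 < e ξ := by intro ξ; rw [he]; exact Real.exp_pos _
  have he1 : ∀ ξ, e ξ ≤ 1 := by
    intro ξ
    rw [he]
    refine Real.exp_le_one_iff.mpr ?_
    have : 0 ≤ (1 - cc) * v * ξ ^ 2 / 4 := by positivity
    linarith
  have hec : Continuous e := by rw [he]; fun_prop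
  have hre : ∀ ξ, |ξ| ≤ T → r ξ ≤ e ξ * e ξ := by
    intro ξ hξ
    have e1 : e ξ * e ξ = ∏ k ∈ s, Real.exp (-((1 - cc) * (θ k * ξ) ^ 2 / 2)) := by
      rw [he]
      show Real.exp (-((1 - cc) * v * ξ ^ 2 / 4)) * Real.exp (-((1 - cc) * v * ξ ^ 2 / 4)) = _
      rw [← Real.exp_add, ← Real.exp_sum]
      congr 1
      rw [Finset.sum_neg_distrib]
      have e2 : ∀ k, (1 - cc) * (θ k * ξ) ^ 2 / 2 = θ k ^ 2 * ((1 - cc) * ξ ^ 2 / 2) := by
        intro k; ring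
      simp_rw [e2]
      rw [← Finset.sum_mul, ← hvs]
      ring
    rw [hr, e1]
    refine Finset.prod_le_prod (fun k _ => abs_nonneg _) (fun k hk' => ?_)
    obtain ⟨h5, h6⟩ := hks k hk'
    apply hg
    rw [abs_mul, abs_of_nonneg h5, ← hT2]
    have h7 : θ k ≤ √u := Real.le_sqrt_of_sq_le h6
    exact mul_le_mul h7 hξ (abs_nonneg _) hsu.le
  have hfi : ∀ ξ, 0 ≤ |phi (θ i * ξ)| * e ξ := fun ξ => mul_nonneg (abs_nonneg _) (he0 ξ).le
  have hfj : ∀ ξ, 0 ≤ |phi (θ j * ξ)| * e ξ := fun ξ => mul_nonneg (abs_nonneg _) (he0 ξ).le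
  have hfi2 : Integrable (fun ξ => (|phi (θ i * ξ)| * e ξ) ^ 2) := by
    refine Integrable.mono' hi2 ((hci.mul hec).pow 2).aestronglyMeasurable
      (Filter.Eventually.of_forall (fun ξ => ?_))
    rw [Real.norm_of_nonneg (sq_nonneg _)]
    have h5 : |phi (θ i * ξ)| * e ξ ≤ |phi (θ i * ξ)| := by
      have := mul_le_mul_of_nonneg_left (he1 ξ) (abs_nonneg (phi (θ i * ξ)))
      linarith
    exact pow_le_pow_left₀ (hfi ξ) h5 2
  have hfj2 : Integrable (fun ξ => (|phi (θ j * ξ)| * e ξ) ^ 2) := by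
    refine Integrable.mono' hj2 ((hcj.mul hec).pow 2).aestronglyMeasurable
      (Filter.Eventually.of_forall (fun ξ => ?_))
    rw [Real.norm_of_nonneg (sq_nonneg _)]
    have h5 : |phi (θ j * ξ)| * e ξ ≤ |phi (θ j * ξ)| := by
      have := mul_le_mul_of_nonneg_left (he1 ξ) (abs_nonneg (phi (θ j * ξ)))
      linarith
    exact pow_le_pow_left₀ (hfj ξ) h5 2
  have hQint : Integrable (fun ξ => (|phi (θ i * ξ)| * e ξ) * (|phi (θ j * ξ)| * e ξ)) :=
    FCS_int _ _ hfi hfj (hci.mul hec).aestronglyMeasurable (hcj.mul hec).aestronglyMeasurable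
      hfi2 hfj2
  have hsub : ∀ a : ℝ, 0 < a → ∫ ξ, (|phi (a * ξ)| * e ξ) ^ 2 =
      1 / a * ∫ t : ℝ, phi t ^ 2 * Real.exp (-((1 - cc) * (v / a ^ 2) * t ^ 2 / 2)) := by
    intro a ha
    have e1 := Measure.integral_comp_mul_left
      (fun t => phi t ^ 2 * Real.exp (-((1 - cc) * (v / a ^ 2) * t ^ 2 / 2))) a
    rw [abs_of_pos (inv_pos.mpr ha), smul_eq_mul] at e1
    rw [one_div, ← e1]
    congr 1
    funext ξ
    rw [mul_pow, sq_abs]
    congr 1
    rw [he]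
    show Real.exp (-((1 - cc) * v * ξ ^ 2 / 4)) ^ 2 = _
    rw [← Real.exp_nat_mul]
    congr 1
    push_cast
    field_simp
    ring
  have step4 : ∫ ξ in Set.Ioc (-T) T, P ξ ≤
      √((1 / θ i * ∫ t : ℝ, phi t ^ 2 *
            Real.exp (-((1 - cc) * (v / θ i ^ 2) * t ^ 2 / 2))) *
        (1 / θ j * ∫ t : ℝ, phi t ^ 2 *
            Real.exp (-((1 - cc) * (v / θ j ^ 2) * t ^ 2 / 2)))) := by
    calc ∫ ξ in Set.Ioc (-T) T, P ξ
        ≤ ∫ ξ in Set.Ioc (-T) T, (|phi (θ i * ξ)| * e ξ) * (|phi (θ j * ξ)| * e ξ) := by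
          refine setIntegral_mono_on hPint.integrableOn hQint.integrableOn
            measurableSet_Ioc (fun ξ hξ => ?_)
          rw [hPr]
          have h5 : |ξ| ≤ T := abs_le.mpr ⟨hξ.1.le, hξ.2⟩
          have h6 := mul_le_mul_of_nonneg_left (hre ξ h5)
            (mul_nonneg (abs_nonneg (phi (θ i * ξ))) (abs_nonneg (phi (θ j * ξ))))
          linarith
      _ ≤ ∫ ξ, (|phi (θ i * ξ)| * e ξ) * (|phi (θ j * ξ)| * e ξ) :=
          setIntegral_le_integral hQint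
            (Filter.Eventually.of_forall (fun ξ => mul_nonneg (hfi ξ) (hfj ξ)))
      _ ≤ _ := by
          have := FCS_cs (μ := volume) (fun ξ => |phi (θ i * ξ)| * e ξ)
            (fun ξ => |phi (θ j * ξ)| * e ξ) hfi hfj
            (hci.mul hec).aestronglyMeasurable (hcj.mul hec).aestronglyMeasurable hfi2 hfj2
          rw [hsub _ hi, hsub _ hj] at this
          exact this
  -- conclusion
  have hfin : √((1 / θ i * Rt (181 / 50 * θ i / √u)) * (1 / θ j * Rt (181 / 50 * θ j / √u))) =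
      1 / √(θ i * θ j) * √(Rt (181 / 50 * θ i / √u) * Rt (181 / 50 * θ j / √u)) := by
    have e1 : (1 / θ i * Rt (181 / 50 * θ i / √u)) * (1 / θ j * Rt (181 / 50 * θ j / √u)) =
        (θ i * θ j)⁻¹ * (Rt (181 / 50 * θ i / √u) * Rt (181 / 50 * θ j / √u)) := by
      field_simp
    rw [e1, Real.sqrt_mul (by positivity), Real.sqrt_inv, one_div]
  rw [hfin] at step3
  rw [← hK]
  rw [step1, step2] at step0
  have e9 : K * (2 / √(θ i * θ j)) * √(Rt (181 / 50 * θ i / √u) * Rt (181 / 50 * θ j / √u)) =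
      2 * (K * (1 / √(θ i * θ j) * √(Rt (181 / 50 * θ i / √u) * Rt (181 / 50 * θ j / √u)))) := by
    ring
  rw [e9]
  linarith

end
end CG3
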