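import Pool.Agent.CG3.Base2

open MeasureTheory ProbabilityTheory
open scoped BigOperators

namespace CG3
noncomputable section

lemma phi_le_expP_q0 (s : ℝ) (h0 : (0 : ℝ) ≤ s) (h1 : s ≤ (4761 / 400 : ℝ)) :
    (17 / 100000000 : ℝ) ≤ (270832057216286861924827 / 1500000000000000000000000000000 : ℝ) * s ^ 0 + (541387630575528126452797 / 500000000000000000000000000000 : ℝ) * s ^ 1 + (43452541123295816234316523 / 1260000000000000000000000000000000 : ℝ) * s ^ 2 + (-45988589828098722524807971 / 3240000000000000000000000000000000 : ℝ) * s ^ 3 + (124247539187371233331 / 207900000000000000000000000 : ℝ) * s ^ 4 + (-3248209250356223 / 84000000000000000000000 : ℝ) * s ^ 5 + (244220396393830303 / 252000000000000000000000000 : ℝ) * s ^ 6 + (-7970104679659793 / 504000000000000000000000000 : ℝ) * s ^ 7 := by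
  have ha : 0 ≤ s - (0 : ℝ) := by linarith
  have hb : 0 ≤ (4761 / 400 : ℝ) - s := by linarith
  have key : ((270832057216286861924827 / 1500000000000000000000000000000 : ℝ) * s ^ 0 + (541387630575528126452797 / 500000000000000000000000000000 : ℝ) * s ^ 1 + (43452541123295816234316523 / 1260000000000000000000000000000000 : ℝ) * s ^ 2 + (-45988589828098722524807971 / 3240000000000000000000000000000000 : ℝ) * s ^ 3 + (124247539187371233331 / 207900000000000000000000000 : ℝ) * s ^ 4 + (-3248209250356223 / 84000000000000000000000 : ℝ) * s ^ 5 + (244220396393830303 / 252000000000000000000000000 : ℝ) * s ^ 6 + (-7970104679659793 / 504000000000000000000000000 : ℝ) * s ^ 7) - (17 / 100000000 : ℝ) = (15832057216286861924827 / 50764321987008160066408924255371093750 : ℝ) * ((s - (0 : ℝ)) ^ 0 * ((4761 / 400 : ℝ) - s) ^ 7) + (7776969287715871443514815151 / 20305728794803264026563569702148437500000 : ℝ) * ((s - (0 : ℝ)) ^ 1 * ((4761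 / 400 : ℝ) - s) ^ 6) + (1846514410349685664045139177639587 / 758080541672655190325039935546875000000000000 : ℝ) * ((s - (0 : ℝ)) ^ 2 * ((4761 / 400 : ℝ) - s) ^ 5) + (10439081157836065141567374047230783609 / 1819393300014372456780095845312500000000000000000 : ℝ) * ((s - (0 : ℝ)) ^ 3 * ((4761 / 400 : ℝ) - s) ^ 4) + (1804513111517024931396573627424508627699 / 5003331575039524256145263574609375000000000000000 : ℝ) * ((s - (0 : ℝ)) ^ 4 * ((4761 / 400 : ℝ) - s) ^ 3) + (2645851816735827701157142849812612994949 / 3335554383359682837430175716406250000000000000000 : ℝ) * ((s - (0 : ℝ)) ^ 5 * ((4761 / 400 : ℝ) - s) ^ 2) + (54798266348572586094025441720546062626261 / 91489491657865586398084819650000000000000000000000 : ℝ) * ((s - (0 : ℝ)) ^ 6 * ((4761 / 400 : ℝ) - s) ^ 1) + (15051965053268289344176422865673321189808719 / 102468230656809456765854998008000000000000000000000000 : ℝ) * ((s - (0 : ℝ)) ^ 7 * ((4761 / 400 : ℝ) - s) ^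 0) := by ring
  have t0 : 0 ≤ (15832057216286861924827 / 50764321987008160066408924255371093750 : ℝ) * ((s - (0 : ℝ)) ^ 0 * ((4761 / 400 : ℝ) - s) ^ 7) := by positivity
  have t1 : 0 ≤ (7776969287715871443514815151 / 20305728794803264026563569702148437500000 : ℝ) * ((s - (0 : ℝ)) ^ 1 * ((4761 / 400 : ℝ) - s) ^ 6) := by positivity
  have t2 : 0 ≤ (1846514410349685664045139177639587 / 758080541672655190325039935546875000000000000 : ℝ) * ((s - (0 : ℝ)) ^ 2 * ((4761 / 400 : ℝ) - s) ^ 5) := by positivity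
  have t3 : 0 ≤ (10439081157836065141567374047230783609 / 1819393300014372456780095845312500000000000000000 : ℝ) * ((s - (0 : ℝ)) ^ 3 * ((4761 / 400 : ℝ) - s) ^ 4) := by positivity
  have t4 : 0 ≤ (1804513111517024931396573627424508627699 / 5003331575039524256145263574609375000000000000000 : ℝ) * ((s - (0 : ℝ)) ^ 4 * ((4761 / 400 : ℝ) - s) ^ 3) := by positivity
  have t5 : 0 ≤ (2645851816735827701157142849812612994949 / 3335554383359682837430175716406250000000000000000 : ℝ) * ((s - (0 : ℝ)) ^ 5 * ((4761 / 400 : ℝ) - s) ^ 2) := by positivity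
  have t6 : 0 ≤ (54798266348572586094025441720546062626261 / 91489491657865586398084819650000000000000000000000 : ℝ) * ((s - (0 : ℝ)) ^ 6 * ((4761 / 400 : ℝ) - s) ^ 1) := by positivity
  have t7 : 0 ≤ (15051965053268289344176422865673321189808719 / 102468230656809456765854998008000000000000000000000000 : ℝ) * ((s - (0 : ℝ)) ^ 7 * ((4761 / 400 : ℝ) - s) ^ 0) := by positivity
  linarith [key, t0, t1, t2, t3, t4, t5, t6, t7]

lemma phi_le_expP_uB (s : ℝ) (h0 : (4761 / 400 : ℝ) ≤ s) (h1 : s ≤ (49 / 4 : ℝ)) :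
    (1 : ℝ) * s ^ 0 + (-145562547386397 / 1000000000000000 : ℝ) * s ^ 1 + (20562547386397 / 3000000000000000 : ℝ) * s ^ 2 + (-18937831704779 / 120000000000000000 : ℝ) * s ^ 3 + (10814253296689 / 5040000000000000000 : ℝ) * s ^ 4 + (-34875666067201 / 1814400000000000000000 : ℝ) * s ^ 5 + (1216453088567 / 9979200000000000000000 : ℝ) * s ^ 6 ≤ (7 / 625 : ℝ) := by
  have ha : 0 ≤ s - (4761 / 400 : ℝ) := by linarith
  have hb : 0 ≤ (49 / 4 : ℝ) - s := by linarith
  have key : -((1 : ℝ) * s ^ 0 + (-145562547386397 / 1000000000000000 : ℝ) * s ^ 1 + (20562547386397 / 3000000000000000 : ℝ) * s ^ 2 + (-18937831704779 / 120000000000000000 : ℝ) * s ^ 3 + (10814253296689 / 5040000000000000000 : ℝ) * s ^ 4 + (-34875666067201 / 1814400000000000000000 : ℝ) * s ^ 5 + (1216453088567 / 9979200000000000000000 : ℝ) * s ^ 6) - (-7 / 625 : ℝ) = (10986723151957571159961303690273 / 888586087701435200000000000000000 : ℝ) * ((s - (4761 / 400 :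 ℝ)) ^ 0 * ((49 / 4 : ℝ) - s) ^ 6) + (16277284334047854891097279060401 / 2221465219253588000000000000000 : ℝ) * ((s - (4761 / 400 : ℝ)) ^ 1 * ((49 / 4 : ℝ) - s) ^ 5) + (1933311584416710176245382554259 / 53315165262086112000000000000 : ℝ) * ((s - (4761 / 400 : ℝ)) ^ 2 * ((49 / 4 : ℝ) - s) ^ 4) + (17142777933705388771709459 / 238014130634313000000000 : ℝ) * ((s - (4761 / 400 : ℝ)) ^ 3 * ((49 / 4 : ℝ) - s) ^ 3) + (32714887693952994077614813 / 456987130817880960000000 : ℝ) * ((s - (4761 / 400 : ℝ)) ^ 4 * ((49 / 4 : ℝ) - s) ^ 2) + (9148441162507679063758489 / 257055261085058040000000 : ℝ) * ((s - (4761 / 400 : ℝ)) ^ 5 * ((49 / 4 : ℝ) - s) ^ 1) + (72781172819081800637033 / 10282210443402321600000 : ℝ) * ((s - (4761 / 400 : ℝ)) ^ 6 * ((49 / 4 : ℝ) - s) ^ 0) := by ring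
  have t0 : 0 ≤ (10986723151957571159961303690273 / 888586087701435200000000000000000 : ℝ) * ((s - (4761 / 400 : ℝ)) ^ 0 * ((49 / 4 : ℝ) - s) ^ 6) := by positivity
  have t1 : 0 ≤ (16277284334047854891097279060401 / 2221465219253588000000000000000 : ℝ) * ((s - (4761 / 400 : ℝ)) ^ 1 * ((49 / 4 : ℝ) - s) ^ 5) := by positivity
  have t2 : 0 ≤ (1933311584416710176245382554259 / 53315165262086112000000000000 : ℝ) * ((s - (4761 / 400 : ℝ)) ^ 2 * ((49 / 4 : ℝ) - s) ^ 4) := by positivity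
  have t3 : 0 ≤ (17142777933705388771709459 / 238014130634313000000000 : ℝ) * ((s - (4761 / 400 : ℝ)) ^ 3 * ((49 / 4 : ℝ) - s) ^ 3) := by positivity
  have t4 : 0 ≤ (32714887693952994077614813 / 456987130817880960000000 : ℝ) * ((s - (4761 / 400 : ℝ)) ^ 4 * ((49 / 4 : ℝ) - s) ^ 2) := by positivity
  have t5 : 0 ≤ (9148441162507679063758489 / 257055261085058040000000 : ℝ) * ((s - (4761 / 400 : ℝ)) ^ 5 * ((49 / 4 : ℝ) - s) ^ 1) := by positivity
  have t6 : 0 ≤ (72781172819081800637033 / 10282210443402321600000 : ℝ) * ((s - (4761 / 400 : ℝ)) ^ 6 * ((49 / 4 : ℝ) - s) ^ 0) := by positivity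
  linarith [key, t0, t1, t2, t3, t4, t5, t6]

lemma phi_le_expP_uC (s : ℝ) (h0 : (49 / 4 : ℝ) ≤ s) (h1 : s ≤ (841 / 25 : ℝ)) :
    (1 : ℝ) * s ^ 0 + (-145562547386397 / 1000000000000000 : ℝ) * s ^ 1 + (20562547386397 / 3000000000000000 : ℝ) * s ^ 2 + (-18937831704779 / 120000000000000000 : ℝ) * s ^ 3 + (10814253296689 / 5040000000000000000 : ℝ) * s ^ 4 + (-34875666067201 / 1814400000000000000000 : ℝ) * s ^ 5 + (1216453088567 / 9979200000000000000000 : ℝ) * s ^ 6 ≤ (-1 / 1000 : ℝ) := by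
  have ha : 0 ≤ s - (49 / 4 : ℝ) := by linarith
  have hb : 0 ≤ (841 / 25 : ℝ) - s := by linarith
  have key : -((1 : ℝ) * s ^ 0 + (-145562547386397 / 1000000000000000 : ℝ) * s ^ 1 + (20562547386397 / 3000000000000000 : ℝ) * s ^ 2 + (-18937831704779 / 120000000000000000 : ℝ) * s ^ 3 + (10814253296689 / 5040000000000000000 : ℝ) * s ^ 4 + (-34875666067201 / 1814400000000000000000 : ℝ) * s ^ 5 + (1216453088567 / 9979200000000000000000 : ℝ) * s ^ 6) - (1 / 1000 : ℝ) = (49749358034896794743 / 18041001734054344391530905600000 : ℝ) * ((s - (49 / 4 : ℝ)) ^ 0 * ((841 / 25 : ℝ) - s) ^ 6) + (586580417233686718160929 / 75170840558559768298045440000000 : ℝ) * ((s - (49 / 4 : ℝ)) ^ 1 * ((841 / 25 : ℝ) - s) ^ 5) + (164124928275423009257581 / 6264236713213314024837120000000 : ℝ) * ((s - (49 / 4 : ℝ)) ^ 2 * ((841 / 25 : ℝ) - s) ^ 4) + (6112680964657355064259447 / 176181657559124456948544000000000 : ℝ) * ((s - (49 / 4 : ℝ)) ^ 3 * ((841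 / 25 : ℝ) - s) ^ 3) + (71168626539133863391793299 / 3211644799254872913124500000000000 : ℝ) * ((s - (49 / 4 : ℝ)) ^ 4 * ((841 / 25 : ℝ) - s) ^ 2) + (581144274632783869341267979 / 89212355534857580920125000000000000 : ℝ) * ((s - (49 / 4 : ℝ)) ^ 5 * ((841 / 25 : ℝ) - s) ^ 1) + (7952967462135577174539674251 / 15054584996507216780271093750000000000 : ℝ) * ((s - (49 / 4 : ℝ)) ^ 6 * ((841 / 25 : ℝ) - s) ^ 0) := by ring
  have t0 : 0 ≤ (49749358034896794743 / 18041001734054344391530905600000 : ℝ) * ((s - (49 / 4 : ℝ)) ^ 0 * ((841 / 25 : ℝ) - s) ^ 6) := by positivity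
  have t1 : 0 ≤ (586580417233686718160929 / 75170840558559768298045440000000 : ℝ) * ((s - (49 / 4 : ℝ)) ^ 1 * ((841 / 25 : ℝ) - s) ^ 5) := by positivity
  have t2 : 0 ≤ (164124928275423009257581 / 6264236713213314024837120000000 : ℝ) * ((s - (49 / 4 : ℝ)) ^ 2 * ((841 / 25 : ℝ) - s) ^ 4) := by positivity
  have t3 : 0 ≤ (6112680964657355064259447 / 176181657559124456948544000000000 : ℝ) * ((s - (49 / 4 : ℝ)) ^ 3 * ((841 / 25 : ℝ) - s) ^ 3) := by positivity
  have t4 : 0 ≤ (71168626539133863391793299 / 3211644799254872913124500000000000 : ℝ) * ((s - (49 / 4 : ℝ)) ^ 4 * ((841 / 25 : ℝ) - s) ^ 2) := by positivity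
  have t5 : 0 ≤ (581144274632783869341267979 / 89212355534857580920125000000000000 : ℝ) * ((s - (49 / 4 : ℝ)) ^ 5 * ((841 / 25 : ℝ) - s) ^ 1) := by positivity
  have t6 : 0 ≤ (7952967462135577174539674251 / 15054584996507216780271093750000000000 : ℝ) * ((s - (49 / 4 : ℝ)) ^ 6 * ((841 / 25 : ℝ) - s) ^ 0) := by positivity
  linarith [key, t0, t1, t2, t3, t4, t5, t6]


lemma phi_le_expP_A (t c : ℝ) (ht : 0 ≤ t) (ht2 : t ≤ 69 / 20) (hc1 : (354437452613603 / 500000000000000 : ℝ) ≤ c)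
    (hc2 : c ≤ (88609363153401 / 125000000000000 : ℝ)) :
    0 ≤ (((1 - 1 * c)) * t ^ 1 / 1 + (-(3 - 4 * c)) * t ^ 3 / 6 + ((15 - 21 * c)) * t ^ 5 / 120 + (-(105 - 148 * c)) * t ^ 7 / 5040 + ((945 - 1333 * c)) * t ^ 9 / 362880 + (-(10395 - 14664 * c)) * t ^ 11 / 39916800) - ((1 - c) * t + 4 * (374 / 100000) * t ^ 3 + 6 * (188 / 1000000) * t ^ 5 + 8 * (113 / 10000000) * t ^ 7 + 10 * (737 / 1000000000) * t ^ 9) * (((1 - 0 * c)) * t ^ 0 / 1 + (-(1 - 1 * c)) * t ^ 2 / 2 + ((3 - 4 * c)) * t ^ 4 / 24 + (-(15 - 21 * c)) * t ^ 6 / 720 + ((105 - 148 * c)) * t ^ 8 / 40320) := by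
  set d := c - (354437452613603 / 500000000000000 : ℝ) with hd
  have hcd : c = (354437452613603 / 500000000000000 : ℝ) + d := by rw [hd]; ring
  have hd0 : 0 ≤ d := by rw [hd]; linarith
  have hd1 : d ≤ (1 / 500000000000000 : ℝ) := by rw [hd]; linarith
  set s := t ^ 2 with hs
  have hs0 : 0 ≤ s := by positivity
  have hs1 : s ≤ (4761 / 400 : ℝ) := by rw [hs]; nlinarith
  have hs2 : s ≤ 12 := hs1.trans (by norm_num)
  have hq := phi_le_expP_q0 s (by linarith) hs1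
  have x1 : d * s ≤ (1 / 500000000000000 : ℝ) * 12 := mul_le_mul hd1 hs2 hs0 (by norm_num)
  have x1' : 0 ≤ d * s := by positivity
  have x3 : d * s ^ 3 ≤ (1 / 500000000000000 : ℝ) * 12 ^ 3 := mul_le_mul hd1 (pow_le_pow_left₀ hs0 hs2 3) (by positivity) (by norm_num)
  have hdd : d ^ 2 ≤ (1 / 250000000000000000000000000000 : ℝ) := by nlinarith
  have y1 : d ^ 2 * s ≤ (1 / 250000000000000000000000000000 : ℝ) * 12 := mul_le_mul hdd hs2 hs0 (by norm_num)
  have y3 : d ^ 2 * s ^ 3 ≤ (1 / 250000000000000000000000000000 : ℝ) * 12 ^ 3 := mul_le_mul hdd (pow_le_pow_left₀ hs0 hs2 3) (by positivity) (by norm_num)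
  have p0 : 0 ≤ d * s ^ 0 := by positivity
  have p1 : 0 ≤ d * s ^ 1 := by positivity
  have p2 : 0 ≤ d * s ^ 2 := by positivity
  have p3 : 0 ≤ d * s ^ 3 := by positivity
  have p4 : 0 ≤ d * s ^ 4 := by positivity
  have p5 : 0 ≤ d * s ^ 5 := by positivity
  have p6 : 0 ≤ d * s ^ 6 := by positivity
  have p7 : 0 ≤ d * s ^ 7 := by positivity
  have r0 : 0 ≤ d ^ 2 * s ^ 0 := by positivity
  have r1 : 0 ≤ d ^ 2 * s ^ 1 := by positivity
  have r2 : 0 ≤ d ^ 2 * s ^ 2 := by positivity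
  have r3 : 0 ≤ d ^ 2 * s ^ 3 := by positivity
  have key : (((1 - 1 * c)) * t ^ 1 / 1 + (-(3 - 4 * c)) * t ^ 3 / 6 + ((15 - 21 * c)) * t ^ 5 / 120 + (-(105 - 148 * c)) * t ^ 7 / 5040 + ((945 - 1333 * c)) * t ^ 9 / 362880 + (-(10395 - 14664 * c)) * t ^ 11 / 39916800) - ((1 - c) * t + 4 * (374 / 100000) * t ^ 3 + 6 * (188 / 1000000) * t ^ 5 + 8 * (113 / 10000000) * t ^ 7 + 10 * (737 / 1000000000) * t ^ 9) * (((1 - 0 * c)) * t ^ 0 / 1 + (-(1 - 1 * c)) * t ^ 2 / 2 + ((3 - 4 * c)) * t ^ 4 / 24 + (-(15 - 21 * c)) * t ^ 6 / 720 + ((105 - 148 * c)) * t ^ 8 / 40320) = t ^ 3 * (((270832057216286861924827 / 1500000000000000000000000000000 : ℝ) * s ^ 0 + (541387630575528126452797 / 500000000000000000000000000000 : ℝ) * s ^ 1 + (43452541123295816234316523 / 1260000000000000000000000000000000 : ℝ) * s ^ 2 + (-45988589828098722524807971 / 3240000000000000000000000000000000 : ℝ) * s ^ 3 + (124247539187371233331 / 207900000000000000000000000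 : ℝ) * s ^ 4 + (-3248209250356223 / 84000000000000000000000 : ℝ) * s ^ 5 + (244220396393830303 / 252000000000000000000000000 : ℝ) * s ^ 6 + (-7970104679659793 / 504000000000000000000000000 : ℝ) * s ^ 7) + ((563312357840809 / 1500000000000000 : ℝ) * (d * s ^ 0) + (-190657452613603 / 1500000000000000 : ℝ) * (d * s ^ 1) + (28533265534199641 / 1260000000000000000 : ℝ) * (d * s ^ 2) + (-65685007720329799 / 22680000000000000000 : ℝ) * (d * s ^ 3) + (166635377 / 415800000000 : ℝ) * (d * s ^ 4) + (153 / 56000000 : ℝ) * (d * s ^ 5) + (58901 / 504000000000 : ℝ) * (d * s ^ 6) + (27269 / 1008000000000 : ℝ) * (d * s ^ 7)) + ((1 / 2 : ℝ) * (d ^ 2 * s ^ 0) + (-1 / 6 : ℝ) * (d ^ 2 * s ^ 1) + (7 / 240 : ℝ) * (d ^ 2 * s ^ 2) + (-37 / 10080 : ℝ) * (d ^ 2 * s ^ 3))) := by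
    rw [hcd, hs]; ring
  rw [key]
  apply mul_nonneg (by positivity)
  norm_num at *
  linarith


lemma phi_le_expP_B (t c : ℝ) (ht : 69 / 20 ≤ t) (ht2 : t ≤ 7 / 2) (hc1 : (354437452613603 / 500000000000000 : ℝ) ≤ c)
    (hc2 : c ≤ (88609363153401 / 125000000000000 : ℝ)) :
    ((1 - 0 * c)) * t ^ 0 / 1 + (-(1 - 1 * c)) * t ^ 2 / 2 + ((3 - 4 * c)) * t ^ 4 / 24 + (-(15 - 21 * c)) * t ^ 6 / 720 + ((105 - 148 * c)) * t ^ 8 / 40320 + (-(945 - 1333 * c)) * t ^ 10 / 3628800 + ((10395 - 14664 * c)) * t ^ 12 / 479001600 ≤ (1121 / 100000 : ℝ) := by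
  set d := c - (354437452613603 / 500000000000000 : ℝ) with hd
  have hcd : c = (354437452613603 / 500000000000000 : ℝ) + d := by rw [hd]; ring
  have hd0 : 0 ≤ d := by rw [hd]; linarith
  have hd1 : d ≤ (1 / 500000000000000 : ℝ) := by rw [hd]; linarith
  set s := t ^ 2 with hs
  have hs0 : 0 ≤ s := by positivity
  have hs1 : (4761 / 400 : ℝ) ≤ s := by rw [hs]; nlinarith
  have hs1' : s ≤ (49 / 4 : ℝ) := by rw [hs]; nlinarith
  have hs2 : s ≤ 34 := hs1'.trans (by norm_num)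
  have hq := phi_le_expP_uB s hs1 hs1'
  have p0 : 0 ≤ d * s ^ 0 := by positivity
  have x0 : d * s ^ 0 ≤ (1 / 500000000000000 : ℝ) * 34 ^ 0 := mul_le_mul hd1 (pow_le_pow_left₀ hs0 hs2 0) (by positivity) (by norm_num)
  have p1 : 0 ≤ d * s ^ 1 := by positivity
  have x1 : d * s ^ 1 ≤ (1 / 500000000000000 : ℝ) * 34 ^ 1 := mul_le_mul hd1 (pow_le_pow_left₀ hs0 hs2 1) (by positivity) (by norm_num)
  have p2 : 0 ≤ d * s ^ 2 := by positivity
  have x2 : d * s ^ 2 ≤ (1 / 500000000000000 : ℝ) * 34 ^ 2 := mul_le_mul hd1 (pow_le_pow_left₀ hs0 hs2 2) (by positivity) (by norm_num)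
  have p3 : 0 ≤ d * s ^ 3 := by positivity
  have x3 : d * s ^ 3 ≤ (1 / 500000000000000 : ℝ) * 34 ^ 3 := mul_le_mul hd1 (pow_le_pow_left₀ hs0 hs2 3) (by positivity) (by norm_num)
  have p4 : 0 ≤ d * s ^ 4 := by positivity
  have x4 : d * s ^ 4 ≤ (1 / 500000000000000 : ℝ) * 34 ^ 4 := mul_le_mul hd1 (pow_le_pow_left₀ hs0 hs2 4) (by positivity) (by norm_num)
  have p5 : 0 ≤ d * s ^ 5 := by positivity
  have x5 : d * s ^ 5 ≤ (1 / 500000000000000 : ℝ) * 34 ^ 5 := mul_le_mul hd1 (pow_le_pow_left₀ hs0 hs2 5) (by positivity) (by norm_num)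
  have p6 : 0 ≤ d * s ^ 6 := by positivity
  have x6 : d * s ^ 6 ≤ (1 / 500000000000000 : ℝ) * 34 ^ 6 := mul_le_mul hd1 (pow_le_pow_left₀ hs0 hs2 6) (by positivity) (by norm_num)
  have key : ((1 - 0 * c)) * t ^ 0 / 1 + (-(1 - 1 * c)) * t ^ 2 / 2 + ((3 - 4 * c)) * t ^ 4 / 24 + (-(15 - 21 * c)) * t ^ 6 / 720 + ((105 - 148 * c)) * t ^ 8 / 40320 + (-(945 - 1333 * c)) * t ^ 10 / 3628800 + ((10395 - 14664 * c)) * t ^ 12 / 479001600 = ((1 : ℝ) * s ^ 0 + (-145562547386397 / 1000000000000000 : ℝ) * s ^ 1 + (20562547386397 / 3000000000000000 : ℝ) * s ^ 2 + (-18937831704779 / 120000000000000000 : ℝ) * s ^ 3 + (10814253296689 / 5040000000000000000 : ℝ) * s ^ 4 + (-34875666067201 / 1814400000000000000000 : ℝ) * s ^ 5 + (1216453088567 / 9979200000000000000000 : ℝ) * s ^ 6) + ((1 / 2 : ℝ) * (d * s ^ 1) + (-1 / 6 : ℝ) * (d * s ^ 2) + (7 / 240 : ℝ) * (d * s ^ 3) + (-37 / 10080 : ℝ) * (d * s ^ 4) + (1333 / 3628800 : ℝ) * (d * s ^ 5)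 + (-611 / 19958400 : ℝ) * (d * s ^ 6)) := by
    rw [hcd, hs]; ring
  rw [key]
  norm_num at *
  linarith


lemma phi_le_expP_C (t c : ℝ) (ht : 7 / 2 ≤ t) (ht2 : t ≤ 29 / 5) (hc1 : (354437452613603 / 500000000000000 : ℝ) ≤ c)
    (hc2 : c ≤ (88609363153401 / 125000000000000 : ℝ)) :
    ((1 - 0 * c)) * t ^ 0 / 1 + (-(1 - 1 * c)) * t ^ 2 / 2 + ((3 - 4 * c)) * t ^ 4 / 24 + (-(15 - 21 * c)) * t ^ 6 / 720 + ((105 - 148 * c)) * t ^ 8 / 40320 + (-(945 - 1333 * c)) * t ^ 10 / 3628800 + ((10395 - 14664 * c)) * t ^ 12 / 479001600 ≤ (0 : ℝ) := by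
  set d := c - (354437452613603 / 500000000000000 : ℝ) with hd
  have hcd : c = (354437452613603 / 500000000000000 : ℝ) + d := by rw [hd]; ring
  have hd0 : 0 ≤ d := by rw [hd]; linarith
  have hd1 : d ≤ (1 / 500000000000000 : ℝ) := by rw [hd]; linarith
  set s := t ^ 2 with hs
  have hs0 : 0 ≤ s := by positivity
  have hs1 : (49 / 4 : ℝ) ≤ s := by rw [hs]; nlinarith
  have hs1' : s ≤ (841 / 25 : ℝ) := by rw [hs]; nlinarith
  have hs2 : s ≤ 34 := hs1'.trans (by norm_num)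
  have hq := phi_le_expP_uC s hs1 hs1'
  have p0 : 0 ≤ d * s ^ 0 := by positivity
  have x0 : d * s ^ 0 ≤ (1 / 500000000000000 : ℝ) * 34 ^ 0 := mul_le_mul hd1 (pow_le_pow_left₀ hs0 hs2 0) (by positivity) (by norm_num)
  have p1 : 0 ≤ d * s ^ 1 := by positivity
  have x1 : d * s ^ 1 ≤ (1 / 500000000000000 : ℝ) * 34 ^ 1 := mul_le_mul hd1 (pow_le_pow_left₀ hs0 hs2 1) (by positivity) (by norm_num)
  have p2 : 0 ≤ d * s ^ 2 := by positivity
  have x2 : d * s ^ 2 ≤ (1 / 500000000000000 : ℝ) * 34 ^ 2 := mul_le_mul hd1 (pow_le_pow_left₀ hs0 hs2 2) (by positivity) (by norm_num)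
  have p3 : 0 ≤ d * s ^ 3 := by positivity
  have x3 : d * s ^ 3 ≤ (1 / 500000000000000 : ℝ) * 34 ^ 3 := mul_le_mul hd1 (pow_le_pow_left₀ hs0 hs2 3) (by positivity) (by norm_num)
  have p4 : 0 ≤ d * s ^ 4 := by positivity
  have x4 : d * s ^ 4 ≤ (1 / 500000000000000 : ℝ) * 34 ^ 4 := mul_le_mul hd1 (pow_le_pow_left₀ hs0 hs2 4) (by positivity) (by norm_num)
  have p5 : 0 ≤ d * s ^ 5 := by positivity
  have x5 : d * s ^ 5 ≤ (1 / 500000000000000 : ℝ) * 34 ^ 5 := mul_le_mul hd1 (pow_le_pow_left₀ hs0 hs2 5) (by positivity) (by norm_num)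
  have p6 : 0 ≤ d * s ^ 6 := by positivity
  have x6 : d * s ^ 6 ≤ (1 / 500000000000000 : ℝ) * 34 ^ 6 := mul_le_mul hd1 (pow_le_pow_left₀ hs0 hs2 6) (by positivity) (by norm_num)
  have key : ((1 - 0 * c)) * t ^ 0 / 1 + (-(1 - 1 * c)) * t ^ 2 / 2 + ((3 - 4 * c)) * t ^ 4 / 24 + (-(15 - 21 * c)) * t ^ 6 / 720 + ((105 - 148 * c)) * t ^ 8 / 40320 + (-(945 - 1333 * c)) * t ^ 10 / 3628800 + ((10395 - 14664 * c)) * t ^ 12 / 479001600 = ((1 : ℝ) * s ^ 0 + (-145562547386397 / 1000000000000000 : ℝ) * s ^ 1 + (20562547386397 / 3000000000000000 : ℝ) * s ^ 2 + (-18937831704779 / 120000000000000000 : ℝ) * s ^ 3 + (10814253296689 / 5040000000000000000 : ℝ) * s ^ 4 + (-34875666067201 / 1814400000000000000000 : ℝ) * s ^ 5 + (1216453088567 / 9979200000000000000000 : ℝ) * s ^ 6) + ((1 / 2 : ℝ) * (d * s ^ 1) + (-1 / 6 : ℝ) * (d * s ^ 2) + (7 / 240 : ℝ) * (d * s ^ 3) + (-37 / 10080 : ℝ) * (d * s ^ 4) + (1333 / 3628800 : ℝ) * (d * s ^ 5)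 + (-611 / 19958400 : ℝ) * (d * s ^ 6)) := by
    rw [hcd, hs]; ring
  rw [key]
  norm_num at *
  linarith

/-- `phi ≤ exp (-PP)` on `[0, 5.8]` -/
theorem phi_le_expP
    (hz : phi 0 = 1)
    (hd : ∀ t : ℝ, HasDerivAt phi (-(∫ x in (-1 : ℝ)..1, w x * x * Real.sin (t * x)) / m0) t)
    (hT1 : ∀ (K : ℕ) (t : ℝ), phi t ≤
      ∑ k ∈ Finset.range (2 * K + 1), (-1) ^ k * mom k * t ^ (2 * k) / (2 * k).factorial)
    (hT2 : ∀ (K : ℕ) (t : ℝ),
      ∑ k ∈ Finset.range (2 * K + 2), (-1) ^ k * mom k * t ^ (2 * k) / (2 * k).factorial ≤ phi t)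
    (hD1 : ∀ (K : ℕ) (t : ℝ), 0 ≤ t →
      ∑ k ∈ Finset.range (2 * K + 2), (-1) ^ k * mom (k + 1) * t ^ (2 * k + 1) / (2 * k + 1).factorial
        ≤ (∫ x in (-1 : ℝ)..1, w x * x * Real.sin (t * x)) / m0)
    (hD2 : ∀ (K : ℕ) (t : ℝ), 0 ≤ t →
      (∫ x in (-1 : ℝ)..1, w x * x * Real.sin (t * x)) / m0 ≤
      ∑ k ∈ Finset.range (2 * K + 1), (-1) ^ k * mom (k + 1) * t ^ (2 * k + 1) / (2 * k + 1).factorial)
    (hc1 : (0.708874905227206 : ℝ) ≤ cc) (hc2 : cc ≤ (0.708874905227208 : ℝ)) :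
    ∀ t : ℝ, 0 ≤ t → t ≤ 29 / 5 → phi t ≤ Real.exp (-(PP t)) := by
  have mm0 : mom 0 = 1 - 0 * cc := by simp [mom]
  have mm1 : mom 1 = 1 - 1 * cc := by rw [mom, mm0]; push_cast; ring
  have mm2 : mom 2 = 3 - 4 * cc := by rw [mom, mm1]; push_cast; ring
  have mm3 : mom 3 = 15 - 21 * cc := by rw [mom, mm2]; push_cast; ring
  have mm4 : mom 4 = 105 - 148 * cc := by rw [mom, mm3]; push_cast; ring
  have mm5 : mom 5 = 945 - 1333 * cc := by rw [mom, mm4]; push_cast; ring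
  have mm6 : mom 6 = 10395 - 14664 * cc := by rw [mom, mm5]; push_cast; ring
  have mm7 : mom 7 = 135135 - 190633 * cc := by rw [mom, mm6]; push_cast; ring
  have e1 : ∀ t : ℝ, ∑ k ∈ Finset.range (2 * 2 + 1), (-1) ^ k * mom k * t ^ (2 * k) / (2 * k).factorial
      = ((1 - 0 * cc)) * t ^ 0 / 1 + (-(1 - 1 * cc)) * t ^ 2 / 2 + ((3 - 4 * cc)) * t ^ 4 / 24 + (-(15 - 21 * cc)) * t ^ 6 / 720 + ((105 - 148 * cc)) * t ^ 8 / 40320 := by
    intro t
    simp only [Finset.sum_range_succ, Finset.sum_range_zero, mm0, mm1, mm2, mm3, mm4, Nat.factorial, Nat.reduceMul, Nat.reduceAdd]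
    push_cast
    ring
  have e2 : ∀ t : ℝ, ∑ k ∈ Finset.range (2 * 3 + 1), (-1) ^ k * mom k * t ^ (2 * k) / (2 * k).factorial
      = ((1 - 0 * cc)) * t ^ 0 / 1 + (-(1 - 1 * cc)) * t ^ 2 / 2 + ((3 - 4 * cc)) * t ^ 4 / 24 + (-(15 - 21 * cc)) * t ^ 6 / 720 + ((105 - 148 * cc)) * t ^ 8 / 40320 + (-(945 - 1333 * cc)) * t ^ 10 / 3628800 + ((10395 - 14664 * cc)) * t ^ 12 / 479001600 := by
    intro t
    simp only [Finset.sum_range_succ, Finset.sum_range_zero, mm0, mm1, mm2, mm3, mm4, mm5, mm6, Nat.factorial, Nat.reduceMul, Nat.reduceAdd]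
    push_cast
    ring
  have e3 : ∀ t : ℝ, ∑ k ∈ Finset.range (2 * 2 + 2), (-1) ^ k * mom (k + 1) * t ^ (2 * k + 1) / (2 * k + 1).factorial
      = ((1 - 1 * cc)) * t ^ 1 / 1 + (-(3 - 4 * cc)) * t ^ 3 / 6 + ((15 - 21 * cc)) * t ^ 5 / 120 + (-(105 - 148 * cc)) * t ^ 7 / 5040 + ((945 - 1333 * cc)) * t ^ 9 / 362880 + (-(10395 - 14664 * cc)) * t ^ 11 / 39916800 := by
    intro t
    simp only [Finset.sum_range_succ, Finset.sum_range_zero, mm1, mm2, mm3, mm4, mm5, mm6, Nat.factorial, Nat.reduceMul, Nat.reduceAdd]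
    push_cast
    ring
  have hc1' : (354437452613603 / 500000000000000 : ℝ) ≤ cc := by
    refine le_trans (le_of_eq ?_) hc1
    norm_num
  have hc2' : cc ≤ (88609363153401 / 125000000000000 : ℝ) := by
    refine le_trans hc2 (le_of_eq ?_)
    norm_num
  -- part A
  have hA : ∀ t : ℝ, 0 ≤ t → t ≤ 69 / 20 → phi t ≤ Real.exp (-(PP t)) := by
    have hPP : ∀ t : ℝ, HasDerivAt PP ((1 - cc) * t + 4 * (374 / 100000) * t ^ 3 + 6 * (188 / 1000000) * t ^ 5 + 8 * (113 / 10000000) * t ^ 7 + 10 * (737 / 1000000000) * t ^ 9) t := by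
      intro t
      have h2 := (hasDerivAt_pow 2 t).const_mul ((1 - cc) / 2)
      have h4 := (hasDerivAt_pow 4 t).const_mul (374 / 100000 : ℝ)
      have h6 := (hasDerivAt_pow 6 t).const_mul (188 / 1000000 : ℝ)
      have h8 := (hasDerivAt_pow 8 t).const_mul (113 / 10000000 : ℝ)
      have h10 := (hasDerivAt_pow 10 t).const_mul (737 / 1000000000 : ℝ)
      have := (((h2.add h4).add h6).add h8).add h10
      refine HasDerivAt.congr_deriv this ?_
      push_cast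
      ring
    have hE : ∀ t : ℝ, HasDerivAt (fun t => phi t * Real.exp (PP t))
        ((-(∫ x in (-1 : ℝ)..1, w x * x * Real.sin (t * x)) / m0) * Real.exp (PP t)
          + phi t * (Real.exp (PP t) * ((1 - cc) * t + 4 * (374 / 100000) * t ^ 3 + 6 * (188 / 1000000) * t ^ 5 + 8 * (113 / 10000000) * t ^ 7 + 10 * (737 / 1000000000) * t ^ 9))) t := by
      intro t
      exact (hd t).mul (hPP t).exp
    have hanti : AntitoneOn (fun t => phi t * Real.exp (PP t)) (Set.Icc 0 (69 / 20)) := by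
      apply antitoneOn_of_deriv_nonpos (convex_Icc _ _)
      · exact fun t _ => (hE t).continuousAt.continuousWithinAt
      · exact fun t _ => (hE t).differentiableAt.differentiableWithinAt
      · intro t ht
        rw [interior_Icc] at ht
        rw [(hE t).deriv]
        have h1 := hT1 2 t
        have h2 := hD1 2 t ht.1.le
        rw [e1] at h1
        rw [e3] at h2
        have h3 := phi_le_expP_A t cc ht.1.le ht.2.le hc1' hc2'
        have hpos : 0 ≤ (1 - cc) * t + 4 * (374 / 100000) * t ^ 3 + 6 * (188 / 1000000) * t ^ 5 + 8 * (113 / 10000000) * t ^ 7 + 10 * (737 / 1000000000) * t ^ 9 := by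
          have h0 := ht.1.le
          have : 0 ≤ 1 - cc := by linarith
          positivity
        have h4 := mul_le_mul_of_nonneg_left h1 hpos
        have h5 : ((1 - cc) * t + 4 * (374 / 100000) * t ^ 3 + 6 * (188 / 1000000) * t ^ 5 + 8 * (113 / 10000000) * t ^ 7 + 10 * (737 / 1000000000) * t ^ 9) * phi t
            ≤ (∫ x in (-1 : ℝ)..1, w x * x * Real.sin (t * x)) / m0 := by
          refine h4.trans (le_trans ?_ h2)
          linarith [h3]
        have h6 := Real.exp_pos (PP t)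
        have h7 := mul_le_mul_of_nonneg_left h5 h6.le
        rw [neg_div]
        linarith [h7]
    intro t ht0 ht1
    have h1 := hanti (Set.left_mem_Icc.2 (by norm_num)) ⟨ht0, ht1⟩ ht0
    simp only [hz, one_mul] at h1
    have h2 : PP 0 = 0 := by simp [PP]
    rw [h2, Real.exp_zero] at h1
    rw [Real.exp_neg, ← one_div, le_div_iff₀ (Real.exp_pos _)]
    exact h1
  intro t ht0 ht1
  by_cases hA1 : t ≤ 69 / 20
  · exact hA t ht0 hA1
  push Not at hA1
  by_cases hB1 : t ≤ 7 / 2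
  · have h1 := hT1 3 t
    rw [e2] at h1
    have h2 := phi_le_expP_B t cc hA1.le hB1 hc1' hc2'
    have h3 : PP t ≤ 4 := by
      have p (n : ℕ) : t ^ n ≤ (7 / 2) ^ n := pow_le_pow_left₀ ht0 hB1 n
      have p2 := p 2
      have p4 := p 4
      have p6 := p 6
      have p8 := p 8
      have p10 := p 10
      have q2 : (1 - cc) / 2 * t ^ 2 ≤ 3 / 20 * (7 / 2) ^ 2 := by
        apply mul_le_mul _ p2 (by positivity) (by norm_num)
        norm_num at hc1
        linarith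
      unfold PP
      norm_num at *
      linarith
    have h4 : Real.exp (-4) ≤ Real.exp (-(PP t)) := Real.exp_le_exp.2 (by linarith)
    have h5 : (1121 / 100000 : ℝ) ≤ Real.exp (-4) := by
      have h6 : Real.exp 4 = Real.exp 1 ^ 4 := by rw [← Real.exp_nat_mul]; norm_num
      have h7 : Real.exp 4 ≤ 80 := by
        rw [h6]
        have h8 := Real.exp_one_lt_d9
        have h9 : Real.exp 1 ≤ 2.72 := by linarith
        calc Real.exp 1 ^ 4 ≤ 2.72 ^ 4 := pow_le_pow_left₀ (Real.exp_pos 1).le h9 4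
          _ ≤ 80 := by norm_num
      rw [Real.exp_neg]
      have h10 : (80 : ℝ)⁻¹ ≤ (Real.exp 4)⁻¹ := inv_anti₀ (Real.exp_pos 4) h7
      refine le_trans ?_ h10
      norm_num
    linarith
  · push Not at hB1
    have h1 := hT1 3 t
    rw [e2] at h1
    have h2 := phi_le_expP_C t cc hB1.le ht1 hc1' hc2'
    have h3 := Real.exp_pos (-(PP t))
    linarith

end
end CG3
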