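import Pool.Agent.CG3.Base2

open MeasureTheory ProbabilityTheory
open scoped BigOperators

namespace CG3
noncomputable section

/-- evaluation of an integer polynomial -/
def phs_evI : List ℤ → ℝ → ℝ
  | [], _ => 0
  | (a :: p), x => a + x * phs_evI p x

def phs_addL : List ℤ → List ℤ → List ℤ
  | [], q => q
  | (a :: p), [] => a :: p
  | (a :: p), (b :: q) => (a + b) :: phs_addL p q

def phs_scL (m : ℤ) : List ℤ → List ℤ
  | [] => []
  | (a :: p) => (m * a) :: phs_scL m p

def phs_shL (m : ℤ) : List ℤ → List ℤ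
  | [] => []
  | (a :: p) => phs_addL (a :: phs_shL m p) (phs_scL m (phs_shL m p))

def phs_absI (a : ℤ) : ℤ := if 0 ≤ a then a else -a

def phs_bdL (r : ℤ) : List ℤ → ℤ
  | [] => 0
  | (a :: p) => phs_absI a + r * phs_bdL r p

def phs_chkL (M r m : ℤ) (p : List ℤ) : Bool :=
  match phs_shL m p with
  | [] => decide (0 ≤ M)
  | (c :: q) => decide (c + r * phs_bdL r q ≤ M)

theorem phs_evI_addL (p q : List ℤ) (x : ℝ) : phs_evI (phs_addL p q) x = phs_evI p x + phs_evI q x := by
  induction p generalizing q with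
  | nil => simp [phs_addL, phs_evI]
  | cons a p ih =>
    cases q with
    | nil => simp [phs_addL, phs_evI]
    | cons b q =>
      simp only [phs_addL, phs_evI, ih]
      push_cast
      ring

theorem phs_evI_scL (m : ℤ) (p : List ℤ) (x : ℝ) : phs_evI (phs_scL m p) x = m * phs_evI p x := by
  induction p with
  | nil => simp [phs_scL, phs_evI]
  | cons a p ih =>
    simp only [phs_scL, phs_evI, ih]
    push_cast
    ring

theorem phs_evI_shL (m : ℤ) (p : List ℤ) (y : ℝ) : phs_evI (phs_shL m p) y = phs_evI p (m + y) := by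
  induction p with
  | nil => simp [phs_shL, phs_evI]
  | cons a p ih =>
    simp only [phs_shL, phs_evI_addL, phs_evI_scL, phs_evI, ih]
    ring

theorem phs_evI_bdL (r : ℤ) (hr : 0 ≤ r) (p : List ℤ) (y : ℝ) (hy : |y| ≤ r) :
    |phs_evI p y| ≤ phs_bdL r p := by
  induction p with
  | nil => simp [phs_evI, phs_bdL]
  | cons a p ih =>
    simp only [phs_evI, phs_bdL]
    push_cast
    refine (abs_add_le _ _).trans ?_
    have h1 : |(a : ℝ)| = (phs_absI a : ℝ) := by
      unfold phs_absI
      split_ifs with h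
      · rw [abs_of_nonneg (by exact_mod_cast h)]
      · rw [abs_of_neg (by exact_mod_cast not_le.1 h)]
        push_cast
        ring
    rw [h1, abs_mul]
    have hr' : (0 : ℝ) ≤ r := by exact_mod_cast hr
    have : |y| * |phs_evI p y| ≤ r * phs_bdL r p := mul_le_mul hy ih (abs_nonneg _) hr'
    linarith

theorem phs_chkL_spec (M r m : ℤ) (hr : 0 ≤ r) (p : List ℤ) (h : phs_chkL M r m p = true) (x : ℝ)
    (hx : |x - m| ≤ r) : phs_evI p x ≤ M := by
  have e : phs_evI p x = phs_evI (phs_shL m p) (x - m) := by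
    rw [phs_evI_shL]
    congr 1
    ring
  rw [e]
  unfold phs_chkL at h
  cases hq : phs_shL m p with
  | nil =>
    rw [hq] at h
    simp only [decide_eq_true_eq] at h
    simp only [phs_evI]
    exact_mod_cast h
  | cons c q =>
    rw [hq] at h
    simp only [decide_eq_true_eq] at h
    simp only [phs_evI]
    have h1 := phs_evI_bdL r hr q (x - m) hx
    have hr' : (0 : ℝ) ≤ r := by exact_mod_cast hr
    have h2 : (x - m) * phs_evI q (x - m) ≤ r * phs_bdL r q := by
      refine (le_abs_self _).trans ?_
      rw [abs_mul]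
      exact mul_le_mul hx h1 (abs_nonneg _) hr'
    have h3 : (c : ℝ) + r * phs_bdL r q ≤ M := by exact_mod_cast h
    linarith

def phs_chkN (M r lo : ℤ) (p : List ℤ) : ℕ → Bool
  | 0 => true
  | (n + 1) => phs_chkN M r lo p n && phs_chkL M r (lo + r + 2 * r * n) p

theorem phs_chkN_spec (M r lo : ℤ) (hr : 0 ≤ r) (p : List ℤ) (n : ℕ) (h : phs_chkN M r lo p (n + 1) = true)
    (x : ℝ) (h1 : (lo : ℝ) ≤ x) (h2 : x ≤ lo + 2 * r * (n + 1)) : phs_evI p x ≤ M := by
  induction n with
  | zero =>
    simp only [phs_chkN, Bool.true_and] at h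
    apply phs_chkL_spec M r _ hr p h x
    push_cast
    rw [abs_le]
    constructor <;> push_cast at h2 ⊢ <;> linarith
  | succ n ih =>
    rw [phs_chkN, Bool.and_eq_true] at h
    by_cases hx : x ≤ lo + 2 * r * (n + 1)
    · exact ih h.1 hx
    · push Not at hx
      apply phs_chkL_spec M r _ hr p h.2 x
      push_cast at h2 ⊢
      rw [abs_le]
      constructor <;> linarith

def phs_PU1 : List ℤ := [81842841814930553085241614925824000000000000000000000, -2978313134980805620992549624868565449055404032000000, 35060360688685486423229096536380454087950336000000, -201813276631771393561168563866644866347827200000, 685972549221469706197036407368928618086400000, -1536279437421780592177351257935094743040000, 2435680906296637218186183543556669440000, -2875976751647196040629695608258560000, 2626381383542604803162643628032000, -1909908626862294380791332864000, 1132008764063405566309171200, -557540570138659469107200, 234256217419318348800, -108825915624836256, 262785055708832]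
def phs_PU2 : List ℤ := [81842841814930553085241614925824000000000000000000000, -2978313134980785160282095892230294138651672576000000, 35060360688683781364024618816524511554306048000000, -201813276631696797220972663622947380500889600000, 685972549219122712500396688817222005555200000, -1536279437363061699579364305430873374720000, 2435680905073243527353133418068049920000, -2875976729800765533480464500654080000, 2626381042192008754564039704576000, -1909903885881696177712791552000, 1131949501805863864605081600, -556867135393832683929600, 227241272160690278400, -41374518907252608, -339459557841024]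
def phs_PL1 : List ℤ := [-284813089515958324736640819941867520000000000000000000000, 10364529709733203561054072694542607762712806031360000000, -122010055196625492752837255946603980226067169280000000, 702310202678564449592866602255924134890438656000000, -2387184471290714577565686697643871590940672000000, 5346252442227796460777182377614129705779200000, -8476169553912297519287918731577209651200000, 10008399095732242221391340716739788800000, -9139807214728264715005999825551360000, 6646482021480784445153838366720000, -3939390498940651370755915776000, 1940241184082534952493056000, -815211636619227853824000, 378714186374430170880, -914491993866735360, 6911891710328922]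
def phs_PL2 : List ℤ := [-284813089515958324736640819941867520000000000000000000000, 10364529709733132357781693704961423602507820564480000000, -122010055196619559146805673481505300208985047040000000, 702310202678304854328984869407856884143095808000000, -2387184471282547039501380477083932579332096000000, 5346252442023454714536187782899439344025600000, -8476169549654887475188904294876813721600000, 10008399019706664056512016462276198400000, -9139806026828190465882858171924480000, 6646465522868302698440514600960000, -3939184266284406248825683968000, 1937897631170537740075008000, -790799627119202168832000, 143983325797239075840, 1181319261286763520, -10553202082616904]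

def phs_alU (t : ℝ) : ℝ := (1) * t ^ 0 / 1 + (-1) * t ^ 2 / 2 + (3) * t ^ 4 / 24 + (-15) * t ^ 6 / 720 + (105) * t ^ 8 / 40320 + (-945) * t ^ 10 / 3628800 + (10395) * t ^ 12 / 479001600 + (-135135) * t ^ 14 / 87178291200 + (2027025) * t ^ 16 / 20922789888000 + (-34459425) * t ^ 18 / 6402373705728000 + (654729075) * t ^ 20 / 2432902008176640000 + (-13749310575) * t ^ 22 / 1124000727777607680000 + (316234143225) * t ^ 24 / 620448401733239439360000 + (-7905853580625) * t ^ 26 / 403291461126605635584000000 + (213458046676875) * t ^ 28 / 304888344611713860501504000000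
def phs_beU (t : ℝ) : ℝ := (0) * t ^ 0 / 1 + (1) * t ^ 2 / 2 + (-4) * t ^ 4 / 24 + (21) * t ^ 6 / 720 + (-148) * t ^ 8 / 40320 + (1333) * t ^ 10 / 3628800 + (-14664) * t ^ 12 / 479001600 + (190633) * t ^ 14 / 87178291200 + (-2859496) * t ^ 16 / 20922789888000 + (48611433) * t ^ 18 / 6402373705728000 + (-923617228) * t ^ 20 / 2432902008176640000 + (19395961789) * t ^ 22 / 1124000727777607680000 + (-446107121148) * t ^ 24 / 620448401733239439360000 + (11152678028701) * t ^ 26 / 403291461126605635584000000 + (-301122306774928) * t ^ 28 / 304888344611713860501504000000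
def phs_alL (t : ℝ) : ℝ := (1) * t ^ 0 / 1 + (-1) * t ^ 2 / 2 + (3) * t ^ 4 / 24 + (-15) * t ^ 6 / 720 + (105) * t ^ 8 / 40320 + (-945) * t ^ 10 / 3628800 + (10395) * t ^ 12 / 479001600 + (-135135) * t ^ 14 / 87178291200 + (2027025) * t ^ 16 / 20922789888000 + (-34459425) * t ^ 18 / 6402373705728000 + (654729075) * t ^ 20 / 2432902008176640000 + (-13749310575) * t ^ 22 / 1124000727777607680000 + (316234143225) * t ^ 24 / 620448401733239439360000 + (-7905853580625) * t ^ 26 / 403291461126605635584000000 + (213458046676875) * t ^ 28 / 304888344611713860501504000000 + (-6190283353629375) * t ^ 30 / 265252859812191058636308480000000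
def phs_beL (t : ℝ) : ℝ := (0) * t ^ 0 / 1 + (1) * t ^ 2 / 2 + (-4) * t ^ 4 / 24 + (21) * t ^ 6 / 720 + (-148) * t ^ 8 / 40320 + (1333) * t ^ 10 / 3628800 + (-14664) * t ^ 12 / 479001600 + (190633) * t ^ 14 / 87178291200 + (-2859496) * t ^ 16 / 20922789888000 + (48611433) * t ^ 18 / 6402373705728000 + (-923617228) * t ^ 20 / 2432902008176640000 + (19395961789) * t ^ 22 / 1124000727777607680000 + (-446107121148) * t ^ 24 / 620448401733239439360000 + (11152678028701) * t ^ 26 / 403291461126605635584000000 + (-301122306774928) * t ^ 28 / 304888344611713860501504000000 + (8732546896472913) * t ^ 30 / 265252859812191058636308480000000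

theorem phs_evPU1 (t : ℝ) : phs_evI phs_PU1 (4 * t ^ 2) = 81842841814930553085241614925824000000000000000000000 * (phs_alU t + phs_beU t * 0.708874905227206) := by
  simp only [phs_PU1, phs_evI, phs_alU, phs_beU]
  push_cast
  ring

theorem phs_evPU2 (t : ℝ) : phs_evI phs_PU2 (4 * t ^ 2) = 81842841814930553085241614925824000000000000000000000 * (phs_alU t + phs_beU t * 0.708874905227208) := by
  simp only [phs_PU2, phs_evI, phs_alU, phs_beU]
  push_cast
  ring

theorem phs_evPL1 (t : ℝ) : phs_evI phs_PL1 (4 * t ^ 2) = -(284813089515958324736640819941867520000000000000000000000 * (phs_alL t + phs_beL t * 0.708874905227206)) := by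
  simp only [phs_PL1, phs_evI, phs_alL, phs_beL]
  push_cast
  ring

theorem phs_evPL2 (t : ℝ) : phs_evI phs_PL2 (4 * t ^ 2) = -(284813089515958324736640819941867520000000000000000000000 * (phs_alL t + phs_beL t * 0.708874905227208)) := by
  simp only [phs_PL2, phs_evI, phs_alL, phs_beL]
  push_cast
  ring

theorem phs_momv_0 : mom 0 = 1 - 0 * cc := by
  show (1 : ℝ) = _
  ring

theorem phs_momv_1 : mom 1 = 1 - 1 * cc := by
  have h : mom 1 = (2 * ((0 : ℕ) : ℝ) + 1) * mom 0 - cc := rfl
  rw [h, phs_momv_0]
  push_cast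
  ring

theorem phs_momv_2 : mom 2 = 3 - 4 * cc := by
  have h : mom 2 = (2 * ((1 : ℕ) : ℝ) + 1) * mom 1 - cc := rfl
  rw [h, phs_momv_1]
  push_cast
  ring

theorem phs_momv_3 : mom 3 = 15 - 21 * cc := by
  have h : mom 3 = (2 * ((2 : ℕ) : ℝ) + 1) * mom 2 - cc := rfl
  rw [h, phs_momv_2]
  push_cast
  ring

theorem phs_momv_4 : mom 4 = 105 - 148 * cc := by
  have h : mom 4 = (2 * ((3 : ℕ) : ℝ) + 1) * mom 3 - cc := rfl
  rw [h, phs_momv_3]
  push_cast
  ring

theorem phs_momv_5 : mom 5 = 945 - 1333 * cc := by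
  have h : mom 5 = (2 * ((4 : ℕ) : ℝ) + 1) * mom 4 - cc := rfl
  rw [h, phs_momv_4]
  push_cast
  ring

theorem phs_momv_6 : mom 6 = 10395 - 14664 * cc := by
  have h : mom 6 = (2 * ((5 : ℕ) : ℝ) + 1) * mom 5 - cc := rfl
  rw [h, phs_momv_5]
  push_cast
  ring

theorem phs_momv_7 : mom 7 = 135135 - 190633 * cc := by
  have h : mom 7 = (2 * ((6 : ℕ) : ℝ) + 1) * mom 6 - cc := rfl
  rw [h, phs_momv_6]
  push_cast
  ring

theorem phs_momv_8 : mom 8 = 2027025 - 2859496 * cc := by
  have h : mom 8 = (2 * ((7 : ℕ) : ℝ) + 1) * mom 7 - cc := rfl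
  rw [h, phs_momv_7]
  push_cast
  ring

theorem phs_momv_9 : mom 9 = 34459425 - 48611433 * cc := by
  have h : mom 9 = (2 * ((8 : ℕ) : ℝ) + 1) * mom 8 - cc := rfl
  rw [h, phs_momv_8]
  push_cast
  ring

theorem phs_momv_10 : mom 10 = 654729075 - 923617228 * cc := by
  have h : mom 10 = (2 * ((9 : ℕ) : ℝ) + 1) * mom 9 - cc := rfl
  rw [h, phs_momv_9]
  push_cast
  ring

theorem phs_momv_11 : mom 11 = 13749310575 - 19395961789 * cc := by
  have h : mom 11 = (2 * ((10 : ℕ) : ℝ) + 1) * mom 10 - cc := rfl
  rw [h, phs_momv_10]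
  push_cast
  ring

theorem phs_momv_12 : mom 12 = 316234143225 - 446107121148 * cc := by
  have h : mom 12 = (2 * ((11 : ℕ) : ℝ) + 1) * mom 11 - cc := rfl
  rw [h, phs_momv_11]
  push_cast
  ring

theorem phs_momv_13 : mom 13 = 7905853580625 - 11152678028701 * cc := by
  have h : mom 13 = (2 * ((12 : ℕ) : ℝ) + 1) * mom 12 - cc := rfl
  rw [h, phs_momv_12]
  push_cast
  ring

theorem phs_momv_14 : mom 14 = 213458046676875 - 301122306774928 * cc := by
  have h : mom 14 = (2 * ((13 : ℕ) : ℝ) + 1) * mom 13 - cc := rfl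
  rw [h, phs_momv_13]
  push_cast
  ring

theorem phs_momv_15 : mom 15 = 6190283353629375 - 8732546896472913 * cc := by
  have h : mom 15 = (2 * ((14 : ℕ) : ℝ) + 1) * mom 14 - cc := rfl
  rw [h, phs_momv_14]
  push_cast
  ring

theorem phs_sumU (t : ℝ) : ∑ k ∈ Finset.range (2 * 7 + 1), (-1 : ℝ) ^ k * mom k * t ^ (2 * k) /
    (2 * k).factorial = phs_alU t + phs_beU t * cc := by
  rw [show (2 * 7 + 1 : ℕ) = 15 from rfl]
  simp only [Finset.sum_range_succ, Finset.sum_range_zero, phs_momv_0, phs_momv_1, phs_momv_2, phs_momv_3, phs_momv_4, phs_momv_5, phs_momv_6, phs_momv_7, phs_momv_8, phs_momv_9, phs_momv_10, phs_momv_11, phs_momv_12, phs_momv_13, phs_momv_14, Nat.factorial, phs_alU, phs_beU]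
  push_cast
  ring

theorem phs_sumL (t : ℝ) : ∑ k ∈ Finset.range (2 * 7 + 2), (-1 : ℝ) ^ k * mom k * t ^ (2 * k) /
    (2 * k).factorial = phs_alL t + phs_beL t * cc := by
  rw [show (2 * 7 + 2 : ℕ) = 16 from rfl]
  simp only [Finset.sum_range_succ, Finset.sum_range_zero, phs_momv_0, phs_momv_1, phs_momv_2, phs_momv_3, phs_momv_4, phs_momv_5, phs_momv_6, phs_momv_7, phs_momv_8, phs_momv_9, phs_momv_10, phs_momv_11, phs_momv_12, phs_momv_13, phs_momv_14, phs_momv_15, Nat.factorial, phs_alL, phs_beL]
  push_cast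
  ring

theorem phs_aff {a b c c1 c2 M : ℝ} (h1 : a + b * c1 ≤ M) (h2 : a + b * c2 ≤ M) (hc1 : c1 ≤ c)
    (hc2 : c ≤ c2) : a + b * c ≤ M := by
  rcases le_total 0 b with h | h <;> nlinarith

theorem phs_aff' {a b c c1 c2 M : ℝ} (h1 : M ≤ a + b * c1) (h2 : M ≤ a + b * c2) (hc1 : c1 ≤ c)
    (hc2 : c ≤ c2) : M ≤ a + b * c := by
  rcases le_total 0 b with h | h <;> nlinarith

theorem phs_upper (t : ℝ) (M : ℝ) (m : ℤ) (hm : (m : ℝ) = 81842841814930553085241614925824000000000000000000000 * M)
    (hT1 : ∀ (K : ℕ) (t : ℝ), phi t ≤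
      ∑ k ∈ Finset.range (2 * K + 1), (-1) ^ k * mom k * t ^ (2 * k) / (2 * k).factorial)
    (hc1 : (0.708874905227206 : ℝ) ≤ cc) (hc2 : cc ≤ (0.708874905227208 : ℝ))
    (h1 : phs_evI phs_PU1 (4 * t ^ 2) ≤ m) (h2 : phs_evI phs_PU2 (4 * t ^ 2) ≤ m) : phi t ≤ M := by
  rw [phs_evPU1, hm] at h1
  rw [phs_evPU2, hm] at h2
  have k1 := le_of_mul_le_mul_left h1 (by norm_num)
  have k2 := le_of_mul_le_mul_left h2 (by norm_num)
  refine (hT1 7 t).trans ?_
  rw [phs_sumU]
  exact phs_aff k1 k2 hc1 hc2

theorem phs_lower (t : ℝ) (M : ℝ) (m : ℤ) (hm : (m : ℝ) = 284813089515958324736640819941867520000000000000000000000 * M)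
    (hT2 : ∀ (K : ℕ) (t : ℝ),
      ∑ k ∈ Finset.range (2 * K + 2), (-1) ^ k * mom k * t ^ (2 * k) / (2 * k).factorial ≤ phi t)
    (hc1 : (0.708874905227206 : ℝ) ≤ cc) (hc2 : cc ≤ (0.708874905227208 : ℝ))
    (h1 : phs_evI phs_PL1 (4 * t ^ 2) ≤ m) (h2 : phs_evI phs_PL2 (4 * t ^ 2) ≤ m) : -M ≤ phi t := by
  rw [phs_evPL1, hm] at h1
  rw [phs_evPL2, hm] at h2
  have k1 : 284813089515958324736640819941867520000000000000000000000 * (-M) ≤ 284813089515958324736640819941867520000000000000000000000 * (phs_alL t + phs_beL t * 0.708874905227206) := by linarith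
  have k2 : 284813089515958324736640819941867520000000000000000000000 * (-M) ≤ 284813089515958324736640819941867520000000000000000000000 * (phs_alL t + phs_beL t * 0.708874905227208) := by linarith
  have k1' := le_of_mul_le_mul_left k1 (by norm_num)
  have k2' := le_of_mul_le_mul_left k2 (by norm_num)
  refine le_trans ?_ (hT2 7 t)
  rw [phs_sumL]
  exact phs_aff' k1' k2' hc1 hc2

theorem phs_ck_c1 : phs_chkN (-1) 2 0 phs_PL1 12 = true := by decide +kernel
theorem phs_ck_c2 : phs_chkN (-1) 2 0 phs_PL2 12 = true := by decide +kernel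
theorem phs_ck_d1 : phs_chkN (-1) 1 49 phs_PU1 58 = true := by decide +kernel
theorem phs_ck_d2 : phs_chkN (-1) 1 49 phs_PU2 58 = true := by decide +kernel
theorem phs_ck_a1 : phs_chkN 12276426272239582962786242238873600000000000000000000 1 36 phs_PU1 47 = true := by decide +kernel
theorem phs_ck_a2 : phs_chkN 12276426272239582962786242238873600000000000000000000 1 36 phs_PU2 47 = true := by decide +kernel
theorem phs_ck_a3 : phs_chkN 42721963427393748710496122991280128000000000000000000000 1 36 phs_PL1 47 = true := by decide +kernel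
theorem phs_ck_a4 : phs_chkN 42721963427393748710496122991280128000000000000000000000 1 36 phs_PL2 47 = true := by decide +kernel
theorem phs_ck_b1 : phs_chkN 8184284181493055308524161492582400000000000000000000 1 47 phs_PU1 3 = true := by decide +kernel
theorem phs_ck_b2 : phs_chkN 8184284181493055308524161492582400000000000000000000 1 47 phs_PU2 3 = true := by decide +kernel
theorem phs_ck_b3 : phs_chkN 28481308951595832473664081994186752000000000000000000000 1 47 phs_PL1 3 = true := by decide +kernel
theorem phs_ck_b4 : phs_chkN 28481308951595832473664081994186752000000000000000000000 1 47 phs_PL2 3 = true := by decide +kernel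

/-- numerical bounds for phi -/
theorem phi_small
    (hneg : ∀ t : ℝ, phi (-t) = phi t)
    (hd : ∀ t : ℝ, HasDerivAt phi (-(∫ x in (-1 : ℝ)..1, w x * x * Real.sin (t * x)) / m0) t)
    (hT1 : ∀ (K : ℕ) (t : ℝ), phi t ≤
      ∑ k ∈ Finset.range (2 * K + 1), (-1) ^ k * mom k * t ^ (2 * k) / (2 * k).factorial)
    (hT2 : ∀ (K : ℕ) (t : ℝ),
      ∑ k ∈ Finset.range (2 * K + 2), (-1) ^ k * mom k * t ^ (2 * k) / (2 * k).factorial ≤ phi t)
    (hD1 : ∀ (K : ℕ) (t : ℝ), 0 ≤ t →
      ∑ k ∈ Finset.range (2 * K + 2), (-1) ^ k * mom (k + 1) * t ^ (2 * k + 1) / (2 * k + 1).factorial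
        ≤ (∫ x in (-1 : ℝ)..1, w x * x * Real.sin (t * x)) / m0)
    (hD2 : ∀ (K : ℕ) (t : ℝ), 0 ≤ t →
      (∫ x in (-1 : ℝ)..1, w x * x * Real.sin (t * x)) / m0 ≤
      ∑ k ∈ Finset.range (2 * K + 1), (-1) ^ k * mom (k + 1) * t ^ (2 * k + 1) / (2 * k + 1).factorial)
    (hc1 : (0.708874905227206 : ℝ) ≤ cc) (hc2 : cc ≤ (0.708874905227208 : ℝ))
    (hP : ∀ t : ℝ, 0 ≤ t → t ≤ 29 / 5 → phi t ≤ Real.exp (-(PP t)))
    (hdec : ∀ t : ℝ, 0 < t → |phi t| ≤ cc * (√(t ^ 2 + 1) + 1) / t ^ 2) :
    (∀ t : ℝ, 3 ≤ t → |phi t| ≤ 3 / 20) ∧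
    (∀ t : ℝ, |t| ≤ 181 / 50 → |phi t| ≤ Real.exp (-((1 - cc) * t ^ 2 / 2))) ∧
    (∀ t : ℝ, 0 ≤ t → t ≤ 69 / 20 → 0 < phi t) ∧
    (∀ t : ℝ, 7 / 2 ≤ t → t ≤ 32 / 5 → phi t < 0) := by
  have hpos : ∀ t : ℝ, 0 ≤ t → t ≤ 69 / 20 → 0 < phi t := by
    intro t h0 h1
    have hb1 : 4 * t ^ 2 ≤ 48 := by nlinarith
    have hb0 : 0 ≤ 4 * t ^ 2 := by positivity
    have k1 := phs_chkN_spec (-1) 2 0 (by norm_num) phs_PL1 11 phs_ck_c1 (4 * t ^ 2) (by push_cast; linarith)
      (by push_cast; linarith)
    have k2 := phs_chkN_spec (-1) 2 0 (by norm_num) phs_PL2 11 phs_ck_c2 (4 * t ^ 2) (by push_cast; linarith)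
      (by push_cast; linarith)
    have := phs_lower t (-1 / 284813089515958324736640819941867520000000000000000000000) (-1) (by push_cast; norm_num) hT2 hc1 hc2 k1 k2
    have h3 : (0 : ℝ) < -(-1 / 284813089515958324736640819941867520000000000000000000000) := by norm_num
    linarith
  have hngt : ∀ t : ℝ, 7 / 2 ≤ t → t ≤ 32 / 5 → phi t < 0 := by
    intro t h0 h1
    have hb1 : 4 * t ^ 2 ≤ 165 := by nlinarith
    have hb0 : 49 ≤ 4 * t ^ 2 := by nlinarith
    have k1 := phs_chkN_spec (-1) 1 49 (by norm_num) phs_PU1 57 phs_ck_d1 (4 * t ^ 2) (by push_cast; linarith)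
      (by push_cast; linarith)
    have k2 := phs_chkN_spec (-1) 1 49 (by norm_num) phs_PU2 57 phs_ck_d2 (4 * t ^ 2) (by push_cast; linarith)
      (by push_cast; linarith)
    have := phs_upper t (-1 / 81842841814930553085241614925824000000000000000000000) (-1) (by push_cast; norm_num) hT1 hc1 hc2 k1 k2
    have h3 : (-1 / 81842841814930553085241614925824000000000000000000000 : ℝ) < 0 := by norm_num
    linarith
  refine ⟨?_, ?_, hpos, hngt⟩
  · intro t ht
    by_cases h57 : t ≤ 57 / 10
    · have hb1 : 4 * t ^ 2 ≤ 130 := by nlinarith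
      have hb0 : 36 ≤ 4 * t ^ 2 := by nlinarith
      have k1 := phs_chkN_spec _ 1 36 (by norm_num) phs_PU1 46 phs_ck_a1 (4 * t ^ 2) (by push_cast; linarith)
        (by push_cast; linarith)
      have k2 := phs_chkN_spec _ 1 36 (by norm_num) phs_PU2 46 phs_ck_a2 (4 * t ^ 2) (by push_cast; linarith)
        (by push_cast; linarith)
      have k3 := phs_chkN_spec _ 1 36 (by norm_num) phs_PL1 46 phs_ck_a3 (4 * t ^ 2) (by push_cast; linarith)
        (by push_cast; linarith)
      have k4 := phs_chkN_spec _ 1 36 (by norm_num) phs_PL2 46 phs_ck_a4 (4 * t ^ 2) (by push_cast; linarith)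
        (by push_cast; linarith)
      rw [abs_le]
      constructor
      · exact phs_lower t (3 / 20) _ (by push_cast; norm_num) hT2 hc1 hc2 k3 k4
      · exact phs_upper t (3 / 20) _ (by push_cast; norm_num) hT1 hc1 hc2 k1 k2
    · push Not at h57
      have ht0 : 0 < t := by linarith
      refine (hdec t ht0).trans ?_
      have hr0 : 0 ≤ √(t ^ 2 + 1) := Real.sqrt_nonneg _
      have hr2 : √(t ^ 2 + 1) ^ 2 = t ^ 2 + 1 := Real.sq_sqrt (by positivity)
      have hr : 5.787 ≤ √(t ^ 2 + 1) := by
        apply Real.le_sqrt_of_sq_le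
        nlinarith
      rw [div_le_iff₀ (by positivity)]
      have e : t ^ 2 = (√(t ^ 2 + 1) - 1) * (√(t ^ 2 + 1) + 1) := by
        have : (√(t ^ 2 + 1) - 1) * (√(t ^ 2 + 1) + 1) = √(t ^ 2 + 1) ^ 2 - 1 := by ring
        rw [this, hr2]
        ring
      have e2 : 3 / 20 * t ^ 2 = (3 / 20 * (√(t ^ 2 + 1) - 1)) * (√(t ^ 2 + 1) + 1) := by
        rw [mul_assoc, ← e]
      rw [e2]
      apply mul_le_mul_of_nonneg_right _ (by linarith)
      linarith
  · have hmain : ∀ t : ℝ, 0 ≤ t → t ≤ 181 / 50 → |phi t| ≤ Real.exp (-((1 - cc) * t ^ 2 / 2)) := by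
      intro t h0 h1
      by_cases h345 : t ≤ 69 / 20
      · rw [abs_of_pos (hpos t h0 h345)]
        refine (hP t h0 (by linarith)).trans ?_
        apply Real.exp_le_exp.2
        unfold PP
        have q4 : 0 ≤ t ^ 4 := by positivity
        have q6 : 0 ≤ t ^ 6 := by positivity
        have q8 : 0 ≤ t ^ 8 := by positivity
        have q10 : 0 ≤ t ^ 10 := by positivity
        linarith
      · push Not at h345
        have hb1 : 4 * t ^ 2 ≤ 53 := by nlinarith
        have hb0 : 47 ≤ 4 * t ^ 2 := by nlinarith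
        have k1 := phs_chkN_spec _ 1 47 (by norm_num) phs_PU1 2 phs_ck_b1 (4 * t ^ 2) (by push_cast; linarith)
          (by push_cast; linarith)
        have k2 := phs_chkN_spec _ 1 47 (by norm_num) phs_PU2 2 phs_ck_b2 (4 * t ^ 2) (by push_cast; linarith)
          (by push_cast; linarith)
        have k3 := phs_chkN_spec _ 1 47 (by norm_num) phs_PL1 2 phs_ck_b3 (4 * t ^ 2) (by push_cast; linarith)
          (by push_cast; linarith)
        have k4 := phs_chkN_spec _ 1 47 (by norm_num) phs_PL2 2 phs_ck_b4 (4 * t ^ 2) (by push_cast; linarith)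
          (by push_cast; linarith)
        have hab : |phi t| ≤ 1 / 10 := by
          rw [abs_le]
          constructor
          · exact phs_lower t (1 / 10) _ (by push_cast; norm_num) hT2 hc1 hc2 k3 k4
          · exact phs_upper t (1 / 10) _ (by push_cast; norm_num) hT1 hc1 hc2 k1 k2
        refine hab.trans ?_
        have hx : (1 - cc) * t ^ 2 / 2 ≤ 2 := by nlinarith
        have h5 : Real.exp (-2) ≤ Real.exp (-((1 - cc) * t ^ 2 / 2)) := by
          apply Real.exp_le_exp.2
          linarith
        refine le_trans ?_ h5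
        have he := Real.exp_one_lt_d9
        have he0 := Real.exp_pos 1
        have e2 : Real.exp 2 = Real.exp 1 * Real.exp 1 := by
          rw [← Real.exp_add]
          norm_num
        rw [Real.exp_neg, ← one_div]
        apply one_div_le_one_div_of_le (Real.exp_pos 2)
        rw [e2]
        nlinarith
    intro t ht
    rcases le_total 0 t with h | h
    · exact hmain t h (by rwa [abs_of_nonneg h] at ht)
    · have := hmain (-t) (by linarith) (by rwa [abs_of_nonpos h] at ht)
      rw [hneg] at this
      have e : (-t) ^ 2 = t ^ 2 := by ring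
      rwa [e] at this

end
end CG3
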