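import Pool.Agent.CG3.Base

open MeasureTheory ProbabilityTheory
open scoped BigOperators

namespace CG3
noncomputable section

open scoped FourierTransform SchwartzMap ContDiff in
/-- Plancherel for the Fourier integral of `L¹ ∩ L²` functions on the line -/
theorem aux_plancherel (f : ℝ → ℂ) (hf : Integrable f) (hf2 : MemLp f 2) :
    ∫⁻ ξ : ℝ, ‖FourierTransform.fourier f ξ‖ₑ ^ 2 = ∫⁻ z : ℝ, ‖f z‖ₑ ^ 2 := by
  obtain ⟨F2, hF2⟩ : ∃ F2 : Lp ℂ 2 (volume : Measure ℝ), F2 = hf2.toLp f := ⟨_, rfl⟩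
  obtain ⟨G, hG⟩ : ∃ G : Lp ℂ 2 (volume : Measure ℝ), G = 𝓕 F2 := ⟨_, rfl⟩
  have hF2ae : (F2 : ℝ → ℂ) =ᵐ[volume] f := by rw [hF2]; exact hf2.coeFn_toLp
  have key : ∀ g : 𝓢(ℝ, ℂ), ∫ x, g x • (G x) = ∫ x, g x • FourierTransform.fourier f x := by
    intro g
    have h1 : (𝓕 (F2 : 𝓢'(ℝ, ℂ))) g = ((𝓕 F2 : Lp ℂ 2 (volume : Measure ℝ)) : 𝓢'(ℝ, ℂ)) g := by
      rw [Lp.fourier_toTemperedDistribution_eq]
    rw [TemperedDistribution.fourier_apply, Lp.toTemperedDistribution_apply,
      Lp.toTemperedDistribution_apply, ← hG] at h1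
    rw [← h1]
    have h2 : ∫ x, (𝓕 g) x • F2 x = ∫ x, (𝓕 g) x • f x := by
      apply integral_congr_ae
      filter_upwards [hF2ae] with x hx
      rw [hx]
    rw [h2]
    have h3 := VectorFourier.integral_fourierIntegral_smul_eq_flip (L := innerₗ ℝ)
      (μ := (volume : Measure ℝ)) (ν := (volume : Measure ℝ))
      Real.continuous_fourierChar continuous_inner g.integrable hf
    rw [flip_innerₗ] at h3
    exact h3
  have hGae : (G : ℝ → ℂ) =ᵐ[volume] FourierTransform.fourier f := by
    have hcont : Continuous (FourierTransform.fourier f : ℝ → ℂ) :=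
      VectorFourier.fourierIntegral_continuous Real.continuous_fourierChar continuous_inner hf
    apply ae_eq_of_integral_contDiff_smul_eq
    · exact (Lp.memLp G).locallyIntegrable (by norm_num)
    · exact hcont.locallyIntegrable
    · intro g g_smooth g_cpt
      have hg₁ : HasCompactSupport (Complex.ofRealCLM ∘ g) := g_cpt.comp_left rfl
      have hg₂ : ContDiff ℝ ∞ (Complex.ofRealCLM ∘ g) := by fun_prop
      have := key (hg₁.toSchwartzMap hg₂)
      simpa using this
  have hnorm : eLpNorm G 2 volume = eLpNorm f 2 volume := by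
    have h1 : ‖G‖ = ‖F2‖ := by rw [hG]; exact Lp.norm_fourier_eq F2
    have h2 : eLpNorm G 2 volume = eLpNorm F2 2 volume := by
      rw [Lp.norm_def, Lp.norm_def] at h1
      exact (ENNReal.toReal_eq_toReal_iff' (Lp.eLpNorm_ne_top G) (Lp.eLpNorm_ne_top F2)).1 h1
    rw [h2]
    exact eLpNorm_congr_ae hF2ae
  have h2 : ∀ h : ℝ → ℂ, eLpNorm h 2 volume ^ 2 = ∫⁻ z : ℝ, ‖h z‖ₑ ^ 2 := by
    intro h
    rw [eLpNorm_eq_lintegral_rpow_enorm_toReal (by norm_num) (by norm_num)]
    simp only [ENNReal.toReal_ofNat, ENNReal.rpow_ofNat, one_div]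
    rw [← ENNReal.rpow_natCast, ← ENNReal.rpow_mul]
    norm_num
  rw [← h2, ← h2, ← hnorm, eLpNorm_congr_ae hGae]

/-- the weight as a complex function -/
def wC : ℝ → ℂ := (Set.Icc (-1 : ℝ) 1).indicator (fun x => ((w x : ℝ) : ℂ))

theorem continuous_w : Continuous w := by
  unfold w
  fun_prop

theorem wC_integrable : Integrable wC := by
  unfold wC
  rw [integrable_indicator_iff measurableSet_Icc]
  apply ContinuousOn.integrableOn_Icc
  exact (Complex.continuous_ofReal.comp continuous_w).continuousOn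

theorem norm_wC_le_one (x : ℝ) : ‖wC x‖ ≤ 1 := by
  unfold wC
  by_cases hx : x ∈ Set.Icc (-1 : ℝ) 1
  · rw [Set.indicator_of_mem hx, Complex.norm_real, Real.norm_eq_abs, w, Real.abs_exp]
    rw [Real.exp_le_one_iff]
    nlinarith [sq_nonneg x]
  · rw [Set.indicator_of_notMem hx]
    simp

theorem wC_memLp : MemLp wC 2 := by
  rw [memLp_two_iff_integrable_sq_norm wC_integrable.aestronglyMeasurable]
  refine wC_integrable.norm.mono' (wC_integrable.aestronglyMeasurable.norm.pow 2)
    (Filter.Eventually.of_forall fun x => ?_)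
  rw [Real.norm_eq_abs, abs_of_nonneg (sq_nonneg _), sq]
  exact mul_le_of_le_one_left (norm_nonneg _) (norm_wC_le_one x)

/-- the cosine transform of the weight -/
def cosT (t : ℝ) : ℝ := ∫ x in (-1 : ℝ)..1, w x * Real.cos (t * x)

theorem fourier_wC (ξ : ℝ) :
    FourierTransform.fourier wC ξ = ((cosT (2 * Real.pi * ξ) : ℝ) : ℂ) := by
  have hle : (-1 : ℝ) ≤ 1 := by norm_num
  have hwc := continuous_w
  rw [Real.fourier_eq']
  have e1 : ∀ v : ℝ, Complex.exp (((-2 * Real.pi * (inner ℝ v ξ) : ℝ) : ℂ) * Complex.I) • wC v =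
      (Set.Icc (-1 : ℝ) 1).indicator (fun v : ℝ =>
        ((w v * Real.cos (2 * Real.pi * ξ * v) : ℝ) : ℂ) -
        ((w v * Real.sin (2 * Real.pi * ξ * v) : ℝ) : ℂ) * Complex.I) v := by
    intro v
    unfold wC
    by_cases hv : v ∈ Set.Icc (-1 : ℝ) 1
    · rw [Set.indicator_of_mem hv, Set.indicator_of_mem hv]
      have h0 : (inner ℝ v ξ : ℝ) = ξ * v := by simp
      rw [h0, smul_eq_mul]
      have h1 : (((-2 * Real.pi * (ξ * v) : ℝ) : ℂ) * Complex.I) =
          ((-(2 * Real.pi * ξ * v) : ℝ) : ℂ) * Complex.I := by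
        push_cast; ring
      rw [h1, Complex.exp_mul_I, ← Complex.ofReal_cos, ← Complex.ofReal_sin, Real.cos_neg,
        Real.sin_neg]
      push_cast
      ring
    · rw [Set.indicator_of_notMem hv, Set.indicator_of_notMem hv, smul_zero]
  simp_rw [e1]
  rw [integral_indicator measurableSet_Icc, integral_Icc_eq_integral_Ioc,
    ← intervalIntegral.integral_of_le hle]
  rw [intervalIntegral.integral_sub, intervalIntegral.integral_ofReal,
    intervalIntegral.integral_mul_const, intervalIntegral.integral_ofReal]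
  · have hodd : (∫ x in (-1 : ℝ)..1, w x * Real.sin (2 * Real.pi * ξ * x)) = 0 := by
      have h := intervalIntegral.integral_comp_neg
        (f := fun x => w x * Real.sin (2 * Real.pi * ξ * x)) (a := (-1 : ℝ)) (b := 1)
      have hwn : ∀ x, w (-x) = w x := by
        intro x
        unfold w
        rw [neg_sq]
      simp only [neg_neg, mul_neg, Real.sin_neg, hwn, intervalIntegral.integral_neg] at h
      linarith
    rw [hodd]
    simp [cosT]
  · apply Continuous.intervalIntegrable
    fun_prop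
  · apply Continuous.intervalIntegrable
    fun_prop

theorem m0_pos : 0 < m0 := by
  unfold m0
  exact intervalIntegral.intervalIntegral_pos_of_pos (continuous_w.intervalIntegrable _ _)
    (fun x => Real.exp_pos _) (by norm_num)

theorem int_cosT_sq : ∫ t : ℝ, cosT t ^ 2 = 2 * Real.pi * B1 := by
  have h1 := aux_plancherel wC wC_integrable wC_memLp
  have h2 : ∫⁻ ξ : ℝ, ‖FourierTransform.fourier wC ξ‖ₑ ^ 2 =
      ∫⁻ ξ : ℝ, ENNReal.ofReal (cosT (2 * Real.pi * ξ) ^ 2) := by
    congr 1
    funext ξ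
    rw [fourier_wC, ← ofReal_norm, ← ENNReal.ofReal_pow (norm_nonneg _), Complex.norm_real,
      Real.norm_eq_abs, sq_abs]
  have h3 : ∫⁻ z : ℝ, ‖wC z‖ₑ ^ 2 = ENNReal.ofReal B1 := by
    have e1 : ∀ z, ‖wC z‖ₑ ^ 2 = (Set.Icc (-1 : ℝ) 1).indicator
        (fun z => ENNReal.ofReal (Real.exp (-(z ^ 2)))) z := by
      intro z
      unfold wC
      by_cases hz : z ∈ Set.Icc (-1 : ℝ) 1
      · rw [Set.indicator_of_mem hz, Set.indicator_of_mem hz, ← ofReal_norm,
          ← ENNReal.ofReal_pow (norm_nonneg _), Complex.norm_real, Real.norm_eq_abs, sq_abs, w,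
          ← Real.exp_nat_mul]
        congr 2
        push_cast
        ring
      · rw [Set.indicator_of_notMem hz, Set.indicator_of_notMem hz]
        simp
    simp_rw [e1]
    rw [lintegral_indicator measurableSet_Icc]
    unfold B1
    rw [intervalIntegral.integral_of_le (by norm_num), ← integral_Icc_eq_integral_Ioc,
      ofReal_integral_eq_lintegral_ofReal]
    · apply ContinuousOn.integrableOn_Icc
      fun_prop
    · exact Filter.Eventually.of_forall fun x => (Real.exp_pos _).le
  have hB : 0 ≤ B1 := by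
    unfold B1
    apply intervalIntegral.integral_nonneg (by norm_num)
    intro x _
    exact (Real.exp_pos _).le
  have hcont : Continuous (fun ξ : ℝ => cosT (2 * Real.pi * ξ)) := by
    have h4 : Continuous (FourierTransform.fourier wC : ℝ → ℂ) :=
      VectorFourier.fourierIntegral_continuous Real.continuous_fourierChar continuous_inner
        wC_integrable
    have h5 : (fun ξ : ℝ => cosT (2 * Real.pi * ξ)) =
        fun ξ => (FourierTransform.fourier wC ξ).re := by
      funext ξ
      rw [fourier_wC, Complex.ofReal_re]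
    rw [h5]
    exact Complex.continuous_re.comp h4
  have h4 : ∫ ξ : ℝ, cosT (2 * Real.pi * ξ) ^ 2 = B1 := by
    rw [integral_eq_lintegral_of_nonneg_ae (Filter.Eventually.of_forall fun x => sq_nonneg _)
      (hcont.pow 2).aestronglyMeasurable, ← h2, h1, h3, ENNReal.toReal_ofReal hB]
  have h5 := MeasureTheory.Measure.integral_comp_mul_left (fun t => cosT t ^ 2) (2 * Real.pi)
  rw [h4, abs_of_pos (by positivity), smul_eq_mul] at h5
  rw [h5]
  field_simp

/-- Plancherel for the truncated Gaussian. -/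
theorem int_phi_sq : ∫ t : ℝ, phi t ^ 2 = 2 * Real.pi * B1 / m0 ^ 2 := by
  have h1 : ∀ t, phi t ^ 2 = cosT t ^ 2 * (m0 ^ 2)⁻¹ := by
    intro t
    unfold phi cosT
    rw [div_pow, div_eq_mul_inv]
  simp_rw [h1]
  rw [integral_mul_const, int_cosT_sq, div_eq_mul_inv]

end
end CG3
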