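import Pool.Agent.CG3.Base

open MeasureTheory ProbabilityTheory
open scoped BigOperators

namespace CG3
noncomputable section

lemma w_cont : Continuous w := by unfold w; fun_prop

lemma m0_pos : 0 < m0 := by
  unfold m0
  apply intervalIntegral.intervalIntegral_pos_of_pos
  · exact w_cont.intervalIntegrable _ _
  · intro x; unfold w; positivity
  · norm_num

lemma phi_neg (t : ℝ) : phi (-t) = phi t := by
  unfold phi
  simp

lemma one_dim (t : ℝ) : ∫ x, (Set.Icc (-1:ℝ) 1).indicator (fun x => Complex.exp ((t * x : ℝ) * Complex.I)) x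
      ∂(gaussianReal 0 1) = ((m0 / √(2 * Real.pi) * phi t : ℝ) : ℂ) := by
  rw [integral_gaussianReal_eq_integral_smul (by norm_num)]
  have h1 : ∀ x : ℝ, gaussianPDFReal 0 1 x • (Set.Icc (-1:ℝ) 1).indicator (fun x => Complex.exp ((t * x : ℝ) * Complex.I)) x
      = (Set.Icc (-1:ℝ) 1).indicator (fun x => (((√(2 * Real.pi))⁻¹ * (w x * Real.cos (t * x)) : ℝ) : ℂ) + 
        (((√(2 * Real.pi))⁻¹ * (w x * Real.sin (t * x)) : ℝ) : ℂ) * Complex.I) x := by
    intro x
    rw [← Set.indicator_smul_apply]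
    by_cases hx : x ∈ Set.Icc (-1:ℝ) 1
    · rw [Set.indicator_of_mem hx, Set.indicator_of_mem hx, Complex.exp_mul_I, gaussianPDFReal_def]
      simp only [Complex.real_smul]
      have : w x = Real.exp (-(x - 0) ^ 2 / (2 * ((1 : NNReal) : ℝ))) := by
        unfold w; congr 1; simp
      rw [← this]
      push_cast
      simp
      ring
    · rw [Set.indicator_of_notMem hx, Set.indicator_of_notMem hx]
  simp_rw [h1]
  rw [integral_indicator measurableSet_Icc, integral_Icc_eq_integral_Ioc,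
    ← intervalIntegral.integral_of_le (by norm_num)]
  have hc1 : Continuous (fun x => (√(2 * Real.pi))⁻¹ * (w x * Real.cos (t * x))) := by
    have := w_cont; fun_prop
  have hc2 : Continuous (fun x => (√(2 * Real.pi))⁻¹ * (w x * Real.sin (t * x))) := by
    have := w_cont; fun_prop
  rw [intervalIntegral.integral_add, intervalIntegral.integral_mul_const, intervalIntegral.integral_ofReal,
    intervalIntegral.integral_ofReal]
  · have hodd : ∫ x in (-1:ℝ)..1, (√(2 * Real.pi))⁻¹ * (w x * Real.sin (t * x)) = 0 := by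
      have h2 := intervalIntegral.integral_comp_neg (a := (-1:ℝ)) (b := 1) (fun x => (√(2 * Real.pi))⁻¹ * (w x * Real.sin (t * x)))
      have h3 : ∀ x : ℝ, (√(2 * Real.pi))⁻¹ * (w (-x) * Real.sin (t * (-x))) = - ((√(2 * Real.pi))⁻¹ * (w x * Real.sin (t * x))) := by
        intro x
        have : w (-x) = w x := by unfold w; simp
        rw [this, mul_neg, Real.sin_neg]; ring
      simp_rw [h3] at h2
      rw [intervalIntegral.integral_neg] at h2
      simp only [neg_neg] at h2
      linarith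
    rw [hodd, intervalIntegral.integral_const_mul]
    have : m0 ≠ 0 := m0_pos.ne'
    unfold phi
    have h5 : m0 / √(2 * Real.pi) * ((∫ x in (-1:ℝ)..1, w x * Real.cos (t * x)) / m0) = (√(2 * Real.pi))⁻¹ * ∫ x in (-1:ℝ)..1, w x * Real.cos (t * x) := by
      field_simp
    rw [h5]
    simp
  · exact (Complex.continuous_ofReal.comp hc1).intervalIntegrable _ _
  · exact ((Complex.continuous_ofReal.comp hc2).mul continuous_const).intervalIntegrable _ _

open scoped RealInnerProductSpace in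
lemma decomp {n : ℕ} (θ : EuclideanSpace ℝ (Fin n)) (hθ : ‖θ‖ = 1) :
    ((gaussianReal 0 1).prod (stdGaussian ((ℝ ∙ θ)ᗮ : Submodule ℝ (EuclideanSpace ℝ (Fin n))))).map
      (fun p => p.1 • θ + (p.2 : EuclideanSpace ℝ (Fin n))) = stdGaussian (EuclideanSpace ℝ (Fin n)) := by
  apply Measure.ext_of_charFun
  ext z
  rw [charFun_stdGaussian, charFun_apply, integral_map (by fun_prop) (by fun_prop)]
  set P := ((ℝ ∙ θ)ᗮ : Submodule ℝ (EuclideanSpace ℝ (Fin n))).orthogonalProjectionOnto z with hP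
  have h1 : ∀ p : ℝ × ((ℝ ∙ θ)ᗮ : Submodule ℝ (EuclideanSpace ℝ (Fin n))),
      Complex.exp ((⟪p.1 • θ + (p.2 : EuclideanSpace ℝ (Fin n)), z⟫ : ℝ) * Complex.I)
      = Complex.exp ((⟪p.1, ⟪θ, z⟫⟫ : ℝ) * Complex.I) * Complex.exp ((⟪p.2, P⟫ : ℝ) * Complex.I) := by
    intro p
    rw [← Complex.exp_add, ← add_mul, ← Complex.ofReal_add]
    congr 3
    rw [inner_add_left, real_inner_smul_left]
    congr 1
    · simp [mul_comm]
    · rw [hP]
      simp
  simp_rw [h1]
  rw [integral_prod_mul (f := fun x : ℝ => Complex.exp ((⟪x, ⟪θ, z⟫⟫ : ℝ) * Complex.I))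
    (g := fun y : ((ℝ ∙ θ)ᗮ : Submodule ℝ (EuclideanSpace ℝ (Fin n))) => Complex.exp ((⟪y, P⟫ : ℝ) * Complex.I)),
    ← charFun_apply, ← charFun_apply, charFun_stdGaussian, charFun_gaussianReal, ← Complex.exp_add]
  congr 1
  have h2 : ‖z‖ ^ 2 = ⟪θ, z⟫ ^ 2 + ‖P‖ ^ 2 := by
    have h3 := Submodule.norm_sq_eq_add_norm_sq_starProjection z (ℝ ∙ θ)
    rw [Submodule.starProjection_unit_singleton ℝ hθ, norm_smul, hθ, mul_one] at h3
    rw [h3, hP]
    simp
  rw [← Complex.ofReal_pow, ← Complex.ofReal_pow ‖z‖ 2, h2]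
  push_cast
  ring

/-- the cube -/
def K (n : ℕ) : Set (EuclideanSpace ℝ (Fin n)) := {x | ∀ i, |x i| ≤ 1}

lemma K_meas (n : ℕ) : MeasurableSet (K n) := by
  have : K n = ⋂ i, {x | |x i| ≤ 1} := by ext x; simp [K]
  rw [this]
  refine MeasurableSet.iInter fun i => ?_
  exact (isClosed_le (by fun_prop) (by fun_prop)).measurableSet

open scoped RealInnerProductSpace in
lemma box_fourier {n : ℕ} (θ : EuclideanSpace ℝ (Fin n)) (ξ : ℝ) :
    ∫ x, (K n).indicator (fun x => Complex.exp ((ξ * ⟪θ, x⟫ : ℝ) * Complex.I)) x ∂(stdGaussian (EuclideanSpace ℝ (Fin n)))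
    = ((∏ i, (m0 / √(2 * Real.pi) * phi (θ i * ξ)) : ℝ) : ℂ) := by
  rw [← map_pi_eq_stdGaussian, integral_map]
  · have h1 : ∀ x : Fin n → ℝ, (K n).indicator (fun x => Complex.exp ((ξ * ⟪θ, x⟫ : ℝ) * Complex.I)) (WithLp.toLp 2 x)
      = ∏ i, (Set.Icc (-1:ℝ) 1).indicator (fun x => Complex.exp ((θ i * ξ * x : ℝ) * Complex.I)) (x i) := by
      intro x
      by_cases hx : ∀ i, |x i| ≤ 1
      · rw [Set.indicator_of_mem (by exact hx)]
        have : ∀ i, (Set.Icc (-1:ℝ) 1).indicator (fun x => Complex.exp ((θ i * ξ * x : ℝ) * Complex.I)) (x i)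
          = Complex.exp ((θ i * ξ * x i : ℝ) * Complex.I) := fun i => Set.indicator_of_mem (Set.mem_Icc.mpr (abs_le.mp (hx i))) _
        simp_rw [this]
        rw [← Complex.exp_sum]
        congr 1
        rw [← Finset.sum_mul, ← Complex.ofReal_sum]
        congr 2
        rw [PiLp.inner_apply, Finset.mul_sum]
        refine Finset.sum_congr rfl fun i _ => ?_
        simp
        ring
      · rw [Set.indicator_of_notMem (by exact hx)]
        push Not at hx
        obtain ⟨i, hi⟩ := hx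
        symm
        apply Finset.prod_eq_zero (Finset.mem_univ i)
        apply Set.indicator_of_notMem
        intro h
        exact absurd (abs_le.mpr h) (not_le.mpr hi)
    simp_rw [h1]
    rw [integral_fintype_prod_eq_prod (f := fun i (x : ℝ) => (Set.Icc (-1:ℝ) 1).indicator (fun x => Complex.exp ((θ i * ξ * x : ℝ) * Complex.I)) x)]
    simp_rw [one_dim]
    push_cast
    rfl
  · fun_prop
  · refine (Continuous.stronglyMeasurable ?_).aestronglyMeasurable.indicator (K_meas n)
    fun_prop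

/-- parallel sections -/
def Ks {n : ℕ} (θ : EuclideanSpace ℝ (Fin n)) (t : ℝ) : Set ((ℝ ∙ θ)ᗮ : Submodule ℝ (EuclideanSpace ℝ (Fin n))) :=
  {y | t • θ + (y : EuclideanSpace ℝ (Fin n)) ∈ K n}

lemma Ks_meas {n : ℕ} (θ : EuclideanSpace ℝ (Fin n)) (t : ℝ) : MeasurableSet (Ks θ t) := by
  have : Measurable (fun y : ((ℝ ∙ θ)ᗮ : Submodule ℝ (EuclideanSpace ℝ (Fin n))) => t • θ + (y : EuclideanSpace ℝ (Fin n))) := by
    fun_prop
  exact this (K_meas n)

def gs {n : ℕ} (θ : EuclideanSpace ℝ (Fin n)) (t : ℝ) : ℝ :=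
  (stdGaussian ((ℝ ∙ θ)ᗮ : Submodule ℝ (EuclideanSpace ℝ (Fin n)))).real (Ks θ t)

lemma gs_meas {n : ℕ} (θ : EuclideanSpace ℝ (Fin n)) : Measurable (gs θ) := by
  have h1 : MeasurableSet {p : ℝ × ((ℝ ∙ θ)ᗮ : Submodule ℝ (EuclideanSpace ℝ (Fin n))) | p.1 • θ + (p.2 : EuclideanSpace ℝ (Fin n)) ∈ K n} := by
    have : Measurable (fun p : ℝ × ((ℝ ∙ θ)ᗮ : Submodule ℝ (EuclideanSpace ℝ (Fin n))) => p.1 • θ + (p.2 : EuclideanSpace ℝ (Fin n))) := by
      fun_prop
    exact this (K_meas n)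
  have h2 := measurable_measure_prodMk_left (ν := stdGaussian ((ℝ ∙ θ)ᗮ : Submodule ℝ (EuclideanSpace ℝ (Fin n)))) h1
  exact h2.ennreal_toReal

lemma gs_nonneg {n : ℕ} (θ : EuclideanSpace ℝ (Fin n)) (t : ℝ) : 0 ≤ gs θ t := measureReal_nonneg
lemma gs_le_one {n : ℕ} (θ : EuclideanSpace ℝ (Fin n)) (t : ℝ) : gs θ t ≤ 1 := measureReal_le_one

open scoped RealInnerProductSpace in
lemma inner_int {n : ℕ} (θ : EuclideanSpace ℝ (Fin n)) (hθ : ‖θ‖ = 1) (ξ t : ℝ) :
    ∫ y : ((ℝ ∙ θ)ᗮ : Submodule ℝ (EuclideanSpace ℝ (Fin n))), 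
      (K n).indicator (fun x => Complex.exp ((ξ * ⟪θ, x⟫ : ℝ) * Complex.I)) (t • θ + (y : EuclideanSpace ℝ (Fin n)))
      ∂(stdGaussian ((ℝ ∙ θ)ᗮ : Submodule ℝ (EuclideanSpace ℝ (Fin n))))
    = (gs θ t : ℂ) * Complex.exp ((ξ * t : ℝ) * Complex.I) := by
  have h1 : ∀ y : ((ℝ ∙ θ)ᗮ : Submodule ℝ (EuclideanSpace ℝ (Fin n))), 
      (K n).indicator (fun x => Complex.exp ((ξ * ⟪θ, x⟫ : ℝ) * Complex.I)) (t • θ + (y : EuclideanSpace ℝ (Fin n)))
      = (Ks θ t).indicator (fun _ => Complex.exp ((ξ * t : ℝ) * Complex.I)) y := by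
    intro y
    by_cases hy : y ∈ Ks θ t
    · rw [Set.indicator_of_mem (by exact hy), Set.indicator_of_mem hy]
      congr 4
      rw [inner_add_right, real_inner_smul_right, real_inner_self_eq_norm_sq, hθ,
        Submodule.mem_orthogonal_singleton_iff_inner_right.mp y.2]
      ring
    · rw [Set.indicator_of_notMem (by exact hy), Set.indicator_of_notMem hy]
  simp_rw [h1]
  rw [integral_indicator_const _ (Ks_meas θ t)]
  simp [gs]

open scoped RealInnerProductSpace in
lemma main_int {n : ℕ} (θ : EuclideanSpace ℝ (Fin n)) (hθ : ‖θ‖ = 1) (ξ : ℝ) :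
    ∫ t : ℝ, (gs θ t : ℂ) * Complex.exp ((ξ * t : ℝ) * Complex.I) ∂(gaussianReal 0 1)
      = ((∏ i, (m0 / √(2 * Real.pi) * phi (θ i * ξ)) : ℝ) : ℂ) := by
  rw [← box_fourier, ← decomp θ hθ, integral_map, integral_prod]
  · simp_rw [inner_int θ hθ]
  · refine (Integrable.mono' (integrable_const (1:ℝ)) ?_ ?_)
    · have h1 : StronglyMeasurable (fun x : EuclideanSpace ℝ (Fin n) => (K n).indicator (fun x => Complex.exp ((ξ * ⟪θ, x⟫ : ℝ) * Complex.I)) x) := by
        refine (Continuous.stronglyMeasurable ?_).indicator (K_meas n)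
        fun_prop
      have h2 : Measurable (fun p : ℝ × ((ℝ ∙ θ)ᗮ : Submodule ℝ (EuclideanSpace ℝ (Fin n))) => p.1 • θ + (p.2 : EuclideanSpace ℝ (Fin n))) := by
        fun_prop
      exact (h1.comp_measurable h2).aestronglyMeasurable
    · filter_upwards with p
      refine (norm_indicator_le_norm_self _ _).trans ?_
      rw [Complex.norm_exp_ofReal_mul_I]
  · fun_prop
  · refine (Continuous.stronglyMeasurable ?_).aestronglyMeasurable.indicator (K_meas n)
    fun_prop

lemma coord_nonzero {n : ℕ} (θ : EuclideanSpace ℝ (Fin n)) (hθ : ‖θ‖ = 1) (i : Fin n) (hi : |θ i| < 1) (c : ℝ) :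
    (stdGaussian ((ℝ ∙ θ)ᗮ : Submodule ℝ (EuclideanSpace ℝ (Fin n)))) {y | (y : EuclideanSpace ℝ (Fin n)) i = c} = 0 := by
  set L : StrongDual ℝ ((ℝ ∙ θ)ᗮ : Submodule ℝ (EuclideanSpace ℝ (Fin n))) := 
    (EuclideanSpace.proj i : EuclideanSpace ℝ (Fin n) →L[ℝ] ℝ).comp (Submodule.subtypeL _) with hL
  have h1 := IsGaussian.map_eq_gaussianReal (μ := stdGaussian ((ℝ ∙ θ)ᗮ : Submodule ℝ (EuclideanSpace ℝ (Fin n)))) L
  rw [variance_dual_stdGaussian] at h1
  have hLn : L ≠ 0 := by
    intro h0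
    set v : EuclideanSpace ℝ (Fin n) := EuclideanSpace.single i 1 - (θ i) • θ with hv
    have hvm : v ∈ ((ℝ ∙ θ)ᗮ : Submodule ℝ (EuclideanSpace ℝ (Fin n))) := by
      rw [Submodule.mem_orthogonal_singleton_iff_inner_right, hv, inner_sub_right, real_inner_smul_right, real_inner_self_eq_norm_sq, hθ,
        EuclideanSpace.inner_single_right]
      simp
    have h2 : L ⟨v, hvm⟩ = 0 := by rw [h0]; rfl
    have h3 : L ⟨v, hvm⟩ = 1 - θ i * θ i := by
      simp [hL, hv]
    rw [h2] at h3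
    have := abs_lt.mp hi
    nlinarith
  have h4 : (‖L‖ ^ 2).toNNReal ≠ 0 := by
    have : 0 < ‖L‖ := by
      rcases (norm_nonneg L).lt_or_eq with h | h
      · exact h
      · exact absurd ((ContinuousLinearMap.opNorm_zero_iff L).mp h.symm) hLn
    simp only [ne_eq, Real.toNNReal_eq_zero, not_le]
    positivity
  have h5 := nullSingletonClass_gaussianReal (μ := (∫ (x : _), L x ∂stdGaussian ((ℝ ∙ θ)ᗮ : Submodule ℝ (EuclideanSpace ℝ (Fin n))))) h4
  have h6 : (Measure.map (⇑L) (stdGaussian ((ℝ ∙ θ)ᗮ : Submodule ℝ (EuclideanSpace ℝ (Fin n))))) {c} = 0 := by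
    rw [h1]
    exact measure_singleton c
  rw [Measure.map_apply (by fun_prop) (measurableSet_singleton c)] at h6
  exact h6

lemma gs_cont {n : ℕ} (θ : EuclideanSpace ℝ (Fin n)) (hθ : ‖θ‖ = 1) (h2 : ∀ i, |θ i| < 1) :
    ContinuousAt (gs θ) 0 := by
  have h1 : ∀ t, gs θ t = ∫ y, (Ks θ t).indicator (fun _ => (1:ℝ)) y ∂(stdGaussian ((ℝ ∙ θ)ᗮ : Submodule ℝ (EuclideanSpace ℝ (Fin n)))) := by
    intro t
    rw [integral_indicator_const _ (Ks_meas θ t)]
    simp [gs]
  have h3 : gs θ = fun t => ∫ y, (Ks θ t).indicator (fun _ => (1:ℝ)) y ∂(stdGaussian ((ℝ ∙ θ)ᗮ : Submodule ℝ (EuclideanSpace ℝ (Fin n)))) := funext h1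
  rw [h3]
  apply tendsto_integral_filter_of_dominated_convergence (fun _ => (1:ℝ))
  · filter_upwards with t
    exact (measurable_const.indicator (Ks_meas θ t)).aestronglyMeasurable
  · filter_upwards with t
    filter_upwards with y
    refine (norm_indicator_le_norm_self _ _).trans ?_
    simp
  · exact integrable_const _
  · have hae : ∀ᵐ y : ((ℝ ∙ θ)ᗮ : Submodule ℝ (EuclideanSpace ℝ (Fin n))) ∂(stdGaussian ((ℝ ∙ θ)ᗮ : Submodule ℝ (EuclideanSpace ℝ (Fin n)))), ∀ i, (y : EuclideanSpace ℝ (Fin n)) i ≠ 1 ∧ (y : EuclideanSpace ℝ (Fin n)) i ≠ -1 := by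
      rw [ae_all_iff]
      intro i
      have ha := coord_nonzero θ hθ i (h2 i) 1
      have hb := coord_nonzero θ hθ i (h2 i) (-1)
      have ha' : ∀ᵐ y : ((ℝ ∙ θ)ᗮ : Submodule ℝ (EuclideanSpace ℝ (Fin n))) ∂(stdGaussian ((ℝ ∙ θ)ᗮ : Submodule ℝ (EuclideanSpace ℝ (Fin n)))), (y : EuclideanSpace ℝ (Fin n)) i ≠ 1 := by
        rw [ae_iff]; simpa using ha
      have hb' : ∀ᵐ y : ((ℝ ∙ θ)ᗮ : Submodule ℝ (EuclideanSpace ℝ (Fin n))) ∂(stdGaussian ((ℝ ∙ θ)ᗮ : Submodule ℝ (EuclideanSpace ℝ (Fin n)))), (y : EuclideanSpace ℝ (Fin n)) i ≠ -1 := by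
        rw [ae_iff]; simpa using hb
      filter_upwards [ha', hb'] with y h1 h2 using ⟨h1, h2⟩
    filter_upwards [hae] with y hy
    by_cases hall : ∀ i, |(y : EuclideanSpace ℝ (Fin n)) i| < 1
    · -- interior
      have hev : ∀ᶠ t in nhds (0:ℝ), ∀ i, |(t • θ + (y : EuclideanSpace ℝ (Fin n))) i| < 1 := by
        rw [Filter.eventually_all]
        intro i
        have hc : Continuous fun t : ℝ => |(t • θ + (y : EuclideanSpace ℝ (Fin n))) i| := by
          simp only [PiLp.add_apply, PiLp.smul_apply, smul_eq_mul]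
          fun_prop
        have := hc.tendsto 0
        simp only [zero_smul, zero_add] at this
        exact this.eventually (gt_mem_nhds (hall i))
      have h0 : y ∈ Ks θ 0 := by
        intro i
        simpa using (hall i).le
      rw [Set.indicator_of_mem h0]
      refine tendsto_const_nhds.congr' ?_
      filter_upwards [hev] with t ht
      rw [Set.indicator_of_mem]
      intro i
      exact (ht i).le
    · push Not at hall
      obtain ⟨i, hi⟩ := hall
      have hi' : 1 < |(y : EuclideanSpace ℝ (Fin n)) i| := by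
        refine lt_of_le_of_ne hi ?_
        intro h
        rcases eq_or_eq_neg_of_abs_eq h.symm with h | h
        · exact (hy i).1 h
        · exact (hy i).2 h
      have hev : ∀ᶠ t in nhds (0:ℝ), 1 < |(t • θ + (y : EuclideanSpace ℝ (Fin n))) i| := by
        have hc : Continuous fun t : ℝ => |(t • θ + (y : EuclideanSpace ℝ (Fin n))) i| := by
          simp only [PiLp.add_apply, PiLp.smul_apply, smul_eq_mul]
          fun_prop
        have := hc.tendsto 0
        simp only [zero_smul, zero_add] at this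
        exact this.eventually (lt_mem_nhds hi')
      have h0 : y ∉ Ks θ 0 := by
        intro h
        have := h i
        simp only [zero_smul, zero_add] at this
        linarith
      rw [Set.indicator_of_notMem h0]
      refine tendsto_const_nhds.congr' ?_
      filter_upwards [hev] with t ht
      rw [Set.indicator_of_notMem]
      intro h
      exact absurd (h i) (not_le.mpr ht)

lemma gs_zero {n : ℕ} (θ : EuclideanSpace ℝ (Fin n)) : gs θ 0 = secG θ := by
  unfold gs secG Ks K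
  congr 1
  ext y
  simp

open scoped FourierTransform in
/-- P0: Gaussian section formula. -/
theorem sec_formula {n : ℕ} (θ : EuclideanSpace ℝ (Fin n)) (hθ : ‖θ‖ = 1)
    (h2 : ∀ i, |θ i| < 1) (hint : Integrable (fun ξ : ℝ => ∏ i, phi (θ i * ξ))) :
    secG θ = (m0 / √(2 * Real.pi)) ^ n / √(2 * Real.pi) * ∫ ξ : ℝ, ∏ i, phi (θ i * ξ) := by
  set h : ℝ → ℂ := fun t => ((gaussianPDFReal 0 1 t * gs θ t : ℝ) : ℂ) with hh
  have hhint : Integrable h := by
    refine Integrable.ofReal ?_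
    refine Integrable.mono' (integrable_gaussianPDFReal 0 1) ?_ ?_
    · exact ((measurable_gaussianPDFReal 0 1).mul (gs_meas θ)).aestronglyMeasurable
    · filter_upwards with t
      show |gaussianPDFReal 0 1 t * gs θ t| ≤ gaussianPDFReal 0 1 t
      rw [abs_of_nonneg (mul_nonneg (gaussianPDFReal_nonneg _ _ _) (gs_nonneg θ t))]
      exact mul_le_of_le_one_right (gaussianPDFReal_nonneg _ _ _) (gs_le_one θ t)
  have hF : ∀ s : ℝ, 𝓕 h s = (((m0 / √(2 * Real.pi)) ^ n * ∏ i, phi (θ i * (2 * Real.pi * s)) : ℝ) : ℂ) := by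
    intro s
    rw [Real.fourier_eq']
    have := main_int θ hθ (-(2 * Real.pi * s))
    rw [integral_gaussianReal_eq_integral_smul (by norm_num)] at this
    have h3 : ∏ i, (m0 / √(2 * Real.pi) * phi (θ i * (-(2 * Real.pi * s)))) = (m0 / √(2 * Real.pi)) ^ n * ∏ i, phi (θ i * (2 * Real.pi * s)) := by
      rw [Finset.prod_mul_distrib, Finset.prod_const]
      simp only [Finset.card_univ, Fintype.card_fin, mul_neg, phi_neg]
    rw [h3] at this
    rw [← this]
    congr 1
    ext t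
    rw [hh]
    simp only [smul_eq_mul, Complex.real_smul]
    push_cast
    rw [mul_comm, mul_assoc]
    congr 3
    simp
    ring
  have hFint : Integrable (𝓕 h) := by
    have : 𝓕 h = fun s => (((m0 / √(2 * Real.pi)) ^ n * ∏ i, phi (θ i * (2 * Real.pi * s)) : ℝ) : ℂ) := funext hF
    rw [this]
    refine Integrable.ofReal (Integrable.const_mul ?_ _)
    exact hint.comp_mul_left' (by positivity)
  have hcont : ContinuousAt h 0 := by
    rw [hh]
    refine Complex.continuous_ofReal.continuousAt.comp ?_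
    refine ContinuousAt.mul ?_ (gs_cont θ hθ h2)
    refine Continuous.continuousAt ?_
    unfold gaussianPDFReal
    fun_prop
  have key := hhint.fourierInv_fourier_eq hFint hcont
  rw [Real.fourierInv_eq'] at key
  simp only [inner_zero_right, mul_zero, Complex.ofReal_zero, zero_mul, Complex.exp_zero, one_smul] at key
  simp_rw [hF] at key
  rw [integral_complex_ofReal] at key
  change _ = ((gaussianPDFReal 0 1 0 * gs θ 0 : ℝ) : ℂ) at key
  have key2 : ∫ s : ℝ, (m0 / √(2 * Real.pi)) ^ n * ∏ i, phi (θ i * (2 * Real.pi * s)) = gaussianPDFReal 0 1 0 * gs θ 0 := by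
    exact_mod_cast key
  rw [integral_const_mul, gs_zero] at key2
  have h4 := Measure.integral_comp_mul_left (fun ξ => ∏ i, phi (θ i * ξ)) (2 * Real.pi)
  rw [h4] at key2
  have h5 : gaussianPDFReal 0 1 0 = (√(2 * Real.pi))⁻¹ := by
    simp [gaussianPDFReal]
  rw [h5, abs_of_pos (by positivity), smul_eq_mul] at key2
  have h6 : √(2 * Real.pi) * √(2 * Real.pi) = 2 * Real.pi := Real.mul_self_sqrt (by positivity)
  have h7 : √(2 * Real.pi) ≠ 0 := by positivity
  have h8 : secG θ = √(2 * Real.pi) * ((√(2 * Real.pi))⁻¹ * secG θ) := by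
    field_simp
  have h9 : (2 * Real.pi)⁻¹ = (√(2 * Real.pi))⁻¹ * (√(2 * Real.pi))⁻¹ := by rw [← mul_inv, h6]
  rw [h8, ← key2, h9]
  generalize √(2 * Real.pi) = r at *
  field_simp


open scoped RealInnerProductSpace in
/-- the coordinate directions -/
theorem sec_coord {n : ℕ} (θ : EuclideanSpace ℝ (Fin n)) (hθ : ‖θ‖ = 1) (i : Fin n)
    (hi : |θ i| = 1) :
    secG θ = (m0 / √(2 * Real.pi)) ^ (n - 1) := by
  -- other coordinates vanish
  have hsum : ∑ j, θ j ^ 2 = 1 := by
    rw [← EuclideanSpace.real_norm_sq_eq, hθ]; norm_num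
  have hoth : ∀ j, j ≠ i → θ j = 0 := by
    intro j hj
    have h1 : θ i ^ 2 + θ j ^ 2 ≤ ∑ j, θ j ^ 2 := by
      rw [← Finset.sum_pair hj.symm (f := fun j => θ j ^ 2)]
      exact Finset.sum_le_sum_of_subset_of_nonneg (Finset.subset_univ _) (fun _ _ _ => sq_nonneg _)
    have h2 : θ i ^ 2 = 1 := by rw [← sq_abs, hi]; norm_num
    have h3 : θ j ^ 2 ≤ 0 := by linarith
    nlinarith [sq_nonneg (θ j), pow_eq_zero_iff (two_ne_zero) |>.mp (le_antisymm h3 (sq_nonneg (θ j)))]
  have hθi : θ i ≠ 0 := by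
    intro h; rw [h] at hi; simp at hi
  -- coordinate i of y in H is zero
  have hyi : ∀ y : ((ℝ ∙ θ)ᗮ : Submodule ℝ (EuclideanSpace ℝ (Fin n))), (y : EuclideanSpace ℝ (Fin n)) i = 0 := by
    intro y
    have h1 : ⟪θ, (y : EuclideanSpace ℝ (Fin n))⟫ = 0 := Submodule.mem_orthogonal_singleton_iff_inner_right.mp y.2
    rw [PiLp.inner_apply, Finset.sum_eq_single i] at h1
    · simpa [hθi] using h1
    · intro j _ hj
      rw [hoth j hj]; simp
    · simp
  -- measure of Icc
  have hm : (gaussianReal 0 1).real (Set.Icc (-1:ℝ) 1) = m0 / √(2 * Real.pi) := by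
    have h1 := one_dim 0
    simp only [zero_mul, Complex.ofReal_zero, Complex.exp_zero] at h1
    rw [integral_indicator_const _ measurableSet_Icc] at h1
    have h2 : phi 0 = 1 := by
      unfold phi
      simp only [zero_mul, Real.cos_zero, mul_one]
      exact div_self m0_pos.ne'
    rw [h2] at h1
    simp only [Complex.real_smul, mul_one] at h1
    exact_mod_cast h1
  -- measure of the cube
  have hK : (stdGaussian (EuclideanSpace ℝ (Fin n))).real (K n) = (m0 / √(2 * Real.pi)) ^ n := by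
    have h1 := box_fourier θ 0
    simp only [zero_mul, Complex.ofReal_zero, Complex.exp_zero, mul_zero] at h1
    rw [integral_indicator_const _ (K_meas n)] at h1
    have h2 : phi 0 = 1 := by
      unfold phi
      simp only [zero_mul, Real.cos_zero, mul_one]
      exact div_self m0_pos.ne'
    rw [h2, Finset.prod_const, Finset.card_univ, Fintype.card_fin] at h1
    simp only [Complex.real_smul, mul_one] at h1
    exact_mod_cast h1
  -- product structure
  have hmeas : Measurable (fun p : ℝ × ((ℝ ∙ θ)ᗮ : Submodule ℝ (EuclideanSpace ℝ (Fin n))) => p.1 • θ + (p.2 : EuclideanSpace ℝ (Fin n))) := by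
    fun_prop
  have hset : (fun p : ℝ × ((ℝ ∙ θ)ᗮ : Submodule ℝ (EuclideanSpace ℝ (Fin n))) => p.1 • θ + (p.2 : EuclideanSpace ℝ (Fin n))) ⁻¹' (K n)
      = (Set.Icc (-1:ℝ) 1) ×ˢ {x : ((ℝ ∙ θ)ᗮ : Submodule ℝ (EuclideanSpace ℝ (Fin n))) | ∀ i, |(x : EuclideanSpace ℝ (Fin n)) i| ≤ 1} := by
    ext p
    constructor
    · intro hp
      refine ⟨?_, ?_⟩
      · have := hp i
        simp only [PiLp.add_apply, PiLp.smul_apply, smul_eq_mul, hyi, add_zero, abs_mul, hi, mul_one] at this
        exact Set.mem_Icc.mpr (abs_le.mp this)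
      · intro j
        by_cases hj : j = i
        · rw [hj, hyi]; simp
        · have := hp j
          simpa only [PiLp.add_apply, PiLp.smul_apply, smul_eq_mul, hoth j hj, mul_zero, zero_add] using this
    · rintro ⟨h1, h2⟩ j
      by_cases hj : j = i
      · subst hj
        simp only [PiLp.add_apply, PiLp.smul_apply, smul_eq_mul, hyi, add_zero, abs_mul, hi, mul_one]
        exact abs_le.mpr (Set.mem_Icc.mp h1)
      · have := h2 j
        simpa only [PiLp.add_apply, PiLp.smul_apply, smul_eq_mul, hoth j hj, mul_zero, zero_add] using this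
  rw [← decomp θ hθ, map_measureReal_apply hmeas (K_meas n), hset, measureReal_prod_prod, hm] at hK
  have hpos : 0 < m0 / √(2 * Real.pi) := div_pos m0_pos (by positivity)
  have hn : n = (n - 1) + 1 := by
    have := i.pos
    omega
  have h9 : m0 / √(2 * Real.pi) * secG θ = m0 / √(2 * Real.pi) * (m0 / √(2 * Real.pi)) ^ (n - 1) := by
    rw [← pow_succ', ← hn]
    exact hK
  exact mul_left_cancel₀ hpos.ne' h9

end
end CG3
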