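import Pool.Agent.CG3.Base

open MeasureTheory ProbabilityTheory
open scoped BigOperators

namespace CG3
noncomputable section

/-- partial sums of the cosine series -/
def csT (n : ℕ) (z : ℝ) : ℝ := ∑ k ∈ Finset.range n, (-1) ^ k * z ^ (2 * k) / (2 * k).factorial

/-- partial sums of the sine series -/
def snT (n : ℕ) (z : ℝ) : ℝ :=
  ∑ k ∈ Finset.range n, (-1) ^ k * z ^ (2 * k + 1) / (2 * k + 1).factorial

theorem csT_succ (n : ℕ) (z : ℝ) :
    csT (n + 1) z = csT n z + (-1) ^ n * z ^ (2 * n) / (2 * n).factorial := by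
  unfold csT; rw [Finset.sum_range_succ]

theorem snT_succ (n : ℕ) (z : ℝ) :
    snT (n + 1) z = snT n z + (-1) ^ n * z ^ (2 * n + 1) / (2 * n + 1).factorial := by
  unfold snT; rw [Finset.sum_range_succ]

theorem hasDerivAt_snT (n : ℕ) (z : ℝ) : HasDerivAt (snT n) (csT n z) z := by
  induction n with
  | zero =>
    have h0 : snT 0 = fun _ => (0 : ℝ) := by funext y; simp [snT]
    have h1 : csT 0 z = 0 := by simp [csT]
    rw [h0, h1]
    exact hasDerivAt_const z (0 : ℝ)
  | succ n ih =>
    have h0 : snT (n + 1) = fun y => snT n y + (-1) ^ n * y ^ (2 * n + 1) / (2 * n + 1).factorial := by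
      funext y; exact snT_succ n y
    rw [h0, csT_succ]
    refine ih.add ?_
    have h1 := ((hasDerivAt_pow (2 * n + 1) z).const_mul ((-1 : ℝ) ^ n)).div_const
      ((2 * n + 1).factorial : ℝ)
    refine h1.congr_deriv ?_
    have h2 : ((2 * n + 1).factorial : ℝ) = (2 * n + 1 : ℝ) * ((2 * n).factorial : ℝ) := by
      rw [Nat.factorial_succ]; push_cast; ring
    rw [h2]
    have h3 : ((2 * n).factorial : ℝ) ≠ 0 := by positivity
    have h4 : (2 * n + 1 : ℝ) ≠ 0 := by positivity
    rw [show 2 * n + 1 - 1 = 2 * n by omega]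
    push_cast
    field_simp

theorem hasDerivAt_csT (n : ℕ) (z : ℝ) : HasDerivAt (csT (n + 1)) (-snT n z) z := by
  induction n with
  | zero =>
    have h0 : csT (0 + 1) = fun _ => (1 : ℝ) := by funext y; simp [csT]
    have h1 : snT 0 z = 0 := by simp [snT]
    rw [h0, h1, neg_zero]
    exact hasDerivAt_const z (1 : ℝ)
  | succ n ih =>
    have h0 : csT (n + 1 + 1) = fun y => csT (n + 1) y +
        (-1) ^ (n + 1) * y ^ (2 * (n + 1)) / (2 * (n + 1)).factorial := by
      funext y; exact csT_succ (n + 1) y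
    rw [h0, snT_succ, neg_add]
    refine ih.add ?_
    have h1 := ((hasDerivAt_pow (2 * (n + 1)) z).const_mul ((-1 : ℝ) ^ (n + 1))).div_const
      ((2 * (n + 1)).factorial : ℝ)
    refine h1.congr_deriv ?_
    have h2 : ((2 * (n + 1)).factorial : ℝ) = (2 * n + 2 : ℝ) * ((2 * n + 1).factorial : ℝ) := by
      rw [show 2 * (n + 1) = (2 * n + 1) + 1 by ring, Nat.factorial_succ]; push_cast; ring
    rw [h2]
    have h3 : ((2 * n + 1).factorial : ℝ) ≠ 0 := by positivity
    have h4 : (2 * n + 2 : ℝ) ≠ 0 := by positivity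
    rw [show 2 * (n + 1) - 1 = 2 * n + 1 by omega]
    push_cast
    field_simp
    ring

theorem nonneg_of_deriv_nonneg_zero (f f' : ℝ → ℝ) (hf : ∀ z, HasDerivAt f (f' z) z)
    (h0 : f 0 = 0) (hn : ∀ z, 0 ≤ z → 0 ≤ f' z) (z : ℝ) (hz : 0 ≤ z) : 0 ≤ f z := by
  have hm : MonotoneOn f (Set.Ici 0) := by
    apply monotoneOn_of_deriv_nonneg (convex_Ici 0)
    · exact fun x _ => (hf x).continuousAt.continuousWithinAt
    · exact fun x _ => (hf x).differentiableAt.differentiableWithinAt
    · intro x hx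
      rw [interior_Ici] at hx
      rw [(hf x).deriv]
      exact hn x (le_of_lt hx)
  have := hm (Set.mem_Ici.2 le_rfl) (Set.mem_Ici.2 hz) hz
  rwa [h0] at this

theorem csT_zero (n : ℕ) : csT (n + 1) 0 = 1 := by
  unfold csT
  rw [Finset.sum_eq_single 0]
  · simp
  · intro b _ hb
    rw [zero_pow (by omega)]; simp
  · simp

theorem snT_zero (n : ℕ) : snT n 0 = 0 := by
  unfold snT
  apply Finset.sum_eq_zero
  intro b _
  rw [zero_pow (by omega)]; simp

theorem encl (n : ℕ) : (∀ z, 0 ≤ z → 0 ≤ (-1) ^ (n + 1) * (Real.cos z - csT (n + 1) z)) ∧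
    (∀ z, 0 ≤ z → 0 ≤ (-1) ^ (n + 1) * (Real.sin z - snT (n + 1) z)) := by
  have step : ∀ n : ℕ, (∀ z, 0 ≤ z → 0 ≤ (-1 : ℝ) ^ (n + 1) * (Real.cos z - csT (n + 1) z)) →
      (∀ z, 0 ≤ z → 0 ≤ (-1 : ℝ) ^ (n + 1) * (Real.sin z - snT (n + 1) z)) := by
    intro n hc
    apply nonneg_of_deriv_nonneg_zero _ _ _ _ hc
    · intro z
      exact ((Real.hasDerivAt_sin z).sub (hasDerivAt_snT (n + 1) z)).const_mul _
    · rw [Real.sin_zero, snT_zero]; ring
  induction n with
  | zero =>
    have hc : ∀ z, 0 ≤ z → 0 ≤ (-1 : ℝ) ^ (0 + 1) * (Real.cos z - csT (0 + 1) z) := by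
      intro z _
      have : csT (0 + 1) z = 1 := by simp [csT]
      rw [this]
      have := Real.cos_le_one z
      rw [zero_add, pow_one]
      linarith
    exact ⟨hc, step 0 hc⟩
  | succ n ih =>
    have hc : ∀ z, 0 ≤ z → 0 ≤ (-1 : ℝ) ^ (n + 1 + 1) * (Real.cos z - csT (n + 1 + 1) z) := by
      apply nonneg_of_deriv_nonneg_zero _ (fun z => (-1 : ℝ) ^ (n + 1) * (Real.sin z - snT (n + 1) z))
      · intro z
        refine (((Real.hasDerivAt_cos z).sub (hasDerivAt_csT (n + 1) z)).const_mul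
          ((-1 : ℝ) ^ (n + 1 + 1))).congr_deriv ?_
        ring
      · rw [Real.cos_zero, csT_zero]; ring
      · exact ih.2
    exact ⟨hc, step (n + 1) hc⟩

theorem csT_abs (n : ℕ) (z : ℝ) : csT n |z| = csT n z := by
  unfold csT
  apply Finset.sum_congr rfl
  intro k _
  rw [pow_mul, sq_abs, ← pow_mul]

theorem cos_le_csT (K : ℕ) (z : ℝ) : Real.cos z ≤ csT (2 * K + 1) z := by
  have h := (encl (2 * K)).1 |z| (abs_nonneg z)
  rw [Real.cos_abs, csT_abs] at h
  have e : (-1 : ℝ) ^ (2 * K + 1) = -1 := by rw [pow_succ, pow_mul]; norm_num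
  rw [e] at h
  linarith

theorem csT_le_cos (K : ℕ) (z : ℝ) : csT (2 * K + 2) z ≤ Real.cos z := by
  have h := (encl (2 * K + 1)).1 |z| (abs_nonneg z)
  rw [Real.cos_abs, csT_abs] at h
  have e : (-1 : ℝ) ^ (2 * K + 1 + 1) = 1 := by rw [show 2 * K + 1 + 1 = 2 * (K + 1) by ring, pow_mul]; norm_num
  rw [e] at h
  have h' : 0 ≤ 1 * (Real.cos z - csT (2 * K + 2) z) := h
  linarith

theorem sin_le_snT (K : ℕ) (z : ℝ) (hz : 0 ≤ z) : Real.sin z ≤ snT (2 * K + 1) z := by
  have h := (encl (2 * K)).2 z hz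
  have e : (-1 : ℝ) ^ (2 * K + 1) = -1 := by rw [pow_succ, pow_mul]; norm_num
  rw [e] at h
  linarith

theorem snT_le_sin (K : ℕ) (z : ℝ) (hz : 0 ≤ z) : snT (2 * K + 2) z ≤ Real.sin z := by
  have h := (encl (2 * K + 1)).2 z hz
  have e : (-1 : ℝ) ^ (2 * K + 1 + 1) = 1 := by rw [show 2 * K + 1 + 1 = 2 * (K + 1) by ring, pow_mul]; norm_num
  rw [e] at h
  have h' : 0 ≤ 1 * (Real.sin z - snT (2 * K + 2) z) := h
  linarith

theorem snT_neg (n : ℕ) (z : ℝ) : snT n (-z) = -snT n z := by
  unfold snT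
  rw [← Finset.sum_neg_distrib]
  apply Finset.sum_congr rfl
  intro k _
  rw [Odd.neg_pow ⟨k, rfl⟩]
  ring

theorem xsin_le (K : ℕ) (t x : ℝ) (ht : 0 ≤ t) : x * Real.sin (t * x) ≤ x * snT (2 * K + 1) (t * x) := by
  rcases le_total 0 x with hx | hx
  · exact mul_le_mul_of_nonneg_left (sin_le_snT K _ (mul_nonneg ht hx)) hx
  · have h := mul_le_mul_of_nonneg_left (sin_le_snT K (t * (-x)) (mul_nonneg ht (neg_nonneg.2 hx)))
      (neg_nonneg.2 hx)
    rw [mul_neg, Real.sin_neg, snT_neg] at h
    linarith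

theorem le_xsin (K : ℕ) (t x : ℝ) (ht : 0 ≤ t) : x * snT (2 * K + 2) (t * x) ≤ x * Real.sin (t * x) := by
  rcases le_total 0 x with hx | hx
  · exact mul_le_mul_of_nonneg_left (snT_le_sin K _ (mul_nonneg ht hx)) hx
  · have h := mul_le_mul_of_nonneg_left (snT_le_sin K (t * (-x)) (mul_nonneg ht (neg_nonneg.2 hx)))
      (neg_nonneg.2 hx)
    rw [mul_neg, Real.sin_neg, snT_neg] at h
    linarith

theorem w_cont : Continuous w := by unfold w; fun_prop

theorem w_pos (x : ℝ) : 0 < w x := Real.exp_pos _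

theorem m0_pos : 0 < m0 := by
  unfold m0
  apply intervalIntegral.intervalIntegral_pos_of_pos_on (w_cont.intervalIntegrable _ _)
  · intro x _; exact w_pos x
  · norm_num

theorem csT_cont (n : ℕ) : Continuous (csT n) := by unfold csT; fun_prop

theorem snT_cont (n : ℕ) : Continuous (snT n) := by unfold snT; fun_prop

theorem mom_eq (k : ℕ) : mom k = (∫ x in (-1 : ℝ)..1, w x * x ^ (2 * k)) / m0 := by
  induction k with
  | zero =>
    simp only [mul_zero, pow_zero, mul_one]
    change (1 : ℝ) = m0 / m0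
    rw [div_self m0_pos.ne']
  | succ k ih =>
    have hm := m0_pos.ne'
    change (2 * k + 1) * mom k - cc = _
    rw [ih]
    have hd : ∀ x ∈ Set.uIcc (-1 : ℝ) 1, HasDerivAt (fun x => -(w x) * x ^ (2 * k + 1))
        (w x * x ^ (2 * (k + 1)) - (2 * k + 1) * (w x * x ^ (2 * k))) x := by
      intro x _
      have h1 : HasDerivAt w (w x * (-x)) x := by
        have h2 : HasDerivAt (fun x : ℝ => -(x ^ 2) / 2) (-x) x := by
          have h3 := ((hasDerivAt_pow 2 x).neg).div_const 2
          refine h3.congr_deriv ?_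
          norm_num
          ring
        exact h2.exp
      have h4 := (h1.neg).mul (hasDerivAt_pow (2 * k + 1) x)
      refine h4.congr_deriv ?_
      rw [show 2 * k + 1 - 1 = 2 * k by omega, show 2 * (k + 1) = 2 * k + 1 + 1 by ring]
      push_cast
      rw [Pi.neg_apply]
      ring
    have hi : IntervalIntegrable (fun x => w x * x ^ (2 * (k + 1)) -
        (2 * k + 1) * (w x * x ^ (2 * k))) volume (-1) 1 := by
      apply Continuous.intervalIntegrable
      have := w_cont
      fun_prop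
    have hI := intervalIntegral.integral_eq_sub_of_hasDerivAt hd hi
    have hw1 : IntervalIntegrable (fun x => w x * x ^ (2 * (k + 1))) volume (-1) 1 := by
      apply Continuous.intervalIntegrable
      have := w_cont
      fun_prop
    have hw2 : IntervalIntegrable (fun x => (2 * k + 1 : ℝ) * (w x * x ^ (2 * k))) volume (-1) 1 := by
      apply Continuous.intervalIntegrable
      have := w_cont
      fun_prop
    rw [intervalIntegral.integral_sub hw1 hw2, intervalIntegral.integral_const_mul] at hI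
    have e1 : w 1 = Real.exp (-(1 / 2)) := by unfold w; norm_num
    have e2 : w (-1) = Real.exp (-(1 / 2)) := by unfold w; norm_num
    rw [e1, e2, one_pow, Odd.neg_one_pow ⟨k, rfl⟩] at hI
    have hI' : (∫ x in (-1 : ℝ)..1, w x * x ^ (2 * (k + 1))) =
        (2 * k + 1) * (∫ x in (-1 : ℝ)..1, w x * x ^ (2 * k)) - 2 * Real.exp (-(1 / 2)) := by
      linarith
    rw [hI']
    unfold cc
    field_simp

theorem mom_nonneg (k : ℕ) : 0 ≤ mom k := by
  rw [mom_eq]
  apply div_nonneg _ m0_pos.le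
  apply intervalIntegral.integral_nonneg (by norm_num)
  intro x _
  rw [pow_mul]
  have := w_pos x
  positivity

theorem mom_anti (k : ℕ) : mom (k + 1) ≤ mom k := by
  rw [mom_eq, mom_eq]
  apply div_le_div_of_nonneg_right _ m0_pos.le
  apply intervalIntegral.integral_mono_on (by norm_num)
  · apply Continuous.intervalIntegrable
    have := w_cont
    fun_prop
  · apply Continuous.intervalIntegrable
    have := w_cont
    fun_prop
  · intro x hx
    apply mul_le_mul_of_nonneg_left _ (w_pos x).le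
    rw [pow_mul, pow_mul, pow_succ]
    have h1 : x ^ 2 ≤ 1 := by
      rw [Set.mem_Icc] at hx
      nlinarith [hx.1, hx.2]
    have h2 : 0 ≤ (x ^ 2) ^ k := by positivity
    nlinarith

theorem int_csT (n : ℕ) (t : ℝ) : (∫ x in (-1 : ℝ)..1, w x * csT n (t * x)) / m0 =
    ∑ k ∈ Finset.range n, (-1) ^ k * mom k * t ^ (2 * k) / (2 * k).factorial := by
  have h1 : ∀ x, w x * csT n (t * x) = ∑ k ∈ Finset.range n,
      ((-1) ^ k * t ^ (2 * k) / (2 * k).factorial) * (w x * x ^ (2 * k)) := by
    intro x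
    unfold csT
    rw [Finset.mul_sum]
    apply Finset.sum_congr rfl
    intro k _
    rw [mul_pow]
    ring
  simp_rw [h1]
  rw [intervalIntegral.integral_finsetSum]
  · rw [Finset.sum_div]
    apply Finset.sum_congr rfl
    intro k _
    rw [intervalIntegral.integral_const_mul, mom_eq k]
    ring
  · intro k _
    apply Continuous.intervalIntegrable
    have := w_cont
    fun_prop

theorem int_snT (n : ℕ) (t : ℝ) : (∫ x in (-1 : ℝ)..1, w x * (x * snT n (t * x))) / m0 =
    ∑ k ∈ Finset.range n, (-1) ^ k * mom (k + 1) * t ^ (2 * k + 1) / (2 * k + 1).factorial := by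
  have h1 : ∀ x, w x * (x * snT n (t * x)) = ∑ k ∈ Finset.range n,
      ((-1) ^ k * t ^ (2 * k + 1) / (2 * k + 1).factorial) * (w x * x ^ (2 * (k + 1))) := by
    intro x
    unfold snT
    rw [Finset.mul_sum, Finset.mul_sum]
    apply Finset.sum_congr rfl
    intro k _
    rw [mul_pow]
    ring
  simp_rw [h1]
  rw [intervalIntegral.integral_finsetSum]
  · rw [Finset.sum_div]
    apply Finset.sum_congr rfl
    intro k _
    rw [intervalIntegral.integral_const_mul, mom_eq (k + 1)]
    ring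
  · intro k _
    apply Continuous.intervalIntegrable
    have := w_cont
    fun_prop

/-- Taylor enclosures of phi (valid for all real t) -/
theorem phi_le_taylor (K : ℕ) (t : ℝ) :
    phi t ≤ ∑ k ∈ Finset.range (2 * K + 1), (-1) ^ k * mom k * t ^ (2 * k) / (2 * k).factorial := by
  rw [← int_csT]
  unfold phi
  apply div_le_div_of_nonneg_right _ m0_pos.le
  have hw := w_cont
  have hc := csT_cont (2 * K + 1)
  apply intervalIntegral.integral_mono_on (by norm_num)
  · apply Continuous.intervalIntegrable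
    fun_prop
  · apply Continuous.intervalIntegrable
    fun_prop
  · intro x _
    exact mul_le_mul_of_nonneg_left (cos_le_csT K _) (w_pos x).le

theorem taylor_le_phi (K : ℕ) (t : ℝ) :
    ∑ k ∈ Finset.range (2 * K + 2), (-1) ^ k * mom k * t ^ (2 * k) / (2 * k).factorial ≤ phi t := by
  rw [← int_csT]
  unfold phi
  apply div_le_div_of_nonneg_right _ m0_pos.le
  have hw := w_cont
  have hc := csT_cont (2 * K + 2)
  apply intervalIntegral.integral_mono_on (by norm_num)
  · apply Continuous.intervalIntegrable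
    fun_prop
  · apply Continuous.intervalIntegrable
    fun_prop
  · intro x _
    exact mul_le_mul_of_nonneg_left (csT_le_cos K _) (w_pos x).le

/-- Taylor enclosures of `phi' (t) / t`-type integral: `∫ w x sin(tx) dx / m0 = - phi'(t)`, `t ≥ 0` -/
theorem dphi_ge_taylor (K : ℕ) (t : ℝ) (ht : 0 ≤ t) :
    ∑ k ∈ Finset.range (2 * K + 2), (-1) ^ k * mom (k + 1) * t ^ (2 * k + 1) / (2 * k + 1).factorial
      ≤ (∫ x in (-1 : ℝ)..1, w x * x * Real.sin (t * x)) / m0 := by
  rw [← int_snT]
  apply div_le_div_of_nonneg_right _ m0_pos.le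
  have hw := w_cont
  have hc := snT_cont (2 * K + 2)
  apply intervalIntegral.integral_mono_on (by norm_num)
  · apply Continuous.intervalIntegrable
    fun_prop
  · apply Continuous.intervalIntegrable
    fun_prop
  · intro x _
    rw [mul_assoc (w x) x]
    exact mul_le_mul_of_nonneg_left (le_xsin K t x ht) (w_pos x).le

theorem dphi_le_taylor (K : ℕ) (t : ℝ) (ht : 0 ≤ t) :
    (∫ x in (-1 : ℝ)..1, w x * x * Real.sin (t * x)) / m0 ≤
    ∑ k ∈ Finset.range (2 * K + 1), (-1) ^ k * mom (k + 1) * t ^ (2 * k + 1) / (2 * k + 1).factorial := by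
  rw [← int_snT]
  apply div_le_div_of_nonneg_right _ m0_pos.le
  have hw := w_cont
  have hc := snT_cont (2 * K + 1)
  apply intervalIntegral.integral_mono_on (by norm_num)
  · apply Continuous.intervalIntegrable
    fun_prop
  · apply Continuous.intervalIntegrable
    fun_prop
  · intro x _
    rw [mul_assoc (w x) x]
    exact mul_le_mul_of_nonneg_left (xsin_le K t x ht) (w_pos x).le

end
end CG3
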