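import Pool.Agent.CG3.PhiBasic
import Pool.Agent.CG3.Taylor
import Pool.Agent.CG3.Consts
import Pool.Agent.CG3.Planch
import Pool.Agent.CG3.Holder
import Pool.Agent.CG3.Section
import Pool.Agent.CG3.BoundsMT
import Pool.Agent.CG3.J8
import Pool.Agent.CG3.J9
import Pool.Agent.CG3.J10
import Pool.Agent.CG3.J11
import Pool.Agent.CG3.J12
import Pool.Agent.CG3.J13

open MeasureTheory ProbabilityTheory
open scoped BigOperators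

namespace CG3
noncomputable section

theorem phi_cont : Continuous phi := phi_contDiff.continuous

theorem phi_meas : Measurable phi := phi_cont.measurable

/-- `phi ≤ exp (-PP)` on `[0, 5.8]` -/
theorem fP : ∀ t : ℝ, 0 ≤ t → t ≤ 29 / 5 → phi t ≤ Real.exp (-(PP t)) :=
  phi_le_expP phi_zero phi_deriv phi_le_taylor taylor_le_phi dphi_ge_taylor dphi_le_taylor cc_lo cc_hi

def fsmall := phi_small phi_neg phi_deriv phi_le_taylor taylor_le_phi dphi_ge_taylor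
  dphi_le_taylor cc_lo cc_hi fP phi_decay

theorem f3 : ∀ t : ℝ, 3 ≤ t → |phi t| ≤ 3 / 20 := fsmall.1

theorem fg : ∀ t : ℝ, |t| ≤ 181 / 50 → |phi t| ≤ Real.exp (-((1 - cc) * t ^ 2 / 2)) := fsmall.2.1

theorem fpos : ∀ t : ℝ, 0 ≤ t → t ≤ 69 / 20 → 0 < phi t := fsmall.2.2.1

theorem fnegative : ∀ t : ℝ, 7 / 2 ≤ t → t ≤ 32 / 5 → phi t < 0 := fsmall.2.2.2

theorem fNP : ∀ s : ℝ, 2 ≤ s → ∫ t : ℝ, |phi t| ^ s ≤ √(2 * Real.pi / (s * (1 - cc))) :=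
  NP_bound phi_meas phi_neg f3 fg phi_rpow_integrable int_phi_sq m0_lo m0_hi B1_lo B1_hi cc_lo cc_hi

def fR := R_bounds phi_neg phi_cont phi_le_taylor taylor_le_phi phi_rpow_integrable phi_decay
  int_phi_sq m0_lo m0_hi B1_lo B1_hi cc_lo cc_hi

theorem fT2 {n : ℕ} (θ : Fin n → ℝ) (hθ : ∑ k, θ k ^ 2 = 1) (i j : Fin n) (hij : i ≠ j)
    (hj : 0 < θ j) (hji : θ j ≤ θ i) (hk : ∀ k, k ≠ i → 0 ≤ θ k ∧ θ k ≤ θ j)
    (hx : θ i ^ 2 ≤ 21 / 40) :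
    ∫ ξ : ℝ, ∏ k, phi (θ k * ξ) ≤
      Mint (∑ k, θ k ^ 4) (∑ k, θ k ^ 6) (∑ k, θ k ^ 8) (∑ k, θ k ^ 10)
      + 3 / 10 * (∫ ξ in Set.Ioi (min (69 / 20 / θ j) 8),
          Real.exp (-((1 - cc) * (1 - θ i ^ 2) / 2 * ξ ^ 2)))
      + (3 / 20 : ℝ) ^ ((1 - θ i ^ 2 - θ j ^ 2) / θ j ^ 2) * (2 / √(θ i * θ j))
          * √(Rt (181 / 50 * θ i / θ j) * Rt (181 / 50)) :=
  F_le_T2 phi_cont phi_neg fP f3 fg fpos phi_rpow_integrable cc_lo cc_hi θ hθ i j hij hj hji hk hx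

theorem fCS {n : ℕ} (θ : Fin n → ℝ) (hθ : ∑ k, θ k ^ 2 = 1) (i j : Fin n) (hij : i ≠ j)
    (hi : 0 < θ i) (hj : 0 < θ j) (u : ℝ) (hu : 0 < u)
    (hk : ∀ k, k ≠ i → k ≠ j → 0 ≤ θ k ∧ θ k ^ 2 ≤ u) :
    ∫ ξ : ℝ, ∏ k, phi (θ k * ξ) ≤
      √((1 / θ i * ∫ t : ℝ, phi t ^ 2 *
            Real.exp (-((1 - cc) * ((1 - θ i ^ 2 - θ j ^ 2) / θ i ^ 2) * t ^ 2 / 2))) *
        (1 / θ j * ∫ t : ℝ, phi t ^ 2 *
            Real.exp (-((1 - cc) * ((1 - θ i ^ 2 - θ j ^ 2) / θ j ^ 2) * t ^ 2 / 2))))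
      + (3 / 20 : ℝ) ^ ((1 - θ i ^ 2 - θ j ^ 2) / u) * (2 / √(θ i * θ j))
          * √(Rt (181 / 50 * θ i / √u) * Rt (181 / 50 * θ j / √u)) :=
  F_le_CS phi_cont phi_neg f3 fg phi_rpow_integrable cc_lo cc_hi θ hθ i j hij hi hj u hu hk

end
end CG3
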