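import Pool.Agent.CG3.Base2

open MeasureTheory ProbabilityTheory
open scoped BigOperators

namespace CG3
noncomputable section

/-- `(y - 1/2) e^{-y}` -/
def Cs_bounds_kf (y : ℝ) : ℝ := (y - 1 / 2) * Real.exp (-y)

lemma Cs_bounds_kf_deriv (y : ℝ) :
    HasDerivAt Cs_bounds_kf ((3 / 2 - y) * Real.exp (-y)) y := by
  have h1 : HasDerivAt (fun y : ℝ => y - 1 / 2) 1 y := (hasDerivAt_id y).sub_const _
  have h2 : HasDerivAt (fun y : ℝ => Real.exp (-y)) (Real.exp (-y) * (-1)) y :=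
    (hasDerivAt_id y).neg.exp
  have h3 : HasDerivAt Cs_bounds_kf (1 * Real.exp (-y) + (y - 1 / 2) * (Real.exp (-y) * (-1))) y :=
    h1.mul h2
  refine h3.congr_deriv ?_
  ring

lemma Cs_bounds_kf_cont : Continuous Cs_bounds_kf := by
  unfold Cs_bounds_kf
  fun_prop

lemma Cs_bounds_kf_min {y1 y y2 m : ℝ} (h1 : y1 ≤ y) (h2 : y ≤ y2) (m1 : m ≤ Cs_bounds_kf y1)
    (m2 : m ≤ Cs_bounds_kf y2) : m ≤ Cs_bounds_kf y := by
  rcases le_total y (3 / 2) with h | h
  · refine m1.trans ?_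
    have hm : MonotoneOn Cs_bounds_kf (Set.Iic (3 / 2)) := by
      apply monotoneOn_of_deriv_nonneg (convex_Iic _) Cs_bounds_kf_cont.continuousOn
      · intro x _
        exact (Cs_bounds_kf_deriv x).differentiableAt.differentiableWithinAt
      · intro x hx
        rw [interior_Iic] at hx
        rw [(Cs_bounds_kf_deriv x).deriv]
        have : x < 3 / 2 := hx
        exact mul_nonneg (by linarith) (Real.exp_pos _).le
    exact hm (h1.trans h) h h1
  · refine m2.trans ?_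
    have hm : AntitoneOn Cs_bounds_kf (Set.Ici (3 / 2)) := by
      apply antitoneOn_of_deriv_nonpos (convex_Ici _) Cs_bounds_kf_cont.continuousOn
      · intro x _
        exact (Cs_bounds_kf_deriv x).differentiableAt.differentiableWithinAt
      · intro x hx
        rw [interior_Ici] at hx
        rw [(Cs_bounds_kf_deriv x).deriv]
        have : 3 / 2 < x := hx
        exact mul_nonpos_of_nonpos_of_nonneg (by linarith) (Real.exp_pos _).le
    exact hm h (h.trans h2) h2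

/-- lower bound for `e^{-z}` -/
def Cs_bounds_eLo (z : ℝ) : ℝ :=
  1 - z + z ^ 2 / 2 - z ^ 3 / 6 + z ^ 4 / 24 - z ^ 5 / 120 - z ^ 6 * (7 / 4320)

lemma Cs_bounds_eLo_le {z : ℝ} (h0 : 0 ≤ z) (h1 : z ≤ 1) :
    Cs_bounds_eLo z ≤ Real.exp (-z) := by
  have h := Real.exp_bound (x := -z) (by rw [abs_neg, abs_of_nonneg h0]; exact h1)
    (n := 6) (by norm_num)
  rw [abs_neg, abs_of_nonneg h0] at h
  have h2 := (abs_le.1 h).1
  simp only [Finset.sum_range_succ, Finset.sum_range_zero, Nat.factorial, Nat.succ_eq_add_one]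
    at h2
  unfold Cs_bounds_eLo
  norm_num at h2
  nlinarith [h2]

lemma Cs_bounds_kf_lb {y m : ℝ} (e : ℝ) (h0 : 1 / 2 ≤ y) (h1 : y ≤ 16)
    (he0 : 0 ≤ e) (hE : e ≤ Cs_bounds_eLo (y / 16))
    (h : m ≤ (y - 1 / 2) * e ^ 16) : m ≤ Cs_bounds_kf y := by
  refine h.trans ?_
  unfold Cs_bounds_kf
  apply mul_le_mul_of_nonneg_left _ (by linarith)
  have h2 : Real.exp (-y) = Real.exp (-(y / 16)) ^ 16 := by
    rw [← Real.exp_nat_mul]
    congr 1
    push_cast
    ring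
  rw [h2]
  exact pow_le_pow_left₀ he0 (hE.trans (Cs_bounds_eLo_le (by linarith) (by linarith))) 16

lemma Cs_bounds_kf_lbneg {y m : ℝ} (h0 : 0 ≤ y) (h1 : y ≤ 1 / 2)
    (h : m ≤ -(1 / 2 - y) / (1 + y + y ^ 2 / 2)) : m ≤ Cs_bounds_kf y := by
  refine h.trans ?_
  unfold Cs_bounds_kf
  have h2 := Real.quadratic_le_exp_of_nonneg h0
  have h3 : 0 < 1 + y + y ^ 2 / 2 := by positivity
  have h4 : Real.exp (-y) ≤ (1 + y + y ^ 2 / 2)⁻¹ := by
    rw [Real.exp_neg]
    exact inv_anti₀ h3 h2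
  rw [div_eq_mul_inv]
  nlinarith

/-- the properties of `l = - log phi` and `D = t l' - 2 l` -/
structure Cs_bounds_Hy (l D : ℝ → ℝ) : Prop where
  cl : ContinuousOn l (Set.Icc 0 3)
  cD : ContinuousOn D (Set.Icc 0 3)
  lo : ∀ t, 0 ≤ t → t ≤ 3 → 0.145562547386 * t ^ 2 + 0.00374 * t ^ 4 ≤ l t
  hi : ∀ t, 0 ≤ t → t ≤ 13 / 5 → l t ≤ 0.1455625473864 * t ^ 2 + 37401 / 10000000 * t ^ 4
    + 1883 / 10000000 * t ^ 6 + 114 / 10000000 * t ^ 8 + 75 / 100000000 * t ^ 10
    + 12 / 100000000 * t ^ 12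
  Dlo : ∀ t, 0 ≤ t → t ≤ 3 → 748 / 100000 * t ^ 4 ≤ D t
  Dhi : ∀ t, 0 ≤ t → t ≤ 83 / 100 → D t ≤ 74802 / 10000000 * t ^ 4 * (1 + 12 / 100 * t ^ 2)

/-- the integrand -/
def Cs_bounds_gs (l D : ℝ → ℝ) (s t : ℝ) : ℝ := s * (D t * Cs_bounds_kf (s * l t))

lemma Cs_bounds_small {l D : ℝ → ℝ} (H : Cs_bounds_Hy l D) {s t : ℝ} (hs : 49 / 10 ≤ s)
    (ht0 : 0 ≤ t) (ht3 : t ≤ 3) (h : s * l t < 1 / 2) : t ≤ 83 / 100 := by
  by_contra hc
  push Not at hc
  have h1 := H.lo t ht0 ht3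
  have h2 : (83 / 100 : ℝ) ^ 2 ≤ t ^ 2 := pow_le_pow_left₀ (by norm_num) hc.le 2
  have h3 : (83 / 100 : ℝ) ^ 4 ≤ t ^ 4 := pow_le_pow_left₀ (by norm_num) hc.le 4
  have h4 : (0.10205 : ℝ) ≤ l t := by
    norm_num at h2 h3 h1 ⊢
    linarith
  nlinarith

lemma Cs_bounds_cell {l D : ℝ → ℝ} (H : Cs_bounds_Hy l D) {s s0 u0 r x0 x1 y1 y2 m c t : ℝ}
    (hs0 : 49 / 10 ≤ s0) (hs : s0 ≤ s) (hu : u0 * s0 = 1) (hr : 0 < r) (hrs : r ^ 2 * s = 1)
    (hx0 : 0 ≤ x0) (hx1 : x1 ^ 2 * u0 ≤ (13 / 5) ^ 2)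
    (ht0 : x0 * r ≤ t) (ht1 : t ≤ x1 * r)
    (hy1 : y1 ≤ 0.145562547386 * x0 ^ 2)
    (hy2 : 0.1455625473864 * x1 ^ 2 + 37401 / 10000000 * (x1 ^ 2) ^ 2 * u0
      + 1883 / 10000000 * (x1 ^ 2) ^ 3 * u0 ^ 2 + 114 / 10000000 * (x1 ^ 2) ^ 4 * u0 ^ 3
      + 75 / 100000000 * (x1 ^ 2) ^ 5 * u0 ^ 4 + 12 / 100000000 * (x1 ^ 2) ^ 6 * u0 ^ 5 ≤ y2)
    (m1 : m ≤ Cs_bounds_kf y1) (m2 : m ≤ Cs_bounds_kf y2)
    (hc : (0 ≤ m ∧ c = 748 / 100000) ∨
      (m ≤ 0 ∧ c = 74802 / 10000000 * (1 + 12 / 100 * (x1 ^ 2 * u0)))) :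
    (s * c * m) * t ^ 4 ≤ Cs_bounds_gs l D s t := by
  have hs0' : 0 < s0 := by linarith
  have hspos : 0 < s := by linarith
  have hu0 : 0 < u0 := by
    by_contra h
    push Not at h
    nlinarith
  have ht : 0 ≤ t := (mul_nonneg hx0 hr.le).trans ht0
  set v := r ^ 2 with hv
  have hv0 : 0 < v := by positivity
  have hvu : v ≤ u0 := by
    have h1 : v * s0 ≤ u0 * s0 := by
      rw [hu, ← hrs]
      exact mul_le_mul_of_nonneg_left hs hv0.le
    exact le_of_mul_le_mul_right h1 hs0'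
  set X := t ^ 2 * s with hX
  have hX0 : 0 ≤ X := by positivity
  have ht2 : t ^ 2 = X * v := by
    rw [hX, mul_assoc, mul_comm s v, hrs, mul_one]
  have hXx0 : x0 ^ 2 ≤ X := by
    have h1 : (x0 * r) ^ 2 ≤ t ^ 2 := pow_le_pow_left₀ (mul_nonneg hx0 hr.le) ht0 2
    have h2 : (x0 * r) ^ 2 * s ≤ t ^ 2 * s := mul_le_mul_of_nonneg_right h1 hspos.le
    have h3 : (x0 * r) ^ 2 * s = x0 ^ 2 := by
      rw [mul_pow, mul_assoc, hrs, mul_one]
    linarith
  have hXx1 : X ≤ x1 ^ 2 := by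
    have h1 : t ^ 2 ≤ (x1 * r) ^ 2 := pow_le_pow_left₀ ht ht1 2
    have h2 : t ^ 2 * s ≤ (x1 * r) ^ 2 * s := mul_le_mul_of_nonneg_right h1 hspos.le
    have h3 : (x1 * r) ^ 2 * s = x1 ^ 2 := by
      rw [mul_pow, mul_assoc, hrs, mul_one]
    linarith
  have ht26 : t ≤ 13 / 5 := by
    have h1 : t ^ 2 ≤ (13 / 5) ^ 2 := by
      rw [ht2]
      calc X * v ≤ x1 ^ 2 * u0 := mul_le_mul hXx1 hvu hv0.le (by positivity)
        _ ≤ (13 / 5) ^ 2 := hx1
    exact le_of_sq_le_sq h1 (by norm_num)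
  have ht3 : t ≤ 3 := by linarith
  set y := s * l t with hy
  have hlo := H.lo t ht ht3
  have hyl : y1 ≤ y := by
    have h1 : s * (0.145562547386 * t ^ 2) ≤ s * l t := by
      apply mul_le_mul_of_nonneg_left _ hspos.le
      have : 0 ≤ 0.00374 * t ^ 4 := by positivity
      linarith
    have h2 : s * (0.145562547386 * t ^ 2) = 0.145562547386 * X := by rw [hX]; ring
    have h3 : 0.145562547386 * x0 ^ 2 ≤ 0.145562547386 * X :=
      mul_le_mul_of_nonneg_left hXx0 (by norm_num)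
    linarith
  have hyu : y ≤ y2 := by
    have h1 := H.hi t ht ht26
    have h2 : s * l t ≤ s * (0.1455625473864 * t ^ 2 + 37401 / 10000000 * t ^ 4
      + 1883 / 10000000 * t ^ 6 + 114 / 10000000 * t ^ 8 + 75 / 100000000 * t ^ 10
      + 12 / 100000000 * t ^ 12) := mul_le_mul_of_nonneg_left h1 hspos.le
    have e1 : s * v = 1 := by rw [mul_comm]; exact hrs
    have h3 : s * (0.1455625473864 * t ^ 2 + 37401 / 10000000 * t ^ 4
      + 1883 / 10000000 * t ^ 6 + 114 / 10000000 * t ^ 8 + 75 / 100000000 * t ^ 10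
      + 12 / 100000000 * t ^ 12) = 0.1455625473864 * X + 37401 / 10000000 * X ^ 2 * v
      + 1883 / 10000000 * X ^ 3 * v ^ 2 + 114 / 10000000 * X ^ 4 * v ^ 3
      + 75 / 100000000 * X ^ 5 * v ^ 4 + 12 / 100000000 * X ^ 6 * v ^ 5 := by
      have e4 : t ^ 4 = (t ^ 2) ^ 2 := by ring
      have e6 : t ^ 6 = (t ^ 2) ^ 3 := by ring
      have e8 : t ^ 8 = (t ^ 2) ^ 4 := by ring
      have e10 : t ^ 10 = (t ^ 2) ^ 5 := by ring
      have e12 : t ^ 12 = (t ^ 2) ^ 6 := by ring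
      rw [e4, e6, e8, e10, e12, ht2]
      calc s * (0.1455625473864 * (X * v) + 37401 / 10000000 * (X * v) ^ 2
          + 1883 / 10000000 * (X * v) ^ 3 + 114 / 10000000 * (X * v) ^ 4
          + 75 / 100000000 * (X * v) ^ 5 + 12 / 100000000 * (X * v) ^ 6)
          = (s * v) * (0.1455625473864 * X + 37401 / 10000000 * X ^ 2 * v
            + 1883 / 10000000 * X ^ 3 * v ^ 2 + 114 / 10000000 * X ^ 4 * v ^ 3
            + 75 / 100000000 * X ^ 5 * v ^ 4 + 12 / 100000000 * X ^ 6 * v ^ 5) := by ring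
        _ = _ := by rw [e1, one_mul]
    have h4 : 0.1455625473864 * X + 37401 / 10000000 * X ^ 2 * v
      + 1883 / 10000000 * X ^ 3 * v ^ 2 + 114 / 10000000 * X ^ 4 * v ^ 3
      + 75 / 100000000 * X ^ 5 * v ^ 4 + 12 / 100000000 * X ^ 6 * v ^ 5 ≤
      0.1455625473864 * x1 ^ 2 + 37401 / 10000000 * (x1 ^ 2) ^ 2 * u0
      + 1883 / 10000000 * (x1 ^ 2) ^ 3 * u0 ^ 2 + 114 / 10000000 * (x1 ^ 2) ^ 4 * u0 ^ 3
      + 75 / 100000000 * (x1 ^ 2) ^ 5 * u0 ^ 4 + 12 / 100000000 * (x1 ^ 2) ^ 6 * u0 ^ 5 := by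
      gcongr
    linarith
  have hm : m ≤ Cs_bounds_kf y := Cs_bounds_kf_min hyl hyu m1 m2
  have hDlo := H.Dlo t ht ht3
  have ht4 : 0 ≤ t ^ 4 := by positivity
  have hD0 : 0 ≤ D t := (by positivity : (0 : ℝ) ≤ 748 / 100000 * t ^ 4).trans hDlo
  unfold Cs_bounds_gs
  rw [mul_assoc, mul_assoc]
  apply mul_le_mul_of_nonneg_left _ hspos.le
  rw [← hy]
  rcases hc with ⟨hm0, hc⟩ | ⟨hm0, hc⟩
  · rw [hc]
    calc 748 / 100000 * (m * t ^ 4) = (748 / 100000 * t ^ 4) * m := by ring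
      _ ≤ D t * Cs_bounds_kf y := mul_le_mul hDlo hm hm0 hD0
  · have hc0 : 0 ≤ c := by
      rw [hc]
      positivity
    rcases le_total 0 (Cs_bounds_kf y) with hk | hk
    · have h1 : 0 ≤ D t * Cs_bounds_kf y := mul_nonneg hD0 hk
      have h2 : c * (m * t ^ 4) ≤ 0 :=
        mul_nonpos_of_nonneg_of_nonpos hc0 (mul_nonpos_of_nonpos_of_nonneg hm0 ht4)
      linarith
    · by_cases hyh : y < 1 / 2
      · have ht83 := Cs_bounds_small H (hs0.trans hs) ht ht3 hyh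
        have hDhi := H.Dhi t ht ht83
        have h1 : D t ≤ c * t ^ 4 := by
          refine hDhi.trans ?_
          rw [hc, ht2]
          have h5 : X * v ≤ x1 ^ 2 * u0 := mul_le_mul hXx1 hvu hv0.le (by positivity)
          calc 74802 / 10000000 * t ^ 4 * (1 + 12 / 100 * (X * v)) ≤
                74802 / 10000000 * t ^ 4 * (1 + 12 / 100 * (x1 ^ 2 * u0)) := by
                apply mul_le_mul_of_nonneg_left _ (by positivity)
                linarith
            _ = _ := by ring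
        calc c * (m * t ^ 4) = (c * t ^ 4) * m := by ring
          _ ≤ (c * t ^ 4) * Cs_bounds_kf y := mul_le_mul_of_nonneg_left hm (by positivity)
          _ ≤ D t * Cs_bounds_kf y := mul_le_mul_of_nonpos_right h1 hk
      · push Not at hyh
        have h1 : 0 ≤ Cs_bounds_kf y := by
          unfold Cs_bounds_kf
          exact mul_nonneg (by linarith) (Real.exp_pos _).le
        have h2 : 0 ≤ D t * Cs_bounds_kf y := mul_nonneg hD0 h1
        have h3 : c * (m * t ^ 4) ≤ 0 :=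
          mul_nonpos_of_nonneg_of_nonpos hc0 (mul_nonpos_of_nonpos_of_nonneg hm0 ht4)
        linarith

lemma Cs_bounds_gs_cont {l D : ℝ → ℝ} (H : Cs_bounds_Hy l D) (s : ℝ) :
    ContinuousOn (Cs_bounds_gs l D s) (Set.Icc 0 3) := by
  unfold Cs_bounds_gs
  refine continuousOn_const.mul (H.cD.mul ?_)
  exact Cs_bounds_kf_cont.comp_continuousOn (continuousOn_const.mul H.cl)

lemma Cs_bounds_gs_int {l D : ℝ → ℝ} (H : Cs_bounds_Hy l D) (s : ℝ) {a b : ℝ} (ha : 0 ≤ a)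
    (hab : a ≤ b) (hb : b ≤ 3) : IntervalIntegrable (Cs_bounds_gs l D s) volume a b := by
  apply ContinuousOn.intervalIntegrable
  rw [Set.uIcc_of_le hab]
  exact (Cs_bounds_gs_cont H s).mono (Set.Icc_subset_Icc ha hb)

lemma Cs_bounds_step {l D : ℝ → ℝ} (H : Cs_bounds_Hy l D)
    {s s0 u0 r x0 x1 y1 y2 m c V V' : ℝ}
    (hs0 : 49 / 10 ≤ s0) (hs : s0 ≤ s) (hu : u0 * s0 = 1) (hr : 0 < r) (hrs : r ^ 2 * s = 1)
    (hx0 : 0 ≤ x0) (hx01 : x0 ≤ x1) (hx1 : x1 ^ 2 * u0 ≤ (13 / 5) ^ 2)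
    (hy1 : y1 ≤ 0.145562547386 * x0 ^ 2)
    (hy2 : 0.1455625473864 * x1 ^ 2 + 37401 / 10000000 * (x1 ^ 2) ^ 2 * u0
      + 1883 / 10000000 * (x1 ^ 2) ^ 3 * u0 ^ 2 + 114 / 10000000 * (x1 ^ 2) ^ 4 * u0 ^ 3
      + 75 / 100000000 * (x1 ^ 2) ^ 5 * u0 ^ 4 + 12 / 100000000 * (x1 ^ 2) ^ 6 * u0 ^ 5 ≤ y2)
    (m1 : m ≤ Cs_bounds_kf y1) (m2 : m ≤ Cs_bounds_kf y2)
    (hc : (0 ≤ m ∧ c = 748 / 100000) ∨
      (m ≤ 0 ∧ c = 74802 / 10000000 * (1 + 12 / 100 * (x1 ^ 2 * u0))))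
    (hV : r ^ 3 * V ≤ ∫ t in (x1 * r)..3, Cs_bounds_gs l D s t)
    (hV' : V' ≤ V + c * m * ((x1 ^ 5 - x0 ^ 5) / 5)) :
    r ^ 3 * V' ≤ ∫ t in (x0 * r)..3, Cs_bounds_gs l D s t := by
  have hs0' : 0 < s0 := by linarith
  have hspos : 0 < s := by linarith
  have hu0 : 0 < u0 := by
    by_contra h
    push Not at h
    nlinarith
  have hv0 : 0 < r ^ 2 := by positivity
  have hvu : r ^ 2 ≤ u0 := by
    have h1 : r ^ 2 * s0 ≤ u0 * s0 := by
      rw [hu, ← hrs]
      exact mul_le_mul_of_nonneg_left hs hv0.le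
    exact le_of_mul_le_mul_right h1 hs0'
  have hx1r : x1 * r ≤ 13 / 5 := by
    have h1 : (x1 * r) ^ 2 ≤ (13 / 5) ^ 2 := by
      rw [mul_pow]
      refine le_trans ?_ hx1
      exact mul_le_mul_of_nonneg_left hvu (by positivity)
    exact le_of_sq_le_sq h1 (by norm_num)
  have ha : 0 ≤ x0 * r := mul_nonneg hx0 hr.le
  have hab : x0 * r ≤ x1 * r := mul_le_mul_of_nonneg_right hx01 hr.le
  have i1 := Cs_bounds_gs_int H s ha hab (by linarith)
  have i2 := Cs_bounds_gs_int H s (ha.trans hab) (by linarith : x1 * r ≤ 3) le_rfl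
  rw [← intervalIntegral.integral_add_adjacent_intervals i1 i2]
  have h1 : ∫ t in (x0 * r)..(x1 * r), (s * c * m) * t ^ 4 ≤
      ∫ t in (x0 * r)..(x1 * r), Cs_bounds_gs l D s t := by
    apply intervalIntegral.integral_mono_on hab _ i1
    · intro t ht
      exact Cs_bounds_cell H hs0 hs hu hr hrs hx0 hx1 ht.1 ht.2 hy1 hy2 m1 m2 hc
    · exact (Continuous.intervalIntegrable (by fun_prop) _ _)
  have h2 : ∫ t in (x0 * r)..(x1 * r), (s * c * m) * t ^ 4 =
      r ^ 3 * (c * m * ((x1 ^ 5 - x0 ^ 5) / 5)) := by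
    rw [intervalIntegral.integral_const_mul, integral_pow]
    have h3 : s * c * m * (((x1 * r) ^ (4 + 1) - (x0 * r) ^ (4 + 1)) / ((4 : ℕ) + 1)) =
        (r ^ 2 * s) * (r ^ 3 * (c * m * ((x1 ^ 5 - x0 ^ 5) / 5))) := by
      push_cast
      ring
    rw [h3, hrs, one_mul]
  have h4 : r ^ 3 * V' ≤ r ^ 3 * (V + c * m * ((x1 ^ 5 - x0 ^ 5) / 5)) :=
    mul_le_mul_of_nonneg_left hV' (by positivity)
  rw [mul_add] at h4
  linarith

lemma Cs_bounds_base {l D : ℝ → ℝ} (H : Cs_bounds_Hy l D)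
    {s r x0 : ℝ} (hs : 49 / 10 ≤ s) (hr : 0 < r) (hrs : r ^ 2 * s = 1)
    (hx0 : 0 ≤ x0) (hx1 : x0 * r ≤ 3) (hy1 : 1 / 2 ≤ 0.145562547386 * x0 ^ 2) :
    r ^ 3 * 0 ≤ ∫ t in (x0 * r)..3, Cs_bounds_gs l D s t := by
  rw [mul_zero]
  apply intervalIntegral.integral_nonneg hx1
  intro t ht
  have ha : 0 ≤ x0 * r := mul_nonneg hx0 hr.le
  have ht0 : 0 ≤ t := ha.trans ht.1
  have hspos : 0 < s := by linarith
  have hDlo := H.Dlo t ht0 ht.2
  have hD0 : 0 ≤ D t := (by positivity : (0 : ℝ) ≤ 748 / 100000 * t ^ 4).trans hDlo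
  have hlo := H.lo t ht0 ht.2
  have h1 : (x0 * r) ^ 2 ≤ t ^ 2 := pow_le_pow_left₀ ha ht.1 2
  have h2 : (x0 * r) ^ 2 * s ≤ t ^ 2 * s := mul_le_mul_of_nonneg_right h1 hspos.le
  have h3 : (x0 * r) ^ 2 * s = x0 ^ 2 := by
    rw [mul_pow, mul_assoc, hrs, mul_one]
  have h4 : 1 / 2 ≤ s * l t := by
    have h5 : s * (0.145562547386 * t ^ 2) ≤ s * l t := by
      apply mul_le_mul_of_nonneg_left _ hspos.le
      have : 0 ≤ 0.00374 * t ^ 4 := by positivity
      linarith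
    have h6 : 0.145562547386 * x0 ^ 2 ≤ 0.145562547386 * (t ^ 2 * s) := by
      apply mul_le_mul_of_nonneg_left _ (by norm_num)
      linarith
    have h7 : s * (0.145562547386 * t ^ 2) = 0.145562547386 * (t ^ 2 * s) := by ring
    linarith
  unfold Cs_bounds_gs Cs_bounds_kf
  apply mul_nonneg hspos.le (mul_nonneg hD0 (mul_nonneg (by linarith) (Real.exp_pos _).le))

lemma Cs_bounds_N49_12 {l D : ℝ → ℝ} (H : Cs_bounds_Hy l D) {s r : ℝ} (hs : (49 / 10) ≤ s)
    (hr : 0 < r) (hrs : r ^ 2 * s = 1)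
    (hc : r ^ 3 * 0 ≤ ∫ t in ((23 / 4) * r)..3, Cs_bounds_gs l D s t) :
    r ^ 3 * (225081 / 10000000) ≤ ∫ t in ((11 / 2) * r)..3, Cs_bounds_gs l D s t :=
  Cs_bounds_step H (y1 := (4403 / 1000)) (y2 := (3077 / 500)) (m := (12011 / 1000000))
    (c := (187 / 25000)) (s0 := (49 / 10)) (u0 := (10 / 49))
    (by norm_num) hs (by norm_num) hr hrs (by norm_num) (by norm_num) (by norm_num) (by norm_num)
    (by norm_num) (Cs_bounds_kf_lb (189857 / 250000) (by norm_num) (by norm_num) (by norm_num) (by norm_num [Cs_bounds_eLo]) (by norm_num))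
    (Cs_bounds_kf_lb (85087 / 125000) (by norm_num) (by norm_num) (by norm_num) (by norm_num [Cs_bounds_eLo]) (by norm_num))
    (Or.inl ⟨by norm_num, by norm_num⟩) hc (by norm_num)

lemma Cs_bounds_N49_11 {l D : ℝ → ℝ} (H : Cs_bounds_Hy l D) {s r : ℝ} (hs : (49 / 10) ≤ s)
    (hr : 0 < r) (hrs : r ^ 2 * s = 1)
    (hc : r ^ 3 * (225081 / 10000000) ≤ ∫ t in ((11 / 2) * r)..3, Cs_bounds_gs l D s t) :
    r ^ 3 * (138279 / 2500000) ≤ ∫ t in ((21 / 4) * r)..3, Cs_bounds_gs l D s t :=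
  Cs_bounds_step H (y1 := (1003 / 250)) (y2 := (2733 / 500)) (m := (10497 / 500000))
    (c := (187 / 25000)) (s0 := (49 / 10)) (u0 := (10 / 49))
    (by norm_num) hs (by norm_num) hr hrs (by norm_num) (by norm_num) (by norm_num) (by norm_num)
    (by norm_num) (Cs_bounds_kf_lb (97277 / 125000) (by norm_num) (by norm_num) (by norm_num) (by norm_num [Cs_bounds_eLo]) (by norm_num))
    (Cs_bounds_kf_lb (710609 / 1000000) (by norm_num) (by norm_num) (by norm_num) (by norm_num [Cs_bounds_eLo]) (by norm_num))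
    (Or.inl ⟨by norm_num, by norm_num⟩) hc (by norm_num)

lemma Cs_bounds_N49_10 {l D : ℝ → ℝ} (H : Cs_bounds_Hy l D) {s r : ℝ} (hs : (49 / 10) ≤ s)
    (hr : 0 < r) (hrs : r ^ 2 * s = 1)
    (hc : r ^ 3 * (138279 / 2500000) ≤ ∫ t in ((21 / 4) * r)..3, Cs_bounds_gs l D s t) :
    r ^ 3 * (455587 / 5000000) ≤ ∫ t in ((101 / 20) * r)..3, Cs_bounds_gs l D s t :=
  Cs_bounds_step H (y1 := (464 / 125)) (y2 := (1213 / 250)) (m := (33999 / 1000000))
    (c := (187 / 25000)) (s0 := (49 / 10)) (u0 := (10 / 49))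
    (by norm_num) hs (by norm_num) hr hrs (by norm_num) (by norm_num) (by norm_num) (by norm_num)
    (by norm_num) (Cs_bounds_kf_lb (158589 / 200000) (by norm_num) (by norm_num) (by norm_num) (by norm_num [Cs_bounds_eLo]) (by norm_num))
    (Cs_bounds_kf_lb (184603 / 250000) (by norm_num) (by norm_num) (by norm_num) (by norm_num [Cs_bounds_eLo]) (by norm_num))
    (Or.inl ⟨by norm_num, by norm_num⟩) hc (by norm_num)

lemma Cs_bounds_N49_9 {l D : ℝ → ℝ} (H : Cs_bounds_Hy l D) {s r : ℝ} (hs : (49 / 10) ≤ s)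
    (hr : 0 < r) (hrs : r ^ 2 * s = 1)
    (hc : r ^ 3 * (455587 / 5000000) ≤ ∫ t in ((101 / 20) * r)..3, Cs_bounds_gs l D s t) :
    r ^ 3 * (10466 / 78125) ≤ ∫ t in ((97 / 20) * r)..3, Cs_bounds_gs l D s t :=
  Cs_bounds_step H (y1 := (3423 / 1000)) (y2 := (2203 / 500)) (m := (47667 / 1000000))
    (c := (187 / 25000)) (s0 := (49 / 10)) (u0 := (10 / 49))
    (by norm_num) hs (by norm_num) hr hrs (by norm_num) (by norm_num) (by norm_num) (by norm_num)
    (by norm_num) (Cs_bounds_kf_lb (403699 / 500000) (by norm_num) (by norm_num) (by norm_num) (by norm_num [Cs_bounds_eLo]) (by norm_num))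
    (Cs_bounds_kf_lb (379643 / 500000) (by norm_num) (by norm_num) (by norm_num) (by norm_num [Cs_bounds_eLo]) (by norm_num))
    (Or.inl ⟨by norm_num, by norm_num⟩) hc (by norm_num)

lemma Cs_bounds_N49_8 {l D : ℝ → ℝ} (H : Cs_bounds_Hy l D) {s r : ℝ} (hs : (49 / 10) ≤ s)
    (hr : 0 < r) (hrs : r ^ 2 * s = 1)
    (hc : r ^ 3 * (10466 / 78125) ≤ ∫ t in ((97 / 20) * r)..3, Cs_bounds_gs l D s t) :
    r ^ 3 * (1830011 / 10000000) ≤ ∫ t in ((93 / 20) * r)..3, Cs_bounds_gs l D s t :=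
  Cs_bounds_step H (y1 := (3147 / 1000)) (y2 := (799 / 200)) (m := (16083 / 250000))
    (c := (187 / 25000)) (s0 := (49 / 10)) (u0 := (10 / 49))
    (by norm_num) hs (by norm_num) hr hrs (by norm_num) (by norm_num) (by norm_num) (by norm_num)
    (by norm_num) (Cs_bounds_kf_lb (821447 / 1000000) (by norm_num) (by norm_num) (by norm_num) (by norm_num [Cs_bounds_eLo]) (by norm_num))
    (Cs_bounds_kf_lb (779043 / 1000000) (by norm_num) (by norm_num) (by norm_num) (by norm_num [Cs_bounds_eLo]) (by norm_num))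
    (Or.inl ⟨by norm_num, by norm_num⟩) hc (by norm_num)

lemma Cs_bounds_N49_7 {l D : ℝ → ℝ} (H : Cs_bounds_Hy l D) {s r : ℝ} (hs : (49 / 10) ≤ s)
    (hr : 0 < r) (hrs : r ^ 2 * s = 1)
    (hc : r ^ 3 * (1830011 / 10000000) ≤ ∫ t in ((93 / 20) * r)..3, Cs_bounds_gs l D s t) :
    r ^ 3 * (295969 / 1250000) ≤ ∫ t in ((89 / 20) * r)..3, Cs_bounds_gs l D s t :=
  Cs_bounds_step H (y1 := (1441 / 500)) (y2 := (452 / 125)) (m := (83787 / 1000000))
    (c := (187 / 25000)) (s0 := (49 / 10)) (u0 := (10 / 49))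
    (by norm_num) hs (by norm_num) hr hrs (by norm_num) (by norm_num) (by norm_num) (by norm_num)
    (by norm_num) (Cs_bounds_kf_lb (167033 / 200000) (by norm_num) (by norm_num) (by norm_num) (by norm_num [Cs_bounds_eLo]) (by norm_num))
    (Cs_bounds_kf_lb (797717 / 1000000) (by norm_num) (by norm_num) (by norm_num) (by norm_num [Cs_bounds_eLo]) (by norm_num))
    (Or.inl ⟨by norm_num, by norm_num⟩) hc (by norm_num)

lemma Cs_bounds_N49_6 {l D : ℝ → ℝ} (H : Cs_bounds_Hy l D) {s r : ℝ} (hs : (49 / 10) ≤ s)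
    (hr : 0 < r) (hrs : r ^ 2 * s = 1)
    (hc : r ^ 3 * (295969 / 1250000) ≤ ∫ t in ((89 / 20) * r)..3, Cs_bounds_gs l D s t) :
    r ^ 3 * (1529973 / 5000000) ≤ ∫ t in ((21 / 5) * r)..3, Cs_bounds_gs l D s t :=
  Cs_bounds_step H (y1 := (2567 / 1000)) (y2 := (653 / 200)) (m := (105613 / 1000000))
    (c := (187 / 25000)) (s0 := (49 / 10)) (u0 := (10 / 49))
    (by norm_num) hs (by norm_num) hr hrs (by norm_num) (by norm_num) (by norm_num) (by norm_num)
    (by norm_num) (Cs_bounds_kf_lb (851771 / 1000000) (by norm_num) (by norm_num) (by norm_num) (by norm_num [Cs_bounds_eLo]) (by norm_num))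
    (Cs_bounds_kf_lb (815411 / 1000000) (by norm_num) (by norm_num) (by norm_num) (by norm_num [Cs_bounds_eLo]) (by norm_num))
    (Or.inl ⟨by norm_num, by norm_num⟩) hc (by norm_num)

lemma Cs_bounds_N49_5 {l D : ℝ → ℝ} (H : Cs_bounds_Hy l D) {s r : ℝ} (hs : (49 / 10) ≤ s)
    (hr : 0 < r) (hrs : r ^ 2 * s = 1)
    (hc : r ^ 3 * (1529973 / 5000000) ≤ ∫ t in ((21 / 5) * r)..3, Cs_bounds_gs l D s t) :
    r ^ 3 * (3757363 / 10000000) ≤ ∫ t in ((79 / 20) * r)..3, Cs_bounds_gs l D s t :=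
  Cs_bounds_step H (y1 := (2271 / 1000)) (y2 := (1431 / 500)) (m := (134997 / 1000000))
    (c := (187 / 25000)) (s0 := (49 / 10)) (u0 := (10 / 49))
    (by norm_num) hs (by norm_num) hr hrs (by norm_num) (by norm_num) (by norm_num) (by norm_num)
    (by norm_num) (Cs_bounds_kf_lb (34707 / 40000) (by norm_num) (by norm_num) (by norm_num) (by norm_num [Cs_bounds_eLo]) (by norm_num))
    (Cs_bounds_kf_lb (83621 / 100000) (by norm_num) (by norm_num) (by norm_num) (by norm_num [Cs_bounds_eLo]) (by norm_num))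
    (Or.inl ⟨by norm_num, by norm_num⟩) hc (by norm_num)

lemma Cs_bounds_N49_4 {l D : ℝ → ℝ} (H : Cs_bounds_Hy l D) {s r : ℝ} (hs : (49 / 10) ≤ s)
    (hr : 0 < r) (hrs : r ^ 2 * s = 1)
    (hc : r ^ 3 * (3757363 / 10000000) ≤ ∫ t in ((79 / 20) * r)..3, Cs_bounds_gs l D s t) :
    r ^ 3 * (4636127 / 10000000) ≤ ∫ t in ((18 / 5) * r)..3, Cs_bounds_gs l D s t :=
  Cs_bounds_step H (y1 := (943 / 500)) (y2 := (499 / 200)) (m := (82289 / 500000))
    (c := (187 / 25000)) (s0 := (49 / 10)) (u0 := (10 / 49))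
    (by norm_num) hs (by norm_num) hr hrs (by norm_num) (by norm_num) (by norm_num) (by norm_num)
    (by norm_num) (Cs_bounds_kf_lb (888807 / 1000000) (by norm_num) (by norm_num) (by norm_num) (by norm_num [Cs_bounds_eLo]) (by norm_num))
    (Cs_bounds_kf_lb (213903 / 250000) (by norm_num) (by norm_num) (by norm_num) (by norm_num [Cs_bounds_eLo]) (by norm_num))
    (Or.inl ⟨by norm_num, by norm_num⟩) hc (by norm_num)

lemma Cs_bounds_N49_3 {l D : ℝ → ℝ} (H : Cs_bounds_Hy l D) {s r : ℝ} (hs : (49 / 10) ≤ s)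
    (hr : 0 < r) (hrs : r ^ 2 * s = 1)
    (hc : r ^ 3 * (4636127 / 10000000) ≤ ∫ t in ((18 / 5) * r)..3, Cs_bounds_gs l D s t) :
    r ^ 3 * (5972843 / 10000000) ≤ ∫ t in ((11 / 4) * r)..3, Cs_bounds_gs l D s t :=
  Cs_bounds_step H (y1 := (11 / 10)) (y2 := (509 / 250)) (m := (99861 / 500000))
    (c := (187 / 25000)) (s0 := (49 / 10)) (u0 := (10 / 49))
    (by norm_num) hs (by norm_num) hr hrs (by norm_num) (by norm_num) (by norm_num) (by norm_num)
    (by norm_num) (Cs_bounds_kf_lb (23339 / 25000) (by norm_num) (by norm_num) (by norm_num) (by norm_num [Cs_bounds_eLo]) (by norm_num))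
    (Cs_bounds_kf_lb (880513 / 1000000) (by norm_num) (by norm_num) (by norm_num) (by norm_num [Cs_bounds_eLo]) (by norm_num))
    (Or.inl ⟨by norm_num, by norm_num⟩) hc (by norm_num)

lemma Cs_bounds_N49_2 {l D : ℝ → ℝ} (H : Cs_bounds_Hy l D) {s r : ℝ} (hs : (49 / 10) ≤ s)
    (hr : 0 < r) (hrs : r ^ 2 * s = 1)
    (hc : r ^ 3 * (5972843 / 10000000) ≤ ∫ t in ((11 / 4) * r)..3, Cs_bounds_gs l D s t) :
    r ^ 3 * (1228261 / 2000000) ≤ ∫ t in ((9 / 4) * r)..3, Cs_bounds_gs l D s t :=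
  Cs_bounds_step H (y1 := (92 / 125)) (y2 := (1149 / 1000)) (m := (14131 / 125000))
    (c := (187 / 25000)) (s0 := (49 / 10)) (u0 := (10 / 49))
    (by norm_num) hs (by norm_num) hr hrs (by norm_num) (by norm_num) (by norm_num) (by norm_num)
    (by norm_num) (Cs_bounds_kf_lb (955041 / 1000000) (by norm_num) (by norm_num) (by norm_num) (by norm_num [Cs_bounds_eLo]) (by norm_num))
    (Cs_bounds_kf_lb (186141 / 200000) (by norm_num) (by norm_num) (by norm_num) (by norm_num [Cs_bounds_eLo]) (by norm_num))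
    (Or.inl ⟨by norm_num, by norm_num⟩) hc (by norm_num)

lemma Cs_bounds_N49_1 {l D : ℝ → ℝ} (H : Cs_bounds_Hy l D) {s r : ℝ} (hs : (49 / 10) ≤ s)
    (hr : 0 < r) (hrs : r ^ 2 * s = 1)
    (hc : r ^ 3 * (1228261 / 2000000) ≤ ∫ t in ((9 / 4) * r)..3, Cs_bounds_gs l D s t) :
    r ^ 3 * (3043707 / 5000000) ≤ ∫ t in ((33 / 20) * r)..3, Cs_bounds_gs l D s t :=
  Cs_bounds_step H (y1 := (99 / 250)) (y2 := (379 / 500)) (m := (-70537 / 1000000))
    (c := (11770629 / 1400000000)) (s0 := (49 / 10)) (u0 := (10 / 49))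
    (by norm_num) hs (by norm_num) hr hrs (by norm_num) (by norm_num) (by norm_num) (by norm_num)
    (by norm_num) (Cs_bounds_kf_lbneg (by norm_num) (by norm_num) (by norm_num))
    (Cs_bounds_kf_lb (953729 / 1000000) (by norm_num) (by norm_num) (by norm_num) (by norm_num [Cs_bounds_eLo]) (by norm_num))
    (Or.inr ⟨by norm_num, by norm_num⟩) hc (by norm_num)

lemma Cs_bounds_N49_0 {l D : ℝ → ℝ} (H : Cs_bounds_Hy l D) {s r : ℝ} (hs : (49 / 10) ≤ s)
    (hr : 0 < r) (hrs : r ^ 2 * s = 1)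
    (hc : r ^ 3 * (3043707 / 5000000) ≤ ∫ t in ((33 / 20) * r)..3, Cs_bounds_gs l D s t) :
    r ^ 3 * (5989833 / 10000000) ≤ ∫ t in (0 * r)..3, Cs_bounds_gs l D s t :=
  Cs_bounds_step H (y1 := 0) (y2 := (403 / 1000)) (m := (-1 / 2))
    (c := (279262581 / 35000000000)) (s0 := (49 / 10)) (u0 := (10 / 49))
    (by norm_num) hs (by norm_num) hr hrs (by norm_num) (by norm_num) (by norm_num) (by norm_num)
    (by norm_num) (Cs_bounds_kf_lbneg (by norm_num) (by norm_num) (by norm_num))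
    (Cs_bounds_kf_lbneg (by norm_num) (by norm_num) (by norm_num))
    (Or.inr ⟨by norm_num, by norm_num⟩) hc (by norm_num)

lemma Cs_bounds_N49 {l D : ℝ → ℝ} (H : Cs_bounds_Hy l D) {s r : ℝ} (hs : (49 / 10) ≤ s)
    (hr : 0 < r) (hrs : r ^ 2 * s = 1) :
    r ^ 3 * (5989833 / 10000000) ≤ ∫ t in (0 * r)..3, Cs_bounds_gs l D s t := by
  have hv : r ^ 2 ≤ (10 / 49) := by
    have h1 : 0 < r ^ 2 := by positivity
    nlinarith
  have hx : (23 / 4) * r ≤ 3 := by
    have h1 : ((23 / 4) * r) ^ 2 ≤ 3 ^ 2 := by nlinarith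
    exact le_of_sq_le_sq h1 (by norm_num)
  have c13 : r ^ 3 * 0 ≤ ∫ t in ((23 / 4) * r)..3, Cs_bounds_gs l D s t :=
    Cs_bounds_base H (by linarith) hr hrs (by norm_num) hx (by norm_num)
  have c12 := Cs_bounds_N49_12 H hs hr hrs c13
  have c11 := Cs_bounds_N49_11 H hs hr hrs c12
  have c10 := Cs_bounds_N49_10 H hs hr hrs c11
  have c9 := Cs_bounds_N49_9 H hs hr hrs c10
  have c8 := Cs_bounds_N49_8 H hs hr hrs c9
  have c7 := Cs_bounds_N49_7 H hs hr hrs c8
  have c6 := Cs_bounds_N49_6 H hs hr hrs c7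
  have c5 := Cs_bounds_N49_5 H hs hr hrs c6
  have c4 := Cs_bounds_N49_4 H hs hr hrs c5
  have c3 := Cs_bounds_N49_3 H hs hr hrs c4
  have c2 := Cs_bounds_N49_2 H hs hr hrs c3
  have c1 := Cs_bounds_N49_1 H hs hr hrs c2
  have c0 := Cs_bounds_N49_0 H hs hr hrs c1
  exact c0

lemma Cs_bounds_N6_43 {l D : ℝ → ℝ} (H : Cs_bounds_Hy l D) {s r : ℝ} (hs : 6 ≤ s)
    (hr : 0 < r) (hrs : r ^ 2 * s = 1)
    (hc : r ^ 3 * 0 ≤ ∫ t in ((127 / 20) * r)..3, Cs_bounds_gs l D s t) :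
    r ^ 3 * (7103 / 1250000) ≤ ∫ t in ((249 / 40) * r)..3, Cs_bounds_gs l D s t :=
  Cs_bounds_step H (y1 := (141 / 25)) (y2 := (3747 / 500)) (m := (243 / 62500))
    (c := (187 / 25000)) (s0 := 6) (u0 := (1 / 6))
    (by norm_num) hs (by norm_num) hr hrs (by norm_num) (by norm_num) (by norm_num) (by norm_num)
    (by norm_num) (Cs_bounds_kf_lb (351461 / 500000) (by norm_num) (by norm_num) (by norm_num) (by norm_num [Cs_bounds_eLo]) (by norm_num))
    (Cs_bounds_kf_lb (625987 / 1000000) (by norm_num) (by norm_num) (by norm_num) (by norm_num [Cs_bounds_eLo]) (by norm_num))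
    (Or.inl ⟨by norm_num, by norm_num⟩) hc (by norm_num)

lemma Cs_bounds_N6_42 {l D : ℝ → ℝ} (H : Cs_bounds_Hy l D) {s r : ℝ} (hs : 6 ≤ s)
    (hr : 0 < r) (hrs : r ^ 2 * s = 1)
    (hc : r ^ 3 * (7103 / 1250000) ≤ ∫ t in ((249 / 40) * r)..3, Cs_bounds_gs l D s t) :
    r ^ 3 * (115863 / 10000000) ≤ ∫ t in ((49 / 8) * r)..3, Cs_bounds_gs l D s t :=
  Cs_bounds_step H (y1 := (273 / 50)) (y2 := (7103 / 1000)) (m := (1357 / 250000))
    (c := (187 / 25000)) (s0 := 6) (u0 := (1 / 6))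
    (by norm_num) hs (by norm_num) hr hrs (by norm_num) (by norm_num) (by norm_num) (by norm_num)
    (by norm_num) (Cs_bounds_kf_lb (177719 / 250000) (by norm_num) (by norm_num) (by norm_num) (by norm_num [Cs_bounds_eLo]) (by norm_num))
    (Cs_bounds_kf_lb (641483 / 1000000) (by norm_num) (by norm_num) (by norm_num) (by norm_num [Cs_bounds_eLo]) (by norm_num))
    (Or.inl ⟨by norm_num, by norm_num⟩) hc (by norm_num)

lemma Cs_bounds_N6_41 {l D : ℝ → ℝ} (H : Cs_bounds_Hy l D) {s r : ℝ} (hs : 6 ≤ s)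
    (hr : 0 < r) (hrs : r ^ 2 * s = 1)
    (hc : r ^ 3 * (115863 / 10000000) ≤ ∫ t in ((49 / 8) * r)..3, Cs_bounds_gs l D s t) :
    r ^ 3 * (7481 / 400000) ≤ ∫ t in ((241 / 40) * r)..3, Cs_bounds_gs l D s t :=
  Cs_bounds_step H (y1 := (1321 / 250)) (y2 := (1361 / 200)) (m := (873 / 125000))
    (c := (187 / 25000)) (s0 := 6) (u0 := (1 / 6))
    (by norm_num) hs (by norm_num) hr hrs (by norm_num) (by norm_num) (by norm_num) (by norm_num)
    (by norm_num) (Cs_bounds_kf_lb (35937 / 50000) (by norm_num) (by norm_num) (by norm_num) (by norm_num [Cs_bounds_eLo]) (by norm_num))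
    (Cs_bounds_kf_lb (163387 / 250000) (by norm_num) (by norm_num) (by norm_num) (by norm_num [Cs_bounds_eLo]) (by norm_num))
    (Or.inl ⟨by norm_num, by norm_num⟩) hc (by norm_num)

lemma Cs_bounds_N6_40 {l D : ℝ → ℝ} (H : Cs_bounds_Hy l D) {s r : ℝ} (hs : 6 ≤ s)
    (hr : 0 < r) (hrs : r ^ 2 * s = 1)
    (hc : r ^ 3 * (7481 / 400000) ≤ ∫ t in ((241 / 40) * r)..3, Cs_bounds_gs l D s t) :
    r ^ 3 * (13579 / 500000) ≤ ∫ t in ((237 / 40) * r)..3, Cs_bounds_gs l D s t :=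
  Cs_bounds_step H (y1 := (511 / 100)) (y2 := (163 / 25)) (m := (2217 / 250000))
    (c := (187 / 25000)) (s0 := 6) (u0 := (1 / 6))
    (by norm_num) hs (by norm_num) hr hrs (by norm_num) (by norm_num) (by norm_num) (by norm_num)
    (by norm_num) (Cs_bounds_kf_lb (726599 / 1000000) (by norm_num) (by norm_num) (by norm_num) (by norm_num [Cs_bounds_eLo]) (by norm_num))
    (Cs_bounds_kf_lb (332649 / 500000) (by norm_num) (by norm_num) (by norm_num) (by norm_num [Cs_bounds_eLo]) (by norm_num))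
    (Or.inl ⟨by norm_num, by norm_num⟩) hc (by norm_num)

lemma Cs_bounds_N6_39 {l D : ℝ → ℝ} (H : Cs_bounds_Hy l D) {s r : ℝ} (hs : 6 ≤ s)
    (hr : 0 < r) (hrs : r ^ 2 * s = 1)
    (hc : r ^ 3 * (13579 / 500000) ≤ ∫ t in ((237 / 40) * r)..3, Cs_bounds_gs l D s t) :
    r ^ 3 * (370891 / 10000000) ≤ ∫ t in ((233 / 40) * r)..3, Cs_bounds_gs l D s t :=
  Cs_bounds_step H (y1 := (4939 / 1000)) (y2 := (1249 / 200)) (m := (11143 / 1000000))
    (c := (187 / 25000)) (s0 := 6) (u0 := (1 / 6))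
    (by norm_num) hs (by norm_num) hr hrs (by norm_num) (by norm_num) (by norm_num) (by norm_num)
    (by norm_num) (Cs_bounds_kf_lb (734407 / 1000000) (by norm_num) (by norm_num) (by norm_num) (by norm_num [Cs_bounds_eLo]) (by norm_num))
    (Cs_bounds_kf_lb (338417 / 500000) (by norm_num) (by norm_num) (by norm_num) (by norm_num [Cs_bounds_eLo]) (by norm_num))
    (Or.inl ⟨by norm_num, by norm_num⟩) hc (by norm_num)

lemma Cs_bounds_N6_38 {l D : ℝ → ℝ} (H : Cs_bounds_Hy l D) {s r : ℝ} (hs : 6 ≤ s)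
    (hr : 0 < r) (hrs : r ^ 2 * s = 1)
    (hc : r ^ 3 * (370891 / 10000000) ≤ ∫ t in ((233 / 40) * r)..3, Cs_bounds_gs l D s t) :
    r ^ 3 * (229013 / 5000000) ≤ ∫ t in ((23 / 4) * r)..3, Cs_bounds_gs l D s t :=
  Cs_bounds_step H (y1 := (1203 / 250)) (y2 := (5981 / 1000)) (m := (13843 / 1000000))
    (c := (187 / 25000)) (s0 := 6) (u0 := (1 / 6))
    (by norm_num) hs (by norm_num) hr hrs (by norm_num) (by norm_num) (by norm_num) (by norm_num)
    (by norm_num) (Cs_bounds_kf_lb (37013 / 50000) (by norm_num) (by norm_num) (by norm_num) (by norm_num [Cs_bounds_eLo]) (by norm_num))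
    (Cs_bounds_kf_lb (688097 / 1000000) (by norm_num) (by norm_num) (by norm_num) (by norm_num [Cs_bounds_eLo]) (by norm_num))
    (Or.inl ⟨by norm_num, by norm_num⟩) hc (by norm_num)

lemma Cs_bounds_N6_37 {l D : ℝ → ℝ} (H : Cs_bounds_Hy l D) {s r : ℝ} (hs : 6 ≤ s)
    (hr : 0 < r) (hrs : r ^ 2 * s = 1)
    (hc : r ^ 3 * (229013 / 5000000) ≤ ∫ t in ((23 / 4) * r)..3, Cs_bounds_gs l D s t) :
    r ^ 3 * (138663 / 2500000) ≤ ∫ t in ((227 / 40) * r)..3, Cs_bounds_gs l D s t :=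
  Cs_bounds_step H (y1 := (4687 / 1000)) (y2 := (579 / 100)) (m := (16173 / 1000000))
    (c := (187 / 25000)) (s0 := 6) (u0 := (1 / 6))
    (by norm_num) hs (by norm_num) hr hrs (by norm_num) (by norm_num) (by norm_num) (by norm_num)
    (by norm_num) (Cs_bounds_kf_lb (373033 / 500000) (by norm_num) (by norm_num) (by norm_num) (by norm_num [Cs_bounds_eLo]) (by norm_num))
    (Cs_bounds_kf_lb (348181 / 500000) (by norm_num) (by norm_num) (by norm_num) (by norm_num [Cs_bounds_eLo]) (by norm_num))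
    (Or.inl ⟨by norm_num, by norm_num⟩) hc (by norm_num)

lemma Cs_bounds_N6_36 {l D : ℝ → ℝ} (H : Cs_bounds_Hy l D) {s r : ℝ} (hs : 6 ≤ s)
    (hr : 0 < r) (hrs : r ^ 2 * s = 1)
    (hc : r ^ 3 * (138663 / 2500000) ≤ ∫ t in ((227 / 40) * r)..3, Cs_bounds_gs l D s t) :
    r ^ 3 * (661167 / 10000000) ≤ ∫ t in ((28 / 5) * r)..3, Cs_bounds_gs l D s t :=
  Cs_bounds_step H (y1 := (1141 / 250)) (y2 := (1401 / 250)) (m := (4699 / 250000))
    (c := (187 / 25000)) (s0 := 6) (u0 := (1 / 6))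
    (by norm_num) hs (by norm_num) hr hrs (by norm_num) (by norm_num) (by norm_num) (by norm_num)
    (by norm_num) (Cs_bounds_kf_lb (46989 / 62500) (by norm_num) (by norm_num) (by norm_num) (by norm_num [Cs_bounds_eLo]) (by norm_num))
    (Cs_bounds_kf_lb (352253 / 500000) (by norm_num) (by norm_num) (by norm_num) (by norm_num [Cs_bounds_eLo]) (by norm_num))
    (Or.inl ⟨by norm_num, by norm_num⟩) hc (by norm_num)

lemma Cs_bounds_N6_35 {l D : ℝ → ℝ} (H : Cs_bounds_Hy l D) {s r : ℝ} (hs : 6 ≤ s)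
    (hr : 0 < r) (hrs : r ^ 2 * s = 1)
    (hc : r ^ 3 * (661167 / 10000000) ≤ ∫ t in ((28 / 5) * r)..3, Cs_bounds_gs l D s t) :
    r ^ 3 * (77787 / 1000000) ≤ ∫ t in ((221 / 40) * r)..3, Cs_bounds_gs l D s t :=
  Cs_bounds_step H (y1 := (4443 / 1000)) (y2 := (5423 / 1000)) (m := (21727 / 1000000))
    (c := (187 / 25000)) (s0 := 6) (u0 := (1 / 6))
    (by norm_num) hs (by norm_num) hr hrs (by norm_num) (by norm_num) (by norm_num) (by norm_num)
    (by norm_num) (Cs_bounds_kf_lb (189383 / 250000) (by norm_num) (by norm_num) (by norm_num) (by norm_num [Cs_bounds_eLo]) (by norm_num))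
    (Cs_bounds_kf_lb (356261 / 500000) (by norm_num) (by norm_num) (by norm_num) (by norm_num [Cs_bounds_eLo]) (by norm_num))
    (Or.inl ⟨by norm_num, by norm_num⟩) hc (by norm_num)

lemma Cs_bounds_N6_34 {l D : ℝ → ℝ} (H : Cs_bounds_Hy l D) {s r : ℝ} (hs : 6 ≤ s)
    (hr : 0 < r) (hrs : r ^ 2 * s = 1)
    (hc : r ^ 3 * (77787 / 1000000) ≤ ∫ t in ((221 / 40) * r)..3, Cs_bounds_gs l D s t) :
    r ^ 3 * (180993 / 2000000) ≤ ∫ t in ((109 / 20) * r)..3, Cs_bounds_gs l D s t :=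
  Cs_bounds_step H (y1 := (4323 / 1000)) (y2 := (5247 / 1000)) (m := (12491 / 500000))
    (c := (187 / 25000)) (s0 := 6) (u0 := (1 / 6))
    (by norm_num) hs (by norm_num) hr hrs (by norm_num) (by norm_num) (by norm_num) (by norm_num)
    (by norm_num) (Cs_bounds_kf_lb (152647 / 200000) (by norm_num) (by norm_num) (by norm_num) (by norm_num [Cs_bounds_eLo]) (by norm_num))
    (Cs_bounds_kf_lb (180101 / 250000) (by norm_num) (by norm_num) (by norm_num) (by norm_num [Cs_bounds_eLo]) (by norm_num))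
    (Or.inl ⟨by norm_num, by norm_num⟩) hc (by norm_num)

lemma Cs_bounds_N6_33 {l D : ℝ → ℝ} (H : Cs_bounds_Hy l D) {s r : ℝ} (hs : 6 ≤ s)
    (hr : 0 < r) (hrs : r ^ 2 * s = 1)
    (hc : r ^ 3 * (180993 / 2000000) ≤ ∫ t in ((109 / 20) * r)..3, Cs_bounds_gs l D s t) :
    r ^ 3 * (260637 / 2500000) ≤ ∫ t in ((43 / 8) * r)..3, Cs_bounds_gs l D s t :=
  Cs_bounds_step H (y1 := (841 / 200)) (y2 := (1269 / 250)) (m := (14287 / 500000))
    (c := (187 / 25000)) (s0 := 6) (u0 := (1 / 6))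
    (by norm_num) hs (by norm_num) hr hrs (by norm_num) (by norm_num) (by norm_num) (by norm_num)
    (by norm_num) (Cs_bounds_kf_lb (153777 / 200000) (by norm_num) (by norm_num) (by norm_num) (by norm_num [Cs_bounds_eLo]) (by norm_num))
    (Cs_bounds_kf_lb (145629 / 200000) (by norm_num) (by norm_num) (by norm_num) (by norm_num [Cs_bounds_eLo]) (by norm_num))
    (Or.inl ⟨by norm_num, by norm_num⟩) hc (by norm_num)

lemma Cs_bounds_N6_32 {l D : ℝ → ℝ} (H : Cs_bounds_Hy l D) {s r : ℝ} (hs : 6 ≤ s)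
    (hr : 0 < r) (hrs : r ^ 2 * s = 1)
    (hc : r ^ 3 * (260637 / 2500000) ≤ ∫ t in ((43 / 8) * r)..3, Cs_bounds_gs l D s t) :
    r ^ 3 * (595293 / 5000000) ≤ ∫ t in ((53 / 10) * r)..3, Cs_bounds_gs l D s t :=
  Cs_bounds_step H (y1 := (511 / 125)) (y2 := (491 / 100)) (m := (3251 / 100000))
    (c := (187 / 25000)) (s0 := 6) (u0 := (1 / 6))
    (by norm_num) hs (by norm_num) hr hrs (by norm_num) (by norm_num) (by norm_num) (by norm_num)
    (by norm_num) (Cs_bounds_kf_lb (12102 / 15625) (by norm_num) (by norm_num) (by norm_num) (by norm_num [Cs_bounds_eLo]) (by norm_num))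
    (Cs_bounds_kf_lb (36787 / 50000) (by norm_num) (by norm_num) (by norm_num) (by norm_num [Cs_bounds_eLo]) (by norm_num))
    (Or.inl ⟨by norm_num, by norm_num⟩) hc (by norm_num)

lemma Cs_bounds_N6_31 {l D : ℝ → ℝ} (H : Cs_bounds_Hy l D) {s r : ℝ} (hs : 6 ≤ s)
    (hr : 0 < r) (hrs : r ^ 2 * s = 1)
    (hc : r ^ 3 * (595293 / 5000000) ≤ ∫ t in ((53 / 10) * r)..3, Cs_bounds_gs l D s t) :
    r ^ 3 * (337259 / 2500000) ≤ ∫ t in ((209 / 40) * r)..3, Cs_bounds_gs l D s t :=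
  Cs_bounds_step H (y1 := (3973 / 1000)) (y2 := (1187 / 250)) (m := (36823 / 1000000))
    (c := (187 / 25000)) (s0 := 6) (u0 := (1 / 6))
    (by norm_num) hs (by norm_num) hr hrs (by norm_num) (by norm_num) (by norm_num) (by norm_num)
    (by norm_num) (Cs_bounds_kf_lb (156023 / 200000) (by norm_num) (by norm_num) (by norm_num) (by norm_num [Cs_bounds_eLo]) (by norm_num))
    (Cs_bounds_kf_lb (743227 / 1000000) (by norm_num) (by norm_num) (by norm_num) (by norm_num [Cs_bounds_eLo]) (by norm_num))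
    (Or.inl ⟨by norm_num, by norm_num⟩) hc (by norm_num)

lemma Cs_bounds_N6_30 {l D : ℝ → ℝ} (H : Cs_bounds_Hy l D) {s r : ℝ} (hs : 6 ≤ s)
    (hr : 0 < r) (hrs : r ^ 2 * s = 1)
    (hc : r ^ 3 * (337259 / 2500000) ≤ ∫ t in ((209 / 40) * r)..3, Cs_bounds_gs l D s t) :
    r ^ 3 * (1517737 / 10000000) ≤ ∫ t in ((103 / 20) * r)..3, Cs_bounds_gs l D s t :=
  Cs_bounds_step H (y1 := (193 / 50)) (y2 := (459 / 100)) (m := (20761 / 500000))
    (c := (187 / 25000)) (s0 := 6) (u0 := (1 / 6))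
    (by norm_num) hs (by norm_num) hr hrs (by norm_num) (by norm_num) (by norm_num) (by norm_num)
    (by norm_num) (Cs_bounds_kf_lb (196411 / 250000) (by norm_num) (by norm_num) (by norm_num) (by norm_num [Cs_bounds_eLo]) (by norm_num))
    (Cs_bounds_kf_lb (750603 / 1000000) (by norm_num) (by norm_num) (by norm_num) (by norm_num [Cs_bounds_eLo]) (by norm_num))
    (Or.inl ⟨by norm_num, by norm_num⟩) hc (by norm_num)

lemma Cs_bounds_N6_29 {l D : ℝ → ℝ} (H : Cs_bounds_Hy l D) {s r : ℝ} (hs : 6 ≤ s)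
    (hr : 0 < r) (hrs : r ^ 2 * s = 1)
    (hc : r ^ 3 * (1517737 / 10000000) ≤ ∫ t in ((103 / 20) * r)..3, Cs_bounds_gs l D s t) :
    r ^ 3 * (848201 / 5000000) ≤ ∫ t in ((203 / 40) * r)..3, Cs_bounds_gs l D s t :=
  Cs_bounds_step H (y1 := (3749 / 1000)) (y2 := (1109 / 250)) (m := (11653 / 250000))
    (c := (187 / 25000)) (s0 := 6) (u0 := (1 / 6))
    (by norm_num) hs (by norm_num) hr hrs (by norm_num) (by norm_num) (by norm_num) (by norm_num)
    (by norm_num) (Cs_bounds_kf_lb (395557 / 500000) (by norm_num) (by norm_num) (by norm_num) (by norm_num [Cs_bounds_eLo]) (by norm_num))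
    (Cs_bounds_kf_lb (757863 / 1000000) (by norm_num) (by norm_num) (by norm_num) (by norm_num [Cs_bounds_eLo]) (by norm_num))
    (Or.inl ⟨by norm_num, by norm_num⟩) hc (by norm_num)

lemma Cs_bounds_N6_28 {l D : ℝ → ℝ} (H : Cs_bounds_Hy l D) {s r : ℝ} (hs : 6 ≤ s)
    (hr : 0 < r) (hrs : r ^ 2 * s = 1)
    (hc : r ^ 3 * (848201 / 5000000) ≤ ∫ t in ((203 / 40) * r)..3, Cs_bounds_gs l D s t) :
    r ^ 3 * (942237 / 5000000) ≤ ∫ t in (5 * r)..3, Cs_bounds_gs l D s t :=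
  Cs_bounds_step H (y1 := (3639 / 1000)) (y2 := (4287 / 1000)) (m := (26027 / 500000))
    (c := (187 / 25000)) (s0 := 6) (u0 := (1 / 6))
    (by norm_num) hs (by norm_num) hr hrs (by norm_num) (by norm_num) (by norm_num) (by norm_num)
    (by norm_num) (Cs_bounds_kf_lb (796571 / 1000000) (by norm_num) (by norm_num) (by norm_num) (by norm_num [Cs_bounds_eLo]) (by norm_num))
    (Cs_bounds_kf_lb (382477 / 500000) (by norm_num) (by norm_num) (by norm_num) (by norm_num [Cs_bounds_eLo]) (by norm_num))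
    (Or.inl ⟨by norm_num, by norm_num⟩) hc (by norm_num)

lemma Cs_bounds_N6_27 {l D : ℝ → ℝ} (H : Cs_bounds_Hy l D) {s r : ℝ} (hs : 6 ≤ s)
    (hr : 0 < r) (hrs : r ^ 2 * s = 1)
    (hc : r ^ 3 * (942237 / 5000000) ≤ ∫ t in (5 * r)..3, Cs_bounds_gs l D s t) :
    r ^ 3 * (2081537 / 10000000) ≤ ∫ t in ((197 / 40) * r)..3, Cs_bounds_gs l D s t :=
  Cs_bounds_step H (y1 := (353 / 100)) (y2 := (4141 / 1000)) (m := (11583 / 200000))
    (c := (187 / 25000)) (s0 := 6) (u0 := (1 / 6))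
    (by norm_num) hs (by norm_num) hr hrs (by norm_num) (by norm_num) (by norm_num) (by norm_num)
    (by norm_num) (Cs_bounds_kf_lb (802017 / 1000000) (by norm_num) (by norm_num) (by norm_num) (by norm_num [Cs_bounds_eLo]) (by norm_num))
    (Cs_bounds_kf_lb (385983 / 500000) (by norm_num) (by norm_num) (by norm_num) (by norm_num [Cs_bounds_eLo]) (by norm_num))
    (Or.inl ⟨by norm_num, by norm_num⟩) hc (by norm_num)

lemma Cs_bounds_N6_26 {l D : ℝ → ℝ} (H : Cs_bounds_Hy l D) {s r : ℝ} (hs : 6 ≤ s)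
    (hr : 0 < r) (hrs : r ^ 2 * s = 1)
    (hc : r ^ 3 * (2081537 / 10000000) ≤ ∫ t in ((197 / 40) * r)..3, Cs_bounds_gs l D s t) :
    r ^ 3 * (228691 / 1000000) ≤ ∫ t in ((97 / 20) * r)..3, Cs_bounds_gs l D s t :=
  Cs_bounds_step H (y1 := (3423 / 1000)) (y2 := (3999 / 1000)) (m := (16037 / 250000))
    (c := (187 / 25000)) (s0 := 6) (u0 := (1 / 6))
    (by norm_num) hs (by norm_num) hr hrs (by norm_num) (by norm_num) (by norm_num) (by norm_num)
    (by norm_num) (Cs_bounds_kf_lb (403699 / 500000) (by norm_num) (by norm_num) (by norm_num) (by norm_num [Cs_bounds_eLo]) (by norm_num))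
    (Cs_bounds_kf_lb (24339 / 31250) (by norm_num) (by norm_num) (by norm_num) (by norm_num [Cs_bounds_eLo]) (by norm_num))
    (Or.inl ⟨by norm_num, by norm_num⟩) hc (by norm_num)

lemma Cs_bounds_N6_25 {l D : ℝ → ℝ} (H : Cs_bounds_Hy l D) {s r : ℝ} (hs : 6 ≤ s)
    (hr : 0 < r) (hrs : r ^ 2 * s = 1)
    (hc : r ^ 3 * (228691 / 1000000) ≤ ∫ t in ((97 / 20) * r)..3, Cs_bounds_gs l D s t) :
    r ^ 3 * (1249971 / 5000000) ≤ ∫ t in ((191 / 40) * r)..3, Cs_bounds_gs l D s t :=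
  Cs_bounds_step H (y1 := (1659 / 500)) (y2 := (193 / 50)) (m := (35393 / 500000))
    (c := (187 / 25000)) (s0 := 6) (u0 := (1 / 6))
    (by norm_num) hs (by norm_num) hr hrs (by norm_num) (by norm_num) (by norm_num) (by norm_num)
    (by norm_num) (Cs_bounds_kf_lb (406357 / 500000) (by norm_num) (by norm_num) (by norm_num) (by norm_num [Cs_bounds_eLo]) (by norm_num))
    (Cs_bounds_kf_lb (196411 / 250000) (by norm_num) (by norm_num) (by norm_num) (by norm_num [Cs_bounds_eLo]) (by norm_num))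
    (Or.inl ⟨by norm_num, by norm_num⟩) hc (by norm_num)

lemma Cs_bounds_N6_24 {l D : ℝ → ℝ} (H : Cs_bounds_Hy l D) {s r : ℝ} (hs : 6 ≤ s)
    (hr : 0 < r) (hrs : r ^ 2 * s = 1)
    (hc : r ^ 3 * (1249971 / 5000000) ≤ ∫ t in ((191 / 40) * r)..3, Cs_bounds_gs l D s t) :
    r ^ 3 * (1359859 / 5000000) ≤ ∫ t in ((47 / 10) * r)..3, Cs_bounds_gs l D s t :=
  Cs_bounds_step H (y1 := (643 / 200)) (y2 := (149 / 40)) (m := (38881 / 500000))
    (c := (187 / 25000)) (s0 := 6) (u0 := (1 / 6))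
    (by norm_num) hs (by norm_num) hr hrs (by norm_num) (by norm_num) (by norm_num) (by norm_num)
    (by norm_num) (Cs_bounds_kf_lb (817963 / 1000000) (by norm_num) (by norm_num) (by norm_num) (by norm_num [Cs_bounds_eLo]) (by norm_num))
    (Cs_bounds_kf_lb (792301 / 1000000) (by norm_num) (by norm_num) (by norm_num) (by norm_num [Cs_bounds_eLo]) (by norm_num))
    (Or.inl ⟨by norm_num, by norm_num⟩) hc (by norm_num)

lemma Cs_bounds_N6_23 {l D : ℝ → ℝ} (H : Cs_bounds_Hy l D) {s r : ℝ} (hs : 6 ≤ s)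
    (hr : 0 < r) (hrs : r ^ 2 * s = 1)
    (hc : r ^ 3 * (1359859 / 5000000) ≤ ∫ t in ((47 / 10) * r)..3, Cs_bounds_gs l D s t) :
    r ^ 3 * (2945221 / 10000000) ≤ ∫ t in ((37 / 8) * r)..3, Cs_bounds_gs l D s t :=
  Cs_bounds_step H (y1 := (3113 / 1000)) (y2 := (1797 / 500)) (m := (85047 / 1000000))
    (c := (187 / 25000)) (s0 := 6) (u0 := (1 / 6))
    (by norm_num) hs (by norm_num) hr hrs (by norm_num) (by norm_num) (by norm_num) (by norm_num)
    (by norm_num) (Cs_bounds_kf_lb (411597 / 500000) (by norm_num) (by norm_num) (by norm_num) (by norm_num [Cs_bounds_eLo]) (by norm_num))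
    (Cs_bounds_kf_lb (159763 / 200000) (by norm_num) (by norm_num) (by norm_num) (by norm_num [Cs_bounds_eLo]) (by norm_num))
    (Or.inl ⟨by norm_num, by norm_num⟩) hc (by norm_num)

lemma Cs_bounds_N6_22 {l D : ℝ → ℝ} (H : Cs_bounds_Hy l D) {s r : ℝ} (hs : 6 ≤ s)
    (hr : 0 < r) (hrs : r ^ 2 * s = 1)
    (hc : r ^ 3 * (2945221 / 10000000) ≤ ∫ t in ((37 / 8) * r)..3, Cs_bounds_gs l D s t) :
    r ^ 3 * (1587741 / 5000000) ≤ ∫ t in ((91 / 20) * r)..3, Cs_bounds_gs l D s t :=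
  Cs_bounds_step H (y1 := (3013 / 1000)) (y2 := (1733 / 500)) (m := (92661 / 1000000))
    (c := (187 / 25000)) (s0 := 6) (u0 := (1 / 6))
    (by norm_num) hs (by norm_num) hr hrs (by norm_num) (by norm_num) (by norm_num) (by norm_num)
    (by norm_num) (Cs_bounds_kf_lb (165671 / 200000) (by norm_num) (by norm_num) (by norm_num) (by norm_num [Cs_bounds_eLo]) (by norm_num))
    (Cs_bounds_kf_lb (805231 / 1000000) (by norm_num) (by norm_num) (by norm_num) (by norm_num [Cs_bounds_eLo]) (by norm_num))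
    (Or.inl ⟨by norm_num, by norm_num⟩) hc (by norm_num)

lemma Cs_bounds_N6_21 {l D : ℝ → ℝ} (H : Cs_bounds_Hy l D) {s r : ℝ} (hs : 6 ≤ s)
    (hr : 0 < r) (hrs : r ^ 2 * s = 1)
    (hc : r ^ 3 * (1587741 / 5000000) ≤ ∫ t in ((91 / 20) * r)..3, Cs_bounds_gs l D s t) :
    r ^ 3 * (3409463 / 10000000) ≤ ∫ t in ((179 / 40) * r)..3, Cs_bounds_gs l D s t :=
  Cs_bounds_step H (y1 := (1457 / 500)) (y2 := (3341 / 1000)) (m := (4023 / 40000))
    (c := (187 / 25000)) (s0 := 6) (u0 := (1 / 6))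
    (by norm_num) hs (by norm_num) hr hrs (by norm_num) (by norm_num) (by norm_num) (by norm_num)
    (by norm_num) (Cs_bounds_kf_lb (833497 / 1000000) (by norm_num) (by norm_num) (by norm_num) (by norm_num [Cs_bounds_eLo]) (by norm_num))
    (Cs_bounds_kf_lb (811547 / 1000000) (by norm_num) (by norm_num) (by norm_num) (by norm_num [Cs_bounds_eLo]) (by norm_num))
    (Or.inl ⟨by norm_num, by norm_num⟩) hc (by norm_num)

lemma Cs_bounds_N6_20 {l D : ℝ → ℝ} (H : Cs_bounds_Hy l D) {s r : ℝ} (hs : 6 ≤ s)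
    (hr : 0 < r) (hrs : r ^ 2 * s = 1)
    (hc : r ^ 3 * (3409463 / 10000000) ≤ ∫ t in ((179 / 40) * r)..3, Cs_bounds_gs l D s t) :
    r ^ 3 * (1823023 / 5000000) ≤ ∫ t in ((22 / 5) * r)..3, Cs_bounds_gs l D s t :=
  Cs_bounds_step H (y1 := (1409 / 500)) (y2 := (3219 / 1000)) (m := (13593 / 125000))
    (c := (187 / 25000)) (s0 := 6) (u0 := (1 / 6))
    (by norm_num) hs (by norm_num) hr hrs (by norm_num) (by norm_num) (by norm_num) (by norm_num)
    (by norm_num) (Cs_bounds_kf_lb (838513 / 1000000) (by norm_num) (by norm_num) (by norm_num) (by norm_num [Cs_bounds_eLo]) (by norm_num))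
    (Cs_bounds_kf_lb (408879 / 500000) (by norm_num) (by norm_num) (by norm_num) (by norm_num [Cs_bounds_eLo]) (by norm_num))
    (Or.inl ⟨by norm_num, by norm_num⟩) hc (by norm_num)

lemma Cs_bounds_N6_19 {l D : ℝ → ℝ} (H : Cs_bounds_Hy l D) {s r : ℝ} (hs : 6 ≤ s)
    (hr : 0 < r) (hrs : r ^ 2 * s = 1)
    (hc : r ^ 3 * (1823023 / 5000000) ≤ ∫ t in ((22 / 5) * r)..3, Cs_bounds_gs l D s t) :
    r ^ 3 * (388407 / 1000000) ≤ ∫ t in ((173 / 40) * r)..3, Cs_bounds_gs l D s t :=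
  Cs_bounds_step H (y1 := (1361 / 500)) (y2 := (31 / 10)) (m := (58563 / 500000))
    (c := (187 / 25000)) (s0 := 6) (u0 := (1 / 6))
    (by norm_num) hs (by norm_num) hr hrs (by norm_num) (by norm_num) (by norm_num) (by norm_num)
    (by norm_num) (Cs_bounds_kf_lb (843559 / 1000000) (by norm_num) (by norm_num) (by norm_num) (by norm_num [Cs_bounds_eLo]) (by norm_num))
    (Cs_bounds_kf_lb (823863 / 1000000) (by norm_num) (by norm_num) (by norm_num) (by norm_num [Cs_bounds_eLo]) (by norm_num))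
    (Or.inl ⟨by norm_num, by norm_num⟩) hc (by norm_num)

lemma Cs_bounds_N6_18 {l D : ℝ → ℝ} (H : Cs_bounds_Hy l D) {s r : ℝ} (hs : 6 ≤ s)
    (hr : 0 < r) (hrs : r ^ 2 * s = 1)
    (hc : r ^ 3 * (388407 / 1000000) ≤ ∫ t in ((173 / 40) * r)..3, Cs_bounds_gs l D s t) :
    r ^ 3 * (4122333 / 10000000) ≤ ∫ t in ((17 / 4) * r)..3, Cs_bounds_gs l D s t :=
  Cs_bounds_step H (y1 := (2629 / 1000)) (y2 := (373 / 125)) (m := (3927 / 31250))
    (c := (187 / 25000)) (s0 := 6) (u0 := (1 / 6))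
    (by norm_num) hs (by norm_num) hr hrs (by norm_num) (by norm_num) (by norm_num) (by norm_num)
    (by norm_num) (Cs_bounds_kf_lb (212119 / 250000) (by norm_num) (by norm_num) (by norm_num) (by norm_num [Cs_bounds_eLo]) (by norm_num))
    (Cs_bounds_kf_lb (414929 / 500000) (by norm_num) (by norm_num) (by norm_num) (by norm_num [Cs_bounds_eLo]) (by norm_num))
    (Or.inl ⟨by norm_num, by norm_num⟩) hc (by norm_num)

lemma Cs_bounds_N6_17 {l D : ℝ → ℝ} (H : Cs_bounds_Hy l D) {s r : ℝ} (hs : 6 ≤ s)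
    (hr : 0 < r) (hrs : r ^ 2 * s = 1)
    (hc : r ^ 3 * (4122333 / 10000000) ≤ ∫ t in ((17 / 4) * r)..3, Cs_bounds_gs l D s t) :
    r ^ 3 * (1089903 / 2500000) ≤ ∫ t in ((167 / 40) * r)..3, Cs_bounds_gs l D s t :=
  Cs_bounds_step H (y1 := (2537 / 1000)) (y2 := (2871 / 1000)) (m := (67149 / 500000))
    (c := (187 / 25000)) (s0 := 6) (u0 := (1 / 6))
    (by norm_num) hs (by norm_num) hr hrs (by norm_num) (by norm_num) (by norm_num) (by norm_num)
    (by norm_num) (Cs_bounds_kf_lb (853369 / 1000000) (by norm_num) (by norm_num) (by norm_num) (by norm_num [Cs_bounds_eLo]) (by norm_num))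
    (Cs_bounds_kf_lb (41787 / 50000) (by norm_num) (by norm_num) (by norm_num) (by norm_num [Cs_bounds_eLo]) (by norm_num))
    (Or.inl ⟨by norm_num, by norm_num⟩) hc (by norm_num)

lemma Cs_bounds_N6_16 {l D : ℝ → ℝ} (H : Cs_bounds_Hy l D) {s r : ℝ} (hs : 6 ≤ s)
    (hr : 0 < r) (hrs : r ^ 2 * s = 1)
    (hc : r ^ 3 * (1089903 / 2500000) ≤ ∫ t in ((167 / 40) * r)..3, Cs_bounds_gs l D s t) :
    r ^ 3 * (2297339 / 5000000) ≤ ∫ t in ((41 / 10) * r)..3, Cs_bounds_gs l D s t :=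
  Cs_bounds_step H (y1 := (1223 / 500)) (y2 := (2761 / 1000)) (m := (142957 / 1000000))
    (c := (187 / 25000)) (s0 := 6) (u0 := (1 / 6))
    (by norm_num) hs (by norm_num) hr hrs (by norm_num) (by norm_num) (by norm_num) (by norm_num)
    (by norm_num) (Cs_bounds_kf_lb (214559 / 250000) (by norm_num) (by norm_num) (by norm_num) (by norm_num [Cs_bounds_eLo]) (by norm_num))
    (Cs_bounds_kf_lb (168301 / 200000) (by norm_num) (by norm_num) (by norm_num) (by norm_num [Cs_bounds_eLo]) (by norm_num))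
    (Or.inl ⟨by norm_num, by norm_num⟩) hc (by norm_num)

lemma Cs_bounds_N6_15 {l D : ℝ → ℝ} (H : Cs_bounds_Hy l D) {s r : ℝ} (hs : 6 ≤ s)
    (hr : 0 < r) (hrs : r ^ 2 * s = 1)
    (hc : r ^ 3 * (2297339 / 5000000) ≤ ∫ t in ((41 / 10) * r)..3, Cs_bounds_gs l D s t) :
    r ^ 3 * (4899803 / 10000000) ≤ ∫ t in (4 * r)..3, Cs_bounds_gs l D s t :=
  Cs_bounds_step H (y1 := (2329 / 1000)) (y2 := (1327 / 500)) (m := (75787 / 500000))
    (c := (187 / 25000)) (s0 := 6) (u0 := (1 / 6))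
    (by norm_num) hs (by norm_num) hr hrs (by norm_num) (by norm_num) (by norm_num) (by norm_num)
    (by norm_num) (Cs_bounds_kf_lb (172907 / 200000) (by norm_num) (by norm_num) (by norm_num) (by norm_num [Cs_bounds_eLo]) (by norm_num))
    (Cs_bounds_kf_lb (52947 / 62500) (by norm_num) (by norm_num) (by norm_num) (by norm_num [Cs_bounds_eLo]) (by norm_num))
    (Or.inl ⟨by norm_num, by norm_num⟩) hc (by norm_num)

lemma Cs_bounds_N6_14 {l D : ℝ → ℝ} (H : Cs_bounds_Hy l D) {s r : ℝ} (hs : 6 ≤ s)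
    (hr : 0 < r) (hrs : r ^ 2 * s = 1)
    (hc : r ^ 3 * (4899803 / 10000000) ≤ ∫ t in (4 * r)..3, Cs_bounds_gs l D s t) :
    r ^ 3 * (519659 / 1000000) ≤ ∫ t in ((39 / 10) * r)..3, Cs_bounds_gs l D s t :=
  Cs_bounds_step H (y1 := (1107 / 500)) (y2 := (503 / 200)) (m := (20367 / 125000))
    (c := (187 / 25000)) (s0 := 6) (u0 := (1 / 6))
    (by norm_num) hs (by norm_num) hr hrs (by norm_num) (by norm_num) (by norm_num) (by norm_num)
    (by norm_num) (Cs_bounds_kf_lb (217693 / 250000) (by norm_num) (by norm_num) (by norm_num) (by norm_num [Cs_bounds_eLo]) (by norm_num))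
    (Cs_bounds_kf_lb (854543 / 1000000) (by norm_num) (by norm_num) (by norm_num) (by norm_num [Cs_bounds_eLo]) (by norm_num))
    (Or.inl ⟨by norm_num, by norm_num⟩) hc (by norm_num)

lemma Cs_bounds_N6_13 {l D : ℝ → ℝ} (H : Cs_bounds_Hy l D) {s r : ℝ} (hs : 6 ≤ s)
    (hr : 0 < r) (hrs : r ^ 2 * s = 1)
    (hc : r ^ 3 * (519659 / 1000000) ≤ ∫ t in ((39 / 10) * r)..3, Cs_bounds_gs l D s t) :
    r ^ 3 * (1370623 / 2500000) ≤ ∫ t in ((19 / 5) * r)..3, Cs_bounds_gs l D s t :=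
  Cs_bounds_step H (y1 := (2101 / 1000)) (y2 := (2381 / 1000)) (m := (173911 / 1000000))
    (c := (187 / 25000)) (s0 := 6) (u0 := (1 / 6))
    (by norm_num) hs (by norm_num) hr hrs (by norm_num) (by norm_num) (by norm_num) (by norm_num)
    (by norm_num) (Cs_bounds_kf_lb (876943 / 1000000) (by norm_num) (by norm_num) (by norm_num) (by norm_num [Cs_bounds_eLo]) (by norm_num))
    (Cs_bounds_kf_lb (86173 / 100000) (by norm_num) (by norm_num) (by norm_num) (by norm_num [Cs_bounds_eLo]) (by norm_num))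
    (Or.inl ⟨by norm_num, by norm_num⟩) hc (by norm_num)

lemma Cs_bounds_N6_12 {l D : ℝ → ℝ} (H : Cs_bounds_Hy l D) {s r : ℝ} (hs : 6 ≤ s)
    (hr : 0 < r) (hrs : r ^ 2 * s = 1)
    (hc : r ^ 3 * (1370623 / 2500000) ≤ ∫ t in ((19 / 5) * r)..3, Cs_bounds_gs l D s t) :
    r ^ 3 * (5819051 / 10000000) ≤ ∫ t in ((147 / 40) * r)..3, Cs_bounds_gs l D s t :=
  Cs_bounds_step H (y1 := (393 / 200)) (y2 := (2251 / 1000)) (m := (184367 / 1000000))
    (c := (187 / 25000)) (s0 := 6) (u0 := (1 / 6))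
    (by norm_num) hs (by norm_num) hr hrs (by norm_num) (by norm_num) (by norm_num) (by norm_num)
    (by norm_num) (Cs_bounds_kf_lb (884429 / 1000000) (by norm_num) (by norm_num) (by norm_num) (by norm_num [Cs_bounds_eLo]) (by norm_num))
    (Cs_bounds_kf_lb (21719 / 25000) (by norm_num) (by norm_num) (by norm_num) (by norm_num [Cs_bounds_eLo]) (by norm_num))
    (Or.inl ⟨by norm_num, by norm_num⟩) hc (by norm_num)

lemma Cs_bounds_N6_11 {l D : ℝ → ℝ} (H : Cs_bounds_Hy l D) {s r : ℝ} (hs : 6 ≤ s)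
    (hr : 0 < r) (hrs : r ^ 2 * s = 1)
    (hc : r ^ 3 * (5819051 / 10000000) ≤ ∫ t in ((147 / 40) * r)..3, Cs_bounds_gs l D s t) :
    r ^ 3 * (613181 / 1000000) ≤ ∫ t in ((71 / 20) * r)..3, Cs_bounds_gs l D s t :=
  Cs_bounds_step H (y1 := (917 / 500)) (y2 := (419 / 200)) (m := (98147 / 500000))
    (c := (187 / 25000)) (s0 := 6) (u0 := (1 / 6))
    (by norm_num) hs (by norm_num) hr hrs (by norm_num) (by norm_num) (by norm_num) (by norm_num)
    (by norm_num) (Cs_bounds_kf_lb (8917 / 10000) (by norm_num) (by norm_num) (by norm_num) (by norm_num [Cs_bounds_eLo]) (by norm_num))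
    (Cs_bounds_kf_lb (109659 / 125000) (by norm_num) (by norm_num) (by norm_num) (by norm_num [Cs_bounds_eLo]) (by norm_num))
    (Or.inl ⟨by norm_num, by norm_num⟩) hc (by norm_num)

lemma Cs_bounds_N6_10 {l D : ℝ → ℝ} (H : Cs_bounds_Hy l D) {s r : ℝ} (hs : 6 ≤ s)
    (hr : 0 < r) (hrs : r ^ 2 * s = 1)
    (hc : r ^ 3 * (613181 / 1000000) ≤ ∫ t in ((71 / 20) * r)..3, Cs_bounds_gs l D s t) :
    r ^ 3 * (404379 / 625000) ≤ ∫ t in ((17 / 5) * r)..3, Cs_bounds_gs l D s t :=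
  Cs_bounds_step H (y1 := (841 / 500)) (y2 := (973 / 500)) (m := (206551 / 1000000))
    (c := (187 / 25000)) (s0 := 6) (u0 := (1 / 6))
    (by norm_num) hs (by norm_num) hr hrs (by norm_num) (by norm_num) (by norm_num) (by norm_num)
    (by norm_num) (Cs_bounds_kf_lb (900211 / 1000000) (by norm_num) (by norm_num) (by norm_num) (by norm_num [Cs_bounds_eLo]) (by norm_num))
    (Cs_bounds_kf_lb (22137 / 25000) (by norm_num) (by norm_num) (by norm_num) (by norm_num [Cs_bounds_eLo]) (by norm_num))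
    (Or.inl ⟨by norm_num, by norm_num⟩) hc (by norm_num)

lemma Cs_bounds_N6_9 {l D : ℝ → ℝ} (H : Cs_bounds_Hy l D) {s r : ℝ} (hs : 6 ≤ s)
    (hr : 0 < r) (hrs : r ^ 2 * s = 1)
    (hc : r ^ 3 * (404379 / 625000) ≤ ∫ t in ((17 / 5) * r)..3, Cs_bounds_gs l D s t) :
    r ^ 3 * (1804059 / 2500000) ≤ ∫ t in ((59 / 20) * r)..3, Cs_bounds_gs l D s t :=
  Cs_bounds_step H (y1 := (633 / 500)) (y2 := (222 / 125)) (m := (215977 / 1000000))
    (c := (187 / 25000)) (s0 := 6) (u0 := (1 / 6))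
    (by norm_num) hs (by norm_num) hr hrs (by norm_num) (by norm_num) (by norm_num) (by norm_num)
    (by norm_num) (Cs_bounds_kf_lb (230981 / 250000) (by norm_num) (by norm_num) (by norm_num) (by norm_num [Cs_bounds_eLo]) (by norm_num))
    (Cs_bounds_kf_lb (447469 / 500000) (by norm_num) (by norm_num) (by norm_num) (by norm_num [Cs_bounds_eLo]) (by norm_num))
    (Or.inl ⟨by norm_num, by norm_num⟩) hc (by norm_num)

lemma Cs_bounds_N6_8 {l D : ℝ → ℝ} (H : Cs_bounds_Hy l D) {s r : ℝ} (hs : 6 ≤ s)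
    (hr : 0 < r) (hrs : r ^ 2 * s = 1)
    (hc : r ^ 3 * (1804059 / 2500000) ≤ ∫ t in ((59 / 20) * r)..3, Cs_bounds_gs l D s t) :
    r ^ 3 * (1853461 / 2500000) ≤ ∫ t in ((11 / 4) * r)..3, Cs_bounds_gs l D s t :=
  Cs_bounds_step H (y1 := (11 / 10)) (y2 := (659 / 500)) (m := (99861 / 500000))
    (c := (187 / 25000)) (s0 := 6) (u0 := (1 / 6))
    (by norm_num) hs (by norm_num) hr hrs (by norm_num) (by norm_num) (by norm_num) (by norm_num)
    (by norm_num) (Cs_bounds_kf_lb (23339 / 25000) (by norm_num) (by norm_num) (by norm_num) (by norm_num [Cs_bounds_eLo]) (by norm_num))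
    (Cs_bounds_kf_lb (460463 / 500000) (by norm_num) (by norm_num) (by norm_num) (by norm_num [Cs_bounds_eLo]) (by norm_num))
    (Or.inl ⟨by norm_num, by norm_num⟩) hc (by norm_num)

lemma Cs_bounds_N6_7 {l D : ℝ → ℝ} (H : Cs_bounds_Hy l D) {s r : ℝ} (hs : 6 ≤ s)
    (hr : 0 < r) (hrs : r ^ 2 * s = 1)
    (hc : r ^ 3 * (1853461 / 2500000) ≤ ∫ t in ((11 / 4) * r)..3, Cs_bounds_gs l D s t) :
    r ^ 3 * (753063 / 1000000) ≤ ∫ t in ((103 / 40) * r)..3, Cs_bounds_gs l D s t :=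
  Cs_bounds_step H (y1 := (193 / 200)) (y2 := (1139 / 1000)) (m := (44289 / 250000))
    (c := (187 / 25000)) (s0 := 6) (u0 := (1 / 6))
    (by norm_num) hs (by norm_num) hr hrs (by norm_num) (by norm_num) (by norm_num) (by norm_num)
    (by norm_num) (Cs_bounds_kf_lb (94147 / 100000) (by norm_num) (by norm_num) (by norm_num) (by norm_num [Cs_bounds_eLo]) (by norm_num))
    (Cs_bounds_kf_lb (931287 / 1000000) (by norm_num) (by norm_num) (by norm_num) (by norm_num [Cs_bounds_eLo]) (by norm_num))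
    (Or.inl ⟨by norm_num, by norm_num⟩) hc (by norm_num)

lemma Cs_bounds_N6_6 {l D : ℝ → ℝ} (H : Cs_bounds_Hy l D) {s r : ℝ} (hs : 6 ≤ s)
    (hr : 0 < r) (hrs : r ^ 2 * s = 1)
    (hc : r ^ 3 * (753063 / 1000000) ≤ ∫ t in ((103 / 40) * r)..3, Cs_bounds_gs l D s t) :
    r ^ 3 * (7604087 / 10000000) ≤ ∫ t in ((12 / 5) * r)..3, Cs_bounds_gs l D s t :=
  Cs_bounds_step H (y1 := (419 / 500)) (y2 := (199 / 200)) (m := (146207 / 1000000))
    (c := (187 / 25000)) (s0 := 6) (u0 := (1 / 6))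
    (by norm_num) hs (by norm_num) hr hrs (by norm_num) (by norm_num) (by norm_num) (by norm_num)
    (by norm_num) (Cs_bounds_kf_lb (237243 / 250000) (by norm_num) (by norm_num) (by norm_num) (by norm_num [Cs_bounds_eLo]) (by norm_num))
    (Cs_bounds_kf_lb (469853 / 500000) (by norm_num) (by norm_num) (by norm_num) (by norm_num [Cs_bounds_eLo]) (by norm_num))
    (Or.inl ⟨by norm_num, by norm_num⟩) hc (by norm_num)

lemma Cs_bounds_N6_5 {l D : ℝ → ℝ} (H : Cs_bounds_Hy l D) {s r : ℝ} (hs : 6 ≤ s)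
    (hr : 0 < r) (hrs : r ^ 2 * s = 1)
    (hc : r ^ 3 * (7604087 / 10000000) ≤ ∫ t in ((12 / 5) * r)..3, Cs_bounds_gs l D s t) :
    r ^ 3 * (7644287 / 10000000) ≤ ∫ t in ((89 / 40) * r)..3, Cs_bounds_gs l D s t :=
  Cs_bounds_step H (y1 := (18 / 25)) (y2 := (861 / 1000)) (m := (26771 / 250000))
    (c := (187 / 25000)) (s0 := 6) (u0 := (1 / 6))
    (by norm_num) hs (by norm_num) hr hrs (by norm_num) (by norm_num) (by norm_num) (by norm_num)
    (by norm_num) (Cs_bounds_kf_lb (955997 / 1000000) (by norm_num) (by norm_num) (by norm_num) (by norm_num [Cs_bounds_eLo]) (by norm_num))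
    (Cs_bounds_kf_lb (947609 / 1000000) (by norm_num) (by norm_num) (by norm_num) (by norm_num [Cs_bounds_eLo]) (by norm_num))
    (Or.inl ⟨by norm_num, by norm_num⟩) hc (by norm_num)

lemma Cs_bounds_N6_4 {l D : ℝ → ℝ} (H : Cs_bounds_Hy l D) {s r : ℝ} (hs : 6 ≤ s)
    (hr : 0 < r) (hrs : r ^ 2 * s = 1)
    (hc : r ^ 3 * (7644287 / 10000000) ≤ ∫ t in ((89 / 40) * r)..3, Cs_bounds_gs l D s t) :
    r ^ 3 * (3830247 / 5000000) ≤ ∫ t in ((81 / 40) * r)..3, Cs_bounds_gs l D s t :=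
  Cs_bounds_step H (y1 := (149 / 250)) (y2 := (737 / 1000)) (m := (1653 / 31250))
    (c := (187 / 25000)) (s0 := 6) (u0 := (1 / 6))
    (by norm_num) hs (by norm_num) hr hrs (by norm_num) (by norm_num) (by norm_num) (by norm_num)
    (by norm_num) (Cs_bounds_kf_lb (192687 / 200000) (by norm_num) (by norm_num) (by norm_num) (by norm_num [Cs_bounds_eLo]) (by norm_num))
    (Cs_bounds_kf_lb (477491 / 500000) (by norm_num) (by norm_num) (by norm_num) (by norm_num [Cs_bounds_eLo]) (by norm_num))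
    (Or.inl ⟨by norm_num, by norm_num⟩) hc (by norm_num)

lemma Cs_bounds_N6_3 {l D : ℝ → ℝ} (H : Cs_bounds_Hy l D) {s r : ℝ} (hs : 6 ≤ s)
    (hr : 0 < r) (hrs : r ^ 2 * s = 1)
    (hc : r ^ 3 * (3830247 / 5000000) ≤ ∫ t in ((81 / 40) * r)..3, Cs_bounds_gs l D s t) :
    r ^ 3 * (1913999 / 2500000) ≤ ∫ t in ((9 / 5) * r)..3, Cs_bounds_gs l D s t :=
  Cs_bounds_step H (y1 := (471 / 1000)) (y2 := (76 / 125)) (m := (-18333 / 1000000))
    (c := (3237467961 / 400000000000)) (s0 := 6) (u0 := (1 / 6))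
    (by norm_num) hs (by norm_num) hr hrs (by norm_num) (by norm_num) (by norm_num) (by norm_num)
    (by norm_num) (Cs_bounds_kf_lbneg (by norm_num) (by norm_num) (by norm_num))
    (Cs_bounds_kf_lb (120339 / 125000) (by norm_num) (by norm_num) (by norm_num) (by norm_num [Cs_bounds_eLo]) (by norm_num))
    (Or.inr ⟨by norm_num, by norm_num⟩) hc (by norm_num)

lemma Cs_bounds_N6_2 {l D : ℝ → ℝ} (H : Cs_bounds_Hy l D) {s r : ℝ} (hs : 6 ≤ s)
    (hr : 0 < r) (hrs : r ^ 2 * s = 1)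
    (hc : r ^ 3 * (1913999 / 2500000) ≤ ∫ t in ((9 / 5) * r)..3, Cs_bounds_gs l D s t) :
    r ^ 3 * (3819511 / 5000000) ≤ ∫ t in ((31 / 20) * r)..3, Cs_bounds_gs l D s t :=
  Cs_bounds_step H (y1 := (349 / 1000)) (y2 := (479 / 1000)) (m := (-1071 / 10000))
    (c := (49780731 / 6250000000)) (s0 := 6) (u0 := (1 / 6))
    (by norm_num) hs (by norm_num) hr hrs (by norm_num) (by norm_num) (by norm_num) (by norm_num)
    (by norm_num) (Cs_bounds_kf_lbneg (by norm_num) (by norm_num) (by norm_num))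
    (Cs_bounds_kf_lbneg (by norm_num) (by norm_num) (by norm_num))
    (Or.inr ⟨by norm_num, by norm_num⟩) hc (by norm_num)

lemma Cs_bounds_N6_1 {l D : ℝ → ℝ} (H : Cs_bounds_Hy l D) {s r : ℝ} (hs : 6 ≤ s)
    (hr : 0 < r) (hrs : r ^ 2 * s = 1)
    (hc : r ^ 3 * (3819511 / 5000000) ≤ ∫ t in ((31 / 20) * r)..3, Cs_bounds_gs l D s t) :
    r ^ 3 * (7613163 / 10000000) ≤ ∫ t in ((47 / 40) * r)..3, Cs_bounds_gs l D s t :=
  Cs_bounds_step H (y1 := (1 / 5)) (y2 := (177 / 500)) (m := (-122951 / 500000))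
    (c := (783962361 / 100000000000)) (s0 := 6) (u0 := (1 / 6))
    (by norm_num) hs (by norm_num) hr hrs (by norm_num) (by norm_num) (by norm_num) (by norm_num)
    (by norm_num) (Cs_bounds_kf_lbneg (by norm_num) (by norm_num) (by norm_num))
    (Cs_bounds_kf_lbneg (by norm_num) (by norm_num) (by norm_num))
    (Or.inr ⟨by norm_num, by norm_num⟩) hc (by norm_num)

lemma Cs_bounds_N6_0 {l D : ℝ → ℝ} (H : Cs_bounds_Hy l D) {s r : ℝ} (hs : 6 ≤ s)
    (hr : 0 < r) (hrs : r ^ 2 * s = 1)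
    (hc : r ^ 3 * (7613163 / 10000000) ≤ ∫ t in ((47 / 40) * r)..3, Cs_bounds_gs l D s t) :
    r ^ 3 * (7595947 / 10000000) ≤ ∫ t in (0 * r)..3, Cs_bounds_gs l D s t :=
  Cs_bounds_step H (y1 := 0) (y2 := (203 / 1000)) (m := (-1 / 2))
    (c := (3074698809 / 400000000000)) (s0 := 6) (u0 := (1 / 6))
    (by norm_num) hs (by norm_num) hr hrs (by norm_num) (by norm_num) (by norm_num) (by norm_num)
    (by norm_num) (Cs_bounds_kf_lbneg (by norm_num) (by norm_num) (by norm_num))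
    (Cs_bounds_kf_lbneg (by norm_num) (by norm_num) (by norm_num))
    (Or.inr ⟨by norm_num, by norm_num⟩) hc (by norm_num)

lemma Cs_bounds_N6 {l D : ℝ → ℝ} (H : Cs_bounds_Hy l D) {s r : ℝ} (hs : 6 ≤ s)
    (hr : 0 < r) (hrs : r ^ 2 * s = 1) :
    r ^ 3 * (7595947 / 10000000) ≤ ∫ t in (0 * r)..3, Cs_bounds_gs l D s t := by
  have hv : r ^ 2 ≤ (1 / 6) := by
    have h1 : 0 < r ^ 2 := by positivity
    nlinarith
  have hx : (127 / 20) * r ≤ 3 := by
    have h1 : ((127 / 20) * r) ^ 2 ≤ 3 ^ 2 := by nlinarith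
    exact le_of_sq_le_sq h1 (by norm_num)
  have c44 : r ^ 3 * 0 ≤ ∫ t in ((127 / 20) * r)..3, Cs_bounds_gs l D s t :=
    Cs_bounds_base H (by linarith) hr hrs (by norm_num) hx (by norm_num)
  have c43 := Cs_bounds_N6_43 H hs hr hrs c44
  have c42 := Cs_bounds_N6_42 H hs hr hrs c43
  have c41 := Cs_bounds_N6_41 H hs hr hrs c42
  have c40 := Cs_bounds_N6_40 H hs hr hrs c41
  have c39 := Cs_bounds_N6_39 H hs hr hrs c40
  have c38 := Cs_bounds_N6_38 H hs hr hrs c39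
  have c37 := Cs_bounds_N6_37 H hs hr hrs c38
  have c36 := Cs_bounds_N6_36 H hs hr hrs c37
  have c35 := Cs_bounds_N6_35 H hs hr hrs c36
  have c34 := Cs_bounds_N6_34 H hs hr hrs c35
  have c33 := Cs_bounds_N6_33 H hs hr hrs c34
  have c32 := Cs_bounds_N6_32 H hs hr hrs c33
  have c31 := Cs_bounds_N6_31 H hs hr hrs c32
  have c30 := Cs_bounds_N6_30 H hs hr hrs c31
  have c29 := Cs_bounds_N6_29 H hs hr hrs c30
  have c28 := Cs_bounds_N6_28 H hs hr hrs c29
  have c27 := Cs_bounds_N6_27 H hs hr hrs c28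
  have c26 := Cs_bounds_N6_26 H hs hr hrs c27
  have c25 := Cs_bounds_N6_25 H hs hr hrs c26
  have c24 := Cs_bounds_N6_24 H hs hr hrs c25
  have c23 := Cs_bounds_N6_23 H hs hr hrs c24
  have c22 := Cs_bounds_N6_22 H hs hr hrs c23
  have c21 := Cs_bounds_N6_21 H hs hr hrs c22
  have c20 := Cs_bounds_N6_20 H hs hr hrs c21
  have c19 := Cs_bounds_N6_19 H hs hr hrs c20
  have c18 := Cs_bounds_N6_18 H hs hr hrs c19
  have c17 := Cs_bounds_N6_17 H hs hr hrs c18
  have c16 := Cs_bounds_N6_16 H hs hr hrs c17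
  have c15 := Cs_bounds_N6_15 H hs hr hrs c16
  have c14 := Cs_bounds_N6_14 H hs hr hrs c15
  have c13 := Cs_bounds_N6_13 H hs hr hrs c14
  have c12 := Cs_bounds_N6_12 H hs hr hrs c13
  have c11 := Cs_bounds_N6_11 H hs hr hrs c12
  have c10 := Cs_bounds_N6_10 H hs hr hrs c11
  have c9 := Cs_bounds_N6_9 H hs hr hrs c10
  have c8 := Cs_bounds_N6_8 H hs hr hrs c9
  have c7 := Cs_bounds_N6_7 H hs hr hrs c8
  have c6 := Cs_bounds_N6_6 H hs hr hrs c7
  have c5 := Cs_bounds_N6_5 H hs hr hrs c6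
  have c4 := Cs_bounds_N6_4 H hs hr hrs c5
  have c3 := Cs_bounds_N6_3 H hs hr hrs c4
  have c2 := Cs_bounds_N6_2 H hs hr hrs c3
  have c1 := Cs_bounds_N6_1 H hs hr hrs c2
  have c0 := Cs_bounds_N6_0 H hs hr hrs c1
  exact c0

/-- bound for `-log (3/20)` -/
lemma Cs_bounds_y0 : -(1.8972 : ℝ) ≤ Real.log (3 / 20) ∧ Real.log (3 / 20) ≤ -(1.8 : ℝ) := by
  constructor
  · rw [Real.le_log_iff_exp_le (by norm_num), Real.exp_neg]
    have h1 : (20 / 3 : ℝ) ≤ Real.exp 1.8972 := by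
      refine le_trans ?_ (Real.sum_le_exp_of_nonneg (by norm_num) 14)
      simp only [Finset.sum_range_succ, Finset.sum_range_zero, Nat.factorial]
      norm_num
    have h2 := inv_anti₀ (by norm_num : (0 : ℝ) < 20 / 3) h1
    refine h2.trans ?_
    norm_num
  · rw [Real.log_le_iff_le_exp (by norm_num), Real.exp_neg]
    have h1 : Real.exp 1.8 ≤ 20 / 3 := by
      have h2 : Real.exp 1.8 = Real.exp 0.9 ^ 2 := by
        rw [← Real.exp_nat_mul]; norm_num
      have h3 : Real.exp 0.9 ≤ 2.5 := by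
        have h := Real.exp_bound' (x := 0.9) (by norm_num) (by norm_num) (n := 6) (by norm_num)
        refine h.trans ?_
        simp only [Finset.sum_range_succ, Finset.sum_range_zero, Nat.factorial]
        norm_num
      rw [h2]
      have h4 : Real.exp 0.9 ^ 2 ≤ 2.5 ^ 2 := pow_le_pow_left₀ (Real.exp_pos _).le h3 2
      norm_num at h4 ⊢
      linarith
    have h2 := inv_anti₀ (Real.exp_pos 1.8) h1
    refine le_trans ?_ h2
    norm_num

lemma Cs_bounds_tail_mono {a x : ℝ} (ha : 2.9 ≤ a) (hx0 : 0 < x) (hx : x ≤ 3 / 20) :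
    x ^ a * Real.log x ^ 2 ≤ (3 / 20 : ℝ) ^ a * Real.log (3 / 20) ^ 2 := by
  obtain ⟨hy1, hy2⟩ := Cs_bounds_y0
  have hlog : Real.log x ≤ Real.log (3 / 20) := Real.log_le_log hx0 hx
  obtain ⟨y, hlx⟩ : ∃ y, Real.log x = -y := ⟨-Real.log x, by ring⟩
  obtain ⟨y0, hl0⟩ : ∃ y0, Real.log (3 / 20) = -y0 := ⟨-Real.log (3 / 20), by ring⟩
  rw [Real.rpow_def_of_pos hx0, Real.rpow_def_of_pos (by norm_num)]
  rw [hl0] at hy1 hy2 hlog
  rw [hlx] at hlog
  rw [hlx, hl0]
  have hy0' : 1.8 ≤ y0 := by linarith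
  have hyy : y0 ≤ y := by linarith
  have h1 : y ≤ y0 * Real.exp ((y - y0) / y0) := by
    have h2 := Real.add_one_le_exp ((y - y0) / y0)
    have h3 : y0 * ((y - y0) / y0 + 1) = y := by
      field_simp
      ring
    calc y = y0 * ((y - y0) / y0 + 1) := h3.symm
      _ ≤ _ := mul_le_mul_of_nonneg_left h2 (by linarith)
  have h2 : y ^ 2 ≤ y0 ^ 2 * Real.exp (a * (y - y0)) := by
    have h3 : y ^ 2 ≤ (y0 * Real.exp ((y - y0) / y0)) ^ 2 :=
      pow_le_pow_left₀ (by linarith) h1 2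
    refine h3.trans ?_
    rw [mul_pow, ← Real.exp_nat_mul]
    apply mul_le_mul_of_nonneg_left _ (by positivity)
    apply Real.exp_le_exp.2
    push_cast
    have h4 : 2 * ((y - y0) / y0) = (2 / y0) * (y - y0) := by ring
    rw [h4]
    apply mul_le_mul_of_nonneg_right _ (by linarith)
    rw [div_le_iff₀ (by linarith)]
    nlinarith
  have h5 : Real.exp (-y0 * a) = Real.exp (-y * a) * Real.exp (a * (y - y0)) := by
    rw [← Real.exp_add]
    congr 1
    ring
  rw [h5, neg_sq, neg_sq]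
  calc Real.exp (-y * a) * y ^ 2 ≤ Real.exp (-y * a) * (y0 ^ 2 * Real.exp (a * (y - y0))) :=
        mul_le_mul_of_nonneg_left h2 (Real.exp_pos _).le
    _ = _ := by ring

/-- the tail term is decreasing in `s` -/
lemma Cs_bounds_T {s s0 : ℝ} (hs0 : 49 / 10 ≤ s0) (hs : s0 ≤ s) :
    s ^ (7 / 2 : ℝ) * (3 / 20 : ℝ) ^ (s - 2) ≤ s0 ^ (7 / 2 : ℝ) * (3 / 20 : ℝ) ^ (s0 - 2) := by
  obtain ⟨hy1, hy2⟩ := Cs_bounds_y0
  have h0 : 0 < s0 := by linarith
  have h1 : 0 < s := by linarith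
  rw [Real.rpow_def_of_pos h1, Real.rpow_def_of_pos h0, Real.rpow_def_of_pos (by norm_num),
    Real.rpow_def_of_pos (by norm_num), ← Real.exp_add, ← Real.exp_add]
  apply Real.exp_le_exp.2
  have h2 : Real.log s ≤ Real.log s0 + (s - s0) / s0 := by
    have h3 := Real.log_le_sub_one_of_pos (show 0 < s / s0 by positivity)
    rw [Real.log_div h1.ne' h0.ne'] at h3
    have h4 : s / s0 - 1 = (s - s0) / s0 := by field_simp
    linarith
  have h5 : (s - s0) / s0 ≤ (s - s0) / (49 / 10) :=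
    div_le_div_of_nonneg_left (by linarith) (by norm_num) hs0
  nlinarith [mul_nonneg (sub_nonneg.2 hs) (show 0 ≤ -Real.log (3 / 20) - 1.8 by linarith)]

/-- Pointwise bound used for the integrability. -/
lemma Cs_bounds_ptw {s x : ℝ} (hs : 2 ≤ s) (hx0 : 0 ≤ x) (hx1 : x ≤ 1) :
    |x ^ s * (1 / 4 - s * Real.log x - s ^ 2 * Real.log x ^ 2)| ≤
      (1 / 4 + s + 4 * s ^ 2) * x ^ (s - 1) := by
  rcases eq_or_lt_of_le hx0 with h | h
  · rw [← h, Real.zero_rpow (by linarith), Real.zero_rpow (by linarith)]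
    simp
  · have h1 : x ^ s = x ^ (s - 1) * x := by
      rw [Real.rpow_sub_one h.ne']
      field_simp
    have hlt := Real.abs_log_mul_self_lt x h hx1
    have hsq : 0 < Real.sqrt x := Real.sqrt_pos.2 h
    have hlt2 := Real.abs_log_mul_self_lt (Real.sqrt x) hsq (by
      exact Real.sqrt_le_iff.2 ⟨zero_le_one, by simpa using hx1⟩)
    have hsx : Real.sqrt x ^ 2 = x := Real.sq_sqrt h.le
    have hlog : Real.log x = 2 * Real.log (Real.sqrt x) := by
      rw [Real.log_sqrt h.le]; ring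
    have h2 : |x * Real.log x ^ 2| ≤ 4 := by
      rw [abs_of_nonneg (by positivity)]
      have e1 : x * Real.log x ^ 2 = 4 * (Real.log (Real.sqrt x) * Real.sqrt x) ^ 2 := by
        rw [hlog]
        nth_rewrite 1 [← hsx]
        ring
      rw [e1]
      have e2 : (Real.log (Real.sqrt x) * Real.sqrt x) ^ 2 ≤ 1 := by
        rw [← sq_abs]
        have := abs_nonneg (Real.log (Real.sqrt x) * Real.sqrt x)
        nlinarith
      linarith
    have h3 : |x * (1 / 4 - s * Real.log x - s ^ 2 * Real.log x ^ 2)| ≤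
        1 / 4 + s + 4 * s ^ 2 := by
      have e0 : x * (1 / 4 - s * Real.log x - s ^ 2 * Real.log x ^ 2) =
          x * (1 / 4) - s * (Real.log x * x) - s ^ 2 * (x * Real.log x ^ 2) := by ring
      rw [e0]
      have e1 : |x * (1 / 4)| ≤ 1 / 4 := by
        rw [abs_of_nonneg (by positivity)]; linarith
      have e2 : |s * (Real.log x * x)| ≤ s := by
        rw [abs_mul, abs_of_nonneg (by linarith : 0 ≤ s)]
        nlinarith
      have e3 : |s ^ 2 * (x * Real.log x ^ 2)| ≤ 4 * s ^ 2 := by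
        rw [abs_mul, abs_of_nonneg (by positivity : 0 ≤ s ^ 2)]
        nlinarith [sq_nonneg s]
      calc _ ≤ |x * (1 / 4) - s * (Real.log x * x)| + |s ^ 2 * (x * Real.log x ^ 2)| := abs_sub _ _
        _ ≤ (|x * (1 / 4)| + |s * (Real.log x * x)|) + |s ^ 2 * (x * Real.log x ^ 2)| := by
            have := abs_sub (x * (1 / 4)) (s * (Real.log x * x))
            linarith
        _ ≤ _ := by linarith
    rw [h1, mul_assoc, abs_mul, abs_of_nonneg (Real.rpow_nonneg h.le _), mul_comm]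
    exact mul_le_mul_of_nonneg_right h3 (Real.rpow_nonneg h.le _)

/-- sign of the concavity functional -/
theorem Cs_bounds (hcont : Continuous phi) (hC2 : ContDiff ℝ 2 phi)
    (hneg : ∀ t : ℝ, phi (-t) = phi t)
    (hd : ∀ t : ℝ, HasDerivAt phi (-(∫ x in (-1 : ℝ)..1, w x * x * Real.sin (t * x)) / m0) t)
    (hint : ∀ s : ℝ, 1 < s → Integrable (fun t : ℝ => |phi t| ^ s))
    (h1 : ∀ t : ℝ, |phi t| ≤ 1)
    (h3 : ∀ t : ℝ, 3 ≤ t → |phi t| ≤ 3 / 20)
    (hpos : ∀ t : ℝ, 0 ≤ t → t ≤ 69 / 20 → 0 < phi t)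
    (hR3 : ∀ T : ℝ, 3 ≤ T → Rt T ≤ 754 / 10000)
    (hP : ∀ t : ℝ, 0 ≤ t → t ≤ 29 / 5 → phi t ≤ Real.exp (-(PP t)))
    (hPB : ∀ t : ℝ, 0 ≤ t → t ≤ 13 / 5 → Real.exp (-(PB t)) ≤ phi t)
    (hNP : ∀ s : ℝ, 2 ≤ s → ∫ t : ℝ, |phi t| ^ s ≤ √(2 * Real.pi / (s * (1 - cc))))
    (hDlo : ∀ t : ℝ, 0 ≤ t → t ≤ 3 → 748 / 100000 * t ^ 4 * (1 + t ^ 2 / 10) * phi t ≤
      t * ((∫ x in (-1 : ℝ)..1, w x * x * Real.sin (t * x)) / m0) + 2 * phi t * Real.log (phi t))
    (hDhi : ∀ t : ℝ, 0 ≤ t → t ≤ 83 / 100 →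
      t * ((∫ x in (-1 : ℝ)..1, w x * x * Real.sin (t * x)) / m0) + 2 * phi t * Real.log (phi t) ≤
        74802 / 10000000 * t ^ 4 * (1 + 12 / 100 * t ^ 2) * phi t)
    (hc1 : (0.708874905227206 : ℝ) ≤ cc) (hc2 : cc ≤ (0.708874905227208 : ℝ)) :
    (∀ s : ℝ, 49 / 10 ≤ s → 0 ≤ Cs s) ∧ (∀ s : ℝ, 6 ≤ s → 13 / 100 * Is s ≤ s * Cs s) := by
  -- preliminaries
  have hpi : ∀ t, 0 ≤ t → t ≤ 3 → 0 < phi t := fun t h0 h3' => hpos t h0 (by linarith)
  set Q : ℝ → ℝ := fun t => (∫ x in (-1 : ℝ)..1, w x * x * Real.sin (t * x)) / m0 with hQ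
  have hd' : ∀ t, HasDerivAt phi (-Q t) t := fun t => by
    have h5 := hd t
    rw [neg_div] at h5
    exact h5
  have hQc : Continuous Q := by
    have h5 : Continuous (deriv phi) := hC2.continuous_deriv (by norm_num)
    have h6 : Q = fun t => -deriv phi t := by
      funext t
      rw [(hd' t).deriv]; ring
    rw [h6]; exact h5.neg
  set l : ℝ → ℝ := fun t => -Real.log (phi t) with hl
  set D : ℝ → ℝ := fun t => (t * Q t + 2 * phi t * Real.log (phi t)) / phi t with hD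
  have hlogc : ContinuousOn (fun t => Real.log (phi t)) (Set.Icc 0 3) :=
    hcont.continuousOn.log fun t ht => (hpi t ht.1 ht.2).ne'
  have H : Cs_bounds_Hy l D := by
    refine ⟨hlogc.neg, ?_, ?_, ?_, ?_, ?_⟩
    · refine ContinuousOn.div ?_ hcont.continuousOn fun t ht => (hpi t ht.1 ht.2).ne'
      refine (continuous_id.mul hQc).continuousOn.add ?_
      exact ((continuous_const.mul hcont).continuousOn).mul hlogc
    · intro t h0 h3'
      have h5 := hP t h0 (by linarith)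
      rw [← Real.log_le_iff_le_exp (hpi t h0 h3')] at h5
      unfold PP at h5
      show 0.145562547386 * t ^ 2 + 0.00374 * t ^ 4 ≤ -Real.log (phi t)
      have h6 : 0.145562547386 * t ^ 2 ≤ (1 - cc) / 2 * t ^ 2 :=
        mul_le_mul_of_nonneg_right (by norm_num at hc2 ⊢; linarith) (by positivity)
      have h7 : 0 ≤ 188 / 1000000 * t ^ 6 := by positivity
      have h8 : 0 ≤ 113 / 10000000 * t ^ 8 := by positivity
      have h9 : 0 ≤ 737 / 1000000000 * t ^ 10 := by positivity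
      norm_num at h5 h6 ⊢
      linarith
    · intro t h0 h3'
      have h5 := hPB t h0 h3'
      rw [← Real.le_log_iff_exp_le (hpi t h0 (by linarith))] at h5
      unfold PB at h5
      show -Real.log (phi t) ≤ _
      have h6 : (1 - cc) / 2 * t ^ 2 ≤ 0.1455625473864 * t ^ 2 :=
        mul_le_mul_of_nonneg_right (by norm_num at hc1 ⊢; linarith) (by positivity)
      norm_num at h5 h6 ⊢
      linarith
    · intro t h0 h3'
      have h5 := hDlo t h0 h3'
      have hp := hpi t h0 h3'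
      show 748 / 100000 * t ^ 4 ≤ (t * Q t + 2 * phi t * Real.log (phi t)) / phi t
      rw [le_div_iff₀ hp]
      refine le_trans ?_ h5
      apply mul_le_mul_of_nonneg_right _ hp.le
      have h6 : 0 ≤ 748 / 100000 * t ^ 4 := by positivity
      have h7 : 0 ≤ t ^ 2 / 10 := by positivity
      nlinarith
    · intro t h0 h3'
      have h5 := hDhi t h0 h3'
      have hp := hpi t h0 (by linarith)
      show (t * Q t + 2 * phi t * Real.log (phi t)) / phi t ≤ _
      rw [div_le_iff₀ hp]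
      exact h5
  -- the main lower bound
  have hmain : ∀ s : ℝ, 49 / 10 ≤ s → (∫ t in (0 : ℝ)..3, Cs_bounds_gs l D s t) -
      2 * (s ^ 2 * ((3 / 20 : ℝ) ^ (s - 2) * Real.log (3 / 20) ^ 2)) * (754 / 10000) ≤ Cs s := by
    intro s hs
    have hs0 : 0 < s := by linarith
    set F : ℝ → ℝ := fun t => |phi t| ^ s *
      (1 / 4 - s * Real.log |phi t| - s ^ 2 * (Real.log |phi t|) ^ 2) with hF
    have hFm : Measurable F := by
      have m1 : Measurable fun t => |phi t| := hcont.measurable.abs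
      have m2 : Measurable fun t => Real.log |phi t| := m1.log
      exact (m1.pow_const s).mul ((measurable_const.sub (m2.const_mul s)).sub
        ((m2.pow_const 2).const_mul (s ^ 2)))
    have hFi : Integrable F := by
      refine ((hint (s - 1) (by linarith)).const_mul (1 / 4 + s + 4 * s ^ 2)).mono'
        hFm.aestronglyMeasurable (Filter.Eventually.of_forall fun t => ?_)
      exact Cs_bounds_ptw (by linarith) (abs_nonneg _) (h1 t)
    have hFe : ∀ t, F |t| = F t := by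
      intro t
      rcases abs_choice t with h | h
      · rw [h]
      · rw [h, hF]
        simp only [hneg]
    have e1 : Cs s = 2 * ∫ t in Set.Ioi (0 : ℝ), F t := by
      rw [← integral_comp_abs (f := F)]
      unfold Cs
      congr 1
      funext t
      rw [hFe]
    have e2 : ∫ t in Set.Ioi (0 : ℝ), F t = (∫ t in (0 : ℝ)..3, F t) + ∫ t in Set.Ioi (3 : ℝ), F t :=
      (intervalIntegral.integral_interval_add_Ioi hFi.integrableOn hFi.integrableOn).symm
    -- tail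
    have e3 : -(s ^ 2 * ((3 / 20 : ℝ) ^ (s - 2) * Real.log (3 / 20) ^ 2)) * (754 / 10000) ≤
        ∫ t in Set.Ioi (3 : ℝ), F t := by
      set κ := s ^ 2 * ((3 / 20 : ℝ) ^ (s - 2) * Real.log (3 / 20) ^ 2) with hκ
      have hκ0 : 0 ≤ κ := by positivity
      have i2 : Integrable (fun t => phi t ^ 2) := by
        have := hint 2 (by norm_num)
        refine this.congr (Filter.Eventually.of_forall fun t => ?_)
        simp only
        rw [Real.rpow_two, sq_abs]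
      have hle : ∀ t ∈ Set.Ioi (3 : ℝ), -κ * phi t ^ 2 ≤ F t := by
        intro t ht
        have ht3 : (3 : ℝ) < t := ht
        have hx := h3 t ht3.le
        rw [hF]
        simp only
        rw [← sq_abs (phi t)]
        have hxn := abs_nonneg (phi t)
        generalize |phi t| = x at hx hxn ⊢
        rcases eq_or_lt_of_le hxn with hx0 | hx0
        · rw [← hx0, Real.zero_rpow (by linarith)]
          simp
        · have hm := Cs_bounds_tail_mono (a := s - 2) (by linarith) hx0 hx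
          have hlx : Real.log x ≤ 0 := Real.log_nonpos hx0.le (by linarith)
          have hxs : x ^ s = x ^ 2 * x ^ (s - 2) := by
            rw [Real.rpow_sub hx0, Real.rpow_two]
            field_simp
          have hp1 : 0 < x ^ (s - 2) := Real.rpow_pos_of_pos hx0 _
          have hp2 : 0 < x ^ 2 := by positivity
          rw [hxs]
          have g1 : 0 ≤ x ^ 2 * x ^ (s - 2) * (1 / 4 - s * Real.log x) := by
            apply mul_nonneg (by positivity)
            nlinarith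
          have g2 : x ^ 2 * (s ^ 2 * (x ^ (s - 2) * Real.log x ^ 2)) ≤ x ^ 2 * κ := by
            apply mul_le_mul_of_nonneg_left _ hp2.le
            rw [hκ]
            exact mul_le_mul_of_nonneg_left hm (by positivity)
          have g3 : x ^ 2 * x ^ (s - 2) * (1 / 4 - s * Real.log x - s ^ 2 * Real.log x ^ 2) =
              x ^ 2 * x ^ (s - 2) * (1 / 4 - s * Real.log x) -
                x ^ 2 * (s ^ 2 * (x ^ (s - 2) * Real.log x ^ 2)) := by ring
          rw [g3]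
          linarith
      have h5 : ∫ t in Set.Ioi (3 : ℝ), -κ * phi t ^ 2 ≤ ∫ t in Set.Ioi (3 : ℝ), F t :=
        setIntegral_mono_on ((i2.const_mul _).integrableOn) hFi.integrableOn measurableSet_Ioi hle
      rw [integral_const_mul] at h5
      have h6 := hR3 3 le_rfl
      unfold Rt at h6
      have h7 := mul_le_mul_of_nonneg_left h6 hκ0
      linarith
    -- integration by parts
    have e4 : (1 / 2) * ∫ t in (0 : ℝ)..3, Cs_bounds_gs l D s t ≤ ∫ t in (0 : ℝ)..3, F t := by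
      set Φ : ℝ → ℝ := fun t => t * (phi t ^ s * (1 / 4 - s / 2 * Real.log (phi t))) with hΦ
      have hder : ∀ t ∈ Set.uIcc (0 : ℝ) 3, HasDerivAt Φ
          (F t - (1 / 2) * Cs_bounds_gs l D s t) t := by
        intro t ht
        rw [Set.uIcc_of_le (by norm_num)] at ht
        have hp := hpi t ht.1 ht.2
        have a1 : HasDerivAt (fun t => phi t ^ s) (-Q t * s * phi t ^ (s - 1)) t :=
          (hd' t).rpow_const (Or.inl hp.ne')
        have a2 : HasDerivAt (fun t => Real.log (phi t)) (-Q t / phi t) t := (hd' t).log hp.ne'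
        have a3 : HasDerivAt (fun t => 1 / 4 - s / 2 * Real.log (phi t))
            (-(s / 2 * (-Q t / phi t))) t := (a2.const_mul (s / 2)).const_sub (1 / 4)
        have a4 := (hasDerivAt_id t).mul (a1.mul a3)
        have a5 : HasDerivAt Φ _ t := a4
        refine a5.congr_deriv ?_
        have b1 : phi t ^ (s - 1) = phi t ^ s / phi t := Real.rpow_sub_one hp.ne' s
        have b2 : Real.exp (-(s * l t)) = phi t ^ s := by
          rw [Real.rpow_def_of_pos hp]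
          show Real.exp (-(s * -Real.log (phi t))) = _
          congr 1
          ring
        have b3 : F t = phi t ^ s * (1 / 4 - s * Real.log (phi t) -
            s ^ 2 * Real.log (phi t) ^ 2) := by
          rw [hF]
          simp only [abs_of_pos hp]
        have b4 : Cs_bounds_gs l D s t = s * (((t * Q t + 2 * phi t * Real.log (phi t)) / phi t) *
            ((s * -Real.log (phi t) - 1 / 2) * phi t ^ s)) := by
          rw [← b2]
          rfl
        rw [b3, b4, b1]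
        simp only [Pi.mul_apply, id_eq]
        generalize phi t ^ s = P
        generalize Real.log (phi t) = LL
        generalize Q t = q
        have hne := hp.ne'
        generalize phi t = f at hne ⊢
        field_simp
        ring
      have hgi := Cs_bounds_gs_int H s (le_refl (0 : ℝ)) (by norm_num : (0 : ℝ) ≤ 3) le_rfl
      have hFii : IntervalIntegrable F volume 0 3 := hFi.intervalIntegrable
      have h5 := intervalIntegral.integral_eq_sub_of_hasDerivAt hder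
        (hFii.sub (hgi.const_mul (1 / 2)))
      rw [intervalIntegral.integral_sub hFii (hgi.const_mul (1 / 2)),
        intervalIntegral.integral_const_mul] at h5
      have h6 : Φ 0 = 0 := by rw [hΦ]; simp
      have h7 : 0 ≤ Φ 3 := by
        rw [hΦ]
        simp only
        have hp := hpi 3 (by norm_num) le_rfl
        have hl3 : Real.log (phi 3) ≤ 0 := Real.log_nonpos hp.le ((le_abs_self _).trans (h1 3))
        have : 0 ≤ 1 / 4 - s / 2 * Real.log (phi 3) := by nlinarith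
        positivity
      linarith
    rw [e1, e2]
    linarith
  -- numerics
  obtain ⟨hy1, hy2⟩ := Cs_bounds_y0
  have hlog2 : Real.log (3 / 20) ^ 2 ≤ 3.5994 := by nlinarith
  have hT : ∀ s s0 T0 : ℝ, 49 / 10 ≤ s0 → s0 ≤ s →
      2 * (754 / 10000) * 3.5994 * (s0 ^ (7 / 2 : ℝ) * (3 / 20 : ℝ) ^ (s0 - 2)) ≤ T0 →
      2 * (s ^ 2 * ((3 / 20 : ℝ) ^ (s - 2) * Real.log (3 / 20) ^ 2)) * (754 / 10000) ≤
        (1 / Real.sqrt s) ^ 3 * T0 := by
    intro s s0 T0 hs0 hs hT0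
    have hspos : 0 < s := by linarith
    have hq : 0 < Real.sqrt s := Real.sqrt_pos.2 hspos
    have hqq : Real.sqrt s ^ 2 = s := Real.sq_sqrt hspos.le
    have h5 := Cs_bounds_T hs0 hs
    have h6 : s ^ (7 / 2 : ℝ) = s ^ 2 * Real.sqrt s ^ 3 := by
      have e1 : (7 / 2 : ℝ) = 2 + 3 * (1 / 2) := by norm_num
      rw [e1, Real.rpow_add hspos, Real.rpow_two, Real.rpow_mul hspos.le, Real.sqrt_eq_rpow,
        ← Real.rpow_natCast (s ^ (1 / 2 : ℝ)) 3, ← Real.rpow_mul hspos.le,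
        ← Real.rpow_mul hspos.le]
      norm_num
    have h7 : 0 < (3 / 20 : ℝ) ^ (s - 2) := by positivity
    rw [div_pow, one_pow, div_mul_eq_mul_div, one_mul, le_div_iff₀ (by positivity)]
    calc 2 * (s ^ 2 * ((3 / 20 : ℝ) ^ (s - 2) * Real.log (3 / 20) ^ 2)) * (754 / 10000) *
          Real.sqrt s ^ 3
        = 2 * (754 / 10000) * Real.log (3 / 20) ^ 2 * ((s ^ 2 * Real.sqrt s ^ 3) *
          (3 / 20 : ℝ) ^ (s - 2)) := by ring
      _ ≤ 2 * (754 / 10000) * 3.5994 * ((s ^ 2 * Real.sqrt s ^ 3) *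
          (3 / 20 : ℝ) ^ (s - 2)) := by
          apply mul_le_mul_of_nonneg_right _ (by positivity)
          exact mul_le_mul_of_nonneg_left hlog2 (by norm_num)
      _ ≤ 2 * (754 / 10000) * 3.5994 * (s0 ^ (7 / 2 : ℝ) * (3 / 20 : ℝ) ^ (s0 - 2)) := by
          apply mul_le_mul_of_nonneg_left _ (by norm_num)
          rw [← h6]; exact h5
      _ ≤ T0 := hT0
  have hr : ∀ s : ℝ, 49 / 10 ≤ s → 0 < 1 / Real.sqrt s ∧ (1 / Real.sqrt s) ^ 2 * s = 1 := by
    intro s hs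
    have hspos : 0 < s := by linarith
    have hq : 0 < Real.sqrt s := Real.sqrt_pos.2 hspos
    have hqq : Real.sqrt s ^ 2 = s := Real.sq_sqrt hspos.le
    refine ⟨by positivity, ?_⟩
    rw [div_pow, hqq]
    field_simp
  refine ⟨fun s hs => ?_, fun s hs => ?_⟩
  · have h5 := hmain s hs
    obtain ⟨hr1, hr2⟩ := hr s hs
    have h6 := Cs_bounds_N49 H hs hr1 hr2
    rw [zero_mul] at h6
    have h7 := hT s (49 / 10) 0.58 le_rfl hs (by
      have e1 : (49 / 10 : ℝ) ^ (7 / 2 : ℝ) ≤ 260.5 := by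
        have e2 : ((49 / 10 : ℝ) ^ (7 / 2 : ℝ)) ^ 2 ≤ 260.5 ^ 2 := by
          rw [← Real.rpow_natCast, ← Real.rpow_mul (by norm_num)]
          norm_num
        exact le_of_sq_le_sq e2 (by norm_num)
      have e3 : (3 / 20 : ℝ) ^ (49 / 10 - 2 : ℝ) ≤ 0.00409 := by
        have e4 : ((3 / 20 : ℝ) ^ (49 / 10 - 2 : ℝ)) ^ 10 ≤ 0.00409 ^ 10 := by
          rw [← Real.rpow_natCast, ← Real.rpow_mul (by norm_num)]
          norm_num
        exact le_of_pow_le_pow_left₀ (by norm_num) (by norm_num) e4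
      have e5 := mul_le_mul e1 e3 (by positivity) (by norm_num)
      norm_num at e5 ⊢
      linarith)
    have hr3 : 0 < (1 / Real.sqrt s) ^ 3 := by positivity
    linarith
  · have h5 := hmain s (by linarith)
    obtain ⟨hr1, hr2⟩ := hr s (by linarith)
    have h6 := Cs_bounds_N6 H hs hr1 hr2
    rw [zero_mul] at h6
    have h7 := hT s 6 0.1456 (by norm_num) hs (by
      have e1 : (6 : ℝ) ^ (7 / 2 : ℝ) ≤ 529.1 := by
        have e2 : ((6 : ℝ) ^ (7 / 2 : ℝ)) ^ 2 ≤ 529.1 ^ 2 := by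
          rw [← Real.rpow_natCast, ← Real.rpow_mul (by norm_num)]
          norm_num
        exact le_of_sq_le_sq e2 (by norm_num)
      have e3 : (3 / 20 : ℝ) ^ (6 - 2 : ℝ) = 0.00050625 := by
        have : (6 - 2 : ℝ) = ((4 : ℕ) : ℝ) := by norm_num
        rw [this, Real.rpow_natCast]
        norm_num
      rw [e3]
      nlinarith)
    have hspos : 0 < s := by linarith
    set R := 1 / Real.sqrt s with hR
    have hRs : s * R ^ 3 = R := by
      calc s * R ^ 3 = (R ^ 2 * s) * R := by ring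
        _ = R := by rw [hr2, one_mul]
    have hCs : R ^ 3 * 0.6139947 ≤ Cs s := by linarith
    have h8 : R * 0.6139947 ≤ s * Cs s := by
      calc R * 0.6139947 = s * (R ^ 3 * 0.6139947) := by
            rw [← mul_assoc, hRs]
        _ ≤ s * Cs s := mul_le_mul_of_nonneg_left hCs hspos.le
    have h9 : Is s ≤ 4.6458 * R := by
      refine (hNP s (by linarith)).trans ?_
      rw [Real.sqrt_le_left (by positivity)]
      have hcc : 0.29112509477 ≤ 1 - cc := by norm_num at hc2 ⊢; linarith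
      rw [div_le_iff₀ (by positivity)]
      have e1 : (4.6458 * R) ^ 2 * (s * (1 - cc)) = 4.6458 ^ 2 * (R ^ 2 * s) * (1 - cc) := by ring
      rw [e1, hr2]
      have := Real.pi_lt_d4
      norm_num at hcc ⊢
      linarith
    linarith


end
end CG3
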