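import Pool.Agent.CG3.Assem4
import Pool.Agent.CG3.J17

open MeasureTheory ProbabilityTheory
open scoped BigOperators

namespace CG3
noncomputable section

theorem fCs : (∀ s : ℝ, 49 / 10 ≤ s → 0 ≤ Cs s) ∧ (∀ s : ℝ, 6 ≤ s → 13 / 100 * Is s ≤ s * Cs s) :=
  Cs_bounds phi_cont phi_contDiff phi_neg phi_deriv phi_rpow_integrable phi_abs_le_one f3 fpos
    fR.1 fP fPB fNP fD1.1 fD1.2.1 cc_lo cc_hi

/-- `γ₁([-1,1])` -/
def pG : ℝ := m0 / √(2 * Real.pi)

theorem pG_pos : 0 < pG := div_pos m0_pos (Real.sqrt_pos.mpr (by positivity))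

theorem phi_abs (t : ℝ) : phi |t| = phi t := by
  rcases abs_choice t with h | h
  · rw [h]
  · rw [h, phi_neg]

theorem prod_abs {n : ℕ} (θ : Fin n → ℝ) (ξ : ℝ) :
    ∏ k, phi (θ k * ξ) = ∏ k, phi (|θ k| * ξ) := by
  refine Finset.prod_congr rfl (fun k _ => ?_)
  rcases abs_choice (θ k) with h | h
  · rw [h]
  · rw [h, neg_mul, phi_neg]

theorem norm_sq_sum {n : ℕ} (θ : EuclideanSpace ℝ (Fin n)) (hθ : ‖θ‖ = 1) :
    ∑ k, θ k ^ 2 = 1 := by
  rw [← EuclideanSpace.real_norm_sq_eq, hθ]; norm_num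

/-- section formula without integrability assumption -/
theorem secG_eq {n : ℕ} (θ : EuclideanSpace ℝ (Fin n)) (hθ : ‖θ‖ = 1) (h2 : ∀ i, |θ i| < 1) :
    secG θ = pG ^ n / √(2 * Real.pi) * ∫ ξ : ℝ, ∏ i, phi (|θ i| * ξ) := by
  have hs := norm_sq_sum θ hθ
  have hs' : ∑ k, |θ k| ^ 2 = 1 := by simpa [sq_abs] using hs
  obtain ⟨i, j, hij, hj, hji, hk⟩ := exists_top_two (fun k => |θ k|) (fun k => abs_nonneg _) hs' h2
  have hint := prod_int (fun k => |θ k|) i j hij (lt_of_lt_of_le hj hji) hj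
  have hint' : Integrable (fun ξ : ℝ => ∏ i, phi (θ i * ξ)) := by
    refine hint.congr (Filter.Eventually.of_forall (fun ξ => ?_))
    exact (prod_abs (fun k => θ k) ξ).symm
  rw [sec_formula θ hθ h2 hint']
  unfold pG
  congr 1
  exact integral_congr_ae (Filter.Eventually.of_forall (fun ξ => prod_abs (fun k => θ k) ξ))

/-- all sections are at most `pG^n/√(2π)` times an upper bound of the integrals -/
theorem secG_le {n : ℕ} (hn : 1 ≤ n) (C : ℝ) (hC : √(2 * Real.pi) ≤ pG * C)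
    (hF : ∀ θ : Fin n → ℝ, (∀ k, 0 ≤ θ k) → ∑ k, θ k ^ 2 = 1 → (∀ k, θ k < 1) →
      ∫ ξ : ℝ, ∏ k, phi (θ k * ξ) ≤ C)
    (θ : EuclideanSpace ℝ (Fin n)) (hθ : ‖θ‖ = 1) :
    secG θ ≤ pG ^ n / √(2 * Real.pi) * C := by
  have hs := norm_sq_sum θ hθ
  have hs' : ∑ k, |θ k| ^ 2 = 1 := by simpa [sq_abs] using hs
  have hp := pG_pos
  have hpi : 0 < √(2 * Real.pi) := Real.sqrt_pos.mpr (by positivity)
  by_cases h2 : ∀ i, |θ i| < 1
  · rw [secG_eq θ hθ h2]
    exact mul_le_mul_of_nonneg_left (hF (fun k => |θ k|) (fun k => abs_nonneg _) hs' h2)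
      (by positivity)
  · push Not at h2
    obtain ⟨i, hi⟩ := h2
    have hi1 : |θ i| = 1 := by
      refine le_antisymm ?_ hi
      have h3 : |θ i| ^ 2 ≤ 1 := by
        rw [← hs']
        exact Finset.single_le_sum (f := fun k => |θ k| ^ 2) (fun k _ => sq_nonneg _)
          (Finset.mem_univ i)
      nlinarith [abs_nonneg (θ i)]
    rw [sec_coord θ hθ i hi1]
    change pG ^ (n - 1) ≤ _
    obtain ⟨m, rfl⟩ : ∃ m, n = m + 1 := ⟨n - 1, by omega⟩
    simp only [Nat.add_sub_cancel]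
    rw [pow_succ, mul_div_assoc, mul_assoc]
    refine le_mul_of_one_le_right (by positivity) ?_
    rw [div_mul_eq_mul_div, le_div_iff₀ hpi]
    linarith

theorem sqrt_two_pi_lt : √(2 * Real.pi) ≤ 251 / 100 := by
  rw [Real.sqrt_le_left (by norm_num)]
  have := Real.pi_lt_d6
  norm_num at this ⊢
  linarith

theorem pG_ge : (68 / 100 : ℝ) ≤ pG := by
  unfold pG
  have h := sqrt_two_pi_lt
  have hpi : 0 < √(2 * Real.pi) := Real.sqrt_pos.mpr (by positivity)
  rw [le_div_iff₀ hpi]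
  have := m0_lo
  nlinarith

theorem hC_of (C : ℝ) (hC : (453228 / 100000 : ℝ) ≤ C) : √(2 * Real.pi) ≤ pG * C := by
  have h1 := sqrt_two_pi_lt
  have h2 := pG_ge
  nlinarith

/-- the direction `(1,…,1)/√n` -/
def mainDiag (n : ℕ) : EuclideanSpace ℝ (Fin n) := WithLp.toLp 2 (fun _ => 1 / √n)

theorem mainDiag_apply (n : ℕ) (i : Fin n) : mainDiag n i = 1 / √n := rfl

theorem mainDiag_norm (n : ℕ) (hn : 1 ≤ n) : ‖mainDiag n‖ = 1 := by
  have hn0 : (0 : ℝ) < n := by exact_mod_cast hn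
  rw [EuclideanSpace.norm_eq]
  simp only [mainDiag_apply, Real.norm_eq_abs, sq_abs]
  rw [Finset.sum_const, Finset.card_univ, Fintype.card_fin, nsmul_eq_mul, div_pow,
    Real.sq_sqrt hn0.le]
  rw [show (n : ℝ) * (1 ^ 2 / n) = 1 by field_simp]
  exact Real.sqrt_one

theorem mainDiag_lt (n : ℕ) (hn : 2 ≤ n) (i : Fin n) : |mainDiag n i| < 1 := by
  have hn1 : (1 : ℝ) < √n := by
    rw [Real.lt_sqrt (by norm_num)]
    have : (2 : ℝ) ≤ n := by exact_mod_cast hn
    linarith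
  rw [mainDiag_apply, abs_of_nonneg (by positivity), div_lt_one (by linarith)]
  exact hn1

theorem secG_mainDiag (n : ℕ) (hn : 2 ≤ n) :
    secG (mainDiag n) = pG ^ n / √(2 * Real.pi) * ∫ ξ : ℝ, phi (ξ / √n) ^ n := by
  rw [secG_eq _ (mainDiag_norm n (by omega)) (mainDiag_lt n hn)]
  congr 1
  refine integral_congr_ae (Filter.Eventually.of_forall (fun ξ => ?_))
  change ∏ i, phi (|mainDiag n i| * ξ) = phi (ξ / √n) ^ n
  simp only [mainDiag_apply]
  rw [Finset.prod_const, Finset.card_univ, Fintype.card_fin, abs_of_nonneg (by positivity)]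
  congr 2
  ring

/-- the direction `(1,1,0,…,0)/√2` -/
def twoDiag (n : ℕ) : EuclideanSpace ℝ (Fin n) :=
  WithLp.toLp 2 (fun i => if (i : ℕ) < 2 then 1 / √2 else 0)

theorem twoDiag_apply (n : ℕ) (i : Fin n) : twoDiag n i = if (i : ℕ) < 2 then 1 / √2 else 0 := rfl

theorem card_lt_two (n : ℕ) (hn : 2 ≤ n) :
    (Finset.univ.filter (fun i : Fin n => (i : ℕ) < 2)).card = 2 := by
  obtain ⟨m, rfl⟩ : ∃ m, n = m + 2 := ⟨n - 2, by omega⟩
  have : (Finset.univ.filter (fun i : Fin (m + 2) => (i : ℕ) < 2)) = {0, 1} := by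
    ext i
    simp only [Finset.mem_filter, Finset.mem_univ, true_and, Finset.mem_insert,
      Finset.mem_singleton, Fin.ext_iff]
    constructor
    · intro h
      have h0 : ((0 : Fin (m + 2)) : ℕ) = 0 := rfl
      have h1 : ((1 : Fin (m + 2)) : ℕ) = 1 := by simp [Fin.val_one]
      omega
    · intro h
      have h0 : ((0 : Fin (m + 2)) : ℕ) = 0 := rfl
      have h1 : ((1 : Fin (m + 2)) : ℕ) = 1 := by simp [Fin.val_one]
      omega
  rw [this]
  rw [Finset.card_pair]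
  intro h
  have := congrArg Fin.val h
  simp at this

theorem twoDiag_norm (n : ℕ) (hn : 2 ≤ n) : ‖twoDiag n‖ = 1 := by
  rw [EuclideanSpace.norm_eq]
  have h : ∑ i, ‖twoDiag n i‖ ^ 2 = 1 := by
    have e : ∀ i, ‖twoDiag n i‖ ^ 2 = if (i : ℕ) < 2 then 1 / 2 else 0 := by
      intro i
      rw [twoDiag_apply]
      split_ifs
      · rw [Real.norm_eq_abs, sq_abs, div_pow, Real.sq_sqrt (by norm_num)]; norm_num
      · simp
    simp only [e]
    rw [← Finset.sum_filter, Finset.sum_const, card_lt_two n hn]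
    norm_num
  rw [h, Real.sqrt_one]

theorem twoDiag_lt (n : ℕ) (i : Fin n) : |twoDiag n i| < 1 := by
  rw [twoDiag_apply]
  split_ifs
  · have hn1 : (1 : ℝ) < √2 := by
      rw [Real.lt_sqrt (by norm_num)]; norm_num
    rw [abs_of_nonneg (by positivity), div_lt_one (by linarith)]
    exact hn1
  · simp

theorem secG_twoDiag (n : ℕ) (hn : 2 ≤ n) :
    secG (twoDiag n) = pG ^ n / √(2 * Real.pi) * F2 := by
  rw [secG_eq _ (twoDiag_norm n hn) (twoDiag_lt n)]
  congr 1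
  have e : ∀ ξ : ℝ, ∏ i, phi (|twoDiag n i| * ξ) = phi (ξ / √2) ^ 2 := by
    intro ξ
    have e1 : ∀ i, phi (|twoDiag n i| * ξ) = if (i : ℕ) < 2 then phi (ξ / √2) else 1 := by
      intro i
      rw [twoDiag_apply]
      split_ifs
      · rw [abs_of_nonneg (by positivity)]
        congr 1; ring
      · simp [phi_zero]
    simp only [e1]
    rw [← Finset.prod_filter, Finset.prod_const, card_lt_two n hn]
  simp only [e]
  have hs2 : 0 < √(2 : ℝ) := by positivity
  rw [MeasureTheory.Measure.integral_comp_div (fun t => phi t ^ 2) (√2), abs_of_pos hs2,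
    smul_eq_mul, int_phi_sq]
  rfl

end
end CG3
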