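import Pool.Agent.CG3.Base2

open MeasureTheory ProbabilityTheory
open scoped BigOperators

namespace CG3
noncomputable section

/-- the polynomial in the hypothesis `hG` -/
def QQ235 (s : ℝ) : ℝ := 1 - 1964 / 10000 * s - 1231 / 10000 * s ^ 2 - 304 / 10000 * s ^ 3
  + 12 / 1000 * s ^ 4 + 345 / 10000 * s ^ 6

/-- cubic majorant -/
def gg235 (s : ℝ) : ℝ := 1 - 1964 / 10000 * s - 1185 / 10000 * s ^ 2 - 304 / 10000 * s ^ 3

theorem QQ235_le (s : ℝ) (h0 : 0 ≤ s) (h : s ^ 2 ≤ 23 / 100) :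
    0 ≤ QQ235 s ∧ QQ235 s ≤ gg235 s := by
  have h1 : s ≤ 1 / 2 := by nlinarith
  have h2 : s ^ 3 ≤ 23 / 200 := by
    have : s ^ 3 = s ^ 2 * s := by ring
    rw [this]
    nlinarith [sq_nonneg s]
  have h4 : s ^ 4 ≤ (23 / 100) ^ 2 := by
    have : s ^ 4 = (s ^ 2) ^ 2 := by ring
    rw [this]
    exact pow_le_pow_left₀ (sq_nonneg s) h 2
  have h4' : 0 ≤ s ^ 4 := by positivity
  have h6' : 0 ≤ s ^ 6 := by positivity
  constructor
  · unfold QQ235
    linarith
  · have h5 : 0 ≤ s ^ 2 * (46 / 10000 - 12 / 1000 * s ^ 2 - 345 / 10000 * s ^ 4) := by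
      apply mul_nonneg (sq_nonneg s)
      nlinarith
    unfold QQ235 gg235
    nlinarith

theorem gg235_amgm (sx sy P : ℝ) (hsx : 0 < sx) (hsy : 0 < sy) (hP : 0 < P)
    (h : sx * sy = P ^ 2) : gg235 sx + gg235 sy ≤ 2 * gg235 P := by
  have h1 : 2 * P ≤ sx + sy := by
    by_contra hc
    push Not at hc
    nlinarith [sq_nonneg (sx - sy)]
  have h2 : 2 * P ^ 2 ≤ sx ^ 2 + sy ^ 2 := by nlinarith [sq_nonneg (sx - sy)]
  have h3 : 2 * P ^ 3 ≤ sx ^ 3 + sy ^ 3 := by
    have e1 : sx ^ 3 + sy ^ 3 = (sx + sy) * (sx ^ 2 + sy ^ 2 - sx * sy) := by ring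
    have e2 : P ^ 2 ≤ sx ^ 2 + sy ^ 2 - sx * sy := by rw [h]; linarith
    have e3 : 2 * P * P ^ 2 ≤ (sx + sy) * (sx ^ 2 + sy ^ 2 - sx * sy) :=
      mul_le_mul h1 e2 (sq_nonneg P) (by linarith)
    rw [e1]
    calc 2 * P ^ 3 = 2 * P * P ^ 2 := by ring
      _ ≤ _ := e3
  unfold gg235
  linarith

theorem gg235_anti (P1 P : ℝ) (h1 : 0 ≤ P1) (h : P1 ≤ P) : gg235 P ≤ gg235 P1 := by
  have h2 : P1 ^ 2 ≤ P ^ 2 := pow_le_pow_left₀ h1 h 2
  have h3 : P1 ^ 3 ≤ P ^ 3 := pow_le_pow_left₀ h1 h 3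
  unfold gg235
  linarith

theorem one_side235 (K0 x c Gx : ℝ) (hx : 0 < x) (hc : 0 < c)
    (hGx : Gx ≤ K0 * (1 / √(1 + (c / x) / 2)) * QQ235 (√(c / (x + c / 2)))) :
    1 / √x * Gx ≤ K0 * QQ235 (√(c / (x + c / 2))) / √(x + c / 2) := by
  have ha : 0 < x + c / 2 := by linarith
  have h1 : √(1 + (c / x) / 2) = √(x + c / 2) / √x := by
    rw [← Real.sqrt_div ha.le]
    congr 1
    field_simp
  have hsx : 0 < √x := Real.sqrt_pos.2 hx
  have hsa : 0 < √(x + c / 2) := Real.sqrt_pos.2 ha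
  rw [h1] at hGx
  calc 1 / √x * Gx ≤ 1 / √x * (K0 * (1 / (√(x + c / 2) / √x)) *
        QQ235 (√(c / (x + c / 2)))) := by
        apply mul_le_mul_of_nonneg_left hGx (by positivity)
    _ = _ := by field_simp

theorem A_le235 (K0 x y c Gx Gy : ℝ) (hK : 0 < K0) (hx : 0 < x) (hy : 0 < y) (hc : 0 < c)
    (hGx0 : 0 ≤ Gx) (hGy0 : 0 ≤ Gy)
    (hGx : Gx ≤ K0 * (1 / √(1 + (c / x) / 2)) * QQ235 (√(c / (x + c / 2))))
    (hGy : Gy ≤ K0 * (1 / √(1 + (c / y) / 2)) * QQ235 (√(c / (y + c / 2))))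
    (hsx : c / (x + c / 2) ≤ 23 / 100) (hsy : c / (y + c / 2) ≤ 23 / 100) :
    ∃ P r : ℝ, 0 < P ∧ 0 < r ∧ r ^ 4 = (x + c / 2) * (y + c / 2) ∧ P ^ 2 * r ^ 2 = c ∧
      √((1 / √x * Gx) * (1 / √y * Gy)) ≤ K0 * gg235 P / r := by
  have hX := one_side235 K0 x c Gx hx hc hGx
  have hY := one_side235 K0 y c Gy hy hc hGy
  obtain ⟨a, ha⟩ : ∃ a, a = x + c / 2 := ⟨_, rfl⟩
  obtain ⟨b, hb⟩ : ∃ b, b = y + c / 2 := ⟨_, rfl⟩
  rw [← ha] at hX hsx ⊢
  rw [← hb] at hY hsy ⊢
  have ha0 : 0 < a := by rw [ha]; linarith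
  have hb0 : 0 < b := by rw [hb]; linarith
  have hsa : 0 < √a := Real.sqrt_pos.2 ha0
  have hsb : 0 < √b := Real.sqrt_pos.2 hb0
  have hsc : 0 < √c := Real.sqrt_pos.2 hc
  have hab : 0 < √a * √b := mul_pos hsa hsb
  have hr : 0 < √(√a * √b) := Real.sqrt_pos.2 hab
  have hr2 : √(√a * √b) ^ 2 = √a * √b := Real.sq_sqrt hab.le
  have e1 : √(c / a) = √c / √a := Real.sqrt_div hc.le a
  have e2 : √(c / b) = √c / √b := Real.sqrt_div hc.le b
  have hqx := QQ235_le (√(c / a)) (Real.sqrt_nonneg _) (by rw [Real.sq_sqrt (by positivity)]; exact hsx)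
  have hqy := QQ235_le (√(c / b)) (Real.sqrt_nonneg _) (by rw [Real.sq_sqrt (by positivity)]; exact hsy)
  refine ⟨√c / √(√a * √b), √(√a * √b), by positivity, hr, ?_, ?_, ?_⟩
  · have : √(√a * √b) ^ 4 = (√(√a * √b) ^ 2) ^ 2 := by ring
    rw [this, hr2, mul_pow, Real.sq_sqrt ha0.le, Real.sq_sqrt hb0.le]
  · rw [div_pow, Real.sq_sqrt hc.le]
    field_simp
  · have hmul : √(c / a) * √(c / b) = (√c / √(√a * √b)) ^ 2 := by
      rw [e1, e2, div_pow, hr2, div_mul_div_comm, sq]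
    have ham := gg235_amgm (√(c / a)) (√(c / b)) (√c / √(√a * √b)) (by rw [e1]; positivity)
      (by rw [e2]; positivity) (by positivity) hmul
    generalize √c / √(√a * √b) = P at ham ⊢
    generalize √(√a * √b) = r at hr hr2 ⊢
    generalize QQ235 (√(c / a)) = qx at hX hqx
    generalize QQ235 (√(c / b)) = qy at hY hqy
    generalize gg235 (√(c / a)) = gx at hqx ham
    generalize gg235 (√(c / b)) = gy at hqy ham
    have hXn : 0 ≤ 1 / √x * Gx := by positivity
    have hYn : 0 ≤ 1 / √y * Gy := by positivity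
    have h1 : (1 / √x * Gx) * (1 / √y * Gy) ≤ (K0 * qx / √a) * (K0 * qy / √b) :=
      mul_le_mul hX hY hYn (hXn.trans hX)
    have h2 : (K0 * qx / √a) * (K0 * qy / √b) = K0 ^ 2 * (qx * qy) / r ^ 2 := by
      rw [hr2]
      field_simp
    have h3 : K0 ^ 2 * (qx * qy) / r ^ 2 ≤ (K0 * ((qx + qy) / 2) / r) ^ 2 := by
      rw [div_pow]
      apply div_le_div_of_nonneg_right _ (by positivity)
      have : qx * qy ≤ ((qx + qy) / 2) ^ 2 := by nlinarith [sq_nonneg (qx - qy)]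
      calc K0 ^ 2 * (qx * qy) ≤ K0 ^ 2 * ((qx + qy) / 2) ^ 2 := by gcongr
        _ = _ := by ring
    have h4 : 0 ≤ K0 * ((qx + qy) / 2) / r := by
      have := hqx.1
      have := hqy.1
      positivity
    calc √((1 / √x * Gx) * (1 / √y * Gy)) ≤ √((K0 * ((qx + qy) / 2) / r) ^ 2) :=
          Real.sqrt_le_sqrt (h1.trans (h2.le.trans h3))
      _ = K0 * ((qx + qy) / 2) / r := Real.sqrt_sq h4
      _ ≤ K0 * gg235 P / r := by
        apply div_le_div_of_nonneg_right _ hr.le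
        apply mul_le_mul_of_nonneg_left _ hK.le
        linarith [hqx.2, hqy.2]

/-- final combination -/
theorem fin235 (K0 F P r t ρ P1 : ℝ) (hK : 0 < K0) (hS : 45322 / 10000 ≤ √2 * K0) (hr : 0 < r)
    (hF : F ≤ K0 * gg235 P / r + t) (hρ : 0 < ρ) (h1 : 1 ≤ 4 * ρ ^ 4 * r ^ 4) (hP1 : 0 ≤ P1)
    (hP : P1 ≤ P) (hg : 0 ≤ gg235 P1) (hg2 : ρ * gg235 P1 ≤ 1)
    (ht : t ≤ 45322 / 10000 * (1 - ρ * gg235 P1)) : F ≤ √2 * K0 := by
  have h2 : √2 ^ 2 = 2 := Real.sq_sqrt (by norm_num)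
  have h2p : 0 < √2 := by positivity
  have h3 : 1 ≤ √2 * ρ * r := by
    have h4 : 1 ≤ (√2 * ρ * r) ^ 4 := by
      calc (1 : ℝ) ≤ 4 * ρ ^ 4 * r ^ 4 := h1
        _ = (√2 ^ 2) ^ 2 * ρ ^ 4 * r ^ 4 := by rw [h2]; ring
        _ = _ := by ring
    by_contra hc
    push Not at hc
    have h5 : (√2 * ρ * r) ^ 4 < 1 := pow_lt_one₀ (by positivity) hc (by norm_num)
    linarith
  have h4 : 1 / r ≤ √2 * ρ := by
    rw [div_le_iff₀ hr]
    exact h3
  have h5 : K0 * gg235 P / r ≤ √2 * K0 * (ρ * gg235 P1) := by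
    calc K0 * gg235 P / r ≤ K0 * gg235 P1 / r := by
          apply div_le_div_of_nonneg_right _ hr.le
          exact mul_le_mul_of_nonneg_left (gg235_anti P1 P hP1 hP) hK.le
      _ = K0 * gg235 P1 * (1 / r) := by ring
      _ ≤ K0 * gg235 P1 * (√2 * ρ) := by
          apply mul_le_mul_of_nonneg_left h4 (by positivity)
      _ = _ := by ring
  have h6 : 45322 / 10000 * (1 - ρ * gg235 P1) ≤ √2 * K0 * (1 - ρ * gg235 P1) :=
    mul_le_mul_of_nonneg_right hS (by linarith)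
  nlinarith

theorem tail235 (x y ξ R A B : ℝ) (hx : 0 < x) (hy : 0 < y) (hA0 : 0 ≤ A) (hB0 : 0 ≤ B)
    (hA : A ≤ R) (hB : B ≤ R) (hξ : 0 ≤ ξ) (h : 1 ≤ ξ ^ 4 * (x * y)) :
    (3 / 20 : ℝ) * (2 / √(√x * √y)) * √(A * B) ≤ 3 / 10 * ξ * R := by
  have hR : 0 ≤ R := hA0.trans hA
  have hsx : 0 < √x := Real.sqrt_pos.2 hx
  have hsy : 0 < √y := Real.sqrt_pos.2 hy
  have hw : 0 < √(√x * √y) := Real.sqrt_pos.2 (mul_pos hsx hsy)
  have hw2 : √(√x * √y) ^ 2 = √x * √y := Real.sq_sqrt (mul_pos hsx hsy).le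
  have h1 : 1 ≤ ξ * √(√x * √y) := by
    have h4 : 1 ≤ (ξ * √(√x * √y)) ^ 4 := by
      calc (1 : ℝ) ≤ ξ ^ 4 * (x * y) := h
        _ = ξ ^ 4 * (√x ^ 2 * √y ^ 2) := by rw [Real.sq_sqrt hx.le, Real.sq_sqrt hy.le]
        _ = ξ ^ 4 * (√(√x * √y) ^ 2) ^ 2 := by rw [hw2]; ring
        _ = _ := by ring
    by_contra hc
    push Not at hc
    have h5 : (ξ * √(√x * √y)) ^ 4 < 1 := pow_lt_one₀ (by positivity) hc (by norm_num)
    linarith
  have h2 : 2 / √(√x * √y) ≤ 2 * ξ := by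
    rw [div_le_iff₀ hw]
    linarith
  have h3 : √(A * B) ≤ R := by
    rw [Real.sqrt_le_iff]
    refine ⟨hR, ?_⟩
    rw [sq]
    exact mul_le_mul hA hB hB0 hR
  calc (3 / 20 : ℝ) * (2 / √(√x * √y)) * √(A * B) ≤ 3 / 20 * (2 * ξ) * R := by
        apply mul_le_mul _ h3 (Real.sqrt_nonneg _) (by positivity)
        apply mul_le_mul_of_nonneg_left h2 (by norm_num)
    _ = _ := by ring

theorem T_le235 (T0 x v : ℝ) (hT0 : 0 ≤ T0) (hv : 0 < v)
    (h : T0 ^ 2 * v ≤ (181 / 50) ^ 2 * x) : T0 ≤ 181 / 50 * √x / √v := by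
  have hsv : 0 < √v := Real.sqrt_pos.2 hv
  rw [le_div_iff₀ hsv]
  have h1 : T0 * √v = √(T0 ^ 2 * v) := by
    rw [Real.sqrt_mul (sq_nonneg _), Real.sqrt_sq hT0]
  have h2 : 181 / 50 * √x = √((181 / 50) ^ 2 * x) := by
    rw [Real.sqrt_mul (sq_nonneg _), Real.sqrt_sq (by norm_num)]
  rw [h1, h2]
  exact Real.sqrt_le_sqrt h

/-- lower bound for `P` -/
theorem P_ge235 (cc' x y v c P r : ℝ) (hc : c = (1 - cc') * v) (hxy : x + y + v = 1)
    (hx : 0 < x) (hy : 0 < y) (hc0 : 0 < c) (hr : 0 < r)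
    (hr4 : r ^ 4 = (x + c / 2) * (y + c / 2)) (hP : P ^ 2 * r ^ 2 = c) :
    2 * (1 - cc') * v ≤ P ^ 2 * (1 - cc' * v) := by
  have hS : (x + c / 2) + (y + c / 2) = 1 - cc' * v := by rw [hc]; linarith
  have h1 : r ^ 2 ≤ (1 - cc' * v) / 2 := by
    rw [← hS]
    have h2 : (r ^ 2) ^ 2 ≤ (((x + c / 2) + (y + c / 2)) / 2) ^ 2 := by
      have : (r ^ 2) ^ 2 = r ^ 4 := by ring
      rw [this, hr4]
      nlinarith [sq_nonneg ((x + c / 2) - (y + c / 2))]
    exact (abs_le_of_sq_le_sq' h2 (by positivity)).2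
  have h3 : P ^ 2 * r ^ 2 ≤ P ^ 2 * ((1 - cc' * v) / 2) :=
    mul_le_mul_of_nonneg_left h1 (sq_nonneg P)
  rw [hP, hc] at h3
  linarith

theorem rr235 (cc' x y v c r : ℝ) (hc : c = (1 - cc') * v) (hxy : x + y + v = 1)
    (hr4 : r ^ 4 = (x + c / 2) * (y + c / 2)) :
    4 * r ^ 4 = (1 - cc' * v) ^ 2 - (x - y) ^ 2 := by
  have hS : (x + c / 2) + (y + c / 2) = 1 - cc' * v := by rw [hc]; linarith
  rw [hr4, ← hS]
  ring

/-- one cell -/
theorem cell235 (K0 F x y v c cc' P r A B : ℝ) (hK : 0 < K0) (hS : 45322 / 10000 ≤ √2 * K0)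
    (hr : 0 < r) (hP0 : 0 < P) (hc : c = (1 - cc') * v) (hc0 : 0 < c) (hxy : x + y + v = 1)
    (hx : 0 < x) (hy : 0 < y) (hyx : y ≤ x)
    (hcc1 : (0.708874905 : ℝ) ≤ cc') (hcc2 : cc' ≤ (0.708874906 : ℝ))
    (hr4 : r ^ 4 = (x + c / 2) * (y + c / 2)) (hP : P ^ 2 * r ^ 2 = c)
    (hF : F ≤ K0 * gg235 P / r + (3 / 20 : ℝ) * (2 / √(√x * √y)) * √(A * B))
    (hA0 : 0 ≤ A) (hB0 : 0 ≤ B)
    (v1 v2 D ρ P1 ξ R : ℝ) (hv1 : v1 ≤ v) (hv2 : v ≤ v2) (hv10 : 0 < v1) (hD : x - y ≤ D)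
    (hA : A ≤ R) (hB : B ≤ R) (hρ : 0 < ρ) (hP1 : 0 ≤ P1) (hξ : 0 ≤ ξ) (hv2' : v2 ≤ 1)
    (n1 : 1 ≤ ρ ^ 4 * ((1 - 0.708874906 * v2) ^ 2 - D ^ 2))
    (n2 : P1 ^ 2 ≤ v1 * (2 * 0.291125094 + P1 ^ 2 * 0.708874905))
    (n3 : 1 ≤ ξ ^ 4 * (((1 - v2) ^ 2 - D ^ 2) / 4))
    (n4 : 0 ≤ gg235 P1) (n5 : 3 / 10 * ξ * R ≤ 45322 / 10000 * (1 - ρ * gg235 P1)) :
    F ≤ √2 * K0 := by
  have hd0 : 0 ≤ x - y := by linarith
  have hdd : (x - y) ^ 2 ≤ D ^ 2 := pow_le_pow_left₀ hd0 hD 2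
  have hR : 0 ≤ R := hA0.trans hA
  have hv0 : 0 < v := by linarith
  refine fin235 K0 F P r _ ρ P1 hK hS hr hF hρ ?_ hP1 ?_ n4 ?_ ?_
  · have h1 := rr235 cc' x y v c r hc hxy hr4
    have h2 : (1 - 0.708874906 * v2) ^ 2 - D ^ 2 ≤ 4 * r ^ 4 := by
      rw [h1]
      have h3 : cc' * v ≤ 0.708874906 * v2 := mul_le_mul hcc2 hv2 hv0.le (by norm_num)
      have h4 : 0 ≤ 1 - 0.708874906 * v2 := by nlinarith
      have h5 : (1 - 0.708874906 * v2) ^ 2 ≤ (1 - cc' * v) ^ 2 :=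
        pow_le_pow_left₀ h4 (by linarith) 2
      linarith
    calc (1 : ℝ) ≤ ρ ^ 4 * ((1 - 0.708874906 * v2) ^ 2 - D ^ 2) := n1
      _ ≤ ρ ^ 4 * (4 * r ^ 4) := by gcongr
      _ = _ := by ring
  · have h1 := P_ge235 cc' x y v c P r hc hxy hx hy hc0 hr hr4 hP
    by_contra hcon
    push Not at hcon
    have h2 : P ^ 2 < P1 ^ 2 := pow_lt_pow_left₀ hcon hP0.le (by norm_num)
    have h3 : 0 < 1 - cc' * v := by
      have : cc' * v ≤ 0.708874906 * 1 := mul_le_mul hcc2 (by linarith) hv0.le (by norm_num)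
      linarith
    have h4 : P ^ 2 * (1 - cc' * v) < P1 ^ 2 * (1 - cc' * v) := mul_lt_mul_of_pos_right h2 h3
    have h5 : v1 * (2 * 0.291125094 + P1 ^ 2 * 0.708874905) ≤ v * (2 * (1 - cc') + P1 ^ 2 * cc') := by
      apply mul_le_mul hv1 _ _ hv0.le
      · have : P1 ^ 2 * 0.708874905 ≤ P1 ^ 2 * cc' := mul_le_mul_of_nonneg_left hcc1 (sq_nonneg _)
        linarith
      · positivity
    nlinarith
  · have h1 : 0 ≤ 3 / 10 * ξ * R := by positivity
    nlinarith
  · refine le_trans ?_ n5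
    apply tail235 x y ξ R A B hx hy hA0 hB0 hA hB hξ
    have h1 : x * y = ((1 - v) ^ 2 - (x - y) ^ 2) / 4 := by
      have : 1 - v = x + y := by linarith
      rw [this]; ring
    have h2 : (1 - v2) ^ 2 ≤ (1 - v) ^ 2 := pow_le_pow_left₀ (by linarith) (by linarith) 2
    calc (1 : ℝ) ≤ ξ ^ 4 * (((1 - v2) ^ 2 - D ^ 2) / 4) := n3
      _ ≤ ξ ^ 4 * (x * y) := by
        apply mul_le_mul_of_nonneg_left _ (by positivity)
        rw [h1]
        linarith


theorem Rsmall235 (T q cc' : ℝ) (hq : 0 < q) (hq2 : q ≤ 0.2237) (hT0 : 0 < T)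
    (hT : 2.3519 ≤ T * q) (hcc0 : 0 ≤ cc') (hcc2 : cc' ≤ (0.708874906 : ℝ)) :
    cc' ^ 2 * (1 / T + 1 / T ^ 2 + 2 / (3 * T ^ 3) + 1 / (4 * T ^ 4)) ≤ 0.2354 * q := by
  obtain ⟨w, hw⟩ : ∃ w, w = 1 / T := ⟨_, rfl⟩
  have hw0 : 0 < w := by rw [hw]; positivity
  have hwq : w ≤ 0.4252 * q := by
    rw [hw, div_le_iff₀ hT0]
    nlinarith
  have hwb : w ≤ 0.09512 := by nlinarith
  have e : 1 / T + 1 / T ^ 2 + 2 / (3 * T ^ 3) + 1 / (4 * T ^ 4)
      = w * (1 + w + 2 / 3 * w ^ 2 + 1 / 4 * w ^ 3) := by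
    rw [hw]
    field_simp
  have hw2 : w ^ 2 ≤ 0.009048 := by nlinarith
  have hw3 : w ^ 3 ≤ 0.000861 := by
    have : w ^ 3 = w ^ 2 * w := by ring
    rw [this]
    calc w ^ 2 * w ≤ 0.009048 * 0.09512 := mul_le_mul hw2 hwb hw0.le (by norm_num)
      _ ≤ 0.000861 := by norm_num
  have h1 : 1 + w + 2 / 3 * w ^ 2 + 1 / 4 * w ^ 3 ≤ 1.1014 := by linarith
  have hc : cc' ^ 2 ≤ 0.502504 := by
    calc cc' ^ 2 ≤ 0.708874906 ^ 2 := pow_le_pow_left₀ hcc0 hcc2 2
      _ ≤ 0.502504 := by norm_num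
  rw [e]
  calc cc' ^ 2 * (w * (1 + w + 2 / 3 * w ^ 2 + 1 / 4 * w ^ 3))
      ≤ 0.502504 * ((0.4252 * q) * 1.1014) := by
        apply mul_le_mul hc _ (by positivity) (by norm_num)
        exact mul_le_mul hwq h1 (by positivity) (by positivity)
    _ ≤ 0.2354 * q := by nlinarith

/-- small `v` -/
theorem small235 (K0 F x y v c cc' P r A B : ℝ) (hK : 0 < K0) (hS : 45322 / 10000 ≤ √2 * K0)
    (hr : 0 < r) (hP0 : 0 < P) (hc : c = (1 - cc') * v) (hc0 : 0 < c) (hxy : x + y + v = 1)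
    (hx : 0 < x) (hy : 0 < y) (hyx : y ≤ x)
    (hcc1 : (0.708874905 : ℝ) ≤ cc') (hcc2 : cc' ≤ (0.708874906 : ℝ))
    (hr4 : r ^ 4 = (x + c / 2) * (y + c / 2)) (hP : P ^ 2 * r ^ 2 = c)
    (hF : F ≤ K0 * gg235 P / r + (3 / 20 : ℝ) * (2 / √(√x * √y)) * √(A * B))
    (hA0 : 0 ≤ A) (hB0 : 0 ≤ B) (hv0 : 0 < v) (hv : v ≤ 1 / 20) (hd : x - y ≤ 19 / 9 * v)
    (hA : A ≤ 0.2354 * √v) (hB : B ≤ 0.2354 * √v) : F ≤ √2 * K0 := by
  have hd0 : 0 ≤ x - y := by linarith
  obtain ⟨q, hq⟩ : ∃ q, q = √v := ⟨_, rfl⟩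
  rw [← hq] at hA hB
  have hq0 : 0 < q := by rw [hq]; exact Real.sqrt_pos.2 hv0
  have hqv : q ^ 2 = v := by rw [hq]; exact Real.sq_sqrt hv0.le
  have hqb : q ≤ 0.2237 := by
    by_contra hcon
    push Not at hcon
    nlinarith
  have hdd : (x - y) ^ 2 ≤ (19 / 9 * v) ^ 2 := pow_le_pow_left₀ hd0 hd 2
  have hccv : cc' * v ≤ 0.708874906 * v := mul_le_mul_of_nonneg_right hcc2 hv0.le
  have hP1 : 0.763 * q ≤ P := by
    have h1 := P_ge235 cc' x y v c P r hc hxy hx hy hc0 hr hr4 hP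
    by_contra hcon
    push Not at hcon
    have h2 : P ^ 2 < (0.763 * q) ^ 2 := pow_lt_pow_left₀ hcon hP0.le (by norm_num)
    have h3 : P ^ 2 * (1 - cc' * v) ≤ P ^ 2 := by
      have : 0 ≤ P ^ 2 * (cc' * v) := by positivity
      linarith
    rw [mul_pow, hqv] at h2
    nlinarith
  have hgP1 : gg235 (0.763 * q) ≤ 1 - 0.14985 * q - 0.06898 * v := by
    unfold gg235
    have h3 : 0 ≤ (0.763 * q) ^ 3 := by positivity
    rw [mul_pow, mul_pow, hqv] at *
    nlinarith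
  have hgP0 : 0 ≤ gg235 (0.763 * q) := by
    have h1 := gg235_anti (0.763 * q) 0.2 (by positivity) (by linarith)
    have h2 : 0 ≤ gg235 0.2 := by unfold gg235; norm_num
    linarith
  have hlin : (1 + 0.44 * v) * gg235 (0.763 * q) ≤ 1 - q * (0.14985 - 0.37102 * q) := by
    have h1 : (1 + 0.44 * v) * gg235 (0.763 * q)
        ≤ (1 + 0.44 * v) * (1 - 0.14985 * q - 0.06898 * v) :=
      mul_le_mul_of_nonneg_left hgP1 (by positivity)
    have h2 : (1 + 0.44 * v) * (1 - 0.14985 * q - 0.06898 * v)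
        ≤ 1 + 0.37102 * v - 0.14985 * q := by
      have h3 : 0 ≤ 0.44 * v * (0.14985 * q + 0.06898 * v) := by positivity
      nlinarith
    have h4 : 1 - q * (0.14985 - 0.37102 * q) = 1 + 0.37102 * v - 0.14985 * q := by
      rw [← hqv]; ring
    linarith
  have hq1 : 0.066 * q ≤ q * (0.14985 - 0.37102 * q) := by nlinarith
  refine fin235 K0 F P r _ (1 + 0.44 * v) (0.763 * q) hK hS hr hF (by positivity) ?_
    (by positivity) hP1 hgP0 (by linarith) ?_
  · have h1 := rr235 cc' x y v c r hc hxy hr4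
    have h2 : 1 - 1.6156 * v ≤ 4 * r ^ 4 := by
      rw [h1]
      have h4 : (1 - 0.708874906 * v) ^ 2 ≤ (1 - cc' * v) ^ 2 :=
        pow_le_pow_left₀ (by nlinarith) (by linarith) 2
      nlinarith
    have h5 : 1 ≤ (1 + 0.44 * v) ^ 4 * (1 - 1.6156 * v) := by
      have h6 : 0 ≤ v * (0.1444 - 1.7 * v - 1.6 * v ^ 2 - 0.6 * v ^ 3 - 0.1 * v ^ 4) := by
        apply mul_nonneg hv0.le
        have hv2 : v ^ 2 ≤ 1 / 400 := by nlinarith
        have hv3 : v ^ 3 ≤ 1 / 8000 := by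
          have : v ^ 3 = v ^ 2 * v := by ring
          rw [this]; nlinarith
        have hv4 : v ^ 4 ≤ 1 / 160000 := by
          have : v ^ 4 = v ^ 2 * v ^ 2 := by ring
          rw [this]; nlinarith [sq_nonneg v]
        linarith
      have h7 : 0 ≤ v ^ 2 := by positivity
      have h8 : 0 ≤ v ^ 3 := by positivity
      have h9 : 0 ≤ v ^ 4 := by positivity
      have h10 : 0 ≤ v ^ 5 := by positivity
      nlinarith
    calc (1 : ℝ) ≤ (1 + 0.44 * v) ^ 4 * (1 - 1.6156 * v) := h5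
      _ ≤ (1 + 0.44 * v) ^ 4 * (4 * r ^ 4) := by gcongr
      _ = _ := by ring
  · have h1 : 1 ≤ (1.456 : ℝ) ^ 4 * (x * y) := by
      have h1 : x * y = ((1 - v) ^ 2 - (x - y) ^ 2) / 4 := by
        have : 1 - v = x + y := by linarith
        rw [this]; ring
      rw [h1]
      nlinarith
    have h2 := tail235 x y 1.456 (0.2354 * q) A B hx hy hA0 hB0 hA hB (by norm_num) h1
    refine h2.trans ?_
    nlinarith


/-- Cauchy-Schwarz region: `y ≥ .34` -/
theorem CS_region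
    (hm1 : (1.7112487837842976 : ℝ) ≤ m0) (hm2 : m0 ≤ (1.7112487837842977 : ℝ))
    (hB1 : (1.49364826562485405 : ℝ) ≤ B1) (hB2 : B1 ≤ (1.49364826562485406 : ℝ))
    (hc1 : (0.708874905227206 : ℝ) ≤ cc) (hc2 : cc ≤ (0.708874905227208 : ℝ))
    (hG : ∀ τ s : ℝ, 0 < τ → 0 < s → s ^ 2 * (1 + τ ^ 2 / 2) = τ ^ 2 → Gd (τ ^ 2) ≤
      2 * Real.pi * B1 / m0 ^ 2 * (1 / √(1 + τ ^ 2 / 2)) *
        (1 - 1964 / 10000 * s - 1231 / 10000 * s ^ 2 - 304 / 10000 * s ^ 3 + 12 / 1000 * s ^ 4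
          + 345 / 10000 * s ^ 6))
    (hR1 : ∀ T : ℝ, 69 / 20 ≤ T → Rt T ≤ 720 / 10000)
    (hR2 : ∀ T : ℝ, 5 ≤ T → Rt T ≤ 513 / 10000) (hR3 : ∀ T : ℝ, 6 ≤ T → Rt T ≤ 395 / 10000)
    (hR4 : ∀ T : ℝ, 0 < T → Rt T ≤ cc ^ 2 * (1 / T + 1 / T ^ 2 + 2 / (3 * T ^ 3) + 1 / (4 * T ^ 4)))
    (hR0 : ∀ T : ℝ, 0 ≤ Rt T)
    (x y v F : ℝ) (hy : 34 / 100 ≤ y) (hyx : y ≤ x) (hx1 : 36 / 100 ≤ x) (hx : x ≤ 21 / 40)
    (hv : x + y + v = 1) (hv0 : 0 < v) (hcorner : x ≤ 1 / 2 ∨ 9 / 5 * (x - 1 / 2) ≤ v)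
    (hF : F ≤ √((1 / √x * Gd ((1 - cc) * (v / x))) * (1 / √y * Gd ((1 - cc) * (v / y))))
      + (3 / 20 : ℝ) * (2 / √(√x * √y)) * √(Rt (181 / 50 * √x / √v) * Rt (181 / 50 * √y / √v))) :
    F ≤ √2 * (2 * Real.pi * B1 / m0 ^ 2) := by
  obtain ⟨K0, hK0⟩ : ∃ K0, K0 = 2 * Real.pi * B1 / m0 ^ 2 := ⟨_, rfl⟩
  rw [← hK0]
  have hm0 : 0 < m0 := by linarith
  have hBp : 0 < B1 := by linarith
  have hpi : 3.141592 < Real.pi := Real.pi_gt_d6
  have hK : 0 < K0 := by rw [hK0]; positivity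
  have hS : 45322 / 10000 ≤ √2 * K0 := by
    have h1 : (3.20476 : ℝ) ≤ K0 := by
      rw [hK0, le_div_iff₀ (by positivity)]
      have h2 : m0 ^ 2 ≤ 1.7112487837842977 ^ 2 := pow_le_pow_left₀ hm0.le hm2 2
      have h3 : 2 * 3.141592 * 1.49364826562485405 ≤ 2 * Real.pi * B1 := by
        apply mul_le_mul (by linarith) hB1 (by norm_num) (by positivity)
      refine le_trans ?_ h3
      calc 3.20476 * m0 ^ 2 ≤ 3.20476 * 1.7112487837842977 ^ 2 := by linarith
        _ ≤ _ := by norm_num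
    have h2 : (1.414213 : ℝ) ≤ √2 := by
      rw [Real.le_sqrt (by norm_num) (by norm_num)]
      norm_num
    calc (45322 / 10000 : ℝ) ≤ 1.414213 * 3.20476 := by norm_num
      _ ≤ √2 * K0 := mul_le_mul h2 h1 (by norm_num) (by positivity)
  have hcc1 : (0.708874905 : ℝ) ≤ cc := by linarith
  have hcc2 : cc ≤ (0.708874906 : ℝ) := by linarith
  have hx0 : 0 < x := by linarith
  have hy0 : 0 < y := by linarith
  have hv3 : v ≤ 3 / 10 := by linarith
  obtain ⟨c, hc⟩ : ∃ c, c = (1 - cc) * v := ⟨_, rfl⟩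
  have hc0 : 0 < c := by rw [hc]; apply mul_pos _ hv0; linarith
  have hcb : c ≤ 0.0874 := by
    rw [hc]
    calc (1 - cc) * v ≤ 0.2912 * (3 / 10) := mul_le_mul (by linarith) hv3 hv0.le (by norm_num)
      _ ≤ 0.0874 := by norm_num
  have hGd0 : ∀ t : ℝ, 0 ≤ Gd t := by
    intro t
    unfold Gd
    apply integral_nonneg
    intro s
    simp only [Pi.zero_apply]
    positivity
  have hGd : ∀ z : ℝ, 0 < z → Gd ((1 - cc) * (v / z)) ≤
      K0 * (1 / √(1 + (c / z) / 2)) * QQ235 (√(c / (z + c / 2))) := by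
    intro z hz
    have e1 : (1 - cc) * (v / z) = c / z := by rw [hc]; ring
    rw [e1]
    have h1 := hG (√(c / z)) (√(c / (z + c / 2))) (Real.sqrt_pos.2 (by positivity))
      (Real.sqrt_pos.2 (by positivity)) (by
        rw [Real.sq_sqrt (by positivity), Real.sq_sqrt (by positivity)]
        field_simp)
    rw [Real.sq_sqrt (by positivity), ← hK0] at h1
    unfold QQ235
    exact h1
  have hsx : c / (x + c / 2) ≤ 23 / 100 := by
    rw [div_le_iff₀ (by positivity)]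
    linarith
  have hsy : c / (y + c / 2) ≤ 23 / 100 := by
    rw [div_le_iff₀ (by positivity)]
    linarith
  obtain ⟨P, r, hP0, hr, hr4, hP, hA⟩ := A_le235 K0 x y c _ _ hK hx0 hy0 hc0
    (hGd0 _) (hGd0 _) (hGd x hx0) (hGd y hy0) hsx hsy
  have hF2 : F ≤ K0 * gg235 P / r + (3 / 20 : ℝ) * (2 / √(√x * √y)) *
      √(Rt (181 / 50 * √x / √v) * Rt (181 / 50 * √y / √v)) := by linarith
  have hA0 := hR0 (181 / 50 * √x / √v)
  have hB0 := hR0 (181 / 50 * √y / √v)
  rcases le_or_gt v (1 / 20) with hvs | hvs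
  · have hsv : 0 < √v := Real.sqrt_pos.2 hv0
    have hsv2 : √v ≤ 0.2237 := by
      rw [Real.sqrt_le_iff]
      constructor
      · norm_num
      · refine hvs.trans ?_
        norm_num
    have hd : x - y ≤ 19 / 9 * v := by
      rcases hcorner with hh | hh <;> linarith
    have hyl : (0.4222 : ℝ) ≤ y := by
      rcases hcorner with hh | hh <;> linarith
    have key : ∀ z : ℝ, y ≤ z → Rt (181 / 50 * √z / √v) ≤ 0.2354 * √v := by
      intro z hz
      have hz1 : (0.6497 : ℝ) ≤ √z := by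
        rw [Real.le_sqrt (by norm_num) (by linarith)]
        refine le_trans ?_ (hyl.trans hz)
        norm_num
      have hz0 : 0 < √z := by linarith
      refine (hR4 _ (by positivity)).trans ?_
      apply Rsmall235 _ _ _ hsv hsv2 (by positivity) _ (by linarith) hcc2
      rw [div_mul_cancel₀ _ hsv.ne']
      linarith
    exact small235 K0 F x y v c cc P r _ _ hK hS hr hP0 hc hc0 hv hx0 hy0 hyx hcc1 hcc2 hr4 hP
      hF2 hA0 hB0 hv0 hvs hd (key x hyx) (key y le_rfl)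
  have key : ∀ (v1 v2 D ρ P1 ξ R T0 R' : ℝ), (∀ T : ℝ, T0 ≤ T → Rt T ≤ R') → R' ≤ R → 0 ≤ T0 →
      v1 ≤ v → v ≤ v2 → 0 < v1 → x - y ≤ D → T0 ^ 2 * v ≤ (181 / 50) ^ 2 * y → 0 < ρ → 0 ≤ P1 →
      0 ≤ ξ → v2 ≤ 1 → 1 ≤ ρ ^ 4 * ((1 - 0.708874906 * v2) ^ 2 - D ^ 2) →
      P1 ^ 2 ≤ v1 * (2 * 0.291125094 + P1 ^ 2 * 0.708874905) →
      1 ≤ ξ ^ 4 * (((1 - v2) ^ 2 - D ^ 2) / 4) → 0 ≤ gg235 P1 →
      3 / 10 * ξ * R ≤ 45322 / 10000 * (1 - ρ * gg235 P1) → F ≤ √2 * K0 := by
    intro v1 v2 D ρ P1 ξ R T0 R' hR hR' hT0 hv1 hv2 hv10 hD hT hρ hP1 hξ hv2' n1 n2 n3 n4 n5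
    refine cell235 K0 F x y v c cc P r _ _ hK hS hr hP0 hc hc0 hv hx0 hy0 hyx hcc1 hcc2 hr4 hP
      hF2 hA0 hB0 v1 v2 D ρ P1 ξ R hv1 hv2 hv10 hD ?_ ?_ hρ hP1 hξ hv2' n1 n2 n3 n4 n5
    · exact (hR _ (T_le235 T0 x v hT0 hv0 (hT.trans (by linarith)))).trans hR'
    · exact (hR _ (T_le235 T0 y v hT0 hv0 hT)).trans hR'
  rcases le_or_gt v (81/1000) with hw | hw
  · exact key (1/20) (81/1000) (131/1000) (20701/20000) (4343/25000) (74141/50000) (79/2000) (6) _ hR3 (by norm_num)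
      (by norm_num) (by linarith) (by linarith) (by norm_num) (by linarith) (by linarith)
      (by norm_num) (by norm_num) (by norm_num) (by norm_num) (by norm_num) (by norm_num)
      (by norm_num) (by norm_num [gg235]) (by norm_num [gg235])
  rcases le_or_gt v (27/250) with hw | hw
  · exact key (81/1000) (27/250) (79/500) (2621/2500) (699/3125) (150937/100000) (79/2000) (6) _ hR3 (by norm_num)
      (by norm_num) (by linarith) (by linarith) (by norm_num) (by linarith) (by linarith)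
      (by norm_num) (by norm_num) (by norm_num) (by norm_num) (by norm_num) (by norm_num)
      (by norm_num) (by norm_num [gg235]) (by norm_num [gg235])
  rcases le_or_gt v (63/500) with hw | hw
  · exact key (27/250) (63/500) (22/125) (3306/3125) (13047/50000) (152847/100000) (79/2000) (6) _ hR3 (by norm_num)
      (by norm_num) (by linarith) (by linarith) (by norm_num) (by linarith) (by linarith)
      (by norm_num) (by norm_num) (by norm_num) (by norm_num) (by norm_num) (by norm_num)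
      (by norm_num) (by norm_num [gg235]) (by norm_num [gg235])
  rcases le_or_gt v (69/500) with hw | hw
  · exact key (63/500) (69/500) (47/250) (53229/50000) (14191/50000) (15419/10000) (513/10000) (5) _ hR2 (by norm_num)
      (by norm_num) (by linarith) (by linarith) (by norm_num) (by linarith) (by linarith)
      (by norm_num) (by norm_num) (by norm_num) (by norm_num) (by norm_num) (by norm_num)
      (by norm_num) (by norm_num [gg235]) (by norm_num [gg235])
  rcases le_or_gt v (3/20) with hw | hw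
  · exact key (69/500) (3/20) (91/500) (106909/100000) (14921/50000) (38801/25000) (513/10000) (5) _ hR2 (by norm_num)
      (by norm_num) (by linarith) (by linarith) (by norm_num) (by linarith) (by linarith)
      (by norm_num) (by norm_num) (by norm_num) (by norm_num) (by norm_num) (by norm_num)
      (by norm_num) (by norm_num [gg235]) (by norm_num [gg235])
  rcases le_or_gt v (41/250) with hw | hw
  · exact key (3/20) (41/250) (17/100) (107383/100000) (31261/100000) (31263/20000) (513/10000) (5) _ hR2 (by norm_num)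
      (by norm_num) (by linarith) (by linarith) (by norm_num) (by linarith) (by linarith)
      (by norm_num) (by norm_num) (by norm_num) (by norm_num) (by norm_num) (by norm_num)
      (by norm_num) (by norm_num [gg235]) (by norm_num [gg235])
  rcases le_or_gt v (89/500) with hw | hw
  · exact key (41/250) (89/500) (39/250) (107847/100000) (3287/10000) (78711/50000) (513/10000) (5) _ hR2 (by norm_num)
      (by norm_num) (by linarith) (by linarith) (by norm_num) (by linarith) (by linarith)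
      (by norm_num) (by norm_num) (by norm_num) (by norm_num) (by norm_num) (by norm_num)
      (by norm_num) (by norm_num [gg235]) (by norm_num [gg235])
  rcases le_or_gt v (189/1000) with hw | hw
  · exact key (89/500) (189/1000) (71/500) (108193/100000) (17219/50000) (79133/50000) (9/125) (69/20) _ hR1 (by norm_num)
      (by norm_num) (by linarith) (by linarith) (by norm_num) (by linarith) (by linarith)
      (by norm_num) (by norm_num) (by norm_num) (by norm_num) (by norm_num) (by norm_num)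
      (by norm_num) (by norm_num [gg235]) (by norm_num [gg235])
  rcases le_or_gt v (1/5) with hw | hw
  · exact key (189/1000) (1/5) (131/1000) (108583/100000) (17823/50000) (159193/100000) (9/125) (69/20) _ hR1 (by norm_num)
      (by norm_num) (by linarith) (by linarith) (by norm_num) (by linarith) (by linarith)
      (by norm_num) (by norm_num) (by norm_num) (by norm_num) (by norm_num) (by norm_num)
      (by norm_num) (by norm_num [gg235]) (by norm_num [gg235])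
  rcases le_or_gt v (211/1000) with hw | hw
  · exact key (1/5) (211/1000) (3/25) (54493/50000) (7367/20000) (40037/25000) (9/125) (69/20) _ hR1 (by norm_num)
      (by norm_num) (by linarith) (by linarith) (by norm_num) (by linarith) (by linarith)
      (by norm_num) (by norm_num) (by norm_num) (by norm_num) (by norm_num) (by norm_num)
      (by norm_num) (by norm_num [gg235]) (by norm_num [gg235])
  rcases le_or_gt v (111/500) with hw | hw
  · exact key (211/1000) (111/500) (109/1000) (547/500) (38007/100000) (161131/100000) (9/125) (69/20) _ hR1 (by norm_num)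
      (by norm_num) (by linarith) (by linarith) (by norm_num) (by linarith) (by linarith)
      (by norm_num) (by norm_num) (by norm_num) (by norm_num) (by norm_num) (by norm_num)
      (by norm_num) (by norm_num [gg235]) (by norm_num [gg235])
  rcases le_or_gt v (233/1000) with hw | hw
  · exact key (111/500) (233/1000) (49/500) (109827/100000) (7833/20000) (81073/50000) (9/125) (69/20) _ hR1 (by norm_num)
      (by norm_num) (by linarith) (by linarith) (by norm_num) (by linarith) (by linarith)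
      (by norm_num) (by norm_num) (by norm_num) (by norm_num) (by norm_num) (by norm_num)
      (by norm_num) (by norm_num [gg235]) (by norm_num [gg235])
  rcases le_or_gt v (61/250) with hw | hw
  · exact key (233/1000) (61/250) (87/1000) (27567/25000) (40311/100000) (81597/50000) (9/125) (69/20) _ hR1 (by norm_num)
      (by norm_num) (by linarith) (by linarith) (by norm_num) (by linarith) (by linarith)
      (by norm_num) (by norm_num) (by norm_num) (by norm_num) (by norm_num) (by norm_num)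
      (by norm_num) (by norm_num [gg235]) (by norm_num [gg235])
  rcases le_or_gt v (127/500) with hw | hw
  · exact key (61/250) (127/500) (19/250) (4427/4000) (20723/50000) (32833/20000) (9/125) (69/20) _ hR1 (by norm_num)
      (by norm_num) (by linarith) (by linarith) (by norm_num) (by linarith) (by linarith)
      (by norm_num) (by norm_num) (by norm_num) (by norm_num) (by norm_num) (by norm_num)
      (by norm_num) (by norm_num [gg235]) (by norm_num [gg235])
  rcases le_or_gt v (33/125) with hw | hw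
  · exact key (127/500) (33/125) (33/500) (1111/1000) (42469/100000) (165179/100000) (9/125) (69/20) _ hR1 (by norm_num)
      (by norm_num) (by linarith) (by linarith) (by norm_num) (by linarith) (by linarith)
      (by norm_num) (by norm_num) (by norm_num) (by norm_num) (by norm_num) (by norm_num)
      (by norm_num) (by norm_num [gg235]) (by norm_num [gg235])
  rcases le_or_gt v (273/1000) with hw | hw
  · exact key (33/125) (273/1000) (7/125) (111489/100000) (8697/20000) (16611/10000) (9/125) (69/20) _ hR1 (by norm_num)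
      (by norm_num) (by linarith) (by linarith) (by norm_num) (by linarith) (by linarith)
      (by norm_num) (by norm_num) (by norm_num) (by norm_num) (by norm_num) (by norm_num)
      (by norm_num) (by norm_num [gg235]) (by norm_num [gg235])
  rcases le_or_gt v (281/1000) with hw | hw
  · exact key (273/1000) (281/1000) (47/1000) (22369/20000) (8879/20000) (83481/50000) (9/125) (69/20) _ hR1 (by norm_num)
      (by norm_num) (by linarith) (by linarith) (by norm_num) (by linarith) (by linarith)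
      (by norm_num) (by norm_num) (by norm_num) (by norm_num) (by norm_num) (by norm_num)
      (by norm_num) (by norm_num [gg235]) (by norm_num [gg235])
  rcases le_or_gt v (36/125) with hw | hw
  · exact key (281/1000) (36/125) (39/1000) (112163/100000) (113/250) (167727/100000) (9/125) (69/20) _ hR1 (by norm_num)
      (by norm_num) (by linarith) (by linarith) (by norm_num) (by linarith) (by linarith)
      (by norm_num) (by norm_num) (by norm_num) (by norm_num) (by norm_num) (by norm_num)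
      (by norm_num) (by norm_num [gg235]) (by norm_num [gg235])
  rcases le_or_gt v (147/500) with hw | hw
  · exact key (36/125) (147/500) (4/125) (112443/100000) (22951/50000) (168399/100000) (9/125) (69/20) _ hR1 (by norm_num)
      (by norm_num) (by linarith) (by linarith) (by norm_num) (by linarith) (by linarith)
      (by norm_num) (by norm_num) (by norm_num) (by norm_num) (by norm_num) (by norm_num)
      (by norm_num) (by norm_num [gg235]) (by norm_num [gg235])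
  rcases le_or_gt v (299/1000) with hw | hw
  · exact key (147/500) (299/1000) (13/500) (2817/2500) (23251/50000) (168969/100000) (9/125) (69/20) _ hR1 (by norm_num)
      (by norm_num) (by linarith) (by linarith) (by norm_num) (by linarith) (by linarith)
      (by norm_num) (by norm_num) (by norm_num) (by norm_num) (by norm_num) (by norm_num)
      (by norm_num) (by norm_num [gg235]) (by norm_num [gg235])
  exact key (299/1000) (3/10) (21/1000) (1409/1250) (47001/100000) (16907/10000) (9/125) (69/20) _ hR1 (by norm_num)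
      (by norm_num) (by linarith) (by linarith) (by norm_num) (by linarith) (by linarith)
      (by norm_num) (by norm_num) (by norm_num) (by norm_num) (by norm_num) (by norm_num)
      (by norm_num) (by norm_num [gg235]) (by norm_num [gg235])


end
end CG3
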