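import Pool.Agent.CG3.Final
import Pool.Agent.CG3.K2

open MeasureTheory ProbabilityTheory
open scoped BigOperators

namespace CG3
noncomputable section

theorem fCSreg : CSreg := fun x y v F h1 h2 h3 h4 h5 h6 h7 h8 =>
  CS_region m0_lo m0_hi B1_lo B1_hi cc_lo cc_hi fG fR.2.1 fR.2.2.1 fR.2.2.2.1 fR.2.2.2.2 Rt_nonneg
    x y v F h1 h2 h3 h4 h5 h6 h7 h8

/-- dimensions `3 ≤ n ≤ 5` -/
theorem upper5 (n : ℕ) (hn : 2 ≤ n) (hn5 : n ≤ 5) (θ : EuclideanSpace ℝ (Fin n)) (hθ : ‖θ‖ = 1) :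
    secG θ ≤ secG (twoDiag n) := by
  rw [secG_twoDiag n hn]
  refine secG_le (by omega) F2 (hC_of F2 F2_ge) (fun θ h0 h1 h2 => ?_) θ hθ
  refine Fbound5 fCSreg θ h0 h1 h2 ?_
  refine (Finset.card_filter_le _ _).trans ?_
  rw [Finset.card_univ, Fintype.card_fin]; exact hn5

/-- dimensions `n ≥ 6` -/
theorem upper6 (n : ℕ) (hn : 6 ≤ n) (θ : EuclideanSpace ℝ (Fin n)) (hθ : ‖θ‖ = 1) :
    secG θ ≤ secG (mainDiag n) := by
  rw [secG_mainDiag n (by omega)]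
  refine secG_le (by omega) _ (hC_of _ ?_) (fun θ h0 h1 h2 => ?_) θ hθ
  · exact le_trans (by norm_num) (fdiag6 n hn)
  · exact Fbound6 fCSreg fCs hn θ h0 h1 h2

end
end CG3
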