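import Pool.Agent.CG3.Base

open MeasureTheory ProbabilityTheory
open scoped BigOperators

namespace CG3
noncomputable section

theorem h170_w_cont : Continuous w := by
  unfold w
  fun_prop

theorem h170_w_pos (x : ℝ) : 0 < w x := Real.exp_pos _

theorem h170_w_deriv (x : ℝ) : HasDerivAt w (-x * w x) x := by
  unfold w
  have h1 : HasDerivAt (fun x : ℝ => -(x ^ 2) / 2) (-(2 * x) / 2) x := by
    have h2 := ((hasDerivAt_pow 2 x).neg).div_const 2
    refine h2.congr_deriv ?_
    simp
  have h2 := h1.exp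
  refine h2.congr_deriv ?_
  ring

theorem m0_pos : 0 < m0 := by
  unfold m0
  exact intervalIntegral.intervalIntegral_pos_of_pos (h170_w_cont.intervalIntegrable _ _) h170_w_pos (by norm_num)

theorem phi_zero : phi 0 = 1 := by
  unfold phi
  simp only [zero_mul, Real.cos_zero, mul_one]
  exact div_self m0_pos.ne'

theorem phi_neg (t : ℝ) : phi (-t) = phi t := by
  unfold phi
  simp only [neg_mul, Real.cos_neg]

/-- bound of an oscillating integral -/
theorem h170_osc (k : ℝ → ℝ) (hk : Continuous k) (hk0 : ∀ x ∈ Set.Icc (-1:ℝ) 1, 0 ≤ k x) (t : ℝ) :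
    |∫ x in (-1 : ℝ)..1, k x * Real.cos (t * x)| ≤ ∫ x in (-1 : ℝ)..1, k x := by
  rw [← Real.norm_eq_abs]
  refine intervalIntegral.norm_integral_le_of_norm_le (by norm_num) ?_ (hk.intervalIntegrable _ _)
  refine Filter.Eventually.of_forall fun x hx => ?_
  have h1 : 0 ≤ k x := hk0 x ⟨hx.1.le, hx.2⟩
  rw [norm_mul, Real.norm_of_nonneg h1, Real.norm_eq_abs]
  calc k x * |Real.cos (t * x)| ≤ k x * 1 := mul_le_mul_of_nonneg_left (Real.abs_cos_le_one _) h1
    _ = k x := mul_one _

theorem phi_abs_le_one (t : ℝ) : |phi t| ≤ 1 := by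
  unfold phi
  rw [abs_div, abs_of_pos m0_pos, div_le_one m0_pos]
  exact h170_osc w h170_w_cont (fun x _ => (h170_w_pos x).le) t

theorem h170_dcos (k : ℝ → ℝ) (hk : Continuous k) (t : ℝ) :
    HasDerivAt (fun t => ∫ x in (-1 : ℝ)..1, k x * Real.cos (t * x))
      (∫ x in (-1 : ℝ)..1, -(k x * x) * Real.sin (t * x)) t := by
  have h := intervalIntegral.hasDerivAt_integral_of_dominated_loc_of_deriv_le (μ := volume)
    (a := (-1:ℝ)) (b := 1) (F := fun t x => k x * Real.cos (t * x))
    (F' := fun t x => -(k x * x) * Real.sin (t * x)) (x₀ := t) (s := Set.univ)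
    (bound := fun x => |k x * x|) Filter.univ_mem
    (Filter.Eventually.of_forall fun t => (by fun_prop : Continuous fun x => k x * Real.cos (t * x)).aestronglyMeasurable)
    ((by fun_prop : Continuous fun x => k x * Real.cos (t * x)).intervalIntegrable _ _)
    (by fun_prop : Continuous fun x => -(k x * x) * Real.sin (t * x)).aestronglyMeasurable
    (Filter.Eventually.of_forall fun x _ t _ => by
      rw [norm_mul, norm_neg, Real.norm_eq_abs, Real.norm_eq_abs]
      calc |k x * x| * |Real.sin (t * x)| ≤ |k x * x| * 1 :=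
            mul_le_mul_of_nonneg_left (Real.abs_sin_le_one _) (abs_nonneg _)
        _ = _ := mul_one _)
    ((by fun_prop : Continuous fun x => |k x * x|).intervalIntegrable _ _)
    (Filter.Eventually.of_forall fun x _ t _ => by
      have h1 : HasDerivAt (fun t : ℝ => t * x) x t := by
        simpa using (hasDerivAt_id t).mul_const x
      have h2 := (h1.cos).const_mul (k x)
      refine h2.congr_deriv ?_
      ring)
  exact h.2

theorem h170_dsin (k : ℝ → ℝ) (hk : Continuous k) (t : ℝ) :
    HasDerivAt (fun t => ∫ x in (-1 : ℝ)..1, k x * Real.sin (t * x))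
      (∫ x in (-1 : ℝ)..1, (k x * x) * Real.cos (t * x)) t := by
  have h := intervalIntegral.hasDerivAt_integral_of_dominated_loc_of_deriv_le (μ := volume)
    (a := (-1:ℝ)) (b := 1) (F := fun t x => k x * Real.sin (t * x))
    (F' := fun t x => (k x * x) * Real.cos (t * x)) (x₀ := t) (s := Set.univ)
    (bound := fun x => |k x * x|) Filter.univ_mem
    (Filter.Eventually.of_forall fun t => (by fun_prop : Continuous fun x => k x * Real.sin (t * x)).aestronglyMeasurable)
    ((by fun_prop : Continuous fun x => k x * Real.sin (t * x)).intervalIntegrable _ _)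
    (by fun_prop : Continuous fun x => (k x * x) * Real.cos (t * x)).aestronglyMeasurable
    (Filter.Eventually.of_forall fun x _ t _ => by
      rw [norm_mul, Real.norm_eq_abs, Real.norm_eq_abs]
      calc |k x * x| * |Real.cos (t * x)| ≤ |k x * x| * 1 :=
            mul_le_mul_of_nonneg_left (Real.abs_cos_le_one _) (abs_nonneg _)
        _ = _ := mul_one _)
    ((by fun_prop : Continuous fun x => |k x * x|).intervalIntegrable _ _)
    (Filter.Eventually.of_forall fun x _ t _ => by
      have h1 : HasDerivAt (fun t : ℝ => t * x) x t := by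
        simpa using (hasDerivAt_id t).mul_const x
      have h2 := (h1.sin).const_mul (k x)
      refine h2.congr_deriv ?_
      ring)
  exact h.2

theorem h170_smooth (n : ℕ) : ∀ k : ℝ → ℝ, Continuous k →
    ContDiff ℝ n (fun t => ∫ x in (-1 : ℝ)..1, k x * Real.cos (t * x)) ∧
    ContDiff ℝ n (fun t => ∫ x in (-1 : ℝ)..1, k x * Real.sin (t * x)) := by
  induction n with
  | zero =>
    intro k hk
    rw [Nat.cast_zero, contDiff_zero, contDiff_zero]
    exact ⟨continuous_iff_continuousAt.2 fun t => (h170_dcos k hk t).continuousAt,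
      continuous_iff_continuousAt.2 fun t => (h170_dsin k hk t).continuousAt⟩
  | succ n ih =>
    intro k hk
    have e1 : deriv (fun t => ∫ x in (-1 : ℝ)..1, k x * Real.cos (t * x)) =
        fun t => ∫ x in (-1 : ℝ)..1, -(k x * x) * Real.sin (t * x) := by
      funext t
      exact (h170_dcos k hk t).deriv
    have e2 : deriv (fun t => ∫ x in (-1 : ℝ)..1, k x * Real.sin (t * x)) =
        fun t => ∫ x in (-1 : ℝ)..1, (k x * x) * Real.cos (t * x) := by
      funext t
      exact (h170_dsin k hk t).deriv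
    rw [Nat.cast_succ, contDiff_succ_iff_deriv, contDiff_succ_iff_deriv, e1, e2]
    refine ⟨⟨fun t => (h170_dcos k hk t).differentiableAt, ?_, ?_⟩,
      ⟨fun t => (h170_dsin k hk t).differentiableAt, ?_, ?_⟩⟩
    · intro h; simp at h
    · exact (ih (fun x => -(k x * x)) (by fun_prop)).2
    · intro h; simp at h
    · exact (ih (fun x => k x * x) (by fun_prop)).1

theorem phi_contDiff : ContDiff ℝ 2 phi := by
  have h := (h170_smooth 2 w h170_w_cont).1
  have h2 : ContDiff ℝ 2 (fun t => (∫ x in (-1 : ℝ)..1, w x * Real.cos (t * x)) / m0) :=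
    ContDiff.div_const h m0
  exact h2

theorem phi_deriv (t : ℝ) :
    HasDerivAt phi (-(∫ x in (-1 : ℝ)..1, w x * x * Real.sin (t * x)) / m0) t := by
  have h := (h170_dcos w h170_w_cont t).div_const m0
  have e : (∫ x in (-1 : ℝ)..1, -(w x * x) * Real.sin (t * x)) = -(∫ x in (-1 : ℝ)..1, w x * x * Real.sin (t * x)) := by
    rw [← intervalIntegral.integral_neg]
    congr 1
    funext x
    ring
  rw [e] at h
  exact h

theorem h170_moment : ∫ x in (-1 : ℝ)..1, (1 - x ^ 2) * w x = 2 * w 1 := by
  have h := intervalIntegral.integral_eq_sub_of_hasDerivAt (a := -1) (b := 1)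
    (f := fun x => x * w x) (f' := fun x => (1 - x ^ 2) * w x) (by
      intro x _
      have h1 := (hasDerivAt_id x).mul (h170_w_deriv x)
      refine h1.congr_deriv ?_
      simp only [id]
      ring) ((by have := h170_w_cont; fun_prop : Continuous fun x : ℝ => (1 - x ^ 2) * w x).intervalIntegrable _ _)
  rw [h]
  have h2 : w (-1) = w 1 := by unfold w; norm_num
  rw [h2]
  ring

theorem h170_parts (t : ℝ) (ht : 0 < t) :
    (∫ x in (-1 : ℝ)..1, w x * Real.cos (t * x)) =
      2 * w 1 * ((t * Real.sin t - Real.cos t) / t ^ 2) +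
        (∫ x in (-1 : ℝ)..1, ((1 - x ^ 2) * w x) * Real.cos (t * x)) / t ^ 2 := by
  have hwc := h170_w_cont
  have i1 : IntervalIntegrable (fun x => w x * Real.cos (t * x)) volume (-1) 1 :=
    (by fun_prop : Continuous fun x => w x * Real.cos (t * x)).intervalIntegrable _ _
  have i2 : IntervalIntegrable (fun x => ((1 - x ^ 2) * w x) * Real.cos (t * x) / t ^ 2) volume (-1) 1 :=
    (by fun_prop : Continuous fun x => ((1 - x ^ 2) * w x) * Real.cos (t * x) / t ^ 2).intervalIntegrable _ _
  have h := intervalIntegral.integral_eq_sub_of_hasDerivAt (a := -1) (b := 1)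
    (f := fun x => w x * Real.sin (t * x) / t - x * w x * Real.cos (t * x) / t ^ 2)
    (f' := fun x => w x * Real.cos (t * x) - ((1 - x ^ 2) * w x) * Real.cos (t * x) / t ^ 2) (by
      intro x _
      have h1 : HasDerivAt (fun x : ℝ => t * x) t x := by
        simpa using (hasDerivAt_id x).const_mul t
      have h2 := h170_w_deriv x
      have h3 := (h2.mul h1.sin).div_const t
      have h4 := (((hasDerivAt_id x).mul h2).mul h1.cos).div_const (t ^ 2)
      refine (h3.sub h4).congr_deriv ?_
      simp only [id, Pi.mul_apply]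
      field_simp
      ring) (i1.sub i2)
  rw [intervalIntegral.integral_sub i1 i2, intervalIntegral.integral_div] at h
  have h2 : w (-1) = w 1 := by unfold w; norm_num
  simp only [mul_one, mul_neg, Real.sin_neg, Real.cos_neg, h2] at h
  have h3 : (∫ x in (-1 : ℝ)..1, w x * Real.cos (t * x)) =
      w 1 * Real.sin t / t - 1 * w 1 * Real.cos t / t ^ 2 - (-(w 1 * Real.sin t) / t - -1 * w 1 * Real.cos t / t ^ 2) +
      (∫ x in (-1 : ℝ)..1, ((1 - x ^ 2) * w x) * Real.cos (t * x)) / t ^ 2 := by
    linarith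
  rw [h3]
  field_simp
  ring

/-- decay -/
theorem phi_decay (t : ℝ) (ht : 0 < t) :
    |phi t| ≤ cc * (√(t ^ 2 + 1) + 1) / t ^ 2 := by
  have hm := m0_pos
  have hw1 : 0 < w 1 := h170_w_pos 1
  have hwc := h170_w_cont
  have b1 : |∫ x in (-1 : ℝ)..1, ((1 - x ^ 2) * w x) * Real.cos (t * x)| ≤ 2 * w 1 := by
    rw [← h170_moment]
    refine h170_osc (fun x => (1 - x ^ 2) * w x) (by fun_prop) ?_ t
    intro x hx
    refine mul_nonneg ?_ (h170_w_pos x).le
    nlinarith [hx.1, hx.2]
  have b2 : |t * Real.sin t - Real.cos t| ≤ √(t ^ 2 + 1) := by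
    refine Real.abs_le_sqrt ?_
    have := Real.sin_sq_add_cos_sq t
    nlinarith [sq_nonneg (t * Real.cos t + Real.sin t)]
  have b3 : |∫ x in (-1 : ℝ)..1, w x * Real.cos (t * x)| ≤ 2 * w 1 * (√(t ^ 2 + 1) + 1) / t ^ 2 := by
    rw [h170_parts t ht]
    refine (abs_add_le _ _).trans ?_
    rw [abs_mul, abs_div, abs_div, abs_of_pos (by positivity : 0 < 2 * w 1), abs_of_pos (by positivity : 0 < t ^ 2)]
    have c1 : 2 * w 1 * (|t * Real.sin t - Real.cos t| / t ^ 2) ≤ 2 * w 1 * (√(t ^ 2 + 1) / t ^ 2) :=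
      mul_le_mul_of_nonneg_left (div_le_div_of_nonneg_right b2 (by positivity)) (by positivity)
    have c2 : |∫ x in (-1 : ℝ)..1, ((1 - x ^ 2) * w x) * Real.cos (t * x)| / t ^ 2 ≤ 2 * w 1 / t ^ 2 :=
      div_le_div_of_nonneg_right b1 (by positivity)
    calc _ ≤ 2 * w 1 * (√(t ^ 2 + 1) / t ^ 2) + 2 * w 1 / t ^ 2 := add_le_add c1 c2
      _ = _ := by ring
  have e1 : w 1 = Real.exp (-(1 / 2)) := by unfold w; norm_num
  unfold phi cc
  rw [abs_div, abs_of_pos hm, div_le_iff₀ hm, ← e1]
  refine b3.trans (le_of_eq ?_)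
  field_simp

/-- square integrability and more -/
theorem phi_rpow_integrable (s : ℝ) (hs : 1 < s) : Integrable (fun t : ℝ => |phi t| ^ s) := by
  have hm := m0_pos
  have hcc : 0 < cc := by unfold cc; positivity
  have hphi : Continuous phi := phi_contDiff.continuous
  have hbd : ∀ t : ℝ, |phi t| ≤ (2 + 6 * cc) * (1 + ‖t‖)⁻¹ := by
    have hpos : ∀ t : ℝ, 0 ≤ t → |phi t| ≤ (2 + 6 * cc) * (1 + t)⁻¹ := by
      intro t ht
      rw [← div_eq_mul_inv, le_div_iff₀ (by linarith)]
      rcases le_total t 1 with h1 | h1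
      · have h2 := phi_abs_le_one t
        have h3 := abs_nonneg (phi t)
        nlinarith
      · have h2 := phi_decay t (by linarith)
        have h3 : √(t ^ 2 + 1) ≤ 2 * t := by
          rw [Real.sqrt_le_left (by linarith)]
          nlinarith
        have h4 : cc * (√(t ^ 2 + 1) + 1) / t ^ 2 ≤ 3 * cc / t := by
          rw [div_le_div_iff₀ (by positivity) (by linarith)]
          have h5 : cc * (√(t ^ 2 + 1) + 1) ≤ cc * (3 * t) := mul_le_mul_of_nonneg_left (by linarith) hcc.le
          nlinarith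
        have h6 : |phi t| ≤ 3 * cc / t := h2.trans h4
        have h7 : 3 * cc / t * (1 + t) ≤ 6 * cc := by
          rw [div_mul_eq_mul_div, div_le_iff₀ (by linarith)]
          nlinarith
        have h8 : |phi t| * (1 + t) ≤ 3 * cc / t * (1 + t) := mul_le_mul_of_nonneg_right h6 (by linarith)
        linarith
    intro t
    rcases le_total 0 t with h | h
    · rw [Real.norm_of_nonneg h]
      exact hpos t h
    · have h1 := hpos (-t) (by linarith)
      rw [phi_neg] at h1
      rwa [Real.norm_of_nonpos h]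
  have h1 : Integrable (fun t : ℝ => (1 + ‖t‖) ^ (-s)) := by
    refine integrable_one_add_norm ?_
    rw [Module.finrank_self]
    exact_mod_cast hs
  have h2 := h1.const_mul ((2 + 6 * cc) ^ s)
  refine Integrable.mono' h2 ?_ (Filter.Eventually.of_forall fun t => ?_)
  · exact (Continuous.rpow_const hphi.abs (fun t => Or.inr (by linarith))).aestronglyMeasurable
  · have h3 : 0 ≤ |phi t| := abs_nonneg _
    have h4 : (0:ℝ) ≤ 1 + ‖t‖ := by positivity
    rw [Real.norm_of_nonneg (Real.rpow_nonneg h3 s)]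
    calc |phi t| ^ s ≤ ((2 + 6 * cc) * (1 + ‖t‖)⁻¹) ^ s := Real.rpow_le_rpow h3 (hbd t) (by linarith)
      _ = (2 + 6 * cc) ^ s * (1 + ‖t‖) ^ (-s) := by
        rw [Real.mul_rpow (by positivity) (by positivity), Real.inv_rpow h4, Real.rpow_neg h4]

end
end CG3
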